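import Mathlib
import Pool.Agent.Y95.MT.Gal
import Pool.Agent.Y95.MT.Basic

/-!
# Tangent vectors of an `ℓ`-adic representation lie in the Lie algebra of the Zariski closure
-/

set_option autoImplicit false
set_option linter.unusedSectionVars false

namespace Pool.Agent.R932

open MvPolynomial Matrix Filter Topology Pool.Agent.W528.ZC Pool.Agent.Y95.MT

noncomputable section

section alg

variable {K : Type} [Field K] {ι : Type} [Fintype ι] [DecidableEq ι]

theorem ev_D_X (x y : Matrix ι ι K) (p : ι × ι) : ev x (D y (X p)) = (x * y) p.1 p.2 := by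
  rw [D_X', lin, map_sum, Matrix.mul_apply]
  refine Finset.sum_congr rfl fun j _ => ?_
  rw [map_mul, ev_C, ev_X]
  ring

theorem ev_D_C (x y : Matrix ι ι K) (c : K) : ev x (D y (C c)) = 0 := by
  rw [D_C', map_zero]

theorem ev_D_mul (x y : Matrix ι ι K) (f g : MvPolynomial (ι × ι) K) :
    ev x (D y (f * g)) = ev x f * ev x (D y g) + ev x g * ev x (D y f) := by
  rw [Derivation.leibniz, map_add, smul_eq_mul, smul_eq_mul, map_mul, map_mul]

end alg

section deriv

variable {K : Type} [NormedField K] {ι : Type} [Fintype ι] [DecidableEq ι]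

theorem continuous_ev (f : MvPolynomial (ι × ι) K) : Continuous fun x : Matrix ι ι K => ev x f := by
  have h := MvPolynomial.continuous_eval f
  have h2 : Continuous fun x : Matrix ι ι K => (fun q : ι × ι => x q.1 q.2) := by
    refine continuous_pi fun q => ?_
    exact (continuous_apply_apply q.1 q.2)
  have h3 := h.comp h2
  refine h3.congr fun x => ?_
  show MvPolynomial.eval (fun q : ι × ι => x q.1 q.2) f = ev x f
  unfold ev
  rw [MvPolynomial.aeval_eq_eval₂Hom]
  rfl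

/-- the derivative of a polynomial function -/
theorem tendsto_ev (g : Matrix ι ι K) {t : ℕ → K} (ht0 : ∀ n, t n ≠ 0)
    (ht : Tendsto t atTop (𝓝 0)) {Y : ℕ → Matrix ι ι K} {X : Matrix ι ι K}
    (hY : Tendsto Y atTop (𝓝 X)) (f : MvPolynomial (ι × ι) K) :
    Tendsto (fun n => (t n)⁻¹ * (ev (g * (1 + t n • Y n)) f - ev g f)) atTop
      (𝓝 (ev g (D X f))) := by
  have hg : Tendsto (fun n => g * (1 + t n • Y n)) atTop (𝓝 g) := by
    have h1 : Tendsto (fun n => t n • Y n) atTop (𝓝 ((0 : K) • X)) := ht.smul hY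
    rw [zero_smul] at h1
    have h2 : Tendsto (fun n => (1 : Matrix ι ι K) + t n • Y n) atTop (𝓝 (1 + 0)) :=
      tendsto_const_nhds.add h1
    rw [add_zero] at h2
    have h3 : Tendsto (fun n => g * (1 + t n • Y n)) atTop (𝓝 (g * 1)) :=
      tendsto_const_nhds.mul h2
    rwa [mul_one] at h3
  induction f using MvPolynomial.induction_on with
  | C a =>
    rw [ev_D_C]
    refine tendsto_const_nhds.congr fun n => ?_
    rw [ev_C, ev_C, sub_self, mul_zero]
  | add f f' hf hf' =>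
    have h5 : ev g (D X (f + f')) = ev g (D X f) + ev g (D X f') := by
      rw [map_add, map_add]
    rw [h5]
    refine (hf.add hf').congr fun n => ?_
    rw [map_add, map_add]
    ring
  | mul_X f q hf =>
    rw [ev_D_mul, ev_D_X, ev_X]
    have h1 : Tendsto (fun n => (g * (1 + t n • Y n)) q.1 q.2) atTop (𝓝 (g q.1 q.2)) :=
      ((continuous_apply_apply q.1 q.2).tendsto g).comp hg
    have h2 : Tendsto (fun n => (g * Y n) q.1 q.2) atTop (𝓝 ((g * X) q.1 q.2)) :=
      ((continuous_apply_apply q.1 q.2).tendsto (g * X)).comp (tendsto_const_nhds.mul hY)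
    have h3 : ∀ n, (g * (1 + t n • Y n)) q.1 q.2 = g q.1 q.2 + t n * (g * Y n) q.1 q.2 := by
      intro n
      rw [mul_add, mul_one, Matrix.mul_smul, Matrix.add_apply, Matrix.smul_apply, smul_eq_mul]
    have h4 := (h2.const_mul (ev g f)).add (hf.mul h1)
    rw [mul_comm (ev g (D X f)) (g q.1 q.2)] at h4
    refine h4.congr fun n => ?_
    rw [map_mul, map_mul, ev_X, ev_X, h3]
    have := ht0 n
    field_simp
    ring

end deriv

section topo

variable {ℓ : ℕ} [Fact ℓ.Prime] {ι : Type} [Fintype ι] [DecidableEq ι] {Γ : Type} [Group Γ]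
  [TopologicalSpace Γ] [IsTopologicalGroup Γ] [CompactSpace Γ] {ρ : Γ →* Matrix ι ι ℚ_[ℓ]}

/-- a polynomial which vanishes on `ρ(Δ)` vanishes on the image of the closure of `Δ` -/
theorem vanish_closure (hρ : Continuous ρ) {Δ : Subgroup Γ} {f : MvPolynomial (ι × ι) ℚ_[ℓ]}
    (hf : ∀ s ∈ Δ, ev (ρ s) f = 0) : ∀ s ∈ Δ.topologicalClosure, ev (ρ s) f = 0 := by
  intro s hs
  have h1 : IsClosed {s : Γ | ev (ρ s) f = 0} :=
    isClosed_eq ((continuous_ev f).comp hρ) continuous_const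
  have h2 : (Δ : Set Γ) ⊆ {s : Γ | ev (ρ s) f = 0} := fun s hs => hf s hs
  exact closure_minimal h2 h1 hs

theorem open_closure {Δ : Subgroup Γ} (hΔ : Δ.FiniteIndex) :
    IsOpen (Δ.topologicalClosure : Set Γ) := by
  have : Δ.topologicalClosure.FiniteIndex := Subgroup.finiteIndex_of_le Δ.le_topologicalClosure
  exact Subgroup.isOpen_of_isClosed_of_finiteIndex _ Δ.isClosed_topologicalClosure

/-- elements whose image is close to `1` have the same image as elements of `U` -/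
theorem eventually_mem {E : Type} [Monoid E] [TopologicalSpace E] [T2Space E] {ρ : Γ →* E}
    (hρ : Continuous ρ) {U : Subgroup Γ} (hU : IsOpen (U : Set Γ))
    {σ : ℕ → Γ} (hσ : Tendsto (fun n => ρ (σ n)) atTop (𝓝 1)) :
    ∀ᶠ n in atTop, ∃ u ∈ U, ρ u = ρ (σ n) := by
  set V : Set Γ := {g | ∃ u ∈ U, ρ u = ρ g} with hV
  have hVo : IsOpen V := by
    rw [isOpen_iff_mem_nhds]
    rintro g ⟨u, hu, hug⟩
    have h1 : (fun x => g⁻¹ * x) ⁻¹' (U : Set Γ) ∈ 𝓝 g := by
      refine (hU.preimage (continuous_const_mul g⁻¹)).mem_nhds ?_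
      show g⁻¹ * g ∈ U
      rw [inv_mul_cancel]
      exact U.one_mem
    refine Filter.mem_of_superset h1 fun x hx => ?_
    refine ⟨u * (g⁻¹ * x), U.mul_mem hu hx, ?_⟩
    rw [map_mul, hug, ← map_mul, mul_inv_cancel_left]
  have hC : IsCompact (ρ '' Vᶜ) := (hVo.isClosed_compl.isCompact).image hρ
  have h1 : (1 : E) ∉ ρ '' Vᶜ := by
    rintro ⟨g, hg, hg1⟩
    exact hg ⟨1, U.one_mem, by rw [map_one, hg1]⟩
  have h2 : (ρ '' Vᶜ)ᶜ ∈ 𝓝 (1 : E) := hC.isClosed.isOpen_compl.mem_nhds h1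
  filter_upwards [hσ h2] with n hn
  by_contra h
  exact hn ⟨σ n, h, rfl⟩

theorem tendsto_one {X : Matrix ι ι ℚ_[ℓ]} {σ : ℕ → Γ}
    (hσ : Tendsto (fun n : ℕ => ((ℓ : ℚ_[ℓ]) ^ n)⁻¹ • (ρ (σ n) - 1)) atTop (𝓝 X)) :
    Tendsto (fun n => ρ (σ n)) atTop (𝓝 1) := by
  have hℓ : ‖(ℓ : ℚ_[ℓ])‖ < 1 := Padic.norm_p_lt_one
  have h1 : Tendsto (fun n : ℕ => (ℓ : ℚ_[ℓ]) ^ n) atTop (𝓝 0) :=
    tendsto_pow_atTop_nhds_zero_of_norm_lt_one hℓ
  have h2 := (h1.smul hσ).const_add (1 : Matrix ι ι ℚ_[ℓ])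
  rw [zero_smul, add_zero] at h2
  refine h2.congr fun n => ?_
  have h3 : (ℓ : ℚ_[ℓ]) ^ n ≠ 0 := pow_ne_zero _ (by
    exact_mod_cast (Fact.out : ℓ.Prime).ne_zero)
  rw [smul_smul, mul_inv_cancel₀ h3, one_smul, add_sub_cancel]

/-- tangent vectors preserve the ideal of the image of any subgroup of finite index -/
theorem tan_vanish (hρ : Continuous ρ) {X : Matrix ι ι ℚ_[ℓ]} {σ : ℕ → Γ}
    (hσ : Tendsto (fun n : ℕ => ((ℓ : ℚ_[ℓ]) ^ n)⁻¹ • (ρ (σ n) - 1)) atTop (𝓝 X))
    {Δ : Subgroup Γ} (hΔ : Δ.FiniteIndex) {f : MvPolynomial (ι × ι) ℚ_[ℓ]}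
    (hf : ∀ s ∈ Δ, ev (ρ s) f = 0) : ∀ s ∈ Δ, ev (ρ s) (D X f) = 0 := by
  intro s hs
  have hf' := vanish_closure hρ hf
  have h1 := eventually_mem hρ (open_closure hΔ) (tendsto_one hσ)
  have hℓ : ‖(ℓ : ℚ_[ℓ])‖ < 1 := Padic.norm_p_lt_one
  have h0 : ∀ n : ℕ, (ℓ : ℚ_[ℓ]) ^ n ≠ 0 := fun n => pow_ne_zero _ (by
    exact_mod_cast (Fact.out : ℓ.Prime).ne_zero)
  have h2 := tendsto_ev (ρ s) h0 (tendsto_pow_atTop_nhds_zero_of_norm_lt_one hℓ) hσ f
  refine tendsto_nhds_unique h2 (tendsto_const_nhds.congr' ?_)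
  filter_upwards [h1] with n hn
  obtain ⟨u, hu, hun⟩ := hn
  rw [smul_smul, mul_inv_cancel₀ (h0 n), one_smul, add_sub_cancel, ← hun, ← map_mul,
    hf' _ (Δ.topologicalClosure.mul_mem (Δ.le_topologicalClosure hs) hu), hf s hs, sub_self,
    mul_zero]

end topo

section basechange

variable {k K : Type} [Field k] [Field K] {ι : Type} [Fintype ι] [DecidableEq ι] {Γ : Type}
  [Group Γ] {ρ : Γ →* Matrix ι ι k}

/-- a linear functional applied to the coefficients -/
def coeffMap [Algebra k K] (φ : K →ₗ[k] k) (f : MvPolynomial (ι × ι) K) :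
    MvPolynomial (ι × ι) k :=
  ∑ m ∈ f.support, φ (coeff m f) • monomial m (1 : k)

theorem map_ev [Algebra k K] (x : Matrix ι ι k) (f : MvPolynomial (ι × ι) k) :
    ev (x.map (algebraMap k K)) (MvPolynomial.map (algebraMap k K) f) =
      algebraMap k K (ev x f) := ev_map_poly (algebraMap k K) x f

theorem ev_coeffMap [Algebra k K] (φ : K →ₗ[k] k) (x : Matrix ι ι k)
    (f : MvPolynomial (ι × ι) K) :
    ev x (coeffMap φ f) = φ (ev (x.map (algebraMap k K)) f) := by
  have h1 : ev (x.map (algebraMap k K)) f = ∑ m ∈ f.support,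
      (ev x (monomial m (1 : k))) • (coeff m f) := by
    conv_lhs => rw [← MvPolynomial.support_sum_monomial_coeff f]
    rw [map_sum]
    refine Finset.sum_congr rfl fun m _ => ?_
    have h2 : monomial m (coeff m f) = coeff m f • (monomial m (1 : K)) := by
      rw [MvPolynomial.smul_monomial, smul_eq_mul, mul_one]
    have h3 : (monomial m (1 : K) : MvPolynomial (ι × ι) K) =
        MvPolynomial.map (algebraMap k K) (monomial m (1 : k)) := by
      rw [MvPolynomial.map_monomial, map_one (algebraMap k K)]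
    rw [h2, map_smul, h3, map_ev, smul_eq_mul, Algebra.smul_def, mul_comm]
  rw [h1, map_sum]
  unfold coeffMap
  rw [map_sum]
  refine Finset.sum_congr rfl fun m _ => ?_
  rw [map_smul, map_smul, smul_eq_mul, smul_eq_mul, mul_comm]

theorem ev_D_coeffMap [Algebra k K] (φ : K →ₗ[k] k) (x y : Matrix ι ι k)
    (f : MvPolynomial (ι × ι) K) :
    ev x (D y (coeffMap φ f)) =
      φ (ev (x.map (algebraMap k K)) (D (y.map (algebraMap k K)) f)) := by
  have h1 : ev (x.map (algebraMap k K)) (D (y.map (algebraMap k K)) f) = ∑ m ∈ f.support,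
      (ev x (D y (monomial m (1 : k)))) • (coeff m f) := by
    conv_lhs => rw [← MvPolynomial.support_sum_monomial_coeff f]
    rw [map_sum, map_sum]
    refine Finset.sum_congr rfl fun m _ => ?_
    have h2 : monomial m (coeff m f) = coeff m f • (monomial m (1 : K)) := by
      rw [MvPolynomial.smul_monomial, smul_eq_mul, mul_one]
    have h3 : (monomial m (1 : K) : MvPolynomial (ι × ι) K) =
        MvPolynomial.map (algebraMap k K) (monomial m (1 : k)) := by
      rw [MvPolynomial.map_monomial, map_one (algebraMap k K)]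
    rw [h2, Derivation.map_smul, map_smul, h3, ← D_map_poly, map_ev, smul_eq_mul,
      Algebra.smul_def, mul_comm]
  rw [h1, map_sum]
  unfold coeffMap
  rw [map_sum, map_sum]
  refine Finset.sum_congr rfl fun m _ => ?_
  rw [Derivation.map_smul, map_smul, map_smul, smul_eq_mul, smul_eq_mul, mul_comm]

/-- the property of tangent vectors over a larger field -/
theorem base_change (j : k →+* K) {X : Matrix ι ι k} {Δ : Subgroup Γ}
    (hX : ∀ f : MvPolynomial (ι × ι) k, (∀ s ∈ Δ, ev (ρ s) f = 0) →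
      ∀ s ∈ Δ, ev (ρ s) (D X f) = 0)
    {f : MvPolynomial (ι × ι) K} (hf : ∀ s ∈ Δ, ev ((ρ s).map j) f = 0) :
    ∀ s ∈ Δ, ev ((ρ s).map j) (D (X.map j) f) = 0 := by
  let _ : Algebra k K := j.toAlgebra
  intro s hs
  rw [← Module.forall_dual_apply_eq_zero_iff k]
  intro φ
  have h1 := ev_D_coeffMap φ (ρ s) X f
  have h2 : ev (ρ s) (D X (coeffMap φ f)) = 0 := by
    refine hX _ (fun s hs => ?_) s hs
    rw [ev_coeffMap]
    have h3 : ev ((ρ s).map (algebraMap k K)) f = 0 := hf s hs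
    rw [h3, map_zero]
  rw [h2] at h1
  exact h1.symm

end basechange

section final

variable {ℓ : ℕ} [Fact ℓ.Prime] {ι : Type} [Fintype ι] [DecidableEq ι] {Γ : Type} [Group Γ]
  [TopologicalSpace Γ] [IsTopologicalGroup Γ] [CompactSpace Γ] {ρ : Γ →* Matrix ι ι ℚ_[ℓ]}

/-- tangent vectors belong to the Lie algebra of the Zariski closure -/
theorem tan_LS (hρ : Continuous ρ) {X : Matrix ι ι ℚ_[ℓ]} {σ : ℕ → Γ}
    (hσ : Tendsto (fun n : ℕ => ((ℓ : ℚ_[ℓ]) ^ n)⁻¹ • (ρ (σ n) - 1)) atTop (𝓝 X))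
    {K : Type} [Field K] (j : ℚ_[ℓ] →+* K) : X.map j ∈ LS (IG ρ j) := by
  rintro f ⟨Δ, hΔ, hf⟩
  exact ⟨Δ, hΔ, base_change j (fun f hf => tan_vanish hρ hσ hΔ hf) hf⟩

end final

end

end Pool.Agent.R932
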