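import Mathlib
import Pool.Agent.R932.Tan
import Pool.Agent.Y95.MT.GalSide
import Pool.Agent.Y95.MT.Main

/-!
# The Mumford-Tate conjecture for a direct sum, from tangent vectors
-/

set_option autoImplicit false
set_option linter.unusedSectionVars false

namespace Pool.Agent.R932

open MvPolynomial Matrix Filter Topology Pool.Agent.W528.ZC Pool.Agent.Y95.MT
open Pool.Agent.W544.PG (HS BD mC det_mC)

noncomputable section

variable {ℓ : ℕ} [Fact ℓ.Prime] {n r : ℕ} {κ : Type} [Fintype κ] [DecidableEq κ] {Γ : Type}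
  [Group Γ] {c : Fin n → Fin r} {T : HS n} {p q : Fin r → ℕ}
  {β : Γ →* Matrix (Fin n) (Fin n) ℤ_[ℓ]} {v : Γ →* Matrix κ κ ℚ_[ℓ]} {hV : ℂ → Matrix κ κ ℂ}

/-- the Lie algebra of the Zariski closure contains the Lie algebra of `SO(T)` -/
def SoIn (c : Fin n → Fin r) (T : HS n) (v : Γ →* Matrix κ κ ℚ_[ℓ])
    (β : Γ →* Matrix (Fin n) (Fin n) ℤ_[ℓ]) : Prop :=
  ∀ (e : ℚ_[ℓ] →+* ℂ) (Z : Matrix (Fin n) (Fin n) ℂ), Zᵀ * mC T.Q + mC T.Q * Z = 0 → BD c Z →
    fromBlocks 0 0 0 Z ∈ LS (IG (tot v β) e)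

theorem SO_St_gal' (hbQ : BD c T.Q) (hso : SoIn c T v β) (e : AlgebraicClosure ℚ_[ℓ] →+* ℂ)
    {t : Matrix (Fin n) (Fin n) (AlgebraicClosure ℚ_[ℓ])} (ht : InSO c T.Q t) :
    fromBlocks 1 0 0 t ∈ St (IG (tot v β) (algebraMap ℚ_[ℓ] (AlgebraicClosure ℚ_[ℓ]))) := by
  refine St_transfer e ?_
  rw [fb_map, Matrix.map_one _ (map_zero e) (map_one e)]
  exact SO_St (T := T) hbQ (fun Z hZ hZb => hso _ Z hZ hZb) (InSO_map e ht)

/-- the monodromy group of the direct sum -/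
theorem InG0_prod' (hg : GalT c T.Q β) (hbQ : BD c T.Q) (hso : SoIn c T v β)
    (e : AlgebraicClosure ℚ_[ℓ] →+* ℂ)
    {g : Matrix (κ ⊕ Fin n) (κ ⊕ Fin n) (AlgebraicClosure ℚ_[ℓ])} :
    InG0 (tot v β) g ↔ g = fromBlocks g.toBlocks₁₁ 0 0 g.toBlocks₂₂ ∧ InG0 v g.toBlocks₁₁ ∧
      InSO c T.Q g.toBlocks₂₂ := by
  obtain ⟨j, hj⟩ : ∃ j, j = algebraMap ℚ_[ℓ] (AlgebraicClosure ℚ_[ℓ]) := ⟨_, rfl⟩
  obtain ⟨Δ₀, hΔ₀, hdet⟩ := hg.exists_det hbQ (e.comp j)
  rw [InG0_iff, InG0_iff]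
  have htot : ∀ s, (tot v β s).map j = fromBlocks ((v s).map j) 0 0 ((qm (β s)).map j) :=
    fun s => fb_map _ _ _
  rw [← hj]
  constructor
  · intro h
    obtain ⟨h1, h2⟩ := (PSO_iff (c := c) (Q := T.Q) g).1 fun f hf => by
      rw [← ev_toK]
      refine h _ ⟨Δ₀, hΔ₀, fun s hs => ?_⟩
      rw [ev_toK]
      refine (PSO_iff (c := c) (Q := T.Q) _).2 ⟨?_, ?_⟩ f hf
      · rw [htot, Matrix.toBlocks_fromBlocks₁₁, Matrix.toBlocks_fromBlocks₂₂]
      · rw [htot, Matrix.toBlocks_fromBlocks₂₂]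
        exact hg.SO j (hdet s hs)
    refine ⟨h1, ?_, h2⟩
    rintro f ⟨Δ, hΔ, hf⟩
    rw [← ev_upK (n := n)]
    refine h _ ⟨Δ, hΔ, fun s hs => ?_⟩
    rw [ev_upK, htot, Matrix.toBlocks_fromBlocks₁₁]
    exact hf s hs
  · rintro ⟨h1, h2, h3⟩ f hf
    have hSt := SO_St_gal' (v := v) hbQ hso e h3
    rw [← hj] at hSt
    have h4 : g = 1 * fromBlocks g.toBlocks₁₁ 0 0 1 * fromBlocks 1 0 0 g.toBlocks₂₂ := by
      rw [one_mul, fb_mul, mul_one, one_mul]
      exact h1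
    rw [h4, ← ev_sub]
    have h5 := hSt f hf
    generalize sub 1 (fromBlocks 1 0 0 g.toBlocks₂₂) f = f' at h5
    rw [← ev_dnK]
    refine h2 _ ?_
    obtain ⟨Δ₁, hΔ₁, hu⟩ := exists_unif (tot v β) j
    refine ⟨Δ₀ ⊓ Δ₁, inferInstance, fun s hs => ?_⟩
    rw [ev_dnK]
    have hSt' := SO_St_gal' (v := v) hbQ hso e
      (hg.SO j (hdet s⁻¹ (Δ₀.inv_mem hs.1)))
    rw [← hj] at hSt'
    have h6 := hu _ (hSt' f' h5) s hs.2
    rw [ev_sub, htot, one_mul, fb_mul, mul_one] at h6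
    have h7 : (qm (β s)).map j * (qm (β s⁻¹)).map j = 1 := by
      rw [← Matrix.map_mul, ← qm_mul, ← map_mul, mul_inv_cancel, map_one, qm_one,
        Matrix.map_one _ (map_zero _) (map_one _)]
    rwa [h7] at h6

/-- the conjecture for the direct sum -/
theorem main' (hB : T.Big c p q) (hVd : ∀ z, z ≠ 0 → (hV z).det ≠ 0)
    (hx : fromBlocks 0 0 0 T.x ∈ LS (SH (hM hV T))) (hg : GalT c T.Q β)
    (hso : SoIn c T v β) : MTC (hM hV T) (tot v β) ↔ MTC hV v := by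
  obtain ⟨e⟩ := exists_emb ℓ
  constructor
  · intro h g hgd
    have hd : (fromBlocks g 0 0 (1 : Matrix (Fin n) (Fin n) (AlgebraicClosure ℚ_[ℓ]))).det ≠ 0 := by
      rw [fb_det, Matrix.det_one, mul_one]
      exact hgd
    have h1 := h _ hd
    rw [InG0_prod' hg hB.bQ hso e, InMT_iff (c := c) hB hVd hx e hd,
      Matrix.toBlocks_fromBlocks₁₁, Matrix.toBlocks_fromBlocks₂₂] at h1
    have h2 : InSO c T.Q (1 : Matrix (Fin n) (Fin n) (AlgebraicClosure ℚ_[ℓ])) := InSO_one _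
    constructor
    · intro h3
      exact (h1.1 ⟨rfl, h3, h2⟩).2.1
    · intro h3
      exact (h1.2 ⟨rfl, h3, h2⟩).2.1
  · intro h g hgd
    rw [InG0_prod' hg hB.bQ hso e, InMT_iff (c := c) hB hVd hx e hgd]
    refine and_congr_right fun h1 => and_congr_left fun _ => ?_
    refine h _ fun h2 => hgd ?_
    rw [h1, fb_det, h2, zero_mul]

/-! ### From tangent vectors -/

/-- all skew matrices are tangent vectors of the second summand inside the direct sum -/
def TanIn [TopologicalSpace Γ] (c : Fin n → Fin r) (T : HS n) (v : Γ →* Matrix κ κ ℚ_[ℓ])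
    (β : Γ →* Matrix (Fin n) (Fin n) ℤ_[ℓ]) : Prop :=
  ∀ X : Matrix (Fin n) (Fin n) ℚ_[ℓ], Xᵀ * T.Q.map (algebraMap ℚ ℚ_[ℓ]) +
    T.Q.map (algebraMap ℚ ℚ_[ℓ]) * X = 0 → BD c X →
    ∃ σ : ℕ → Γ, Tendsto (fun k : ℕ => ((ℓ : ℚ_[ℓ]) ^ k)⁻¹ • (tot v β (σ k) - 1)) atTop
      (𝓝 (fromBlocks 0 0 0 X))

theorem wd_anti {ι K : Type} [Field K] [Fintype ι] [DecidableEq ι] (B : Matrix ι ι K)
    (a b : ι → K) : wd B a b = -wd B b a := by
  unfold wd
  rw [neg_sub]

theorem wd_single_mem {K : Type} [Field K] {Q : Matrix (Fin n) (Fin n) K} {i : Fin r}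
    {L : Submodule K (Matrix (κ ⊕ Fin n) (κ ⊕ Fin n) K)}
    (hL : ∀ x y : Fin n, c x = i → c y = i →
      fromBlocks 0 0 0 (wd Q (Pi.single x 1) (Pi.single y 1)) ∈ L)
    {a b : Fin n → K} (ha : a ∈ (col c i : Submodule K (Fin n → K)))
    (hb : b ∈ (col c i : Submodule K (Fin n → K))) : fromBlocks 0 0 0 (wd Q a b) ∈ L := by
  have hadd : ∀ A B : Matrix (Fin n) (Fin n) K,
      (fromBlocks 0 0 0 (A + B) : Matrix (κ ⊕ Fin n) (κ ⊕ Fin n) K) =
      fromBlocks 0 0 0 A + fromBlocks 0 0 0 B := by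
    intro A B
    rw [Matrix.fromBlocks_add]
    simp
  have hsm : ∀ (z : K) (A : Matrix (Fin n) (Fin n) K),
      (fromBlocks 0 0 0 (z • A) : Matrix (κ ⊕ Fin n) (κ ⊕ Fin n) K) =
      z • fromBlocks 0 0 0 A := by
    intro z A
    rw [Matrix.fromBlocks_smul]
    simp
  have h1 : ∀ (x : Fin n), c x = i → ∀ b ∈ (col c i : Submodule K (Fin n → K)),
      fromBlocks 0 0 0 (wd Q (Pi.single x 1) b) ∈ L := by
    intro x hx b hb
    rw [col_sum hb]
    have h2 : ∀ F : Finset (Fin n), fromBlocks 0 0 0 (wd Q (Pi.single x 1)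
        (∑ y ∈ F, b y • (if c y = i then Pi.single y (1 : K) else 0))) ∈ L := by
      intro F
      induction F using Finset.induction_on with
      | empty =>
        rw [Finset.sum_empty, wd_zero, Matrix.fromBlocks_zero]
        exact L.zero_mem
      | insert y F hy ih =>
        rw [Finset.sum_insert hy, wd_add, wd_smul, hadd, hsm]
        refine L.add_mem (L.smul_mem _ ?_) ih
        split_ifs with hyi
        · exact hL x y hx hyi
        · rw [wd_zero, Matrix.fromBlocks_zero]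
          exact L.zero_mem
    exact h2 _
  rw [wd_anti, col_sum ha]
  have h2 : ∀ F : Finset (Fin n), fromBlocks 0 0 0 (-wd Q b
      (∑ y ∈ F, a y • (if c y = i then Pi.single y (1 : K) else 0))) ∈ L := by
    intro F
    induction F using Finset.induction_on with
    | empty =>
      rw [Finset.sum_empty, wd_zero, neg_zero, Matrix.fromBlocks_zero]
      exact L.zero_mem
    | insert y F hy ih =>
      rw [Finset.sum_insert hy, wd_add, wd_smul, neg_add, ← smul_neg, hadd, hsm]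
      refine L.add_mem (L.smul_mem _ ?_) ih
      rw [← wd_anti]
      split_ifs with hyi
      · exact h1 y hyi b hb
      · rw [wd_anti, wd_zero, neg_zero, Matrix.fromBlocks_zero]
        exact L.zero_mem
  exact h2 _

theorem wd_skew {K : Type} [Field K] {Q : Matrix (Fin n) (Fin n) K} (hQ : Qᵀ = Q)
    (a b : Fin n → K) : (wd Q a b)ᵀ * Q + Q * wd Q a b = 0 := by
  unfold wd
  simp only [Matrix.transpose_sub, Matrix.transpose_vecMulVec, sub_mul, mul_sub,
    Matrix.vecMulVec_mul, Matrix.mul_vecMulVec]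
  rw [← Matrix.mulVec_transpose, ← Matrix.mulVec_transpose, hQ]
  abel

theorem map_wd {K L : Type} [Field K] [Field L] (j : K →+* L) (Q : Matrix (Fin n) (Fin n) K)
    (a b : Fin n → K) : (wd Q a b).map j = wd (Q.map j) (fun x => j (a x)) (fun x => j (b x)) := by
  unfold wd
  ext x y
  simp [vecMulVec_apply, Matrix.mulVec, dotProduct, map_sum]

variable [TopologicalSpace Γ] [IsTopologicalGroup Γ] [CompactSpace Γ]

theorem soIn_of_tan (hbQ : BD c T.Q) (hcont : Continuous (tot v β)) (h : TanIn c T v β) :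
    SoIn c T v β := by
  intro e Z hZ hZb
  have hbQ' : BD c (mC T.Q) := fun a b hab => by simp [mC, hbQ a b hab]
  have hsy : (mC T.Q)ᵀ = mC T.Q := by
    have h1 := congrArg (fun M => mC M) T.symm
    simpa [mC, ← Matrix.transpose_map] using h1
  have hdet : (mC T.Q).det ≠ 0 := by
    rw [det_mC]
    exact_mod_cast W74.PG.det_ne T
  have hQe : (T.Q.map (algebraMap ℚ ℚ_[ℓ])).map e = mC T.Q := by
    rw [map_alg e, mC_eq]
  have hQs : (T.Q.map (algebraMap ℚ ℚ_[ℓ]))ᵀ = T.Q.map (algebraMap ℚ ℚ_[ℓ]) := by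
    rw [← Matrix.transpose_map, T.symm]
  refine skew_mem (c := c) hsy hdet hbQ' (fun i a b ha hb => ?_) hZ hZb
  refine wd_single_mem (c := c) (i := i) (fun x y hx hy => ?_) ha hb
  obtain ⟨σ, hσ⟩ := h (wd (T.Q.map (algebraMap ℚ ℚ_[ℓ])) (Pi.single x 1) (Pi.single y 1))
    (wd_skew hQs _ _) (fun a b hab => by
      unfold wd
      have h1 : ∀ (x : Fin n) (z : Fin n), c z ≠ c x →
          (T.Q.map (algebraMap ℚ ℚ_[ℓ]) *ᵥ Pi.single x 1) z = 0 := by
        intro x z hz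
        rw [Matrix.mulVec_single_one, Matrix.col_apply, Matrix.map_apply, hbQ z x hz, map_zero]
      rw [Matrix.sub_apply, vecMulVec_apply, vecMulVec_apply]
      by_cases ha : c a = i
      · have hbi : c b ≠ i := fun h => hab (ha.trans h.symm)
        rw [h1 y b (by rw [hy]; exact hbi), h1 x b (by rw [hx]; exact hbi)]
        ring
      · have hax : (Pi.single x 1 : Fin n → ℚ_[ℓ]) a = 0 := by
          rw [Pi.single_eq_of_ne]
          rintro rfl
          exact ha hx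
        have hay : (Pi.single y 1 : Fin n → ℚ_[ℓ]) a = 0 := by
          rw [Pi.single_eq_of_ne]
          rintro rfl
          exact ha hy
        rw [hax, hay]
        ring)
  have h1 := tan_LS hcont hσ e
  rw [fb_map, map_wd, hQe] at h1
  have h2 : ∀ x : Fin n, (fun z => e ((Pi.single x (1 : ℚ_[ℓ]) : Fin n → ℚ_[ℓ]) z)) =
      (Pi.single x 1 : Fin n → ℂ) := by
    intro x
    funext z
    by_cases hz : z = x
    · subst hz
      simp
    · simp [Pi.single_eq_of_ne hz]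
  rw [h2, h2, Matrix.map_zero _ (map_zero e)] at h1
  exact h1

/-- the case where the first summand has finite image -/
theorem tanIn_of_finite (hβ : Continuous fun s => qm (β s)) (hv : Continuous v)
    (hvf : (Set.range v).Finite)
    (h : ∀ X : Matrix (Fin n) (Fin n) ℚ_[ℓ], Xᵀ * T.Q.map (algebraMap ℚ ℚ_[ℓ]) +
      T.Q.map (algebraMap ℚ ℚ_[ℓ]) * X = 0 → BD c X →
      ∃ σ : ℕ → Γ, Tendsto (fun k : ℕ => ((ℓ : ℚ_[ℓ]) ^ k)⁻¹ • (qm (β (σ k)) - 1)) atTop (𝓝 X)) :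
    TanIn c T v β := by
  intro X hX hXb
  obtain ⟨σ, hσ⟩ := h X hX hXb
  let β' : Γ →* Matrix (Fin n) (Fin n) ℚ_[ℓ] :=
    { toFun := fun s => qm (β s)
      map_one' := by rw [map_one, qm_one]
      map_mul' := fun s t => by rw [map_mul, qm_mul] }
  have hker : IsOpen (v.ker : Set Γ) := by
    have h1 : (v.ker : Set Γ) = v ⁻¹' {1} := by
      ext s
      simp [MonoidHom.mem_ker]
    have h2 : (v.ker : Set Γ)ᶜ = v ⁻¹' (Set.range v \ {1}) := by
      ext s
      simp [MonoidHom.mem_ker]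
    rw [← isClosed_compl_iff, h2]
    exact (hvf.subset Set.sdiff_subset).isClosed.preimage hv
  have h1 := eventually_mem (ρ := β') hβ hker (tendsto_one (ρ := β') hσ)
  obtain ⟨τ, hτ⟩ : ∃ τ : ℕ → Γ, ∀ k, (∃ u ∈ v.ker, β' u = β' (σ k)) → τ k ∈ v.ker ∧
      β' (τ k) = β' (σ k) := by
    classical
    refine ⟨fun k => if hk : ∃ u ∈ v.ker, β' u = β' (σ k) then hk.choose else 1, fun k hk => ?_⟩
    simp only [dif_pos hk]
    exact ⟨hk.choose_spec.1, hk.choose_spec.2⟩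
  refine ⟨τ, ?_⟩
  have h2 : Tendsto (fun k : ℕ => (fromBlocks 0 0 0 (((ℓ : ℚ_[ℓ]) ^ k)⁻¹ • (qm (β (σ k)) - 1)) :
      Matrix (κ ⊕ Fin n) (κ ⊕ Fin n) ℚ_[ℓ])) atTop (𝓝 (fromBlocks 0 0 0 X)) := by
    have h3 : Continuous fun M : Matrix (Fin n) (Fin n) ℚ_[ℓ] =>
        (fromBlocks 0 0 0 M : Matrix (κ ⊕ Fin n) (κ ⊕ Fin n) ℚ_[ℓ]) :=
      continuous_const.matrix_fromBlocks continuous_const continuous_const continuous_id
    exact (h3.tendsto X).comp hσ
  refine h2.congr' ?_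
  filter_upwards [h1] with k hk
  obtain ⟨h3, h4⟩ := hτ k hk
  have h5 : qm (β (τ k)) = qm (β (σ k)) := h4
  rw [tot_apply, MonoidHom.mem_ker.1 h3, h5]
  ext a b
  rcases a with a | a <;> rcases b with b | b <;> simp [Matrix.one_apply]

end

end Pool.Agent.R932
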