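import Pool.Agent.R932.Odd
import Pool.Agent.R932.Sum
import Pool.Agent.Y337.ZO.Det
import Pool.Agent.Y337.ZO.Line
import Pool.Agent.Y708.ZO.Tan
import Pool.Agent.Y497.ZO.LogPow
import Pool.Agent.Y96.ZO.Spec
import Pool.Agent.Y405.ZO.Val
import Pool.Agent.Y405.ZO.Frob
import Pool.Agent.Y815.ZO.App
import Pool.Agent.Y458.ZO.Bad
import Pool.Agent.Y394.ZO.Dens
import Pool.Agent.Y484.ZI.IntRes
import Pool.Agent.Y726.ZI.Cheb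
import Pool.Agent.Y681.ZI.Dens
import Pool.Agent.Y537.ZI.Multi
import Pool.Agent.Y614.ZD.Badd
import Pool.Agent.Y100.ZD.Sub
import Pool.Agent.Y255.SS.LF
import Pool.Agent.Y297.SS.CF
import Pool.Agent.Y708.SS.Loc
import Pool.Agent.Y936.SS.Logr
import Pool.Agent.Y518.SS.Krs
import Pool.Agent.Y737.SS.Chara

/-!
# The Mumford-Tate conjecture at a set of primes of density one, odd rank
-/

set_option autoImplicit false
set_option linter.style.haveILetI false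
set_option linter.unusedSectionVars false

open Matrix Polynomial Filter Topology NumberField IsDedekindDomain
open Pool.Agent.Y142.ZO Pool.Agent.Y142.ZI
open Pool.Agent.Y142.ZS (NiceP)
open Pool.Agent.Y142.SS Pool.Agent.Y142.SI
open Pool.Agent.Y95.MT
open Pool.Agent.W544.PG (HS BD)

namespace Pool.Agent.R932

/-- the single colour -/
abbrev one1 (n : ℕ) : Fin n → Fin 1 := fun _ => 0

/-- the representation over `ℚ_ℓ` -/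
noncomputable def qrep {ℓ : ℕ} [Fact ℓ.Prime] {n : ℕ} {Γ : Type} [Group Γ]
    (β : Γ →* Matrix (Fin n) (Fin n) ℤ_[ℓ]) : Γ →* Matrix (Fin n) (Fin n) ℚ_[ℓ] where
  toFun s := qm (β s)
  map_one' := by rw [map_one, qm_one]
  map_mul' s t := by rw [map_mul, qm_mul]

theorem qrep_apply {ℓ : ℕ} [Fact ℓ.Prime] {n : ℕ} {Γ : Type} [Group Γ]
    (β : Γ →* Matrix (Fin n) (Fin n) ℤ_[ℓ]) (s : Γ) : qrep β s = qm (β s) := rfl

theorem continuous_qm {ℓ : ℕ} [Fact ℓ.Prime] {n : ℕ} :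
    Continuous (qm : Matrix (Fin n) (Fin n) ℤ_[ℓ] → Matrix (Fin n) (Fin n) ℚ_[ℓ]) := by
  unfold qm
  refine Continuous.matrix_map continuous_id ?_
  exact continuous_subtype_val

/-- the representation on `T` -/
structure RepT {K : Type} [Field K] [NumberField K] {Γ : Type} [Group Γ] [TopologicalSpace Γ]
    (s : GK K →* Γ) {n : ℕ} (T : HS n) (S : Set (HeightOneSpectrum (𝓞 K)))
    (P : HeightOneSpectrum (𝓞 K) → ℚ[X]) (ℓ : ℕ) [Fact ℓ.Prime]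
    (β : Γ →* Matrix (Fin n) (Fin n) ℤ_[ℓ]) : Prop where
  cont : Continuous β
  form : ∀ σ, (qm (β σ))ᵀ * T.Q.map (algebraMap ℚ ℚ_[ℓ]) * qm (β σ) = T.Q.map (algebraMap ℚ ℚ_[ℓ])
  frob : ∀ v ∉ S, (ℓ : 𝓞 K) ∉ v.asIdeal → ∀ σ : GK K, IsFrobenius v σ →
    (qm (β (s σ⁻¹))).charpoly = (P v).map (algebraMap ℚ ℚ_[ℓ])

section

variable {K : Type} [Field K] [NumberField K] {n : ℕ} {S : Set (HeightOneSpectrum (𝓞 K))}
  {P : HeightOneSpectrum (𝓞 K) → ℚ[X]} {Γ : Type} [Group Γ] [TopologicalSpace Γ]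
  [IsTopologicalGroup Γ] [CompactSpace Γ] {s : GK K →* Γ} {T : HS n}

theorem qdet {ℓ : ℕ} [Fact ℓ.Prime] (T : HS n) : (T.Q.map (algebraMap ℚ ℚ_[ℓ])).det ≠ 0 := by
  have h1 : (T.Q.map (algebraMap ℚ ℚ_[ℓ])).det = algebraMap ℚ ℚ_[ℓ] T.Q.det := by
    rw [RingHom.map_det, RingHom.mapMatrix_apply]
  rw [h1]
  exact (_root_.map_ne_zero _).2 (W74.PG.det_ne T)

theorem qsymm {ℓ : ℕ} [Fact ℓ.Prime] (T : HS n) :
    (T.Q.map (algebraMap ℚ ℚ_[ℓ]))ᵀ = T.Q.map (algebraMap ℚ ℚ_[ℓ]) := by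
  rw [← Matrix.transpose_map, T.symm]

theorem RepT.orthogonal {ℓ : ℕ} [Fact ℓ.Prime] {β : Γ →* Matrix (Fin n) (Fin n) ℤ_[ℓ]}
    (h : RepT s T S P ℓ β) (hs : Continuous s) :
    Orthogonal K n ℓ ((qrep β).comp s) (T.Q.map (algebraMap ℚ ℚ_[ℓ])) S P :=
  ⟨(continuous_qm.comp h.cont).comp hs, qsymm T, qdet T, fun g => h.form (s g),
    fun v hv hvℓ σ hσ => h.frob v hv hvℓ σ hσ⟩

/-- from the full Lie algebra to the Mumford-Tate conjecture -/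
theorem mtc_of_full {κ : Type} [Fintype κ] [DecidableEq κ] {ℓ : ℕ} [Fact ℓ.Prime]
    {β : Γ →* Matrix (Fin n) (Fin n) ℤ_[ℓ]} {v : Γ →* Matrix κ κ ℚ_[ℓ]}
    {p q : Fin 1 → ℕ} (hB : T.Big (one1 n) p q) (hv : Continuous v) (hvf : (Set.range v).Finite)
    (hβ : Continuous β) (hform : ∀ σ, (qm (β σ))ᵀ * T.Q.map (algebraMap ℚ ℚ_[ℓ]) * qm (β σ) =
      T.Q.map (algebraMap ℚ ℚ_[ℓ]))
    (hfull : ∀ X : Matrix (Fin n) (Fin n) ℚ_[ℓ], Xᵀ * T.Q.map (algebraMap ℚ ℚ_[ℓ]) +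
      T.Q.map (algebraMap ℚ ℚ_[ℓ]) * X = 0 →
      ∃ σ : ℕ → Γ, Tendsto (fun k : ℕ => ((ℓ : ℚ_[ℓ]) ^ k)⁻¹ • (qm (β (σ k)) - 1)) atTop (𝓝 X)) :
    MTC (hM (fun _ => (1 : Matrix κ κ ℂ)) T) (tot v β) := by
  have hbd : ∀ {R : Type} [Zero R] (A : Matrix (Fin n) (Fin n) R), BD (one1 n) A :=
    fun A a b hab => absurd rfl hab
  have hg : GalT (one1 n) T.Q β := ⟨hform, fun s => hbd _⟩
  have hcont : Continuous (tot v β) := by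
    show Continuous fun s => (fromBlocks (v s) 0 0 (qm (β s)) :
      Matrix (κ ⊕ Fin n) (κ ⊕ Fin n) ℚ_[ℓ])
    exact hv.matrix_fromBlocks continuous_const continuous_const (continuous_qm.comp hβ)
  have htan : TanIn (one1 n) T v β :=
    tanIn_of_finite (continuous_qm.comp hβ) hv hvf fun X hX _ => hfull X hX
  have hso : SoIn (one1 n) T v β := soIn_of_tan (hbd _) hcont htan
  exact (main' hB (fun _ _ => by rw [Matrix.det_one]; exact one_ne_zero) star_N hg hso).2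
    (MTC_N hvf)

theorem skew_iff {ℓ : ℕ} [Fact ℓ.Prime] {B X : Matrix (Fin n) (Fin n) ℚ_[ℓ]} (hB : Bᵀ = B) :
    Skew B X ↔ Xᵀ * B + B * X = 0 := by
  unfold Skew
  rw [Matrix.transpose_mul, hB, eq_neg_iff_add_eq_zero]

theorem mt_odd {κ : Type} [Fintype κ] [DecidableEq κ] (hn : Odd n) {p q : Fin 1 → ℕ}
    (hB : T.Big (one1 n) p q) (hS : S.Finite) (hs : Continuous s)
    (α : ∀ (ℓ : ℕ) [Fact ℓ.Prime], Γ →* Matrix κ κ ℚ_[ℓ])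
    (hα : ∀ (ℓ : ℕ) [Fact ℓ.Prime], Continuous (α ℓ) ∧ (Set.range (α ℓ)).Finite)
    (β : ∀ (ℓ : ℕ) [Fact ℓ.Prime], Γ →* Matrix (Fin n) (Fin n) ℤ_[ℓ])
    (hβ : ∀ (ℓ : ℕ) [Fact ℓ.Prime], RepT s T S P ℓ (β ℓ))
    {v₀ v₁ : HeightOneSpectrum (𝓞 K)} {Q₀ Q₁ : ℚ[X]}
    (hv₀ : GoodPlace S P v₀ Q₀)
    (h0 : ∀ x y z : ℂ, aeval x Q₀ = 0 → aeval y Q₀ = 0 → aeval z Q₀ = 0 → x * y ≠ z)
    (hv₁ : GoodPlace S P v₁ Q₁)
    (hsq : ¬ IsSquare (Q₀.eval 1 * Q₀.eval (-1) * (Q₁.eval 1 * Q₁.eval (-1))))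
    {m : ℕ} (u : Fin (m + 1) → HeightOneSpectrum (𝓞 K)) (hu : ∀ i, NiceP S P (u i))
    (hI : ∀ (g : GK ℚ) (d : ℕ), 2 ≤ d → (d = 2 ∨ d + 2 ≤ n) →
      ∃ v, NiceP S P v ∧ ∃ w ∈ NoSet d (P v), w⁻¹ * g ∈ Subgroup.closure (⋃ i, Fix (P (u i)))) :
    Y142.ZI.DensityZero {ℓ | ∃ _ : Fact ℓ.Prime,
      ¬ MTC (hM (fun _ => (1 : Matrix κ κ ℂ)) T) (tot (α ℓ) (β ℓ))} := by
  have hALG : Y142.ZO.S_ALG := Y142.ZO.alg_main
  have hISO : Y142.ZO.S_ISO := Y337.ZO.iso_t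
  have hLINE : Y142.ZO.S_LINE := Y337.ZO.line_t
  have hTAN : Y142.ZO.S_TAN := Y708.ZO.t
  have hLOG : Y142.ZO.S_LOG := Y497.ZO.log
  have hEXP : Y142.ZO.S_EXP := Y497.ZO.exp
  have hPOW : Y142.ZO.S_POW := Y497.ZO.pow
  have hSPEC : Y142.ZO.S_SPEC := Y96.ZO.t
  have hAPP : Y142.ZO.S_APP := Y815.ZO.t Y337.ZO.det_t Y337.ZO.qz_t hLOG
  have hFROB : Y142.ZO.S_FROB := Y405.ZO.t
  have hBAD : Y142.ZO.S_BAD := Y458.ZO.bad hISO hLINE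
  have hVAL : Y142.ZO.S_VAL := Y405.ZO.t1
  have hDENS : Y142.ZO.S_DENS := Y394.ZO.t1
  have hINF : Y142.ZO.S_INF := Y394.ZO.t2
  have hINT : Y142.ZI.S_INT := Y484.ZI.t1
  have hCHEB : Y142.ZI.S_CHEB := Y726.ZI.t1
  have hDENS2 : Y142.ZI.S_DENS2 := Y681.ZI.t hCHEB
  have hMULTI : Y142.ZI.S_MULTI := Y537.ZI.t
  have hLF : Y142.SS.S_LF := Y255.SS.t
  have hCF : Y142.SS.S_CF := Y297.SS.t hLF
  have hLOC : Y142.SS.S_LOC := Y708.SS.Loc.t hCF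
  have hLOGR : Y142.SS.S_LOGR := Y936.SS.t
  have hKRS : Y142.SS.S_KRS := Y518.SS.t
  have hCHARA : Y142.SS.S_CHARA := Y737.SS.Chara.t
  have hBADD : Y142.ZD.S_BADD := Y614.ZD.t
  have hSUB : Y142.ZD.S_SUB := Y100.ZD.t
  refine Y142.ZI.DensityZero.mono (density_odd hALG hISO hLINE hTAN hLOG hEXP hPOW hSPEC hAPP
    hFROB hBAD hVAL hDENS hINF hLOC hLOGR hKRS hCHARA hMULTI hINT hDENS2 hBADD hSUB hn hS hv₀ h0
    hv₁ hsq (fun ℓ _ => (qrep (β ℓ)).comp s) (fun ℓ _ => T.Q.map (algebraMap ℚ ℚ_[ℓ]))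
    (fun ℓ _ => (hβ ℓ).orthogonal hs) u hu hI) ?_
  rintro ℓ ⟨hp, hno⟩
  refine ⟨hp, fun hfull => hno ?_⟩
  refine mtc_of_full hB (hα ℓ).1 (hα ℓ).2 (hβ ℓ).cont (hβ ℓ).form fun X hX => ?_
  obtain ⟨σ, hσ⟩ := hfull X ((skew_iff (qsymm T)).2 hX)
  exact ⟨fun k => s (σ k), hσ⟩

end

end Pool.Agent.R932
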