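import Mathlib

/-!
# A simplicity statement for orthogonal Lie algebras
-/

set_option autoImplicit false
set_option linter.unusedSectionVars false

namespace Pool.Agent.R932

open Module

section

variable {K E M : Type} [Field K] [CharZero K] [AddCommGroup E] [Module K E]
  [FiniteDimensional K E] [AddCommGroup M] [Module K M]

/-- duality -/
theorem dual_ex {B : E →ₗ[K] E →ₗ[K] K} (hnd : ∀ a, (∀ b, B a b = 0) → a = 0)
    {F : Submodule K E} {a : E} (ha : a ∉ F) : ∃ d, (∀ f ∈ F, B d f = 0) ∧ B d a = 1 := by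
  obtain ⟨φ, hφ, hφF⟩ := Submodule.exists_le_ker_of_notMem ha
  have hinj : Function.Injective B := by
    rw [injective_iff_map_eq_zero]
    intro x hx
    exact hnd x fun b => by rw [hx, LinearMap.zero_apply]
  have hsur : Function.Surjective B :=
    (LinearMap.injective_iff_surjective_of_finrank_eq_finrank
      (Subspace.dual_finrank_eq (K := K) (V := E)).symm).1 hinj
  obtain ⟨d, hd⟩ := hsur ((φ a)⁻¹ • φ)
  refine ⟨d, fun f hf => ?_, ?_⟩
  · rw [hd, LinearMap.smul_apply, LinearMap.mem_ker.1 (hφF hf), smul_zero]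
  · rw [hd, LinearMap.smul_apply, smul_eq_mul, inv_mul_cancel₀ hφ]

/-- the orthogonal complement of two vectors is not contained in a plane -/
theorem orth_not_le (B : E →ₗ[K] E →ₗ[K] K) (h5 : 5 ≤ finrank K E) (a b : E)
    {F : Submodule K E} (hF : finrank K F ≤ 2) : ∃ y, B y a = 0 ∧ B y b = 0 ∧ y ∉ F := by
  by_contra hcon
  push Not at hcon
  let f : E →ₗ[K] K × K := (B.flip a).prod (B.flip b)
  have h1 : LinearMap.ker f ≤ F := by
    intro y hy
    rw [LinearMap.mem_ker] at hy
    have h2 : B y a = 0 := congrArg Prod.fst hy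
    have h3 : B y b = 0 := congrArg Prod.snd hy
    exact hcon y h2 h3
  have h2 := LinearMap.finrank_range_add_finrank_ker f
  have h3 : finrank K (LinearMap.range f) ≤ 2 := by
    have h4 := Submodule.finrank_le (LinearMap.range f)
    rwa [Module.finrank_prod, Module.finrank_self] at h4
  have h4 := Submodule.finrank_mono h1
  omega

theorem pair_le (a b : E) : finrank K (Submodule.span K {a, b}) ≤ 2 := by
  classical
  refine (finrank_span_le_card ({a, b} : Set E)).trans ?_
  rw [Set.toFinset_insert, Set.toFinset_singleton]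
  exact Finset.card_le_two

/-- an anisotropic vector orthogonal to two given vectors -/
theorem orth_ex {B : E →ₗ[K] E →ₗ[K] K} (hs : ∀ a b, B a b = B b a)
    (hnd : ∀ a, (∀ b, B a b = 0) → a = 0) (h5 : 5 ≤ finrank K E) (a b : E) :
    ∃ y, B y a = 0 ∧ B y b = 0 ∧ B y y ≠ 0 := by
  by_contra hcon
  push Not at hcon
  obtain ⟨y, hya, hyb, hy⟩ := orth_not_le B h5 a b (pair_le a b)
  obtain ⟨d, hd, hdy⟩ := dual_ex hnd hy
  have hda := hd a (Submodule.subset_span (by simp))
  have hdb := hd b (Submodule.subset_span (by simp))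
  have h1 := hcon (y + d) (by rw [map_add, LinearMap.add_apply, hya, hda, add_zero])
    (by rw [map_add, LinearMap.add_apply, hyb, hdb, add_zero])
  simp only [map_add, LinearMap.add_apply] at h1
  rw [hcon y hya hyb, hcon d hda hdb, hs y d, hdy] at h1
  norm_num at h1

variable {B : E →ₗ[K] E →ₗ[K] K} {ω : E →ₗ[K] E →ₗ[K] M} {T : E → E → M →ₗ[K] M}
  {L : Submodule K M}

theorem ω_anti (hω : ∀ a, ω a a = 0) (a b : E) : ω a b = -ω b a := by
  have h := hω (a + b)
  simp only [map_add, LinearMap.add_apply] at h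
  rw [hω, hω, zero_add, add_zero, add_comm] at h
  exact eq_neg_of_add_eq_zero_left h

theorem exch (hnd : ∀ a, (∀ b, B a b = 0) → a = 0)
    (hT : ∀ x d a b, T x d (ω a b) = ω (B d a • x - B x a • d) b + ω a (B d b • x - B x b • d))
    (hL : ∀ x d, ∀ m ∈ L, T x d m ∈ L) {a b : E} (hab : a ∉ Submodule.span K {b})
    (h : ω a b ∈ L) {x : E} (hxa : B x a = 0) (hxb : B x b = 0) : ω x b ∈ L := by
  obtain ⟨d, hd, hda⟩ := dual_ex hnd hab
  have hdb := hd b (Submodule.mem_span_singleton_self b)
  have h1 := hL x d _ h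
  rw [hT, hda, hxa, hdb, hxb, one_smul, zero_smul, sub_zero, zero_smul, sub_zero,
    map_zero, add_zero] at h1
  exact h1

theorem exch2 (hnd : ∀ a, (∀ b, B a b = 0) → a = 0) (h5 : 5 ≤ finrank K E)
    (hT : ∀ x d a b, T x d (ω a b) = ω (B d a • x - B x a • d) b + ω a (B d b • x - B x b • d))
    (hL : ∀ x d, ∀ m ∈ L, T x d m ∈ L) {a b : E} (hab : a ∉ Submodule.span K {b})
    (h : ω a b ∈ L) {x : E} (hxb : B x b = 0) : ω x b ∈ L := by
  obtain ⟨y, hya, hyb, hy⟩ := orth_not_le B h5 a b (pair_le a b)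
  have h1 := exch hnd hT hL hab h hya hyb
  have hyb' : y ∉ Submodule.span K {b} := fun h2 =>
    hy (Submodule.span_mono (by simp) h2)
  have ha : a ∉ Submodule.span K {b, y} := by
    intro h2
    rw [Submodule.mem_span_pair] at h2
    obtain ⟨s, t, h3⟩ := h2
    rcases eq_or_ne t 0 with rfl | ht
    · refine hab (Submodule.mem_span_singleton.2 ⟨s, ?_⟩)
      rw [← h3, zero_smul, add_zero]
    · refine hy (Submodule.mem_span_pair.2 ⟨t⁻¹, -(t⁻¹ * s), ?_⟩)
      rw [← h3, smul_add, smul_smul, smul_smul, inv_mul_cancel₀ ht, one_smul, neg_smul]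
      abel
  obtain ⟨d, hd, hda⟩ := dual_ex hnd ha
  have hdb := hd b (Submodule.subset_span (by simp))
  have hdy := hd y (Submodule.subset_span (by simp))
  have h2 := exch hnd hT hL hab h (x := x - B x a • d)
    (by rw [map_sub, map_smul, LinearMap.sub_apply, LinearMap.smul_apply, hda, smul_eq_mul,
      mul_one, sub_self])
    (by rw [map_sub, map_smul, LinearMap.sub_apply, LinearMap.smul_apply, hdb, hxb, smul_zero,
      sub_zero])
  have h3 := exch hnd hT hL hyb' h1 (x := B x a • d)
    (by rw [map_smul, LinearMap.smul_apply, hdy, smul_zero])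
    (by rw [map_smul, LinearMap.smul_apply, hdb, smul_zero])
  have h4 := L.add_mem h2 h3
  rwa [← LinearMap.add_apply, ← map_add, sub_add_cancel] at h4

theorem aniso_all (hnd : ∀ a, (∀ b, B a b = 0) → a = 0) (h5 : 5 ≤ finrank K E)
    (hω : ∀ a, ω a a = 0)
    (hT : ∀ x d a b, T x d (ω a b) = ω (B d a • x - B x a • d) b + ω a (B d b • x - B x b • d))
    (hL : ∀ x d, ∀ m ∈ L, T x d m ∈ L) {a b : E} (hab : a ∉ Submodule.span K {b})
    (h : ω a b ∈ L) (hb : B b b ≠ 0) (x : E) : ω x b ∈ L := by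
  have h1 := exch2 hnd h5 hT hL hab h (x := x - (B x b / B b b) • b) (by
    rw [map_sub, map_smul, LinearMap.sub_apply, LinearMap.smul_apply, smul_eq_mul,
      div_mul_cancel₀ _ hb, sub_self])
  rwa [map_sub, map_smul, LinearMap.sub_apply, LinearMap.smul_apply, hω, smul_zero,
    sub_zero] at h1

theorem all_of_one (hs : ∀ a b, B a b = B b a) (hnd : ∀ a, (∀ b, B a b = 0) → a = 0)
    (h5 : 5 ≤ finrank K E) (hω : ∀ a, ω a a = 0)
    (hT : ∀ x d a b, T x d (ω a b) = ω (B d a • x - B x a • d) b + ω a (B d b • x - B x b • d))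
    (hL : ∀ x d, ∀ m ∈ L, T x d m ∈ L) {a b : E} (hab : a ∉ Submodule.span K {b}) (hb : b ≠ 0)
    (h : ω a b ∈ L) (x y : E) : ω x y ∈ L := by
  obtain ⟨z, hzb, -, hz⟩ := orth_ex hs hnd h5 b b
  have h1 := exch2 hnd h5 hT hL hab h hzb
  have h2 : ω b z ∈ L := by
    rw [ω_anti hω]
    exact L.neg_mem h1
  have hbz : b ∉ Submodule.span K {z} := by
    intro h3
    obtain ⟨s, hs'⟩ := Submodule.mem_span_singleton.1 h3
    rw [← hs', map_smul, smul_eq_mul] at hzb
    rcases mul_eq_zero.1 hzb with h4 | h4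
    · rw [h4, zero_smul] at hs'
      exact hb hs'.symm
    · exact hz h4
  have hz1 : ∀ x, ω x z ∈ L := aniso_all hnd h5 hω hT hL hbz h2 hz
  have hz0 : z ≠ 0 := by
    rintro rfl
    rw [map_zero] at hz
    exact hz rfl
  have key : ∀ y, B y y ≠ 0 → ∀ x, ω x y ∈ L := by
    intro y hy x
    by_cases hyz : y ∈ Submodule.span K {z}
    · obtain ⟨s, rfl⟩ := Submodule.mem_span_singleton.1 hyz
      rw [map_smul]
      exact L.smul_mem _ (hz1 x)
    · refine aniso_all hnd h5 hω hT hL (a := z) ?_ ?_ hy x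
      · intro h3
        obtain ⟨s, hs'⟩ := Submodule.mem_span_singleton.1 h3
        have hs0 : s ≠ 0 := by
          rintro rfl
          rw [zero_smul] at hs'
          exact hz0 hs'.symm
        refine hyz (Submodule.mem_span_singleton.2 ⟨s⁻¹, ?_⟩)
        rw [← hs', smul_smul, inv_mul_cancel₀ hs0, one_smul]
      · rw [ω_anti hω]
        exact L.neg_mem (hz1 y)
  by_cases hy : B y y = 0
  · have h3 : ∃ s : K, B (y + s • z) (y + s • z) ≠ 0 := by
      by_contra hcon
      push Not at hcon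
      have e1 := hcon 1
      have e2 := hcon (-1)
      simp only [map_add, map_smul, LinearMap.add_apply, LinearMap.smul_apply, smul_eq_mul, hy,
        hs z y] at e1 e2
      apply hz
      linear_combination (1 / 2) * e1 + (1 / 2) * e2
    obtain ⟨s, hs'⟩ := h3
    have h4 := L.sub_mem (key _ hs' x) (L.smul_mem s (hz1 x))
    rwa [map_add, map_smul, add_sub_cancel_right] at h4
  · exact key y hy x

/-- a nonzero skew operator moves an isotropic line -/
theorem exists_iso [IsAlgClosed K] (hs : ∀ a b, B a b = B b a)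
    (hnd : ∀ a, (∀ b, B a b = 0) → a = 0) (h5 : 5 ≤ finrank K E) {Z : E →ₗ[K] E}
    (hZ : ∀ a b, B (Z a) b + B a (Z b) = 0) (hZ0 : Z ≠ 0) :
    ∃ u, B u u = 0 ∧ Z u ∉ Submodule.span K {u} := by
  by_contra hcon
  push Not at hcon
  have hcon' : ∀ u, B u u = 0 → ∃ s : K, Z u = s • u := by
    intro u hu
    obtain ⟨s, hs'⟩ := Submodule.mem_span_singleton.1 (hcon u hu)
    exact ⟨s, hs'.symm⟩
  obtain ⟨a, -, -, ha⟩ := orth_ex hs hnd h5 0 0
  obtain ⟨b, hba, -, hb⟩ := orth_ex hs hnd h5 a a
  obtain ⟨I, hI⟩ := IsAlgClosed.exists_pow_nat_eq (-(B a a) / B b b) (two_pos)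
  have hI0 : I ^ 2 * B b b = -(B a a) := by
    rw [hI]
    field_simp
  -- a hyperbolic pair
  obtain ⟨u, v, huu, hvv, huv⟩ : ∃ u v, B u u = 0 ∧ B v v = 0 ∧ B u v = 1 := by
    refine ⟨a + I • b, (2 * B a a)⁻¹ • (a - I • b), ?_, ?_, ?_⟩
    · simp only [map_add, map_smul, LinearMap.add_apply, LinearMap.smul_apply, smul_eq_mul,
        hs a b, hba]
      linear_combination hI0
    · simp only [map_sub, map_smul, LinearMap.sub_apply, LinearMap.smul_apply, smul_eq_mul,
        hs a b, hba]
      linear_combination ((2 * B a a)⁻¹) ^ 2 * hI0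
    · simp only [map_sub, map_add, map_smul, LinearMap.sub_apply, LinearMap.add_apply,
        LinearMap.smul_apply, smul_eq_mul, hs a b, hba]
      have h2 : (2 * B a a)⁻¹ * (B a a - I ^ 2 * B b b) = 1 := by
        rw [hI0]
        field_simp
        ring
      linear_combination h2
  have hvu : B v u = 1 := by rw [hs, huv]
  obtain ⟨s, hu⟩ := hcon' u huu
  obtain ⟨t, hv⟩ := hcon' v hvv
  have hst : s + t = 0 := by
    have h1 := hZ u v
    rw [hu, hv, map_smul, map_smul, LinearMap.smul_apply, huv] at h1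
    simpa using h1
  have ht : t = -s := by linear_combination hst
  have hv0 : v ≠ 0 := by
    rintro rfl
    rw [map_zero] at huv
    exact zero_ne_one huv
  have hw : ∀ w, B w u = 0 → B w v = 0 → Z w = s • w - (s * B w w) • v := by
    intro w hwu hwv
    have huw : B u w = 0 := by rw [hs, hwu]
    have hvw : B v w = 0 := by rw [hs, hwv]
    obtain ⟨m, hm⟩ : ∃ m, m = u + w - (B w w / 2) • v := ⟨_, rfl⟩
    have h1 : B m m = 0 := by
      rw [hm]
      simp only [map_sub, map_add, map_smul, LinearMap.sub_apply, LinearMap.add_apply,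
        LinearMap.smul_apply, smul_eq_mul, huu, huv, hvu, hvv, hwu, hwv, huw, hvw]
      ring
    obtain ⟨ν, hν⟩ := hcon' m h1
    have hmv : B m v = 1 := by
      rw [hm]
      simp only [map_sub, map_add, map_smul, LinearMap.sub_apply, LinearMap.add_apply,
        LinearMap.smul_apply, smul_eq_mul, huv, hvv, hwv]
      ring
    have h2 : ν = s := by
      have h3 := hZ m v
      rw [hν, hv, map_smul, map_smul, LinearMap.smul_apply, hmv, ht] at h3
      simp only [smul_eq_mul, mul_one] at h3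
      linear_combination h3
    have h3 : Z w = Z m - Z u + (B w w / 2) • Z v := by
      rw [hm, map_sub, map_add, map_smul]
      abel
    rw [h3, hν, h2, hu, hv, ht, hm]
    module
  have hs0 : s = 0 := by
    obtain ⟨w, hwu, hwv, hww⟩ := orth_ex hs hnd h5 u v
    have h1 := hw w hwu hwv
    have h2 := hw (-w) (by rw [map_neg, LinearMap.neg_apply, hwu, neg_zero])
      (by rw [map_neg, LinearMap.neg_apply, hwv, neg_zero])
    have h3 : B (-w) (-w) = B w w := by
      rw [map_neg, map_neg, LinearMap.neg_apply, neg_neg]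
    rw [h3, map_neg, h1] at h2
    have h4 : (2 * (s * B w w)) • v = 0 := by
      have h5 : (2 * (s * B w w)) • v = -(s • w - (s * B w w) • v) -
          (s • -w - (s * B w w) • v) := by module
      rw [h5, h2, sub_self]
    rcases smul_eq_zero.1 h4 with h5 | h5
    · rcases mul_eq_zero.1 h5 with h6 | h6
      · exact absurd h6 two_ne_zero
      · exact (mul_eq_zero.1 h6).resolve_right hww
    · exact absurd h5 hv0
  apply hZ0
  ext x
  have h1 := hw (x - B x v • u - B x u • v) (by
    simp only [map_sub, map_smul, LinearMap.sub_apply, LinearMap.smul_apply, smul_eq_mul, huu, hvu]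
    ring) (by
    simp only [map_sub, map_smul, LinearMap.sub_apply, LinearMap.smul_apply, smul_eq_mul, huv, hvv]
    ring)
  rw [hs0, zero_smul, zero_mul, zero_smul, sub_zero, map_sub, map_sub, map_smul, map_smul, hu, hv,
    ht, hs0, neg_zero, zero_smul, zero_smul, smul_zero, smul_zero, sub_zero, sub_zero] at h1
  rw [h1, LinearMap.zero_apply]

theorem simple [IsAlgClosed K] (hs : ∀ a b, B a b = B b a)
    (hnd : ∀ a, (∀ b, B a b = 0) → a = 0) (h5 : 5 ≤ finrank K E) (hω : ∀ a, ω a a = 0)
    (hT : ∀ x d a b, T x d (ω a b) = ω (B d a • x - B x a • d) b + ω a (B d b • x - B x b • d))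
    (hL : ∀ x d, ∀ m ∈ L, T x d m ∈ L) {Z : E →ₗ[K] E}
    (hZ : ∀ a b, B (Z a) b + B a (Z b) = 0) (hZ0 : Z ≠ 0)
    (hZL : ∀ a b, ω (Z a) b + ω a (Z b) ∈ L) (x y : E) : ω x y ∈ L := by
  obtain ⟨u, huu, hu⟩ := exists_iso hs hnd h5 hZ hZ0
  obtain ⟨b, hbu, hbz, hb⟩ := orth_ex hs hnd h5 u (Z u)
  have huz : B u (Z u) = 0 := by
    have h1 := hZ u u
    rw [hs (Z u) u] at h1
    have h2 : (2 : K) * B u (Z u) = 0 := by linear_combination h1
    exact (mul_eq_zero.1 h2).resolve_left two_ne_zero
  have hub : B u b = 0 := by rw [hs, hbu]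
  have h1 : B u (Z b) = 0 := by
    have h2 := hZ u b
    rw [hs (Z u) b, hbz, zero_add] at h2
    exact h2
  have h2 : B b (Z b) = 0 := by
    have h1 := hZ b b
    rw [hs (Z b) b] at h1
    have h2 : (2 : K) * B b (Z b) = 0 := by linear_combination h1
    exact (mul_eq_zero.1 h2).resolve_left two_ne_zero
  have h3 := hL u b _ (hZL u b)
  rw [map_add, hT, hT, hbz, huz, hub, hbu, huu, h1, h2] at h3
  simp only [zero_smul, sub_zero, map_zero, LinearMap.zero_apply, zero_add, add_zero] at h3
  rw [map_smul] at h3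
  have h4 : ω (Z u) u ∈ L := by
    have h5 := L.smul_mem (B b b)⁻¹ h3
    rwa [smul_smul, inv_mul_cancel₀ hb, one_smul] at h5
  refine all_of_one hs hnd h5 hω hT hL hu ?_ h4 x y
  rintro rfl
  apply hu
  rw [map_zero]
  exact Submodule.zero_mem _

end

end Pool.Agent.R932
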