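import Mathlib
import Pool.Agent.R932.Tan

/-!
# The Lie algebra of the Zariski closure of a cyclic group

Let `F` be an element of the image with eigenvalues `x`, and `k` a homomorphism from the multiplicative
group of the field to the additive group. The operator `H` which acts on the generalised eigenspace for
`x` as the scalar `k x` lies in the Lie algebra of the Zariski closure.
-/

set_option autoImplicit false
set_option linter.unusedSectionVars false

namespace Pool.Agent.R932

open MvPolynomial Matrix Pool.Agent.W528.ZC Pool.Agent.Y95.MT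

noncomputable section

/-! ### linear algebra -/

section la

variable {K E : Type} [Field K] [AddCommGroup E] [Module K E]

theorem aeval_stable {R : Module.End K E} {W : Submodule K E} (hW : ∀ g ∈ W, R g ∈ W)
    (p : Polynomial K) : ∀ g ∈ W, Polynomial.aeval R p g ∈ W := by
  induction p using Polynomial.induction_on' with
  | add p q hp hq =>
    intro w hw
    rw [map_add, LinearMap.add_apply]
    exact W.add_mem (hp w hw) (hq w hw)
  | monomial n a =>
    intro w hw
    rw [Polynomial.aeval_monomial, Module.End.mul_apply, Module.algebraMap_end_apply]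
    apply W.smul_mem
    induction n with
    | zero => exact hw
    | succ n ih =>
      rw [pow_succ', Module.End.mul_apply]
      exact hW _ ih

/-- `g` is a generalised eigenvector -/
def IsGen (R : Module.End K E) (x : K) (g : E) : Prop := ∃ N : ℕ, ((R - x • 1) ^ N) g = 0

theorem sep {R : Module.End K E} {W : Submodule K E} (hW : ∀ g ∈ W, R g ∈ W) (s : Finset K) :
    ∀ g : K → E, (∀ x ∈ s, IsGen R x (g x)) → ∑ x ∈ s, g x ∈ W → ∀ x ∈ s, g x ∈ W := by
  classical
  induction s using Finset.induction_on with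
  | empty => intro g _ _ x hx; exact absurd hx (Finset.notMem_empty x)
  | insert x₀ s hx₀ ih =>
    intro g hg hsum
    obtain ⟨N₀, hN₀⟩ := hg x₀ (Finset.mem_insert_self _ _)
    have hp : ∀ (x : K) (N : ℕ), Polynomial.aeval R ((Polynomial.X - Polynomial.C x) ^ N) =
        (R - x • 1) ^ N := by
      intro x N
      rw [map_pow, map_sub, Polynomial.aeval_X, Polynomial.aeval_C,
        Algebra.algebraMap_eq_smul_one]
    have hWN : ∀ (x : K) (N : ℕ), ∀ w ∈ W, ((R - x • 1) ^ N) w ∈ W := by
      intro x N w hw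
      rw [← hp]
      exact aeval_stable hW _ w hw
    have hcomm : ∀ (x y : K) (M N : ℕ) (w : E), ((R - x • 1) ^ M) (((R - y • 1) ^ N) w) =
        ((R - y • 1) ^ N) (((R - x • 1) ^ M) w) := by
      intro x y M N w
      rw [← Module.End.mul_apply, ← Module.End.mul_apply, ← hp, ← hp, ← map_mul, ← map_mul,
        mul_comm]
    have h1 := ih (fun x => ((R - x₀ • 1) ^ N₀) (g x)) (by
      intro x hx
      obtain ⟨N, hN⟩ := hg x (Finset.mem_insert_of_mem hx)
      exact ⟨N, by rw [hcomm, hN, map_zero]⟩) (by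
      have h2 := hWN x₀ N₀ _ hsum
      rw [Finset.sum_insert hx₀, map_add, hN₀, zero_add, map_sum] at h2
      exact h2)
    have h3 : ∀ x ∈ s, g x ∈ W := by
      intro x hx
      obtain ⟨N, hN⟩ := hg x (Finset.mem_insert_of_mem hx)
      have hne : x₀ ≠ x := by
        rintro rfl
        exact hx₀ hx
      have hcop : IsCoprime ((Polynomial.X - Polynomial.C x₀) ^ N₀)
          ((Polynomial.X - Polynomial.C x) ^ N) :=
        (Polynomial.isCoprime_X_sub_C_of_isUnit_sub (sub_ne_zero.2 hne).isUnit).pow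
      obtain ⟨a, b, hab⟩ := hcop
      have h4 := congrArg (fun p => Polynomial.aeval R p (g x)) hab
      simp only [map_add, map_mul, map_one, hp, LinearMap.add_apply, Module.End.mul_apply,
        Module.End.one_apply, hN, map_zero, add_zero] at h4
      rw [← h4]
      exact aeval_stable hW _ _ (h1 x hx)
    intro x hx
    rcases Finset.mem_insert.1 hx with rfl | hx
    · rw [Finset.sum_insert hx₀] at hsum
      have h4 := W.sub_mem hsum (W.sum_mem fun y hy => h3 y hy)
      rwa [add_sub_cancel_right] at h4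
    · exact h3 x hx

theorem IsGen.add {R : Module.End K E} {x : K} {f g : E} (hf : IsGen R x f) (hg : IsGen R x g) :
    IsGen R x (f + g) := by
  obtain ⟨M, hM⟩ := hf
  obtain ⟨N, hN⟩ := hg
  refine ⟨M + N, ?_⟩
  rw [map_add]
  nth_rewrite 1 [add_comm M N]
  rw [pow_add, pow_add, Module.End.mul_apply, Module.End.mul_apply, hM, hN, map_zero, map_zero,
    add_zero]

/-- generalised eigenvectors of a power -/
theorem IsGen.pow {R : Module.End K E} {x : K} {f : E} (hf : IsGen R x f) (M : ℕ) :
    IsGen (R ^ M) (x ^ M) f := by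
  obtain ⟨N, hN⟩ := hf
  refine ⟨N, ?_⟩
  obtain ⟨q, hq⟩ : (Polynomial.X - Polynomial.C x) ∣
      (Polynomial.X ^ M - Polynomial.C (x ^ M) : Polynomial K) := by
    rw [Polynomial.dvd_iff_isRoot]
    simp
  have h1 : R ^ M - x ^ M • 1 = Polynomial.aeval R q * (R - x • 1) := by
    have h2 := congrArg (Polynomial.aeval R) hq
    rw [mul_comm, map_mul, map_sub, map_sub, map_pow, Polynomial.aeval_X, Polynomial.aeval_C,
      Polynomial.aeval_C, Algebra.algebraMap_eq_smul_one, Algebra.algebraMap_eq_smul_one] at h2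
    exact h2
  have hc : Commute (Polynomial.aeval R q) (R - x • 1) := by
    have h2 : R - x • 1 = Polynomial.aeval R (Polynomial.X - Polynomial.C x) := by
      rw [map_sub, Polynomial.aeval_X, Polynomial.aeval_C, Algebra.algebraMap_eq_smul_one]
    rw [h2]
    show _ * _ = _ * _
    rw [← map_mul, ← map_mul, mul_comm]
  rw [h1, hc.mul_pow, Module.End.mul_apply, hN, map_zero]

/-- an operator which is scalar on the generalised eigenspaces preserves the stable subspaces -/
theorem stable_of_gen {R D' : Module.End K E} {W : Submodule K E} (hW : ∀ g ∈ W, R g ∈ W)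
    (κ : K → K) (htop : ∀ f : E, f ∈ Submodule.span K {g | ∃ x, IsGen R x g ∧ D' g = κ x • g}) :
    ∀ f ∈ W, D' f ∈ W := by
  classical
  intro f hf
  let Ex : K → Submodule K E := fun x =>
    { carrier := {g | IsGen R x g ∧ D' g = κ x • g}
      zero_mem' := ⟨⟨0, map_zero _⟩, by rw [map_zero, smul_zero]⟩
      add_mem' := by
        rintro a b ⟨h1, h2⟩ ⟨h3, h4⟩
        exact ⟨h1.add h3, by rw [map_add, h2, h4, smul_add]⟩
      smul_mem' := by
        rintro c a ⟨⟨N, h1⟩, h2⟩
        exact ⟨⟨N, by rw [map_smul, h1, smul_zero]⟩, by rw [map_smul, h2, smul_comm]⟩ }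
  have h1 : f ∈ ⨆ x, Ex x := by
    have h2 : Submodule.span K {g | ∃ x, IsGen R x g ∧ D' g = κ x • g} ≤ ⨆ x, Ex x := by
      rw [Submodule.span_le]
      rintro g ⟨x, hg⟩
      exact (le_iSup Ex x) hg
    exact h2 (htop f)
  obtain ⟨g, hg, hsum⟩ := (Submodule.mem_iSup_iff_exists_finsupp Ex f).1 h1
  have h2 : ∑ x ∈ g.support, g x = f := by
    rw [← hsum]
    rfl
  have h3 := sep hW g.support (fun x => g x) (fun x _ => (hg x).1) (by rw [h2]; exact hf)
  rw [← h2, map_sum]
  refine W.sum_mem fun x hx => ?_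
  rw [(hg x).2]
  exact W.smul_mem _ (h3 x hx)

end la

/-! ### polynomials -/

section pol

variable {K : Type} [Field K] {ι : Type} [Fintype ι] [DecidableEq ι]

/-- right translation as a linear map -/
def RT (F : Matrix ι ι K) : Module.End K (MvPolynomial (ι × ι) K) := (sub 1 F).toLinearMap

theorem RT_apply (F : Matrix ι ι K) (f : MvPolynomial (ι × ι) K) : RT F f = sub 1 F f := rfl

theorem RT_pow [Infinite K] (F : Matrix ι ι K) (m : ℕ) : RT F ^ m = RT (F ^ m) := by
  induction m with
  | zero =>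
    rw [pow_zero, pow_zero]
    refine LinearMap.ext fun f => ?_
    rw [RT_apply, sub_one]
    rfl
  | succ m ih =>
    rw [pow_succ, ih, pow_succ']
    refine LinearMap.ext fun f => ?_
    rw [Module.End.mul_apply, RT_apply, RT_apply, RT_apply, Pool.Agent.W528.ZC.sub_sub, mul_one,
      ← pow_succ, ← pow_succ']

/-- linear forms in one row -/
def rowf (i : ι) : (ι → K) →ₗ[K] MvPolynomial (ι × ι) K where
  toFun w := ∑ j, w j • X (i, j)
  map_add' := by
    intro a b
    rw [← Finset.sum_add_distrib]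
    exact Finset.sum_congr rfl fun j _ => by rw [Pi.add_apply, add_smul]
  map_smul' := by
    intro c a
    rw [Finset.smul_sum]
    exact Finset.sum_congr rfl fun j _ => by
      rw [Pi.smul_apply, smul_smul, RingHom.id_apply, smul_eq_mul]

theorem rowf_apply (i : ι) (w : ι → K) : rowf i w = ∑ j, w j • X (i, j) := rfl

theorem lin_rowf (b : Matrix ι ι K) (i j : ι) : lin b (i, j) = rowf i (fun l => b l j) := by
  unfold lin
  rw [rowf_apply]
  refine Finset.sum_congr rfl fun l _ => ?_
  rw [MvPolynomial.smul_eq_C_mul]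

theorem rowf_mulVec (b : Matrix ι ι K) (i : ι) (w : ι → K) :
    ∑ j, w j • rowf i (fun l => b l j) = rowf i (b *ᵥ w) := by
  simp_rw [← map_smul, ← map_sum]
  congr 1
  funext l
  rw [Finset.sum_apply, Matrix.mulVec, dotProduct]
  refine Finset.sum_congr rfl fun j _ => ?_
  rw [Pi.smul_apply, smul_eq_mul, mul_comm]

theorem RT_rowf (F : Matrix ι ι K) (i : ι) (w : ι → K) : RT F (rowf i w) = rowf i (F *ᵥ w) := by
  rw [rowf_apply, map_sum, ← rowf_mulVec]
  refine Finset.sum_congr rfl fun j _ => ?_
  rw [map_smul, RT_apply, sub_X', lin_rowf]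

theorem D_rowf (H : Matrix ι ι K) (i : ι) (w : ι → K) : D H (rowf i w) = rowf i (H *ᵥ w) := by
  rw [rowf_apply, map_sum, ← rowf_mulVec]
  refine Finset.sum_congr rfl fun j _ => ?_
  rw [Derivation.map_smul, D_X', lin_rowf]

theorem rowf_gen {F : Matrix ι ι K} {x : K} (i : ι) (N : ℕ) :
    ∀ w : ι → K, ((RT F - x • 1) ^ N) (rowf i w) =
      rowf i (((Matrix.toLin' F - x • 1) ^ N) w) := by
  induction N with
  | zero => intro w; rfl
  | succ N ih =>
    intro w
    rw [pow_succ, pow_succ, Module.End.mul_apply, Module.End.mul_apply, ← ih]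
    congr 1
    rw [LinearMap.sub_apply, RT_rowf, LinearMap.smul_apply, Module.End.one_apply,
      LinearMap.sub_apply, toLin'_apply, LinearMap.smul_apply, Module.End.one_apply, map_sub,
      map_smul]

/-- products of generalised eigenvectors -/
theorem gen_mul {F : Matrix ι ι K} {x y : K} : ∀ (n a b : ℕ) (_ : a + b ≤ n)
    (f g : MvPolynomial (ι × ι) K),
    ((RT F - x • 1) ^ a) f = 0 → ((RT F - y • 1) ^ b) g = 0 →
    ((RT F - (x * y) • 1) ^ (a + b)) (f * g) = 0 := by
  intro n
  induction n with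
  | zero =>
    intro a b hab f g hf hg
    have ha : a = 0 := by omega
    subst ha
    have hf' : f = 0 := hf
    rw [hf', zero_mul, map_zero]
  | succ n ih =>
    intro a b hab f g hf hg
    rcases Nat.eq_zero_or_pos a with ha | ha
    · subst ha
      have hf' : f = 0 := hf
      rw [hf', zero_mul, map_zero]
    rcases Nat.eq_zero_or_pos b with hb | hb
    · subst hb
      have hg' : g = 0 := hg
      rw [hg', mul_zero, map_zero]
    obtain ⟨a, rfl⟩ : ∃ a', a = a' + 1 := ⟨a - 1, by omega⟩
    obtain ⟨b, rfl⟩ : ∃ b', b = b' + 1 := ⟨b - 1, by omega⟩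
    have h1 : (RT F - (x * y) • 1) (f * g) =
        ((RT F - x • 1) f) * (RT F g) + x • (f * ((RT F - y • 1) g)) := by
      have h2 : RT F (f * g) = RT F f * RT F g := by
        rw [RT_apply, RT_apply, RT_apply, map_mul]
      rw [LinearMap.sub_apply, h2, LinearMap.sub_apply, LinearMap.sub_apply,
        LinearMap.smul_apply, LinearMap.smul_apply, LinearMap.smul_apply, Module.End.one_apply,
        Module.End.one_apply, Module.End.one_apply]
      simp only [MvPolynomial.smul_eq_C_mul, map_mul]
      ring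
    have hR : ((RT F - y • 1) ^ (b + 1)) (RT F g) = 0 := by
      have h2 : Commute (RT F) (RT F - y • 1) := by
        show RT F * (RT F - y • 1) = (RT F - y • 1) * RT F
        rw [mul_sub, sub_mul, mul_smul_comm, smul_mul_assoc, one_mul, mul_one]
      have h3 : ((RT F - y • 1) ^ (b + 1)) * RT F = RT F * ((RT F - y • 1) ^ (b + 1)) :=
        ((h2.pow_right (b + 1)).eq).symm
      rw [← Module.End.mul_apply, h3, Module.End.mul_apply, hg, map_zero]
    rw [show a + 1 + (b + 1) = (a + (b + 1)) + 1 by ring, pow_succ, Module.End.mul_apply, h1,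
      map_add, map_smul]
    have h4 := ih a (b + 1) (by omega) ((RT F - x • 1) f) (RT F g) (by
      rw [← Module.End.mul_apply, ← pow_succ]
      exact hf) hR
    have h5 := ih (a + 1) b (by omega) f ((RT F - y • 1) g) hf (by
      rw [← Module.End.mul_apply, ← pow_succ]
      exact hg)
    rw [h4, show a + (b + 1) = a + 1 + b by ring, h5, smul_zero, add_zero]

/-- weight vectors -/
def Zw (F H : Matrix ι ι K) (k : K → K) (x : K) (f : MvPolynomial (ι × ι) K) : Prop :=
  x ≠ 0 ∧ IsGen (RT F) x f ∧ D H f = k x • f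

theorem Zw.mul {F H : Matrix ι ι K} {k : K → K} (hk : ∀ x y, x ≠ 0 → y ≠ 0 → k (x * y) = k x + k y)
    {x y : K} {f g : MvPolynomial (ι × ι) K} (hf : Zw F H k x f) (hg : Zw F H k y g) :
    Zw F H k (x * y) (f * g) := by
  obtain ⟨hx, ⟨a, ha⟩, hf2⟩ := hf
  obtain ⟨hy, ⟨b, hb⟩, hg2⟩ := hg
  refine ⟨mul_ne_zero hx hy, ⟨a + b, gen_mul (a + b) a b le_rfl f g ha hb⟩, ?_⟩
  rw [Derivation.leibniz, hf2, hg2, hk x y hx hy, add_smul, smul_eq_mul, smul_eq_mul]
  simp only [MvPolynomial.smul_eq_C_mul]
  ring

/-- the weight vectors span -/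
theorem zw_top {F H : Matrix ι ι K} {k : K → K} (hk : ∀ x y, x ≠ 0 → y ≠ 0 → k (x * y) = k x + k y)
    (hlin : ∀ w : ι → K, w ∈ Submodule.span K {w | ∃ x, x ≠ 0 ∧ IsGen (Matrix.toLin' F) x w ∧
      H *ᵥ w = k x • w}) (f : MvPolynomial (ι × ι) K) :
    f ∈ Submodule.span K {f | ∃ x, Zw F H k x f} := by
  have hk1 : k 1 = 0 := by
    have h := hk 1 1 one_ne_zero one_ne_zero
    rw [mul_one] at h
    exact (left_eq_add.1 h)
  have hone : Zw F H k 1 1 := by
    refine ⟨one_ne_zero, ⟨1, ?_⟩, ?_⟩
    · rw [pow_one, LinearMap.sub_apply, RT_apply, map_one, LinearMap.smul_apply,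
        Module.End.one_apply, one_smul, sub_self]
    · rw [hk1, zero_smul, Derivation.map_one_eq_zero]
  have hX : ∀ q : ι × ι, (X q : MvPolynomial (ι × ι) K) ∈
      Submodule.span K {f | ∃ x, Zw F H k x f} := by
    rintro ⟨i, j⟩
    have h1 : (X (i, j) : MvPolynomial (ι × ι) K) = rowf i (Pi.single j 1) := by
      rw [rowf_apply, Finset.sum_eq_single j]
      · rw [Pi.single_eq_same, one_smul]
      · intro l _ hl
        rw [Pi.single_eq_of_ne hl, zero_smul]
      · intro h
        exact absurd (Finset.mem_univ _) h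
    rw [h1]
    have h2 := hlin (Pi.single j 1)
    generalize (Pi.single j 1 : ι → K) = w₀ at h2
    induction h2 using Submodule.span_induction with
    | mem w h =>
      obtain ⟨x, hx, ⟨N, hN⟩, hw⟩ := h
      refine Submodule.subset_span ⟨x, hx, ⟨N, ?_⟩, ?_⟩
      · rw [rowf_gen, hN, map_zero]
      · rw [D_rowf, hw, map_smul]
    | zero => rw [map_zero]; exact Submodule.zero_mem _
    | add x y _ _ hx hy => rw [map_add]; exact Submodule.add_mem _ hx hy
    | smul a x _ hx => rw [map_smul]; exact Submodule.smul_mem _ _ hx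
  have hmul : ∀ f ∈ Submodule.span K {f | ∃ x, Zw F H k x f},
      ∀ g ∈ Submodule.span K {f | ∃ x, Zw F H k x f},
      f * g ∈ Submodule.span K {f | ∃ x, Zw F H k x f} := by
    intro f hf g hg
    have h1 := Submodule.mul_mem_mul hf hg
    rw [Submodule.span_mul_span] at h1
    refine Submodule.span_mono ?_ h1
    rintro _ ⟨a, ⟨x, ha⟩, b, ⟨y, hb⟩, rfl⟩
    exact ⟨x * y, ha.mul hk hb⟩
  induction f using MvPolynomial.induction_on with
  | C a =>
    have h1 : (C a : MvPolynomial (ι × ι) K) = a • 1 := by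
      rw [MvPolynomial.smul_eq_C_mul, mul_one]
    rw [h1]
    exact Submodule.smul_mem _ _ (Submodule.subset_span ⟨1, hone⟩)
  | add f g hf hg => exact Submodule.add_mem _ hf hg
  | mul_X f q hf => exact hmul _ hf _ (hX q)

end pol

/-! ### the Lie algebra -/

section main

variable {k₀ K : Type} [Field k₀] [Field K] [CharZero K] {ι : Type} [Fintype ι] [DecidableEq ι]
  {Γ : Type} [Group Γ] {ρ : Γ →* Matrix ι ι k₀} {j : k₀ →+* K}

theorem torus_LS (γ : Γ) {H : Matrix ι ι K} {k : K → K}
    (hk : ∀ x y, x ≠ 0 → y ≠ 0 → k (x * y) = k x + k y)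
    (hlin : ∀ w : ι → K, w ∈ Submodule.span K {w | ∃ x, x ≠ 0 ∧
      IsGen (Matrix.toLin' ((ρ γ).map j)) x w ∧ H *ᵥ w = k x • w}) :
    H ∈ LS (IG ρ j) := by
  intro f hf
  obtain ⟨F, hF⟩ : ∃ F, F = (ρ γ).map j := ⟨_, rfl⟩
  obtain ⟨M, hM, hfM⟩ := IG_pow γ hf
  rw [← hF] at hfM hlin
  let W : Submodule K (MvPolynomial (ι × ι) K) :=
    { carrier := {g | ∀ m : ℕ, RT (F ^ (M * m)) g ∈ IG ρ j}
      zero_mem' := fun m => by rw [map_zero]; exact Submodule.zero_mem _
      add_mem' := fun {a b} ha hb m => by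
        rw [map_add]
        exact Submodule.add_mem _ (ha m) (hb m)
      smul_mem' := fun c a ha m => by
        rw [map_smul]
        exact Submodule.smul_mem _ _ (ha m) }
  have hWst : ∀ g ∈ W, (RT F ^ M) g ∈ W := by
    intro g hg m
    have h1 := hg (m + 1)
    rw [mul_add, mul_one, ← RT_pow, pow_add, RT_pow] at h1
    exact h1
  have hfW : f ∈ W := hfM
  have hkM : ∀ (x : K) (m : ℕ), x ≠ 0 → k (x ^ m) = m * k x := by
    intro x m hx
    induction m with
    | zero =>
      have h := hk 1 1 one_ne_zero one_ne_zero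
      rw [mul_one] at h
      rw [pow_zero, left_eq_add.1 h, Nat.cast_zero, zero_mul]
    | succ m ih => rw [pow_succ, hk _ _ (pow_ne_zero _ hx) hx, ih]; push_cast; ring
  have hMK : (M : K) ≠ 0 := Nat.cast_ne_zero.2 hM.ne'
  have h2 := stable_of_gen (R := RT F ^ M) (D' := (D H).toLinearMap) hWst
    (fun y => k y / M) (fun g => by
      refine Submodule.span_mono ?_ (zw_top hk hlin g)
      rintro g ⟨x, hx0, hx1, hx2⟩
      refine ⟨x ^ M, hx1.pow M, ?_⟩
      show D H g = _
      rw [hx2, hkM x M hx0, mul_div_cancel_left₀ _ hMK]) f hfW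
  have h3 : D H f ∈ W := h2
  have h4 := h3 0
  rw [mul_zero, pow_zero, RT_apply, sub_one] at h4
  exact h4

end main

end

end Pool.Agent.R932
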