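import Mathlib
import Pool.Agent.R932.Tor

/-!
# Homomorphisms from the multiplicative group to the additive group

The operator `H` of `Tor.lean` exists and can be made nonzero on a given eigenvector and zero on
others, when the eigenvalue is multiplicatively independent of the others.
-/

set_option autoImplicit false
set_option linter.unusedSectionVars false

namespace Pool.Agent.R932

open Polynomial Matrix

noncomputable section

section hom

variable {K : Type} [Field K] [CharZero K]

theorem exists_hom {G : Subgroup Kˣ} {x : Kˣ} (hx : ∀ m : ℕ, 0 < m → x ^ m ∉ G) :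
    ∃ φ : Additive Kˣ →+ K, (∀ g ∈ G, φ (Additive.ofMul g) = 0) ∧ φ (Additive.ofMul x) = 1 := by
  let f : ℤ →+ Additive (Kˣ ⧸ G) := (zmultiplesHom (Additive (Kˣ ⧸ G)))
    (Additive.ofMul (QuotientGroup.mk x))
  have hf : Function.Injective f := by
    rw [injective_iff_map_eq_zero]
    intro m hm
    have h2 : (QuotientGroup.mk x : Kˣ ⧸ G) ^ m = 1 := hm
    rw [← QuotientGroup.mk_zpow, QuotientGroup.eq_one_iff] at h2
    by_contra h0
    rcases Int.natAbs_eq m with h3 | h3
    · rw [h3, zpow_natCast] at h2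
      exact hx _ (Int.natAbs_pos.2 h0) h2
    · rw [h3, _root_.zpow_neg, zpow_natCast, inv_mem_iff] at h2
      exact hx _ (Int.natAbs_pos.2 h0) h2
  let hdiv : DivisibleBy K ℤ :=
    { div := fun a n => a / (n : K)
      div_zero := fun a => by simp
      div_cancel := fun {n} a hn => by
        have : (n : K) ≠ 0 := Int.cast_ne_zero.2 hn
        rw [zsmul_eq_mul]
        field_simp }
  obtain ⟨g', hg'⟩ := Module.Baer.extension_property_addMonoidHom (M := ℤ)
    (N := Additive (Kˣ ⧸ G)) (Module.Baer.of_divisible K) f hf (Int.castAddHom K)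
  refine ⟨g'.comp (MonoidHom.toAdditive (QuotientGroup.mk' G)), fun g hg => ?_, ?_⟩
  · have h1 : (QuotientGroup.mk' G) g = 1 := by
      rw [QuotientGroup.mk'_apply, QuotientGroup.eq_one_iff]
      exact hg
    rw [AddMonoidHom.comp_apply]
    have h2 : (MonoidHom.toAdditive (QuotientGroup.mk' G)) (Additive.ofMul g) = 0 := by
      show Additive.ofMul ((QuotientGroup.mk' G) g) = 0
      rw [h1]
      rfl
    rw [h2, map_zero]
  · rw [AddMonoidHom.comp_apply]
    have h2 : (MonoidHom.toAdditive (QuotientGroup.mk' G)) (Additive.ofMul x) = f 1 := by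
      simp [f]
    rw [h2]
    have h3 := DFunLike.congr_fun hg' (1 : ℤ)
    rw [AddMonoidHom.comp_apply] at h3
    rw [h3]
    simp

/-- the same with functions on `K` -/
theorem exists_k {G : Subgroup Kˣ} {x : Kˣ} (hx : ∀ m : ℕ, 0 < m → x ^ m ∉ G) :
    ∃ k : K → K, (∀ a b, a ≠ 0 → b ≠ 0 → k (a * b) = k a + k b) ∧
      (∀ g ∈ G, k (g : K) = 0) ∧ k x = 1 := by
  classical
  obtain ⟨φ, h1, h2⟩ := exists_hom hx
  have hu : ∀ u : Kˣ, (if h : (u : K) ≠ 0 then φ (Additive.ofMul (Units.mk0 (u : K) h)) else 0) =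
      φ (Additive.ofMul u) := by
    intro u
    rw [dif_pos u.ne_zero, Units.mk0_val]
  refine ⟨fun y => if h : y ≠ 0 then φ (Additive.ofMul (Units.mk0 y h)) else 0, ?_, ?_, ?_⟩
  · intro a b ha hb
    simp only []
    rw [dif_pos ha, dif_pos hb, dif_pos (mul_ne_zero ha hb), Units.mk0_mul, ofMul_mul, map_add]
  · intro g hg
    exact (hu g).trans (h1 g hg)
  · exact (hu x).trans h2

end hom

section crt

variable {K : Type} [Field K]

theorem exists_crt (k : K → K) (N : ℕ) (s : Finset K) :
    ∃ P : K[X], ∀ x ∈ s, (X - C x) ^ N ∣ P - C (k x) := by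
  classical
  induction s using Finset.induction_on with
  | empty => exact ⟨0, fun x hx => absurd hx (Finset.notMem_empty x)⟩
  | insert x₀ s hx₀ ih =>
    obtain ⟨P, hP⟩ := ih
    have hcop : IsCoprime (∏ x ∈ s, (X - C x) ^ N) ((X - C x₀) ^ N) := by
      refine IsCoprime.prod_left fun x hx => ?_
      have hne : x ≠ x₀ := by
        rintro rfl
        exact hx₀ hx
      exact (isCoprime_X_sub_C_of_isUnit_sub (sub_ne_zero.2 hne).isUnit).pow
    obtain ⟨a, b, hab⟩ := hcop
    refine ⟨P + a * (∏ x ∈ s, (X - C x) ^ N) * (C (k x₀) - P), fun x hx => ?_⟩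
    rcases Finset.mem_insert.1 hx with rfl | hx
    · have h1 : P + a * (∏ x ∈ s, (X - C x) ^ N) * (C (k x) - P) - C (k x) =
          (X - C x) ^ N * (b * (P - C (k x))) := by
        linear_combination (C (k x) - P) * hab
      rw [h1]
      exact Dvd.intro _ rfl
    · have h1 : P + a * (∏ x ∈ s, (X - C x) ^ N) * (C (k x₀) - P) - C (k x) =
          (P - C (k x)) + (∏ x ∈ s, (X - C x) ^ N) * (a * (C (k x₀) - P)) := by ring
      rw [h1]
      exact dvd_add (hP x hx) ((Finset.dvd_prod_of_mem _ hx).mul_right _)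

end crt

section op

variable {K : Type} [Field K] {ι : Type} [Fintype ι] [DecidableEq ι]

/-- a polynomial in `F` acts on a generalised eigenspace as a scalar -/
theorem aeval_gen {F : Matrix ι ι K} {k : K → K} {N : ℕ} {P : K[X]} {x : K}
    (hP : (X - C x) ^ N ∣ P - C (k x)) {w : ι → K}
    (hw : ((Matrix.toLin' F - x • 1) ^ N) w = 0) : aeval F P *ᵥ w = k x • w := by
  obtain ⟨R, hR⟩ := hP
  have h1 : P = C (k x) + R * (X - C x) ^ N := by
    rw [mul_comm R, ← hR]
    ring
  have h2 : aeval (Matrix.toLin' F) P w = k x • w := by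
    rw [h1, map_add, map_mul, map_pow, map_sub, aeval_X, aeval_C, aeval_C,
      Algebra.algebraMap_eq_smul_one, Algebra.algebraMap_eq_smul_one, LinearMap.add_apply,
      Module.End.mul_apply, hw, map_zero, add_zero, LinearMap.smul_apply, Module.End.one_apply]
  have h3 : aeval (Matrix.toLin' F) P = Matrix.toLin' (aeval F P) := by
    have h4 := Polynomial.aeval_algHom_apply (Matrix.toLinAlgEquiv' (R := K) (n := ι)).toAlgHom F P
    exact h4
  rw [h3, Matrix.toLin'_apply] at h2
  exact h2

/-- generalised eigenvectors for the eigenvalues span -/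
theorem gen_top [IsAlgClosed K] (F : Matrix ι ι K) (w : ι → K) :
    w ∈ Submodule.span K {w | ∃ x, x ∈ F.charpoly.roots ∧
      ((Matrix.toLin' F - x • 1) ^ Fintype.card ι) w = 0} := by
  obtain ⟨f, hf⟩ : ∃ f : Module.End K (ι → K), f = Matrix.toLin' F := ⟨_, rfl⟩
  have h1 : w ∈ ⨆ μ, f.maxGenEigenspace μ := by
    rw [Module.End.iSup_maxGenEigenspace_eq_top]
    exact Submodule.mem_top
  have h2 : (⨆ μ, f.maxGenEigenspace μ) ≤
      Submodule.span K {w | ∃ x, x ∈ F.charpoly.roots ∧
        ((Matrix.toLin' F - x • 1) ^ Fintype.card ι) w = 0} := by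
    refine iSup_le fun μ => ?_
    intro w hw
    rw [Module.End.maxGenEigenspace_eq_genEigenspace_finrank] at hw
    by_cases hw0 : w = 0
    · rw [hw0]
      exact Submodule.zero_mem _
    · refine Submodule.subset_span ⟨μ, ?_, ?_⟩
      · rw [mem_roots (Matrix.charpoly_monic F).ne_zero]
        have h3 : f.HasEigenvalue μ := by
          refine Module.End.hasEigenvalue_of_hasGenEigenvalue
            (k := Module.finrank K (ι → K)) ?_
          intro h5
          rw [h5, Submodule.mem_bot] at hw
          exact hw0 hw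
        have h6 := (Module.End.hasEigenvalue_iff_isRoot_charpoly _ _).1 h3
        rwa [hf, Matrix.charpoly_toLin'] at h6
      · rw [Module.finrank_fintype_fun_eq_card, Module.End.mem_genEigenspace_nat,
          LinearMap.mem_ker, hf] at hw
        exact hw
  exact h2 h1

end op

end

end Pool.Agent.R932
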