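import Mathlib
import Pool.Agent.R932.Hom
import Pool.Agent.R932.Sum

/-!
# Elements of the Lie algebra of the monodromy group of a direct sum from one element of the group
-/

set_option autoImplicit false
set_option linter.unusedSectionVars false

namespace Pool.Agent.R932

open MvPolynomial Matrix Pool.Agent.W528.ZC Pool.Agent.Y95.MT
open Pool.Agent.W544.PG (HS BD mC det_mC)

noncomputable section

section

variable {K : Type} [Field K] {κ ι : Type} [Fintype κ] [DecidableEq κ] [Fintype ι] [DecidableEq ι]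

/-- an eigenvalue of `B` on `U` which has no positive power in the group generated by the
eigenvalues of `A` -/
def Ind (A : Matrix κ κ K) (B : Matrix ι ι K) (U : Submodule K (ι → K)) : Prop :=
  ∃ x : Kˣ, (∃ w ∈ U, w ≠ 0 ∧ B *ᵥ w = (x : K) • w) ∧
    ∀ m : ℕ, 0 < m → x ^ m ∉ Subgroup.closure {y : Kˣ | A.charpoly.IsRoot (y : K)}

theorem charpoly_root_ne {A A' : Matrix ι ι K} (h : A * A' = 1) {x : K} (hx : x ∈ A.charpoly.roots) :
    x ≠ 0 := by
  rintro rfl
  rw [Polynomial.mem_roots (Matrix.charpoly_monic A).ne_zero, Polynomial.IsRoot.def,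
    Matrix.eval_charpoly] at hx
  simp only [map_zero, zero_sub] at hx
  have h1 : (-A).det * (-A').det = 1 := by
    rw [← Matrix.det_mul, neg_mul_neg, h, Matrix.det_one]
  rw [hx, zero_mul] at h1
  exact zero_ne_one h1

theorem aeval_fb (A : Matrix κ κ K) (B : Matrix ι ι K) (P : Polynomial K) :
    Polynomial.aeval (fromBlocks A 0 0 B) P =
      fromBlocks (Polynomial.aeval A P) 0 0 (Polynomial.aeval B P) := by
  induction P using Polynomial.induction_on' with
  | add p q hp hq =>
    rw [map_add, map_add, map_add, hp, hq, Matrix.fromBlocks_add, add_zero, add_zero]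
  | monomial m a =>
    have h : ∀ m : ℕ, (fromBlocks A 0 0 B) ^ m = fromBlocks (A ^ m) 0 0 (B ^ m) := by
      intro m
      induction m with
      | zero => rw [pow_zero, pow_zero, pow_zero, Matrix.fromBlocks_one]
      | succ m ih =>
        rw [pow_succ, pow_succ, pow_succ, ih, Matrix.fromBlocks_multiply]
        simp
    rw [Polynomial.aeval_monomial, Polynomial.aeval_monomial, Polynomial.aeval_monomial, h,
      Algebra.algebraMap_eq_smul_one, Algebra.algebraMap_eq_smul_one,
      Algebra.algebraMap_eq_smul_one, smul_mul_assoc, one_mul, smul_mul_assoc, one_mul,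
      smul_mul_assoc, one_mul, Matrix.fromBlocks_smul, smul_zero, smul_zero]

end

variable {ℓ : ℕ} [Fact ℓ.Prime] {n : ℕ} {κ : Type} [Fintype κ] [DecidableEq κ] {Γ : Type}
  [Group Γ] {β : Γ →* Matrix (Fin n) (Fin n) ℤ_[ℓ]} {v : Γ →* Matrix κ κ ℚ_[ℓ]}
  {K : Type} [Field K] [CharZero K] [IsAlgClosed K] {j : ℚ_[ℓ] →+* K}

theorem Ind.exists_LS {U : Submodule K (Fin n → K)} {γ : Γ}
    (h : Ind ((v γ).map j) ((qm (β γ)).map j) U) :
    ∃ Z : Matrix (Fin n) (Fin n) K, fromBlocks 0 0 0 Z ∈ LS (IG (tot v β) j) ∧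
      ∃ w ∈ U, Z *ᵥ w = w ∧ w ≠ 0 := by
  classical
  obtain ⟨x, ⟨w, hwU, hw0, hw⟩, hx⟩ := h
  obtain ⟨k, hk, hkG, hkx⟩ := exists_k hx
  obtain ⟨A, hA⟩ : ∃ A, A = (v γ).map j := ⟨_, rfl⟩
  obtain ⟨B, hB⟩ : ∃ B, B = (qm (β γ)).map j := ⟨_, rfl⟩
  obtain ⟨F, hF⟩ : ∃ F, F = (tot v β γ).map j := ⟨_, rfl⟩
  have hFb : F = fromBlocks A 0 0 B := by
    rw [hF, hA, hB, tot_apply, fb_map]
  rw [← hB] at hw
  rw [← hA] at hkG hx
  obtain ⟨P, hP⟩ := exists_crt k (Fintype.card (κ ⊕ Fin n))
    (insert (x : K) (F.charpoly.roots.toFinset ∪ A.charpoly.roots.toFinset))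
  have hPx : ∀ y : K, y = x ∨ y ∈ F.charpoly.roots ∨ y ∈ A.charpoly.roots →
      (Polynomial.X - Polynomial.C y) ^ Fintype.card (κ ⊕ Fin n) ∣ P - Polynomial.C (k y) := by
    intro y hy
    refine hP y ?_
    rw [Finset.mem_insert, Finset.mem_union, Multiset.mem_toFinset, Multiset.mem_toFinset]
    exact hy
  have hcard : Fintype.card (κ ⊕ Fin n) = Fintype.card κ + n := by simp
  have hAA : A * (v γ⁻¹).map j = 1 := by
    rw [hA, ← Matrix.map_mul, ← map_mul, mul_inv_cancel, map_one,
      Matrix.map_one _ (map_zero _) (map_one _)]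
  have hFF : F * (tot v β γ⁻¹).map j = 1 := by
    rw [hF, ← Matrix.map_mul, ← map_mul, mul_inv_cancel, map_one,
      Matrix.map_one _ (map_zero _) (map_one _)]
  have h1 : Polynomial.aeval F P ∈ LS (IG (tot v β) j) := by
    refine torus_LS γ hk fun u => ?_
    refine Submodule.span_mono ?_ (gen_top F u)
    rintro u ⟨y, hy, hu⟩
    refine ⟨y, charpoly_root_ne hFF hy, ⟨Fintype.card (κ ⊕ Fin n), ?_⟩,
      aeval_gen (hPx y (Or.inr (Or.inl hy))) hu⟩
    rw [← hF]
    exact hu
  have h2 : Polynomial.aeval A P = 0 := by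
    have h3 : ∀ u, Polynomial.aeval A P *ᵥ u = 0 := by
      intro u
      have h4 := gen_top A u
      induction h4 using Submodule.span_induction with
      | mem u hu =>
        obtain ⟨y, hy, hu⟩ := hu
        have hy0 := charpoly_root_ne hAA hy
        have h5 : k y = 0 := by
          have h6 := hkG (Units.mk0 y hy0) (Subgroup.subset_closure (by
            show A.charpoly.IsRoot _
            rw [Units.val_mk0]
            exact (Polynomial.mem_roots (Matrix.charpoly_monic A).ne_zero).1 hy))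
          rwa [Units.val_mk0] at h6
        rw [aeval_gen (hPx y (Or.inr (Or.inr hy))) (w := u), h5, zero_smul]
        rw [hcard, add_comm, pow_add, Module.End.mul_apply, hu, map_zero]
      | zero => rw [Matrix.mulVec_zero]
      | add a b _ _ ha hb => rw [Matrix.mulVec_add, ha, hb, add_zero]
      | smul z a _ ha => rw [Matrix.mulVec_smul, ha, smul_zero]
    ext a b
    have h4 := congrFun (h3 (Pi.single b 1)) a
    rw [Matrix.mulVec_single_one] at h4
    exact h4
  refine ⟨Polynomial.aeval B P, ?_, w, hwU, ?_, hw0⟩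
  · rw [hFb, aeval_fb, h2] at h1
    exact h1
  · have hn : 0 < Fintype.card (κ ⊕ Fin n) := by
      rw [hcard]
      rcases Nat.eq_zero_or_pos n with h0 | h0
      · subst h0
        exact absurd (Subsingleton.elim w 0) hw0
      · omega
    rw [aeval_gen (hPx x (Or.inl rfl)) (w := w), hkx, one_smul]
    obtain ⟨m, hm⟩ : ∃ m, Fintype.card (κ ⊕ Fin n) = m + 1 := ⟨_, (Nat.succ_pred_eq_of_pos hn).symm⟩
    rw [hm, pow_succ, Module.End.mul_apply]
    have h3 : (Matrix.toLin' B - (x : K) • 1) w = 0 := by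
      rw [LinearMap.sub_apply, Matrix.toLin'_apply, hw, LinearMap.smul_apply,
        Module.End.one_apply, sub_self]
    have h4 : ((Matrix.toLin' B - (x : K) • 1 : Module.End K (Fin n → K))) w = 0 := h3
    rw [h4, map_zero]

end

end Pool.Agent.R932
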