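import Mathlib
import Pool.Agent.R932.TorSum
import Pool.Agent.R932.Simp
import Pool.Agent.R932.MtOdd

/-!
# The ideal of the second summand
-/

set_option autoImplicit false
set_option linter.unusedSectionVars false

namespace Pool.Agent.R932

open MvPolynomial Matrix Filter Topology Pool.Agent.W528.ZC Pool.Agent.Y95.MT
open Pool.Agent.W544.PG (HS BD mC det_mC bl)

noncomputable section

section quad

variable {K : Type} [Field K] {ι : Type} [Fintype ι] [DecidableEq ι]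

/-- quadratic functions are polynomials -/
theorem exists_quad (b : Matrix ι ι K →ₗ[K] Matrix ι ι K →ₗ[K] K) :
    ∃ f : MvPolynomial (ι × ι) K, (∀ g, ev g f = b g g) ∧
      ∀ y, ev 1 (D y f) = b y 1 + b 1 y := by
  have hb : ∀ g h : Matrix ι ι K, b g h = ∑ p : ι × ι, ∑ q : ι × ι,
      b (Matrix.single p.1 p.2 1) (Matrix.single q.1 q.2 1) * (g p.1 p.2 * h q.1 q.2) := by
    intro g h
    have h1 : ∀ g : Matrix ι ι K, g = ∑ p : ι × ι, g p.1 p.2 • Matrix.single p.1 p.2 1 := by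
      intro g
      conv_lhs => rw [Matrix.matrix_eq_sum_single g]
      rw [Fintype.sum_prod_type]
      refine Finset.sum_congr rfl fun i _ => Finset.sum_congr rfl fun j _ => ?_
      rw [Matrix.smul_single, smul_eq_mul, mul_one]
    have e1 : b g = ∑ p : ι × ι, g p.1 p.2 • b (Matrix.single p.1 p.2 1) := by
      conv_lhs => rw [h1 g]
      rw [map_sum]
      exact Finset.sum_congr rfl fun p _ => by rw [map_smul]
    rw [e1, LinearMap.sum_apply]
    refine Finset.sum_congr rfl fun p _ => ?_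
    have e2 : ∀ b' : Matrix ι ι K →ₗ[K] K,
        b' h = ∑ q : ι × ι, h q.1 q.2 * b' (Matrix.single q.1 q.2 1) := by
      intro b'
      conv_lhs => rw [h1 h]
      rw [map_sum]
      exact Finset.sum_congr rfl fun q _ => by rw [map_smul, smul_eq_mul]
    rw [LinearMap.smul_apply, e2, smul_eq_mul, Finset.mul_sum]
    refine Finset.sum_congr rfl fun q _ => ?_
    ring
  refine ⟨∑ p : ι × ι, ∑ q : ι × ι,
    C (b (Matrix.single p.1 p.2 1) (Matrix.single q.1 q.2 1)) * (X p * X q), fun g => ?_,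
    fun y => ?_⟩
  · rw [hb, map_sum]
    refine Finset.sum_congr rfl fun p _ => ?_
    rw [map_sum]
    refine Finset.sum_congr rfl fun q _ => ?_
    rw [map_mul, map_mul, ev_C, ev_X, ev_X]
  · rw [hb y 1, hb 1 y, map_sum, map_sum, ← Finset.sum_add_distrib]
    refine Finset.sum_congr rfl fun p _ => ?_
    rw [map_sum, map_sum, ← Finset.sum_add_distrib]
    refine Finset.sum_congr rfl fun q _ => ?_
    rw [ev_D_mul, ev_D_mul, ev_D_C, ev_D_X, ev_D_X, ev_C, ev_X, ev_X, one_mul]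
    ring

end quad

section conj

variable {k K : Type} [Field k] [Field K] {ι : Type} [Fintype ι] [DecidableEq ι] {Γ : Type}
  [Group Γ] {ρ : Γ →* Matrix ι ι k} {j : k →+* K}

theorem conj_LS (s : Γ) {y : Matrix ι ι K} (hy : y ∈ LS (IG ρ j)) :
    (ρ s).map j * y * (ρ s⁻¹).map j ∈ LS (IG ρ j) := by
  have h1 : ∀ s : Γ, (ρ s).map j * (ρ s⁻¹).map j = 1 := by
    intro s
    rw [← Matrix.map_mul, ← map_mul, mul_inv_cancel, map_one,
      Matrix.map_one _ (map_zero _) (map_one _)]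
  have h2 : ∀ (s : Γ) (f : MvPolynomial (ι × ι) K), f ∈ IG ρ j →
      Pool.Agent.W528.ZC.sub ((ρ s).map j) ((ρ s⁻¹).map j) f ∈ IG ρ j := by
    rintro s f ⟨Δ, hΔ, hf⟩
    refine ⟨Δ.normalCore, inferInstance, fun t ht => ?_⟩
    rw [ev_sub, ← Matrix.map_mul, ← map_mul, ← Matrix.map_mul, ← map_mul]
    exact hf _ (Δ.normalCore_le (Δ.normalCore_normal.conj_mem t ht s))
  refine LS_conj (h1 s) ?_ (h2 s) ?_ hy
  · have h3 := h1 s⁻¹
    rwa [inv_inv] at h3
  · have h3 := h2 s⁻¹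
    rwa [inv_inv] at h3

end conj

section ideal

variable {K : Type} [Field K] {κ : Type} [Fintype κ] [DecidableEq κ] {n : ℕ}

/-- the second block -/
def fbl (κ : Type) [Fintype κ] [DecidableEq κ] (K : Type) [Field K] (n : ℕ) :
    Matrix (Fin n) (Fin n) K →ₗ[K] Matrix (κ ⊕ Fin n) (κ ⊕ Fin n) K where
  toFun Z := fromBlocks 0 0 0 Z
  map_add' A B := by
    rw [Matrix.fromBlocks_add]
    simp
  map_smul' c A := by
    rw [Matrix.fromBlocks_smul]
    simp

theorem fbl_apply (Z : Matrix (Fin n) (Fin n) K) : fbl κ K n Z = fromBlocks 0 0 0 Z := rfl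

variable {ℓ : ℕ} [Fact ℓ.Prime] {r : ℕ} {c : Fin n → Fin r} {Γ : Type} [Group Γ]
  {β : Γ →* Matrix (Fin n) (Fin n) ℤ_[ℓ]} {v : Γ →* Matrix κ κ ℚ_[ℓ]} {j : ℚ_[ℓ] →+* K}
  {T : HS n}

/-- the elements of the Lie algebra in the second block -/
def Lb (v : Γ →* Matrix κ κ ℚ_[ℓ]) (β : Γ →* Matrix (Fin n) (Fin n) ℤ_[ℓ]) (j : ℚ_[ℓ] →+* K) :
    Submodule K (Matrix (Fin n) (Fin n) K) := (LS (IG (tot v β) j)).comap (fbl κ K n)

theorem mem_Lb {Z : Matrix (Fin n) (Fin n) K} :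
    Z ∈ Lb v β j ↔ fromBlocks 0 0 0 Z ∈ LS (IG (tot v β) j) := Iff.rfl

theorem conj_Lb (s : Γ) {Z : Matrix (Fin n) (Fin n) K} (hZ : Z ∈ Lb v β j) :
    (qm (β s)).map j * Z * (qm (β s⁻¹)).map j ∈ Lb v β j := by
  have h := conj_LS s hZ
  rw [fbl_apply, tot_apply, tot_apply, fb_map, fb_map, Matrix.fromBlocks_multiply,
    Matrix.fromBlocks_multiply] at h
  rw [mem_Lb]
  simpa using h

/-- the ideal property -/
theorem ad_Lb [CharZero K] (hg : GalT c T.Q β) {y Z : Matrix (Fin n) (Fin n) K}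
    (hy : y ∈ LS (IG (qrep β) j))
    (hys : yᵀ * T.Q.map (algebraMap ℚ K) + T.Q.map (algebraMap ℚ K) * y = 0)
    (hZ : Z ∈ Lb v β j) : y * Z - Z * y ∈ Lb v β j := by
  by_contra hcon
  obtain ⟨φ, hφ, hφL⟩ := Submodule.exists_le_ker_of_notMem hcon
  obtain ⟨Q, hQ⟩ : ∃ Q, Q = T.Q.map (algebraMap ℚ K) := ⟨_, rfl⟩
  have hQd : Q.det ≠ 0 := by
    have h1 : Q.det = algebraMap ℚ K T.Q.det := by
      rw [hQ, RingHom.map_det, RingHom.mapMatrix_apply]
    rw [h1]
    exact (_root_.map_ne_zero _).2 (W74.PG.det_ne T)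
  have hu : IsUnit Q.det := isUnit_iff_ne_zero.2 hQd
  rw [← hQ] at hys
  let b : Matrix (Fin n) (Fin n) K →ₗ[K] Matrix (Fin n) (Fin n) K →ₗ[K] K :=
    LinearMap.mk₂ K (fun g h => φ (g * (Z * Q⁻¹) * hᵀ * Q))
      (fun a a' h => by rw [← map_add]; congr 1; simp only [add_mul])
      (fun c a h => by rw [← map_smul]; congr 1; simp only [Matrix.smul_mul])
      (fun a h h' => by rw [← map_add]; congr 1; simp only [Matrix.transpose_add, mul_add, add_mul])
      (fun c a h => by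
        rw [← map_smul]; congr 1
        simp only [Matrix.transpose_smul, Matrix.mul_smul, Matrix.smul_mul])
  have hb : ∀ g h, b g h = φ (g * (Z * Q⁻¹) * hᵀ * Q) := fun g h => rfl
  obtain ⟨f, hf1, hf2⟩ := exists_quad b
  have hfI : f ∈ IG (qrep β) j := by
    refine ⟨⊤, inferInstance, fun s _ => ?_⟩
    rw [hf1, hb, qrep_apply]
    obtain ⟨g, hg'⟩ : ∃ g, g = (qm (β s)).map j := ⟨_, rfl⟩
    obtain ⟨g', hg''⟩ : ∃ g', g' = (qm (β s⁻¹)).map j := ⟨_, rfl⟩
    have h1 : gᵀ * Q * g = Q := by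
      rw [hg', hQ]
      exact hg.formK j s
    have h2 : g * g' = 1 := by
      rw [hg', hg'', ← Matrix.map_mul, ← qm_mul, ← map_mul, mul_inv_cancel, map_one, qm_one,
        Matrix.map_one _ (map_zero _) (map_one _)]
    rw [← hg']
    have h3 : g * (Z * Q⁻¹) * gᵀ * Q = g * Z * g' := by
      calc g * (Z * Q⁻¹) * gᵀ * Q = g * (Z * Q⁻¹) * gᵀ * Q * (g * g') := by rw [h2, mul_one]
        _ = g * Z * (Q⁻¹ * (gᵀ * Q * g)) * g' := by simp only [Matrix.mul_assoc]
        _ = g * Z * g' := by rw [h1, Matrix.nonsing_inv_mul _ hu, mul_one]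
    rw [h3]
    have h4 := conj_Lb s hZ
    rw [← hg', ← hg''] at h4
    exact LinearMap.mem_ker.1 (hφL h4)
  obtain ⟨Δ, hΔ, h1⟩ := hy f hfI
  have h2 := h1 1 Δ.one_mem
  rw [map_one, Matrix.map_one _ (map_zero _) (map_one _), hf2, hb, hb] at h2
  apply hφ
  have h3 : yᵀ * Q = -(Q * y) := eq_neg_of_add_eq_zero_left hys
  rw [Matrix.transpose_one, mul_one, one_mul, ← map_add] at h2
  rw [← h2]
  congr 1
  rw [Matrix.mul_assoc y, Matrix.mul_assoc Z, Matrix.nonsing_inv_mul _ hu, mul_one,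
    Matrix.mul_assoc (Z * Q⁻¹), h3, mul_neg, ← Matrix.mul_assoc, Matrix.mul_assoc Z,
    Matrix.nonsing_inv_mul _ hu, mul_one, sub_eq_add_neg]

/-- elements of the Lie algebra are skew and respect the decomposition -/
theorem skew_of_LS [CharZero K] (hg : GalT c T.Q β) {Z : Matrix (Fin n) (Fin n) K}
    (hZ : Z ∈ Lb v β j) :
    Zᵀ * T.Q.map (algebraMap ℚ K) + T.Q.map (algebraMap ℚ K) * Z = 0 ∧ BD c Z := by
  obtain ⟨Q, hQ⟩ : ∃ Q, Q = T.Q.map (algebraMap ℚ K) := ⟨_, rfl⟩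
  rw [← hQ]
  constructor
  · ext a d
    let b : Matrix (κ ⊕ Fin n) (κ ⊕ Fin n) K →ₗ[K] Matrix (κ ⊕ Fin n) (κ ⊕ Fin n) K →ₗ[K] K :=
      LinearMap.mk₂ K (fun g h => (g.toBlocks₂₂ᵀ * Q * h.toBlocks₂₂) a d)
        (fun g g' h => by
          have h1 : (g + g').toBlocks₂₂ = g.toBlocks₂₂ + g'.toBlocks₂₂ := rfl
          rw [h1, Matrix.transpose_add, add_mul, add_mul, Matrix.add_apply])
        (fun z g h => by
          have h1 : (z • g).toBlocks₂₂ = z • g.toBlocks₂₂ := rfl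
          rw [h1, Matrix.transpose_smul, Matrix.smul_mul, Matrix.smul_mul, Matrix.smul_apply])
        (fun g h h' => by
          have h1 : (h + h').toBlocks₂₂ = h.toBlocks₂₂ + h'.toBlocks₂₂ := rfl
          rw [h1, mul_add, Matrix.add_apply])
        (fun z g h => by
          have h1 : (z • h).toBlocks₂₂ = z • h.toBlocks₂₂ := rfl
          rw [h1, Matrix.mul_smul, Matrix.smul_apply])
    have hb : ∀ g h, b g h = (g.toBlocks₂₂ᵀ * Q * h.toBlocks₂₂) a d := fun g h => rfl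
    obtain ⟨f, hf1, hf2⟩ := exists_quad b
    have hfI : f - C (Q a d) ∈ IG (tot v β) j := by
      refine ⟨⊤, inferInstance, fun s _ => ?_⟩
      rw [map_sub, ev_C, hf1, hb, tot_apply, fb_map, Matrix.toBlocks_fromBlocks₂₂, hQ,
        hg.formK j s, sub_self]
    obtain ⟨Δ, hΔ, h1⟩ := hZ _ hfI
    have h2 := h1 1 Δ.one_mem
    rw [map_one, Matrix.map_one _ (map_zero _) (map_one _), map_sub, map_sub, ev_D_C, sub_zero,
      hf2, hb, hb, fbl_apply, Matrix.toBlocks_fromBlocks₂₂, ← Matrix.fromBlocks_one,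
      Matrix.toBlocks_fromBlocks₂₂, Matrix.transpose_one, one_mul, mul_one] at h2
    exact h2
  · intro a d had
    have hfI : (X (Sum.inr a, Sum.inr d) : MvPolynomial ((κ ⊕ Fin n) × (κ ⊕ Fin n)) K) ∈
        IG (tot v β) j := by
      refine ⟨⊤, inferInstance, fun s _ => ?_⟩
      rw [ev_X, tot_apply, fb_map]
      exact hg.bdK j s a d had
    obtain ⟨Δ, hΔ, h1⟩ := hZ _ hfI
    have h2 := h1 1 Δ.one_mem
    rw [map_one, Matrix.map_one _ (map_zero _) (map_one _), ev_D_X, one_mul] at h2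
    exact h2

end ideal

end

end Pool.Agent.R932
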