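import Mathlib
import Pool.Agent.R932.Hom

/-!
# Equivariant multilinear maps and additive functions of the eigenvalues
-/

set_option autoImplicit false
set_option linter.unusedSectionVars false

namespace Pool.Agent.R932

open Matrix

noncomputable section

section gen

variable {F E W : Type} [Field F] [AddCommGroup E] [Module F E] [AddCommGroup W] [Module F W]

/-- generalised eigenvectors are mapped to generalised eigenvectors -/
theorem gen_mult {k : ℕ} (φ : MultilinearMap F (fun _ : Fin k => E) W) (g : Module.End F E)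
    (h : Module.End F W) (hφ : ∀ t, φ (fun l => g (t l)) = h (φ t)) (y : Fin k → F) :
    ∀ (n : ℕ) (N : Fin k → ℕ) (t : Fin k → E), ∑ l, N l ≤ n →
      (∀ l, ((g - y l • 1) ^ N l) (t l) = 0) →
      ((h - (∏ l, y l) • 1) ^ (n + 1)) (φ t) = 0 := by
  intro n
  induction n with
  | zero =>
    intro N t hN ht
    have h0 : ∀ l, t l = 0 := by
      intro l
      have h1 : N l = 0 := by
        have := Finset.single_le_sum (fun i _ => Nat.zero_le (N i)) (Finset.mem_univ l)
        omega
      have h2 := ht l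
      rw [h1, pow_zero] at h2
      exact h2
    rw [zero_add, pow_one, LinearMap.sub_apply, LinearMap.smul_apply, Module.End.one_apply, ← hφ]
    rcases Nat.eq_zero_or_pos k with rfl | hk
    · rw [Finset.univ_eq_empty, Finset.prod_empty, one_smul, sub_eq_zero]
      congr 1
      ext l
      exact l.elim0
    · have h3 : φ t = 0 := φ.map_coord_zero ⟨0, hk⟩ (h0 _)
      have h4 : φ (fun l => g (t l)) = 0 := φ.map_coord_zero ⟨0, hk⟩ (by rw [h0, map_zero])
      rw [h3, h4, smul_zero, sub_zero]
  | succ n ih =>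
    intro N t hN ht
    have hexp : (h - (∏ l, y l) • 1) (φ t) = ∑ s ∈ Finset.univ.erase (∅ : Finset (Fin k)),
        φ (s.piecewise (fun l => (g - y l • 1) (t l)) (fun l => y l • t l)) := by
      have h1 : (fun l => g (t l)) = (fun l => (g - y l • 1) (t l)) + (fun l => y l • t l) := by
        ext l
        simp
      rw [LinearMap.sub_apply, LinearMap.smul_apply, Module.End.one_apply, ← hφ, h1,
        φ.map_add_univ, ← Finset.add_sum_erase _ _ (Finset.mem_univ ∅), Finset.piecewise_empty,
        φ.map_smul_univ, add_sub_cancel_left]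
    rw [pow_succ, Module.End.mul_apply, hexp, map_sum]
    refine Finset.sum_eq_zero fun s hs => ?_
    obtain ⟨l₀, hl₀⟩ : s.Nonempty := Finset.nonempty_iff_ne_empty.2 (Finset.ne_of_mem_erase hs)
    by_cases hz : N l₀ = 0
    · have h2 := ht l₀
      rw [hz, pow_zero, Module.End.one_apply] at h2
      have h3 : φ (s.piecewise (fun l => (g - y l • 1) (t l)) (fun l => y l • t l)) = 0 := by
        refine φ.map_coord_zero l₀ ?_
        rw [Finset.piecewise_eq_of_mem _ _ _ hl₀, h2, map_zero]
      rw [h3, map_zero]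
    · refine ih (fun l => if l ∈ s then N l - 1 else N l) _ ?_ ?_
      · have h4 : ∑ l, (if l ∈ s then N l - 1 else N l) + 1 ≤ ∑ l, N l := by
          rw [← Finset.add_sum_erase _ _ (Finset.mem_univ l₀),
            ← Finset.add_sum_erase _ N (Finset.mem_univ l₀), if_pos hl₀]
          have h5 : ∑ l ∈ Finset.univ.erase l₀, (if l ∈ s then N l - 1 else N l) ≤
              ∑ l ∈ Finset.univ.erase l₀, N l := Finset.sum_le_sum fun l _ => by
            split_ifs <;> omega
          omega
        omega
      · intro l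
        by_cases hl : l ∈ s
        · rw [Finset.piecewise_eq_of_mem _ _ _ hl, if_pos hl]
          rcases Nat.eq_zero_or_pos (N l) with h0 | h0
          · have h2 := ht l
            rw [h0, pow_zero, Module.End.one_apply] at h2
            rw [h2, map_zero, map_zero]
          · have h2 := ht l
            obtain ⟨m, hm⟩ : ∃ m, N l = m + 1 := ⟨N l - 1, by omega⟩
            rw [hm, pow_succ, Module.End.mul_apply] at h2
            rw [hm, Nat.add_sub_cancel]
            exact h2
        · rw [Finset.piecewise_eq_of_notMem _ _ _ hl, if_neg hl, map_smul, ht l, smul_zero]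

end gen

section eig

variable {F : Type} [Field F] [IsAlgClosed F] {M N : ℕ}

theorem eig_pow {h : Matrix (Fin M) (Fin M) F} {c : F} {m : ℕ} (hm : 0 < m)
    {w : Fin M → F} (hw : w ≠ 0) {n : ℕ}
    (hg : (((Matrix.toLin' h) ^ m - c • 1) ^ n) w = 0) : ∃ z, h.charpoly.IsRoot z ∧ z ^ m = c := by
  have h1 : Module.End.HasEigenvalue ((Matrix.toLin' h) ^ m) c := by
    refine Module.End.hasEigenvalue_of_hasGenEigenvalue (k := n) ?_
    intro h5
    have h6 : w ∈ Module.End.genEigenspace ((Matrix.toLin' h) ^ m) c n := by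
      rw [Module.End.mem_genEigenspace_nat, LinearMap.mem_ker]
      exact hg
    rw [h5, Submodule.mem_bot] at h6
    exact hw h6
  have h2 := h1.mem_spectrum
  rw [spectrum.map_pow_of_pos _ hm] at h2
  obtain ⟨z, hz, hzc⟩ := h2
  refine ⟨z, ?_, hzc⟩
  have h3 := (Module.End.hasEigenvalue_iff_mem_spectrum.2 hz)
  have h4 := (Module.End.hasEigenvalue_iff_isRoot_charpoly _ _).1 h3
  rwa [Matrix.charpoly_toLin'] at h4

/-- an operator which is given by an additive function of the eigenvalues annihilates the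
equivariant multilinear maps, if the function is zero for the eigenvalues on the target -/
theorem ann_of_theta {k m L : ℕ} (hm : 0 < m) (φ : MultilinearMap F (fun _ : Fin k => Fin N → F) (Fin L → F))
    {g : Matrix (Fin N) (Fin N) F} {h : Matrix (Fin L) (Fin L) F}
    (hφ : ∀ t, φ (fun l => (g ^ m) *ᵥ t l) = (h ^ m) *ᵥ φ t)
    {θ : F → F} (hθ : ∀ a b, a ≠ 0 → b ≠ 0 → θ (a * b) = θ a + θ b) [CharZero F]
    (hθh : ∀ z, h.charpoly.IsRoot z → θ z = 0)
    (hg0 : ∀ x, g.charpoly.IsRoot x → x ≠ 0)
    {A : Matrix (Fin N) (Fin N) F} (hA : ∀ x ∈ g.charpoly.roots, ∀ t,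
      ((Matrix.toLin' g - x • 1) ^ N) t = 0 → A *ᵥ t = θ x • t) (v : Fin k → Fin N → F) :
    ∑ l, φ (Function.update v l (A *ᵥ v l)) = 0 := by
  classical
  have hθ1 : θ 1 = 0 := by
    have := hθ 1 1 one_ne_zero one_ne_zero
    rw [mul_one] at this
    simpa using this
  have hθprod : ∀ (s : Finset (Fin k)) (y : Fin k → F), (∀ l ∈ s, y l ≠ 0) →
      θ (∏ l ∈ s, y l) = ∑ l ∈ s, θ (y l) := by
    intro s y
    induction s using Finset.induction_on with
    | empty => intro _; rw [Finset.prod_empty, Finset.sum_empty, hθ1]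
    | insert a s ha ih =>
      intro hy
      rw [Finset.prod_insert ha, Finset.sum_insert ha, hθ _ _ (hy a (Finset.mem_insert_self _ _))
        (Finset.prod_ne_zero_iff.2 fun l hl => hy l (Finset.mem_insert_of_mem hl)),
        ih fun l hl => hy l (Finset.mem_insert_of_mem hl)]
  have hθpow : ∀ (y : F), y ≠ 0 → ∀ m : ℕ, θ (y ^ m) = m * θ y := by
    intro y hy m
    induction m with
    | zero => rw [pow_zero, hθ1, Nat.cast_zero, zero_mul]
    | succ m ih => rw [pow_succ, hθ _ _ (pow_ne_zero _ hy) hy, ih]; push_cast; ring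
  have hgm : Matrix.toLin' (g ^ m) = (Matrix.toLin' g) ^ m := Matrix.toLin'_pow g m
  have hhm : Matrix.toLin' (h ^ m) = (Matrix.toLin' h) ^ m := Matrix.toLin'_pow h m
  -- generalised eigenvectors
  have key : ∀ (t : Fin k → Fin N → F) (y : Fin k → F), (∀ l, y l ∈ g.charpoly.roots ∧
      ((Matrix.toLin' g - y l • 1) ^ N) (t l) = 0) → (∑ l, θ (y l)) • φ t = 0 := by
    intro t y hy
    by_cases h0 : φ t = 0
    · rw [h0, smul_zero]
    have hy0 : ∀ l, y l ≠ 0 := fun l =>
      hg0 _ ((Polynomial.mem_roots (Matrix.charpoly_monic g).ne_zero).1 (hy l).1)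
    have h1 : ∀ l, ∃ n : ℕ, ((Matrix.toLin' (g ^ m) - y l ^ m • 1) ^ n) (t l) = 0 := by
      intro l
      obtain ⟨n, hn⟩ := IsGen.pow (R := Matrix.toLin' g) (x := y l) (f := t l) ⟨N, (hy l).2⟩ m
      exact ⟨n, by rw [hgm]; exact hn⟩
    choose n hn using h1
    have h2 := gen_mult φ (Matrix.toLin' (g ^ m)) (Matrix.toLin' (h ^ m)) (by
      intro t
      simpa only [Matrix.toLin'_apply] using hφ t) (fun l => y l ^ m) (∑ l, n l) n t le_rfl hn
    rw [hhm] at h2
    obtain ⟨z, hz, hzm⟩ := eig_pow hm h0 h2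
    have hz0 : z ≠ 0 := by
      rintro rfl
      rw [zero_pow hm.ne'] at hzm
      exact Finset.prod_ne_zero_iff.2 (fun l _ => pow_ne_zero m (hy0 l)) hzm.symm
    have h3 := congrArg θ hzm
    rw [hθpow z hz0, hθh z hz, mul_zero, Finset.prod_pow,
      hθpow _ (Finset.prod_ne_zero_iff.2 fun l _ => hy0 l), hθprod _ _ fun l _ => hy0 l] at h3
    have h4 : ∑ l, θ (y l) = 0 :=
      (mul_eq_zero.1 h3.symm).resolve_left (Nat.cast_ne_zero.2 hm.ne')
    rw [h4, zero_smul]
  -- a basis of generalised eigenvectors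
  let s : Set (Fin N → F) := {w | ∃ x, x ∈ g.charpoly.roots ∧
    ((Matrix.toLin' g - x • 1) ^ N) w = 0}
  have hs : (⊤ : Submodule F (Fin N → F)) ≤ Submodule.span F s := by
    intro w _
    have := gen_top g w
    rw [Fintype.card_fin] at this
    exact this
  let b := Module.Basis.ofSpan hs
  have hb : ∀ i, b i ∈ s := fun i => Module.Basis.ofSpan_subset hs ⟨i, rfl⟩
  -- the derivation
  let ψ : MultilinearMap F (fun _ : Fin k => Fin N → F) (Fin L → F) :=
    ∑ l, φ.compLinearMap (fun l' => if l' = l then Matrix.toLin' A else LinearMap.id)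
  have hψ : ∀ v, ψ v = ∑ l, φ (Function.update v l (A *ᵥ v l)) := by
    intro v
    rw [_root_.sum_apply]
    refine Finset.sum_congr rfl fun l _ => ?_
    rw [MultilinearMap.compLinearMap_apply]
    congr 1
    ext l' i
    by_cases hl : l' = l
    · subst hl
      rw [if_pos rfl, Function.update_self, Matrix.toLin'_apply]
    · rw [if_neg hl, Function.update_of_ne hl, LinearMap.id_apply]
  have hψ0 : ψ = 0 := by
    refine Module.Basis.ext_multilinear (fun _ => b) fun i => ?_
    rw [_root_.zero_apply, hψ]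
    have h5 : ∀ l, ∃ y, y ∈ g.charpoly.roots ∧
        ((Matrix.toLin' g - y • 1) ^ N) (b (i l)) = 0 := fun l => hb (i l)
    choose y hy1 hy2 using h5
    have h6 := key (fun l => b (i l)) y fun l => ⟨hy1 l, hy2 l⟩
    rw [Finset.sum_smul] at h6
    rw [← h6]
    refine Finset.sum_congr rfl fun l _ => ?_
    rw [hA (y l) (hy1 l) _ (hy2 l), MultilinearMap.map_update_smul, Function.update_eq_self]
  rw [← hψ, hψ0, _root_.zero_apply]

end eig

end

end Pool.Agent.R932
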