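import Pool.Agent.Y177.SU.Fftd
import Pool.Agent.R932.Mult

/-!
# Base change of vector valued multilinear maps
-/

set_option autoImplicit false
set_option linter.unusedSectionVars false

namespace Pool.Agent.R932

open Matrix Pool.Agent.Y177.SU

noncomputable section

variable {K : Type} [Field K] [CharZero K] {Ω : Type} [Field Ω] [Algebra K Ω] {k N L : ℕ}

/-- a coordinate -/
def co (φ : MultilinearMap K (fun _ : Fin k => Fin N → K) (Fin L → K)) (i : Fin L) :
    MultilinearMap K (fun _ : Fin k => Fin N → K) K :=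
  (LinearMap.proj i : (Fin L → K) →ₗ[K] K).compMultilinearMap φ

theorem co_apply (φ : MultilinearMap K (fun _ : Fin k => Fin N → K) (Fin L → K)) (i : Fin L)
    (v : Fin k → Fin N → K) : co φ i v = φ v i := rfl

/-- base change -/
def upw (Ω : Type) [Field Ω] [Algebra K Ω]
    (φ : MultilinearMap K (fun _ : Fin k => Fin N → K) (Fin L → K)) :
    MultilinearMap Ω (fun _ : Fin k => Fin N → Ω) (Fin L → Ω) :=
  MultilinearMap.pi fun i => upf Ω (co φ i)

theorem upw_apply (φ : MultilinearMap K (fun _ : Fin k => Fin N → K) (Fin L → K))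
    (v : Fin k → Fin N → Ω) (i : Fin L) : upw Ω φ v i = upf Ω (co φ i) v := rfl

theorem upw_up (φ : MultilinearMap K (fun _ : Fin k => Fin N → K) (Fin L → K))
    (v : Fin k → Fin N → K) : upw Ω φ (fun j => upv Ω (v j)) = upv Ω (φ v) := by
  funext i
  rw [upw_apply, upf_up]
  rfl

theorem upv_mulVec (g : Matrix (Fin N) (Fin N) K) (v : Fin N → K) :
    upv Ω (g *ᵥ v) = up Ω g *ᵥ upv Ω v := by
  funext i
  unfold upv up Matrix.mulVec dotProduct
  rw [map_sum]
  refine Finset.sum_congr rfl fun j _ => ?_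
  rw [map_mul]
  rfl

theorem upv_single (a : Fin N) :
    upv Ω (Pi.single a (1 : K) : Fin N → K) = (Pi.single a 1 : Fin N → Ω) := by
  funext b
  unfold upv
  by_cases hb : b = a
  · subst hb; simp
  · rw [Pi.single_eq_of_ne hb, Pi.single_eq_of_ne hb, map_zero]

theorem upw_equiv {φ : MultilinearMap K (fun _ : Fin k => Fin N → K) (Fin L → K)}
    {g : Matrix (Fin N) (Fin N) K} {h : Matrix (Fin L) (Fin L) K}
    (hφ : ∀ v, φ (fun l => g *ᵥ v l) = h *ᵥ φ v) (t : Fin k → Fin N → Ω) :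
    upw Ω φ (fun l => up Ω g *ᵥ t l) = up Ω h *ᵥ upw Ω φ t := by
  have h1 : (upw Ω φ).compLinearMap (fun _ => Matrix.toLin' (up Ω g)) =
      (Matrix.toLin' (up Ω h)).compMultilinearMap (upw Ω φ) := by
    refine Module.Basis.ext_multilinear (fun _ => Pi.basisFun Ω (Fin N)) fun r => ?_
    rw [MultilinearMap.compLinearMap_apply, LinearMap.compMultilinearMap_apply,
      Matrix.toLin'_apply]
    have h2 : (fun l => Pi.basisFun Ω (Fin N) (r l)) =
        fun l => upv Ω (Pi.single (r l) (1 : K) : Fin N → K) := by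
      funext l
      rw [upv_single, Pi.basisFun_apply]
    have h3 : (fun l => (Matrix.toLin' (up Ω g)) (Pi.basisFun Ω (Fin N) (r l))) =
        fun l => upv Ω (g *ᵥ (Pi.single (r l) (1 : K) : Fin N → K)) := by
      funext l
      rw [upv_mulVec, upv_single, Matrix.toLin'_apply, Pi.basisFun_apply]
    rw [h2, h3, upw_up, upw_up, hφ, upv_mulVec]
  have h2 := congrArg (fun ψ => ψ t) h1
  simpa only [MultilinearMap.compLinearMap_apply, LinearMap.compMultilinearMap_apply,
    Matrix.toLin'_apply] using h2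

/-- annihilation descends along a functional -/
theorem ann_lam {φ : MultilinearMap K (fun _ : Fin k => Fin N → K) (Fin L → K)}
    {A : Matrix (Fin N) (Fin N) Ω}
    (hA : ∀ v, ∑ l, upw Ω φ (Function.update v l (A *ᵥ v l)) = 0) (lm : Ω →ₗ[K] K)
    (v : Fin k → Fin N → K) : ∑ l, φ (Function.update v l ((A.map lm) *ᵥ v l)) = 0 := by
  funext i
  have h1 := congrArg lm (congrFun (hA fun j => upv Ω (v j)) i)
  rw [Finset.sum_apply, map_sum] at h1
  rw [Finset.sum_apply, Pi.zero_apply]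
  rw [Pi.zero_apply, map_zero] at h1
  rw [← h1]
  refine Finset.sum_congr rfl fun l _ => ?_
  rw [upw_apply, lam, co_apply]
  have h2 : (A.map lm) *ᵥ v l = fun a => lm ((A *ᵥ upv Ω (v l)) a) := by
    funext a
    unfold Matrix.mulVec dotProduct upv
    rw [map_sum]
    refine Finset.sum_congr rfl fun b _ => ?_
    show lm (A a b) * v l b = lm (A a b * algebraMap K Ω (v l b))
    rw [mul_comm (A a b), ← Algebra.smul_def, map_smul, smul_eq_mul, mul_comm]
  rw [h2]

theorem skew_lam {J : Matrix (Fin N) (Fin N) K} {A : Matrix (Fin N) (Fin N) Ω}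
    (hA : Aᵀ * up Ω J + up Ω J * A = 0) (lm : Ω →ₗ[K] K) :
    (A.map lm)ᵀ * J + J * A.map lm = 0 := by
  have h1 : (A.map lm)ᵀ = Aᵀ.map lm := rfl
  rw [h1, ← map_mul_up, ← map_up_mul]
  have h2 : (Aᵀ * up Ω J + up Ω J * A).map lm = 0 := by
    rw [hA]
    ext i j
    exact map_zero lm
  rw [← h2]
  ext i j
  exact (map_add lm _ _).symm

theorem exists_lam {A : Matrix (Fin N) (Fin N) Ω} (hA : A ≠ 0) :
    ∃ lm : Ω →ₗ[K] K, A.map lm ≠ 0 := by
  by_contra h
  push Not at h
  apply hA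
  ext i j
  rw [Matrix.zero_apply, ← Module.forall_dual_apply_eq_zero_iff K]
  intro lm
  exact congrFun (congrFun (h lm) i) j

/-- a bilinear form as a multilinear map -/
def jm (J : Matrix (Fin N) (Fin N) Ω) : MultilinearMap Ω (fun _ : Fin 2 => Fin N → Ω)
    (Fin 1 → Ω) :=
  MultilinearMap.pi fun _ => ∑ r : Fin 2 → Fin N, J (r 0) (r 1) •
    (MultilinearMap.mkPiAlgebra Ω (Fin 2) Ω).compLinearMap
      (fun j => (LinearMap.proj (r j) : (Fin N → Ω) →ₗ[Ω] Ω))

theorem jm_apply (J : Matrix (Fin N) (Fin N) Ω) (v : Fin 2 → Fin N → Ω) (i : Fin 1) :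
    jm J v i = v 0 ⬝ᵥ J *ᵥ v 1 := by
  show (∑ r : Fin 2 → Fin N, J (r 0) (r 1) •
    (MultilinearMap.mkPiAlgebra Ω (Fin 2) Ω).compLinearMap
      (fun j => (LinearMap.proj (r j) : (Fin N → Ω) →ₗ[Ω] Ω))) v = _
  rw [_root_.sum_apply]
  have h1 : ∀ r : Fin 2 → Fin N, (J (r 0) (r 1) •
    (MultilinearMap.mkPiAlgebra Ω (Fin 2) Ω).compLinearMap
      (fun j => (LinearMap.proj (r j) : (Fin N → Ω) →ₗ[Ω] Ω))) v =
      v 0 (r 0) * (J (r 0) (r 1) * v 1 (r 1)) := by
    intro r
    simp [Fin.prod_univ_two]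
    ring
  rw [Finset.sum_congr rfl fun r _ => h1 r]
  have h2 : ∑ r : Fin 2 → Fin N, v 0 (r 0) * (J (r 0) (r 1) * v 1 (r 1)) =
      ∑ p : Fin N × Fin N, v 0 p.1 * (J p.1 p.2 * v 1 p.2) :=
    Fintype.sum_equiv (finTwoArrowEquiv (Fin N)) _ _ fun r => rfl
  rw [h2, Fintype.sum_prod_type]
  unfold dotProduct Matrix.mulVec dotProduct
  refine Finset.sum_congr rfl fun a _ => ?_
  rw [Finset.mul_sum]

theorem skew_of_jm {J A : Matrix (Fin N) (Fin N) Ω}
    (h : ∀ v, ∑ l, jm J (Function.update v l (A *ᵥ v l)) = 0) : Aᵀ * J + J * A = 0 := by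
  ext a b
  have h1 := congrFun (h ![Pi.single a 1, Pi.single b 1]) 0
  rw [Fin.sum_univ_two, Pi.add_apply, jm_apply, jm_apply, Pi.zero_apply] at h1
  rw [Function.update_self, Function.update_of_ne (by decide), Function.update_self,
    Function.update_of_ne (by decide)] at h1
  simp only [Matrix.cons_val_zero, Matrix.cons_val_one] at h1
  rw [Matrix.mulVec_single_one, Matrix.mulVec_single_one, Matrix.mulVec_single_one,
    single_one_dotProduct, Matrix.mulVec] at h1
  rw [Matrix.add_apply, Matrix.zero_apply, Matrix.mul_apply, Matrix.mul_apply]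
  exact h1

end

end Pool.Agent.R932
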