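import Pool.Agent.Y458.ZO.Bad
import Pool.Agent.Y337.ZO.Det
import Pool.Agent.Y337.ZO.Line

/-!
# The discriminant of an isometry with a simple eigenvalue `1`, over fields of odd characteristic
(the proofs of `Pool.Agent.Y337.ZO.Key`, `Det`, `Line` with `2 ≠ 0` in place of characteristic zero)
-/

set_option autoImplicit false

open Matrix Polynomial
open Pool.Agent.Y142.ZO Pool.Agent.Y337.ZO Pool.Agent.Y458.ZO

namespace Pool.Agent.R932

section
variable {F : Type} [Field F] [NeZero (2 : F)]

theorem half' {a : F} (h : a = -a) : a = 0 := by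
  have h2 : (2 : F) * a = 0 := by
    rw [two_mul]
    nth_rewrite 1 [h]
    ring
  rcases mul_eq_zero.1 h2 with h3 | h3
  · exact absurd h3 two_ne_zero
  · exact h3

theorem det_alt_odd' (n : ℕ) (hn : n % 2 = 1) (A : Matrix (Fin n) (Fin n) F)
    (hA : ∀ i j, A i j = -A j i) : A.det = 0 := by
  have h : Aᵀ = -A := by
    ext i j
    rw [transpose_apply, neg_apply, hA]
  have h1 : A.det = (-1) ^ n * A.det := by
    conv_lhs => rw [← det_transpose, h, det_neg, Fintype.card_fin]
  rw [Odd.neg_one_pow (Nat.odd_iff.mpr hn), neg_one_mul] at h1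
  exact half' h1

theorem isSquare_skew' (n : ℕ) : ∀ (A : Matrix (Fin n) (Fin n) F) (w : Fin n → F),
    (∀ i j, A i j = -A j i) → IsSquare (Matrix.of fun i j => A i j + w i * w j).det := by
  induction n with
  | zero =>
    intro A w _
    rw [det_fin_zero]
    exact ⟨1, by ring⟩
  | succ n ih =>
    have key : ∀ (A : Matrix (Fin (n + 1)) (Fin (n + 1)) F) (w : Fin (n + 1) → F),
        (∀ i j, A i j = -A j i) → w 0 ≠ 0 →
        IsSquare (Matrix.of fun i j => A i j + w i * w j).det := by
      intro A w hA hw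
      have h00 : A 0 0 = 0 := half' (hA 0 0)
      have h0 : (Matrix.of fun i j => A i j + w i * w j) 0 0 = w 0 * w 0 := by
        rw [Matrix.of_apply, h00, zero_add]
      rw [det_pivot n _ (by rw [h0]; exact mul_ne_zero hw hw), h0]
      have h1 := ih (Matrix.of fun i j : Fin n => A i.succ j.succ +
        (A 0 i.succ * w j.succ - w i.succ * A 0 j.succ) / w 0) (fun i => A 0 i.succ / w 0)
        (by
          intro i j
          simp only [Matrix.of_apply]
          rw [hA i.succ j.succ]
          ring)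
      have h2 : (Matrix.of fun i j : Fin n =>
          (Matrix.of fun i j => A i j + w i * w j) i.succ j.succ -
          (Matrix.of fun i j => A i j + w i * w j) i.succ 0 / (w 0 * w 0) *
          (Matrix.of fun i j => A i j + w i * w j) 0 j.succ) =
          (Matrix.of fun i j : Fin n => (Matrix.of fun i j : Fin n => A i.succ j.succ +
        (A 0 i.succ * w j.succ - w i.succ * A 0 j.succ) / w 0) i j +
        (A 0 i.succ / w 0) * (A 0 j.succ / w 0)) := by
        ext i j
        simp only [Matrix.of_apply]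
        rw [hA i.succ 0]
        field_simp
        ring
      rw [h2]
      exact IsSquare.mul ⟨w 0, rfl⟩ h1
    intro A w hA
    by_cases hw : w = 0
    · subst hw
      simp only [Pi.zero_apply, mul_zero, add_zero]
      have hAA : (Matrix.of fun i j => A i j) = A := rfl
      rw [hAA]
      by_cases hn : (n + 1) % 2 = 1
      · rw [det_alt_odd' _ hn A hA]
        exact ⟨0, by ring⟩
      · have hn' : n % 2 = 1 := by omega
        have h1 := key A (fun i => if i = 0 then 1 else 0) hA (by simp)
        have h2 : (Matrix.of fun i j => A i j + (if i = 0 then (1 : F) else 0) *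
            (if j = 0 then 1 else 0)) = A.updateRow 0 (A 0 + Pi.single 0 1) := by
          ext i j
          rw [Matrix.of_apply, updateRow_apply]
          by_cases hi : i = 0
          · subst hi
            rw [if_pos rfl, if_pos rfl, Pi.add_apply, Pi.single_apply, one_mul]
          · rw [if_neg hi, if_neg hi, zero_mul, add_zero]
        rw [h2, det_updateRow_add, updateRow_eq_self] at h1
        have h3 : (A.updateRow 0 (Pi.single 0 1)).det = 0 := by
          rw [det_succ_row_zero, Finset.sum_eq_single 0]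
          · have h4 : ((A.updateRow 0 (Pi.single 0 1)).submatrix Fin.succ (Fin.succAbove 0)).det
                = 0 := by
              apply det_alt_odd' n hn'
              intro i j
              rw [submatrix_apply, submatrix_apply, updateRow_apply, updateRow_apply,
                if_neg (Fin.succ_ne_zero _), if_neg (Fin.succ_ne_zero _), Fin.succAbove_zero]
              exact hA _ _
            rw [h4, mul_zero]
          · intro j _ hj
            rw [updateRow_self, Pi.single_apply, if_neg hj]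
            ring
          · intro h0
            exact absurd (Finset.mem_univ _) h0
        rw [h3, add_zero] at h1
        exact h1
    · obtain ⟨i, hi⟩ := Function.ne_iff.mp hw
      let e := Equiv.swap (0 : Fin (n + 1)) i
      have h1 := key (A.submatrix e e) (w ∘ e) (by
        intro a b
        rw [submatrix_apply, submatrix_apply]
        exact hA _ _) (by
        simp only [Function.comp_apply, e, Equiv.swap_apply_left]
        exact hi)
      have h2 : (Matrix.of fun a b => A.submatrix e e a b + (w ∘ e) a * (w ∘ e) b) =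
          (Matrix.of fun a b => A a b + w a * w b).submatrix e e := by
        ext a b
        simp only [Matrix.of_apply, submatrix_apply, Function.comp_apply]
      rw [h2, det_submatrix_equiv_self] at h1
      exact h1

/-- The determinant of a skew matrix plus a symmetric matrix of rank one is a square. -/
theorem isSquare_add_vecMulVec' {N : ℕ} (A : Matrix (Fin N) (Fin N) F) (w : Fin N → F)
    (hA : Aᵀ = -A) : IsSquare (A + vecMulVec w w).det := by
  have h := isSquare_skew' N A w fun i j => by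
    have := congrFun (congrFun hA j) i
    rw [transpose_apply, neg_apply] at this
    exact this
  exact h

theorem iso_two {N : ℕ} (hN : Odd N) (B g : Matrix (Fin N) (Fin N) F) (y : Fin N → F) (Q : F[X])
    (hB : Bᵀ = B) (hBd : B.det ≠ 0) (hg : Isom B g) (hy : g *ᵥ y = y)
    (hQ : g.charpoly = (X - 1) * Q) : IsSquare (Q.eval 1 * Q.eval (-1) * bil B y y * B.det) := by
  by_cases hz : Q.eval 1 * Q.eval (-1) = 0
  · rw [hz, zero_mul, zero_mul]
    exact ⟨0, by ring⟩
  have hQm : Q.eval (-1) ≠ 0 := fun h => hz (by rw [h, mul_zero])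
  -- the determinant of `g + 1`
  have hd1 : (g + 1).det = 2 * Q.eval (-1) := by
    have h := eval_charpoly g (-1 : F)
    rw [hQ, eval_mul, eval_sub, eval_X, eval_one] at h
    have h2 : (Matrix.scalar (Fin N)) (-1 : F) - g = -(g + 1) := by
      rw [map_neg, map_one]
      abel
    rw [h2, det_neg, Fintype.card_fin, hN.neg_one_pow] at h
    linear_combination h
  have hd1' : (g + 1).det ≠ 0 := by
    rw [hd1]
    exact mul_ne_zero two_ne_zero hQm
  -- the inverse of `g`
  have hBu : IsUnit B.det := isUnit_iff_ne_zero.2 hBd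
  have hdet2 : g.det * g.det = 1 := by
    have h := congrArg Matrix.det hg
    rw [det_mul, det_mul, det_transpose] at h
    have h3 : (g.det * g.det) * B.det = 1 * B.det := by
      rw [one_mul]
      linear_combination h
    exact mul_right_cancel₀ hBd h3
  have hgd : g.det ≠ 0 := fun h => by
    rw [h, zero_mul] at hdet2
    exact zero_ne_one hdet2
  have hgu : IsUnit g.det := isUnit_iff_ne_zero.2 hgd
  have hgi : g * g⁻¹ = 1 := mul_nonsing_inv g hgu
  have hig : g⁻¹ * g = 1 := nonsing_inv_mul g hgu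
  -- `B g⁻¹ = gᵀ B`
  have hBi : B * g⁻¹ = gᵀ * B := by
    have h : gᵀ * B * g * g⁻¹ = B * g⁻¹ := by rw [hg]
    rw [mul_assoc, hgi, mul_one] at h
    exact h.symm
  have hdetg : g.det = 1 := by
    have h1 : B * (g⁻¹ + 1) = (gᵀ + 1) * B := by
      rw [mul_add, add_mul, hBi, mul_one, one_mul]
    have h2 := congrArg Matrix.det h1
    rw [det_mul, det_mul] at h2
    have h3 : (gᵀ + 1).det = (g + 1).det := by
      rw [← det_transpose (g + 1), transpose_add, transpose_one]
    rw [h3] at h2
    have h4 : (g⁻¹ + 1).det = (g + 1).det := by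
      have h5 : B.det * (g⁻¹ + 1).det = B.det * (g + 1).det := by
        rw [h2]
        ring
      exact mul_left_cancel₀ hBd h5
    have h6 : g + 1 = g * (g⁻¹ + 1) := by
      rw [mul_add, hgi, mul_one]
      abel
    have h7 := congrArg Matrix.det h6
    rw [det_mul, h4] at h7
    have h8 : 1 * (g + 1).det = g.det * (g + 1).det := by
      rw [one_mul]
      exact h7
    exact (mul_right_cancel₀ hd1' h8).symm
  -- the skew map
  have hT : Skew B (g - g⁻¹) := by
    unfold Skew
    rw [mul_sub, hBi, transpose_sub, transpose_mul, transpose_mul, transpose_transpose, hB]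
    abel
  have hiy : g⁻¹ *ᵥ y = y := by
    have h : g⁻¹ *ᵥ (g *ᵥ y) = g⁻¹ *ᵥ y := by rw [hy]
    rw [mulVec_mulVec, hig, one_mulVec] at h
    exact h.symm
  set z : Fin N → F := B *ᵥ y with hzd
  have hzi : z ᵥ* g⁻¹ = z := by
    have h : g⁻¹ᵀ * B = B * g := by
      have h' := congrArg Matrix.transpose hBi
      rw [transpose_mul, transpose_mul, transpose_transpose, hB] at h'
      exact h'
    rw [← mulVec_transpose, hzd, mulVec_mulVec, h, ← mulVec_mulVec, hy]
  have hzg : z ᵥ* g = z := by
    have h : (z ᵥ* g⁻¹) ᵥ* g = z ᵥ* g := by rw [hzi]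
    rw [vecMul_vecMul, hig, vecMul_one] at h
    exact h.symm
  -- factorisation
  have hfac : g - g⁻¹ + vecMulVec y z =
      (g - 1 + vecMulVec y ((1 / 2 : F) • z)) * (g + 1) * g⁻¹ := by
    have e1 : vecMulVec y ((1 / 2 : F) • z) * (g + 1) = vecMulVec y z := by
      rw [vecMulVec_mul, vecMul_add, vecMul_one, smul_vecMul, hzg, ← add_smul, add_halves, one_smul]
    have e2 : vecMulVec y z * g⁻¹ = vecMulVec y z := by
      rw [vecMulVec_mul, hzi]
    rw [add_mul, e1, add_mul, e2]
    congr 1
    have e3 : (g - 1) * (g + 1) = g * g - 1 := by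
      rw [sub_mul, mul_add, mul_one, one_mul]
      abel
    rw [e3, sub_mul, mul_assoc, hgi, mul_one, one_mul]
  have hM : (g - 1) *ᵥ y = 0 := by
    rw [sub_mulVec, hy, one_mulVec, sub_self]
  have hdM := det_perturb_odd hN (g - 1) y ((1 / 2 : F) • z) (Q.comp (X + 1)) hM
    (charpoly_sub_one g Q hQ)
  have hdi : (g⁻¹).det = 1 := by
    have h := congrArg Matrix.det hgi
    rw [det_mul, hdetg, one_mul, det_one] at h
    exact h
  have hdT : (g - g⁻¹ + vecMulVec y z).det = Q.eval 1 * Q.eval (-1) * (y ⬝ᵥ z) := by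
    rw [hfac, det_mul, det_mul, hdM, hd1, hdi, eval_comp, eval_add, eval_X, eval_one, zero_add,
      dotProduct_smul, smul_eq_mul]
    field_simp
  have h2 : B * (g - g⁻¹ + vecMulVec y z) = B * (g - g⁻¹) + vecMulVec z z := by
    rw [mul_add, mul_vecMulVec]
  have h3 := isSquare_add_vecMulVec' (B * (g - g⁻¹)) z hT
  rw [← h2, det_mul, hdT] at h3
  rw [bil_eq]
  convert h3 using 1
  ring

end

section
variable {F : Type} [Field F]

theorem line_two {N : ℕ} (B g : Matrix (Fin N) (Fin N) F) (Q : F[X])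
    (hBd : B.det ≠ 0) (hg : Isom B g) (hQ : g.charpoly = (X - 1) * Q)
    (hQ1 : Q.eval 1 ≠ 0) : ∃ y, KerLine (g - 1) y ∧ bil B y y ≠ 0 := by
  have hM : (g - 1).charpoly = X * Q.comp (X + 1) := charpoly_sub_one g Q hQ
  have hq0 : (Q.comp (X + 1)).eval 0 ≠ 0 := by
    rw [eval_comp, eval_add, eval_X, eval_one, zero_add]
    exact hQ1
  have hdet : (g - 1).det = 0 := by
    rw [det_eq_sign_charpoly_coeff, hM, coeff_zero_eq_eval_zero, eval_mul, eval_X, zero_mul,
      mul_zero]
  obtain ⟨y, hy0, hy⟩ := exists_mulVec_eq_zero_iff.2 hdet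
  obtain ⟨i, hi⟩ := Function.ne_iff.1 hy0
  rw [Pi.zero_apply] at hi
  set b : Fin N → F := Pi.single i (y i)⁻¹ with hb
  have hyb : y ⬝ᵥ b = 1 := by
    rw [hb, dotProduct_single, mul_inv_cancel₀ hi]
  have hdp : (g - 1 + vecMulVec y b).det ≠ 0 := by
    rw [det_perturb (g - 1) y b _ hy hM, hyb]
    exact mul_ne_zero (pow_ne_zero _ (neg_ne_zero.2 one_ne_zero))
      (mul_ne_zero hq0 (neg_ne_zero.2 one_ne_zero))
  refine ⟨y, ⟨hy0, hy, ?_⟩, ?_⟩
  · intro x hx
    refine ⟨b ⬝ᵥ x, ?_⟩
    by_contra hne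
    refine hdp (exists_mulVec_eq_zero_iff.1 ⟨x - (b ⬝ᵥ x) • y, sub_ne_zero.2 hne, ?_⟩)
    have e1 : vecMulVec y b *ᵥ x = (b ⬝ᵥ x) • y := by
      rw [vecMulVec_mulVec]
      ext j
      simp [mul_comm]
    have e2 : vecMulVec y b *ᵥ y = y := by
      rw [vecMulVec_mulVec, dotProduct_comm b y, hyb]
      ext j
      simp
    rw [mulVec_sub, add_mulVec, add_mulVec, mulVec_smul, mulVec_smul, hx, hy, e1, e2, smul_zero]
    simp
  · intro hbil
    have hgy : g *ᵥ y = y := by
      rw [sub_mulVec, one_mulVec, sub_eq_zero] at hy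
      exact hy
    have hz : (B *ᵥ y) ᵥ* (g - 1) = 0 := by
      have h1 : (B *ᵥ y) ᵥ* g = B *ᵥ y := by
        have h2 : (gᵀ * B * g) *ᵥ y = B *ᵥ y := by rw [hg]
        rw [← mulVec_mulVec, hgy, ← mulVec_mulVec] at h2
        rw [← mulVec_transpose]
        exact h2
      rw [vecMul_sub, h1, vecMul_one, sub_self]
    have hz0 : B *ᵥ y ≠ 0 := fun h => hBd (exists_mulVec_eq_zero_iff.1 ⟨y, hy0, h⟩)
    refine hdp (exists_vecMul_eq_zero_iff.1 ⟨B *ᵥ y, hz0, ?_⟩)
    rw [vecMul_add, hz, zero_add, vecMul_vecMulVec]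
    have h0 : (B *ᵥ y) ⬝ᵥ y = 0 := by
      rw [dotProduct_comm]
      exact hbil
    rw [h0]
    ext j
    simp

/-- two isometries with powers acting trivially on one nonzero subquotient have the same
discriminant -/
theorem bad_two [NeZero (2 : F)] {N : ℕ} (hN : Odd N) (B : Matrix (Fin N) (Fin N) F)
    (hB : Bᵀ = B) (hdet : B.det ≠ 0) (g : Fin 2 → Matrix (Fin N) (Fin N) F)
    (hI : ∀ i, Isom B (g i)) (Q : Fin 2 → F[X]) (hc : ∀ i, (g i).charpoly = (X - 1) * Q i)
    (n : Fin 2 → ℕ) (hq : ∀ i, IsCoprime (Q i) (X ^ n i - 1))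
    (W' W : Submodule F (Fin N → F)) (hW : W' < W)
    (hU : ∀ i, ∀ w ∈ W, (g i) ^ (n i) *ᵥ w - w ∈ W') :
    IsSquare ((Q 0).eval 1 * (Q 0).eval (-1) * ((Q 1).eval 1 * (Q 1).eval (-1))) := by
  have key : ∀ i : Fin 2,
      ∃ e : Fin N → F, bil B e e ≠ 0 ∧
        IsSquare ((Q i).eval 1 * (Q i).eval (-1) * bil B e e * B.det) ∧
        e ∈ W ∧ (∀ w ∈ W', bil B w e = 0) ∧
        Module.finrank F W ≤ Module.finrank F W' + 1 := by
    intro i
    have hQ1 : (Q i).eval 1 ≠ 0 := by
      obtain ⟨a, b, hab⟩ := hq i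
      have h3 := congrArg (Polynomial.eval 1) hab
      simp only [one_pow, eval_pow, eval_add, eval_mul, eval_sub, eval_X, eval_one, sub_self, mul_zero,
        add_zero] at h3
      exact right_ne_zero_of_mul (h3 ▸ one_ne_zero)
    obtain ⟨e, he, hee⟩ := line_two B (g i) (Q i) hdet (hI i) (hc i) hQ1
    obtain ⟨-, he1, he2⟩ := he
    have hfix : g i *ᵥ e = e := by
      rw [sub_mulVec, one_mulVec] at he1
      exact sub_eq_zero.mp he1
    refine ⟨e, hee, iso_two hN B (g i) e (Q i) hB hdet (hI i) hfix (hc i), ?_⟩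
    have hIp : Isom B ((g i) ^ (n i)) := by
      induction n i with
      | zero => unfold Isom; simp
      | succ k ih =>
        unfold Isom at ih ⊢
        rw [pow_succ, transpose_mul]
        have h5 : (g i)ᵀ * ((g i) ^ k)ᵀ * B * ((g i) ^ k * g i) =
            (g i)ᵀ * (((g i) ^ k)ᵀ * B * (g i) ^ k) * g i := by
          simp only [mul_assoc]
        rw [h5, ih]
        exact hI i
    refine one_elt B ((g i) ^ (n i)) hIp e ?_ ?_ W' W hW (fun w hw => hU i w hw)
    · exact Pool.Agent.Y458.ZO.pow_fix _ _ hfix (n i)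
    · intro x hx
      exact he2 x (pow_ker (g i) (Q i) (hc i) (n i) (hq i) x hx)
  obtain ⟨e₁, hn₁, hs₁, hW₁, ho₁, hf₁⟩ := key 0
  obtain ⟨e₂, hn₂, hs₂, hW₂, ho₂, -⟩ := key 1
  have hnot : e₁ ∉ W' := fun h => hn₁ (ho₁ e₁ h)
  have hsup : W' ⊔ Submodule.span F {e₁} = W := by
    apply Submodule.eq_of_le_of_finrank_le
    · refine sup_le hW.le ?_
      rw [Submodule.span_singleton_le_iff_mem]
      exact hW₁
    · have hlt : W' < W' ⊔ Submodule.span F {e₁} := by
        refine lt_of_le_of_ne le_sup_left fun h => hnot ?_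
        rw [h]
        exact Submodule.mem_sup_right (Submodule.mem_span_singleton_self e₁)
      have := Submodule.finrank_lt_finrank_of_lt hlt
      omega
  rw [← hsup] at hW₂
  obtain ⟨u, hu, v, hv, huv⟩ := Submodule.mem_sup.mp hW₂
  obtain ⟨a, rfl⟩ := Submodule.mem_span_singleton.mp hv
  have hd : bil B e₂ e₂ = a ^ 2 * bil B e₁ e₁ := by
    have h3 : bil B e₂ e₂ = bil B (u + a • e₁) e₂ := by rw [huv]
    have h4 : bil B e₁ e₂ = a * bil B e₁ e₁ := by
      rw [bil_comm B hB, ← huv, bil_add_left, ho₁ u hu, zero_add, bil_smul_left]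
    rw [h3, bil_add_left, ho₂ u hu, zero_add, bil_smul_left, h4]
    ring
  have ha : a ≠ 0 := by
    rintro rfl
    apply hn₂
    rw [hd]
    ring
  obtain ⟨s₁, hs₁⟩ := hs₁
  obtain ⟨s₂, hs₂⟩ := hs₂
  rw [hd] at hs₂
  refine ⟨s₁ * s₂ / (a * bil B e₁ e₁ * B.det), ?_⟩
  have hne : a * bil B e₁ e₁ * B.det ≠ 0 := mul_ne_zero (mul_ne_zero ha hn₁) hdet
  rw [div_mul_div_comm, eq_div_iff (mul_ne_zero hne hne)]
  have e1 : s₁ * s₂ * (s₁ * s₂) = (s₁ * s₁) * (s₂ * s₂) := by ring
  rw [e1, ← hs₁, ← hs₂]
  ring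

end

end Pool.Agent.R932
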