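import Pool.Agent.R932.BrA
import Pool.Agent.Y142.ZO.Main
import Pool.Agent.Y971.ZI.Irr

/-!
# Reduction modulo `ℓ` of the Frobenius polynomials and of the representation
-/

set_option autoImplicit false
set_option linter.unusedSectionVars false

open Matrix Polynomial Filter Topology NumberField IsDedekindDomain
open Pool.Agent.Y142.ZO

namespace Pool.Agent.R932

/-! ### squares -/

/-- Hensel -/
theorem padic_sq {p : ℕ} [hp : Fact p.Prime] (hp2 : p ≠ 2) {n : ℤ} (hn0 : (n : ZMod p) ≠ 0)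
    (hsq : IsSquare (n : ZMod p)) : IsSquare (n : ℚ_[p]) := by
  have hn : ¬ (p : ℤ) ∣ n := fun h => hn0 ((ZMod.intCast_zmod_eq_zero_iff_dvd _ _).2 h)
  obtain ⟨a, ha⟩ := hsq
  obtain ⟨s, hs⟩ := ZMod.intCast_surjective a
  have h1 : (p : ℤ) ∣ s ^ 2 - n := by
    rw [← ZMod.intCast_zmod_eq_zero_iff_dvd]
    push_cast
    rw [ha, hs]
    ring
  have h2 : ¬ (p : ℤ) ∣ 2 * s := by
    intro h2
    have hpi : Prime (p : ℤ) := Nat.prime_iff_prime_int.1 hp.out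
    rcases hpi.dvd_or_dvd h2 with h3 | h3
    · have h5 : p ∣ 2 := by exact_mod_cast h3
      exact hp2 ((Nat.prime_dvd_prime_iff_eq hp.out Nat.prime_two).1 h5)
    · apply hn
      have := dvd_sub ((dvd_pow h3 two_ne_zero : (p : ℤ) ∣ s ^ 2)) h1
      simpa using this
  have e1 : ∀ w : ℤ_[p], (aeval w) (X ^ 2 - C (n : ℤ_[p]) : ℤ_[p][X]) = w ^ 2 - n := by
    intro w; simp
  have e2 : ∀ w : ℤ_[p], (aeval w) (derivative (X ^ 2 - C (n : ℤ_[p]) : ℤ_[p][X])) = 2 * w := by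
    intro w; simp; norm_num
  obtain ⟨z, hz, -⟩ := hensels_lemma (p := p) (R := ℤ_[p]) (F := X ^ 2 - C (n : ℤ_[p]))
    (a := (s : ℤ_[p])) (by
      rw [e1, e2]
      have h3 : ‖((s ^ 2 - n : ℤ) : ℤ_[p])‖ < 1 := by
        rw [PadicInt.norm_intCast_lt_one_iff]
        exact h1
      have h4 : ‖((2 * s : ℤ) : ℤ_[p])‖ = 1 := by
        have h5 : ¬ ‖((2 * s : ℤ) : ℤ_[p])‖ < 1 := by
          rw [PadicInt.norm_intCast_lt_one_iff]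
          exact h2
        exact le_antisymm (PadicInt.norm_le_one _) (not_lt.1 h5)
      push_cast at h3 h4
      rw [h4]
      simpa using h3)
  rw [e1] at hz
  have h6 := congrArg (fun w : ℤ_[p] => (w : ℚ_[p])) (sub_eq_zero.1 hz)
  push_cast at h6
  exact ⟨z, by rw [← h6]; ring⟩

/-- an integer is not divisible by large primes -/
theorem cast_ne_zero {k : ℤ} (hk : k ≠ 0) {ℓ : ℕ} (h : k.natAbs < ℓ) : (k : ZMod ℓ) ≠ 0 := by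
  intro h4
  rw [ZMod.intCast_zmod_eq_zero_iff_dvd] at h4
  have h5 := Int.natAbs_dvd_natAbs.mpr h4
  rw [Int.natAbs_natCast] at h5
  have h6 := Nat.le_of_dvd (Int.natAbs_pos.mpr hk) h5
  omega

/-! ### polynomials -/

/-- coprimality with integer coefficients -/
theorem int_coprime {Q R : ℚ[X]} {q r : ℤ[X]} {c : ℤ} (hc : c ≠ 0)
    (hq : q.map (Int.castRingHom ℚ) = C (c : ℚ) * Q) (hr : r.map (Int.castRingHom ℚ) = R)
    (h : IsCoprime Q R) : ∃ (k : ℤ) (a b : ℤ[X]), k ≠ 0 ∧ a * q + b * r = C k := by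
  obtain ⟨a, b, hab⟩ := h
  obtain ⟨ca, hca, A, hA⟩ := Pool.Agent.Y971.ZI.clear a
  obtain ⟨cb, hcb, B, hB⟩ := Pool.Agent.Y971.ZI.clear b
  refine ⟨c * ca * cb, C cb * A, C (c * ca) * B, mul_ne_zero (mul_ne_zero hc hca) hcb, ?_⟩
  apply Polynomial.map_injective (Int.castRingHom ℚ) Int.cast_injective
  have hC : ∀ z : ℤ, (C z : ℤ[X]).map (Int.castRingHom ℚ) = C (z : ℚ) := fun z => by
    rw [Polynomial.map_C]
    rfl
  simp only [Polynomial.map_add, Polynomial.map_mul, hA, hB, hq, hr, hC, Int.cast_mul, C_mul]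
  linear_combination (C (c : ℚ) * C (ca : ℚ) * C (cb : ℚ)) * hab

/-- coprimality modulo large primes -/
theorem coprime_mod {Q R : ℚ[X]} {q r : ℤ[X]} {c : ℤ} (hc : c ≠ 0)
    (hq : q.map (Int.castRingHom ℚ) = C (c : ℚ) * Q) (hr : r.map (Int.castRingHom ℚ) = R)
    (h : IsCoprime Q R) : ∃ b : ℕ, ∀ ℓ : ℕ, b < ℓ → ∀ _ : Fact ℓ.Prime,
      IsCoprime (q.map (Int.castRingHom (ZMod ℓ))) (r.map (Int.castRingHom (ZMod ℓ))) := by
  obtain ⟨k, a, b, hk, hab⟩ := int_coprime hc hq hr h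
  refine ⟨k.natAbs, fun ℓ hℓ _ => ?_⟩
  have hk' := cast_ne_zero hk hℓ
  refine ⟨C ((k : ZMod ℓ)⁻¹) * a.map (Int.castRingHom (ZMod ℓ)),
    C ((k : ZMod ℓ)⁻¹) * b.map (Int.castRingHom (ZMod ℓ)), ?_⟩
  rw [mul_assoc, mul_assoc, ← mul_add, ← Polynomial.map_mul, ← Polynomial.map_mul,
    ← Polynomial.map_add, hab, Polynomial.map_C, eq_intCast, ← C_mul, inv_mul_cancel₀ hk', C_1]

/-! ### reduction of a representation -/

/-- the reduction modulo `ℓ` of a matrix -/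
noncomputable def redM (ℓ : ℕ) [Fact ℓ.Prime] {N : ℕ} (A : Matrix (Fin N) (Fin N) ℤ_[ℓ]) :
    Matrix (Fin N) (Fin N) (ZMod ℓ) := A.map (PadicInt.toZMod : ℤ_[ℓ] →+* ZMod ℓ)

/-- the `ℓ`-adic representation attached to an integral representation -/
noncomputable def genM (ℓ : ℕ) [Fact ℓ.Prime] {N : ℕ} (A : Matrix (Fin N) (Fin N) ℤ_[ℓ]) :
    Matrix (Fin N) (Fin N) ℚ_[ℓ] := A.map (algebraMap ℤ_[ℓ] ℚ_[ℓ])

theorem redM_mul (ℓ : ℕ) [Fact ℓ.Prime] {N : ℕ} (A B : Matrix (Fin N) (Fin N) ℤ_[ℓ]) :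
    redM ℓ (A * B) = redM ℓ A * redM ℓ B := by
  unfold redM
  rw [Matrix.map_mul]

theorem redM_pow (ℓ : ℕ) [Fact ℓ.Prime] {N : ℕ} (A : Matrix (Fin N) (Fin N) ℤ_[ℓ]) (n : ℕ) :
    redM ℓ (A ^ n) = redM ℓ A ^ n := by
  unfold redM
  rw [Matrix.map_pow]

theorem redM_det (ℓ : ℕ) [Fact ℓ.Prime] {N : ℕ} (A : Matrix (Fin N) (Fin N) ℤ_[ℓ]) :
    (redM ℓ A).det = PadicInt.toZMod A.det := by
  unfold redM
  rw [RingHom.map_det]
  rfl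

theorem genM_det (ℓ : ℕ) [Fact ℓ.Prime] {N : ℕ} (A : Matrix (Fin N) (Fin N) ℤ_[ℓ]) :
    (genM ℓ A).det = algebraMap ℤ_[ℓ] ℚ_[ℓ] A.det := by
  unfold genM
  rw [RingHom.map_det]
  rfl

theorem redM_isom (ℓ : ℕ) [Fact ℓ.Prime] {N : ℕ} {A B : Matrix (Fin N) (Fin N) ℤ_[ℓ]}
    (h : Aᵀ * B * A = B) : Isom (redM ℓ B) (redM ℓ A) := by
  unfold Isom redM
  rw [← Matrix.transpose_map, ← Matrix.map_mul, ← Matrix.map_mul, h]

theorem genM_isom (ℓ : ℕ) [Fact ℓ.Prime] {N : ℕ} {A B : Matrix (Fin N) (Fin N) ℤ_[ℓ]}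
    (h : Aᵀ * B * A = B) : Isom (genM ℓ B) (genM ℓ A) := by
  unfold Isom genM
  rw [← Matrix.transpose_map, ← Matrix.map_mul, ← Matrix.map_mul, h]

/-- the reduction of the characteristic polynomial -/
theorem charpoly_mod {Q P : ℚ[X]} (hP : P = (X - 1) * Q) {q : ℤ[X]} {c : ℤ}
    (hq : q.map (Int.castRingHom ℚ) = C (c : ℚ) * Q) {ℓ N : ℕ} [Fact ℓ.Prime]
    (hc : (c : ZMod ℓ) ≠ 0) {A : Matrix (Fin N) (Fin N) ℤ_[ℓ]}
    (hA : (genM ℓ A).charpoly = P.map (algebraMap ℚ ℚ_[ℓ])) :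
    (redM ℓ A).charpoly = (X - 1) * (C ((c : ZMod ℓ)⁻¹) * q.map (Int.castRingHom (ZMod ℓ))) := by
  have h1 : C (c : ℤ_[ℓ]) * A.charpoly = (X - 1) * q.map (Int.castRingHom ℤ_[ℓ]) := by
    apply Polynomial.map_injective (algebraMap ℤ_[ℓ] ℚ_[ℓ]) (IsFractionRing.injective ℤ_[ℓ] ℚ_[ℓ])
    have h2 : A.charpoly.map (algebraMap ℤ_[ℓ] ℚ_[ℓ]) = P.map (algebraMap ℚ ℚ_[ℓ]) := by
      rw [← hA, genM, ← Matrix.charpoly_map]
    have h3 : (q.map (Int.castRingHom ℤ_[ℓ])).map (algebraMap ℤ_[ℓ] ℚ_[ℓ]) =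
        (q.map (Int.castRingHom ℚ)).map (algebraMap ℚ ℚ_[ℓ]) := by
      rw [Polynomial.map_map, Polynomial.map_map]
      congr 1
    have e1 : (algebraMap ℤ_[ℓ] ℚ_[ℓ]) (c : ℤ_[ℓ]) = (c : ℚ_[ℓ]) := map_intCast _ _
    have e2 : (algebraMap ℚ ℚ_[ℓ]) (c : ℚ) = (c : ℚ_[ℓ]) := map_intCast _ _
    rw [Polynomial.map_mul, Polynomial.map_mul, h2, h3, hq, hP, Polynomial.map_C, e1,
      Polynomial.map_sub, map_X, Polynomial.map_one, Polynomial.map_mul, Polynomial.map_mul,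
      Polynomial.map_sub, map_X, Polynomial.map_one, Polynomial.map_C, e2]
    ring
  have h4 := congrArg (Polynomial.map (PadicInt.toZMod : ℤ_[ℓ] →+* ZMod ℓ)) h1
  have h5 : (q.map (Int.castRingHom ℤ_[ℓ])).map (PadicInt.toZMod : ℤ_[ℓ] →+* ZMod ℓ) =
      q.map (Int.castRingHom (ZMod ℓ)) := by
    rw [Polynomial.map_map]
    congr 1
    exact RingHom.ext_int _ _
  rw [Polynomial.map_mul, Polynomial.map_mul, h5, Polynomial.map_C, map_intCast,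
    Polynomial.map_sub, map_X, Polynomial.map_one] at h4
  have h6 : A.charpoly.map (PadicInt.toZMod : ℤ_[ℓ] →+* ZMod ℓ) = (redM ℓ A).charpoly := by
    rw [redM, ← Matrix.charpoly_map]
  rw [h6] at h4
  have h7 : C ((c : ZMod ℓ)⁻¹) * C (c : ZMod ℓ) = 1 := by
    rw [← C_mul, inv_mul_cancel₀ hc, C_1]
  linear_combination C ((c : ZMod ℓ)⁻¹) * h4 - (redM ℓ A).charpoly * h7

/-- **a nonzero subquotient of the reduction modulo `ℓ` on which a subgroup of index at most `d`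
acts trivially** -/
def TateMod (ℓ d : ℕ) [Fact ℓ.Prime] {N : ℕ} {G : Type} [Group G]
    (β : G →* Matrix (Fin N) (Fin N) ℤ_[ℓ]) : Prop :=
  ∃ (U : Subgroup G) (W' W : Submodule (ZMod ℓ) (Fin N → ZMod ℓ)), U.index ≠ 0 ∧ U.index ≤ d ∧
    W' < W ∧ ∀ σ ∈ U, ∀ w ∈ W, redM ℓ (β σ) *ᵥ w - w ∈ W'

/-- the `ℓ`-adic representation of an integral representation -/
noncomputable def genRep (ℓ : ℕ) [Fact ℓ.Prime] {N : ℕ} {G : Type} [Group G]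
    (β : G →* Matrix (Fin N) (Fin N) ℤ_[ℓ]) : G →* Matrix (Fin N) (Fin N) ℚ_[ℓ] :=
  ((algebraMap ℤ_[ℓ] ℚ_[ℓ]).mapMatrix : Matrix (Fin N) (Fin N) ℤ_[ℓ] →+* _).toMonoidHom.comp β

theorem genRep_apply (ℓ : ℕ) [Fact ℓ.Prime] {N : ℕ} {G : Type} [Group G]
    (β : G →* Matrix (Fin N) (Fin N) ℤ_[ℓ]) (g : G) : genRep ℓ β g = genM ℓ (β g) := rfl

/-- two elements of the group with good characteristic polynomials and a Tate subquotient modulo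
`ℓ` -/
theorem square_mod {Q₀ Q₁ P₀ P₁ : ℚ[X]} (hP₀ : P₀ = (X - 1) * Q₀) (hP₁ : P₁ = (X - 1) * Q₁)
    (h₀ : ∀ n : ℕ, 0 < n → IsCoprime Q₀ (X ^ n - 1)) (h₁ : ∀ n : ℕ, 0 < n → IsCoprime Q₁ (X ^ n - 1))
    (d : ℕ) : ∃ b : ℕ, ∀ ℓ : ℕ, b < ℓ → ∀ _ : Fact ℓ.Prime, ∀ (N : ℕ), Odd N → ∀ (G : Type) [Group G]
      (β : G →* Matrix (Fin N) (Fin N) ℤ_[ℓ]) (B : Matrix (Fin N) (Fin N) ℤ_[ℓ]), Bᵀ = B →
      IsUnit B.det → (∀ g, (β g)ᵀ * B * β g = B) → ∀ σ₀ σ₁ : G,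
      (genM ℓ (β σ₀)).charpoly = P₀.map (algebraMap ℚ ℚ_[ℓ]) →
      (genM ℓ (β σ₁)).charpoly = P₁.map (algebraMap ℚ ℚ_[ℓ]) →
      TateMod ℓ d β → IsSquare ((Q₀.eval 1 * Q₀.eval (-1) * (Q₁.eval 1 * Q₁.eval (-1)) : ℚ) : ℚ_[ℓ]) := by
  obtain ⟨c₀, hc₀, q₀, hq₀⟩ := Pool.Agent.Y971.ZI.clear Q₀
  obtain ⟨c₁, hc₁, q₁, hq₁⟩ := Pool.Agent.Y971.ZI.clear Q₁
  have hfac : 0 < d.factorial := Nat.factorial_pos d
  have hX : (X ^ d.factorial - 1 : ℤ[X]).map (Int.castRingHom ℚ) = X ^ d.factorial - 1 := by simp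
  obtain ⟨b₀, hb₀⟩ := coprime_mod hc₀ hq₀ hX (h₀ _ hfac)
  obtain ⟨b₁, hb₁⟩ := coprime_mod hc₁ hq₁ hX (h₁ _ hfac)
  set m : ℤ := q₀.eval 1 * q₀.eval (-1) * (q₁.eval 1 * q₁.eval (-1)) with hm
  have ev : ∀ (q : ℤ[X]) (Q : ℚ[X]) (c : ℤ), q.map (Int.castRingHom ℚ) = C (c : ℚ) * Q → ∀ a : ℤ,
      ((q.eval a : ℤ) : ℚ) = c * Q.eval (a : ℚ) := by
    intro q Q c h a
    have h1 := congrArg (Polynomial.eval (a : ℚ)) h
    rw [eval_mul, eval_C, eval_intCast_map] at h1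
    exact h1
  have hmr : (m : ℚ) = (c₀ * c₁ : ℚ) ^ 2 * (Q₀.eval 1 * Q₀.eval (-1) * (Q₁.eval 1 * Q₁.eval (-1))) := by
    rw [hm]
    have e1 := ev q₀ Q₀ c₀ hq₀ 1
    have e2 := ev q₀ Q₀ c₀ hq₀ (-1)
    have e3 := ev q₁ Q₁ c₁ hq₁ 1
    have e4 := ev q₁ Q₁ c₁ hq₁ (-1)
    push_cast at e1 e2 e3 e4 ⊢
    rw [e1, e2, e3, e4]
    ring
  have hQ₀ := eval_ne_zero_of_coprime h₀
  have hQ₁ := eval_ne_zero_of_coprime h₁
  have hc₀' : (c₀ : ℚ) ≠ 0 := by exact_mod_cast hc₀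
  have hc₁' : (c₁ : ℚ) ≠ 0 := by exact_mod_cast hc₁
  have hm0 : m ≠ 0 := by
    have h2 : (m : ℚ) ≠ 0 := by
      rw [hmr]
      exact mul_ne_zero (pow_ne_zero _ (mul_ne_zero hc₀' hc₁')) (mul_ne_zero hQ₀ hQ₁)
    exact_mod_cast h2
  refine ⟨max (max b₀ b₁) (max (max c₀.natAbs c₁.natAbs) (max m.natAbs 2)), ?_⟩
  intro ℓ hℓ hp N hN G _ β B hB hdet hiso σ₀ σ₁ hch₀ hch₁ hT
  simp only [max_lt_iff] at hℓ
  obtain ⟨⟨hbℓ₀, hbℓ₁⟩, ⟨hcℓ₀, hcℓ₁⟩, hmℓ, h2ℓ⟩ := hℓ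
  have k₀ := cast_ne_zero hc₀ hcℓ₀
  have k₁ := cast_ne_zero hc₁ hcℓ₁
  haveI : NeZero (2 : ZMod ℓ) := by
    constructor
    have := cast_ne_zero (k := 2) (by norm_num) (ℓ := ℓ) (by simpa using h2ℓ)
    simpa using this
  obtain ⟨U, W', W, hU0, hUd, hW, hUW⟩ := hT
  have hpow : ∀ σ : G, ∀ w ∈ W, redM ℓ (β σ) ^ d.factorial *ᵥ w - w ∈ W' := by
    intro σ w hw
    obtain ⟨n, hn, hnd, hnU⟩ := Subgroup.exists_pow_mem_of_index_ne_zero hU0 σ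
    obtain ⟨k, hk⟩ := Nat.dvd_factorial hn (hnd.trans hUd)
    have h1 : σ ^ d.factorial ∈ U := by
      rw [hk, pow_mul]
      exact U.pow_mem hnU k
    have h2 := hUW _ h1 w hw
    rwa [map_pow, redM_pow] at h2
  have hdet' : (redM ℓ B).det ≠ 0 := by
    rw [redM_det]
    exact (hdet.map (PadicInt.toZMod : ℤ_[ℓ] →+* ZMod ℓ)).ne_zero
  have hBt : (redM ℓ B)ᵀ = redM ℓ B := by
    unfold redM
    rw [← Matrix.transpose_map, hB]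
  have cop : ∀ (c : ℤ) (q : ℤ[X]), (c : ZMod ℓ) ≠ 0 →
      IsCoprime (q.map (Int.castRingHom (ZMod ℓ)))
        ((X ^ d.factorial - 1 : ℤ[X]).map (Int.castRingHom (ZMod ℓ))) →
      IsCoprime (C ((c : ZMod ℓ)⁻¹) * q.map (Int.castRingHom (ZMod ℓ))) (X ^ d.factorial - 1) := by
    intro c q hc h
    have h3 : ((X ^ d.factorial - 1 : ℤ[X]).map (Int.castRingHom (ZMod ℓ))) =
        X ^ d.factorial - 1 := by simp
    rw [h3] at h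
    refine IsCoprime.mul_left ?_ h
    refine ⟨C (c : ZMod ℓ), 0, ?_⟩
    rw [← C_mul, mul_inv_cancel₀ hc, C_1, zero_mul, add_zero]
  have h6 := bad_two (F := ZMod ℓ) hN (redM ℓ B) hBt hdet'
    ![redM ℓ (β σ₀), redM ℓ (β σ₁)] (by
      intro i
      fin_cases i
      · exact redM_isom ℓ (hiso _)
      · exact redM_isom ℓ (hiso _))
    ![C ((c₀ : ZMod ℓ)⁻¹) * q₀.map (Int.castRingHom (ZMod ℓ)),
      C ((c₁ : ZMod ℓ)⁻¹) * q₁.map (Int.castRingHom (ZMod ℓ))] (by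
      intro i
      fin_cases i
      · exact charpoly_mod hP₀ hq₀ k₀ hch₀
      · exact charpoly_mod hP₁ hq₁ k₁ hch₁)
    ![d.factorial, d.factorial] (by
      intro i
      fin_cases i
      · exact cop c₀ q₀ k₀ (hb₀ ℓ hbℓ₀ hp)
      · exact cop c₁ q₁ k₁ (hb₁ ℓ hbℓ₁ hp)) W' W hW (by
      intro i
      fin_cases i
      · exact hpow σ₀
      · exact hpow σ₁)
  have ev2 : ∀ (q : ℤ[X]) (a : ℤ), (q.map (Int.castRingHom (ZMod ℓ))).eval (a : ZMod ℓ) =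
      ((q.eval a : ℤ) : ZMod ℓ) := by
    intro q a
    exact eval_intCast_map (Int.castRingHom (ZMod ℓ)) q a
  simp only [cons_val_zero, cons_val_one, eval_mul, eval_C] at h6
  have e1 := ev2 q₀ 1
  have e2 := ev2 q₀ (-1)
  have e3 := ev2 q₁ 1
  have e4 := ev2 q₁ (-1)
  rw [Int.cast_one] at e1 e3
  rw [Int.cast_neg, Int.cast_one] at e2 e4
  rw [e1, e2, e3, e4] at h6
  have hmsq : IsSquare ((m : ℤ) : ZMod ℓ) := by
    obtain ⟨s, hs⟩ := h6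
    refine ⟨s * (c₀ * c₁), ?_⟩
    rw [hm]
    push_cast
    have h7 : (c₀ : ZMod ℓ)⁻¹ * c₀ = 1 := inv_mul_cancel₀ k₀
    have h8 : (c₁ : ZMod ℓ)⁻¹ * c₁ = 1 := inv_mul_cancel₀ k₁
    have h9 : s * (c₀ * c₁) * (s * (c₀ * c₁)) = s * s * (c₀ * c₁) ^ 2 := by ring
    rw [h9, ← hs]
    field_simp
  have h10 := padic_sq (by omega) (cast_ne_zero hm0 hmℓ) hmsq
  obtain ⟨s, hs⟩ := h10
  have hcc : ((c₀ * c₁ : ℚ) : ℚ_[ℓ]) ≠ 0 := by exact_mod_cast mul_ne_zero hc₀' hc₁'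
  refine ⟨s / ((c₀ * c₁ : ℚ) : ℚ_[ℓ]), ?_⟩
  have h11 : ((m : ℚ) : ℚ_[ℓ]) = s * s := by exact_mod_cast hs
  rw [hmr] at h11
  rw [Rat.cast_mul, Rat.cast_pow] at h11
  rw [div_mul_div_comm, ← h11]
  field_simp

end Pool.Agent.R932
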