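import Pool.Agent.R932.BrB

/-!
# Tate subquotients modulo `ℓ` have density zero
-/

set_option autoImplicit false
set_option linter.unusedSectionVars false
set_option linter.style.haveILetI false

open Matrix Polynomial Filter Topology NumberField IsDedekindDomain
open Pool.Agent.Y142.ZO

namespace Pool.Agent.R932

/-- **an integral orthogonal `ℓ`-adic representation of `G`** whose restriction to the absolute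
Galois group of `K` along `s` is continuous, with Frobenius polynomials `P v` at the places outside
`S` and not above `ℓ` -/
def IntegralSys (K : Type) [Field K] [NumberField K] (N ℓ : ℕ) [Fact ℓ.Prime] {G : Type} [Group G]
    (s : GK K →* G) (β : G →* Matrix (Fin N) (Fin N) ℤ_[ℓ]) (B : Matrix (Fin N) (Fin N) ℤ_[ℓ])
    (S : Set (HeightOneSpectrum (𝓞 K))) (P : HeightOneSpectrum (𝓞 K) → ℚ[X]) : Prop :=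
  Continuous (fun σ : GK K => β (s σ)) ∧ Bᵀ = B ∧ B.det ≠ 0 ∧ (∀ g, (β g)ᵀ * B * β g = B) ∧
  ∀ v ∉ S, (ℓ : 𝓞 K) ∉ v.asIdeal → ∀ σ : GK K, IsFrobenius v σ →
    (β (s σ⁻¹)).charpoly.map (algebraMap ℤ_[ℓ] ℚ_[ℓ]) = (P v).map (algebraMap ℚ ℚ_[ℓ])

section
variable {K : Type} [Field K] [NumberField K] {N : ℕ} {G : Type} [Group G] {s : GK K →* G}
  {S : Set (HeightOneSpectrum (𝓞 K))} {P : HeightOneSpectrum (𝓞 K) → ℚ[X]}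

theorem orthogonal_of {ℓ : ℕ} [Fact ℓ.Prime] {β : G →* Matrix (Fin N) (Fin N) ℤ_[ℓ]}
    {B : Matrix (Fin N) (Fin N) ℤ_[ℓ]} (h : IntegralSys K N ℓ s β B S P) :
    Orthogonal K N ℓ (genRep ℓ (β.comp s)) (genM ℓ B) S P := by
  obtain ⟨h1, h2, h3, h4, h5⟩ := h
  have hinj : Function.Injective (algebraMap ℤ_[ℓ] ℚ_[ℓ]) := IsFractionRing.injective _ _
  refine ⟨?_, ?_, ?_, ?_, ?_⟩
  · refine continuous_matrix fun i j => ?_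
    have h6 : Continuous fun σ : GK K => β (s σ) i j := h1.matrix_elem i j
    exact continuous_subtype_val.comp h6
  · unfold genM
    rw [← Matrix.transpose_map, h2]
  · rw [genM_det]
    exact (map_ne_zero_iff _ hinj).2 h3
  · intro g
    exact genM_isom ℓ (h4 (s g))
  · intro v hv hvℓ σ hσ
    rw [← h5 v hv hvℓ σ hσ, genRep_apply, genM, ← Matrix.charpoly_map]
    rfl

/-- the odd values -/
theorem odd_values (hALG : S_ALG) (hISO : S_ISO) (hLINE : S_LINE) (hTAN : S_TAN) (hLOG : S_LOG)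
    (hEXP : S_EXP) (hPOW : S_POW) (hSPEC : S_SPEC) (hAPP : S_APP) (hFROB : S_FROB) (hBAD : S_BAD)
    (hVAL : S_VAL) (hINF : S_INF) (hN : Odd N)
    (hS : S.Finite) {v₀ v₁ : HeightOneSpectrum (𝓞 K)} {Q₀ Q₁ : ℚ[X]} (hv₀ : GoodPlace S P v₀ Q₀)
    (h0 : ∀ x y z : ℂ, aeval x Q₀ = 0 → aeval y Q₀ = 0 → aeval z Q₀ = 0 → x * y ≠ z)
    (hv₁ : GoodPlace S P v₁ Q₁)
    (hsq : ¬ IsSquare (Q₀.eval 1 * Q₀.eval (-1) * (Q₁.eval 1 * Q₁.eval (-1))))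
    (ρ : ∀ (ℓ : ℕ) [Fact ℓ.Prime], GK K →* Matrix (Fin N) (Fin N) ℚ_[ℓ])
    (B : ∀ (ℓ : ℕ) [Fact ℓ.Prime], Matrix (Fin N) (Fin N) ℚ_[ℓ])
    (hsys : ∀ (ℓ : ℕ) [Fact ℓ.Prime], Orthogonal K N ℓ (ρ ℓ) (B ℓ) S P) (M : ℕ) :
    ∃ ℓ : ℕ, M < ℓ ∧ ℓ.Prime ∧ ∃ r ∈ {r : ℚ | ∃ v Q, GoodPlace S P v Q ∧
      r = Q₀.eval 1 * Q₀.eval (-1) * (Q.eval 1 * Q.eval (-1))}, Odd (padicValRat ℓ r) := by
  set R : Set ℚ := {r | ∃ v Q, GoodPlace S P v Q ∧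
    r = Q₀.eval 1 * Q₀.eval (-1) * (Q.eval 1 * Q.eval (-1))} with hR
  have hR0 : ∀ r ∈ R, r ≠ 0 := by
    rintro r ⟨v, Q, hv, rfl⟩
    exact mul_ne_zero (eval_ne_zero_of_coprime hv₀.2.2) (eval_ne_zero_of_coprime hv.2.2)
  have hsquare : ∀ r ∈ R, ∃ M : ℕ, ∀ ℓ : ℕ, M < ℓ → ∀ _ : Fact ℓ.Prime,
      TateSubquotient ℓ (ρ ℓ) → IsSquare (r : ℚ_[ℓ]) := by
    rintro r ⟨v, Q, hv, rfl⟩
    refine ⟨max (Ideal.absNorm v₀.asIdeal) (Ideal.absNorm v.asIdeal), fun ℓ hℓ hp ht => ?_⟩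
    rw [max_lt_iff] at hℓ
    exact tate_square hBAD hN hv₀ hv ℓ (not_mem_of_lt v₀ hp.out hℓ.1) (not_mem_of_lt v hp.out hℓ.2)
      (ρ ℓ) (B ℓ) (hsys ℓ) ht
  obtain ⟨M₁, hM₁⟩ := hsquare _ ⟨v₁, Q₁, hv₁, rfl⟩
  obtain ⟨ℓ, hℓ, hp, hℓsq⟩ := hINF _ hsq (max (max M 2) (max M₁ (Ideal.absNorm v₀.asIdeal)))
  simp only [max_lt_iff] at hℓ
  have hgood : ¬ TateSubquotient ℓ (ρ ℓ) := fun h => hℓsq (hM₁ ℓ hℓ.2.1 hp h)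
  obtain ⟨β₁, β₂, hβ₁, hβ₂, hval⟩ := values hALG hISO hLINE hTAN hLOG hEXP hPOW hSPEC hAPP hFROB
    hN hS hv₀ h0 ℓ (not_mem_of_lt v₀ hp.out hℓ.2.2) (ρ ℓ) (B ℓ) (hsys ℓ) hgood
  obtain ⟨s, t, hst, hodd⟩ := hVAL ℓ (by omega) β₁ β₂ hβ₁ hβ₂
  obtain ⟨v, Q, hv, hvsq⟩ := hval s t hst
  refine ⟨ℓ, hℓ.1.1, hp.out, _, ⟨v, Q, hv, rfl⟩, ?_⟩
  set r : ℚ := Q₀.eval 1 * Q₀.eval (-1) * (Q.eval 1 * Q.eval (-1)) with hr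
  have hr0 : r ≠ 0 := hR0 r ⟨v, Q, hv, rfl⟩
  rw [eq_ratCast] at hvsq
  obtain ⟨a, ha⟩ := hvsq
  have hr0' : (r : ℚ_[ℓ]) ≠ 0 := by exact_mod_cast hr0
  have ha0 : a ≠ 0 := by
    rintro rfl
    rw [mul_zero] at ha
    exact mul_ne_zero hr0' hst ha
  have h1 := congrArg Padic.valuation ha
  rw [Padic.valuation_mul hr0' hst, Padic.valuation_mul ha0 ha0, Padic.valuation_ratCast] at h1
  have h2 : Even (padicValRat ℓ r + Padic.valuation (1 + β₁ * s ^ 2 + β₂ * t ^ 2)) := ⟨_, h1⟩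
  rw [Int.even_add, ← Int.not_odd_iff_even, ← Int.not_odd_iff_even] at h2
  by_contra h3
  exact (h2.1 h3) hodd

/-- **density zero** -/
theorem mod_density (hALG : S_ALG) (hISO : S_ISO) (hLINE : S_LINE) (hTAN : S_TAN) (hLOG : S_LOG)
    (hEXP : S_EXP) (hPOW : S_POW) (hSPEC : S_SPEC) (hAPP : S_APP) (hFROB : S_FROB) (hBAD : S_BAD)
    (hVAL : S_VAL) (hDENS : S_DENS) (hINF : S_INF) (hN : Odd N)
    (hS : S.Finite) {v₀ v₁ : HeightOneSpectrum (𝓞 K)} {Q₀ Q₁ : ℚ[X]} (hv₀ : GoodPlace S P v₀ Q₀)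
    (h0 : ∀ x y z : ℂ, aeval x Q₀ = 0 → aeval y Q₀ = 0 → aeval z Q₀ = 0 → x * y ≠ z)
    (hv₁ : GoodPlace S P v₁ Q₁)
    (hsq : ¬ IsSquare (Q₀.eval 1 * Q₀.eval (-1) * (Q₁.eval 1 * Q₁.eval (-1))))
    (β : ∀ (ℓ : ℕ) [Fact ℓ.Prime], G →* Matrix (Fin N) (Fin N) ℤ_[ℓ])
    (B : ∀ (ℓ : ℕ) [Fact ℓ.Prime], Matrix (Fin N) (Fin N) ℤ_[ℓ])
    (hsys : ∀ (ℓ : ℕ) [Fact ℓ.Prime], IntegralSys K N ℓ s (β ℓ) (B ℓ) S P)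
    (hun : ∃ b : ℕ, ∀ (ℓ : ℕ) [Fact ℓ.Prime], b < ℓ → IsUnit (B ℓ).det) (d : ℕ) :
    DensityZero {ℓ | ∃ _ : Fact ℓ.Prime, TateMod ℓ d (β ℓ)} := by
  refine hDENS {r : ℚ | ∃ v Q, GoodPlace S P v Q ∧
    r = Q₀.eval 1 * Q₀.eval (-1) * (Q.eval 1 * Q.eval (-1))} _ ?_ (fun ℓ hℓ => hℓ.1.out) ?_ ?_
  · rintro ⟨v, Q, hv, h⟩
    exact mul_ne_zero (eval_ne_zero_of_coprime hv₀.2.2) (eval_ne_zero_of_coprime hv.2.2) h.symm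
  · exact odd_values hALG hISO hLINE hTAN hLOG hEXP hPOW hSPEC hAPP hFROB hBAD hVAL hINF hN hS hv₀
      h0 hv₁ hsq (fun ℓ _ => genRep ℓ ((β ℓ).comp s)) (fun ℓ _ => genM ℓ (B ℓ))
      (fun ℓ _ => orthogonal_of (hsys ℓ))
  · rintro r ⟨v, Q, hv, rfl⟩
    obtain ⟨b₀, hb₀⟩ := hun
    obtain ⟨b₁, hb₁⟩ := square_mod hv₀.2.1 hv.2.1 hv₀.2.2 hv.2.2 d
    refine ⟨max (max b₀ b₁) (max (Ideal.absNorm v₀.asIdeal) (Ideal.absNorm v.asIdeal)), ?_⟩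
    rintro ℓ ⟨hp', hT⟩ hℓ hp
    simp only [max_lt_iff] at hℓ
    obtain ⟨σ₀, hσ₀⟩ := Pool.Agent.W401.Frob.exists_frob v₀
    obtain ⟨σ, hσ⟩ := Pool.Agent.W401.Frob.exists_frob v
    obtain ⟨-, h2, -, h4, h5⟩ := hsys ℓ
    have e : ∀ A : Matrix (Fin N) (Fin N) ℤ_[ℓ],
        (genM ℓ A).charpoly = A.charpoly.map (algebraMap ℤ_[ℓ] ℚ_[ℓ]) := fun A => by
      rw [genM, ← Matrix.charpoly_map]
    exact hb₁ ℓ hℓ.1.2 hp N hN G (β ℓ) (B ℓ) h2 (hb₀ ℓ hℓ.1.1) h4 (s σ₀⁻¹) (s σ⁻¹)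
      (by rw [e]; exact h5 v₀ hv₀.1 (not_mem_of_lt v₀ hp.out hℓ.2.1) σ₀ hσ₀)
      (by rw [e]; exact h5 v hv.1 (not_mem_of_lt v hp.out hℓ.2.2) σ hσ) hT

/-- **the zero-one law modulo `ℓ`** -/
theorem mod_zero_one (hALG : S_ALG) (hISO : S_ISO) (hLINE : S_LINE) (hTAN : S_TAN) (hLOG : S_LOG)
    (hEXP : S_EXP) (hPOW : S_POW) (hSPEC : S_SPEC) (hAPP : S_APP) (hFROB : S_FROB) (hBAD : S_BAD)
    (hVAL : S_VAL) (hVAL2 : S_VAL2) (hDENS : S_DENS) (hINF : S_INF) (hN : Odd N)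
    (hS : S.Finite) {v₀ : HeightOneSpectrum (𝓞 K)} {Q₀ : ℚ[X]} (hv₀ : GoodPlace S P v₀ Q₀)
    (h0 : ∀ x y z : ℂ, aeval x Q₀ = 0 → aeval y Q₀ = 0 → aeval z Q₀ = 0 → x * y ≠ z)
    (β : ∀ (ℓ : ℕ) [Fact ℓ.Prime], G →* Matrix (Fin N) (Fin N) ℤ_[ℓ])
    (B : ∀ (ℓ : ℕ) [Fact ℓ.Prime], Matrix (Fin N) (Fin N) ℤ_[ℓ])
    (hsys : ∀ (ℓ : ℕ) [Fact ℓ.Prime], IntegralSys K N ℓ s (β ℓ) (B ℓ) S P)
    (hun : ∃ b : ℕ, ∀ (ℓ : ℕ) [Fact ℓ.Prime], b < ℓ → IsUnit (B ℓ).det)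
    (ℓ : ℕ) [hp : Fact ℓ.Prime] (hℓ : (ℓ : 𝓞 K) ∉ v₀.asIdeal)
    (hgood : ¬ TateSubquotient ℓ (genRep ℓ ((β ℓ).comp s))) (d : ℕ) :
    DensityZero {ℓ | ∃ _ : Fact ℓ.Prime, TateMod ℓ d (β ℓ)} := by
  obtain ⟨β₁, β₂, hβ₁, hβ₂, hval⟩ := values hALG hISO hLINE hTAN hLOG hEXP hPOW hSPEC hAPP hFROB
    hN hS hv₀ h0 ℓ hℓ (genRep ℓ ((β ℓ).comp s)) (genM ℓ (B ℓ)) (orthogonal_of (hsys ℓ)) hgood
  obtain ⟨t, hs, hsq⟩ := hVAL2 ℓ β₁ hβ₁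
  obtain ⟨v, Q, hv, hvsq⟩ := hval t 0 (by simpa using hs)
  refine mod_density hALG hISO hLINE hTAN hLOG hEXP hPOW hSPEC hAPP hFROB hBAD hVAL hDENS hINF
    hN hS hv₀ h0 hv ?_ β B hsys hun d
  rintro ⟨a, ha⟩
  apply hsq
  rw [ha, map_mul] at hvsq
  have ha0 : a ≠ 0 := by
    rintro rfl
    rw [mul_zero] at ha
    exact mul_ne_zero (eval_ne_zero_of_coprime hv₀.2.2) (eval_ne_zero_of_coprime hv.2.2) ha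
  have ha0' : algebraMap ℚ ℚ_[ℓ] a ≠ 0 := (_root_.map_ne_zero _).2 ha0
  obtain ⟨b, hb⟩ := hvsq
  refine ⟨b / algebraMap ℚ ℚ_[ℓ] a, ?_⟩
  field_simp
  linear_combination hb

end

end Pool.Agent.R932
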