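import Mathlib
import Pool.Agent.R932.Ad

/-!
# The Lie algebra of the special orthogonal group
-/

set_option autoImplicit false
set_option linter.unusedSectionVars false

namespace Pool.Agent.R932

open MvPolynomial Matrix Filter Topology Pool.Agent.W528.ZC Pool.Agent.Y95.MT
open Pool.Agent.W544.PG (HS BD mC det_mC bl bl_T bl_mC bl_det_ne)

noncomputable section

section

variable {n r : ℕ} {c : Fin n → Fin r} {T : HS n}

theorem InSO_of_map {R R' : Type} [Field R] [Algebra ℚ R] [Field R'] [Algebra ℚ R']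
    (σ : R →+* R') {Q : Matrix (Fin n) (Fin n) ℚ} {t : Matrix (Fin n) (Fin n) R}
    (h : InSO c Q (t.map σ)) : InSO c Q t := by
  obtain ⟨h1, h2, h3⟩ := h
  refine ⟨?_, fun a b hab => ?_, fun i => ?_⟩
  · refine Matrix.map_injective σ.injective ?_
    have h4 : (tᵀ * Q.map (algebraMap ℚ R) * t).map σ =
        (t.map σ)ᵀ * (Q.map (algebraMap ℚ R)).map σ * t.map σ := by
      rw [Matrix.map_mul, Matrix.map_mul, Matrix.transpose_map]
    show (tᵀ * Q.map (algebraMap ℚ R) * t).map σ = (Q.map (algebraMap ℚ R)).map σ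
    rw [h4, map_alg σ, h1]
  · have h4 := h2 a b hab
    rw [Matrix.map_apply] at h4
    exact (map_eq_zero σ).1 h4
  · have h4 := h3 i
    rw [det_bl_map] at h4
    exact σ.injective (by rw [h4, map_one])

theorem cayley (hbQ : BD c T.Q) {A g : Matrix (Fin n) (Fin n) ℂ}
    (hA : Aᵀ * mC T.Q + mC T.Q * A = 0) (hAb : BD c A) (hd : (1 - A).det ≠ 0)
    (hg : (1 - A) * g = 1 + A) : InSO c T.Q g := by
  obtain ⟨Q, hQ⟩ : ∃ Q, Q = mC T.Q := ⟨_, rfl⟩
  have hbQ' : BD c Q := fun a b hab => by simp [hQ, mC, hbQ a b hab]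
  have hQd : Q.det ≠ 0 := by
    rw [hQ, det_mC]
    exact_mod_cast W74.PG.det_ne T
  have huQ : IsUnit Q.det := isUnit_iff_ne_zero.2 hQd
  rw [← hQ] at hA
  have hA' : Aᵀ * Q = -(Q * A) := eq_neg_of_add_eq_zero_left hA
  obtain ⟨P, hP⟩ : ∃ P, P = 1 - A := ⟨_, rfl⟩
  obtain ⟨M, hM⟩ : ∃ M, M = 1 + A := ⟨_, rfl⟩
  have hPQ : Pᵀ * Q = Q * M := by
    rw [hP, hM, Matrix.transpose_sub, Matrix.transpose_one, sub_mul, hA', mul_add, one_mul,
      mul_one, sub_neg_eq_add]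
  have hMQ : Mᵀ * Q = Q * P := by
    rw [hP, hM, Matrix.transpose_add, Matrix.transpose_one, add_mul, hA', mul_sub, one_mul,
      mul_one, ← sub_eq_add_neg]
  have hPM : P * M = M * P := by
    rw [hP, hM]
    noncomm_ring
  rw [← hP] at hd hg
  rw [← hM] at hg
  have huP : IsUnit P.det := isUnit_iff_ne_zero.2 hd
  have hg' : g = P⁻¹ * M := by
    rw [← hg, ← Matrix.mul_assoc, Matrix.nonsing_inv_mul _ huP, one_mul]
  have hbone : BD c (1 : Matrix (Fin n) (Fin n) ℂ) := by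
    intro a b hab
    rw [Matrix.one_apply_ne]
    rintro rfl
    exact hab rfl
  have hbP : BD c P := by
    intro a b hab
    rw [hP, Matrix.sub_apply, hbone a b hab, hAb a b hab, sub_zero]
  have hbM : BD c M := by
    intro a b hab
    rw [hM, Matrix.add_apply, hbone a b hab, hAb a b hab, add_zero]
  have hMd : M.det ≠ 0 := by
    have h1 := congrArg Matrix.det hMQ
    rw [Matrix.det_mul, Matrix.det_mul, Matrix.det_transpose, mul_comm] at h1
    rw [mul_left_cancel₀ hQd h1]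
    exact hd
  have huM : IsUnit M.det := isUnit_iff_ne_zero.2 hMd
  refine ⟨?_, ?_, fun i => ?_⟩
  · rw [← mC_eq, ← hQ]
    have h1 : (P⁻¹)ᵀ * Q = Q * M⁻¹ := by
      calc (P⁻¹)ᵀ * Q = (P⁻¹)ᵀ * (Q * M) * M⁻¹ := by
            rw [Matrix.mul_assoc, Matrix.mul_assoc, Matrix.mul_nonsing_inv _ huM, mul_one]
        _ = (P * P⁻¹)ᵀ * Q * M⁻¹ := by
            rw [← hPQ, Matrix.transpose_mul, Matrix.mul_assoc, Matrix.mul_assoc,
              Matrix.mul_assoc]
            simp only [Matrix.mul_assoc]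
        _ = Q * M⁻¹ := by
            rw [Matrix.mul_nonsing_inv _ huP, Matrix.transpose_one, one_mul]
    calc gᵀ * Q * g = Mᵀ * ((P⁻¹)ᵀ * Q) * (P⁻¹ * M) := by
          rw [hg', Matrix.transpose_mul]
          simp only [Matrix.mul_assoc]
      _ = Mᵀ * Q * (M⁻¹ * P⁻¹ * M) := by
          rw [h1]
          simp only [Matrix.mul_assoc]
      _ = Q * (P * (M⁻¹ * P⁻¹ * M)) := by
          rw [hMQ]
          simp only [Matrix.mul_assoc]
      _ = Q := by
          have h2 : M⁻¹ * P⁻¹ = P⁻¹ * M⁻¹ := by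
            rw [← Matrix.mul_inv_rev, ← Matrix.mul_inv_rev, hPM]
          rw [h2, Matrix.mul_assoc P⁻¹, Matrix.nonsing_inv_mul _ huM, mul_one,
            Matrix.mul_nonsing_inv _ huP, mul_one]
  · rw [hg']
    exact W918.PG.bd_mul (W918.PG.bd_inv hbP huP) hbM
  · have hbg : BD c g := by
      rw [hg']
      exact W918.PG.bd_mul (W918.PG.bd_inv hbP huP) hbM
    have h1 : (bl c i (Mᵀ * Q)).det = (bl c i (Q * P)).det := by rw [hMQ]
    have h2 : (bl c i (P * g)).det = (bl c i M).det := by rw [hg]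
    have hbMt : BD c Mᵀ := fun a b hab => hbM b a (Ne.symm hab)
    rw [W918.PG.bl_mul hbMt hbQ', W918.PG.bl_mul hbQ' hbP, bl_T, Matrix.det_mul, Matrix.det_mul,
      Matrix.det_transpose, mul_comm] at h1
    have h3 : (bl c i Q).det ≠ 0 := by
      rw [hQ, bl_mC, det_mC]
      exact_mod_cast bl_det_ne hbQ i
    have h4 := mul_left_cancel₀ h3 h1
    rw [W918.PG.bl_mul hbP hbg, Matrix.det_mul, h4] at h2
    have h5 : (bl c i P).det ≠ 0 := by
      have h6 : (bl c i (P⁻¹ * P)).det = (bl c i (1 : Matrix (Fin n) (Fin n) ℂ)).det := by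
        rw [Matrix.nonsing_inv_mul _ huP]
      rw [W918.PG.bl_mul (W918.PG.bd_inv hbP huP) hbP, W918.PG.bl_one, Matrix.det_mul,
        Matrix.det_one] at h6
      intro h7
      rw [h7, mul_zero] at h6
      exact zero_ne_one h6
    exact mul_left_cancel₀ h5 (by rw [h2, mul_one])

end

section

variable {ℓ : ℕ} [Fact ℓ.Prime] {n r : ℕ} {c : Fin n → Fin r} {Γ : Type} [Group Γ]
  {β : Γ →* Matrix (Fin n) (Fin n) ℤ_[ℓ]} {T : HS n}

theorem tendsto_det {A : ℕ → Matrix (Fin n) (Fin n) ℚ_[ℓ]} (hA : Tendsto A atTop (𝓝 1)) :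
    Tendsto (fun m => (A m).det) atTop (𝓝 1) := by
  have h2 : Tendsto (fun m => (A m).det) atTop (𝓝 (1 : Matrix (Fin n) (Fin n) ℚ_[ℓ]).det) :=
    ((continuous_id.matrix_det (n := Fin n) (R := ℚ_[ℓ])).tendsto 1).comp hA
  rwa [Matrix.det_one] at h2

theorem tendsto_inv {A : ℕ → Matrix (Fin n) (Fin n) ℚ_[ℓ]} (hA : Tendsto A atTop (𝓝 1)) :
    Tendsto (fun m => (A m)⁻¹) atTop (𝓝 1) := by
  have h1 := tendsto_det hA
  have h2 : Tendsto (fun m => (A m).adjugate) atTop (𝓝 1) := by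
    have h2 : Tendsto (fun m => (A m).adjugate) atTop
        (𝓝 (1 : Matrix (Fin n) (Fin n) ℚ_[ℓ]).adjugate) :=
      ((continuous_id.matrix_adjugate (n := Fin n) (R := ℚ_[ℓ])).tendsto 1).comp hA
    rwa [Matrix.adjugate_one] at h2
  have h3 : Tendsto (fun m => ((A m).det)⁻¹) atTop (𝓝 1) := by
    have h4 := h1.inv₀ one_ne_zero
    rwa [inv_one] at h4
  have h4 := h3.smul h2
  rw [one_smul] at h4
  refine h4.congr fun m => ?_
  rw [Matrix.inv_def, Ring.inverse_eq_inv']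

theorem wd_single_BD (hbQ : BD c T.Q) {i : Fin r} {x y : Fin n} (hx : c x = i) (hy : c y = i) :
    BD c (wd (T.Q.map (algebraMap ℚ ℚ_[ℓ])) (Pi.single x 1) (Pi.single y 1)) := by
  intro a b hab
  unfold wd
  have h1 : ∀ (x : Fin n) (z : Fin n), c z ≠ c x →
      (T.Q.map (algebraMap ℚ ℚ_[ℓ]) *ᵥ Pi.single x 1) z = 0 := by
    intro x z hz
    rw [Matrix.mulVec_single_one, Matrix.col_apply, Matrix.map_apply, hbQ z x hz, map_zero]
  rw [Matrix.sub_apply, vecMulVec_apply, vecMulVec_apply]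
  by_cases ha : c a = i
  · have hbi : c b ≠ i := fun h => hab (ha.trans h.symm)
    rw [h1 y b (by rw [hy]; exact hbi), h1 x b (by rw [hx]; exact hbi)]
    ring
  · have hax : (Pi.single x 1 : Fin n → ℚ_[ℓ]) a = 0 := by
      rw [Pi.single_eq_of_ne]
      rintro rfl
      exact ha hx
    have hay : (Pi.single y 1 : Fin n → ℚ_[ℓ]) a = 0 := by
      rw [Pi.single_eq_of_ne]
      rintro rfl
      exact ha hy
    rw [hax, hay]
    ring

/-- the Lie algebra of the monodromy group contains all skew matrices if the monodromy group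
contains the special orthogonal group -/
theorem lie_of_SO (hg : GalT c T.Q β) (hbQ : BD c T.Q)
    (hSO : ∀ g : Matrix (Fin n) (Fin n) (AlgebraicClosure ℚ_[ℓ]), InSO c T.Q g →
      InG0 (qrep β) g) (e' : AlgebraicClosure ℚ_[ℓ] →+* ℂ)
    {Z : Matrix (Fin n) (Fin n) ℂ} (hZ : Zᵀ * mC T.Q + mC T.Q * Z = 0) (hZb : BD c Z) :
    Z ∈ LS (IG (qrep β) (e'.comp (algebraMap ℚ_[ℓ] (AlgebraicClosure ℚ_[ℓ])))) := by
  obtain ⟨j, hj⟩ : ∃ j, j = algebraMap ℚ_[ℓ] (AlgebraicClosure ℚ_[ℓ]) := ⟨_, rfl⟩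
  obtain ⟨e, he⟩ : ∃ e, e = e'.comp j := ⟨_, rfl⟩
  rw [← hj, ← he]
  have hbQ' : BD c (mC T.Q) := fun a b hab => by simp [mC, hbQ a b hab]
  have hsy : (mC T.Q)ᵀ = mC T.Q := by
    have h1 := congrArg (fun M => mC M) T.symm
    simpa [mC, ← Matrix.transpose_map] using h1
  have hdet : (mC T.Q).det ≠ 0 := by
    rw [det_mC]
    exact_mod_cast W74.PG.det_ne T
  have hQe : (T.Q.map (algebraMap ℚ ℚ_[ℓ])).map e = mC T.Q := by
    rw [map_alg e, mC_eq]
  -- a skew matrix over `ℚ_ℓ` lies in the Lie algebra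
  have key : ∀ X : Matrix (Fin n) (Fin n) ℚ_[ℓ], Xᵀ * T.Q.map (algebraMap ℚ ℚ_[ℓ]) +
      T.Q.map (algebraMap ℚ ℚ_[ℓ]) * X = 0 → BD c X → X.map e ∈ LS (IG (qrep β) e) := by
    intro X hX hXb
    obtain ⟨Δ₀, hΔ₀, hdet₀⟩ := hg.exists_det hbQ e
    rintro f ⟨Δ, hΔ, hf⟩
    refine ⟨Δ ⊓ Δ₀, inferInstance, base_change e (fun f₀ hf₀ s hs => ?_) fun s hs => hf s hs.1⟩
    -- the path
    have hℓ : ‖(ℓ : ℚ_[ℓ])‖ < 1 := Padic.norm_p_lt_one
    have h0 : ∀ m : ℕ, (ℓ : ℚ_[ℓ]) ^ m ≠ 0 := fun m => pow_ne_zero _ (by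
      exact_mod_cast (Fact.out : ℓ.Prime).ne_zero)
    have ht : Tendsto (fun m : ℕ => (ℓ : ℚ_[ℓ]) ^ m) atTop (𝓝 0) :=
      tendsto_pow_atTop_nhds_zero_of_norm_lt_one hℓ
    have hA1 : Tendsto (fun m : ℕ => 1 - ((ℓ : ℚ_[ℓ]) ^ m / 2) • X) atTop (𝓝 1) := by
      have h1 := ((ht.div_const 2).smul_const X).const_sub (1 : Matrix (Fin n) (Fin n) ℚ_[ℓ])
      rwa [zero_div, zero_smul, sub_zero] at h1
    have hinv := tendsto_inv hA1
    have hY : Tendsto (fun m : ℕ => (1 - ((ℓ : ℚ_[ℓ]) ^ m / 2) • X)⁻¹ * X) atTop (𝓝 X) := by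
      have h1 := hinv.mul_const X
      rwa [one_mul] at h1
    have hev := tendsto_ev (qrep β s) h0 ht hY f₀
    refine tendsto_nhds_unique hev (tendsto_const_nhds.congr' ?_)
    have hdt : ∀ᶠ m : ℕ in atTop, (1 - ((ℓ : ℚ_[ℓ]) ^ m / 2) • X).det ≠ 0 := by
      exact (tendsto_det hA1).eventually_ne one_ne_zero
    filter_upwards [hdt] with m hm
    obtain ⟨A, hA⟩ : ∃ A, A = ((ℓ : ℚ_[ℓ]) ^ m / 2) • X := ⟨_, rfl⟩
    rw [← hA] at hm ⊢
    have hum : IsUnit (1 - A).det := isUnit_iff_ne_zero.2 hm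
    have hgen : ∀ x : Matrix (Fin n) (Fin n) ℚ_[ℓ], InSO c T.Q (x.map e) → ev x f₀ = 0 := by
      intro x hx
      have h1 : InSO c T.Q (x.map j) := by
        refine InSO_of_map e' ?_
        have h2 : (x.map j).map e' = x.map e := by
          rw [he]
          rfl
        rw [h2]
        exact hx
      have h2 := hSO _ h1 (MvPolynomial.map j f₀) ?_
      · have h3 : ev (x.map j) (MvPolynomial.map j f₀) = 0 := h2
        rw [ev_map_poly] at h3
        exact (map_eq_zero j).1 h3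
      · refine ⟨Δ ⊓ Δ₀, inferInstance, fun s hs => ?_⟩
        have h3 : ev ((qrep β s).map j) (MvPolynomial.map j f₀) = 0 := by
          rw [ev_map_poly, hf₀ s hs, map_zero]
        rw [← hj]
        exact h3
    have hc : InSO c T.Q ((1 + (ℓ : ℚ_[ℓ]) ^ m • ((1 - A)⁻¹ * X)).map e) := by
      have hAe : (A.map e)ᵀ * mC T.Q + mC T.Q * A.map e = 0 := by
        have h1 : Aᵀ * T.Q.map (algebraMap ℚ ℚ_[ℓ]) + T.Q.map (algebraMap ℚ ℚ_[ℓ]) * A = 0 := by
          rw [hA, Matrix.transpose_smul, Matrix.smul_mul, Matrix.mul_smul, ← smul_add, hX,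
            smul_zero]
        have h2 : (Aᵀ * T.Q.map (algebraMap ℚ ℚ_[ℓ]) + T.Q.map (algebraMap ℚ ℚ_[ℓ]) * A).map e =
            0 := by
          rw [h1, Matrix.map_zero _ (map_zero e)]
        rw [Matrix.map_add _ (map_add e), Matrix.map_mul, Matrix.map_mul, Matrix.transpose_map,
          hQe] at h2
        exact h2
      refine cayley hbQ hAe ?_ ?_ ?_
      · intro a b hab
        rw [Matrix.map_apply, hA, Matrix.smul_apply, hXb a b hab, smul_zero, map_zero]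
      · have h1 : (1 - A.map e).det = e (1 - A).det := by
          rw [RingHom.map_det, RingHom.mapMatrix_apply, Matrix.map_sub _ (map_sub e),
            Matrix.map_one _ (map_zero e) (map_one e)]
        rw [h1]
        exact (_root_.map_ne_zero e).2 hm
      · have h1 : (1 - A) * (1 + (ℓ : ℚ_[ℓ]) ^ m • ((1 - A)⁻¹ * X)) = 1 + A := by
          rw [mul_add, mul_one, Matrix.mul_smul, ← Matrix.mul_assoc,
            Matrix.mul_nonsing_inv _ hum, one_mul]
          have h2 : (ℓ : ℚ_[ℓ]) ^ m • X = A + A := by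
            rw [hA, ← add_smul, add_halves]
          rw [h2]
          abel
        have h2 : ((1 - A) * (1 + (ℓ : ℚ_[ℓ]) ^ m • ((1 - A)⁻¹ * X))).map e = (1 + A).map e := by
          rw [h1]
        rw [Matrix.map_mul, Matrix.map_sub _ (map_sub e), Matrix.map_one _ (map_zero e) (map_one e)]
          at h2
        rw [h2, Matrix.map_add _ (map_add e), Matrix.map_one _ (map_zero e) (map_one e)]
    have h1 : ev (qrep β s) f₀ = 0 := hgen _ (hg.SO e (hdet₀ s hs.2))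
    have h2 : ev (qrep β s * (1 + (ℓ : ℚ_[ℓ]) ^ m • ((1 - A)⁻¹ * X))) f₀ = 0 := by
      refine hgen _ ?_
      rw [Matrix.map_mul]
      exact InSO_mul (hg.SO e (hdet₀ s hs.2)) hc
    rw [h1, h2, sub_zero, mul_zero]
  -- all skew matrices
  let L : Submodule ℂ (Matrix (Fin 0 ⊕ Fin n) (Fin 0 ⊕ Fin n) ℂ) :=
    { carrier := {M | M.toBlocks₂₂ ∈ LS (IG (qrep β) e)}
      zero_mem' := Submodule.zero_mem (LS (IG (qrep β) e))
      add_mem' := fun {a b} ha hb => Submodule.add_mem (LS (IG (qrep β) e)) ha hb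
      smul_mem' := fun z a ha => Submodule.smul_mem (LS (IG (qrep β) e)) z ha }
  have h1 : (fromBlocks 0 0 0 Z : Matrix (Fin 0 ⊕ Fin n) (Fin 0 ⊕ Fin n) ℂ) ∈ L := by
    refine skew_mem (c := c) hsy hdet hbQ' (fun i a b ha hb => ?_) hZ hZb
    refine wd_single_mem (c := c) (i := i) (fun x y hx hy => ?_) ha hb
    show (fromBlocks 0 0 0 (wd (mC T.Q) (Pi.single x 1) (Pi.single y 1)) :
      Matrix (Fin 0 ⊕ Fin n) (Fin 0 ⊕ Fin n) ℂ).toBlocks₂₂ ∈ LS (IG (qrep β) e)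
    rw [Matrix.toBlocks_fromBlocks₂₂]
    have h2 := key (wd (T.Q.map (algebraMap ℚ ℚ_[ℓ])) (Pi.single x 1) (Pi.single y 1))
      (wd_skew (qsymm T) _ _) (wd_single_BD hbQ hx hy)
    rw [map_wd, hQe] at h2
    have h3 : ∀ x : Fin n, (fun z => e ((Pi.single x (1 : ℚ_[ℓ]) : Fin n → ℚ_[ℓ]) z)) =
        (Pi.single x 1 : Fin n → ℂ) := by
      intro x
      funext z
      by_cases hz : z = x
      · subst hz
        simp
      · simp [Pi.single_eq_of_ne hz]
    rwa [h3, h3] at h2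
  have h2 : (fromBlocks 0 0 0 Z : Matrix (Fin 0 ⊕ Fin n) (Fin 0 ⊕ Fin n) ℂ).toBlocks₂₂ ∈
    LS (IG (qrep β) e) := h1
  rwa [Matrix.toBlocks_fromBlocks₂₂] at h2

end

end

end Pool.Agent.R932
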