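import Pool.Agent.R932.BrB

/-!
# Congruences of `ℓ`-adic matrices
-/

set_option autoImplicit false
set_option linter.unusedSectionVars false
set_option linter.style.haveILetI false

open Matrix

namespace Pool.Agent.R932

section
variable {ℓ : ℕ} [hℓ : Fact ℓ.Prime] {N : ℕ}

/-- the matrix is divisible by `ℓ ^ k` -/
def Cg (k : ℕ) (A : Matrix (Fin N) (Fin N) ℤ_[ℓ]) : Prop := ∃ C, A = ((ℓ : ℤ_[ℓ]) ^ k) • C

theorem Cg.zero (k : ℕ) : Cg k (0 : Matrix (Fin N) (Fin N) ℤ_[ℓ]) := ⟨0, by rw [smul_zero]⟩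

theorem Cg.add {k : ℕ} {A B : Matrix (Fin N) (Fin N) ℤ_[ℓ]} (hA : Cg k A) (hB : Cg k B) :
    Cg k (A + B) := by
  obtain ⟨C, rfl⟩ := hA
  obtain ⟨D, rfl⟩ := hB
  exact ⟨C + D, by rw [smul_add]⟩

theorem Cg.neg {k : ℕ} {A : Matrix (Fin N) (Fin N) ℤ_[ℓ]} (hA : Cg k A) : Cg k (-A) := by
  obtain ⟨C, rfl⟩ := hA
  exact ⟨-C, by rw [smul_neg]⟩

theorem Cg.sub {k : ℕ} {A B : Matrix (Fin N) (Fin N) ℤ_[ℓ]} (hA : Cg k A) (hB : Cg k B) :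
    Cg k (A - B) := by
  rw [sub_eq_add_neg]
  exact hA.add hB.neg

theorem Cg.mul {j k : ℕ} {A B : Matrix (Fin N) (Fin N) ℤ_[ℓ]} (hA : Cg j A) (hB : Cg k B) :
    Cg (j + k) (A * B) := by
  obtain ⟨C, rfl⟩ := hA
  obtain ⟨D, rfl⟩ := hB
  exact ⟨C * D, by rw [smul_mul_smul_comm, pow_add]⟩

theorem Cg.mono {j k : ℕ} (h : j ≤ k) {A : Matrix (Fin N) (Fin N) ℤ_[ℓ]} (hA : Cg k A) :
    Cg j A := by
  obtain ⟨C, rfl⟩ := hA
  obtain ⟨i, rfl⟩ := Nat.exists_eq_add_of_le h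
  exact ⟨((ℓ : ℤ_[ℓ]) ^ i) • C, by rw [smul_smul, pow_add]⟩

theorem Cg.any (A : Matrix (Fin N) (Fin N) ℤ_[ℓ]) : Cg 0 A := ⟨A, by rw [pow_zero, one_smul]⟩

theorem Cg.mul_left {k : ℕ} {B : Matrix (Fin N) (Fin N) ℤ_[ℓ]} (hB : Cg k B)
    (A : Matrix (Fin N) (Fin N) ℤ_[ℓ]) : Cg k (A * B) := by
  have := (Cg.any A).mul hB
  rwa [zero_add] at this

theorem Cg.mul_right {k : ℕ} {B : Matrix (Fin N) (Fin N) ℤ_[ℓ]} (hB : Cg k B)
    (A : Matrix (Fin N) (Fin N) ℤ_[ℓ]) : Cg k (B * A) := by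
  have := hB.mul (Cg.any A)
  rwa [add_zero] at this

theorem Cg.sum {ι : Type} {k : ℕ} (s : Finset ι) (f : ι → Matrix (Fin N) (Fin N) ℤ_[ℓ])
    (h : ∀ i ∈ s, Cg k (f i)) : Cg k (∑ i ∈ s, f i) := by
  classical
  induction s using Finset.induction_on with
  | empty => rw [Finset.sum_empty]; exact Cg.zero k
  | insert a s ha ih =>
    rw [Finset.sum_insert ha]
    exact (h a (Finset.mem_insert_self a s)).add (ih fun i hi => h i (Finset.mem_insert_of_mem hi))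

theorem Cg.smul {k : ℕ} {A : Matrix (Fin N) (Fin N) ℤ_[ℓ]} (hA : Cg k A) (c : ℤ_[ℓ]) :
    Cg k (c • A) := by
  obtain ⟨C, rfl⟩ := hA
  exact ⟨c • C, by rw [smul_comm]⟩

theorem cg_iff_norm {k : ℕ} {A : Matrix (Fin N) (Fin N) ℤ_[ℓ]} :
    Cg k A ↔ ∀ i j, ‖A i j‖ ≤ (ℓ : ℝ) ^ (-(k : ℤ)) := by
  constructor
  · rintro ⟨C, rfl⟩ i j
    rw [PadicInt.norm_le_pow_iff_mem_span_pow, Ideal.mem_span_singleton]
    exact ⟨C i j, by rw [Matrix.smul_apply, smul_eq_mul]⟩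
  · intro h
    have h1 : ∀ i j, ∃ c, A i j = (ℓ : ℤ_[ℓ]) ^ k * c := by
      intro i j
      have := h i j
      rw [PadicInt.norm_le_pow_iff_mem_span_pow, Ideal.mem_span_singleton] at this
      exact this
    choose C hC using h1
    exact ⟨Matrix.of C, by ext i j; rw [Matrix.smul_apply, Matrix.of_apply, smul_eq_mul, hC]⟩

theorem cg_closed (k : ℕ) : IsClosed {A : Matrix (Fin N) (Fin N) ℤ_[ℓ] | Cg k A} := by
  have h : {A : Matrix (Fin N) (Fin N) ℤ_[ℓ] | Cg k A} =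
      ⋂ i, ⋂ j, {A | ‖A i j‖ ≤ (ℓ : ℝ) ^ (-(k : ℤ))} := by
    ext A
    rw [Set.mem_ofPred_eq, cg_iff_norm]
    simp
  rw [h]
  refine isClosed_iInter fun i => isClosed_iInter fun j => ?_
  exact isClosed_le (continuous_norm.comp (continuous_id.matrix_elem i j)) continuous_const

theorem eq_zero_of_cg {A : Matrix (Fin N) (Fin N) ℤ_[ℓ]} (h : ∀ k, Cg k A) : A = 0 := by
  ext i j
  rw [Matrix.zero_apply, ← norm_le_zero_iff]
  by_contra hcon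
  push Not at hcon
  obtain ⟨k, hk⟩ := exists_pow_lt_of_lt_one hcon (y := (ℓ : ℝ)⁻¹)
    (inv_lt_one_of_one_lt₀ (by exact_mod_cast hℓ.out.one_lt))
  have h1 := cg_iff_norm.1 (h k) i j
  rw [_root_.zpow_neg, zpow_natCast, ← inv_pow] at h1
  linarith

theorem redM_sub (A B : Matrix (Fin N) (Fin N) ℤ_[ℓ]) :
    redM ℓ (A - B) = redM ℓ A - redM ℓ B := by
  unfold redM
  ext i j
  simp

theorem redM_add (A B : Matrix (Fin N) (Fin N) ℤ_[ℓ]) :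
    redM ℓ (A + B) = redM ℓ A + redM ℓ B := by
  unfold redM
  ext i j
  simp

theorem redM_eq_zero {A : Matrix (Fin N) (Fin N) ℤ_[ℓ]} : redM ℓ A = 0 ↔ Cg 1 A := by
  constructor
  · intro h
    have h1 : ∀ i j, ∃ c, A i j = (ℓ : ℤ_[ℓ]) * c := by
      intro i j
      have h2 := congrFun (congrFun h i) j
      have h3 : A i j ∈ RingHom.ker (PadicInt.toZMod : ℤ_[ℓ] →+* ZMod ℓ) := h2
      rw [PadicInt.ker_toZMod, PadicInt.maximalIdeal_eq_span_p, Ideal.mem_span_singleton] at h3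
      exact h3
    choose C hC using h1
    exact ⟨Matrix.of C, by ext i j; rw [Matrix.smul_apply, Matrix.of_apply, smul_eq_mul, hC,
      pow_one]⟩
  · rintro ⟨C, rfl⟩
    ext i j
    show (PadicInt.toZMod : ℤ_[ℓ] →+* ZMod ℓ) (((ℓ : ℤ_[ℓ]) ^ 1 • C) i j) = 0
    rw [Matrix.smul_apply, smul_eq_mul, map_mul, pow_one, map_natCast, ZMod.natCast_self, zero_mul]

theorem redM_eq_iff {A B : Matrix (Fin N) (Fin N) ℤ_[ℓ]} : redM ℓ A = redM ℓ B ↔ Cg 1 (A - B) := by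
  rw [← redM_eq_zero, redM_sub, sub_eq_zero]

theorem Cg.pow_one_sub {k : ℕ} {A : Matrix (Fin N) (Fin N) ℤ_[ℓ]} (hA : Cg k (A - 1)) (n : ℕ) :
    Cg k (A ^ n - 1) := by
  rw [← mul_geom_sum]
  exact hA.mul_right _

theorem cg_nat (A : Matrix (Fin N) (Fin N) ℤ_[ℓ]) : Cg 1 ((ℓ : Matrix (Fin N) (Fin N) ℤ_[ℓ]) * A) := by
  refine ⟨A, ?_⟩
  rw [pow_one, ← nsmul_eq_mul, Nat.cast_smul_eq_nsmul]

theorem Cg.pow_prime {k : ℕ} (hk : 1 ≤ k) {A : Matrix (Fin N) (Fin N) ℤ_[ℓ]} (hA : Cg k (A - 1)) :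
    Cg (k + 1) (A ^ ℓ - 1) := by
  rw [← mul_geom_sum]
  refine hA.mul ?_
  have h1 : ∑ i ∈ Finset.range ℓ, A ^ i = ∑ i ∈ Finset.range ℓ, (A ^ i - 1) +
      (ℓ : Matrix (Fin N) (Fin N) ℤ_[ℓ]) * 1 := by
    rw [Finset.sum_sub_distrib, Finset.sum_const, Finset.card_range, nsmul_eq_mul,
      sub_add_cancel]
  rw [h1]
  exact (Cg.sum _ _ fun i _ => (hA.mono hk).pow_one_sub i).add (cg_nat 1)

theorem Cg.pow_prime_pow {A : Matrix (Fin N) (Fin N) ℤ_[ℓ]} (hA : Cg 1 (A - 1)) (j : ℕ) :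
    Cg (j + 1) (A ^ ℓ ^ j - 1) := by
  induction j with
  | zero => rwa [pow_zero, pow_one, zero_add]
  | succ j ih =>
    rw [pow_succ, pow_mul]
    exact ih.pow_prime (by omega)

end

end Pool.Agent.R932
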