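import Mathlib

/-!
# Counting values of polynomial maps with invertible linear part over finite fields
-/

set_option autoImplicit false
set_option linter.unusedSectionVars false
set_option linter.style.haveILetI false

open MvPolynomial

namespace Pool.Agent.R932

/-- the degree bound -/
def mb (d δ : ℕ) : ℕ := ((d + 1) * δ + 1) ^ d

section
variable {F : Type} [Field F] {d : ℕ}

/-- the ideal of the origin -/
noncomputable def JJ (F : Type) [Field F] (d : ℕ) : Ideal (MvPolynomial (Fin d) F) :=
  Ideal.span (Set.range fun i => (X i : MvPolynomial (Fin d) F))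

theorem X_mem_JJ (i : Fin d) : (X i : MvPolynomial (Fin d) F) ∈ JJ F d :=
  Ideal.subset_span ⟨i, rfl⟩

theorem JJ_ne_top : JJ F d ≠ ⊤ := by
  intro h
  have h1 : (1 : MvPolynomial (Fin d) F) ∈ JJ F d := by rw [h]; trivial
  have h2 : JJ F d ≤ RingHom.ker (eval (fun _ : Fin d => (0 : F))) := by
    unfold JJ
    rw [Ideal.span_le]
    rintro _ ⟨i, rfl⟩
    show (eval fun _ => 0) (X i) = 0
    rw [eval_X]
  have h3 := h2 h1
  rw [RingHom.mem_ker, map_one] at h3
  exact one_ne_zero h3

variable {f : Fin d → MvPolynomial (Fin d) F}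

theorem aeval_sub_mem (hf : ∀ i, f i - X i ∈ JJ F d ^ 2) (x : MvPolynomial (Fin d) F) :
    aeval f x - x ∈ JJ F d := by
  have hf1 : ∀ i, f i - X i ∈ JJ F d := fun i => by
    have := Ideal.pow_le_pow_right (I := JJ F d) (show 1 ≤ 2 by norm_num) (hf i)
    rwa [pow_one] at this
  induction x using MvPolynomial.induction_on with
  | C a => rw [algHom_C, algebraMap_eq, sub_self]; exact (JJ F d).zero_mem
  | add p q hp hq =>
    have : aeval f (p + q) - (p + q) = (aeval f p - p) + (aeval f q - q) := by
      rw [map_add]; ring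
    rw [this]
    exact (JJ F d).add_mem hp hq
  | mul_X p i hp =>
    have : aeval f (p * X i) - p * X i = aeval f p * (f i - X i) + (aeval f p - p) * X i := by
      rw [map_mul, aeval_X]; ring
    rw [this]
    exact (JJ F d).add_mem ((JJ F d).mul_mem_left _ (hf1 i)) ((JJ F d).mul_mem_left _ (X_mem_JJ i))

theorem aeval_sub_mem2 (hf : ∀ i, f i - X i ∈ JJ F d ^ 2) {x : MvPolynomial (Fin d) F}
    (hx : x ∈ JJ F d) : aeval f x - x ∈ JJ F d ^ 2 := by
  unfold JJ at hx
  rw [Ideal.span] at hx
  induction hx using Submodule.span_induction with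
  | mem x hx =>
    obtain ⟨i, rfl⟩ := hx
    simp only [aeval_X]
    exact hf i
  | zero => rw [map_zero, sub_zero]; exact Ideal.zero_mem _
  | add x y _ _ hx hy =>
    have : aeval f (x + y) - (x + y) = (aeval f x - x) + (aeval f y - y) := by
      rw [map_add]; ring
    rw [this]
    exact Ideal.add_mem _ hx hy
  | smul a x hx' hx =>
    have : aeval f (a • x) - a • x = aeval f a * (aeval f x - x) + (aeval f a - a) * x := by
      rw [smul_eq_mul, map_mul]; ring
    rw [this]
    refine Ideal.add_mem _ (Ideal.mul_mem_left _ _ hx) ?_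
    rw [pow_two]
    exact Ideal.mul_mem_mul (aeval_sub_mem hf a) hx'

theorem aeval_sub_memk (hf : ∀ i, f i - X i ∈ JJ F d ^ 2) (k : ℕ) : ∀ {x : MvPolynomial (Fin d) F},
    x ∈ JJ F d ^ k → aeval f x - x ∈ JJ F d ^ (k + 1) := by
  induction k with
  | zero => intro x _; rw [zero_add, pow_one]; exact aeval_sub_mem hf x
  | succ k ih =>
    intro x hx
    rw [pow_succ'] at hx
    induction hx using Submodule.mul_induction_on' with
    | mem_mul_mem a ha b hb =>
      have : aeval f (a * b) - a * b = aeval f a * (aeval f b - b) + (aeval f a - a) * b := by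
        rw [map_mul]; ring
      rw [this]
      refine Ideal.add_mem _ ?_ ?_
      · rw [pow_succ']
        refine Ideal.mul_mem_mul ?_ (ih hb)
        have := (JJ F d).add_mem (aeval_sub_mem hf a) ha
        rwa [sub_add_cancel] at this
      · have e : k + 1 + 1 = 2 + k := by ring
        rw [e, pow_add]
        exact Ideal.mul_mem_mul (aeval_sub_mem2 hf ha) hb
    | add x _ y _ hx hy =>
      have : aeval f (x + y) - (x + y) = (aeval f x - x) + (aeval f y - y) := by
        rw [map_add]; ring
      rw [this]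
      exact Ideal.add_mem _ hx hy

theorem aeval_injective (hf : ∀ i, f i - X i ∈ JJ F d ^ 2) {x : MvPolynomial (Fin d) F}
    (hx : aeval f x = 0) : x = 0 := by
  have h1 : ∀ k, x ∈ JJ F d ^ k := by
    intro k
    induction k with
    | zero => rw [pow_zero, Ideal.one_eq_top]; trivial
    | succ k ih =>
      have := aeval_sub_memk hf k ih
      rw [hx, zero_sub] at this
      exact neg_mem_iff.1 this
  have h2 : x ∈ ⨅ i : ℕ, JJ F d ^ i := by
    rw [Submodule.mem_iInf]
    exact h1
  rw [Ideal.iInf_pow_eq_bot_of_isDomain _ JJ_ne_top] at h2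
  exact h2

/-- `d + 1` polynomials in `d` variables are dependent, with an explicit bound -/
theorem exists_relation {δ : ℕ} (g : Fin (d + 1) → MvPolynomial (Fin d) F)
    (hg : ∀ i j, (g i).degreeOf j ≤ δ) :
    ∃ P : (Fin (d + 1) → Fin (mb d δ + 1)) → F, P ≠ 0 ∧
      ∑ a, P a • ∏ i, g i ^ (a i : ℕ) = 0 := by
  have hM : mb d δ = ((d + 1) * δ + 1) ^ d := rfl
  set M := mb d δ
  set D := (d + 1) * M * δ with hD
  have hdeg : ∀ (a : Fin (d + 1) → Fin (M + 1)) (j : Fin d),
      (∏ i, g i ^ (a i : ℕ)).degreeOf j ≤ D := by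
    intro a j
    refine (degreeOf_prod_le _ _ _).trans ?_
    have h1 : ∀ i ∈ (Finset.univ : Finset (Fin (d + 1))), (g i ^ (a i : ℕ)).degreeOf j ≤ M * δ := by
      intro i _
      refine (degreeOf_pow_le _ _ _).trans ?_
      exact Nat.mul_le_mul (by have := (a i).2; omega) (hg i j)
    refine (Finset.sum_le_card_nsmul _ _ _ h1).trans ?_
    rw [Finset.card_univ, Fintype.card_fin, smul_eq_mul, hD, mul_assoc]
  let toF : (Fin d → Fin (D + 1)) → (Fin d →₀ ℕ) := fun m =>
    Finsupp.equivFunOnFinite.symm fun i => (m i : ℕ)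
  let Λ : ((Fin (d + 1) → Fin (M + 1)) → F) →ₗ[F] ((Fin d → Fin (D + 1)) → F) :=
    { toFun := fun P m => coeff (toF m) (∑ a, P a • ∏ i, g i ^ (a i : ℕ))
      map_add' := by
        intro P Q
        ext m
        simp only [Pi.add_apply, add_smul, Finset.sum_add_distrib, coeff_add]
      map_smul' := by
        intro c P
        ext m
        simp only [Pi.smul_apply, smul_eq_mul, mul_smul, ← Finset.smul_sum, coeff_smul,
          RingHom.id_apply] }
  have hlt : Module.finrank F ((Fin d → Fin (D + 1)) → F) <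
      Module.finrank F ((Fin (d + 1) → Fin (M + 1)) → F) := by
    rw [Module.finrank_pi, Module.finrank_pi, Fintype.card_fun, Fintype.card_fun,
      Fintype.card_fin, Fintype.card_fin, Fintype.card_fin, Fintype.card_fin]
    have h1 : D + 1 ≤ ((d + 1) * δ + 1) * (M + 1) := by
      rw [hD]
      nlinarith [Nat.zero_le (M + 1), Nat.zero_le ((d + 1) * δ)]
    calc (D + 1) ^ d ≤ (((d + 1) * δ + 1) * (M + 1)) ^ d := Nat.pow_le_pow_left h1 d
      _ = M * (M + 1) ^ d := by rw [mul_pow, hM]
      _ < (M + 1) * (M + 1) ^ d := Nat.mul_lt_mul_of_pos_right (by omega) (by positivity)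
      _ = (M + 1) ^ (d + 1) := by rw [pow_succ']
  have hker := LinearMap.ker_ne_bot_of_finrank_lt (f := Λ) hlt
  obtain ⟨P, hP, hP0⟩ := Submodule.exists_mem_ne_zero_of_ne_bot hker
  refine ⟨P, hP0, ?_⟩
  ext m
  rw [coeff_zero]
  by_cases hm : ∀ j, m j ≤ D
  · have h1 := congrFun (LinearMap.mem_ker.1 hP) (fun j => ⟨m j, by have := hm j; omega⟩)
    have h2 : toF (fun j => ⟨m j, by have := hm j; omega⟩) = m := by
      ext j
      rfl
    rw [← h2]
    exact h1
  · push Not at hm
    obtain ⟨j, hj⟩ := hm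
    rw [coeff_sum]
    refine Finset.sum_eq_zero fun a _ => ?_
    rw [coeff_smul]
    have h1 : coeff m (∏ i, g i ^ (a i : ℕ)) = 0 := by
      by_contra hne
      have h2 := (degreeOf_le_iff.1 (hdeg a j)) m (mem_support_iff.2 hne)
      omega
    rw [h1, smul_zero]

end

end Pool.Agent.R932
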