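import Pool.Agent.R932.CntA

/-!
# A polynomial map with invertible linear part over a finite field has many values
-/

set_option autoImplicit false
set_option linter.unusedSectionVars false
set_option linter.style.haveILetI false

open MvPolynomial

namespace Pool.Agent.R932

section
variable {F : Type} [Field F] {d : ℕ}

/-- for each coordinate a polynomial of bounded degree, with coefficients polynomials in the values,
which kills it -/
theorem exists_coord {δ : ℕ} (hδ : 1 ≤ δ) {f : Fin d → MvPolynomial (Fin d) F}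
    (hdeg : ∀ i j, (f i).degreeOf j ≤ δ) (j : Fin d) :
    ∃ (p : Fin (mb d δ + 1) → MvPolynomial (Fin d) F) (b : Fin (mb d δ + 1)), p b ≠ 0 ∧
      (∀ i, (aeval f (p b)).degreeOf i ≤ d * (mb d δ) * δ) ∧
      ∑ c : Fin (mb d δ + 1), X j ^ (c : ℕ) * aeval f (p c) = 0 := by
  have hg : ∀ i k, ((Fin.cons (X j) f : Fin (d + 1) → MvPolynomial (Fin d) F) i).degreeOf k ≤ δ := by
    intro i k
    refine Fin.cases ?_ (fun i => ?_) i
    · rw [Fin.cons_zero, degreeOf_X]
      split_ifs <;> omega
    · rw [Fin.cons_succ]
      exact hdeg i k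
  obtain ⟨P, hP0, hP⟩ := exists_relation _ hg
  obtain ⟨a, ha⟩ : ∃ a, P a ≠ 0 := by
    by_contra hcon
    push Not at hcon
    exact hP0 (funext hcon)
  let toF : (Fin d → Fin (mb d δ + 1)) → (Fin d →₀ ℕ) := fun m =>
    Finsupp.equivFunOnFinite.symm fun i => (m i : ℕ)
  have htoF : Function.Injective toF := by
    intro m m' h
    funext i
    apply Fin.ext
    exact DFunLike.congr_fun h i
  let p : Fin (mb d δ + 1) → MvPolynomial (Fin d) F := fun b =>
    ∑ a' : Fin d → Fin (mb d δ + 1), monomial (toF a') (P (Fin.cons b a'))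
  have hev : ∀ b, aeval f (p b) = ∑ a' : Fin d → Fin (mb d δ + 1),
      P (Fin.cons b a') • ∏ i, f i ^ (a' i : ℕ) := by
    intro b
    rw [map_sum]
    refine Finset.sum_congr rfl fun a' _ => ?_
    rw [aeval_monomial, Algebra.smul_def]
    congr 1
    exact Finsupp.prod_fintype _ _ fun i => by simp
  refine ⟨p, a 0, ?_, ?_, ?_⟩
  · intro h
    have h1 := congrArg (coeff (toF (Fin.tail a))) h
    rw [coeff_sum, Finset.sum_eq_single (Fin.tail a), coeff_monomial, if_pos rfl,
      Fin.cons_self_tail, coeff_zero] at h1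
    · exact ha h1
    · intro a' _ hne
      rw [coeff_monomial, if_neg]
      intro h2
      exact hne (htoF h2)
    · intro h2
      exact absurd (Finset.mem_univ _) h2
  · intro i
    rw [hev]
    refine (degreeOf_sum_le _ _ _).trans (Finset.sup_le fun a' _ => ?_)
    rw [smul_eq_C_mul]
    refine (degreeOf_C_mul_le _ _ _).trans ((degreeOf_prod_le _ _ _).trans ?_)
    have h1 : ∀ k ∈ (Finset.univ : Finset (Fin d)), (f k ^ (a' k : ℕ)).degreeOf i ≤
        mb d δ * δ := by
      intro k _
      refine (degreeOf_pow_le _ _ _).trans ?_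
      exact Nat.mul_le_mul (by have := (a' k).2; omega) (hdeg k i)
    refine (Finset.sum_le_card_nsmul _ _ _ h1).trans ?_
    rw [Finset.card_univ, Fintype.card_fin, smul_eq_mul, mul_assoc]
  · rw [← hP, ← (Fin.consEquiv (fun _ : Fin (d + 1) => Fin (mb d δ + 1))).sum_comp,
      Fintype.sum_prod_type]
    refine Finset.sum_congr rfl fun c _ => ?_
    rw [hev, Finset.mul_sum]
    refine Finset.sum_congr rfl fun a' _ => ?_
    rw [mul_smul_comm]
    simp only [Fin.consEquiv, Equiv.coe_fn_mk, Fin.prod_univ_succ, Fin.cons_zero, Fin.cons_succ]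

variable [Fintype F] [DecidableEq F]

theorem zeros_le {h : MvPolynomial (Fin d) F} (h0 : h ≠ 0) {E : ℕ}
    (hE : ∑ i, h.degreeOf i ≤ E) :
    (Finset.univ.filter fun t : Fin d → F => eval t h = 0).card * Fintype.card F ≤
      Fintype.card F ^ d * E := by
  have h1 := schwartz_zippel_sum_degreeOf h0 (fun _ => (Finset.univ : Finset F))
  rw [Fintype.piFinset_univ] at h1
  simp only [Finset.card_univ, Finset.prod_const, Fintype.card_fin] at h1
  have hq : (0 : ℚ≥0) < (Fintype.card F : ℚ≥0) := by exact_mod_cast Fintype.card_pos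
  rw [← Finset.sum_div, div_le_div_iff₀ (pow_pos hq d) hq] at h1
  have h2 : (Finset.univ.filter fun t : Fin d → F => eval t h = 0).card * Fintype.card F ≤
      (∑ i, h.degreeOf i) * Fintype.card F ^ d := by exact_mod_cast h1
  refine h2.trans ?_
  rw [mul_comm]
  exact Nat.mul_le_mul_left _ hE

/-- **many values** -/
theorem card_le_image {δ : ℕ} (hδ : 1 ≤ δ) {f : Fin d → MvPolynomial (Fin d) F}
    (hf : ∀ i, f i - X i ∈ JJ F d ^ 2) (hdeg : ∀ i j, (f i).degreeOf j ≤ δ)
    (hq : 2 * (d * (d * (d * mb d δ * δ))) ≤ Fintype.card F) :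
    Fintype.card F ^ d ≤ 2 * mb d δ ^ d *
      (Finset.univ.image fun t : Fin d → F => fun i => eval t (f i)).card := by
  classical
  choose p b hpb hdeg' hrel using exists_coord hδ hdeg
  set h : MvPolynomial (Fin d) F := ∏ j, aeval f (p j (b j)) with hh
  have h0 : h ≠ 0 := by
    rw [hh, Finset.prod_ne_zero_iff]
    intro j _ h1
    exact hpb j (aeval_injective hf h1)
  have hE : ∑ i, h.degreeOf i ≤ d * (d * (d * mb d δ * δ)) := by
    have h1 : ∀ i ∈ (Finset.univ : Finset (Fin d)), h.degreeOf i ≤ d * (d * mb d δ * δ) := by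
      intro i _
      refine (degreeOf_prod_le _ _ _).trans ?_
      refine (Finset.sum_le_card_nsmul _ _ _ fun j _ => hdeg' j i).trans ?_
      rw [Finset.card_univ, Fintype.card_fin, smul_eq_mul]
    refine (Finset.sum_le_card_nsmul _ _ _ h1).trans ?_
    rw [Finset.card_univ, Fintype.card_fin, smul_eq_mul]
  have hz := zeros_le h0 hE
  set Φ : (Fin d → F) → (Fin d → F) := fun t i => eval t (f i) with hΦ
  have hΦe : ∀ (q : MvPolynomial (Fin d) F) (t : Fin d → F), eval t (aeval f q) = eval (Φ t) q := by
    intro q t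
    have h1 : (eval t).comp (aeval f : MvPolynomial (Fin d) F →ₐ[F] _).toRingHom = eval (Φ t) := by
      apply MvPolynomial.ringHom_ext
      · intro r
        simp
      · intro i
        simp [hΦ]
    exact RingHom.congr_fun h1 q
  set good : Finset (Fin d → F) := Finset.univ.filter fun t => eval t h ≠ 0 with hgood
  -- fibres
  have hfib : ∀ y ∈ good.image Φ, (good.filter fun t => Φ t = y).card ≤ mb d δ ^ d := by
    intro y hy
    obtain ⟨t₀, ht₀, rfl⟩ := Finset.mem_image.1 hy
    have ht₀' : ∀ j, eval (Φ t₀) (p j (b j)) ≠ 0 := by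
      intro j hj
      rw [hgood, Finset.mem_filter] at ht₀
      apply ht₀.2
      rw [hh, map_prod]
      exact Finset.prod_eq_zero (Finset.mem_univ j) (by rw [hΦe, hj])
    let R : Fin d → Polynomial F := fun j =>
      ∑ c : Fin (mb d δ + 1), Polynomial.C (eval (Φ t₀) (p j c)) * Polynomial.X ^ (c : ℕ)
    have hR0 : ∀ j, R j ≠ 0 := by
      intro j hj
      have h1 := congrArg (fun q => Polynomial.coeff q (b j : ℕ)) hj
      simp only [R, Polynomial.finsetSum_coeff, Polynomial.coeff_C_mul, Polynomial.coeff_X_pow,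
        Polynomial.coeff_zero] at h1
      rw [Finset.sum_eq_single (b j)] at h1
      · rw [if_pos rfl, mul_one] at h1
        exact ht₀' j h1
      · intro c _ hc
        rw [if_neg (fun h2 => hc (Fin.ext h2.symm)), mul_zero]
      · intro h2
        exact absurd (Finset.mem_univ _) h2
    have hRd : ∀ j, (R j).natDegree ≤ mb d δ := by
      intro j
      refine Polynomial.natDegree_sum_le_of_forall_le _ _ fun c _ => ?_
      refine (Polynomial.natDegree_C_mul_X_pow_le _ _).trans ?_
      have := c.2
      omega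
    have hsub : (good.filter fun t => Φ t = Φ t₀) ⊆
        Fintype.piFinset fun j => (R j).roots.toFinset := by
      intro t ht
      rw [Finset.mem_filter] at ht
      rw [Fintype.mem_piFinset]
      intro j
      rw [Multiset.mem_toFinset, Polynomial.mem_roots (hR0 j), Polynomial.IsRoot.def]
      have h1 := congrArg (eval t) (hrel j)
      rw [map_sum, map_zero] at h1
      rw [← h1, Polynomial.eval_finsetSum]
      refine Finset.sum_congr rfl fun c _ => ?_
      rw [map_mul, map_pow, eval_X, hΦe, ht.2, Polynomial.eval_mul, Polynomial.eval_C,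
        Polynomial.eval_pow, Polynomial.eval_X, mul_comm]
    refine (Finset.card_le_card hsub).trans ?_
    rw [Fintype.card_piFinset]
    refine (Finset.prod_le_prod' (fun j _ => ?_) : _ ≤ ∏ _j : Fin d, mb d δ).trans ?_
    · exact (Multiset.toFinset_card_le _).trans ((Polynomial.card_roots' _).trans (hRd j))
    · rw [Finset.prod_const, Finset.card_univ, Fintype.card_fin]
  have hcard : good.card ≤ mb d δ ^ d * (good.image Φ).card :=
    Finset.card_le_mul_card_image (f := Φ) good _ hfib
  have himg : (good.image Φ).card ≤ (Finset.univ.image Φ).card :=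
    Finset.card_le_card (Finset.image_subset_image (Finset.subset_univ _))
  have htot : good.card + (Finset.univ.filter fun t : Fin d → F => eval t h = 0).card =
      Fintype.card F ^ d := by
    rw [hgood, add_comm, Finset.card_filter_add_card_filter_not, Finset.card_univ,
      Fintype.card_fun, Fintype.card_fin]
  set q := Fintype.card F
  have hq0 : 0 < q := Fintype.card_pos
  set z := (Finset.univ.filter fun t : Fin d → F => eval t h = 0).card
  set I := (Finset.univ.image Φ).card
  set E := d * (d * (d * mb d δ * δ))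
  have h2 : 2 * z ≤ q ^ d := by
    have h3 : 2 * z * q ≤ q ^ d * q := by
      calc 2 * z * q = 2 * (z * q) := by ring
        _ ≤ 2 * (q ^ d * E) := Nat.mul_le_mul_left _ hz
        _ = q ^ d * (2 * E) := by ring
        _ ≤ q ^ d * q := Nat.mul_le_mul_left _ hq
    exact Nat.le_of_mul_le_mul_right h3 hq0
  have h3 : good.card ≤ mb d δ ^ d * I := hcard.trans (Nat.mul_le_mul_left _ himg)
  have h4 : 2 * mb d δ ^ d * I = 2 * (mb d δ ^ d * I) := by ring
  rw [h4]
  omega

end

end Pool.Agent.R932
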