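import Pool.Agent.R932.Line
import Pool.Agent.Y142.SI.Core
import Pool.Agent.Y142.ZI.Top
import Pool.Agent.Y142.ZO.Main

/-!
# The full orthogonal Lie algebra at a set of primes of density one, odd dimension
-/

set_option autoImplicit false
set_option linter.style.haveILetI false
set_option linter.unusedSectionVars false

open Matrix Polynomial Filter Topology NumberField IsDedekindDomain
open Pool.Agent.Y142.ZO Pool.Agent.Y142.ZI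
open Pool.Agent.Y142.ZS (NiceP)
open Pool.Agent.Y142.ZD (DistPow dist_of_nice S_ABS S_BADD S_SUB)
open Pool.Agent.Y142.SS Pool.Agent.Y142.SI

namespace Pool.Agent.R932

variable {K : Type} [Field K] [NumberField K] {N : ℕ} {S : Set (HeightOneSpectrum (𝓞 K))}
  {P : HeightOneSpectrum (𝓞 K) → ℚ[X]}

theorem isClass_noSet (d : ℕ) : IsClass Set.univ (NoSet d) :=
  ⟨fun _ _ h hg => noSet_conj hg h, fun _ _ _ _ hg ht => noSet_mul hg ht,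
    fun _ _ _ h hg => noSet_trans h hg⟩

theorem density_odd (hALG : S_ALG) (hISO : S_ISO) (hLINE : S_LINE) (hTAN : S_TAN) (hLOG : S_LOG)
    (hEXP : S_EXP) (hPOW : S_POW) (hSPEC : S_SPEC) (hAPP : S_APP) (hFROB : S_FROB) (hBAD : S_BAD)
    (hVAL : S_VAL) (hDENS : S_DENS) (hINF : S_INF)
    (hLOC : S_LOC) (hLOGR : S_LOGR) (hKRS : S_KRS) (hCHARA : S_CHARA)
    (hMULTI : S_MULTI) (hINT : S_INT) (hDENS2 : S_DENS2) (hBADD : S_BADD) (hSUB : S_SUB)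
    (hN : Odd N) (hS : S.Finite) {v₀ v₁ : HeightOneSpectrum (𝓞 K)} {Q₀ Q₁ : ℚ[X]}
    (hv₀ : GoodPlace S P v₀ Q₀)
    (h0 : ∀ x y z : ℂ, aeval x Q₀ = 0 → aeval y Q₀ = 0 → aeval z Q₀ = 0 → x * y ≠ z)
    (hv₁ : GoodPlace S P v₁ Q₁)
    (hsq : ¬ IsSquare (Q₀.eval 1 * Q₀.eval (-1) * (Q₁.eval 1 * Q₁.eval (-1))))
    (ρ : ∀ (ℓ : ℕ) [Fact ℓ.Prime], GK K →* Matrix (Fin N) (Fin N) ℚ_[ℓ])
    (B : ∀ (ℓ : ℕ) [Fact ℓ.Prime], Matrix (Fin N) (Fin N) ℚ_[ℓ])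
    (hsys : ∀ (ℓ : ℕ) [Fact ℓ.Prime], Orthogonal K N ℓ (ρ ℓ) (B ℓ) S P)
    {m : ℕ} (u : Fin (m + 1) → HeightOneSpectrum (𝓞 K)) (hu : ∀ i, NiceP S P (u i))
    (hI : ∀ (g : GK ℚ) (d : ℕ), 2 ≤ d → (d = 2 ∨ d + 2 ≤ N) →
      ∃ v, NiceP S P v ∧ ∃ w ∈ NoSet d (P v), w⁻¹ * g ∈ Subgroup.closure (⋃ i, Fix (P (u i)))) :
    Y142.ZI.DensityZero {ℓ | ∃ _ : Fact ℓ.Prime, ¬ FullLie ℓ (ρ ℓ) (B ℓ)} := by
  classical
  have hN0 : 0 < N := hN.pos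
  have hsys' : ∀ (ℓ : ℕ) [Fact ℓ.Prime], Sys K N ℓ (ρ ℓ) S P := fun ℓ _ =>
    ⟨(hsys ℓ).1, fun v hv hvℓ σ hσ => (hsys ℓ).2.2.2.2 v hv hvℓ σ hσ⟩
  have hT := density_zero hALG hISO hLINE hTAN hLOG hEXP hPOW hSPEC hAPP hFROB hBAD hVAL hDENS
    hINF hN hS hv₀ h0 hv₁ hsq ρ B hsys
  -- small primes
  have hbad0 : ∀ b : ℕ, Y142.ZI.DensityZero {ℓ : ℕ | ℓ.Prime ∧ ℓ ≤ b} := by
    intro b
    refine densityPhi hLOC hLOGR hKRS hCHARA hMULTI hFROB hINT hDENS2 hN0 hS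
      ρ hsys' u hu (Gd := Set.univ) (fun _ _ => trivial) (Φ := fun _ => Set.univ)
      ⟨fun _ _ _ _ => trivial, fun _ _ _ _ _ _ => trivial, fun _ _ _ _ _ => trivial⟩
      (fun g => ⟨u 0, hu 0, g, trivial, by rw [inv_mul_cancel]; exact Subgroup.one_mem _⟩)
      _ (fun ℓ hℓ => hℓ.1) (fun v _ => ⟨b, fun ℓ hℓ h => absurd hℓ.2 (by omega)⟩)
  -- stable subspaces
  have hbad1 : ∀ d : ℕ, 2 ≤ d → d + 2 ≤ N → Y142.ZI.DensityZero {ℓ | ∃ _ : Fact ℓ.Prime,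
      ∃ (U : Subgroup (GK K)) (W : Submodule ℚ_[ℓ] (Fin N → ℚ_[ℓ])), IsOpen (U : Set (GK K)) ∧
        (∀ σ ∈ U, ∀ w ∈ W, ρ ℓ σ *ᵥ w ∈ W) ∧ Module.finrank ℚ_[ℓ] W = d} := by
    intro d hd hdN
    refine densityPhi hLOC hLOGR hKRS hCHARA hMULTI hFROB hINT hDENS2 hN0 hS
      ρ hsys' u hu (Gd := Set.univ) (fun _ _ => trivial) (isClass_noSet d)
      (fun g => hI g d hd (Or.inr hdN)) _ (fun ℓ hℓ => hℓ.1.out) ?_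
    intro v hv
    obtain ⟨b, hb⟩ := hSUB (P v) hv.2.1 hv.2.2.1
    refine ⟨max b (Ideal.absNorm v.asIdeal), ?_⟩
    rintro ℓ ⟨hp, U, W, hU, hW, hWd⟩ hℓ σ hσ hcl
    rw [max_lt_iff] at hℓ
    have hvℓ := not_mem_of_lt v hp.out hℓ.2
    obtain ⟨τ, hτ⟩ := Pool.Agent.W401.Frob.exists_frob v
    have hchar := (hsys' ℓ).2 v hv.1 hvℓ τ hτ
    obtain ⟨R, hRm, hRd, hR⟩ := hBADD ℓ N (GK K) (ρ ℓ) (hsys ℓ).1 U W hU hW τ⁻¹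
      (by rw [hchar]; exact hv.2.2.1.map) (by rw [hchar]; exact dist_of_nice hv ℓ)
    rw [hchar] at hR
    obtain ⟨T, hT, hTn, hTs⟩ := (hb ℓ hℓ.1 hp σ hσ).1 R hRm hR
    exact hcl T hT hTs (by rw [hTn, hRd, hWd])
  -- factors of degree two
  have hbad2 : Y142.ZI.DensityZero {ℓ | ∃ _ : Fact ℓ.Prime, ¬ ∃ τ : GK K,
      (ρ ℓ τ).charpoly.Separable ∧ DistPow ℓ (ρ ℓ τ).charpoly ∧
      ∀ R : ℚ_[ℓ][X], R.Monic → R ∣ (ρ ℓ τ).charpoly → R.natDegree ≠ 2} := by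
    refine densityPhi hLOC hLOGR hKRS hCHARA hMULTI hFROB hINT hDENS2 hN0 hS
      ρ hsys' u hu (Gd := Set.univ) (fun _ _ => trivial) (isClass_noSet 2)
      (fun g => hI g 2 le_rfl (Or.inl rfl)) _ (fun ℓ hℓ => hℓ.1.out) ?_
    intro v hv
    obtain ⟨b, hb⟩ := hSUB (P v) hv.2.1 hv.2.2.1
    refine ⟨max b (Ideal.absNorm v.asIdeal), ?_⟩
    rintro ℓ ⟨hp, hno⟩ hℓ σ hσ hcl
    rw [max_lt_iff] at hℓ
    have hvℓ := not_mem_of_lt v hp.out hℓ.2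
    obtain ⟨τ, hτ⟩ := Pool.Agent.W401.Frob.exists_frob v
    have hchar := (hsys' ℓ).2 v hv.1 hvℓ τ hτ
    refine hno ⟨τ⁻¹, by rw [hchar]; exact hv.2.2.1.map,
      by rw [hchar]; exact dist_of_nice hv ℓ, fun R hRm hR hRd => ?_⟩
    rw [hchar] at hR
    obtain ⟨T, hT, hTn, hTs⟩ := (hb ℓ hℓ.1 hp σ hσ).1 R hRm hR
    exact hcl T hT hTs (by rw [hTn, hRd])
  -- the union
  have hunion : ∀ k : ℕ, Y142.ZI.DensityZero (⋃ d ∈ {d : ℕ | 2 ≤ d ∧ d + 2 ≤ N ∧ d < k},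
      {ℓ | ∃ _ : Fact ℓ.Prime,
      ∃ (U : Subgroup (GK K)) (W : Submodule ℚ_[ℓ] (Fin N → ℚ_[ℓ])), IsOpen (U : Set (GK K)) ∧
        (∀ σ ∈ U, ∀ w ∈ W, ρ ℓ σ *ᵥ w ∈ W) ∧ Module.finrank ℚ_[ℓ] W = d}) := by
    intro k
    induction k with
    | zero =>
      refine Y142.ZI.DensityZero.mono (hbad0 0) ?_
      intro ℓ hℓ
      rw [Set.mem_iUnion₂] at hℓ
      obtain ⟨d, hd, -⟩ := hℓ
      exact absurd hd.2.2 (Nat.not_lt_zero _)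
    | succ k ih =>
      by_cases hk : 2 ≤ k ∧ k + 2 ≤ N
      · refine Y142.ZI.DensityZero.mono (ih.union (hbad1 k hk.1 hk.2)) ?_
        intro ℓ hℓ
        rw [Set.mem_iUnion₂] at hℓ
        obtain ⟨d, hd, hℓ⟩ := hℓ
        rcases Nat.lt_succ_iff_lt_or_eq.1 hd.2.2 with h | h
        · left
          rw [Set.mem_iUnion₂]
          exact ⟨d, ⟨hd.1, hd.2.1, h⟩, hℓ⟩
        · right
          rwa [h] at hℓ
      · refine Y142.ZI.DensityZero.mono ih ?_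
        intro ℓ hℓ
        rw [Set.mem_iUnion₂] at hℓ ⊢
        obtain ⟨d, hd, hℓ⟩ := hℓ
        refine ⟨d, ⟨hd.1, hd.2.1, ?_⟩, hℓ⟩
        rcases Nat.lt_succ_iff_lt_or_eq.1 hd.2.2 with h | h
        · exact h
        · exact absurd ⟨h ▸ hd.1, h ▸ hd.2.1⟩ hk
  refine Y142.ZI.DensityZero.mono ((((hbad0 (Ideal.absNorm v₀.asIdeal)).union hT).union hbad2).union
    (hunion N)) ?_
  rintro ℓ ⟨hp, hng⟩
  by_contra hnot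
  apply hng
  rw [Set.mem_union, Set.mem_union, Set.mem_union, not_or, not_or, not_or] at hnot
  obtain ⟨⟨⟨h0ℓ, hTℓ⟩, h2⟩, h1⟩ := hnot
  have hℓ : Ideal.absNorm v₀.asIdeal < ℓ := by
    by_contra h
    exact h0ℓ ⟨hp.out, by omega⟩
  have hTate : ¬ TateSubquotient ℓ (ρ ℓ) := fun h => hTℓ ⟨hp, h⟩
  obtain ⟨τ, hτ1, hτ2, hτ3⟩ : ∃ τ : GK K,
      (ρ ℓ τ).charpoly.Separable ∧ DistPow ℓ (ρ ℓ τ).charpoly ∧
      ∀ R : ℚ_[ℓ][X], R.Monic → R ∣ (ρ ℓ τ).charpoly → R.natDegree ≠ 2 := by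
    by_contra h
    exact h2 ⟨hp, h⟩
  refine full_lie hLINE hTAN hEXP hSPEC hv₀ h0 ℓ (not_mem_of_lt v₀ hp.out hℓ) (ρ ℓ) (B ℓ) (hsys ℓ) ?_
  refine strong_odd (hsys ℓ).1 (hsys ℓ).2.1 (hsys ℓ).2.2.1 (hsys ℓ).2.2.2.1 ?_ hτ1 hτ2 hτ3 hTate
  intro U W hU hW hd hdN
  apply h1
  rw [Set.mem_iUnion₂]
  exact ⟨Module.finrank ℚ_[ℓ] W, ⟨hd, hdN, by omega⟩, hp, U, W, hU, hW, rfl⟩

end Pool.Agent.R932
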