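import Pool.Agent.R932.IrB
import Pool.Agent.R932.Odd

/-!
# Irreducibility modulo `ℓ` at a set of primes of density one, odd dimension
-/

set_option autoImplicit false
set_option linter.unusedSectionVars false
set_option linter.style.haveILetI false

open Matrix Polynomial Filter Topology NumberField IsDedekindDomain
open Pool.Agent.Y142.ZO Pool.Agent.Y142.ZI Pool.Agent.Y379.ZI
open Pool.Agent.Y142.ZS (NiceP)
open Pool.Agent.Y142.ZD (DistPow dist_of_nice S_ABS S_BADD S_SUB)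
open Pool.Agent.Y142.SS Pool.Agent.Y142.SI

namespace Pool.Agent.R932

/-- **no proper subspace of the reduction modulo `ℓ` is stable under a subgroup of index at most
`d`** -/
def IrrMod (ℓ d : ℕ) [Fact ℓ.Prime] {N : ℕ} {G : Type} [Group G]
    (β : G →* Matrix (Fin N) (Fin N) ℤ_[ℓ]) : Prop :=
  ∀ (U : Subgroup G) (W : Submodule (ZMod ℓ) (Fin N → ZMod ℓ)), U.index ≠ 0 → U.index ≤ d →
    (∀ σ ∈ U, ∀ w ∈ W, redM ℓ (β σ) *ᵥ w ∈ W) → W = ⊥ ∨ W = ⊤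

section group
variable {ℓ : ℕ} [Fact ℓ.Prime] {N : ℕ} {G : Type} [Group G]
  {β : G →* Matrix (Fin N) (Fin N) ℤ_[ℓ]} {B : Matrix (Fin N) (Fin N) ℤ_[ℓ]}

theorem redM_one : redM ℓ (1 : Matrix (Fin N) (Fin N) ℤ_[ℓ]) = 1 := by
  unfold redM
  rw [Matrix.map_one _ (map_zero _) (map_one _)]

/-- the action of `G` on the reduction -/
@[reducible] noncomputable def modAct (β : G →* Matrix (Fin N) (Fin N) ℤ_[ℓ]) :
    MulAction G (Fin N → ZMod ℓ) where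
  smul g x := redM ℓ (β g) *ᵥ x
  one_smul x := by
    show redM ℓ (β 1) *ᵥ x = x
    rw [map_one, redM_one, one_mulVec]
  mul_smul g h x := by
    show redM ℓ (β (g * h)) *ᵥ x = redM ℓ (β g) *ᵥ (redM ℓ (β h) *ᵥ x)
    rw [map_mul, redM_mul, mulVec_mulVec]

/-- an anisotropic line which is stable under a subgroup of index at most `d` -/
theorem tateMod_of_line (h2 : (2 : ZMod ℓ) ≠ 0) (hiso : ∀ g, (β g)ᵀ * B * β g = B) {d : ℕ}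
    {U : Subgroup G} (hU0 : U.index ≠ 0) (hUd : U.index ≤ d) {w : Fin N → ZMod ℓ}
    (hw : w ≠ 0) (hwU : ∀ τ ∈ U, ∃ a : ZMod ℓ, redM ℓ (β τ) *ᵥ w = a • w)
    (hww : bil (redM ℓ B) w w ≠ 0) : TateMod ℓ (2 * d) β := by
  have hpm : ∀ τ ∈ U, redM ℓ (β τ) *ᵥ w = w ∨ redM ℓ (β τ) *ᵥ w = -w := by
    intro τ hτ
    obtain ⟨b, hb⟩ := hwU τ hτ
    have h1 := bil_isom (redM ℓ B) _ (redM_isom ℓ (hiso τ)) w w
    rw [hb, bil_smul_left, bil_smul_right] at h1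
    have h3 : b * b = 1 := by
      have h4 : (b * b) * bil (redM ℓ B) w w = 1 * bil (redM ℓ B) w w := by
        rw [one_mul, mul_assoc]; exact h1
      exact mul_right_cancel₀ hww h4
    rcases mul_self_eq_one_iff.1 h3 with h | h
    · left; rw [hb, h, one_smul]
    · right; rw [hb, h, neg_smul, one_smul]
  letI := modAct β
  let U' : Subgroup U := MulAction.stabilizer U w
  have horb : MulAction.orbit U w ⊆ {w, -w} := by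
    rintro _ ⟨τ, rfl⟩
    rcases hpm τ.1 τ.2 with h | h
    · left
      exact h
    · right
      exact h
  have hidx : U'.index = (MulAction.orbit U w).ncard := MulAction.index_stabilizer U w
  have hfin : (({w, -w} : Set (Fin N → ZMod ℓ))).Finite := Set.toFinite _
  have hle : U'.index ≤ 2 := by
    rw [hidx]
    exact (Set.ncard_le_ncard horb hfin).trans ((Set.ncard_insert_le _ _).trans
      (by rw [Set.ncard_singleton]))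
  have hpos : U'.index ≠ 0 := by
    rw [hidx]
    have hne : (MulAction.orbit U w).Nonempty := ⟨w, MulAction.mem_orbit_self w⟩
    exact (hne.ncard_pos (hfin.subset horb)).ne'
  refine ⟨U'.map U.subtype, ⊥, Submodule.span (ZMod ℓ) {w}, ?_, ?_, ?_, ?_⟩
  · rw [Subgroup.index_map_subtype]
    exact mul_ne_zero hpos hU0
  · rw [Subgroup.index_map_subtype]
    exact Nat.mul_le_mul hle hUd
  · rw [bot_lt_iff_ne_bot]
    intro h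
    exact hw ((Submodule.span_singleton_eq_bot).1 h)
  · rintro _ ⟨τ, hτ, rfl⟩ x hx
    obtain ⟨a, rfl⟩ := Submodule.mem_span_singleton.1 hx
    have h1 : redM ℓ (β (τ : G)) *ᵥ w = w := hτ
    show redM ℓ (β (τ : G)) *ᵥ (a • w) - a • w ∈ (⊥ : Submodule (ZMod ℓ) (Fin N → ZMod ℓ))
    rw [mulVec_smul, h1, sub_self]
    exact Submodule.zero_mem _

theorem orth_stable_mod (hiso : ∀ g, (β g)ᵀ * B * β g = B) {U : Subgroup G}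
    {W : Submodule (ZMod ℓ) (Fin N → ZMod ℓ)}
    (hWU : ∀ σ ∈ U, ∀ w ∈ W, redM ℓ (β σ) *ᵥ w ∈ W) :
    ∀ σ ∈ U, ∀ w ∈ orth (redM ℓ B) W, redM ℓ (β σ) *ᵥ w ∈ orth (redM ℓ B) W := by
  intro τ hτ x hx w hw
  have hinv : redM ℓ (β τ) *ᵥ (redM ℓ (β τ⁻¹) *ᵥ w) = w := by
    rw [mulVec_mulVec, ← redM_mul, ← map_mul, mul_inv_cancel, map_one, redM_one, one_mulVec]
  have h1 : bil (redM ℓ B) (redM ℓ (β τ) *ᵥ x) (redM ℓ (β τ) *ᵥ (redM ℓ (β τ⁻¹) *ᵥ w)) =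
      bil (redM ℓ B) x (redM ℓ (β τ⁻¹) *ᵥ w) := bil_isom _ _ (redM_isom ℓ (hiso τ)) _ _
  rw [hinv] at h1
  rw [h1]
  exact hx _ (hWU _ (U.inv_mem hτ) w hw)

/-- irreducibility in odd dimension -/
theorem irr_odd (h2 : (2 : ZMod ℓ) ≠ 0) (hdet : IsUnit B.det)
    (hiso : ∀ g, (β g)ᵀ * B * β g = B) {d : ℕ}
    (hsub : ∀ (U : Subgroup G) (W : Submodule (ZMod ℓ) (Fin N → ZMod ℓ)), U.index ≠ 0 →
      U.index ≤ d → (∀ σ ∈ U, ∀ w ∈ W, redM ℓ (β σ) *ᵥ w ∈ W) → 2 ≤ Module.finrank (ZMod ℓ) W →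
      Module.finrank (ZMod ℓ) W + 2 ≤ N → False)
    (hline : ∀ (U : Subgroup G) (w : Fin N → ZMod ℓ), U.index ≠ 0 →
      U.index ≤ d → w ≠ 0 → (∀ τ ∈ U, ∃ a : ZMod ℓ, redM ℓ (β τ) *ᵥ w = a • w) →
      bil (redM ℓ B) w w ≠ 0)
    (hT : ¬ TateMod ℓ (2 * d) β) : IrrMod ℓ d β := by
  intro U W hU0 hUd hW
  by_contra hcon
  push Not at hcon
  obtain ⟨h0, h1⟩ := hcon
  have hdet' : (redM ℓ B).det ≠ 0 := by
    rw [redM_det]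
    exact (hdet.map (PadicInt.toZMod : ℤ_[ℓ] →+* ZMod ℓ)).ne_zero
  -- a stable line
  have hline : ∀ W : Submodule (ZMod ℓ) (Fin N → ZMod ℓ),
      (∀ σ ∈ U, ∀ w ∈ W, redM ℓ (β σ) *ᵥ w ∈ W) → Module.finrank (ZMod ℓ) W = 1 → False := by
    intro W hW hd
    obtain ⟨w, hw0, hw⟩ := finrank_eq_one_iff'.1 hd
    have hw0' : w.1 ≠ 0 := fun h => hw0 (Subtype.ext h)
    have hws : ∀ τ ∈ U, ∃ a : ZMod ℓ, redM ℓ (β τ) *ᵥ w.1 = a • w.1 := by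
      intro τ hτ
      obtain ⟨a, ha⟩ := hw ⟨redM ℓ (β τ) *ᵥ w.1, hW τ hτ _ w.2⟩
      exact ⟨a, (congrArg Subtype.val ha).symm⟩
    exact hT (tateMod_of_line h2 hiso hU0 hUd hw0' hws (hline U w.1 hU0 hUd hw0' hws))
  have hd0 : Module.finrank (ZMod ℓ) W ≠ 0 := fun h => h0 (Submodule.finrank_eq_zero.1 h)
  have hdle : Module.finrank (ZMod ℓ) W ≤ N := by
    have := Submodule.finrank_le W
    rwa [Module.finrank_fin_fun] at this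
  have hdN : Module.finrank (ZMod ℓ) W ≠ N := fun h => h1 (Submodule.eq_top_of_finrank_eq (by
    rw [h, Module.finrank_fin_fun]))
  have hd1 : Module.finrank (ZMod ℓ) W ≠ 1 := fun h => hline W hW h
  have hd2 : ¬ (2 ≤ Module.finrank (ZMod ℓ) W ∧ Module.finrank (ZMod ℓ) W + 2 ≤ N) :=
    fun h => hsub U W hU0 hUd hW h.1 h.2
  refine hline (orth (redM ℓ B) W) (orth_stable_mod hiso hW) ?_
  have := orth_finrank' hdet' W
  omega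

end group

section
variable {K : Type} [Field K] [NumberField K] {N : ℕ} {G : Type} [Group G] {s : GK K →* G}
  {S : Set (HeightOneSpectrum (𝓞 K))} {P : HeightOneSpectrum (𝓞 K) → ℚ[X]}

/-- what a regular place says about stable subspaces modulo `ℓ` -/
theorem place_mod {v : HeightOneSpectrum (𝓞 K)} (hv : NiceP S P v) (d : ℕ) :
    ∃ b : ℕ, ∀ ℓ : ℕ, b < ℓ → ∀ _ : Fact ℓ.Prime,
    ∀ (β : G →* Matrix (Fin N) (Fin N) ℤ_[ℓ]) (B : Matrix (Fin N) (Fin N) ℤ_[ℓ]),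
      IntegralSys K N ℓ s β B S P → ∃ τ : G,
      (∀ (U : Subgroup G) (W : Submodule (ZMod ℓ) (Fin N → ZMod ℓ)), U.index ≠ 0 → U.index ≤ d →
        (∀ σ ∈ U, ∀ w ∈ W, redM ℓ (β σ) *ᵥ w ∈ W) → ∀ w ∈ W, redM ℓ (β τ) *ᵥ w ∈ W) ∧
      (redM ℓ (β τ)).charpoly.Separable ∧
      ∀ σ : GK ℚ, FrobAt ℓ σ → ∀ R : (ZMod ℓ)[X], R.Monic → R ∣ (redM ℓ (β τ)).charpoly →
        ∃ T : Set QQ, (∀ x ∈ T, aeval x (P v) = 0) ∧ T.ncard = R.natDegree ∧ ∀ x ∈ T, σ x ∈ T := by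
  obtain ⟨hvS, hm, hs, hd⟩ := hv
  obtain ⟨b₁, hb₁⟩ := stable_mod hm hs hd d.factorial (Nat.factorial_pos d)
  obtain ⟨b₂, hb₂⟩ := sub_mod (P v) hm hs
  obtain ⟨b₃, hb₃⟩ := sep_mod hs
  refine ⟨max (max b₁ b₂) (max b₃ (Ideal.absNorm v.asIdeal)), fun ℓ hℓ hp β B hsys => ?_⟩
  simp only [max_lt_iff] at hℓ
  obtain ⟨τ, hτ⟩ := Pool.Agent.W401.Frob.exists_frob v
  obtain ⟨-, -, -, -, h5⟩ := hsys
  have e : (genM ℓ (β (s τ⁻¹))).charpoly = (P v).map (algebraMap ℚ ℚ_[ℓ]) := by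
    rw [genM, ← h5 v hvS (not_mem_of_lt v hp.out hℓ.2.2) τ hτ, ← Matrix.charpoly_map]
  have e2 : (redM ℓ (β (s τ⁻¹))).charpoly =
      (β (s τ⁻¹)).charpoly.map (PadicInt.toZMod : ℤ_[ℓ] →+* ZMod ℓ) := by
    rw [redM, ← Matrix.charpoly_map]
  refine ⟨s τ⁻¹, ?_, hb₃ ℓ hℓ.2.1 hp N _ e, ?_⟩
  · intro U W hU0 hUd hW
    refine hb₁ ℓ hℓ.1.1 hp N _ e W fun w hw => ?_
    obtain ⟨n, hn, hnd, hnU⟩ := Subgroup.exists_pow_mem_of_index_ne_zero hU0 (s τ⁻¹)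
    obtain ⟨k, hk⟩ := Nat.dvd_factorial hn (hnd.trans hUd)
    have h1 : (s τ⁻¹) ^ d.factorial ∈ U := by
      rw [hk, pow_mul]
      exact U.pow_mem hnU k
    have h2 := hW _ h1 w hw
    rwa [map_pow, redM_pow] at h2
  · intro σ hσ R hR hRd
    refine hb₂ ℓ hℓ.1.2 hp σ hσ (β (s τ⁻¹)).charpoly ?_ R hR (by rw [← e2]; exact hRd)
    rw [← e, genM, ← Matrix.charpoly_map]

/-- **irreducibility modulo `ℓ` at 100 percent of the primes** -/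
theorem irr_mod_density (hALG : S_ALG) (hISO : S_ISO) (hLINE : S_LINE) (hTAN : S_TAN) (hLOG : S_LOG)
    (hEXP : S_EXP) (hPOW : S_POW) (hSPEC : S_SPEC) (hAPP : S_APP) (hFROB : S_FROB) (hBAD : S_BAD)
    (hVAL : S_VAL) (hDENS : S_DENS) (hINF : S_INF)
    (hLOC : S_LOC) (hLOGR : S_LOGR) (hKRS : S_KRS) (hCHARA : S_CHARA)
    (hMULTI : S_MULTI) (hINT : S_INT) (hDENS2 : S_DENS2)
    (hN : Odd N) (hS : S.Finite) {v₀ v₁ : HeightOneSpectrum (𝓞 K)} {Q₀ Q₁ : ℚ[X]}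
    (hv₀ : GoodPlace S P v₀ Q₀)
    (h0 : ∀ x y z : ℂ, aeval x Q₀ = 0 → aeval y Q₀ = 0 → aeval z Q₀ = 0 → x * y ≠ z)
    (hv₁ : GoodPlace S P v₁ Q₁)
    (hsq : ¬ IsSquare (Q₀.eval 1 * Q₀.eval (-1) * (Q₁.eval 1 * Q₁.eval (-1))))
    (β : ∀ (ℓ : ℕ) [Fact ℓ.Prime], G →* Matrix (Fin N) (Fin N) ℤ_[ℓ])
    (B : ∀ (ℓ : ℕ) [Fact ℓ.Prime], Matrix (Fin N) (Fin N) ℤ_[ℓ])
    (hsys : ∀ (ℓ : ℕ) [Fact ℓ.Prime], IntegralSys K N ℓ s (β ℓ) (B ℓ) S P)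
    (hun : ∃ b : ℕ, ∀ (ℓ : ℕ) [Fact ℓ.Prime], b < ℓ → IsUnit (B ℓ).det)
    {m : ℕ} (u : Fin (m + 1) → HeightOneSpectrum (𝓞 K)) (hu : ∀ i, NiceP S P (u i))
    (hI : ∀ (g : GK ℚ) (d : ℕ), 2 ≤ d → (d = 2 ∨ d + 2 ≤ N) →
      ∃ v, NiceP S P v ∧ ∃ w ∈ NoSet d (P v), w⁻¹ * g ∈ Subgroup.closure (⋃ i, Fix (P (u i))))
    (d₀ : ℕ) :
    Y142.ZI.DensityZero {ℓ | ∃ _ : Fact ℓ.Prime, ¬ IrrMod ℓ d₀ (β ℓ)} := by
  classical
  have hN0 : 0 < N := hN.pos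
  have hsys' : ∀ (ℓ : ℕ) [Fact ℓ.Prime], Sys K N ℓ (genRep ℓ ((β ℓ).comp s)) S P := fun ℓ _ =>
    ⟨(orthogonal_of (hsys ℓ)).1, fun v hv hvℓ σ hσ =>
      (orthogonal_of (hsys ℓ)).2.2.2.2 v hv hvℓ σ hσ⟩
  have hT := mod_density hALG hISO hLINE hTAN hLOG hEXP hPOW hSPEC hAPP hFROB hBAD hVAL hDENS
    hINF hN hS hv₀ h0 hv₁ hsq β B hsys hun (2 * d₀)
  -- small primes
  have hbad0 : ∀ b : ℕ, Y142.ZI.DensityZero {ℓ : ℕ | ℓ.Prime ∧ ℓ ≤ b} := by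
    intro b
    refine densityPhi hLOC hLOGR hKRS hCHARA hMULTI hFROB hINT hDENS2 hN0 hS
      (fun ℓ _ => genRep ℓ ((β ℓ).comp s)) hsys' u hu (Gd := Set.univ) (fun _ _ => trivial)
      (Φ := fun _ => Set.univ)
      ⟨fun _ _ _ _ => trivial, fun _ _ _ _ _ _ => trivial, fun _ _ _ _ _ => trivial⟩
      (fun g => ⟨u 0, hu 0, g, trivial, by rw [inv_mul_cancel]; exact Subgroup.one_mem _⟩)
      _ (fun ℓ hℓ => hℓ.1) (fun v _ => ⟨b, fun ℓ hℓ h => absurd hℓ.2 (by omega)⟩)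
  -- stable subspaces
  have hbad1 : ∀ d : ℕ, 2 ≤ d → d + 2 ≤ N → Y142.ZI.DensityZero {ℓ | ∃ _ : Fact ℓ.Prime,
      ∃ (U : Subgroup G) (W : Submodule (ZMod ℓ) (Fin N → ZMod ℓ)), U.index ≠ 0 ∧ U.index ≤ d₀ ∧
        (∀ σ ∈ U, ∀ w ∈ W, redM ℓ (β ℓ σ) *ᵥ w ∈ W) ∧ Module.finrank (ZMod ℓ) W = d} := by
    intro d hd hdN
    refine densityPhi hLOC hLOGR hKRS hCHARA hMULTI hFROB hINT hDENS2 hN0 hS
      (fun ℓ _ => genRep ℓ ((β ℓ).comp s)) hsys' u hu (Gd := Set.univ) (fun _ _ => trivial)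
      (isClass_noSet d) (fun g => hI g d hd (Or.inr hdN)) _ (fun ℓ hℓ => hℓ.1.out) ?_
    intro v hv
    obtain ⟨b, hb⟩ := place_mod (N := N) (s := s) hv d₀
    refine ⟨b, ?_⟩
    rintro ℓ ⟨hp, U, W, hU0, hUd, hW, hWd⟩ hℓ σ hσ hcl
    obtain ⟨τ, h1, -, h3⟩ := hb ℓ hℓ hp (β ℓ) (B ℓ) (hsys ℓ)
    obtain ⟨R, hRm, hRd, hR⟩ := factor_of_stableM _ W (h1 U W hU0 hUd hW)
    obtain ⟨T, hT, hTn, hTs⟩ := h3 σ hσ R hRm hR
    exact hcl T hT hTs (by rw [hTn, hRd, hWd])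
  -- isotropic lines
  have hbad2 : Y142.ZI.DensityZero {ℓ | ∃ _ : Fact ℓ.Prime, (B ℓ).det ≠ 0 ∧ IsUnit (B ℓ).det ∧
      ∃ (U : Subgroup G) (w : Fin N → ZMod ℓ), U.index ≠ 0 ∧ U.index ≤ d₀ ∧ w ≠ 0 ∧
        (∀ τ ∈ U, ∃ a : ZMod ℓ, redM ℓ (β ℓ τ) *ᵥ w = a • w) ∧ bil (redM ℓ (B ℓ)) w w = 0} := by
    refine densityPhi hLOC hLOGR hKRS hCHARA hMULTI hFROB hINT hDENS2 hN0 hS
      (fun ℓ _ => genRep ℓ ((β ℓ).comp s)) hsys' u hu (Gd := Set.univ) (fun _ _ => trivial)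
      (isClass_noSet 2) (fun g => hI g 2 le_rfl (Or.inl rfl)) _ (fun ℓ hℓ => hℓ.1.out) ?_
    intro v hv
    obtain ⟨b, hb⟩ := place_mod (N := N) (s := s) hv d₀
    refine ⟨b, ?_⟩
    rintro ℓ ⟨hp, -, hu, U, w, hU0, hUd, hw0, hw, hiso⟩ hℓ σ hσ hcl
    obtain ⟨τ, h1, h2, h3⟩ := hb ℓ hℓ hp (β ℓ) (B ℓ) (hsys ℓ)
    have h4 := h1 U (Submodule.span (ZMod ℓ) {w}) hU0 hUd (by
      intro σ hσ x hx
      obtain ⟨a, rfl⟩ := Submodule.mem_span_singleton.1 hx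
      obtain ⟨c, hc⟩ := hw σ hσ
      rw [mulVec_smul, hc]
      exact Submodule.smul_mem _ _ (Submodule.smul_mem _ _ (Submodule.mem_span_singleton_self w)))
      w (Submodule.mem_span_singleton_self w)
    obtain ⟨a, ha⟩ := Submodule.mem_span_singleton.1 h4
    have hdet' : (redM ℓ (B ℓ)).det ≠ 0 := by
      rw [redM_det]
      exact (hu.map (PadicInt.toZMod : ℤ_[ℓ] →+* ZMod ℓ)).ne_zero
    obtain ⟨R, hR1, hR2, hR3⟩ := factor_two' hdet' (redM_isom ℓ ((hsys ℓ).2.2.2.1 τ)) h2 hw0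
      ha.symm hiso
    obtain ⟨T, hT, hTn, hTs⟩ := h3 σ hσ R hR1 hR3
    exact hcl T hT hTs (by rw [hTn, hR2])
  -- the union
  have hunion : ∀ k : ℕ, Y142.ZI.DensityZero (⋃ d ∈ {d : ℕ | 2 ≤ d ∧ d + 2 ≤ N ∧ d < k},
      {ℓ | ∃ _ : Fact ℓ.Prime,
      ∃ (U : Subgroup G) (W : Submodule (ZMod ℓ) (Fin N → ZMod ℓ)), U.index ≠ 0 ∧ U.index ≤ d₀ ∧
        (∀ σ ∈ U, ∀ w ∈ W, redM ℓ (β ℓ σ) *ᵥ w ∈ W) ∧ Module.finrank (ZMod ℓ) W = d}) := by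
    intro k
    induction k with
    | zero =>
      refine Y142.ZI.DensityZero.mono (hbad0 0) ?_
      intro ℓ hℓ
      rw [Set.mem_iUnion₂] at hℓ
      obtain ⟨d, hd, -⟩ := hℓ
      exact absurd hd.2.2 (Nat.not_lt_zero _)
    | succ k ih =>
      by_cases hk : 2 ≤ k ∧ k + 2 ≤ N
      · refine Y142.ZI.DensityZero.mono (ih.union (hbad1 k hk.1 hk.2)) ?_
        intro ℓ hℓ
        rw [Set.mem_iUnion₂] at hℓ
        obtain ⟨d, hd, hℓ⟩ := hℓ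
        rcases Nat.lt_succ_iff_lt_or_eq.1 hd.2.2 with h | h
        · left
          rw [Set.mem_iUnion₂]
          exact ⟨d, ⟨hd.1, hd.2.1, h⟩, hℓ⟩
        · right
          rwa [h] at hℓ
      · refine Y142.ZI.DensityZero.mono ih ?_
        intro ℓ hℓ
        rw [Set.mem_iUnion₂] at hℓ ⊢
        obtain ⟨d, hd, hℓ⟩ := hℓ
        refine ⟨d, ⟨hd.1, hd.2.1, ?_⟩, hℓ⟩
        rcases Nat.lt_succ_iff_lt_or_eq.1 hd.2.2 with h | h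
        · exact h
        · exact absurd ⟨h ▸ hd.1, h ▸ hd.2.1⟩ hk
  obtain ⟨b₀, hb₀⟩ := hun
  refine Y142.ZI.DensityZero.mono ((((hbad0 (max b₀ 2)).union hT).union hbad2).union
    (hunion N)) ?_
  rintro ℓ ⟨hp, hng⟩
  by_contra hnot
  apply hng
  rw [Set.mem_union, Set.mem_union, Set.mem_union, not_or, not_or, not_or] at hnot
  obtain ⟨⟨⟨h0ℓ, hTℓ⟩, h2⟩, h1⟩ := hnot
  have hℓ : max b₀ 2 < ℓ := by
    by_contra h
    exact h0ℓ ⟨hp.out, by omega⟩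
  rw [max_lt_iff] at hℓ
  have h2ne : (2 : ZMod ℓ) ≠ 0 := by
    have := cast_ne_zero (k := 2) (by norm_num) (ℓ := ℓ) (by simpa using hℓ.2)
    simpa using this
  refine irr_odd h2ne (hb₀ ℓ hℓ.1) (hsys ℓ).2.2.2.1 ?_ ?_ (fun h => hTℓ ⟨hp, h⟩)
  · intro U W hU0 hUd hW hd hdN
    apply h1
    rw [Set.mem_iUnion₂]
    exact ⟨Module.finrank (ZMod ℓ) W, ⟨hd, hdN, by omega⟩, hp, U, W, hU0, hUd, hW, rfl⟩
  · intro U w hU0 hUd hw0 hw hiso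
    exact h2 ⟨hp, (hsys ℓ).2.2.1, hb₀ ℓ hℓ.1, U, w, hU0, hUd, hw0, hw, hiso⟩

end

end Pool.Agent.R932
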