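import Pool.Agent.R932.JoA
import Pool.Agent.R932.IrC

/-!
# Elements of order `ℓ` in the image modulo `ℓ`
-/

set_option autoImplicit false
set_option linter.unusedSectionVars false
set_option linter.style.haveILetI false

open Matrix Polynomial
open Pool.Agent.Y142.ZO Pool.Agent.Y337.ZO

namespace Pool.Agent.R932

section
variable {ℓ : ℕ} [hℓ : Fact ℓ.Prime] {N : ℕ} {G : Type} [Group G]

/-- **elements of order `ℓ`** -/
theorem exists_unip (hN : 2 ≤ N) (β : G →* Matrix (Fin N) (Fin N) ℤ_[ℓ])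
    (hirr : IrrMod ℓ (jbound N) β) {τ : G} {Q : (ZMod ℓ)[X]}
    (hQ : (redM ℓ (β τ)).charpoly = (X - 1) * Q)
    (hcop : IsCoprime Q (X ^ (jbound N).factorial - 1)) :
    ∃ g : G, redM ℓ (β g) ^ ℓ = 1 ∧ redM ℓ (β g) ≠ 1 := by
  by_contra hcon
  push Not at hcon
  have hnd : ¬ ℓ ∣ (KK β 1).index := by
    intro hd
    obtain ⟨x, hx⟩ := exists_prime_orderOf_dvd_card' ℓ (G := G ⧸ KK β 1) hd
    obtain ⟨g, rfl⟩ := QuotientGroup.mk_surjective x
    have h1 : g ^ ℓ ∈ KK β 1 := by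
      have h0 := pow_orderOf_eq_one (QuotientGroup.mk g : G ⧸ KK β 1)
      rw [hx] at h0
      rw [← QuotientGroup.eq_one_iff, QuotientGroup.mk_pow, h0]
    have h2 : g ∉ KK β 1 := by
      intro h
      rw [(QuotientGroup.eq_one_iff g).2 h, orderOf_one] at hx
      exact hℓ.out.one_lt.ne hx
    rw [mem_KK, ← redM_eq_zero, redM_sub, redM_one, sub_eq_zero, map_pow, redM_pow] at h1
    apply h2
    rw [mem_KK, ← redM_eq_zero, redM_sub, redM_one, sub_eq_zero]
    exact hcon g h1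
  obtain ⟨U, hU0, hUJ, hU⟩ := jordan_mod β hnd
  set m := (jbound N).factorial with hm
  have hQ1 : Q.eval 1 ≠ 0 := by
    obtain ⟨a, b, hab⟩ := hcop
    have h3 := congrArg (Polynomial.eval 1) hab
    simp only [one_pow, eval_pow, eval_add, eval_mul, eval_sub, eval_X, eval_one, sub_self,
      mul_zero, add_zero] at h3
    exact right_ne_zero_of_mul (h3 ▸ one_ne_zero)
  obtain ⟨e, he0, he, hline⟩ := kerLine_of (redM ℓ (β τ) - 1) (Q.comp (X + 1))
    (charpoly_sub_one _ Q hQ) (by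
      rw [eval_comp, eval_add, eval_X, eval_one, zero_add]
      exact hQ1)
  have hτU : τ ^ m ∈ U := by
    obtain ⟨n, hn, hnd, hnU⟩ := Subgroup.exists_pow_mem_of_index_ne_zero hU0 τ
    obtain ⟨k, hk⟩ := Nat.dvd_factorial hn (hnd.trans hUJ)
    rw [hm, hk, pow_mul]
    exact U.pow_mem hnU k
  have hfix : redM ℓ (β τ) *ᵥ e = e := by
    rw [sub_mulVec, one_mulVec, sub_eq_zero] at he
    exact he
  have hst : ∀ b ∈ U, ∃ c : ZMod ℓ, redM ℓ (β b) *ᵥ e = c • e := by
    intro b hb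
    apply hline
    refine Pool.Agent.Y458.ZO.pow_ker (redM ℓ (β τ)) Q hQ m hcop _ ?_
    rw [sub_mulVec, one_mulVec, ← redM_pow, ← map_pow, mulVec_mulVec, hU _ hτU b hb,
      ← mulVec_mulVec, map_pow, redM_pow, Pool.Agent.Y458.ZO.pow_fix _ _ hfix, sub_self]
  rcases hirr U (Submodule.span (ZMod ℓ) {e}) hU0 hUJ (by
    intro b hb x hx
    obtain ⟨a, rfl⟩ := Submodule.mem_span_singleton.1 hx
    obtain ⟨c, hc⟩ := hst b hb
    rw [mulVec_smul, hc]
    exact Submodule.smul_mem _ _ (Submodule.smul_mem _ _ (Submodule.mem_span_singleton_self e)))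
    with h | h
  · exact he0 (Submodule.span_singleton_eq_bot.1 h)
  · have h1 := finrank_span_singleton (K := ZMod ℓ) he0
    rw [h, finrank_top, Module.finrank_fin_fun] at h1
    omega

end

end Pool.Agent.R932
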