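import Pool.Agent.R932.IrA
import Pool.Agent.Y96.ZO.Spec

/-!
# The spectral condition modulo `ℓ` and the splitting of the component `v ∧ Z v`
-/

set_option autoImplicit false
set_option linter.unusedSectionVars false
set_option linter.style.haveILetI false

open Matrix Polynomial
open Pool.Agent.Y142.ZO Pool.Agent.Y96.ZO

namespace Pool.Agent.R932

theorem clear2 (p : ℚ[X][X]) : ∃ c : ℤ, c ≠ 0 ∧ ∃ q : ℤ[X][X],
    q.map (mapRingHom (Int.castRingHom ℚ)) = C (C (c : ℚ)) * p := by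
  induction p using Polynomial.induction_on' with
  | add p p' hp hp' =>
    obtain ⟨c, hc, q, hq⟩ := hp
    obtain ⟨c', hc', q', hq'⟩ := hp'
    refine ⟨c * c', mul_ne_zero hc hc', C (C c') * q + C (C c) * q', ?_⟩
    have h1 : ∀ z : ℤ, (C (C z : ℤ[X]) : ℤ[X][X]).map (mapRingHom (Int.castRingHom ℚ)) =
        C (C (z : ℚ)) := by
      intro z
      rw [Polynomial.map_C, coe_mapRingHom, Polynomial.map_C]
      rfl
    rw [Polynomial.map_add, Polynomial.map_mul, Polynomial.map_mul, hq, hq', h1, h1, Int.cast_mul,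
      C_mul, C_mul]
    ring
  | monomial n a =>
    obtain ⟨c, hc, q, hq⟩ := Pool.Agent.Y971.ZI.clear a
    refine ⟨c, hc, monomial n q, ?_⟩
    rw [Polynomial.map_monomial, coe_mapRingHom, hq, C_mul_monomial]

theorem spec_mod {Q : ℚ[X]} (hQ0 : Q ≠ 0)
    (h0 : ∀ x y z : ℂ, aeval x Q = 0 → aeval y Q = 0 → aeval z Q = 0 → x * y ≠ z)
    {q : ℤ[X]} {c : ℤ} (hc : c ≠ 0) (hq : q.map (Int.castRingHom ℚ) = C (c : ℚ) * Q) :
    ∃ b : ℕ, ∀ ℓ : ℕ, b < ℓ → ∀ _ : Fact ℓ.Prime, ∀ x y z : AlgebraicClosure (ZMod ℓ),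
      aeval x (q.map (Int.castRingHom (ZMod ℓ))) = 0 →
      aeval y (q.map (Int.castRingHom (ZMod ℓ))) = 0 →
      aeval z (q.map (Int.castRingHom (ZMod ℓ))) = 0 → x * y ≠ z := by
  have hal : Algebra.IsAlgebraic ℚ (AlgebraicClosure ℚ) := by
    have h1 : (DivisionRing.toRatAlgebra : Algebra ℚ (AlgebraicClosure ℚ)) =
      AlgebraicClosure.instAlgebra ℚ := Subsingleton.elim _ _
    rw [h1]
    exact AlgebraicClosure.isAlgebraic ℚ
  have hspec : ∀ x y z : AlgebraicClosure ℚ, aeval x Q = 0 → aeval y Q = 0 → aeval z Q = 0 →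
      x * y ≠ z := by
    intro x y z hx hy hz
    have conv : ∀ w : AlgebraicClosure ℚ, aeval w Q = 0 →
        eval₂ (Rat.castHom (AlgebraicClosure ℚ)) w Q = 0 := by
      intro w hw
      rw [aeval_def] at hw
      rw [← hw]
      congr 1
    exact transfer hQ0 h0 _ x y z (conv x hx) (conv y hy) (conv z hz)
  set I : Ideal ℚ[X][X] := Ideal.span {aeval (C X : ℚ[X][X]) Q, aeval (X : ℚ[X][X]) Q,
    aeval (C X * X : ℚ[X][X]) Q} with hI
  have htop : I = ⊤ := by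
    refine ideal_top Q hQ0 hspec I (C X) X ?_ ?_ ?_
    · exact Ideal.subset_span (by simp)
    · exact Ideal.subset_span (by simp)
    · exact Ideal.subset_span (by simp)
  have h1 : (1 : ℚ[X][X]) ∈ I := by rw [htop]; trivial
  rw [hI, Ideal.mem_span_insert] at h1
  obtain ⟨A, z1, hz1, h1⟩ := h1
  rw [Ideal.mem_span_insert] at hz1
  obtain ⟨B, z2, hz2, rfl⟩ := hz1
  rw [Ideal.mem_span_singleton'] at hz2
  obtain ⟨D, rfl⟩ := hz2
  obtain ⟨kA, hkA, A', hA'⟩ := clear2 A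
  obtain ⟨kB, hkB, B', hB'⟩ := clear2 B
  obtain ⟨kD, hkD, D', hD'⟩ := clear2 D
  set φ : ℤ[X][X] →+* ℚ[X][X] := mapRingHom (mapRingHom (Int.castRingHom ℚ)) with hφ
  have hφinj : Function.Injective φ := by
    rw [hφ]
    refine Polynomial.map_injective _ ?_
    exact Polynomial.map_injective _ Int.cast_injective
  have hC : ∀ z : ℤ, φ (C (C z)) = C (C (z : ℚ)) := by
    intro z
    rw [hφ, coe_mapRingHom, Polynomial.map_C, coe_mapRingHom, Polynomial.map_C]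
    rfl
  have hev : ∀ (t : ℤ[X][X]), φ (aeval t q) = C (C (c : ℚ)) * aeval (φ t) Q := by
    intro t
    have e1 : φ (aeval t q) = aeval (φ t) (q.map (Int.castRingHom ℚ)) := by
      rw [aeval_def, hom_eval₂, aeval_def, eval₂_map]
      congr 1
      exact RingHom.ext_int _ _
    rw [e1, hq, map_mul, aeval_C]
    rfl
  have hX1 : φ (C X) = C X := by
    rw [hφ, coe_mapRingHom, Polynomial.map_C, coe_mapRingHom, Polynomial.map_X]
  have hX2 : φ X = X := by rw [hφ, coe_mapRingHom, Polynomial.map_X]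
  obtain ⟨m1, hm1⟩ : ∃ m : ℤ, m = kB * kD := ⟨_, rfl⟩
  obtain ⟨m2, hm2⟩ : ∃ m : ℤ, m = kA * kD := ⟨_, rfl⟩
  obtain ⟨m3, hm3⟩ : ∃ m : ℤ, m = kA * kB := ⟨_, rfl⟩
  obtain ⟨m4, hm4⟩ : ∃ m : ℤ, m = c * kA * kB * kD := ⟨_, rfl⟩
  have hZ : C (C m1) * A' * aeval (C X) q + C (C m2) * B' * aeval X q +
      C (C m3) * D' * aeval (C X * X) q = C (C m4) := by
    apply hφinj
    have e0 : φ (C X * X) = C X * X := by rw [map_mul, hX1, hX2]
    rw [map_add, map_add, map_mul φ _ (aeval (C X) q), map_mul φ _ (aeval X q),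
      map_mul φ _ (aeval (C X * X) q), hev, hev, hev, e0, hX1, hX2, map_mul φ (C (C m1)),
      map_mul φ (C (C m2)), map_mul φ (C (C m3)), hC, hC, hC, hC, hm1, hm2, hm3, hm4]
    have e1 : φ A' = C (C (kA : ℚ)) * A := hA'
    have e2 : φ B' = C (C (kB : ℚ)) * B := hB'
    have e3 : φ D' = C (C (kD : ℚ)) * D := hD'
    rw [e1, e2, e3]
    simp only [Int.cast_mul, C_mul]
    linear_combination (-(C (C (c : ℚ)) * C (C (kA : ℚ)) * C (C (kB : ℚ)) * C (C (kD : ℚ)))) * h1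
  have hk : m4 ≠ 0 := by
    rw [hm4]
    exact mul_ne_zero (mul_ne_zero (mul_ne_zero hc hkA) hkB) hkD
  refine ⟨m4.natAbs, fun ℓ hℓ hp x y z hx hy hz hxy => ?_⟩
  have hk0 := cast_ne_zero hk hℓ
  let ψ : ℤ[X][X] →+* AlgebraicClosure (ZMod ℓ) :=
    eval₂RingHom (eval₂RingHom (Int.castRingHom (AlgebraicClosure (ZMod ℓ))) x) y
  have hψ : ∀ t : ℤ[X][X], ψ (aeval t q) = aeval (ψ t) (q.map (Int.castRingHom (ZMod ℓ))) := by
    intro t
    rw [aeval_def, hom_eval₂, aeval_def, eval₂_map]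
    congr 1
    exact RingHom.ext_int _ _
  have e1 : ψ (C X) = x := by simp [ψ]
  have e2 : ψ X = y := by simp [ψ]
  have e3 : ψ (C X * X) = z := by rw [map_mul, e1, e2, hxy]
  have h2 := congrArg ψ hZ
  rw [map_add, map_add, map_mul ψ _ (aeval (C X) q), map_mul ψ _ (aeval X q),
    map_mul ψ _ (aeval (C X * X) q), hψ, hψ, hψ, e3, e1, e2, hx, hy, hz, mul_zero, mul_zero,
    mul_zero, add_zero, add_zero] at h2
  apply hk0
  have h3 : ψ (C (C m4)) =
      algebraMap (ZMod ℓ) (AlgebraicClosure (ZMod ℓ)) ((m4 : ℤ) : ZMod ℓ) := by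
    rw [map_intCast]
    simp [ψ]
  rw [h3] at h2
  exact (map_eq_zero_iff _ (algebraMap (ZMod ℓ) (AlgebraicClosure (ZMod ℓ))).injective).1 h2.symm

/-- splitting off the component `v ∧ Z v` (the proof of `Pool.Agent.Y96.ZO.t` for `2 ≠ 0`) -/
theorem spec_two {F : Type} [Field F] [NeZero (2 : F)] {N : ℕ}
    (B g : Matrix (Fin N) (Fin N) F) (v : Fin N → F) (Q : F[X])
    (𝔤 : Submodule F (Matrix (Fin N) (Fin N) F)) (hB : Bᵀ = B) (hBdet : B.det ≠ 0)
    (hiso : Isom B g) (hv : g *ᵥ v = v) (hc0 : bil B v v ≠ 0) (hchar : g.charpoly = (X - 1) * Q)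
    (hroot : ∀ x y z : AlgebraicClosure F, aeval x Q = 0 → aeval y Q = 0 → aeval z Q = 0 →
      x * y ≠ z)
    (hskew : ∀ Z ∈ 𝔤, Skew B Z) (hstab : ∀ Z ∈ 𝔤, g * Z * g⁻¹ ∈ 𝔤) :
    ∀ Z ∈ 𝔤, wedge B v (Z *ᵥ v) ∈ 𝔤 := by
  intro Z hZ
  have hchar2 : g.charpoly ≠ 0 := (charpoly_monic g).ne_zero
  have hQ0 : Q ≠ 0 := by rintro rfl; apply hchar2; rw [hchar, mul_zero]
  have hQ1 : Q.eval 1 ≠ 0 := by
    intro h
    have h1 : aeval (1 : AlgebraicClosure F) Q = 0 := by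
      have := Polynomial.aeval_algebraMap_apply (AlgebraicClosure F) (1 : F) Q
      rw [map_one] at this
      rw [this, coe_aeval_eq_eval, h, map_zero]
    exact hroot 1 1 1 h1 h1 h1 (mul_one 1)
  have hdet : IsUnit g.det := by
    have h1 := congrArg Matrix.det (show gᵀ * B * g = B from hiso)
    rw [det_mul, det_mul, det_transpose] at h1
    rw [isUnit_iff_ne_zero]
    intro h
    rw [h, mul_zero] at h1
    exact hBdet h1.symm
  set φ : Fin N → F := v ᵥ* B with hφ_def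
  have hφ : φ ᵥ* g = φ := by
    have h1 : v ᵥ* gᵀ = v := by rw [vecMul_transpose, hv]
    calc φ ᵥ* g = (v ᵥ* gᵀ) ᵥ* B ᵥ* g := by rw [h1]
      _ = v ᵥ* (gᵀ * B * g) := by rw [vecMul_vecMul, vecMul_vecMul, Matrix.mul_assoc]
      _ = φ := by rw [show gᵀ * B * g = B from hiso]
  have hφdot : ∀ x, φ ⬝ᵥ x = bil B v x := by
    intro x
    rw [hφ_def, ← dotProduct_mulVec]
    rfl
  have hφv : φ ⬝ᵥ v ≠ 0 := by rw [hφdot]; exact hc0
  have hginv : g⁻¹ *ᵥ v = v := by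
    conv_lhs => rw [← hv]
    rw [mulVec_mulVec, nonsing_inv_mul _ hdet, one_mulVec]
  have hφinv : φ ᵥ* g⁻¹ = φ := by
    conv_lhs => rw [← hφ]
    rw [vecMul_vecMul, mul_nonsing_inv _ hdet, vecMul_one]
  -- the subspace of maps of `H`
  let s : Submodule F (Matrix (Fin N) (Fin N) F) :=
    { carrier := {Y | Y *ᵥ v = 0 ∧ φ ᵥ* Y = 0}
      add_mem' := by
        intro a b ha hb
        exact ⟨by rw [add_mulVec, ha.1, hb.1, add_zero], by rw [vecMul_add, ha.2, hb.2, add_zero]⟩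
      zero_mem' := ⟨by rw [zero_mulVec], by rw [vecMul_zero]⟩
      smul_mem' := by
        intro c x hx
        exact ⟨by rw [smul_mulVec, hx.1, smul_zero], by rw [vecMul_smul, hx.2, smul_zero]⟩ }
  have hstab' : ∀ (t : Submodule F (Matrix (Fin N) (Fin N) F)), (∀ Y ∈ t, conj g Y ∈ t) →
      ∀ (P : F[X]), ∀ Y ∈ t, aeval (conj g) P Y ∈ t := by
    intro t ht P Y hY
    rw [aeval_eq_sum_range, LinearMap.sum_apply]
    refine Submodule.sum_mem _ fun i _ => ?_
    rw [LinearMap.smul_apply]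
    apply Submodule.smul_mem
    have hp : ∀ n : ℕ, (conj g ^ n) Y ∈ t := by
      intro n
      induction n with
      | zero => rw [pow_zero]; exact hY
      | succ n ih => rw [pow_succ', Module.End.mul_apply]; exact ht _ ih
    exact hp i
  have hs : ∀ Y ∈ s, conj g Y ∈ s := by
    intro Y hY
    rw [conj_apply]
    constructor
    · rw [← mulVec_mulVec, hginv, ← mulVec_mulVec, hY.1, mulVec_zero]
    · rw [← vecMul_vecMul, ← vecMul_vecMul, hφ, hY.2, zero_vecMul]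
  have h𝔤 : ∀ Y ∈ 𝔤, conj g Y ∈ 𝔤 := fun Y hY => by rw [conj_apply]; exact hstab Y hY
  -- the decomposition
  set w : Fin N → F := Z *ᵥ v with hw
  have hBZ : Zᵀ * B = - (B * Z) := by
    have h1 : (B * Z)ᵀ = -(B * Z) := hskew Z hZ
    rwa [transpose_mul, hB] at h1
  have hBt : ∀ a b : Fin N → F, a ⬝ᵥ (b ᵥ* B) = b ⬝ᵥ (a ᵥ* B) := by
    intro a b
    rw [dotProduct_comm, ← dotProduct_mulVec]
    congr 1
    rw [← mulVec_transpose, hB]
  have hwB : w ᵥ* B = - (φ ᵥ* Z) := by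
    rw [hw, ← vecMul_transpose, vecMul_vecMul, hBZ, hφ_def, vecMul_vecMul, vecMul_neg]
  have hφw : φ ⬝ᵥ w = 0 := by
    have h1 : φ ⬝ᵥ w = - (φ ⬝ᵥ w) := by
      calc φ ⬝ᵥ w = w ⬝ᵥ (v ᵥ* B) := dotProduct_comm _ _
        _ = v ⬝ᵥ (w ᵥ* B) := hBt _ _
        _ = - (φ ⬝ᵥ w) := by rw [hwB, dotProduct_neg, dotProduct_comm, ← dotProduct_mulVec]
    have h2 : (2 : F) * (φ ⬝ᵥ w) = 0 := by linear_combination h1
    exact (mul_eq_zero.1 h2).resolve_left two_ne_zero
  set c0 : F := φ ⬝ᵥ v with hc0_def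
  set Z1 : Matrix (Fin N) (Fin N) F := Z - c0⁻¹ • wedge B v w with hZ1
  have hwv : wedge B v w *ᵥ v = c0 • w := by
    unfold wedge
    rw [sub_mulVec, vecMulVec_mulVec, vecMulVec_mulVec]
    have h1 : (w ᵥ* B) ⬝ᵥ v = 0 := by rw [dotProduct_comm, hBt, dotProduct_comm]; exact hφw
    rw [h1, ← hφ_def, ← hc0_def]
    simp
  have hφwedge : φ ᵥ* wedge B v w = - c0 • (w ᵥ* B) := by
    unfold wedge
    rw [vecMul_sub, vecMul_vecMulVec, vecMul_vecMulVec, hφw, ← hc0_def]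
    simp
  have hZ1s : Z1 ∈ s := by
    constructor
    · rw [hZ1, sub_mulVec, smul_mulVec, hwv, smul_smul, inv_mul_cancel₀ hφv, one_smul, ← hw,
        sub_self]
    · rw [hZ1, vecMul_sub, vecMul_smul, hφwedge, smul_smul, hwB]
      have : c0⁻¹ * -c0 = -1 := by field_simp
      rw [this, smul_neg, neg_smul, one_smul, neg_neg, sub_self]
  -- the wedge is killed
  let J : (Fin N → F) →ₗ[F] Matrix (Fin N) (Fin N) F :=
    { toFun := fun x => wedge B v x
      map_add' := by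
        intro x y
        unfold wedge
        rw [add_vecMulVec, add_vecMul, vecMulVec_add]
        abel
      map_smul' := by
        intro c x
        unfold wedge
        rw [smul_vecMulVec, smul_vecMul, vecMulVec_smul, RingHom.id_apply, smul_sub] }
  have hJ : ∀ x, conj g (J x) = J (g *ᵥ x) := by
    intro x
    have hBg : B * g⁻¹ = gᵀ * B := by
      have h1 : gᵀ * B * g = B := hiso
      calc B * g⁻¹ = gᵀ * B * g * g⁻¹ := by rw [h1]
        _ = gᵀ * B := by rw [Matrix.mul_assoc, mul_nonsing_inv _ hdet, Matrix.mul_one]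
    change conj g (wedge B v x) = wedge B v (g *ᵥ x)
    rw [conj_apply]
    unfold wedge
    rw [mul_sub, sub_mul, mul_vecMulVec, mul_vecMulVec, vecMulVec_mul, vecMulVec_mul, hv,
      ← hφ_def, hφinv, vecMul_vecMul, hBg, ← vecMul_vecMul, vecMul_transpose]
  have hJP : ∀ (P : F[X]) (x : Fin N → F), aeval (conj g) P (J x) = J ((aeval g P) *ᵥ x) := by
    intro P x
    rw [aeval_eq_sum_range, aeval_eq_sum_range, LinearMap.sum_apply, Matrix.sum_mulVec, map_sum]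
    refine Finset.sum_congr rfl fun i _ => ?_
    rw [LinearMap.smul_apply, smul_mulVec, map_smul]
    congr 1
    have hp : ∀ n : ℕ, (conj g ^ n) (J x) = J ((g ^ n) *ᵥ x) := by
      intro n
      induction n with
      | zero => rw [pow_zero, pow_zero, one_mulVec]; rfl
      | succ n ih => rw [pow_succ', Module.End.mul_apply, ih, hJ, pow_succ', mulVec_mulVec]
    exact hp i
  have hDw : aeval (conj g) Q (wedge B v w) = 0 := by
    have h1 := hJP Q w
    rw [kill g v φ Q hchar hQ1 hv hφ hφv w hφw, map_zero] at h1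
    exact h1
  have hDZ : aeval (conj g) Q Z = aeval (conj g) Q Z1 := by
    rw [hZ1, map_sub, map_smul, hDw, smul_zero, sub_zero]
  -- surjectivity
  set t : Submodule F (Matrix (Fin N) (Fin N) F) := 𝔤 ⊓ s with ht
  have htD : ∀ Y ∈ t, aeval (conj g) Q Y ∈ t := fun Y hY =>
    ⟨hstab' 𝔤 h𝔤 Q Y hY.1, hstab' s hs Q Y hY.2⟩
  have hinj : Function.Injective ((aeval (conj g) Q).restrict htD) := by
    rw [← LinearMap.ker_eq_bot, LinearMap.ker_eq_bot']
    intro Y hY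
    apply Subtype.ext
    exact inj g v φ Q hQ0 hroot hchar hQ1 hv hφ hφv hdet Y.1 Y.2.2.1 Y.2.2.2
      (congrArg Subtype.val hY)
  have hsurj := LinearMap.injective_iff_surjective.1 hinj
  obtain ⟨Z', hZ'⟩ := hsurj ⟨aeval (conj g) Q Z1, ⟨hDZ ▸ hstab' 𝔤 h𝔤 Q Z hZ, hstab' s hs Q Z1 hZ1s⟩⟩
  have hZ'2 : aeval (conj g) Q (Z' : Matrix (Fin N) (Fin N) F) = aeval (conj g) Q Z1 :=
    congrArg Subtype.val hZ'
  have hdiff : (Z' : Matrix (Fin N) (Fin N) F) - Z1 ∈ s := s.sub_mem Z'.2.2 hZ1s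
  have h6 := inj g v φ Q hQ0 hroot hchar hQ1 hv hφ hφv hdet ((Z' : Matrix (Fin N) (Fin N) F) - Z1)
    hdiff.1 hdiff.2 (by rw [map_sub, hZ'2, sub_self])
  have h7 : Z1 ∈ 𝔤 := by rw [← sub_eq_zero.1 h6]; exact Z'.2.1
  have h8 : wedge B v w = c0 • (Z - Z1) := by
    rw [hZ1, sub_sub_cancel, smul_smul, mul_inv_cancel₀ hφv, one_smul]
  rw [h8]
  exact 𝔤.smul_mem _ (𝔤.sub_mem hZ h7)

end Pool.Agent.R932
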