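import Pool.Agent.R932.LogA
import Pool.Agent.R932.SpA
import Pool.Agent.R932.JoB

/-!
# The logarithms of the elements of order `ℓ` of the image modulo `ℓ` span all skew maps
-/

set_option autoImplicit false
set_option linter.unusedSectionVars false
set_option linter.style.haveILetI false

open Matrix Polynomial
open Pool.Agent.Y142.ZO Pool.Agent.Y379.ZI

namespace Pool.Agent.R932

section
variable {ℓ : ℕ} [hp : Fact ℓ.Prime] {N : ℕ}

/-- logarithms of isometries are skew -/
theorem log_skew {B u : Matrix (Fin N) (Fin N) (ZMod ℓ)} (hB : Bᵀ = B) (hiso : Isom B u)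
    (hu : u ^ ℓ = 1) (hN : 2 * N ≤ ℓ) : Skew B (logM u) := by
  have h0 : uᵀ * B = B * u ^ (ℓ - 1) := by
    have h1 : uᵀ * B * u = B := hiso
    calc uᵀ * B = uᵀ * B * (u * u ^ (ℓ - 1)) := by rw [u_inv hu, mul_one]
      _ = B * u ^ (ℓ - 1) := by rw [← mul_assoc, h1]
  have h1 : ∀ t : ℕ, (u ^ t)ᵀ * B = B * (u ^ (ℓ - 1)) ^ t := by
    intro t
    induction t with
    | zero => rw [pow_zero, pow_zero, transpose_one, one_mul, mul_one]
    | succ t ih =>
      rw [pow_succ, transpose_mul, mul_assoc, ih, ← mul_assoc, h0, mul_assoc, ← pow_succ']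
  have h2 : ∀ a b, ((logM u)ᵀ * B) a b = -((B * logM u) a b) := by
    intro a b
    set P : (ZMod ℓ)[X] := ∑ i ∈ Finset.range N, (C ((((u - 1) ^ i)ᵀ * B : Matrix (Fin N) (Fin N) (ZMod ℓ)) a b) * bp (ZMod ℓ) i -
      C ((B * (u - 1) ^ i) a b) * (bp (ZMod ℓ) i).comp (-X)) with hP
    have h3 : ∀ t : ℕ, P.eval (t : ZMod ℓ) = 0 := by
      intro t
      have h4 := congrFun (congrFun (h1 t) a) b
      rw [inv_eval hu (by omega), pow_eval hu (by omega), transpose_sum, Finset.sum_mul,
        Finset.mul_sum, Matrix.sum_apply, Matrix.sum_apply, ← sub_eq_zero,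
        ← Finset.sum_sub_distrib] at h4
      rw [hP, eval_finsetSum, ← h4]
      refine Finset.sum_congr rfl fun i _ => ?_
      rw [eval_sub, eval_mul, eval_mul, eval_C, eval_C, transpose_smul, smul_mul_assoc,
        mul_smul_comm, Matrix.smul_apply, Matrix.smul_apply, smul_eq_mul, smul_eq_mul]
      ring
    have h5 : P = 0 := by
      rcases Nat.eq_zero_or_pos N with h0 | h0
      · subst h0
        simp [hP]
      refine poly_zero (lt_of_le_of_lt (natDegree_sum_le_of_forall_le _ _ (n := N) fun i hi => ?_)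
        (by omega)) h3
      rw [Finset.mem_range] at hi
      refine (natDegree_sub_le _ _).trans (max_le ?_ ?_)
      · exact (natDegree_C_mul_le _ _).trans ((bp_natDegree i).trans hi.le)
      · refine (natDegree_C_mul_le _ _).trans ?_
        rw [natDegree_comp, natDegree_neg, natDegree_X, mul_one]
        exact (bp_natDegree i).trans hi.le
    have h6 := congrArg (fun p => p.coeff 1) h5
    simp only [hP, finsetSum_coeff, coeff_sub, coeff_C_mul, coeff_comp_neg, coeff_zero, pow_one] at h6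
    unfold logM
    rw [transpose_sum, Finset.sum_mul, Finset.mul_sum, Matrix.sum_apply, Matrix.sum_apply,
      eq_neg_iff_add_eq_zero, ← Finset.sum_add_distrib, ← h6]
    refine Finset.sum_congr rfl fun i _ => ?_
    rw [transpose_smul, smul_mul_assoc, mul_smul_comm, Matrix.smul_apply, Matrix.smul_apply,
      smul_eq_mul, smul_eq_mul]
    ring
  have h3 : (logM u)ᵀ * B = -(B * logM u) := by
    ext a b
    rw [h2, Matrix.neg_apply]
  change (B * logM u)ᵀ = -(B * logM u)
  rw [transpose_mul, hB, h3]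

theorem log_ne_zero {u : Matrix (Fin N) (Fin N) (ZMod ℓ)} (hu : u ^ ℓ = 1)
    (h1 : u ≠ 1) : logM u ≠ 0 := by
  have hX0 : u - 1 ≠ 0 := sub_ne_zero.2 h1
  have hXN : (u - 1) ^ N = 0 := unip_pow hu
  have hex : ∃ k, (u - 1) ^ k = 0 := ⟨N, hXN⟩
  set k := Nat.find hex with hk
  have hk1 : (u - 1) ^ k = 0 := Nat.find_spec hex
  have hkN : k ≤ N := Nat.find_min' hex hXN
  have hk2 : 2 ≤ k := by
    by_contra hcon
    have : k = 0 ∨ k = 1 := by omega
    rcases this with h | h
    · rw [h, pow_zero] at hk1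
      exact hX0 (by rw [← mul_one (u - 1), hk1, mul_zero])
    · rw [h, pow_one] at hk1
      exact hX0 hk1
  have hk3 : (u - 1) ^ (k - 1) ≠ 0 := Nat.find_min hex (by omega)
  intro hL
  apply hk3
  have h2 : logM u * (u - 1) ^ (k - 2) = (u - 1) ^ (k - 1) := by
    unfold logM
    rw [Finset.sum_mul, Finset.sum_eq_single 1]
    · rw [bp_one, coeff_X_one, one_smul, pow_one, ← pow_succ']
      congr 1
      omega
    · intro j hj hj1
      rw [Finset.mem_range] at hj
      rcases Nat.eq_zero_or_pos j with h0 | h0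
      · subst h0
        rw [bp_zero, coeff_one, if_neg (by omega), zero_smul, zero_mul]
      · rw [smul_mul_assoc, ← pow_add, show j + (k - 2) = k + (j - 2) by omega, pow_add, hk1,
          zero_mul, smul_zero]
    · intro h
      exact absurd (Finset.mem_range.2 (by omega)) h
  rw [← h2, hL, zero_mul]

theorem conj_pow' {g h x : Matrix (Fin N) (Fin N) (ZMod ℓ)} (hgh : g * h = 1) (hhg : h * g = 1)
    (j : ℕ) : (g * x * h) ^ j = g * x ^ j * h := by
  induction j with
  | zero => rw [pow_zero, pow_zero, mul_one, hgh]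
  | succ j ih =>
    rw [pow_succ, ih, pow_succ]
    calc g * x ^ j * h * (g * x * h) = g * x ^ j * (h * g) * x * h := by
          simp only [mul_assoc]
      _ = g * (x ^ j * x) * h := by rw [hhg, mul_one]; simp only [mul_assoc]

theorem conj_log {g h u : Matrix (Fin N) (Fin N) (ZMod ℓ)} (hgh : g * h = 1) (hhg : h * g = 1) :
    logM (g * u * h) = g * logM u * h := by
  unfold logM
  rw [Finset.mul_sum, Finset.sum_mul]
  refine Finset.sum_congr rfl fun j _ => ?_
  have h1 : g * u * h - 1 = g * (u - 1) * h := by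
    rw [mul_sub, sub_mul, mul_one, hgh]
  rw [h1, conj_pow' hgh hhg, mul_smul_comm, smul_mul_assoc]

/-- the span of the logarithms of the elements of order `ℓ` -/
noncomputable def logSpan {G : Type} [Group G] (r : G →* Matrix (Fin N) (Fin N) (ZMod ℓ)) :
    Submodule (ZMod ℓ) (Matrix (Fin N) (Fin N) (ZMod ℓ)) :=
  Submodule.span (ZMod ℓ) {L | ∃ g, (r g) ^ ℓ = 1 ∧ L = logM (r g)}

theorem so_of_unip {G : Type} [Group G] {r : G →* Matrix (Fin N) (Fin N) (ZMod ℓ)}
    {B : Matrix (Fin N) (Fin N) (ZMod ℓ)} (hB : Bᵀ = B) (hdet : B.det ≠ 0)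
    (h2 : (2 : ZMod ℓ) ≠ 0) (hr : ∀ g, Isom B (r g)) (hN : 2 * N ≤ ℓ)
    (hirr : ∀ U : Subgroup G, U.index ≠ 0 → U.index ≤ N → ∀ W : Submodule (ZMod ℓ) (Fin N → ZMod ℓ),
      (∀ g ∈ U, ∀ w ∈ W, r g *ᵥ w ∈ W) → W = ⊥ ∨ W = ⊤)
    (hun : ∃ g, (r g) ^ ℓ = 1 ∧ r g ≠ 1)
    {τ : G} {e : Fin N → ZMod ℓ} {Q : (ZMod ℓ)[X]} (hτe : r τ *ᵥ e = e) (hee : bil B e e ≠ 0)
    (hchar : (r τ).charpoly = (X - 1) * Q)
    (hroot : ∀ x y z : AlgebraicClosure (ZMod ℓ), aeval x Q = 0 → aeval y Q = 0 → aeval z Q = 0 →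
      x * y ≠ z)
    {Z : Matrix (Fin N) (Fin N) (ZMod ℓ)} (hZ : Skew B Z) : Z ∈ logSpan r := by
  haveI : NeZero (2 : ZMod ℓ) := ⟨h2⟩
  have hcj : ∀ g, ∀ Z ∈ logSpan r, r g * Z * r g⁻¹ ∈ logSpan r := by
    intro g Z hZ
    induction hZ using Submodule.span_induction with
    | mem x hx =>
      obtain ⟨g', hg', rfl⟩ := hx
      refine Submodule.subset_span ⟨g * g' * g⁻¹, ?_, ?_⟩
      · rw [← map_pow, conj_pow, map_mul, map_mul, map_pow, hg', mul_one, r_mul_inv]
      · rw [map_mul, map_mul, conj_log (r_mul_inv r g) (r_inv_mul r g)]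
    | zero => rw [mul_zero, zero_mul]; exact Submodule.zero_mem _
    | add x y _ _ hx hy => rw [mul_add, add_mul]; exact Submodule.add_mem _ hx hy
    | smul c x _ hx => rw [mul_smul_comm, smul_mul_assoc]; exact Submodule.smul_mem _ c hx
  have hinv : ∀ g, (r g) ^ ℓ = 1 → r g⁻¹ = (r g) ^ (ℓ - 1) := by
    intro g hg
    calc r g⁻¹ = r g⁻¹ * (r g * (r g) ^ (ℓ - 1)) := by rw [u_inv hg, mul_one]
      _ = (r g) ^ (ℓ - 1) := by rw [← mul_assoc, r_inv_mul, one_mul]
  have hbr : ∀ X ∈ logSpan r, ∀ Y ∈ logSpan r, X * Y - Y * X ∈ logSpan r := by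
    intro X hX Y hY
    induction hX using Submodule.span_induction with
    | mem x hx =>
      obtain ⟨g, hg, rfl⟩ := hx
      refine log_bracket hg hN _ (fun Z hZ => ?_) hY
      rw [← hinv g hg]
      exact hcj g Z hZ
    | zero => rw [mul_zero, zero_mul, sub_zero]; exact Submodule.zero_mem _
    | add x y _ _ hx hy =>
      have : (x + y) * Y - Y * (x + y) = (x * Y - Y * x) + (y * Y - Y * y) := by
        rw [add_mul, mul_add]; abel
      rw [this]
      exact Submodule.add_mem _ hx hy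
    | smul c x _ hx =>
      have : (c • x) * Y - Y * (c • x) = c • (x * Y - Y * x) := by
        rw [smul_mul_assoc, mul_smul_comm, smul_sub]
      rw [this]
      exact Submodule.smul_mem _ c hx
  have hsk : ∀ Z ∈ logSpan r, Skew B Z := by
    intro Z hZ
    induction hZ using Submodule.span_induction with
    | mem x hx =>
      obtain ⟨g, hg, rfl⟩ := hx
      exact log_skew hB (hr g) hg hN
    | zero => change (B * 0)ᵀ = -(B * 0); rw [mul_zero, transpose_zero, neg_zero]
    | add x y _ _ hx hy =>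
      change (B * (x + y))ᵀ = -(B * (x + y))
      have e1 : (B * x)ᵀ = -(B * x) := hx
      have e2 : (B * y)ᵀ = -(B * y) := hy
      rw [mul_add, transpose_add, e1, e2]
      abel
    | smul c x _ hx =>
      change (B * (c • x))ᵀ = -(B * (c • x))
      have e1 : (B * x)ᵀ = -(B * x) := hx
      rw [mul_smul_comm, transpose_smul, e1, smul_neg]
  have hne : ∃ Z ∈ logSpan r, Z ≠ 0 := by
    obtain ⟨g, hg, hg1⟩ := hun
    exact ⟨logM (r g), Submodule.subset_span ⟨g, hg, rfl⟩, log_ne_zero hg hg1⟩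
  have hinvτ : r τ⁻¹ = (r τ)⁻¹ := (inv_eq_left_inv (r_inv_mul r τ)).symm
  have he := spec_two B (r τ) e Q (logSpan r) hB hdet (hr τ) hτe hee hchar hroot hsk
    (fun Z hZ => by rw [← hinvτ]; exact hcj τ Z hZ)
  exact full_so hcj hB hdet hr hsk hbr hee he hirr hne hZ

end

end Pool.Agent.R932
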