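import Pool.Agent.R932.CntB
import Pool.Agent.R932.LogB

/-!
# The image modulo `ℓ` has many elements
-/

set_option autoImplicit false
set_option linter.unusedSectionVars false
set_option linter.style.haveILetI false

open Matrix MvPolynomial

namespace Pool.Agent.R932

section
variable {S : Type} [CommRing S] {N : ℕ}

/-- matrices with entries in an ideal -/
def MI (I : Ideal S) (A : Matrix (Fin N) (Fin N) S) : Prop := ∀ a b, A a b ∈ I

theorem MI.add {I : Ideal S} {A B : Matrix (Fin N) (Fin N) S} (hA : MI I A) (hB : MI I B) :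
    MI I (A + B) := fun a b => I.add_mem (hA a b) (hB a b)

theorem MI.zero (I : Ideal S) : MI I (0 : Matrix (Fin N) (Fin N) S) := fun _ _ => I.zero_mem

theorem MI.mul_left {I : Ideal S} {B : Matrix (Fin N) (Fin N) S} (hB : MI I B)
    (A : Matrix (Fin N) (Fin N) S) : MI I (A * B) := fun a b => by
  rw [Matrix.mul_apply]
  exact Ideal.sum_mem _ fun c _ => I.mul_mem_left _ (hB c b)

theorem MI.mul_right {I : Ideal S} {B : Matrix (Fin N) (Fin N) S} (hB : MI I B)
    (A : Matrix (Fin N) (Fin N) S) : MI I (B * A) := fun a b => by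
  rw [Matrix.mul_apply]
  exact Ideal.sum_mem _ fun c _ => I.mul_mem_right _ (hB a c)

theorem MI.mul {I J : Ideal S} {A B : Matrix (Fin N) (Fin N) S} (hA : MI I A) (hB : MI J B) :
    MI (I * J) (A * B) := fun a b => by
  rw [Matrix.mul_apply]
  exact Ideal.sum_mem _ fun c _ => Ideal.mul_mem_mul (hA a c) (hB c b)

theorem prod_mod {ι : Type} {J : Ideal S} {U V : ι → Matrix (Fin N) (Fin N) S}
    (hV : ∀ i, MI J (V i)) (hU : ∀ i, MI (J ^ 2) (U i - 1 - V i)) (l : List ι) :
    MI J (l.map V).sum ∧ MI (J ^ 2) ((l.map U).prod - 1 - (l.map V).sum) := by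
  induction l with
  | nil =>
    simp only [List.map_nil, List.sum_nil, List.prod_nil, sub_self]
    exact ⟨MI.zero _, MI.zero _⟩
  | cons i l ih =>
    simp only [List.map_cons, List.sum_cons, List.prod_cons]
    refine ⟨(hV i).add ih.1, ?_⟩
    set P := (l.map U).prod
    set T := (l.map V).sum
    have h1 : U i * P - 1 - (V i + T) = V i * T + (U i - 1 - V i) * P +
        (1 + V i) * (P - 1 - T) := by noncomm_ring
    rw [h1]
    refine (MI.add ?_ ((hU i).mul_right _)).add (ih.2.mul_left _)
    rw [pow_two]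
    exact (hV i).mul ih.1

end

section
variable {F : Type} [Field F] {d N : ℕ}

theorem aeval_X_mod (i : Fin d) (q : Polynomial F) :
    Polynomial.aeval (X i : MvPolynomial (Fin d) F) q - C (q.coeff 0) - C (q.coeff 1) * X i ∈
      JJ F d ^ 2 := by
  have h1 : Polynomial.aeval (X i : MvPolynomial (Fin d) F) q - C (q.coeff 0) -
      C (q.coeff 1) * X i = Polynomial.aeval (X i : MvPolynomial (Fin d) F) q.divX.divX *
      (X i * X i) := by
    conv_lhs => rw [← Polynomial.divX_mul_X_add q, ← Polynomial.divX_mul_X_add q.divX]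
    simp only [map_add, map_mul, Polynomial.aeval_X, Polynomial.aeval_C, algebraMap_eq]
    simp [Polynomial.coeff_divX]
    ring
  rw [h1, pow_two]
  exact Ideal.mul_mem_left _ _ (Ideal.mul_mem_mul (X_mem_JJ i) (X_mem_JJ i))

theorem degreeOf_aeval_X (i j : Fin d) (q : Polynomial F) :
    (Polynomial.aeval (X i : MvPolynomial (Fin d) F) q).degreeOf j ≤ q.natDegree := by
  rw [Polynomial.aeval_eq_sum_range]
  refine (degreeOf_sum_le _ _ _).trans (Finset.sup_le fun n hn => ?_)
  rw [Finset.mem_range] at hn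
  rw [smul_eq_C_mul]
  refine (degreeOf_C_mul_le _ _ _).trans ((degreeOf_pow_le _ _ _).trans ?_)
  rw [degreeOf_X]
  split_ifs <;> omega

/-- the matrix of functions `X ↦ u^X` -/
noncomputable def UU (u : Matrix (Fin N) (Fin N) F) (i : Fin d) :
    Matrix (Fin N) (Fin N) (MvPolynomial (Fin d) F) :=
  ∑ j ∈ Finset.range N, (Polynomial.aeval (X i : MvPolynomial (Fin d) F) (bp F j)) •
    ((u - 1) ^ j).map C

end

section
variable {ℓ : ℕ} [hp : Fact ℓ.Prime] {N d : ℕ}

theorem UU_eval {u : Matrix (Fin N) (Fin N) (ZMod ℓ)} (hu : u ^ ℓ = 1) (hN : N ≤ ℓ) (i : Fin d)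
    (t : Fin d → ZMod ℓ) : (UU u i).map (eval t) = u ^ (t i).val := by
  rw [pow_eval hu hN]
  unfold UU
  ext a b
  rw [Matrix.map_apply, Matrix.sum_apply, Matrix.sum_apply, map_sum]
  refine Finset.sum_congr rfl fun j _ => ?_
  rw [Matrix.smul_apply, Matrix.smul_apply, smul_eq_mul, smul_eq_mul, map_mul, Matrix.map_apply,
    eval_C, ZMod.natCast_zmod_val]
  congr 1
  have h1 : (eval t) (Polynomial.aeval (X i : MvPolynomial (Fin d) (ZMod ℓ)) (bp (ZMod ℓ) j)) =
      Polynomial.eval ((eval t) (X i)) (bp (ZMod ℓ) j) := by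
    rw [Polynomial.aeval_def, Polynomial.hom_eval₂]
    have h2 : (eval t).comp (algebraMap (ZMod ℓ) (MvPolynomial (Fin d) (ZMod ℓ))) =
        RingHom.id _ := by
      ext x
      simp
    rw [h2, Polynomial.eval₂_id]
  rw [h1, eval_X]

theorem UU_mod (u : Matrix (Fin N) (Fin N) (ZMod ℓ)) (hN : 1 ≤ N) (hN' : N ≤ ℓ) (i : Fin d) :
    MI (JJ (ZMod ℓ) d ^ 2) (UU u i - 1 - (X i : MvPolynomial (Fin d) (ZMod ℓ)) •
      (logM u).map C) := by
  have h1 : UU u i - 1 - (X i : MvPolynomial (Fin d) (ZMod ℓ)) • (logM u).map C =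
      ∑ j ∈ Finset.range N, (Polynomial.aeval (X i : MvPolynomial (Fin d) (ZMod ℓ)) (bp (ZMod ℓ) j) -
        C ((bp (ZMod ℓ) j).coeff 0) - C ((bp (ZMod ℓ) j).coeff 1) * X i) • ((u - 1) ^ j).map C := by
    simp only [sub_smul, Finset.sum_sub_distrib]
    unfold UU
    congr 1
    · congr 1
      rw [Finset.sum_eq_single 0]
      · rw [bp_zero, Polynomial.coeff_one, if_pos rfl, C_1, one_smul, pow_zero]
        exact (Matrix.map_one _ C_0 C_1).symm
      · intro j hj hj0
        rw [Finset.mem_range] at hj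
        rw [bp_coeff_zero (fact_ne (by omega)), if_neg hj0, C_0, zero_smul]
      · intro h
        exact absurd (Finset.mem_range.2 (by omega)) h
    · unfold logM
      ext1 a b
      rw [Matrix.smul_apply, Matrix.map_apply, Matrix.sum_apply, Matrix.sum_apply, map_sum,
        Finset.smul_sum]
      refine Finset.sum_congr rfl fun j _ => ?_
      rw [Matrix.smul_apply, Matrix.smul_apply, Matrix.map_apply, smul_eq_mul, smul_eq_mul,
        smul_eq_mul, C_mul]
      ring
  rw [h1]
  intro a b
  rw [Matrix.sum_apply]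
  refine Ideal.sum_mem _ fun j _ => ?_
  rw [Matrix.smul_apply, smul_eq_mul]
  exact Ideal.mul_mem_right _ _ (aeval_X_mod i _)

theorem UU_degree (u : Matrix (Fin N) (Fin N) (ZMod ℓ)) (i j : Fin d) (a b : Fin N) :
    (UU u i a b).degreeOf j ≤ N := by
  unfold UU
  rw [Matrix.sum_apply]
  refine (degreeOf_sum_le _ _ _).trans (Finset.sup_le fun n hn => ?_)
  rw [Finset.mem_range] at hn
  rw [Matrix.smul_apply, smul_eq_mul, Matrix.map_apply]
  refine (degreeOf_mul_C_le _ _ _).trans ((degreeOf_aeval_X i j _).trans ?_)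
  exact (bp_natDegree n).trans hn.le

theorem prod_degree {ι : Type} {U : ι → Matrix (Fin N) (Fin N) (MvPolynomial (Fin d) (ZMod ℓ))}
    {j : Fin d} (hU : ∀ i a b, (U i a b).degreeOf j ≤ N) (l : List ι) (a b : Fin N) :
    ((l.map U).prod a b).degreeOf j ≤ l.length * N := by
  induction l generalizing a b with
  | nil =>
    rw [List.map_nil, List.prod_nil, Matrix.one_apply]
    split_ifs
    · rw [degreeOf_one]; omega
    · rw [degreeOf_zero]; omega
  | cons i l ih =>
    rw [List.map_cons, List.prod_cons, Matrix.mul_apply]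
    refine (degreeOf_sum_le _ _ _).trans (Finset.sup_le fun c _ => ?_)
    refine (degreeOf_mul_le _ _ _).trans ?_
    rw [List.length_cons, add_mul, one_mul, add_comm]
    exact Nat.add_le_add (ih c b) (hU i a c)

/-- the constant in the lower bound -/
def cb (N d : ℕ) : ℕ := 2 * mb d (d * N + 1) ^ d

/-- how large `ℓ` has to be -/
def eb (N d : ℕ) : ℕ := 2 * (d * (d * (d * mb d (d * N + 1) * (d * N + 1))))

/-- **the image modulo `ℓ` has at least `ℓ^d / c` elements** -/
theorem card_range_ge {G : Type} [Group G] (r : G →* Matrix (Fin N) (Fin N) (ZMod ℓ))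
    (g : Fin d → G) (hg : ∀ i, r (g i) ^ ℓ = 1)
    (hli : LinearIndependent (ZMod ℓ) fun i => logM (r (g i))) (hN : 1 ≤ N) (hN' : N ≤ ℓ)
    (hℓ : eb N d ≤ ℓ) : ℓ ^ d ≤ cb N d * Nat.card (Set.range r) := by
  classical
  -- dual functionals
  obtain ⟨Ψ, hΨ⟩ := (Fintype.linearCombination (ZMod ℓ)
    (fun i => logM (r (g i)))).exists_leftInverse_of_injective (by
      rw [LinearMap.ker_eq_bot]
      exact hli.fintypeLinearCombination_injective)
  have hΨ1 : ∀ i, Ψ (logM (r (g i))) = Pi.single i 1 := by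
    intro i
    have h1 := LinearMap.congr_fun hΨ (Pi.single i 1)
    rw [LinearMap.comp_apply, Fintype.linearCombination_apply_single, one_smul,
      LinearMap.id_apply] at h1
    exact h1
  set w : Fin d → Fin N → Fin N → ZMod ℓ := fun k a b => Ψ (Matrix.single a b 1) k with hw
  have hΨw : ∀ (A : Matrix (Fin N) (Fin N) (ZMod ℓ)) (k : Fin d),
      ∑ a, ∑ b, w k a b * A a b = Ψ A k := by
    intro A k
    conv_rhs => rw [Matrix.matrix_eq_sum_single A]
    rw [map_sum, Finset.sum_apply]
    refine Finset.sum_congr rfl fun a _ => ?_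
    rw [map_sum, Finset.sum_apply]
    refine Finset.sum_congr rfl fun b _ => ?_
    have h1 : Matrix.single a b (A a b) = A a b • Matrix.single a b (1 : ZMod ℓ) := by
      rw [Matrix.smul_single, smul_eq_mul, mul_one]
    rw [h1, map_smul, Pi.smul_apply, smul_eq_mul, mul_comm]
  set U : Fin d → Matrix (Fin N) (Fin N) (MvPolynomial (Fin d) (ZMod ℓ)) :=
    fun i => UU (r (g i)) i with hU
  set P := ((List.finRange d).map U).prod with hP
  set f : Fin d → MvPolynomial (Fin d) (ZMod ℓ) := fun k =>
    ∑ a, ∑ b, C (w k a b) * (P - 1) a b with hf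
  -- linear part
  have hlin : ∀ k, f k - X k ∈ JJ (ZMod ℓ) d ^ 2 := by
    intro k
    set V : Fin d → Matrix (Fin N) (Fin N) (MvPolynomial (Fin d) (ZMod ℓ)) :=
      fun i => (X i : MvPolynomial (Fin d) (ZMod ℓ)) • (logM (r (g i))).map C with hV
    have h1 := (prod_mod (J := JJ (ZMod ℓ) d) (U := U) (V := V) (fun i a b => by
      show (X i : MvPolynomial (Fin d) (ZMod ℓ)) * (logM (r (g i))).map C a b ∈ _
      exact Ideal.mul_mem_right _ _ (X_mem_JJ i)) (fun i => UU_mod _ hN hN' i)
      (List.finRange d)).2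
    rw [← hP, ← Fin.sum_univ_def] at h1
    have h2 : X k = ∑ a, ∑ b, C (w k a b) * (∑ i, V i) a b := by
      have h3 : ∀ a b, C (w k a b) * (∑ i, V i) a b =
          ∑ i, X i * C (w k a b * logM (r (g i)) a b) := by
        intro a b
        rw [Matrix.sum_apply, Finset.mul_sum]
        refine Finset.sum_congr rfl fun i _ => ?_
        show C (w k a b) * (X i * C (logM (r (g i)) a b)) = _
        rw [C_mul]
        ring
      have h4 : ∑ a, ∑ b, C (w k a b) * (∑ i, V i) a b =
          ∑ i, X i * C (Ψ (logM (r (g i))) k) := by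
        simp only [h3]
        rw [Finset.sum_congr rfl fun a _ => Finset.sum_comm, Finset.sum_comm]
        refine Finset.sum_congr rfl fun i _ => ?_
        rw [← hΨw, map_sum, Finset.mul_sum]
        refine Finset.sum_congr rfl fun a _ => ?_
        rw [map_sum, Finset.mul_sum]
      rw [h4, Finset.sum_eq_single k]
      · rw [hΨ1, Pi.single_eq_same, C_1, mul_one]
      · intro i _ hik
        rw [hΨ1, Pi.single_eq_of_ne (Ne.symm hik), C_0, mul_zero]
      · intro h
        exact absurd (Finset.mem_univ _) h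
    have h3 : f k - X k = ∑ a, ∑ b, C (w k a b) * (P - 1 - ∑ i, V i) a b := by
      rw [h2, hf]
      simp only [Matrix.sub_apply, mul_sub, Finset.sum_sub_distrib]
    rw [h3]
    exact Ideal.sum_mem _ fun a _ => Ideal.sum_mem _ fun b _ => Ideal.mul_mem_left _ _ (h1 a b)
  -- degree
  have hdeg : ∀ k j, (f k).degreeOf j ≤ d * N + 1 := by
    intro k j
    rw [hf]
    refine (degreeOf_sum_le _ _ _).trans (Finset.sup_le fun a _ => ?_)
    refine (degreeOf_sum_le _ _ _).trans (Finset.sup_le fun b _ => ?_)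
    refine (degreeOf_C_mul_le _ _ _).trans ?_
    rw [Matrix.sub_apply, sub_eq_add_neg]
    refine (degreeOf_add_le _ _ _).trans (max_le ?_ ?_)
    · have := prod_degree (j := j) (fun i a b => UU_degree (r (g i)) i j a b) (List.finRange d) a b
      rw [List.length_finRange] at this
      exact this.trans (by omega)
    · rw [Matrix.one_apply]
      split_ifs
      · rw [← C_1, ← C_neg, degreeOf_C]; omega
      · rw [neg_zero, degreeOf_zero]; omega
  have hmain := card_le_image (δ := d * N + 1) (by omega) hlin hdeg (by rw [ZMod.card]; exact hℓ)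
  rw [ZMod.card] at hmain
  refine hmain.trans ?_
  refine Nat.mul_le_mul_left _ ?_
  haveI : Fintype (Set.range r) := Fintype.ofFinite _
  have h1 : (Finset.univ.image fun t : Fin d → ZMod ℓ => fun i => eval t (f i)) ⊆
      (Set.range r).toFinset.image fun A => fun k => Ψ (A - 1) k := by
    intro y hy
    obtain ⟨t, -, rfl⟩ := Finset.mem_image.1 hy
    rw [Finset.mem_image]
    refine ⟨P.map (eval t), ?_, ?_⟩
    · rw [Set.mem_toFinset]
      refine ⟨((List.finRange d).map fun i => g i ^ (t i).val).prod, ?_⟩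
      have h2 : P.map (eval t) = (eval t).mapMatrix P := rfl
      rw [map_list_prod, h2, hP, map_list_prod, List.map_map, List.map_map]
      congr 1
      refine List.map_congr_left fun i _ => ?_
      simp only [Function.comp_apply, map_pow]
      exact (UU_eval (hg i) hN' i t).symm
    · funext k
      rw [← hΨw, hf]
      simp only [map_sum, map_mul, eval_C]
      refine Finset.sum_congr rfl fun a _ => Finset.sum_congr rfl fun b _ => ?_
      rw [Matrix.sub_apply, Matrix.sub_apply, map_sub, Matrix.map_apply]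
      congr 2
      rw [Matrix.one_apply, Matrix.one_apply]
      split_ifs <;> simp
  refine (Finset.card_le_card h1).trans (Finset.card_image_le.trans ?_)
  rw [Set.toFinset_card, Nat.card_eq_fintype_card]

end

end Pool.Agent.R932
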