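import Pool.Agent.Y142.SV.Fin
import Pool.Agent.Y405.ZO.Frob
import Pool.Agent.Y484.ZI.IntRes
import Pool.Agent.Y726.ZI.Cheb
import Pool.Agent.Y681.ZI.Dens
import Pool.Agent.Y537.ZI.Multi
import Pool.Agent.Y614.ZD.Badd
import Pool.Agent.Y100.ZD.Sub
import Pool.Agent.Y255.SS.LF
import Pool.Agent.Y297.SS.CF
import Pool.Agent.Y708.SS.Loc
import Pool.Agent.Y936.SS.Logr
import Pool.Agent.Y518.SS.Krs
import Pool.Agent.Y737.SS.Chara
import Pool.Agent.Y932.SI.Subf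
import Pool.Agent.Y421.SI.EF
import Pool.Agent.Y641.SI.Trd
import Pool.Agent.Y949.SI.Ende
import Pool.Agent.Y708.ZO.Tan
import Pool.Agent.Y710.ZS.Tans
import Pool.Agent.Y246.SU.DCT
import Pool.Agent.Y154.SU.Coef
import Pool.Agent.Y794.SV.Rootv
import Pool.Agent.Y641.SV.Liev
import Pool.Agent.Y710.SV.Fftv
import Pool.Agent.Y79.SV.Fftdv
import Pool.Agent.Y314.SV.Perfv
import Pool.Agent.Y259.SV.Invv

/-!
# Full Lie algebra at a set of primes of density one, even dimension (no endomorphisms)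
-/

set_option autoImplicit false
set_option linter.style.haveILetI false
set_option linter.unusedSectionVars false

open Matrix Polynomial Filter Topology NumberField IsDedekindDomain
open Pool.Agent.Y142.ZO Pool.Agent.Y142.ZI
open Pool.Agent.Y142.ZS (NiceP GenP Sim)
open Pool.Agent.Y142.SS Pool.Agent.Y142.SI Pool.Agent.Y142.SU Pool.Agent.Y142.SV

namespace Pool.Agent.R932

variable {K : Type} [Field K] [NumberField K] {N : ℕ} {S : Set (HeightOneSpectrum (𝓞 K))}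
  {P : HeightOneSpectrum (𝓞 K) → ℚ[X]} {q : HeightOneSpectrum (𝓞 K) → ℚ}
  {Γ : Type} [Group Γ] [TopologicalSpace Γ] [IsTopologicalGroup Γ] [CompactSpace Γ]

/-- scalars -/
noncomputable def botScalar (ℓ : ℕ) [Fact ℓ.Prime] (N : ℕ) :
    (⊥ : IntermediateField ℚ QQ) →+* Matrix (Fin N) (Fin N) ℚ_[ℓ] :=
  ((algebraMap ℚ_[ℓ] (Matrix (Fin N) (Fin N) ℚ_[ℓ])).comp (algebraMap ℚ ℚ_[ℓ])).comp
    (IntermediateField.botEquiv ℚ QQ : (⊥ : IntermediateField ℚ QQ) →+* ℚ)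

theorem botScalar_apply (ℓ : ℕ) [Fact ℓ.Prime] (N : ℕ) (a : (⊥ : IntermediateField ℚ QQ)) :
    botScalar ℓ N a = (algebraMap ℚ ℚ_[ℓ] (IntermediateField.botEquiv ℚ QQ a)) • 1 := by
  show algebraMap ℚ_[ℓ] (Matrix (Fin N) (Fin N) ℚ_[ℓ]) _ = _
  rw [Algebra.algebraMap_eq_smul_one]
  rfl

theorem bot_trace (a : (⊥ : IntermediateField ℚ QQ)) :
    Algebra.trace ℚ (⊥ : IntermediateField ℚ QQ) a = IntermediateField.botEquiv ℚ QQ a := by
  have h1 : a = algebraMap ℚ (⊥ : IntermediateField ℚ QQ) (IntermediateField.botEquiv ℚ QQ a) := by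
    apply (IntermediateField.botEquiv ℚ QQ).injective
    exact ((IntermediateField.botEquiv ℚ QQ).commutes _).symm
  conv_lhs => rw [h1]
  rw [Algebra.trace_algebraMap, IntermediateField.finrank_bot, one_smul]

theorem normal_bot' : Normal ℚ (⊥ : IntermediateField ℚ QQ) :=
  Normal.of_algEquiv (IntermediateField.botEquiv ℚ QQ).symm

theorem ordE_bot (g : GK ℚ) : ordE (⊥ : IntermediateField ℚ QQ) g = 1 := by
  unfold ordE
  refine le_antisymm (Nat.sInf_le ⟨one_pos, ?_⟩) ?_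
  · intro a ha
    obtain ⟨b, rfl⟩ := IntermediateField.mem_bot.1 ha
    exact AlgEquiv.commutes _ _
  · exact (ordE_spec (⊥ : IntermediateField ℚ QQ) inferInstance g).1

theorem density_even (hN : 0 < N) (hS : S.Finite) (s : GK K →* Γ) (hs : Continuous s)
    (ρ : ∀ (ℓ : ℕ) [Fact ℓ.Prime], Γ →* Matrix (Fin N) (Fin N) ℚ_[ℓ])
    (hsys : ∀ (ℓ : ℕ) [Fact ℓ.Prime], GenSys K s N ℓ (ρ ℓ) S P)
    (J : ∀ (ℓ : ℕ) [Fact ℓ.Prime], Matrix (Fin N) (Fin N) ℚ_[ℓ])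
    (hJ : ∀ (ℓ : ℕ) [Fact ℓ.Prime], FormSys K s N ℓ (ρ ℓ) (J ℓ) S q)
    {w₀ : HeightOneSpectrum (𝓞 K)} (hw₀ : GenP S P q w₀)
    {m : ℕ} (u : Fin (m + 1) → HeightOneSpectrum (𝓞 K)) (hu : ∀ i, NiceP S P (u i))
    (hI : ∀ (g : GK ℚ) (d : ℕ), 0 < d → d < N →
      ∃ v, NiceP S P v ∧ ∃ w ∈ NoSet d (P v), w⁻¹ * g ∈ Subgroup.closure (⋃ i, Fix (P (u i))))
    (hII : ∀ g : GK ℚ, ∃ v, NiceP S P v ∧ ∃ w : GK ℚ, (∃ x : QQ, aeval x (P v) = 0 ∧ w x = x) ∧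
      w⁻¹ * g ∈ Subgroup.closure (⋃ i, Fix (P (u i)))) :
    Y142.ZI.DensityZero {ℓ | ∃ _ : Fact ℓ.Prime,
      ¬ ∀ X : Matrix (Fin N) (Fin N) ℚ_[ℓ], Xᵀ * J ℓ + J ℓ * X = 0 → IsTangent ℓ (ρ ℓ) X} := by
  -- the tasks
  have hFROB : Y142.ZO.S_FROB := Y405.ZO.t
  have hINT : Y142.ZI.S_INT := Y484.ZI.t1
  have hCHEB : Y142.ZI.S_CHEB := Y726.ZI.t1
  have hDENS2 : Y142.ZI.S_DENS2 := Y681.ZI.t hCHEB
  have hMULTI : Y142.ZI.S_MULTI := Y537.ZI.t
  have hLF : Y142.SS.S_LF := Y255.SS.t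
  have hCF : Y142.SS.S_CF := Y297.SS.t hLF
  have hLOC : Y142.SS.S_LOC := Y708.SS.Loc.t hCF
  have hLOGR : Y142.SS.S_LOGR := Y936.SS.t
  have hKRS : Y142.SS.S_KRS := Y518.SS.t
  have hCHARA : Y142.SS.S_CHARA := Y737.SS.Chara.t
  have hBADD : Y142.ZD.S_BADD := Y614.ZD.t
  have hSUB : Y142.ZD.S_SUB := Y100.ZD.t
  have hSUBF : Y142.SI.S_SUBF := Y932.SI.Subf.t hLF hCF
  have hEF : Y142.SI.S_EF := Y421.SI.EF.t hLOC
  have hTRD : Y142.SI.S_TRD := Y641.SI.t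
  have hENDE : Y142.SI.S_ENDE := Y949.SI.t
  have hTAN : Y142.ZO.S_TAN := Y708.ZO.t
  have hTANS : Y142.ZS.S_TANS := Y710.ZS.t1
  have hDCT : Y142.SU.S_DCT := Y246.SU.DCT.t
  have hROOTV : Y142.SV.S_ROOTV := Y794.SV.t_rootv
  have hLIEV : Y142.SV.S_LIEV := Y641.SV.t hROOTV
  have hFFTV : Y142.SV.S_FFTV := Y710.SV.t
  have hFFTDV : Y142.SV.S_FFTDV := Y79.SV.t hFFTV
  have hPERFV : Y142.SV.S_PERFV := Y314.SV.t_PERFV
  have hINVV : Y142.SV.S_INVV := Y259.SV.t hPERFV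
  have hCOEF : Y142.SU.S_COEF := Y154.SU.t_COEF
  have hsys' : ∀ (ℓ : ℕ) [Fact ℓ.Prime], Sys K N ℓ ((ρ ℓ).comp s) S P := fun ℓ _ =>
    ⟨(hsys ℓ).1.comp hs, fun v hv hvℓ σ hσ => (hsys ℓ).2 v hv hvℓ σ hσ⟩
  have htr : ∀ (ℓ : ℕ) [Fact ℓ.Prime] (a : (⊥ : IntermediateField ℚ QQ)),
      (botScalar ℓ N a).trace =
        (N : ℚ_[ℓ]) * ((Algebra.trace ℚ (⊥ : IntermediateField ℚ QQ) a : ℚ) : ℚ_[ℓ]) := by
    intro ℓ _ a
    rw [botScalar_apply, Matrix.trace_smul, Matrix.trace_one, Fintype.card_fin, bot_trace,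
      smul_eq_mul, mul_comm]
    rfl
  refine Y142.ZI.DensityZero.mono (densitySV hTAN hTANS hDCT hLIEV hFFTDV hINVV hCOEF hLOC
    hLOGR hKRS hCHARA hMULTI hFROB hINT hDENS2 hBADD hSUB hSUBF hEF hTRD hENDE hS s hs ρ hsys
    (⊥ : IntermediateField ℚ QQ) inferInstance normal_bot' N hN
    (by rw [IntermediateField.finrank_bot, mul_one]) (fun ℓ _ => botScalar ℓ N)
    (fun ℓ _ a γ => by
      rw [botScalar_apply, smul_mul_assoc, mul_smul_comm, one_mul, mul_one])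
    htr J hJ (fun ℓ _ a => by
      rw [botScalar_apply, Matrix.transpose_smul, Matrix.transpose_one, smul_mul_assoc,
        mul_smul_comm, one_mul, mul_one]) hw₀ u hu ?_ ?_) ?_
  · intro g d hd hdN _
    exact hI g d hd hdN
  · intro g
    obtain ⟨v, hv, w, ⟨x, hx, hwx⟩, hw⟩ := hII g
    refine ⟨v, hv, w, fun R hR hne hst hdiv => ?_, hw⟩
    rw [ordE_bot, mul_one] at hdiv
    rw [ordE_bot, pow_one]
    have hfin : (P v).rootSet QQ = {x : QQ | aeval x (P v) = 0} := by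
      ext y
      exact mem_rootSet_of_ne hv.2.1.ne_zero
    have hcard : {x : QQ | aeval x (P v) = 0}.ncard = N := by
      rw [← hfin, ← Nat.card_coe_set_eq, Nat.card_eq_fintype_card]
      rw [card_rootSet_eq_natDegree hv.2.2.1 (IsAlgClosed.splits _)]
      exact (monic_of_sysA (fun ℓ _ => (ρ ℓ).comp s) hsys' hv.1).2
    have hsub : R ⊆ {x : QQ | aeval x (P v) = 0} := hR
    have hfinite : {x : QQ | aeval x (P v) = 0}.Finite := by
      rw [← hfin]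
      exact rootSet_finite _ _
    have hRN : R.ncard = N := by
      have h1 := Set.ncard_le_ncard hsub hfinite
      have h2 : 0 < R.ncard := (Set.ncard_pos (hfinite.subset hsub)).2 hne
      rw [hcard] at h1
      exact le_antisymm h1 (Nat.le_of_dvd h2 hdiv)
    have hRall : R = {x : QQ | aeval x (P v) = 0} :=
      Set.eq_of_subset_of_ncard_le hsub (by rw [hRN, hcard]) hfinite
    exact ⟨x, by rw [hRall]; exact hx, hwx⟩
  · rintro ℓ ⟨hp, hno⟩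
    refine ⟨hp, fun hgood => hno ?_⟩
    intro X hX
    have hspan := (hCOEF ℓ N N (⊥ : IntermediateField ℚ QQ) inferInstance hN (botScalar ℓ N)
      (htr ℓ)).2.2.1
    refine hgood.1 X (lieV_of (botScalar ℓ N) hspan (fun a => ?_) hX)
    rw [botScalar_apply, smul_mul_assoc, mul_smul_comm, one_mul, mul_one]

end Pool.Agent.R932
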