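import Pool.Agent.R932.FftSo

/-!
# The first fundamental theorem for the orthogonal Lie algebra in all degrees, for multilinear forms
-/

set_option autoImplicit false
set_option linter.unusedSectionVars false

namespace Pool.Agent.R932

open Matrix Finset Module Function
open Pool.Agent.Y142.ZO (bil wedge wedge_mulVec bil_symm)
open Pool.Agent.Y155.ZI (exists_basis Tσ Tσ_apply bil_toBilin)
open Pool.Agent.Y100.ZS (mate mate_mate mate_ne)
open Pool.Agent.TH125.Nod (Inv gen Gen)

section tdet

variable {K V : Type} [Field K] [AddCommGroup V] [Module K V] {m r k : ℕ}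

/-- the factor of a pair, one vector removed -/
def lf (b : V →ₗ[K] V →ₗ[K] K) (v : Fin k → V) (e : (Fin m × Fin 2) ⊕ Fin r ≃ Fin k) (l : Fin m)
    (t : Fin 2) (x : V) : K :=
  if t = 0 then b x (v (e (Sum.inl (l, 1)))) else b (v (e (Sum.inl (l, 0)))) x

theorem lf_add (b : V →ₗ[K] V →ₗ[K] K) (v : Fin k → V) (e : (Fin m × Fin 2) ⊕ Fin r ≃ Fin k)
    (l : Fin m) (t : Fin 2) (x y : V) : lf b v e l t (x + y) = lf b v e l t x + lf b v e l t y := by
  unfold lf
  split_ifs
  · rw [map_add, LinearMap.add_apply]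
  · rw [map_add]

theorem lf_smul (b : V →ₗ[K] V →ₗ[K] K) (v : Fin k → V) (e : (Fin m × Fin 2) ⊕ Fin r ≃ Fin k)
    (l : Fin m) (t : Fin 2) (c : K) (x : V) : lf b v e l t (c • x) = c * lf b v e l t x := by
  unfold lf
  split_ifs
  · rw [map_smul, LinearMap.smul_apply, smul_eq_mul]
  · rw [map_smul, smul_eq_mul]

theorem pairs_inl (b : V →ₗ[K] V →ₗ[K] K) (v : Fin k → V) (e : (Fin m × Fin 2) ⊕ Fin r ≃ Fin k)
    (l : Fin m) (t : Fin 2) (x : V) :
    ∏ l', b (update v (e (Sum.inl (l, t))) x (e (Sum.inl (l', 0))))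
      (update v (e (Sum.inl (l, t))) x (e (Sum.inl (l', 1)))) =
      lf b v e l t x * ∏ l' ∈ univ.erase l, b (v (e (Sum.inl (l', 0)))) (v (e (Sum.inl (l', 1)))) := by
  have hne : ∀ (l' : Fin m) (t' : Fin 2), (l', t') ≠ (l, t) →
      update v (e (Sum.inl (l, t))) x (e (Sum.inl (l', t'))) = v (e (Sum.inl (l', t'))) := by
    intro l' t' h
    rw [update_of_ne]
    intro h'
    exact h (Sum.inl_injective (e.injective h'))
  rw [← mul_prod_erase _ _ (mem_univ l)]
  congr 1
  · unfold lf
    have ht : t = 0 ∨ t = 1 := by fin_cases t <;> simp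
    rcases ht with rfl | rfl
    · rw [if_pos rfl, update_self, hne l 1 (by simp)]
    · rw [if_neg (by simp), update_self, hne l 0 (by simp)]
  · refine prod_congr rfl fun l' hl' => ?_
    have h1 : l' ≠ l := (mem_erase.1 hl').1
    rw [hne l' 0 (fun h => h1 (congrArg Prod.fst h)), hne l' 1 (fun h => h1 (congrArg Prod.fst h))]

theorem pairs_inr (b : V →ₗ[K] V →ₗ[K] K) (v : Fin k → V) (e : (Fin m × Fin 2) ⊕ Fin r ≃ Fin k)
    (i : Fin r) (x : V) :
    ∏ l', b (update v (e (Sum.inr i)) x (e (Sum.inl (l', 0))))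
      (update v (e (Sum.inr i)) x (e (Sum.inl (l', 1)))) =
      ∏ l', b (v (e (Sum.inl (l', 0)))) (v (e (Sum.inl (l', 1)))) := by
  have hne : ∀ p, update v (e (Sum.inr i)) x (e (Sum.inl p)) = v (e (Sum.inl p)) := by
    intro p
    rw [update_of_ne]
    intro h
    exact absurd (e.injective h) (by simp)
  exact prod_congr rfl fun l' _ => by rw [hne, hne]

theorem det_inl (v : Fin k → V) (e : (Fin m × Fin 2) ⊕ Fin r ≃ Fin k)
    (p : Fin m × Fin 2) (x : V) :
    (fun i => update v (e (Sum.inl p)) x (e (Sum.inr i))) = fun i => v (e (Sum.inr i)) := by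
  funext i
  rw [update_of_ne]
  intro h
  exact absurd (e.injective h) (by simp)

theorem det_inr (v : Fin k → V) (e : (Fin m × Fin 2) ⊕ Fin r ≃ Fin k)
    (i₀ : Fin r) (x : V) :
    (fun i => update v (e (Sum.inr i₀)) x (e (Sum.inr i))) =
      update (fun i => v (e (Sum.inr i))) i₀ x := by
  funext i
  by_cases h : i = i₀
  · rw [h, update_self, update_self]
  · rw [update_of_ne h, update_of_ne]
    intro h'
    exact h (Sum.inr_injective (e.injective h'))

/-- a multilinear form in some variables times products over pairs -/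
def TD (b : V →ₗ[K] V →ₗ[K] K) (D : MultilinearMap K (fun _ : Fin r => V) K)
    (e : (Fin m × Fin 2) ⊕ Fin r ≃ Fin k) : MultilinearMap K (fun _ : Fin k => V) K where
  toFun v := D (fun i => v (e (Sum.inr i))) *
    ∏ l, b (v (e (Sum.inl (l, 0)))) (v (e (Sum.inl (l, 1))))
  map_update_add' := by
    intro inst v i x y
    have hinst : inst = instDecidableEqFin k := Subsingleton.elim _ _
    subst hinst
    obtain ⟨z, rfl⟩ := e.surjective i
    rcases z with ⟨l, t⟩ | i₀
    · rw [det_inl, det_inl, det_inl, pairs_inl, pairs_inl, pairs_inl, lf_add]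
      ring
    · rw [det_inr, det_inr, det_inr, pairs_inr, pairs_inr, pairs_inr, D.map_update_add]
      ring
  map_update_smul' := by
    intro inst v i c x
    have hinst : inst = instDecidableEqFin k := Subsingleton.elim _ _
    subst hinst
    obtain ⟨z, rfl⟩ := e.surjective i
    rcases z with ⟨l, t⟩ | i₀
    · rw [det_inl, det_inl, pairs_inl, pairs_inl, lf_smul, smul_eq_mul]
      ring
    · rw [det_inr, det_inr, pairs_inr, pairs_inr, D.map_update_smul, smul_eq_mul, smul_eq_mul]
      ring

theorem TD_apply (b : V →ₗ[K] V →ₗ[K] K) (D : MultilinearMap K (fun _ : Fin r => V) K)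
    (e : (Fin m × Fin 2) ⊕ Fin r ≃ Fin k) (v : Fin k → V) :
    TD b D e v = D (fun i => v (e (Sum.inr i))) *
      ∏ l, b (v (e (Sum.inl (l, 0)))) (v (e (Sum.inl (l, 1)))) := rfl

end tdet

section alg

variable {K : Type} [Field K] {r : ℕ}

/-- determinants times products of values of the form -/
def dts (B : Matrix (Fin r) (Fin r) K) (k : ℕ) : Set ((Fin k → Fin r → K) → K) :=
  {f | ∃ (m : ℕ) (e : (Fin m × Fin 2) ⊕ Fin r ≃ Fin k), ∀ v,
    f v = (Matrix.of fun i => v (e (Sum.inr i))).det *
      ∏ l, (v (e (Sum.inl (l, 0))) ⬝ᵥ B *ᵥ v (e (Sum.inl (l, 1))))}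

/-- **The first fundamental theorem for the orthogonal Lie algebra, all degrees.** -/
theorem fft_all [CharZero K] {k : ℕ} (B : Matrix (Fin r) (Fin r) K)
    (hB : Bᵀ = B) (hdet : B.det ≠ 0) (φ : MultilinearMap K (fun _ : Fin k => (Fin r → K)) K)
    (hφ : ∀ (a b : Fin r → K) (v : Fin k → Fin r → K),
      ∑ j, φ (Function.update v j (wedge B a b *ᵥ v j)) = 0) :
    (fun v => φ v) ∈ Submodule.span K (prs B k ∪ dts B k) := by
  classical
  obtain ⟨q, hq1, hq2⟩ := exists_basis B hB hdet
  let Q : Matrix (Fin r) (Fin r) K := Matrix.of fun a b => bil B (q a) (q b)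
  let R : Matrix (Fin r) (Fin r) K := Matrix.diagonal fun a => (bil B (q a) (q a))⁻¹
  have hQd : Q = Matrix.diagonal fun a => bil B (q a) (q a) := by
    ext a b
    show bil B (q a) (q b) = _
    by_cases h : a = b
    · rw [h, Matrix.diagonal_apply_eq]
    · rw [Matrix.diagonal_apply_ne _ h, hq1 a b h]
  have hQR : Q * R = 1 := by
    rw [hQd, Matrix.diagonal_mul_diagonal, ← Matrix.diagonal_one]
    congr 1
    funext a
    exact mul_inv_cancel₀ (hq2 a)
  have hQs : ∀ a b, Q a b = Q b a := fun a b => bil_symm hB _ _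
  have hrel : ∀ (u v : Fin r → K) (m : Fin k → Fin r → K),
      ∑ j, bil B u (m j) * φ (Function.update m j v) =
        ∑ j, bil B v (m j) * φ (Function.update m j u) := by
    intro u v m
    have h := hφ u v m
    have h1 : ∀ j, φ (Function.update m j (wedge B u v *ᵥ m j)) =
        bil B u (m j) * φ (Function.update m j v) - bil B v (m j) * φ (Function.update m j u) := by
      intro j
      rw [wedge_mulVec, MultilinearMap.map_update_sub, MultilinearMap.map_update_smul,
        MultilinearMap.map_update_smul, smul_eq_mul, smul_eq_mul]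
    rw [Finset.sum_congr rfl fun j _ => h1 j, Finset.sum_sub_distrib] at h
    exact sub_eq_zero.1 h
  let f : (Fin k → Fin r) → K := fun I => φ fun j => q (I j)
  have hinv : Inv (fun _ : Fin r => ()) Q (fun _ => 1) f := by
    intro u v _ I
    have h := hrel (q v) (q u) (fun j => q (I j))
    have h2 : ∀ (j : Fin k) (x : Fin r), Function.update (fun j => q (I j)) j (q x) =
        fun i => q (Function.update I j x i) := by
      intro j x
      exact (Function.comp_update q I j x).symm
    simp only [h2] at h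
    rw [Finset.sum_sub_distrib, sub_eq_zero]
    refine Eq.trans ?_ (h.trans ?_)
    · exact Finset.sum_congr rfl fun j _ => rfl
    · refine Finset.sum_congr rfl fun j _ => ?_
      rw [one_mul]
      rfl
  have hkey := fftSO hQs hQR k (Fin k) f (Fintype.card_fin k) hinv
  -- evaluation on the basis
  let evq : MultilinearMap K (fun _ : Fin k => (Fin r → K)) K →ₗ[K] ((Fin k → Fin r) → K) :=
    { toFun := fun T J => T (fun j => q (J j))
      map_add' := fun _ _ => rfl
      map_smul' := fun _ _ => rfl }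
  have hinj : Function.Injective evq := by
    intro T T' h
    exact Basis.ext_multilinear (fun _ => q) fun J => congrFun h J
  let eve : MultilinearMap K (fun _ : Fin k => (Fin r → K)) K →ₗ[K] ((Fin k → Fin r → K) → K) :=
    { toFun := fun T v => T v
      map_add' := fun _ _ => rfl
      map_smul' := fun _ _ => rfl }
  let DD : MultilinearMap K (fun _ : Fin r => (Fin r → K)) K :=
    (Matrix.detRowAlternating (n := Fin r) (R := K)).toMultilinearMap
  have hDD : ∀ v : Fin r → Fin r → K, DD v = (Matrix.of v).det := fun v => rfl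
  -- the determinant of the basis
  let q0 : K := (Matrix.of fun i => q i).det
  have hq0 : q0 ≠ 0 := by
    intro h0
    obtain ⟨c, hc0, hc⟩ := Matrix.exists_vecMul_eq_zero_iff.2 h0
    apply hc0
    have h1 : ∑ i, c i • q i = 0 := by
      rw [← hc]
      funext j
      rw [Finset.sum_apply, Matrix.vecMul, dotProduct]
      exact Finset.sum_congr rfl fun i _ => rfl
    exact funext fun i => (Fintype.linearIndependent_iff.1 q.linearIndependent) c h1 i
  have hdetq : ∀ y : Fin r → Fin r, (Matrix.of fun i => q (y i)).det =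
      (Matrix.of fun a b : Fin r => if y a = b then (1 : K) else 0).det * q0 := by
    intro y
    rw [← Matrix.det_mul]
    congr 1
    ext a b
    rw [Matrix.mul_apply, Finset.sum_eq_single (y a)]
    · rw [Matrix.of_apply, Matrix.of_apply, Matrix.of_apply, if_pos rfl, one_mul]
    · intro c _ hc
      rw [Matrix.of_apply, if_neg (Ne.symm hc), zero_mul]
    · intro h
      exact absurd (mem_univ _) h
  let GG : Set (MultilinearMap K (fun _ : Fin k => (Fin r → K)) K) :=
    {T | (∃ (σ : Fin k → Fin k) (h1 : ∀ j, σ (σ j) = j) (h2 : ∀ j, σ j ≠ j),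
      T = Tσ (Matrix.toBilin' B) σ h1 h2) ∨
      ∃ (m : ℕ) (e : (Fin m × Fin 2) ⊕ Fin r ≃ Fin k), T = TD (Matrix.toBilin' B) DD e}
  have h1 : evq φ ∈ (Submodule.span K GG).map evq := by
    have hle : Gen (M := K) (fun _ : Fin r => ()) Q (fun _ : Fin k => ()) ≤
        (Submodule.span K GG).map evq := by
      unfold Gen
      rw [Submodule.span_le]
      rintro _ ⟨m, e, w, rfl⟩
      obtain ⟨s', hs'⟩ := Pool.Agent.Y710.SV.prod_pairs (F := K) e
        (fun a b : Fin r → K => bil B a b) 1 (fun x y => by rw [one_mul]; exact bil_symm hB _ _)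
      refine ⟨(w * s') • Tσ (Matrix.toBilin' B) (mate e) (mate_mate e) (mate_ne e),
        Submodule.smul_mem _ _ (Submodule.subset_span (Or.inl ⟨_, mate_mate e, mate_ne e, rfl⟩)),
        ?_⟩
      funext I
      unfold gen
      rw [if_pos (fun _ => rfl)]
      have h3 := hs' fun j => q (I j)
      show (w * s') * Tσ (Matrix.toBilin' B) (mate e) (mate_mate e) (mate_ne e)
        (fun j => q (I j)) = (∏ l, Q (I (e (l, 0))) (I (e (l, 1)))) • w
      rw [Tσ_apply, smul_eq_mul]
      have h4 : ∏ l, Q (I (e (l, 0))) (I (e (l, 1))) =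
          ∏ l, bil B (q (I (e (l, 0)))) (q (I (e (l, 1)))) := rfl
      rw [h4, h3]
      have h5 : ∀ j, (Matrix.toBilin' B) (q (I j)) (q (I (mate e j))) =
          bil B (q (I j)) (q (I (mate e j))) := fun j => bil_toBilin B _ _
      rw [Finset.prod_congr rfl fun j _ => h5 j]
      ring
    have hle2 : DetGen Q (Fin k) ≤ (Submodule.span K GG).map evq := by
      unfold DetGen
      rw [Submodule.span_le]
      rintro _ ⟨m, e, w, rfl⟩
      refine ⟨(w * q0⁻¹) • TD (Matrix.toBilin' B) DD e,
        Submodule.smul_mem _ _ (Submodule.subset_span (Or.inr ⟨m, e, rfl⟩)), ?_⟩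
      funext I
      show (w * q0⁻¹) * TD (Matrix.toBilin' B) DD e (fun j => q (I j)) = _
      rw [TD_apply, hDD, hdetq fun i => I (e (Sum.inr i))]
      have h5 : ∀ l, (Matrix.toBilin' B) (q (I (e (Sum.inl (l, 0))))) (q (I (e (Sum.inl (l, 1))))) =
          Q (I (e (Sum.inl (l, 0)))) (I (e (Sum.inl (l, 1)))) := fun j => bil_toBilin B _ _
      rw [Finset.prod_congr rfl fun j _ => h5 j]
      field_simp
    exact (sup_le hle hle2) hkey
  obtain ⟨T, hT, hT'⟩ := h1
  have h2 : φ ∈ Submodule.span K GG := by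
    rw [← hinj hT']
    exact hT
  have h3 : eve φ ∈ (Submodule.span K GG).map eve := Submodule.mem_map_of_mem h2
  rw [Submodule.map_span] at h3
  refine Submodule.span_mono ?_ h3
  rintro _ ⟨_, (⟨σ, hσ1, hσ2, rfl⟩ | ⟨m, e, rfl⟩), rfl⟩
  · left
    refine ⟨Function.Involutive.toPerm σ hσ1, hσ1, hσ2, fun v => ?_⟩
    refine (Tσ_apply (Matrix.toBilin' B) σ hσ1 hσ2 _).trans ?_
    refine prod_congr rfl fun j _ => ?_
    exact bil_toBilin B _ _
  · right
    refine ⟨m, e, fun v => ?_⟩
    refine (TD_apply (Matrix.toBilin' B) DD e _).trans ?_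
    rw [hDD]
    congr 1
    exact prod_congr rfl fun j _ => bil_toBilin B _ _

end alg

end Pool.Agent.R932
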