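import Pool.Agent.R932.ProdB
import Pool.Agent.R932.Even

/-!
# Equivariant multilinear maps come from the form
-/

set_option autoImplicit false
set_option linter.unusedSectionVars false

namespace Pool.Agent.R932

open Matrix Filter Topology
open Pool.Agent.Y142.ZO (IsTangent)
open Pool.Agent.Y142.ZS (Sim)
open Pool.Agent.Y142.SU (FromHerm fromHerm_le)
open Pool.Agent.Y142.SV (LieV Selfadj)

noncomputable section

section alg

variable {F : Type} [Field F] {N L k : ℕ}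

/-- the products of values of the form -/
def prs (J : Matrix (Fin N) (Fin N) F) (k : ℕ) : Set ((Fin k → Fin N → F) → F) :=
  {f | ∃ π : Equiv.Perm (Fin k), (∀ j, π (π j) = j) ∧ (∀ j, π j ≠ j) ∧
    ∀ v, f v = ∏ j with j < π j, (v j ⬝ᵥ J *ᵥ v (π j))}

theorem card_half {π : Equiv.Perm (Fin k)} (h1 : ∀ j, π (π j) = j) (h2 : ∀ j, π j ≠ j) :
    (Finset.univ.filter fun j : Fin k => j < π j).card = k / 2 := by
  have h3 : (Finset.univ.filter fun j : Fin k => j < π j).card =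
      (Finset.univ.filter fun j : Fin k => ¬ j < π j).card := by
    refine Finset.card_bij (fun j _ => π j) ?_ ?_ ?_
    · intro j hj
      rw [Finset.mem_filter] at hj ⊢
      refine ⟨Finset.mem_univ _, ?_⟩
      rw [h1]
      exact not_lt.2 hj.2.le
    · intro a _ b _ hab
      exact π.injective hab
    · intro b hb
      rw [Finset.mem_filter] at hb
      refine ⟨π b, ?_, h1 b⟩
      rw [Finset.mem_filter]
      refine ⟨Finset.mem_univ _, ?_⟩
      rw [h1]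
      exact lt_of_le_of_ne (not_lt.1 hb.2) (h2 b)
  have h4 := Finset.card_filter_add_card_filter_not (s := (Finset.univ : Finset (Fin k)))
    (fun j : Fin k => j < π j)
  rw [Finset.card_univ, Fintype.card_fin] at h4
  omega

theorem prs_sim {J g : Matrix (Fin N) (Fin N) F} {c : F} (hc : Sim J g c)
    {f : (Fin k → Fin N → F) → F} (hf : f ∈ prs J k) (v : Fin k → Fin N → F) :
    f (fun j => g *ᵥ v j) = c ^ (k / 2) * f v := by
  obtain ⟨π, h1, h2, h3⟩ := hf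
  rw [h3, h3]
  have h4 : ∀ a b : Fin N → F, (g *ᵥ a) ⬝ᵥ J *ᵥ (g *ᵥ b) = c * (a ⬝ᵥ J *ᵥ b) := by
    intro a b
    have h5 : (g *ᵥ a) ⬝ᵥ J *ᵥ (g *ᵥ b) = a ⬝ᵥ (gᵀ * J * g) *ᵥ b := by
      rw [← Matrix.mulVec_mulVec, ← Matrix.mulVec_mulVec, Matrix.dotProduct_mulVec a,
        Matrix.vecMul_transpose]
    rw [h5, hc, Matrix.smul_mulVec, dotProduct_smul, smul_eq_mul]
  rw [Finset.prod_congr rfl fun j _ => h4 _ _, Finset.prod_mul_distrib, Finset.prod_const,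
    card_half h1 h2]

/-- the coefficients are Tate vectors -/
theorem extract {Γ : Type} {U : Set Γ} {J : Matrix (Fin N) (Fin N) F}
    {ρ : Γ → Matrix (Fin N) (Fin N) F} {W : Γ → Matrix (Fin L) (Fin L) F} {c : Γ → F}
    (hc : ∀ σ ∈ U, Sim J (ρ σ) (c σ))
    {φ : (Fin k → Fin N → F) → (Fin L → F)}
    (hφ : ∀ σ ∈ U, ∀ v, φ (fun j => ρ σ *ᵥ v j) = W σ *ᵥ φ v)
    (hspan : ∀ i, (fun v => φ v i) ∈ Submodule.span F (prs J k)) :
    φ ∈ Submodule.span F {ψ : (Fin k → Fin N → F) → (Fin L → F) |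
      ∃ (π : Equiv.Perm (Fin k)) (w : Fin L → F), (∀ j, π (π j) = j) ∧ (∀ j, π j ≠ j) ∧
        (∀ σ ∈ U, W σ *ᵥ w = (c σ) ^ (k / 2) • w) ∧
        ∀ v, ψ v = (∏ j with j < π j, (v j ⬝ᵥ J *ᵥ v (π j))) • w} := by
  classical
  obtain ⟨b, hb, hbs, hli⟩ := exists_linearIndependent F (prs J k)
  rw [← hbs] at hspan
  have h1 : ∀ i, ∃ a : b →₀ F, Finsupp.linearCombination F
      (fun x : b => (x : (Fin k → Fin N → F) → F)) a =
      (fun v => φ v i) := by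
    intro i
    have h2 := hspan i
    rw [← Subtype.range_coe (s := b), Finsupp.mem_span_range_iff_exists_finsupp] at h2
    obtain ⟨a, ha⟩ := h2
    exact ⟨a, ha⟩
  choose a ha using h1
  have hT : ∀ σ ∈ U, ∀ i v, φ (fun j => ρ σ *ᵥ v j) i = (c σ) ^ (k / 2) * φ v i := by
    intro σ hσ i
    let T : Submodule F ((Fin k → Fin N → F) → F) :=
      { carrier := {f | ∀ v, f (fun j => ρ σ *ᵥ v j) = (c σ) ^ (k / 2) * f v}
        zero_mem' := fun v => by simp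
        add_mem' := fun {f g} hf hg v => by
          rw [Pi.add_apply, Pi.add_apply, hf v, hg v, mul_add]
        smul_mem' := fun z f hf v => by
          rw [Pi.smul_apply, Pi.smul_apply, hf v, smul_eq_mul, smul_eq_mul, mul_left_comm] }
    have h2 : Submodule.span F b ≤ T := by
      rw [Submodule.span_le]
      intro f hf v
      exact prs_sim (hc σ hσ) (hb hf) v
    exact h2 (hspan i)
  have hrel : ∀ σ ∈ U, ∀ f : b, W σ *ᵥ (fun i => a i f) = (c σ) ^ (k / 2) • fun i => a i f := by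
    intro σ hσ f
    funext i
    have h2 : ∑ j, W σ i j • a j = (c σ) ^ (k / 2) • a i := by
      apply hli
      rw [map_sum, map_smul]
      have h3 : ∀ j, Finsupp.linearCombination F (fun x : b => (x : (Fin k → Fin N → F) → F))
          (W σ i j • a j) = W σ i j • fun v => φ v j := by
        intro j
        rw [map_smul]
        congr 1
        exact ha j
      rw [Finset.sum_congr rfl fun j _ => h3 j]
      have h4 : (Finsupp.linearCombination F (fun x : b => (x : (Fin k → Fin N → F) → F))) (a i) =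
          fun v => φ v i := ha i
      rw [h4]
      funext v
      rw [Finset.sum_apply]
      have h5 := hT σ hσ i v
      rw [hφ σ hσ v] at h5
      rw [Pi.smul_apply, smul_eq_mul, ← h5]
      rfl
    have h6 := DFunLike.congr_fun h2 f
    rw [Finsupp.finsetSum_apply] at h6
    rw [Pi.smul_apply, smul_eq_mul]
    exact h6
  have hsum : φ = ∑ f ∈ Finset.univ.biUnion fun i => (a i).support,
      fun v => (f : (Fin k → Fin N → F) → F) v • fun i => a i f := by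
    funext v i
    rw [Finset.sum_apply, Finset.sum_apply]
    have h2 := congrFun (ha i) v
    have h3 : Finsupp.linearCombination F (fun x : b => (x : (Fin k → Fin N → F) → F)) (a i) =
        ∑ f ∈ Finset.univ.biUnion fun i => (a i).support, a i f • (f : (Fin k → Fin N → F) → F) := by
      rw [Finsupp.linearCombination_apply]
      exact Finsupp.sum_of_support_subset (a i)
        (Finset.subset_biUnion_of_mem (fun i => (a i).support) (Finset.mem_univ i)) _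
        (fun x _ => zero_smul _ _)
    rw [← h2, h3, Finset.sum_apply]
    refine Finset.sum_congr rfl fun f _ => ?_
    rw [Pi.smul_apply, Pi.smul_apply, smul_eq_mul, smul_eq_mul, mul_comm]
  rw [hsum]
  refine Submodule.sum_mem _ fun f _ => Submodule.subset_span ?_
  obtain ⟨π, h1, h2, h3⟩ := hb f.2
  exact ⟨π, fun i => a i f, h1, h2, fun σ hσ => hrel σ hσ f, fun v => by
    show f.1 v • _ = _
    rw [h3]⟩

end alg

section fft

variable {ℓ : ℕ} [Fact ℓ.Prime] {N L k : ℕ}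

theorem fft {J : Matrix (Fin N) (Fin N) ℚ_[ℓ]} (hJ : Jᵀ = J ∨ Jᵀ = -J) (hdet : J.det ≠ 0)
    (hN : 0 < N) (hk : k < N ∨ Jᵀ = -J)
    (φ : MultilinearMap ℚ_[ℓ] (fun _ : Fin k => Fin N → ℚ_[ℓ]) ℚ_[ℓ])
    (hφ : ∀ X, Xᵀ * J + J * X = 0 → ∀ v : Fin k → Fin N → ℚ_[ℓ],
      ∑ j, φ (Function.update v j (X *ᵥ v j)) = 0) :
    (fun v => φ v) ∈ Submodule.span ℚ_[ℓ] (prs J k) := by
  have hFFTV : Y142.SV.S_FFTV := Y710.SV.t
  have hFFTDV : Y142.SV.S_FFTDV := Y79.SV.t hFFTV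
  have hCOEF : Y142.SU.S_COEF := Y154.SU.t_COEF
  have htr : ∀ a : (⊥ : IntermediateField ℚ Y142.ZI.QQ),
      (botScalar ℓ N a).trace =
        (N : ℚ_[ℓ]) * ((Algebra.trace ℚ (⊥ : IntermediateField ℚ Y142.ZI.QQ) a : ℚ) : ℚ_[ℓ]) := by
    intro a
    rw [botScalar_apply, Matrix.trace_smul, Matrix.trace_one, Fintype.card_fin, bot_trace,
      smul_eq_mul, mul_comm]
    rfl
  obtain ⟨h1, h2, h3, h4⟩ := hCOEF ℓ N N (⊥ : IntermediateField ℚ Y142.ZI.QQ) inferInstance hN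
    (botScalar ℓ N) htr
  have hself : Selfadj J (Algebra.adjoin ℚ_[ℓ] (Set.range (botScalar ℓ N))) := by
    refine ⟨hJ, hdet, h1, fun A hA => ?_⟩
    have hA' := h3 A hA
    clear hA
    induction hA' using Submodule.span_induction with
    | mem x hx =>
      obtain ⟨a, rfl⟩ := hx
      rw [botScalar_apply, Matrix.transpose_smul, Matrix.transpose_one, smul_mul_assoc,
        mul_smul_comm, one_mul, mul_one]
    | zero => rw [Matrix.transpose_zero, zero_mul, mul_zero]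
    | add x y _ _ hx hy => rw [Matrix.transpose_add, add_mul, mul_add, hx, hy]
    | smul c x _ hx => rw [Matrix.transpose_smul, smul_mul_assoc, mul_smul_comm, hx]
  have h5 := hFFTDV ℓ N N J _ hself h2 h4 k φ hk (fun X hX => hφ X hX.2)
  have h6 := fromHerm_le (botScalar ℓ N) h3 k h5
  refine (Submodule.span_le.2 ?_) h6
  rintro f ⟨π, a, e1, e2, e3⟩
  have h7 : f = (∏ j with j < π j, (algebraMap ℚ ℚ_[ℓ] (IntermediateField.botEquiv ℚ _ (a j)))) •
      fun v => ∏ j with j < π j, (v j ⬝ᵥ J *ᵥ v (π j)) := by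
    funext v
    rw [e3, Pi.smul_apply, smul_eq_mul, ← Finset.prod_mul_distrib]
    refine Finset.prod_congr rfl fun j _ => ?_
    rw [botScalar_apply, Matrix.smul_mulVec, Matrix.one_mulVec, smul_dotProduct, smul_eq_mul]
  rw [SetLike.mem_coe, h7]
  exact Submodule.smul_mem _ _ (Submodule.subset_span ⟨π, e1, e2, fun v => rfl⟩)

end fft

section main

variable {ℓ : ℕ} [Fact ℓ.Prime] {N L k : ℕ} {Γ : Type} [Group Γ]
  [TopologicalSpace Γ] [IsTopologicalGroup Γ] [CompactSpace Γ]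

/-- equivariant multilinear maps with values in an arbitrary representation, if a first fundamental
theorem holds -/
theorem prod_core' {ρ : Γ →* Matrix (Fin N) (Fin N) ℚ_[ℓ]} (hρ : Continuous ρ)
    {J : Matrix (Fin N) (Fin N) ℚ_[ℓ]} (hJ : (Jᵀ = J ∧ 5 ≤ N) ∨ Jᵀ = -J) (hdet : J.det ≠ 0)
    (htan : ∀ X, Xᵀ * J + J * X = 0 → IsTangent ℓ ρ X) {c : Γ → ℚ_[ℓ]}
    (hc : ∀ σ, Sim J (ρ σ) (c σ))
    {W : Γ →* Matrix (Fin L) (Fin L) ℚ_[ℓ]} {γ : Γ}
    {x : (AlgebraicClosure ℚ_[ℓ])ˣ}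
    (hx : ((ρ γ).map (algebraMap ℚ_[ℓ] (AlgebraicClosure ℚ_[ℓ]))).charpoly.IsRoot x)
    (hind : ∀ m : ℕ, 0 < m → x ^ m ∉ Subgroup.closure
      ({y : (AlgebraicClosure ℚ_[ℓ])ˣ |
        ((W γ).map (algebraMap ℚ_[ℓ] (AlgebraicClosure ℚ_[ℓ]))).charpoly.IsRoot y} ∪
        {y : (AlgebraicClosure ℚ_[ℓ])ˣ |
          (y : AlgebraicClosure ℚ_[ℓ]) = algebraMap ℚ_[ℓ] _ (c γ)}))
    {U : Subgroup Γ} (hU : IsOpen (U : Set Γ))
    (hfft : ∀ φ : MultilinearMap ℚ_[ℓ] (fun _ : Fin k => Fin N → ℚ_[ℓ]) ℚ_[ℓ],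
      (∀ X, Xᵀ * J + J * X = 0 → ∀ v : Fin k → Fin N → ℚ_[ℓ],
        ∑ j, φ (Function.update v j (X *ᵥ v j)) = 0) →
      (fun v => φ v) ∈ Submodule.span ℚ_[ℓ] (prs J k))
    {φ : MultilinearMap ℚ_[ℓ] (fun _ : Fin k => Fin N → ℚ_[ℓ]) (Fin L → ℚ_[ℓ])}
    (hφ : ∀ σ ∈ U, ∀ v, φ (fun j => ρ σ *ᵥ v j) = W σ *ᵥ φ v) :
    (fun v => φ v) ∈ Submodule.span ℚ_[ℓ] {ψ : (Fin k → Fin N → ℚ_[ℓ]) → (Fin L → ℚ_[ℓ]) |
      ∃ (π : Equiv.Perm (Fin k)) (w : Fin L → ℚ_[ℓ]), (∀ j, π (π j) = j) ∧ (∀ j, π j ≠ j) ∧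
        (∀ σ ∈ U, W σ *ᵥ w = (c σ) ^ (k / 2) • w) ∧
        ∀ v, ψ v = (∏ j with j < π j, (v j ⬝ᵥ J *ᵥ v (π j))) • w} := by
  refine extract (U := (U : Set Γ)) (ρ := ρ) (W := W) (fun σ _ => hc σ) hφ fun i => ?_
  refine hfft (co φ i) fun X hX v => ?_
  have h1 := congrFun (all_skew hρ hJ hdet htan (hc γ) hx hind hU hφ hX v) i
  rw [Finset.sum_apply] at h1
  exact h1

/-- **Equivariant multilinear maps with values in an arbitrary representation.** -/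
theorem prod_core {ρ : Γ →* Matrix (Fin N) (Fin N) ℚ_[ℓ]} (hρ : Continuous ρ)
    {J : Matrix (Fin N) (Fin N) ℚ_[ℓ]} (hJ : (Jᵀ = J ∧ 5 ≤ N) ∨ Jᵀ = -J) (hdet : J.det ≠ 0)
    (htan : ∀ X, Xᵀ * J + J * X = 0 → IsTangent ℓ ρ X) {c : Γ → ℚ_[ℓ]}
    (hc : ∀ σ, Sim J (ρ σ) (c σ))
    {W : Γ →* Matrix (Fin L) (Fin L) ℚ_[ℓ]} {γ : Γ}
    {x : (AlgebraicClosure ℚ_[ℓ])ˣ}
    (hx : ((ρ γ).map (algebraMap ℚ_[ℓ] (AlgebraicClosure ℚ_[ℓ]))).charpoly.IsRoot x)
    (hind : ∀ m : ℕ, 0 < m → x ^ m ∉ Subgroup.closure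
      ({y : (AlgebraicClosure ℚ_[ℓ])ˣ |
        ((W γ).map (algebraMap ℚ_[ℓ] (AlgebraicClosure ℚ_[ℓ]))).charpoly.IsRoot y} ∪
        {y : (AlgebraicClosure ℚ_[ℓ])ˣ |
          (y : AlgebraicClosure ℚ_[ℓ]) = algebraMap ℚ_[ℓ] _ (c γ)}))
    {U : Subgroup Γ} (hU : IsOpen (U : Set Γ)) (hk : k < N ∨ Jᵀ = -J)
    {φ : MultilinearMap ℚ_[ℓ] (fun _ : Fin k => Fin N → ℚ_[ℓ]) (Fin L → ℚ_[ℓ])}
    (hφ : ∀ σ ∈ U, ∀ v, φ (fun j => ρ σ *ᵥ v j) = W σ *ᵥ φ v) :
    (fun v => φ v) ∈ Submodule.span ℚ_[ℓ] {ψ : (Fin k → Fin N → ℚ_[ℓ]) → (Fin L → ℚ_[ℓ]) |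
      ∃ (π : Equiv.Perm (Fin k)) (w : Fin L → ℚ_[ℓ]), (∀ j, π (π j) = j) ∧ (∀ j, π j ≠ j) ∧
        (∀ σ ∈ U, W σ *ᵥ w = (c σ) ^ (k / 2) • w) ∧
        ∀ v, ψ v = (∏ j with j < π j, (v j ⬝ᵥ J *ᵥ v (π j))) • w} := by
  have hN : 0 < N := by
    rcases Nat.eq_zero_or_pos N with h0 | h0
    · exfalso
      subst h0
      rw [Polynomial.IsRoot.def, Matrix.eval_charpoly, Matrix.det_fin_zero] at hx
      exact one_ne_zero hx
    · exact h0
  exact prod_core' hρ hJ hdet htan hc hx hind hU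
    (fun φ hφ => fft (hJ.imp (fun h => h.1) id) hdet hN hk φ hφ) hφ

end main

end

end Pool.Agent.R932
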