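import Pool.Agent.Y127.FftS
import Pool.Agent.Y710.SV.Fftv
import Pool.Agent.R932.ProdC

/-!
# The first fundamental theorem for the orthogonal Lie algebra in odd dimension and even degree
-/

set_option autoImplicit false
set_option linter.unusedSectionVars false

namespace Pool.Agent.R932

open Matrix Finset Module
open Pool.Agent.Y142.ZO (bil wedge wedge_mulVec bil_symm)
open Pool.Agent.Y155.ZI (exists_basis Tσ Tσ_apply bil_toBilin)
open Pool.Agent.Y100.ZS (mate mate_mate mate_ne)
open Pool.Agent.TH125.Nod (Inv gen Gen)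

section alg

variable {K : Type} [Field K] {r k : ℕ}

theorem neg_one_GA [CharZero K] (hk : Even k) (f : (Fin k → Fin r) → K) (x : Fin k → Fin r) :
    Pool.Agent.Y127.GA (-1 : Matrix (Fin r) (Fin r) K) f x = f x := by
  unfold Pool.Agent.Y127.GA
  rw [Finset.sum_eq_single x]
  · have h1 : ∀ j : Fin k, (-1 : Matrix (Fin r) (Fin r) K) (x j) (x j) = -1 := by
      intro j
      rw [Matrix.neg_apply, Matrix.one_apply_eq]
    rw [Finset.prod_congr rfl fun j _ => h1 j, Finset.prod_const, Finset.card_univ,
      Fintype.card_fin, hk.neg_one_pow, one_smul]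
  · intro y _ hy
    obtain ⟨j, hj⟩ := Function.ne_iff.1 hy
    rw [Finset.prod_eq_zero (Finset.mem_univ j), zero_smul]
    rw [Matrix.neg_apply, Matrix.one_apply_ne hj, neg_zero]
  · intro h
    exact absurd (Finset.mem_univ _) h

theorem fft_odd [CharZero K] (hr : Odd r) (hk : Even k) (B : Matrix (Fin r) (Fin r) K)
    (hB : Bᵀ = B) (hdet : B.det ≠ 0) (φ : MultilinearMap K (fun _ : Fin k => (Fin r → K)) K)
    (hφ : ∀ (a b : Fin r → K) (v : Fin k → Fin r → K),
      ∑ j, φ (Function.update v j (wedge B a b *ᵥ v j)) = 0) :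
    (fun v => φ v) ∈ Submodule.span K (prs B k) := by
  classical
  obtain ⟨q, hq1, hq2⟩ := exists_basis B hB hdet
  let Q : Matrix (Fin r) (Fin r) K := Matrix.of fun a b => bil B (q a) (q b)
  let R : Matrix (Fin r) (Fin r) K := Matrix.diagonal fun a => (bil B (q a) (q a))⁻¹
  have hQd : Q = Matrix.diagonal fun a => bil B (q a) (q a) := by
    ext a b
    show bil B (q a) (q b) = _
    by_cases h : a = b
    · rw [h, Matrix.diagonal_apply_eq]
    · rw [Matrix.diagonal_apply_ne _ h, hq1 a b h]
  have hQR : Q * R = 1 := by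
    rw [hQd, Matrix.diagonal_mul_diagonal, ← Matrix.diagonal_one]
    congr 1
    funext a
    exact mul_inv_cancel₀ (hq2 a)
  have hQs : ∀ a b, Q a b = Q b a := fun a b => bil_symm hB _ _
  let o : Fin r := ⟨0, hr.pos⟩
  have ho : ∀ p, p ≠ o → Q o p = 0 := fun p hp => hq1 o p (Ne.symm hp)
  have hrel : ∀ (u v : Fin r → K) (m : Fin k → Fin r → K),
      ∑ j, bil B u (m j) * φ (Function.update m j v) =
        ∑ j, bil B v (m j) * φ (Function.update m j u) := by
    intro u v m
    have h := hφ u v m
    have h1 : ∀ j, φ (Function.update m j (wedge B u v *ᵥ m j)) =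
        bil B u (m j) * φ (Function.update m j v) - bil B v (m j) * φ (Function.update m j u) := by
      intro j
      rw [wedge_mulVec, MultilinearMap.map_update_sub, MultilinearMap.map_update_smul,
        MultilinearMap.map_update_smul, smul_eq_mul, smul_eq_mul]
    rw [Finset.sum_congr rfl fun j _ => h1 j, Finset.sum_sub_distrib] at h
    exact sub_eq_zero.1 h
  let f : (Fin k → Fin r) → K := fun I => φ fun j => q (I j)
  have hinv : Inv (fun _ : Fin r => ()) Q (fun _ => 1) f := by
    intro u v _ I
    have h := hrel (q v) (q u) (fun j => q (I j))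
    have h2 : ∀ (j : Fin k) (x : Fin r), Function.update (fun j => q (I j)) j (q x) =
        fun i => q (Function.update I j x i) := by
      intro j x
      exact (Function.comp_update q I j x).symm
    simp only [h2] at h
    rw [Finset.sum_sub_distrib, sub_eq_zero]
    refine Eq.trans ?_ (h.trans ?_)
    · exact Finset.sum_congr rfl fun j _ => rfl
    · refine Finset.sum_congr rfl fun j _ => ?_
      rw [one_mul]
      rfl
  have hsim : Pool.Agent.Y127.Sim Q (-1 : Matrix (Fin r) (Fin r) K) 1 (-1) := by
    constructor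
    · rw [Matrix.transpose_neg, Matrix.transpose_one, neg_mul, one_mul, neg_mul_neg, mul_one,
        mul_one, one_smul]
    · rw [Matrix.det_neg, Matrix.det_one, Fintype.card_fin, hr.neg_one_pow, one_pow]
  have hpar : Pool.Agent.Y127.Par o f := by
    intro x hx
    have h1 := (Pool.Agent.Y127.semi hQs hQR ho hinv hsim x).2 hx
    rw [neg_one_GA hk, one_pow, mul_one, neg_smul, one_smul] at h1
    exact self_eq_neg.1 h1
  have hkey := Pool.Agent.Y127.fftO hQs hQR ho k (Fin k) f (Fintype.card_fin k) hinv hpar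
  -- evaluation on the basis
  let evq : MultilinearMap K (fun _ : Fin k => (Fin r → K)) K →ₗ[K] ((Fin k → Fin r) → K) :=
    { toFun := fun T J => T (fun j => q (J j))
      map_add' := fun _ _ => rfl
      map_smul' := fun _ _ => rfl }
  have hinj : Function.Injective evq := by
    intro T T' h
    exact Basis.ext_multilinear (fun _ => q) fun J => congrFun h J
  let eve : MultilinearMap K (fun _ : Fin k => (Fin r → K)) K →ₗ[K] ((Fin k → Fin r → K) → K) :=
    { toFun := fun T v => T v
      map_add' := fun _ _ => rfl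
      map_smul' := fun _ _ => rfl }
  let GG : Set (MultilinearMap K (fun _ : Fin k => (Fin r → K)) K) :=
    {T | ∃ (σ : Fin k → Fin k) (h1 : ∀ j, σ (σ j) = j) (h2 : ∀ j, σ j ≠ j),
      T = Tσ (Matrix.toBilin' B) σ h1 h2}
  have h1 : evq φ ∈ (Submodule.span K GG).map evq := by
    have hle : Gen (M := K) (fun _ : Fin r => ()) Q (fun _ : Fin k => ()) ≤
        (Submodule.span K GG).map evq := by
      unfold Gen
      rw [Submodule.span_le]
      rintro _ ⟨m, e, w, rfl⟩
      obtain ⟨s', hs'⟩ := Pool.Agent.Y710.SV.prod_pairs (F := K) e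
        (fun a b : Fin r → K => bil B a b) 1 (fun x y => by rw [one_mul]; exact bil_symm hB _ _)
      refine ⟨(w * s') • Tσ (Matrix.toBilin' B) (mate e) (mate_mate e) (mate_ne e),
        Submodule.smul_mem _ _ (Submodule.subset_span ⟨_, mate_mate e, mate_ne e, rfl⟩), ?_⟩
      funext I
      unfold gen
      rw [if_pos (fun _ => rfl)]
      have h3 := hs' fun j => q (I j)
      show (w * s') * Tσ (Matrix.toBilin' B) (mate e) (mate_mate e) (mate_ne e)
        (fun j => q (I j)) = (∏ l, Q (I (e (l, 0))) (I (e (l, 1)))) • w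
      rw [Tσ_apply, smul_eq_mul]
      have h4 : ∏ l, Q (I (e (l, 0))) (I (e (l, 1))) =
          ∏ l, bil B (q (I (e (l, 0)))) (q (I (e (l, 1)))) := rfl
      rw [h4, h3]
      have h5 : ∀ j, (Matrix.toBilin' B) (q (I j)) (q (I (mate e j))) =
          bil B (q (I j)) (q (I (mate e j))) := fun j => bil_toBilin B _ _
      rw [Finset.prod_congr rfl fun j _ => h5 j]
      ring
    exact hle hkey
  obtain ⟨T, hT, hT'⟩ := h1
  have h2 : φ ∈ Submodule.span K GG := by
    rw [← hinj hT']
    exact hT
  have h3 : eve φ ∈ (Submodule.span K GG).map eve := Submodule.mem_map_of_mem h2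
  rw [Submodule.map_span] at h3
  refine Submodule.span_mono ?_ h3
  rintro _ ⟨_, ⟨σ, hσ1, hσ2, rfl⟩, rfl⟩
  refine ⟨Function.Involutive.toPerm σ hσ1, hσ1, hσ2, fun v => ?_⟩
  refine (Tσ_apply (Matrix.toBilin' B) σ hσ1 hσ2 _).trans ?_
  refine prod_congr rfl fun j _ => ?_
  exact bil_toBilin B _ _

end alg

end Pool.Agent.R932
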