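import Mathlib
import Pool.Agent.R932.Cay
import Pool.Agent.Y95.MT.RHS

/-!
# The Mumford-Tate conjecture for a direct sum from an independent eigenvalue
-/

set_option autoImplicit false
set_option linter.unusedSectionVars false

namespace Pool.Agent.R932

open MvPolynomial Matrix Filter Topology Pool.Agent.W528.ZC Pool.Agent.Y95.MT
open Pool.Agent.W544.PG (HS BD mC det_mC bl bl_T bl_mC bl_det_ne)

noncomputable section

/-! ### change of the field -/

section field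

variable {K L : Type} [Field K] [Field L] [IsAlgClosed K] {κ : Type} [Fintype κ] [DecidableEq κ]
  {n : ℕ}

theorem Ind.map (e : K →+* L) {A : Matrix κ κ K} {B : Matrix (Fin n) (Fin n) K}
    {U : Submodule K (Fin n → K)} {U' : Submodule L (Fin n → L)}
    (hU : ∀ w ∈ U, (fun i => e (w i)) ∈ U') (h : Ind A B U) : Ind (A.map e) (B.map e) U' := by
  obtain ⟨x, ⟨w, hwU, hw0, hw⟩, hx⟩ := h
  refine ⟨Units.map e.toMonoidHom x, ⟨fun i => e (w i), hU w hwU, ?_, ?_⟩, fun m hm hmem => ?_⟩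
  · intro h0
    apply hw0
    funext i
    exact (map_eq_zero e).1 (congrFun h0 i)
  · funext i
    have h1 := congrArg e (congrFun hw i)
    rw [Matrix.mulVec, dotProduct, map_sum, Pi.smul_apply, smul_eq_mul, map_mul] at h1
    rw [Matrix.mulVec, dotProduct, Pi.smul_apply, smul_eq_mul]
    refine Eq.trans (Finset.sum_congr rfl fun j _ => ?_) h1
    rw [map_mul, Matrix.map_apply]
  · refine hx m hm ?_
    have h1 : {y : Lˣ | (A.map e).charpoly.IsRoot (y : L)} ⊆
        (Units.map e.toMonoidHom) '' {y : Kˣ | A.charpoly.IsRoot (y : K)} := by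
      intro y hy
      have h2 : (A.map e).charpoly = A.charpoly.map e := by
        rw [Matrix.charpoly_map]
      have h3 : (y : L) ∈ (A.charpoly.map e).roots := by
        rw [Polynomial.mem_roots ((Matrix.charpoly_monic A).map e).ne_zero, ← h2]
        exact hy
      rw [(IsAlgClosed.splits A.charpoly).roots_map e, Multiset.mem_map] at h3
      obtain ⟨z, hz, hzy⟩ := h3
      have hz0 : z ≠ 0 := by
        rintro rfl
        rw [map_zero] at hzy
        exact y.ne_zero hzy.symm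
      refine ⟨Units.mk0 z hz0, ?_, ?_⟩
      · show A.charpoly.IsRoot _
        rw [Units.val_mk0]
        exact (Polynomial.mem_roots (Matrix.charpoly_monic A).ne_zero).1 hz
      · ext
        rw [Units.coe_map, Units.val_mk0]
        exact hzy
    have h2 : (Units.map e.toMonoidHom) (x ^ m) ∈ Subgroup.map (Units.map e.toMonoidHom)
        (Subgroup.closure {y : Kˣ | A.charpoly.IsRoot (y : K)}) := by
      rw [MonoidHom.map_closure, map_pow]
      exact Subgroup.closure_mono h1 hmem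
    obtain ⟨z, hz, hzx⟩ := h2
    have h3 : Function.Injective (Units.map e.toMonoidHom) := Units.map_injective e.injective
    rwa [← h3 hzx]

end field

/-! ### The Lie algebra of the second summand -/

section

variable {ℓ : ℕ} [Fact ℓ.Prime] {n r : ℕ} {κ : Type} [Fintype κ] [DecidableEq κ] {Γ : Type}
  [Group Γ] {c : Fin n → Fin r} {T : HS n} {p q : Fin r → ℕ}
  {β : Γ →* Matrix (Fin n) (Fin n) ℤ_[ℓ]} {v : Γ →* Matrix κ κ ℚ_[ℓ]}

theorem finrank_col {K : Type} [Field K] (c : Fin n → Fin r) (i : Fin r) :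
    Module.finrank K (col c i : Submodule K (Fin n → K)) =
      (Finset.univ.filter fun a => c a = i).card := by
  classical
  have e : (col c i : Submodule K (Fin n → K)) ≃ₗ[K] ({a // c a = i} → K) :=
    { toFun := fun w a => w.1 a.1
      map_add' := fun _ _ => rfl
      map_smul' := fun _ _ => rfl
      invFun := fun u => ⟨fun a => if h : c a = i then u ⟨a, h⟩ else 0, fun a ha => dif_neg ha⟩
      left_inv := by
        intro w
        ext a
        by_cases h : c a = i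
        · simp [h]
        · simp [h, w.2 a h]
      right_inv := by
        intro u
        funext a
        simp [a.2] }
  rw [e.finrank_eq, Module.finrank_fintype_fun_eq_card, Fintype.card_subtype]

theorem wd_br' {ι K : Type} [Field K] [Fintype ι] [DecidableEq ι] {B : Matrix ι ι K}
    (hB : Bᵀ = B) (x d a b : ι → K) : wd B x d * wd B a b - wd B a b * wd B x d =
      wd B ((d ⬝ᵥ B *ᵥ a) • x - (x ⬝ᵥ B *ᵥ a) • d) b +
        wd B a ((d ⬝ᵥ B *ᵥ b) • x - (x ⬝ᵥ B *ᵥ b) • d) := by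
  have e1 : ∀ a b : ι → K, (B *ᵥ a) ⬝ᵥ b = b ⬝ᵥ B *ᵥ a := fun a b => dotProduct_comm _ _
  unfold wd
  simp only [sub_mul, mul_sub, vmv_mul, e1, Matrix.mulVec_sub, Matrix.mulVec_smul]
  rw [bsymm hB a d, bsymm hB a x, bsymm hB b d, bsymm hB b x]
  have e2 : ∀ (s t : K) (u w z : ι → K), vecMulVec (s • u - t • w) z =
      s • vecMulVec u z - t • vecMulVec w z := by
    intro s t u w z
    ext i j
    simp only [vecMulVec_apply, Matrix.sub_apply, Matrix.smul_apply, Pi.sub_apply, Pi.smul_apply,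
      smul_eq_mul]
    ring
  have e3 : ∀ (s t : K) (u w z : ι → K), vecMulVec z (s • u - t • w) =
      s • vecMulVec z u - t • vecMulVec z w := by
    intro s t u w z
    ext i j
    simp only [vecMulVec_apply, Matrix.sub_apply, Matrix.smul_apply, Pi.sub_apply, Pi.smul_apply,
      smul_eq_mul]
    ring
  simp only [e2, e3]
  module

theorem wd_brZ {ι K : Type} [Field K] [Fintype ι] [DecidableEq ι] {B Z : Matrix ι ι K}
    (hZ : Zᵀ * B + B * Z = 0) (a b : ι → K) :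
    wd B (Z *ᵥ a) b + wd B a (Z *ᵥ b) = -(wd B a b * Z - Z * wd B a b) := by
  have h1 : ∀ a, Zᵀ *ᵥ (B *ᵥ a) = -(B *ᵥ (Z *ᵥ a)) := by
    intro a
    have h2 : (Zᵀ * B + B * Z) *ᵥ a = 0 := by rw [hZ, Matrix.zero_mulVec]
    rw [Matrix.add_mulVec, ← Matrix.mulVec_mulVec, ← Matrix.mulVec_mulVec] at h2
    exact eq_neg_of_add_eq_zero_left h2
  unfold wd
  simp only [sub_mul, mul_sub, Matrix.vecMulVec_mul, Matrix.mul_vecMulVec,
    ← Matrix.mulVec_transpose, h1]
  have e3 : ∀ (u z : ι → K), vecMulVec z (-u) = -vecMulVec z u := by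
    intro u z
    ext i j
    simp only [vecMulVec_apply, Matrix.neg_apply, Pi.neg_apply]
    ring
  simp only [e3]
  abel

theorem wd_BD {K : Type} [Field K] [CharZero K] {Q : Matrix (Fin n) (Fin n) K} (hbQ : BD c Q)
    {i : Fin r} {x d : Fin n → K} (hx : x ∈ (col c i : Submodule K (Fin n → K)))
    (hd : d ∈ (col c i : Submodule K (Fin n → K))) : BD c (wd Q x d) := by
  intro a b hab
  unfold wd
  rw [Matrix.sub_apply, vecMulVec_apply, vecMulVec_apply]
  by_cases ha : c a = i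
  · have hbi : c b ≠ i := fun h => hab (ha.trans h.symm)
    rw [mulVec_col hbQ hx b hbi, mulVec_col hbQ hd b hbi, mul_zero, mul_zero, sub_zero]
  · rw [hx a ha, hd a ha, zero_mul, zero_mul, sub_zero]

/-- the simplicity statement for matrices -/
theorem mat_simple {ι K : Type} [Field K] [CharZero K] [IsAlgClosed K] [Fintype ι] [DecidableEq ι]
    {Q : Matrix ι ι K} {U : Submodule K (ι → K)} (hs : Qᵀ = Q)
    (hnd : ∀ a ∈ U, (∀ b ∈ U, a ⬝ᵥ Q *ᵥ b = 0) → a = 0) (h5 : 5 ≤ Module.finrank K U)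
    {L : Submodule K (Matrix ι ι K)}
    (hL : ∀ x ∈ U, ∀ d ∈ U, ∀ M ∈ L, wd Q x d * M - M * wd Q x d ∈ L)
    {Z : Matrix ι ι K} (hZL : Z ∈ L) (hZs : Zᵀ * Q + Q * Z = 0) (hZU : ∀ a ∈ U, Z *ᵥ a ∈ U)
    {w : ι → K} (hwU : w ∈ U) (hw : Z *ᵥ w ≠ 0) {a b : ι → K} (ha : a ∈ U) (hb : b ∈ U) :
    wd Q a b ∈ L := by
  let Zr : U →ₗ[K] U := (Matrix.toLin' Z).restrict (fun a ha => by
      rw [Matrix.toLin'_apply]
      exact hZU a ha)
  have hZr : ∀ a : U, (Zr a).1 = Z *ᵥ a.1 := fun a => by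
    show Matrix.toLin' Z a.1 = _
    rw [Matrix.toLin'_apply]
  let B : U →ₗ[K] U →ₗ[K] K :=
    LinearMap.mk₂ K (fun a b => a.1 ⬝ᵥ Q *ᵥ b.1)
      (fun a a' b => by rw [Submodule.coe_add, add_dotProduct])
      (fun z a b => by rw [Submodule.coe_smul, smul_dotProduct])
      (fun a b b' => by rw [Submodule.coe_add, Matrix.mulVec_add, dotProduct_add])
      (fun z a b => by rw [Submodule.coe_smul, Matrix.mulVec_smul, dotProduct_smul])
  have hB : ∀ a b : U, B a b = a.1 ⬝ᵥ Q *ᵥ b.1 := fun a b => rfl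
  have wd_add' : ∀ a a' b : ι → K, wd Q (a + a') b = wd Q a b + wd Q a' b := by
    intro a a' b
    rw [wd_anti, wd_add, neg_add, ← wd_anti, ← wd_anti]
  have wd_smul' : ∀ (z : K) (a b : ι → K), wd Q (z • a) b = z • wd Q a b := by
    intro z a b
    rw [wd_anti, wd_smul, ← smul_neg, ← wd_anti]
  let ω : U →ₗ[K] U →ₗ[K] Matrix ι ι K :=
    LinearMap.mk₂ K (fun a b => wd Q a.1 b.1)
      (fun a a' b => by rw [Submodule.coe_add, wd_add'])
      (fun z a b => by rw [Submodule.coe_smul, wd_smul'])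
      (fun a b b' => by rw [Submodule.coe_add, wd_add])
      (fun z a b => by rw [Submodule.coe_smul, wd_smul])
  have hωd : ∀ a b : U, ω a b = wd Q a.1 b.1 := fun a b => rfl
  let Tr : U → U → Matrix ι ι K →ₗ[K] Matrix ι ι K := fun x d =>
    { toFun := fun M => wd Q x.1 d.1 * M - M * wd Q x.1 d.1
      map_add' := fun M N => by
        rw [mul_add, add_mul]
        abel
      map_smul' := fun z M => by
        rw [Matrix.mul_smul, Matrix.smul_mul, RingHom.id_apply, smul_sub] }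
  have hTr : ∀ (x d : U) (M : Matrix ι ι K), Tr x d M = wd Q x.1 d.1 * M - M * wd Q x.1 d.1 :=
    fun x d M => rfl
  have e1 : ∀ a b : U, B a b = B b a := fun a b => by rw [hB, hB, bsymm hs]
  have e2 : ∀ a : U, (∀ b : U, B a b = 0) → a = 0 := fun a h => by
    ext1
    exact hnd a.1 a.2 fun b hb => h ⟨b, hb⟩
  have e3 : ∀ a : U, ω a a = 0 := fun a => by
    rw [hωd]
    unfold wd
    rw [sub_self]
  have e4 : ∀ x d a b : U, Tr x d (ω a b) = ω (B d a • x - B x a • d) b +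
      ω a (B d b • x - B x b • d) := fun x d a b => by
    rw [hTr, hωd, wd_br' hs]
    rfl
  have e5 : ∀ x d : U, ∀ m ∈ L, Tr x d m ∈ L := fun x d m hm => hL x.1 x.2 d.1 d.2 m hm
  have e6 : ∀ a b : U, B (Zr a) b + B a (Zr b) = 0 := fun a b => by
    rw [hB, hB, hZr, hZr]
    have h1 : (Z *ᵥ a.1) ⬝ᵥ Q *ᵥ b.1 = a.1 ⬝ᵥ (Zᵀ * Q) *ᵥ b.1 := by
      rw [← Matrix.mulVec_mulVec, Matrix.dotProduct_mulVec a.1 Zᵀ, Matrix.vecMul_transpose]
    rw [h1, Matrix.mulVec_mulVec, ← dotProduct_add, ← Matrix.add_mulVec, hZs,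
      Matrix.zero_mulVec, dotProduct_zero]
  have e7 : Zr ≠ 0 := by
    intro h0
    apply hw
    have h1 := congrArg Subtype.val (LinearMap.congr_fun h0 ⟨w, hwU⟩)
    rw [hZr] at h1
    exact h1
  have e8 : ∀ a b : U, ω (Zr a) b + ω a (Zr b) ∈ L := fun a b => by
    rw [hωd, hωd, hZr, hZr, wd_brZ hZs]
    exact L.neg_mem (hL a.1 a.2 b.1 b.2 Z hZL)
  exact simple e1 e2 h5 e3 e4 e5 e6 e7 e8 ⟨a, ha⟩ ⟨b, hb⟩

theorem soIn_of_ind (hbQ : BD c T.Q)
    (hrk : ∀ i, 5 ≤ (Finset.univ.filter fun a => c a = i).card)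
    (hg : GalT c T.Q β)
    (hSO : ∀ g : Matrix (Fin n) (Fin n) (AlgebraicClosure ℚ_[ℓ]), InSO c T.Q g →
      InG0 (qrep β) g)
    (hI : ∀ i, ∃ γ, Ind ((v γ).map (algebraMap ℚ_[ℓ] (AlgebraicClosure ℚ_[ℓ])))
      ((qm (β γ)).map (algebraMap ℚ_[ℓ] (AlgebraicClosure ℚ_[ℓ])))
      (col c i : Submodule (AlgebraicClosure ℚ_[ℓ]) (Fin n → AlgebraicClosure ℚ_[ℓ]))) :
    SoIn c T v β := by
  intro e Z₀ hZ₀ hZ₀b
  obtain ⟨e', he'⟩ : ∃ e' : AlgebraicClosure ℚ_[ℓ] →+* ℂ,
      e'.comp (algebraMap ℚ_[ℓ] (AlgebraicClosure ℚ_[ℓ])) = e := by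
    letI : Algebra ℚ_[ℓ] ℂ := e.toAlgebra
    let f : AlgebraicClosure ℚ_[ℓ] →ₐ[ℚ_[ℓ]] ℂ :=
      IsAlgClosed.lift (R := ℚ_[ℓ]) (S := AlgebraicClosure ℚ_[ℓ]) (M := ℂ)
    exact ⟨f.toRingHom, f.comp_algebraMap⟩
  obtain ⟨j, hj⟩ : ∃ j, j = algebraMap ℚ_[ℓ] (AlgebraicClosure ℚ_[ℓ]) := ⟨_, rfl⟩
  have hbQ' : BD c (mC T.Q) := fun a b hab => by simp [mC, hbQ a b hab]
  have hsy : (mC T.Q)ᵀ = mC T.Q := by
    have h1 := congrArg (fun M => mC M) T.symm
    simpa [mC, ← Matrix.transpose_map] using h1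
  have hdet : (mC T.Q).det ≠ 0 := by
    rw [det_mC]
    exact_mod_cast W74.PG.det_ne T
  have hlie : ∀ Z : Matrix (Fin n) (Fin n) ℂ, Zᵀ * mC T.Q + mC T.Q * Z = 0 → BD c Z →
      Z ∈ LS (IG (qrep β) e) := by
    intro Z hZ hZb
    rw [← he']
    exact lie_of_SO hg hbQ hSO e' hZ hZb
  refine skew_mem (c := c) hsy hdet hbQ' (fun i a b ha hb => ?_) hZ₀ hZ₀b
  obtain ⟨γ, hγ⟩ := hI i
  have hγ' : Ind ((v γ).map e) ((qm (β γ)).map e) (col c i : Submodule ℂ (Fin n → ℂ)) := by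
    have h1 := Ind.map e' (U' := (col c i : Submodule ℂ (Fin n → ℂ))) (fun w hw a ha => by
      show e' (w a) = 0
      rw [hw a ha, map_zero]) hγ
    rw [← he']
    exact h1
  obtain ⟨Z, hZL, w, hwU, hZw, hw0⟩ := hγ'.exists_LS
  obtain ⟨hZs, hZb⟩ := skew_of_LS (j := e) (v := v) hg hZL
  rw [← mC_eq] at hZs
  refine mat_simple (U := (col c i : Submodule ℂ (Fin n → ℂ))) (L := Lb v β e) hsy
    (fun a ha hab => ?_) ?_ (fun x hx d hd M hM => ?_) hZL hZs (fun a ha => mulVec_col hZb ha)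
    hwU ?_ ha hb
  · refine col_nondeg hsy hbQ' hdet ha fun x hx => ?_
    have h1 := hab _ (single_col hx)
    rw [bsymm hsy] at h1
    rwa [single_dot] at h1
  · rw [finrank_col]
    exact hrk i
  · refine ad_Lb hg (hlie _ (wd_skew hsy _ _) (wd_BD hbQ' hx hd)) ?_ hM
    rw [← mC_eq]
    exact wd_skew hsy _ _
  · rw [hZw]
    exact hw0

end

end

end Pool.Agent.R932
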