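import Pool.Agent.R932.Bch
import Pool.Agent.R932.MtInd

/-!
# Subspaces of matrices stable under the symplectic or the orthogonal Lie algebra
-/

set_option autoImplicit false
set_option linter.unusedSectionVars false

namespace Pool.Agent.R932

open Matrix Pool.Agent.Y177.SU Pool.Agent.Y95.MT

noncomputable section

section sp

variable {K : Type} [Field K] {N : ℕ}

/-- the operator `x ↦ ± J(v, x) v` -/
def ev1 (J : Matrix (Fin N) (Fin N) K) (v : Fin N → K) : Matrix (Fin N) (Fin N) K :=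
  vecMulVec v (J *ᵥ v)

/-- the polarisation -/
def sy (J : Matrix (Fin N) (Fin N) K) (v w : Fin N → K) : Matrix (Fin N) (Fin N) K :=
  vecMulVec v (J *ᵥ w) + vecMulVec w (J *ᵥ v)

theorem vmv_add_left (a a' b : Fin N → K) :
    vecMulVec (a + a') b = vecMulVec a b + vecMulVec a' b := by
  ext i j
  simp [vecMulVec_apply, add_mul]

theorem vmv_add_right (a b b' : Fin N → K) :
    vecMulVec a (b + b') = vecMulVec a b + vecMulVec a b' := by
  ext i j
  simp [vecMulVec_apply, mul_add]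

theorem vmv_smul_left (c : K) (a b : Fin N → K) : vecMulVec (c • a) b = c • vecMulVec a b := by
  ext i j
  simp [vecMulVec_apply, mul_assoc]

theorem vmv_smul_right (c : K) (a b : Fin N → K) : vecMulVec a (c • b) = c • vecMulVec a b := by
  ext i j
  simp [vecMulVec_apply, mul_left_comm]

theorem vmv_neg_right (a b : Fin N → K) : vecMulVec a (-b) = -vecMulVec a b := by
  ext i j
  simp [vecMulVec_apply]

theorem ev1_add (J : Matrix (Fin N) (Fin N) K) (v w : Fin N → K) (t : K) :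
    ev1 J (v + t • w) = ev1 J v + t • sy J v w + t ^ 2 • ev1 J w := by
  unfold ev1 sy
  rw [Matrix.mulVec_add, Matrix.mulVec_smul, vmv_add_left, vmv_add_right, vmv_add_right,
    vmv_smul_right, vmv_smul_left, vmv_smul_left, vmv_smul_right]
  module

theorem ev1_skew {J : Matrix (Fin N) (Fin N) K} (hJ : Jᵀ = -J) (v : Fin N → K) :
    (ev1 J v)ᵀ * J + J * ev1 J v = 0 := by
  unfold ev1
  rw [Matrix.transpose_vecMulVec, Matrix.vecMulVec_mul, Matrix.mul_vecMulVec,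
    ← Matrix.mulVec_transpose, hJ, Matrix.neg_mulVec, vmv_neg_right, neg_add_cancel]

theorem jdot {J : Matrix (Fin N) (Fin N) K} [CharZero K] (hJ : Jᵀ = -J) (v : Fin N → K) :
    (J *ᵥ v) ⬝ᵥ v = 0 := by
  have h1 : (J *ᵥ v) ⬝ᵥ v = -((J *ᵥ v) ⬝ᵥ v) := by
    conv_lhs => rw [dotProduct_comm, Matrix.dotProduct_mulVec, ← Matrix.mulVec_transpose, hJ,
      Matrix.neg_mulVec, neg_dotProduct]
  have h2 : (2 : K) * ((J *ᵥ v) ⬝ᵥ v) = 0 := by linear_combination h1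
  exact (mul_eq_zero.1 h2).resolve_left two_ne_zero

theorem two_points [CharZero K] {a b c : K} (ha : a ≠ 0) :
    ∃ s t : K, s ≠ 0 ∧ t ≠ 0 ∧ s ≠ t ∧ a + s * b + s ^ 2 * c ≠ 0 ∧ a + t * b + t ^ 2 * c ≠ 0 := by
  have hne : ∀ p : Polynomial K, p ≠ 0 → ∃ x, p.eval x ≠ 0 := by
    intro p hp
    by_contra h
    push Not at h
    exact hp (Polynomial.funext fun x => by rw [h x, Polynomial.eval_zero])
  let p : Polynomial K := Polynomial.C a + Polynomial.X * Polynomial.C b +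
    Polynomial.X ^ 2 * Polynomial.C c
  have hp : p ≠ 0 := by
    intro h
    apply ha
    have h1 := congrArg (Polynomial.eval 0) h
    simpa [p] using h1
  obtain ⟨s, hs⟩ := hne (Polynomial.X * p) (mul_ne_zero Polynomial.X_ne_zero hp)
  obtain ⟨t, ht⟩ := hne ((Polynomial.X - Polynomial.C s) * (Polynomial.X * p))
    (mul_ne_zero (Polynomial.X_sub_C_ne_zero s) (mul_ne_zero Polynomial.X_ne_zero hp))
  simp only [Polynomial.eval_mul, Polynomial.eval_X, Polynomial.eval_sub, Polynomial.eval_C,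
    ne_eq, mul_eq_zero, not_or] at hs ht
  refine ⟨s, t, hs.1, ht.2.1, fun h => ht.1 (by rw [h, sub_self]), ?_, ?_⟩
  · intro h
    apply hs.2
    have h1 : Polynomial.eval s p = a + s * b + s ^ 2 * c := by simp [p]; ring
    rw [h1, h]
  · intro h
    apply ht.2.2
    have h1 : Polynomial.eval t p = a + t * b + t ^ 2 * c := by simp [p]; ring
    rw [h1, h]

theorem sp_span {J : Matrix (Fin N) (Fin N) K} [CharZero K] (hJ : Jᵀ = -J) (hdet : J.det ≠ 0)
    {X : Matrix (Fin N) (Fin N) K} (hX : Xᵀ * J + J * X = 0) :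
    X = (2 : K)⁻¹ • ∑ p : Fin N, sy J (X *ᵥ Pi.single p 1) (J⁻¹ *ᵥ Pi.single p 1) := by
  have hu : IsUnit J.det := isUnit_iff_ne_zero.2 hdet
  have h1 : ∑ p : Fin N, vecMulVec (X *ᵥ Pi.single p 1) (J *ᵥ (J⁻¹ *ᵥ Pi.single p 1)) = X := by
    ext i j
    rw [Matrix.sum_apply]
    have h2 : ∀ p : Fin N, vecMulVec (X *ᵥ Pi.single p 1) (J *ᵥ (J⁻¹ *ᵥ Pi.single p 1)) i j =
        X i p * (if j = p then 1 else 0) := by
      intro p
      rw [vecMulVec_apply, Matrix.mulVec_mulVec, Matrix.mul_nonsing_inv _ hu, Matrix.one_mulVec,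
        Matrix.mulVec_single_one, Matrix.col_apply, Pi.single_apply]
    rw [Finset.sum_congr rfl fun p _ => h2 p]
    simp
  have h2 : ∑ p : Fin N, vecMulVec (J⁻¹ *ᵥ Pi.single p 1) (J *ᵥ (X *ᵥ Pi.single p 1)) = X := by
    have h3 : ∑ p : Fin N, vecMulVec (J⁻¹ *ᵥ Pi.single p 1) (J *ᵥ (X *ᵥ Pi.single p 1)) =
        J⁻¹ * (J * X)ᵀ := by
      ext i j
      rw [Matrix.sum_apply, Matrix.mul_apply]
      refine Finset.sum_congr rfl fun p _ => ?_
      rw [vecMulVec_apply, Matrix.mulVec_mulVec, Matrix.mulVec_single_one,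
        Matrix.mulVec_single_one, Matrix.col_apply, Matrix.col_apply, Matrix.transpose_apply]
    rw [h3, Matrix.transpose_mul, hJ, mul_neg, eq_neg_of_add_eq_zero_left hX, neg_neg, ← mul_assoc,
      Matrix.nonsing_inv_mul _ hu, one_mul]
  unfold sy
  rw [Finset.sum_add_distrib, h1, h2, ← two_smul K X, smul_smul, inv_mul_cancel₀ two_ne_zero,
    one_smul]

theorem sp_ideal {J : Matrix (Fin N) (Fin N) K} [CharZero K] (hJ : Jᵀ = -J) (hdet : J.det ≠ 0)
    (I : Submodule K (Matrix (Fin N) (Fin N) K))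
    (hI : ∀ X, Xᵀ * J + J * X = 0 → ∀ Z ∈ I, X * Z - Z * X ∈ I)
    {Z : Matrix (Fin N) (Fin N) K} (hZ : Z ∈ I) (hZs : Zᵀ * J + J * Z = 0) (hZ0 : Z ≠ 0)
    {X : Matrix (Fin N) (Fin N) K} (hX : Xᵀ * J + J * X = 0) : X ∈ I := by
  have hsq : ∀ v, ev1 J v * ev1 J v = 0 := by
    intro v
    unfold ev1
    rw [Matrix.vecMulVec_mul_vecMulVec, jdot hJ, zero_smul, Matrix.vecMulVec_zero]
  have hmid : ∀ v, ev1 J v * Z * ev1 J v = ((J *ᵥ v) ⬝ᵥ (Z *ᵥ v)) • ev1 J v := by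
    intro v
    unfold ev1
    rw [Matrix.vecMulVec_mul, Matrix.vecMulVec_mul_vecMulVec, ← Matrix.dotProduct_mulVec,
      vmv_smul_right]
  have h1 : ∀ v, (J *ᵥ v) ⬝ᵥ (Z *ᵥ v) ≠ 0 → ev1 J v ∈ I := by
    intro v hv
    have h2 := hI _ (ev1_skew hJ v) _ (hI _ (ev1_skew hJ v) Z hZ)
    have h3 : ev1 J v * (ev1 J v * Z - Z * ev1 J v) - (ev1 J v * Z - Z * ev1 J v) * ev1 J v =
        (-2 * ((J *ᵥ v) ⬝ᵥ (Z *ᵥ v))) • ev1 J v := by
      have h4 : ev1 J v * (ev1 J v * Z - Z * ev1 J v) - (ev1 J v * Z - Z * ev1 J v) * ev1 J v =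
          (ev1 J v * ev1 J v) * Z - (2 : K) • (ev1 J v * Z * ev1 J v) +
            Z * (ev1 J v * ev1 J v) := by
        rw [two_smul]
        noncomm_ring
      rw [h4, hsq, zero_mul, mul_zero, hmid, smul_smul]
      module
    rw [h3] at h2
    have h5 : (-2 * ((J *ᵥ v) ⬝ᵥ (Z *ᵥ v)) : K) ≠ 0 :=
      mul_ne_zero (neg_ne_zero.2 two_ne_zero) hv
    have h6 := I.smul_mem (-2 * ((J *ᵥ v) ⬝ᵥ (Z *ᵥ v)))⁻¹ h2
    rwa [smul_smul, inv_mul_cancel₀ h5, one_smul] at h6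
  -- one good vector
  have hsymm : (J * Z)ᵀ = J * Z := by
    rw [Matrix.transpose_mul, hJ, mul_neg, eq_neg_of_add_eq_zero_left hZs, neg_neg]
  have hq : ∀ v w : Fin N → K, (J *ᵥ v) ⬝ᵥ (Z *ᵥ w) = -(v ⬝ᵥ (J * Z) *ᵥ w) := by
    intro v w
    have h2 : J *ᵥ v = -(v ᵥ* J) := by
      rw [← Matrix.mulVec_transpose, hJ, Matrix.neg_mulVec, neg_neg]
    rw [h2, neg_dotProduct, ← Matrix.dotProduct_mulVec, Matrix.mulVec_mulVec]
  obtain ⟨v, hv⟩ : ∃ v, (J *ᵥ v) ⬝ᵥ (Z *ᵥ v) ≠ 0 := by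
    by_contra h
    push Not at h
    apply hZ0
    have h2 : ∀ v w : Fin N → K, v ⬝ᵥ (J * Z) *ᵥ w = 0 := by
      intro v w
      have e1 := h (v + w)
      have e2 := h v
      have e3 := h w
      rw [hq] at e1 e2 e3
      rw [Matrix.mulVec_add, dotProduct_add, add_dotProduct, add_dotProduct,
        bsymm hsymm w v] at e1
      have e4 : (2 : K) * (v ⬝ᵥ (J * Z) *ᵥ w) = 0 := by
        linear_combination (-1 : K) * e1 + e2 + e3
      exact (mul_eq_zero.1 e4).resolve_left two_ne_zero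
    have h3 : J * Z = 0 := by
      ext a b
      have := h2 (Pi.single a 1) (Pi.single b 1)
      rw [single_one_dotProduct, Matrix.mulVec_single_one, Matrix.col_apply] at this
      exact this
    have h4 := congrArg (fun M => J⁻¹ * M) h3
    simpa [← mul_assoc, Matrix.nonsing_inv_mul _ (isUnit_iff_ne_zero.2 hdet)] using h4
  have h2 : ∀ w, ev1 J w ∈ I := by
    intro w
    obtain ⟨s, t, hs, ht, hst, hs', ht'⟩ := two_points
      (b := (J *ᵥ v) ⬝ᵥ (Z *ᵥ w) + (J *ᵥ w) ⬝ᵥ (Z *ᵥ v)) (c := (J *ᵥ w) ⬝ᵥ (Z *ᵥ w)) hv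
    have hexp : ∀ s : K, (J *ᵥ (v + s • w)) ⬝ᵥ (Z *ᵥ (v + s • w)) =
        (J *ᵥ v) ⬝ᵥ (Z *ᵥ v) + s * ((J *ᵥ v) ⬝ᵥ (Z *ᵥ w) + (J *ᵥ w) ⬝ᵥ (Z *ᵥ v)) +
          s ^ 2 * ((J *ᵥ w) ⬝ᵥ (Z *ᵥ w)) := by
      intro s
      simp only [Matrix.mulVec_add, Matrix.mulVec_smul, add_dotProduct, dotProduct_add,
        smul_dotProduct, dotProduct_smul, smul_eq_mul]
      ring
    have h3 : ∀ s : K, s ≠ 0 → ev1 J (v + s • w) ∈ I → sy J v w + s • ev1 J w ∈ I := by
      intro s hs h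
      rw [ev1_add] at h
      have h4 := I.smul_mem s⁻¹ (I.sub_mem h (h1 v hv))
      have h5 : s⁻¹ • (ev1 J v + s • sy J v w + s ^ 2 • ev1 J w - ev1 J v) =
          sy J v w + s • ev1 J w := by
        rw [add_sub_right_comm, add_sub_cancel_left, smul_add, smul_smul, smul_smul,
          inv_mul_cancel₀ hs, one_smul, pow_two, ← mul_assoc, inv_mul_cancel₀ hs, one_mul]
      rwa [h5] at h4
    have e1 := h3 s hs (h1 _ (by rw [hexp]; exact hs'))
    have e2 := h3 t ht (h1 _ (by rw [hexp]; exact ht'))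
    have e3 := I.smul_mem (s - t)⁻¹ (I.sub_mem e1 e2)
    rw [add_sub_add_left_eq_sub, ← sub_smul, smul_smul, inv_mul_cancel₀ (sub_ne_zero.2 hst),
      one_smul] at e3
    exact e3
  have h3 : ∀ v w, sy J v w ∈ I := by
    intro v w
    have e1 := h2 (v + (1 : K) • w)
    rw [ev1_add, one_smul, one_pow, one_smul] at e1
    have e2 := I.sub_mem (I.sub_mem e1 (h2 w)) (h2 v)
    rwa [add_sub_cancel_right, add_sub_cancel_left] at e2
  rw [sp_span hJ hdet hX]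
  exact I.smul_mem _ (I.sum_mem fun p _ => h3 _ _)

end sp

end

end Pool.Agent.R932
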