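import Pool.Agent.R932.Idl

/-!
# Subspaces of matrices stable under the orthogonal Lie algebra
-/

set_option autoImplicit false
set_option linter.unusedSectionVars false

namespace Pool.Agent.R932

open Matrix Pool.Agent.Y177.SU
open Pool.Agent.Y95.MT hiding up

noncomputable section

variable {K : Type} [Field K] [CharZero K] {Ω : Type} [Field Ω] [Algebra K Ω] {N : ℕ}

theorem wd_up {Q : Matrix (Fin N) (Fin N) K} (a b : Fin N → K) :
    wd (up Ω Q) (upv Ω a) (upv Ω b) = up Ω (wd Q a b) := by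
  unfold wd
  rw [← upv_mulVec, ← upv_mulVec]
  ext i j
  simp [up, upv, vecMulVec_apply]

theorem wd_sum_left {K : Type} [Field K] {ι : Type} {N : ℕ} (Q : Matrix (Fin N) (Fin N) K)
    (s : Finset ι)
    (f : ι → K) (a : ι → Fin N → K) (b : Fin N → K) :
    wd Q (∑ i ∈ s, f i • a i) b = ∑ i ∈ s, f i • wd Q (a i) b := by
  classical
  induction s using Finset.induction_on with
  | empty =>
    ext i j
    simp [wd]
  | insert i s hi ih =>
    rw [Finset.sum_insert hi, Finset.sum_insert hi, ← ih, wd_anti, wd_add, neg_add, wd_smul,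
      ← smul_neg, ← wd_anti, ← wd_anti]

theorem wd_basis {K : Type} [Field K] {N : ℕ} (Q : Matrix (Fin N) (Fin N) K) (a b : Fin N → K) :
    wd Q a b = ∑ p : Fin N, ∑ q : Fin N, (a p * b q) • wd Q (Pi.single p 1) (Pi.single q 1) := by
  have h1 : ∀ a : Fin N → K, a = ∑ p, a p • (Pi.single p 1 : Fin N → K) := by
    intro a
    funext i
    simp [Finset.sum_apply, Pi.single_apply]
  conv_lhs => rw [h1 a, wd_sum_left]
  refine Finset.sum_congr rfl fun p _ => ?_
  rw [wd_anti]
  conv_lhs => rw [h1 b, wd_sum_left]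
  rw [← Finset.sum_neg_distrib, Finset.smul_sum]
  refine Finset.sum_congr rfl fun q _ => ?_
  rw [← smul_neg, ← wd_anti, smul_smul]

theorem so_span {Q : Matrix (Fin N) (Fin N) K} (hQ : Qᵀ = Q) (hdet : Q.det ≠ 0)
    {X : Matrix (Fin N) (Fin N) K} (hX : Xᵀ * Q + Q * X = 0) :
    X = (2 : K)⁻¹ • ∑ p : Fin N, wd Q (X *ᵥ Pi.single p 1) (Q⁻¹ *ᵥ Pi.single p 1) := by
  have hu : IsUnit Q.det := isUnit_iff_ne_zero.2 hdet
  have h1 : ∑ p : Fin N, vecMulVec (X *ᵥ Pi.single p 1) (Q *ᵥ (Q⁻¹ *ᵥ Pi.single p 1)) = X := by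
    ext i j
    rw [Matrix.sum_apply]
    have h2 : ∀ p : Fin N, vecMulVec (X *ᵥ Pi.single p 1) (Q *ᵥ (Q⁻¹ *ᵥ Pi.single p 1)) i j =
        X i p * (if j = p then 1 else 0) := by
      intro p
      rw [vecMulVec_apply, Matrix.mulVec_mulVec, Matrix.mul_nonsing_inv _ hu, Matrix.one_mulVec,
        Matrix.mulVec_single_one, Matrix.col_apply, Pi.single_apply]
    rw [Finset.sum_congr rfl fun p _ => h2 p]
    simp
  have h2 : ∑ p : Fin N, vecMulVec (Q⁻¹ *ᵥ Pi.single p 1) (Q *ᵥ (X *ᵥ Pi.single p 1)) = -X := by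
    have h3 : ∑ p : Fin N, vecMulVec (Q⁻¹ *ᵥ Pi.single p 1) (Q *ᵥ (X *ᵥ Pi.single p 1)) =
        Q⁻¹ * (Q * X)ᵀ := by
      ext i j
      rw [Matrix.sum_apply, Matrix.mul_apply]
      refine Finset.sum_congr rfl fun p _ => ?_
      rw [vecMulVec_apply, Matrix.mulVec_mulVec, Matrix.mulVec_single_one,
        Matrix.mulVec_single_one, Matrix.col_apply, Matrix.col_apply, Matrix.transpose_apply]
    rw [h3, Matrix.transpose_mul, hQ, eq_neg_of_add_eq_zero_left hX, mul_neg, ← mul_assoc,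
      Matrix.nonsing_inv_mul _ hu, one_mul]
  unfold wd
  rw [Finset.sum_sub_distrib, h1, h2, sub_neg_eq_add, ← two_smul K X, smul_smul,
    inv_mul_cancel₀ two_ne_zero, one_smul]

theorem so_ideal {Q : Matrix (Fin N) (Fin N) K} (hQ : Qᵀ = Q) (hdet : Q.det ≠ 0) (h5 : 5 ≤ N)
    (I : Submodule K (Matrix (Fin N) (Fin N) K))
    (hI : ∀ X, Xᵀ * Q + Q * X = 0 → ∀ Z ∈ I, X * Z - Z * X ∈ I)
    {Z : Matrix (Fin N) (Fin N) K} (hZ : Z ∈ I) (hZs : Zᵀ * Q + Q * Z = 0) (hZ0 : Z ≠ 0)
    {X : Matrix (Fin N) (Fin N) K} (hX : Xᵀ * Q + Q * X = 0) : X ∈ I := by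
  classical
  let Ω := AlgebraicClosure K
  let L : Submodule Ω (Matrix (Fin N) (Fin N) Ω) := Submodule.span Ω (up Ω '' {A | A ∈ I})
  have hL : ∀ x ∈ (⊤ : Submodule Ω (Fin N → Ω)), ∀ d ∈ (⊤ : Submodule Ω (Fin N → Ω)), ∀ M ∈ L,
      wd (up Ω Q) x d * M - M * wd (up Ω Q) x d ∈ L := by
    intro x _ d _ M hM
    rw [wd_basis]
    have h1 : ∀ p q : Fin N, wd (up Ω Q) (Pi.single p 1) (Pi.single q 1) * M -
        M * wd (up Ω Q) (Pi.single p 1) (Pi.single q 1) ∈ L := by
      intro p q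
      have h2 : wd (up Ω Q) (Pi.single p 1) (Pi.single q 1) =
          up Ω (wd Q (Pi.single p 1) (Pi.single q 1)) := by
        rw [← wd_up, upv_single, upv_single]
      rw [h2]
      refine Submodule.span_induction (p := fun M _ =>
        up Ω (wd Q (Pi.single p 1) (Pi.single q 1)) * M -
          M * up Ω (wd Q (Pi.single p 1) (Pi.single q 1)) ∈ L) ?_ ?_ ?_ ?_ hM
      · rintro _ ⟨Z, hZ, rfl⟩
        rw [← up_mul, ← up_mul]
        have h3 : up Ω (wd Q (Pi.single p 1) (Pi.single q 1) * Z) -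
            up Ω (Z * wd Q (Pi.single p 1) (Pi.single q 1)) =
            up Ω (wd Q (Pi.single p 1) (Pi.single q 1) * Z -
              Z * wd Q (Pi.single p 1) (Pi.single q 1)) := by
          ext i j
          exact (map_sub (algebraMap K Ω) _ _).symm
        rw [h3]
        exact Submodule.subset_span ⟨_, hI _ (wd_skew hQ _ _) Z hZ, rfl⟩
      · rw [mul_zero, zero_mul, sub_zero]
        exact L.zero_mem
      · intro A B _ _ hA hB
        have h3 := L.add_mem hA hB
        have h4 : ∀ W A B : Matrix (Fin N) (Fin N) Ω,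
            W * A - A * W + (W * B - B * W) = W * (A + B) - (A + B) * W := by
          intro W A B
          noncomm_ring
        rwa [h4] at h3
      · intro c A _ hA
        have h3 := L.smul_mem c hA
        rwa [smul_sub, ← mul_smul_comm, ← smul_mul_assoc] at h3
    rw [Finset.sum_mul, Finset.mul_sum, ← Finset.sum_sub_distrib]
    refine L.sum_mem fun p _ => ?_
    rw [Finset.sum_mul, Finset.mul_sum, ← Finset.sum_sub_distrib]
    refine L.sum_mem fun q _ => ?_
    rw [smul_mul_assoc, mul_smul_comm, ← smul_sub]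
    exact L.smul_mem _ (h1 p q)
  have hZL : up Ω Z ∈ L := Submodule.subset_span ⟨Z, hZ, rfl⟩
  have hQ' : (up Ω Q)ᵀ = up Ω Q := by rw [← up_transpose, hQ]
  have hZs' : (up Ω Z)ᵀ * up Ω Q + up Ω Q * up Ω Z = 0 := by
    rw [← up_transpose, ← up_mul, ← up_mul, ← up_add, hZs]
    ext i j
    simp [up]
  have hdet' : (up Ω Q).det ≠ 0 := by
    have h1 : (up Ω Q).det = algebraMap K Ω Q.det := by
      rw [RingHom.map_det]
      rfl
    rw [h1]
    exact (map_ne_zero _).2 hdet
  obtain ⟨w, hw⟩ : ∃ w : Fin N → Ω, up Ω Z *ᵥ w ≠ 0 := by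
    by_contra h
    push Not at h
    apply hZ0
    ext i j
    have h1 := congrFun (h (Pi.single j 1)) i
    rw [Matrix.mulVec_single_one, Matrix.col_apply] at h1
    exact (map_eq_zero (algebraMap K Ω)).1 h1
  have hall : ∀ a b : Fin N → Ω, wd (up Ω Q) a b ∈ L := by
    intro a b
    refine mat_simple (U := ⊤) hQ' (fun a _ h => ?_) ?_ hL hZL hZs' (fun a _ => trivial)
      (w := w) trivial hw trivial trivial
    · have h1 : a ᵥ* up Ω Q = 0 := by
        funext j
        have h2 := h (Pi.single j 1) trivial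
        rwa [Matrix.dotProduct_mulVec, dotProduct_single_one] at h2
      by_contra ha
      exact hdet' (Matrix.exists_vecMul_eq_zero_iff.1 ⟨a, ha, h1⟩)
    · rw [finrank_top, Module.finrank_fintype_fun_eq_card, Fintype.card_fin]
      exact h5
  -- descend
  obtain ⟨r, hr⟩ := (Algebra.linearMap K Ω).exists_leftInverse_of_injective
    (LinearMap.ker_eq_bot.2 (algebraMap K Ω).injective)
  have hr1 : ∀ x : K, r (algebraMap K Ω x) = x := fun x => by
    have := congrArg (fun f => f x) hr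
    simpa using this
  have hdesc : ∀ M ∈ L, ∀ lm : Ω →ₗ[K] K, M.map lm ∈ I := by
    intro M hM
    refine Submodule.span_induction (p := fun M _ => ∀ lm : Ω →ₗ[K] K, M.map lm ∈ I)
      ?_ ?_ ?_ ?_ hM
    · rintro _ ⟨Z, hZ, rfl⟩ lm
      have h1 : (up Ω Z).map lm = lm 1 • Z := by
        ext i j
        show lm (algebraMap K Ω (Z i j)) = lm 1 * Z i j
        rw [Algebra.algebraMap_eq_smul_one, map_smul, smul_eq_mul, mul_comm]
      rw [h1]
      exact I.smul_mem _ hZ
    · intro lm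
      have h1 : (0 : Matrix (Fin N) (Fin N) Ω).map lm = 0 := by
        ext i j
        exact map_zero lm
      rw [h1]
      exact I.zero_mem
    · intro A B _ _ hA hB lm
      have h1 : (A + B).map lm = A.map lm + B.map lm := by
        ext i j
        exact map_add lm _ _
      rw [h1]
      exact I.add_mem (hA lm) (hB lm)
    · intro c A _ hA lm
      exact hA (lm ∘ₗ (LinearMap.mulLeft K c))
  have hwd : ∀ a b : Fin N → K, wd Q a b ∈ I := by
    intro a b
    have h1 := hdesc _ (hall (upv Ω a) (upv Ω b)) r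
    rw [wd_up] at h1
    have h2 : (up Ω (wd Q a b)).map r = wd Q a b := by
      ext i j
      exact hr1 _
    rwa [h2] at h1
  rw [so_span hQ hdet hX]
  exact I.smul_mem _ (I.sum_mem fun p _ => hwd _ _)

end

end Pool.Agent.R932
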