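import Mathlib
import Pool.Agent.Y614.ZD.Badd
import Pool.Agent.Y949.SI.Lin
import Pool.Agent.Y142.ZI.Full

/-!
# Stable subspaces of orthogonal representations
-/

set_option autoImplicit false
set_option linter.unusedSectionVars false

open Matrix Polynomial Filter Topology
open Pool.Agent.Y142.ZO Pool.Agent.Y142.ZI Pool.Agent.Y142.ZD Pool.Agent.Y379.ZI

namespace Pool.Agent.R932

section field

variable {F : Type} [Field F] {N : ℕ}

theorem bil_comm {B : Matrix (Fin N) (Fin N) F} (hB : Bᵀ = B) (x y : Fin N → F) :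
    bil B x y = bil B y x := by
  unfold bil
  rw [dotProduct_mulVec, ← mulVec_transpose, hB, dotProduct_comm]

theorem bil_smul_left (B : Matrix (Fin N) (Fin N) F) (a : F) (x y : Fin N → F) :
    bil B (a • x) y = a * bil B x y := by
  unfold bil
  rw [smul_dotProduct, smul_eq_mul]

theorem bil_smul_right (B : Matrix (Fin N) (Fin N) F) (a : F) (x y : Fin N → F) :
    bil B x (a • y) = a * bil B x y := by
  unfold bil
  rw [mulVec_smul, dotProduct_smul, smul_eq_mul]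

theorem bil_add_right (B : Matrix (Fin N) (Fin N) F) (x y z : Fin N → F) :
    bil B x (y + z) = bil B x y + bil B x z := by
  unfold bil; rw [mulVec_add, dotProduct_add]

/-- an isotropic eigenvector gives a factor of degree two -/
theorem factor_two {B g : Matrix (Fin N) (Fin N) F} (hB : Bᵀ = B) (hdet : B.det ≠ 0)
    (hg : Isom B g) (hsep : g.charpoly.Separable) [Infinite F] {w : Fin N → F} (hw : w ≠ 0)
    {a : F} (hwa : g *ᵥ w = a • w) (hiso : bil B w w = 0) :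
    ∃ R : F[X], R.Monic ∧ R.natDegree = 2 ∧ R ∣ g.charpoly := by
  have ha0 : a ≠ 0 := by
    rintro rfl
    rw [zero_smul] at hwa
    apply hw
    apply bil_nondeg B hdet
    intro y
    rw [← bil_isom B g hg, hwa]
    unfold bil
    rw [zero_dotProduct]
  -- `w` is orthogonal to the image of `g - a⁻¹`
  have horth : ∀ y, bil B w (g *ᵥ y - a⁻¹ • y) = 0 := by
    intro y
    have h1 := bil_isom B g hg w y
    rw [hwa, bil_smul_left] at h1
    rw [Y379.ZI.bil_sub_right, bil_smul_right, ← h1, inv_mul_cancel_left₀ ha0, sub_self]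
  have hroot : g.charpoly.eval a⁻¹ = 0 := by
    by_contra hne
    -- then `g - a⁻¹` is surjective
    apply hw
    apply bil_nondeg B hdet
    intro y
    obtain ⟨q, hq⟩ : (X - C a⁻¹) ∣ g.charpoly - C (g.charpoly.eval a⁻¹) := by
      rw [dvd_iff_isRoot, IsRoot.def, eval_sub, eval_C, sub_self]
    have h2 : y = g *ᵥ (-(g.charpoly.eval a⁻¹)⁻¹ • (aeval g q) *ᵥ y) -
        a⁻¹ • (-(g.charpoly.eval a⁻¹)⁻¹ • (aeval g q) *ᵥ y) := by
      have h3 : (aeval g ((X - C a⁻¹) * q)) *ᵥ y = -(g.charpoly.eval a⁻¹) • y := by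
        rw [← hq, map_sub, Matrix.aeval_self_charpoly, aeval_C, Algebra.algebraMap_eq_smul_one,
          zero_sub, Matrix.neg_mulVec, Matrix.smul_mulVec, Matrix.one_mulVec, neg_smul]
      rw [map_mul, map_sub, aeval_X, aeval_C, Algebra.algebraMap_eq_smul_one,
        ← Matrix.mulVec_mulVec, Matrix.sub_mulVec, Matrix.smul_mulVec, Matrix.one_mulVec] at h3
      rw [Matrix.mulVec_smul, smul_comm a⁻¹, ← smul_sub, h3, smul_smul, neg_mul_neg,
        inv_mul_cancel₀ hne, one_smul]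
    rw [h2]
    exact horth _
  -- an eigenvector for `a⁻¹` which is not orthogonal to `w`
  obtain ⟨q, hq⟩ := (dvd_iff_isRoot (p := g.charpoly) (a := a⁻¹)).2 hroot
  have hcop : IsCoprime (X - C a⁻¹) q := by
    have h1 : ((X - C a⁻¹) * q).Separable := by rw [← hq]; exact hsep
    exact h1.isCoprime
  obtain ⟨u, v, huv⟩ := hcop
  have hker : ∃ z, g *ᵥ z = a⁻¹ • z ∧ bil B w z ≠ 0 := by
    by_contra hcon
    push Not at hcon
    apply hw
    apply bil_nondeg B hdet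
    intro y
    have h1 : y = (aeval g ((X - C a⁻¹) * u)) *ᵥ y + (aeval g (v * q)) *ᵥ y := by
      rw [← Matrix.add_mulVec, ← map_add, mul_comm (X - C a⁻¹) u, huv, map_one,
        Matrix.one_mulVec]
    rw [h1, bil_add_right]
    have h2 : bil B w ((aeval g ((X - C a⁻¹) * u)) *ᵥ y) = 0 := by
      rw [map_mul, map_sub, aeval_X, aeval_C, Algebra.algebraMap_eq_smul_one,
        ← Matrix.mulVec_mulVec, Matrix.sub_mulVec, Matrix.smul_mulVec, Matrix.one_mulVec]
      exact horth _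
    have h3 : bil B w ((aeval g (v * q)) *ᵥ y) = 0 := by
      apply hcon
      have h4 : (aeval g ((X - C a⁻¹) * (v * q))) *ᵥ y = 0 := by
        have h5 : (X - C a⁻¹) * (v * q) = v * g.charpoly := by rw [hq]; ring
        rw [h5, map_mul, Matrix.aeval_self_charpoly, mul_zero, Matrix.zero_mulVec]
      rw [map_mul, map_sub, aeval_X, aeval_C, Algebra.algebraMap_eq_smul_one,
        ← Matrix.mulVec_mulVec, Matrix.sub_mulVec, Matrix.smul_mulVec, Matrix.one_mulVec,
        sub_eq_zero] at h4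
      exact h4
    rw [h2, h3, add_zero]
  obtain ⟨z, hz, hwz⟩ := hker
  have hra : g.charpoly.eval a = 0 := by
    rw [Matrix.eval_charpoly, ← Matrix.exists_mulVec_eq_zero_iff]
    refine ⟨w, hw, ?_⟩
    rw [Matrix.sub_mulVec, hwa, Matrix.scalar_apply, ← Matrix.smul_one_eq_diagonal,
      Matrix.smul_mulVec, Matrix.one_mulVec, sub_self]
  by_cases haa : a = a⁻¹
  · -- two independent eigenvectors
    exfalso
    have hse : (toLin' g).charpoly.Separable := by rwa [Matrix.charpoly_toLin']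
    have h1 := Pool.Agent.Y949.SI.ker_le (toLin' g) hse (X - C a) (X_sub_C_ne_zero a)
    rw [natDegree_X_sub_C, finrank_le_one_iff] at h1
    have hk : ∀ v, g *ᵥ v = a • v → v ∈ LinearMap.ker (aeval (toLin' g) (X - C a)) := by
      intro v hv
      rw [LinearMap.mem_ker, map_sub, aeval_X, aeval_C, LinearMap.sub_apply, toLin'_apply, hv,
        Module.algebraMap_end_apply, sub_self]
    rw [← haa] at hz
    obtain ⟨v0, hv0⟩ := h1
    obtain ⟨c, hc⟩ := hv0 ⟨w, hk w hwa⟩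
    obtain ⟨d, hd⟩ := hv0 ⟨z, hk z hz⟩
    have hc' : c • (v0 : Fin N → F) = w := congrArg Subtype.val hc
    have hd' : d • (v0 : Fin N → F) = z := congrArg Subtype.val hd
    have hc0 : c ≠ 0 := by
      rintro rfl
      rw [zero_smul] at hc'
      exact hw hc'.symm
    apply hwz
    have h5 : z = (d / c) • w := by
      rw [← hd', ← hc', smul_smul, div_mul_cancel₀ _ hc0]
    rw [h5, bil_smul_right, hiso, mul_zero]
  · refine ⟨(X - C a) * (X - C a⁻¹), (monic_X_sub_C a).mul (monic_X_sub_C _), ?_, ?_⟩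
    · rw [(monic_X_sub_C a).natDegree_mul (monic_X_sub_C _), natDegree_X_sub_C,
        natDegree_X_sub_C]
    · refine IsCoprime.mul_dvd ?_ (dvd_iff_isRoot.2 hra) (dvd_iff_isRoot.2 hroot)
      exact isCoprime_X_sub_C_of_isUnit_sub (sub_ne_zero.2 haa).isUnit

end field

section rep

variable {ℓ : ℕ} [Fact ℓ.Prime] {N : ℕ} {G : Type} [Group G] [TopologicalSpace G]
  [IsTopologicalGroup G] [CompactSpace G] {ρ : G →* Matrix (Fin N) (Fin N) ℚ_[ℓ]}
  {B : Matrix (Fin N) (Fin N) ℚ_[ℓ]}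

/-- subspaces stable under an open subgroup are stable under regular elements -/
theorem stable_reg {U : Subgroup G} (hU : IsOpen (U : Set G))
    {W : Submodule ℚ_[ℓ] (Fin N → ℚ_[ℓ])} (hWU : ∀ σ ∈ U, ∀ w ∈ W, ρ σ *ᵥ w ∈ W) {σ : G}
    (hsep : (ρ σ).charpoly.Separable) (hdist : DistPow ℓ (ρ σ).charpoly) :
    ∀ w ∈ W, ρ σ *ᵥ w ∈ W := by
  set f : Module.End ℚ_[ℓ] (Fin N → ℚ_[ℓ]) := toLin' (ρ σ) with hf
  have hfc : f.charpoly = (ρ σ).charpoly := by
    rw [hf, Matrix.charpoly_toLin']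
  obtain ⟨k, hk, hkU⟩ : ∃ k : ℕ, 0 < k ∧ σ ^ k ∈ U := by
    have : Finite (G ⧸ U) := U.quotient_finite_of_isOpen hU
    have hidx : U.index ≠ 0 := Subgroup.index_ne_zero_of_finite
    obtain ⟨n, hn, _, hmem⟩ := Subgroup.exists_pow_mem_of_index_ne_zero hidx σ
    exact ⟨n, hn, hmem⟩
  have hpow : ∀ x, (f ^ k) x = ρ (σ ^ k) *ᵥ x := by
    intro x
    rw [map_pow, hf, ← toLin'_pow, toLin'_apply]
  obtain ⟨P, hP⟩ := Pool.Agent.Y614.ZD.exists_poly_sep _ (Matrix.charpoly_monic (ρ σ)) hsep k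
    (fun x y hx hy hxy => hdist k x y hk hx hy hxy)
  rw [← hfc] at hP
  have hstab : ∀ w ∈ W, f w ∈ W := by
    apply stable_of_pow f W k _ P hP
    intro w hw
    rw [hpow]
    exact hWU _ hkU w hw
  intro w hw
  have h1 := hstab w hw
  rwa [hf, toLin'_apply] at h1

/-- a stable line is a Tate subquotient -/
theorem tate_of_line (hρ : Continuous ρ) (hB : Bᵀ = B) (hdet : B.det ≠ 0)
    (hiso : ∀ g, Isom B (ρ g)) {U : Subgroup G} (hU : IsOpen (U : Set G)) {w : Fin N → ℚ_[ℓ]}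
    (hw : w ≠ 0) (hwU : ∀ τ ∈ U, ∃ a : ℚ_[ℓ], ρ τ *ᵥ w = a • w) {σ : G}
    (hsep : (ρ σ).charpoly.Separable) (hdist : DistPow ℓ (ρ σ).charpoly)
    (hno : ∀ R : ℚ_[ℓ][X], R.Monic → R ∣ (ρ σ).charpoly → R.natDegree ≠ 2) :
    TateSubquotient ℓ ρ := by
  have hspan : ∀ x ∈ Submodule.span ℚ_[ℓ] {w}, ∃ a : ℚ_[ℓ], a • w = x := fun x hx =>
    Submodule.mem_span_singleton.1 hx
  have hσw : ∃ a : ℚ_[ℓ], ρ σ *ᵥ w = a • w := by
    obtain ⟨a, ha⟩ := hspan _ (stable_reg (W := Submodule.span ℚ_[ℓ] {w}) hU (fun τ hτ x hx => by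
      obtain ⟨a, rfl⟩ := hspan x hx
      obtain ⟨b, hb⟩ := hwU τ hτ
      rw [mulVec_smul, hb]
      exact Submodule.smul_mem _ _ (Submodule.smul_mem _ _ (Submodule.mem_span_singleton_self w)))
      hsep hdist w (Submodule.mem_span_singleton_self w))
    exact ⟨a, ha.symm⟩
  obtain ⟨a, ha⟩ := hσw
  have hww : bil B w w ≠ 0 := by
    intro h0
    obtain ⟨R, hR1, hR2, hR3⟩ := factor_two hB hdet (hiso σ) hsep hw ha h0
    exact hno R hR1 hR3 hR2
  have hpm : ∀ τ ∈ U, ρ τ *ᵥ w = w ∨ ρ τ *ᵥ w = -w := by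
    intro τ hτ
    obtain ⟨b, hb⟩ := hwU τ hτ
    have h1 := bil_isom B _ (hiso τ) w w
    rw [hb, bil_smul_left, bil_smul_right] at h1
    have h2 : b * b = 1 := by
      have h3 : (b * b) * bil B w w = 1 * bil B w w := by rw [one_mul, mul_assoc]; exact h1
      exact mul_right_cancel₀ hww h3
    rcases mul_self_eq_one_iff.1 h2 with h | h
    · left; rw [hb, h, one_smul]
    · right; rw [hb, h, neg_smul, one_smul]
  have hne : w ≠ -w := by
    intro h
    apply hw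
    have h1 : (2 : ℚ_[ℓ]) • w = 0 := by
      rw [two_smul]
      nth_rewrite 2 [h]
      rw [add_neg_cancel]
    exact (smul_eq_zero.1 h1).resolve_left two_ne_zero
  let U' : Subgroup G :=
    { carrier := {τ | τ ∈ U ∧ ρ τ *ᵥ w = w}
      one_mem' := ⟨U.one_mem, by rw [map_one, one_mulVec]⟩
      mul_mem' := by
        rintro a b ⟨ha, ha'⟩ ⟨hb, hb'⟩
        exact ⟨U.mul_mem ha hb, by rw [map_mul, ← mulVec_mulVec, hb', ha']⟩
      inv_mem' := by
        rintro a ⟨ha, ha'⟩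
        refine ⟨U.inv_mem ha, ?_⟩
        conv_lhs => rw [← ha']
        rw [mulVec_mulVec, ← map_mul, inv_mul_cancel, map_one, one_mulVec] }
  have hU' : IsOpen (U' : Set G) := by
    have hUcl : IsClosed (U : Set G) := Subgroup.isClosed_of_isOpen U hU
    have h1 : (U' : Set G) = (U : Set G) \ ((U : Set G) ∩ {τ | ρ τ *ᵥ w = -w}) := by
      ext τ
      constructor
      · rintro ⟨h1, h2⟩
        refine ⟨h1, fun h3 => hne ?_⟩
        rw [← h3.2, h2]
      · rintro ⟨h1, h2⟩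
        refine ⟨h1, ?_⟩
        rcases hpm τ h1 with h | h
        · exact h
        · exact absurd ⟨h1, h⟩ h2
    rw [h1]
    refine hU.sdiff (hUcl.inter ?_)
    have h2 : Continuous fun τ => ρ τ *ᵥ w := hρ.matrix_mulVec continuous_const
    exact isClosed_eq h2 continuous_const
  refine ⟨U', ⊥, Submodule.span ℚ_[ℓ] {w}, hU', ?_, ?_⟩
  · rw [bot_lt_iff_ne_bot]
    intro h
    exact hw ((Submodule.span_singleton_eq_bot).1 h)
  · rintro τ ⟨-, hτ⟩ x hx
    obtain ⟨b, rfl⟩ := hspan x hx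
    rw [mulVec_smul, hτ, sub_self]
    exact Submodule.zero_mem _

theorem orth_stable (hiso : ∀ g, Isom B (ρ g)) {U : Subgroup G}
    {W : Submodule ℚ_[ℓ] (Fin N → ℚ_[ℓ])} (hWU : ∀ σ ∈ U, ∀ w ∈ W, ρ σ *ᵥ w ∈ W) :
    ∀ σ ∈ U, ∀ w ∈ orth B W, ρ σ *ᵥ w ∈ orth B W := by
  intro τ hτ x hx w hw
  have hinv : ρ τ *ᵥ (ρ τ⁻¹ *ᵥ w) = w := by
    rw [mulVec_mulVec, ← map_mul, mul_inv_cancel, map_one, one_mulVec]
  have h1 : bil B (ρ τ *ᵥ x) (ρ τ *ᵥ (ρ τ⁻¹ *ᵥ w)) = bil B x (ρ τ⁻¹ *ᵥ w) :=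
    bil_isom B _ (hiso τ) _ _
  rw [hinv] at h1
  rw [h1]
  exact hx _ (hWU _ (U.inv_mem hτ) w hw)

theorem orth_finrank (hdet : B.det ≠ 0) (W : Submodule ℚ_[ℓ] (Fin N → ℚ_[ℓ])) :
    Module.finrank ℚ_[ℓ] (orth B W) + Module.finrank ℚ_[ℓ] W = N := by
  let φ : (Fin N → ℚ_[ℓ]) →ₗ[ℚ_[ℓ]] Module.Dual ℚ_[ℓ] (Fin N → ℚ_[ℓ]) :=
    { toFun := fun x =>
        { toFun := fun y => bil B x y
          map_add' := bil_add_right B x
          map_smul' := fun a y => bil_smul_right B a x y }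
      map_add' := by
        intro x y
        ext z
        simp [bil]
      map_smul' := by
        intro a x
        ext z
        simp [bil] }
  have hφ : Function.Injective φ := by
    rw [injective_iff_map_eq_zero]
    intro x hx
    apply bil_nondeg B hdet
    intro y
    exact congrArg (fun f : Module.Dual ℚ_[ℓ] (Fin N → ℚ_[ℓ]) => f y) hx
  have hbij : Function.Bijective φ := by
    refine ⟨hφ, ?_⟩
    exact (LinearMap.injective_iff_surjective_of_finrank_eq_finrank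
      (Subspace.dual_finrank_eq).symm).1 hφ
  let e := LinearEquiv.ofBijective φ hbij
  have h1 : orth B W = (W.dualAnnihilator).comap φ := by
    ext x
    rw [Submodule.mem_comap, Submodule.mem_dualAnnihilator]
    rfl
  have h2 : Module.finrank ℚ_[ℓ] (orth B W) = Module.finrank ℚ_[ℓ] W.dualAnnihilator := by
    rw [h1]
    exact LinearEquiv.finrank_eq (e.ofSubmodule' W.dualAnnihilator)
  rw [h2, add_comm, Subspace.finrank_add_finrank_dualAnnihilator_eq, Module.finrank_fin_fun]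

/-- strong irreducibility in odd dimension -/
theorem strong_odd (hρ : Continuous ρ) (hB : Bᵀ = B) (hdet : B.det ≠ 0)
    (hiso : ∀ g, Isom B (ρ g))
    (hsub : ∀ (U : Subgroup G) (W : Submodule ℚ_[ℓ] (Fin N → ℚ_[ℓ])), IsOpen (U : Set G) →
      (∀ σ ∈ U, ∀ w ∈ W, ρ σ *ᵥ w ∈ W) → 2 ≤ Module.finrank ℚ_[ℓ] W →
      Module.finrank ℚ_[ℓ] W + 2 ≤ N → False)
    {σ : G} (hsep : (ρ σ).charpoly.Separable) (hdist : DistPow ℓ (ρ σ).charpoly)
    (hno : ∀ R : ℚ_[ℓ][X], R.Monic → R ∣ (ρ σ).charpoly → R.natDegree ≠ 2)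
    (hT : ¬ TateSubquotient ℓ ρ) : StronglyIrreducible ℓ ρ := by
  intro U W hU hW
  by_contra hcon
  push Not at hcon
  obtain ⟨h0, h1⟩ := hcon
  -- a stable line
  have hline : ∀ W : Submodule ℚ_[ℓ] (Fin N → ℚ_[ℓ]), (∀ σ ∈ U, ∀ w ∈ W, ρ σ *ᵥ w ∈ W) →
      Module.finrank ℚ_[ℓ] W = 1 → False := by
    intro W hW hd
    obtain ⟨w, hw0, hw⟩ := finrank_eq_one_iff'.1 hd
    refine hT (tate_of_line hρ hB hdet hiso hU (w := w.1) (fun h => hw0 (Subtype.ext h)) ?_ hsep
      hdist hno)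
    intro τ hτ
    obtain ⟨a, ha⟩ := hw ⟨ρ τ *ᵥ w.1, hW τ hτ _ w.2⟩
    exact ⟨a, (congrArg Subtype.val ha).symm⟩
  have hd0 : Module.finrank ℚ_[ℓ] W ≠ 0 := fun h => h0 (Submodule.finrank_eq_zero.1 h)
  have hdle : Module.finrank ℚ_[ℓ] W ≤ N := by
    have := Submodule.finrank_le W
    rwa [Module.finrank_fin_fun] at this
  have hdN : Module.finrank ℚ_[ℓ] W ≠ N := fun h => h1 (Submodule.eq_top_of_finrank_eq (by
    rw [h, Module.finrank_fin_fun]))
  have hd1 : Module.finrank ℚ_[ℓ] W ≠ 1 := fun h => hline W hW h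
  have hd2 : ¬ (2 ≤ Module.finrank ℚ_[ℓ] W ∧ Module.finrank ℚ_[ℓ] W + 2 ≤ N) :=
    fun h => hsub U W hU hW h.1 h.2
  refine hline (orth B W) (orth_stable hiso hW) ?_
  have := orth_finrank hdet W
  omega

end rep

end Pool.Agent.R932
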