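import Pool.Agent.R932.BrC
import Pool.Agent.R932.Line
import Pool.Agent.Y100.ZD.Sub

/-!
# Stable subspaces of the reduction modulo `ℓ`
-/

set_option autoImplicit false
set_option linter.unusedSectionVars false
set_option linter.style.haveILetI false

open Matrix Polynomial
open Pool.Agent.Y142.ZO Pool.Agent.Y142.ZI Pool.Agent.Y337.ZO Pool.Agent.Y379.ZI

namespace Pool.Agent.R932

section lin
variable {F : Type} [Field F]

/-- the characteristic polynomial of the restriction to a stable subspace divides -/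
theorem factor_of_stable {V : Type} [AddCommGroup V] [Module F V] [FiniteDimensional F V]
    (f : Module.End F V) (W : Submodule F V) (hW : ∀ w ∈ W, f w ∈ W) :
    ∃ R : F[X], R.Monic ∧ R.natDegree = Module.finrank F W ∧ R ∣ f.charpoly := by
  classical
  obtain ⟨W', hc⟩ := Submodule.exists_isCompl W
  let e := Submodule.prodEquivOfIsCompl W W' hc
  let b := ((Module.finBasis F W).prod (Module.finBasis F W')).map e
  set M := LinearMap.toMatrix b b f with hM
  have h21 : M.toBlocks₂₁ = 0 := by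
    ext i j
    show M (Sum.inr i) (Sum.inl j) = 0
    rw [hM, LinearMap.toMatrix_apply]
    have h1 : b (Sum.inl j) ∈ W := by
      simp [b, e]
    have h2 : e.symm (f (b (Sum.inl j))) = (⟨f (b (Sum.inl j)), hW _ h1⟩, 0) := by
      rw [LinearEquiv.symm_apply_eq]
      simp [e]
    simp only [b, Module.Basis.map_repr, LinearEquiv.trans_apply] at h2 ⊢
    rw [h2]
    simp
  have hblocks : M = fromBlocks M.toBlocks₁₁ M.toBlocks₁₂ 0 M.toBlocks₂₂ := by
    rw [← h21, fromBlocks_toBlocks]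
  refine ⟨M.toBlocks₁₁.charpoly, Matrix.charpoly_monic _, ?_, ?_⟩
  · rw [Matrix.charpoly_natDegree_eq_dim, Fintype.card_fin]
  · rw [← LinearMap.charpoly_toMatrix f b, ← hM]
    nth_rewrite 2 [hblocks]
    rw [Matrix.charpoly_fromBlocks_zero₂₁]
    exact dvd_mul_right _ _

theorem factor_of_stableM {N : ℕ} (A : Matrix (Fin N) (Fin N) F) (W : Submodule F (Fin N → F))
    (hW : ∀ w ∈ W, A *ᵥ w ∈ W) :
    ∃ R : F[X], R.Monic ∧ R.natDegree = Module.finrank F W ∧ R ∣ A.charpoly := by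
  have := factor_of_stable (toLin' A) W (fun w hw => by rw [toLin'_apply]; exact hW w hw)
  rwa [Matrix.charpoly_toLin'] at this

/-- the kernel of a matrix with simple eigenvalue `0` is a line -/
theorem kerLine_of {N : ℕ} (M : Matrix (Fin N) (Fin N) F) (q : F[X]) (hM : M.charpoly = X * q)
    (hq : q.eval 0 ≠ 0) : ∃ y, KerLine M y := by
  have hdet : M.det = 0 := by
    rw [det_eq_sign_charpoly_coeff, hM, coeff_zero_eq_eval_zero, eval_mul, eval_X, zero_mul,
      mul_zero]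
  obtain ⟨y, hy0, hy⟩ := exists_mulVec_eq_zero_iff.2 hdet
  obtain ⟨i, hi⟩ := Function.ne_iff.1 hy0
  rw [Pi.zero_apply] at hi
  set b : Fin N → F := Pi.single i (y i)⁻¹ with hb
  have hyb : y ⬝ᵥ b = 1 := by
    rw [hb, dotProduct_single, mul_inv_cancel₀ hi]
  have hdp : (M + vecMulVec y b).det ≠ 0 := by
    rw [det_perturb M y b _ hy hM, hyb]
    exact mul_ne_zero (pow_ne_zero _ (neg_ne_zero.2 one_ne_zero))
      (mul_ne_zero hq (neg_ne_zero.2 one_ne_zero))
  refine ⟨y, hy0, hy, ?_⟩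
  intro x hx
  refine ⟨b ⬝ᵥ x, ?_⟩
  by_contra hne
  refine hdp (exists_mulVec_eq_zero_iff.1 ⟨x - (b ⬝ᵥ x) • y, sub_ne_zero.2 hne, ?_⟩)
  have e1 : vecMulVec y b *ᵥ x = (b ⬝ᵥ x) • y := by
    rw [vecMulVec_mulVec]
    ext j
    simp [mul_comm]
  have e2 : vecMulVec y b *ᵥ y = y := by
    rw [vecMulVec_mulVec, dotProduct_comm b y, hyb]
    ext j
    simp
  rw [mulVec_sub, add_mulVec, add_mulVec, mulVec_smul, mulVec_smul, hx, hy, e1, e2, smul_zero]
  simp

/-- simple eigenvalues have one-dimensional eigenspaces -/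
theorem eigen_line {N : ℕ} {g : Matrix (Fin N) (Fin N) F} (hsep : g.charpoly.Separable) {a : F}
    {w z : Fin N → F} (hw : w ≠ 0) (hwa : g *ᵥ w = a • w) (hza : g *ᵥ z = a • z) :
    ∃ c : F, z = c • w := by
  have hk : ∀ v : Fin N → F, g *ᵥ v = a • v → (g - scalar (Fin N) a) *ᵥ v = 0 := by
    intro v hv
    rw [Matrix.sub_mulVec, hv, Matrix.scalar_apply, ← Matrix.smul_one_eq_diagonal,
      Matrix.smul_mulVec, Matrix.one_mulVec, sub_self]
  have hra : g.charpoly.eval a = 0 := by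
    rw [Matrix.eval_charpoly, ← Matrix.exists_mulVec_eq_zero_iff]
    refine ⟨w, hw, ?_⟩
    rw [← neg_sub, Matrix.neg_mulVec, hk w hwa, neg_zero]
  obtain ⟨q, hq⟩ := (dvd_iff_isRoot (p := g.charpoly) (a := a)).2 hra
  have hqa : q.eval a ≠ 0 := by
    have h1 : ((X - C a) * q).Separable := by rw [← hq]; exact hsep
    obtain ⟨u, v, huv⟩ := h1.isCoprime
    intro h0
    have h2 := congrArg (eval a) huv
    rw [eval_add, eval_mul, eval_mul, h0, eval_sub, eval_X, eval_C, sub_self, mul_zero, mul_zero,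
      add_zero, eval_one] at h2
    exact zero_ne_one h2
  have hM : (g - scalar (Fin N) a).charpoly = X * q.comp (X + C a) := by
    rw [charpoly_sub_scalar g a, hq, mul_comp, sub_comp, X_comp, C_comp, add_sub_cancel_right]
  obtain ⟨y, -, -, hy⟩ := kerLine_of _ _ hM (by
    rw [eval_comp, eval_add, eval_X, eval_C, zero_add]
    exact hqa)
  obtain ⟨c, hc⟩ := hy w (hk w hwa)
  obtain ⟨d, hd⟩ := hy z (hk z hza)
  have hc0 : c ≠ 0 := by
    rintro rfl
    rw [zero_smul] at hc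
    exact hw hc
  exact ⟨d / c, by rw [hd, hc, smul_smul, div_mul_cancel₀ _ hc0]⟩

/-- an isotropic eigenvector gives a factor of degree two -/
theorem factor_two' {N : ℕ} {B g : Matrix (Fin N) (Fin N) F} (hdet : B.det ≠ 0)
    (hg : Isom B g) (hsep : g.charpoly.Separable) {w : Fin N → F} (hw : w ≠ 0)
    {a : F} (hwa : g *ᵥ w = a • w) (hiso : bil B w w = 0) :
    ∃ R : F[X], R.Monic ∧ R.natDegree = 2 ∧ R ∣ g.charpoly := by
  have ha0 : a ≠ 0 := by
    rintro rfl
    rw [zero_smul] at hwa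
    apply hw
    apply bil_nondeg B hdet
    intro y
    rw [← bil_isom B g hg, hwa]
    unfold bil
    rw [zero_dotProduct]
  -- `w` is orthogonal to the image of `g - a⁻¹`
  have horth : ∀ y, bil B w (g *ᵥ y - a⁻¹ • y) = 0 := by
    intro y
    have h1 := bil_isom B g hg w y
    rw [hwa, bil_smul_left] at h1
    rw [Y379.ZI.bil_sub_right, bil_smul_right, ← h1, inv_mul_cancel_left₀ ha0, sub_self]
  have hroot : g.charpoly.eval a⁻¹ = 0 := by
    by_contra hne
    -- then `g - a⁻¹` is surjective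
    apply hw
    apply bil_nondeg B hdet
    intro y
    obtain ⟨q, hq⟩ : (X - C a⁻¹) ∣ g.charpoly - C (g.charpoly.eval a⁻¹) := by
      rw [dvd_iff_isRoot, IsRoot.def, eval_sub, eval_C, sub_self]
    have h2 : y = g *ᵥ (-(g.charpoly.eval a⁻¹)⁻¹ • (aeval g q) *ᵥ y) -
        a⁻¹ • (-(g.charpoly.eval a⁻¹)⁻¹ • (aeval g q) *ᵥ y) := by
      have h3 : (aeval g ((X - C a⁻¹) * q)) *ᵥ y = -(g.charpoly.eval a⁻¹) • y := by
        rw [← hq, map_sub, Matrix.aeval_self_charpoly, aeval_C, Algebra.algebraMap_eq_smul_one,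
          zero_sub, Matrix.neg_mulVec, Matrix.smul_mulVec, Matrix.one_mulVec, neg_smul]
      rw [map_mul, map_sub, aeval_X, aeval_C, Algebra.algebraMap_eq_smul_one,
        ← Matrix.mulVec_mulVec, Matrix.sub_mulVec, Matrix.smul_mulVec, Matrix.one_mulVec] at h3
      rw [Matrix.mulVec_smul, smul_comm a⁻¹, ← smul_sub, h3, smul_smul, neg_mul_neg,
        inv_mul_cancel₀ hne, one_smul]
    rw [h2]
    exact horth _
  -- an eigenvector for `a⁻¹` which is not orthogonal to `w`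
  obtain ⟨q, hq⟩ := (dvd_iff_isRoot (p := g.charpoly) (a := a⁻¹)).2 hroot
  have hcop : IsCoprime (X - C a⁻¹) q := by
    have h1 : ((X - C a⁻¹) * q).Separable := by rw [← hq]; exact hsep
    exact h1.isCoprime
  obtain ⟨u, v, huv⟩ := hcop
  have hker : ∃ z, g *ᵥ z = a⁻¹ • z ∧ bil B w z ≠ 0 := by
    by_contra hcon
    push Not at hcon
    apply hw
    apply bil_nondeg B hdet
    intro y
    have h1 : y = (aeval g ((X - C a⁻¹) * u)) *ᵥ y + (aeval g (v * q)) *ᵥ y := by
      rw [← Matrix.add_mulVec, ← map_add, mul_comm (X - C a⁻¹) u, huv, map_one,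
        Matrix.one_mulVec]
    rw [h1, bil_add_right]
    have h2 : bil B w ((aeval g ((X - C a⁻¹) * u)) *ᵥ y) = 0 := by
      rw [map_mul, map_sub, aeval_X, aeval_C, Algebra.algebraMap_eq_smul_one,
        ← Matrix.mulVec_mulVec, Matrix.sub_mulVec, Matrix.smul_mulVec, Matrix.one_mulVec]
      exact horth _
    have h3 : bil B w ((aeval g (v * q)) *ᵥ y) = 0 := by
      apply hcon
      have h4 : (aeval g ((X - C a⁻¹) * (v * q))) *ᵥ y = 0 := by
        have h5 : (X - C a⁻¹) * (v * q) = v * g.charpoly := by rw [hq]; ring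
        rw [h5, map_mul, Matrix.aeval_self_charpoly, mul_zero, Matrix.zero_mulVec]
      rw [map_mul, map_sub, aeval_X, aeval_C, Algebra.algebraMap_eq_smul_one,
        ← Matrix.mulVec_mulVec, Matrix.sub_mulVec, Matrix.smul_mulVec, Matrix.one_mulVec,
        sub_eq_zero] at h4
      exact h4
    rw [h2, h3, add_zero]
  obtain ⟨z, hz, hwz⟩ := hker
  have hra : g.charpoly.eval a = 0 := by
    rw [Matrix.eval_charpoly, ← Matrix.exists_mulVec_eq_zero_iff]
    refine ⟨w, hw, ?_⟩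
    rw [Matrix.sub_mulVec, hwa, Matrix.scalar_apply, ← Matrix.smul_one_eq_diagonal,
      Matrix.smul_mulVec, Matrix.one_mulVec, sub_self]
  by_cases haa : a = a⁻¹
  · -- two independent eigenvectors
    exfalso
    rw [← haa] at hz
    obtain ⟨c, hc⟩ := eigen_line hsep hw hwa hz
    apply hwz
    rw [hc, bil_smul_right, hiso, mul_zero]
  · refine ⟨(X - C a) * (X - C a⁻¹), (monic_X_sub_C a).mul (monic_X_sub_C _), ?_, ?_⟩
    · rw [(monic_X_sub_C a).natDegree_mul (monic_X_sub_C _), natDegree_X_sub_C,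
        natDegree_X_sub_C]
    · refine IsCoprime.mul_dvd ?_ (dvd_iff_isRoot.2 hra) (dvd_iff_isRoot.2 hroot)
      exact isCoprime_X_sub_C_of_isUnit_sub (sub_ne_zero.2 haa).isUnit

theorem orth_finrank' {N : ℕ} {B : Matrix (Fin N) (Fin N) F} (hdet : B.det ≠ 0)
    (W : Submodule F (Fin N → F)) :
    Module.finrank F (orth B W) + Module.finrank F W = N := by
  let φ : (Fin N → F) →ₗ[F] Module.Dual F (Fin N → F) :=
    { toFun := fun x =>
        { toFun := fun y => bil B x y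
          map_add' := bil_add_right B x
          map_smul' := fun a y => bil_smul_right B a x y }
      map_add' := by
        intro x y
        ext z
        simp [bil]
      map_smul' := by
        intro a x
        ext z
        simp [bil] }
  have hφ : Function.Injective φ := by
    rw [injective_iff_map_eq_zero]
    intro x hx
    apply bil_nondeg B hdet
    intro y
    exact congrArg (fun f : Module.Dual F (Fin N → F) => f y) hx
  have hbij : Function.Bijective φ := by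
    refine ⟨hφ, ?_⟩
    exact (LinearMap.injective_iff_surjective_of_finrank_eq_finrank
      (Subspace.dual_finrank_eq).symm).1 hφ
  let e := LinearEquiv.ofBijective φ hbij
  have h1 : orth B W = (W.dualAnnihilator).comap φ := by
    ext x
    rw [Submodule.mem_comap, Submodule.mem_dualAnnihilator]
    rfl
  have h2 : Module.finrank F (orth B W) = Module.finrank F W.dualAnnihilator := by
    rw [h1]
    exact LinearEquiv.finrank_eq (e.ofSubmodule' W.dualAnnihilator)
  rw [h2, add_comm, Subspace.finrank_add_finrank_dualAnnihilator_eq, Module.finrank_fin_fun]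

end lin

/-! ### reduction of the Frobenius polynomial -/

/-- the reduction of the characteristic polynomial of an integral matrix -/
theorem charpoly_red {P : ℚ[X]} {p : ℤ[X]} {c : ℤ} (hp : p.map (Int.castRingHom ℚ) = C (c : ℚ) * P)
    {ℓ N : ℕ} [Fact ℓ.Prime] {A : Matrix (Fin N) (Fin N) ℤ_[ℓ]}
    (hA : (genM ℓ A).charpoly = P.map (algebraMap ℚ ℚ_[ℓ])) :
    C (c : ZMod ℓ) * (redM ℓ A).charpoly = p.map (Int.castRingHom (ZMod ℓ)) := by
  have h1 : C (c : ℤ_[ℓ]) * A.charpoly = p.map (Int.castRingHom ℤ_[ℓ]) := by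
    apply Polynomial.map_injective (algebraMap ℤ_[ℓ] ℚ_[ℓ]) (IsFractionRing.injective ℤ_[ℓ] ℚ_[ℓ])
    have h2 : A.charpoly.map (algebraMap ℤ_[ℓ] ℚ_[ℓ]) = P.map (algebraMap ℚ ℚ_[ℓ]) := by
      rw [← hA, genM, ← Matrix.charpoly_map]
    have h3 : (p.map (Int.castRingHom ℤ_[ℓ])).map (algebraMap ℤ_[ℓ] ℚ_[ℓ]) =
        (p.map (Int.castRingHom ℚ)).map (algebraMap ℚ ℚ_[ℓ]) := by
      rw [Polynomial.map_map, Polynomial.map_map]
      congr 1
    have e1 : (algebraMap ℤ_[ℓ] ℚ_[ℓ]) (c : ℤ_[ℓ]) = (c : ℚ_[ℓ]) := map_intCast _ _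
    have e2 : (algebraMap ℚ ℚ_[ℓ]) (c : ℚ) = (c : ℚ_[ℓ]) := map_intCast _ _
    rw [Polynomial.map_mul, h2, h3, hp, Polynomial.map_C, e1, Polynomial.map_mul,
      Polynomial.map_C, e2]
  have h4 := congrArg (Polynomial.map (PadicInt.toZMod : ℤ_[ℓ] →+* ZMod ℓ)) h1
  have h5 : (p.map (Int.castRingHom ℤ_[ℓ])).map (PadicInt.toZMod : ℤ_[ℓ] →+* ZMod ℓ) =
      p.map (Int.castRingHom (ZMod ℓ)) := by
    rw [Polynomial.map_map]
    congr 1
    exact RingHom.ext_int _ _
  have e3 : (PadicInt.toZMod : ℤ_[ℓ] →+* ZMod ℓ) (c : ℤ_[ℓ]) = (c : ZMod ℓ) := map_intCast _ _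
  rw [Polynomial.map_mul, h5, Polynomial.map_C, e3] at h4
  have h6 : A.charpoly.map (PadicInt.toZMod : ℤ_[ℓ] →+* ZMod ℓ) = (redM ℓ A).charpoly := by
    rw [redM, ← Matrix.charpoly_map]
  rwa [h6] at h4

/-- separability modulo large primes -/
theorem sep_mod {P : ℚ[X]} (hP : P.Separable) : ∃ b : ℕ, ∀ ℓ : ℕ, b < ℓ → ∀ _ : Fact ℓ.Prime,
    ∀ (N : ℕ) (A : Matrix (Fin N) (Fin N) ℤ_[ℓ]),
      (genM ℓ A).charpoly = P.map (algebraMap ℚ ℚ_[ℓ]) → (redM ℓ A).charpoly.Separable := by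
  obtain ⟨c, hc, p, hp⟩ := Pool.Agent.Y971.ZI.clear P
  have hr : (derivative p).map (Int.castRingHom ℚ) = C (c : ℚ) * derivative P := by
    rw [← derivative_map, hp, derivative_C_mul]
  have hcop : IsCoprime P (C (c : ℚ) * derivative P) := by
    refine IsCoprime.mul_right ?_ hP
    refine ⟨0, C ((c : ℚ)⁻¹), ?_⟩
    have hc' : (c : ℚ) ≠ 0 := by exact_mod_cast hc
    rw [zero_mul, zero_add, ← C_mul, inv_mul_cancel₀ hc', C_1]
  obtain ⟨b, hb⟩ := coprime_mod hc hp hr hcop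
  refine ⟨max b c.natAbs, fun ℓ hℓ hℓp N A hA => ?_⟩
  rw [max_lt_iff] at hℓ
  have h1 := hb ℓ hℓ.1 hℓp
  have hc0 := cast_ne_zero hc hℓ.2
  have h2 := charpoly_red hp hA
  rw [← derivative_map, ← h2, derivative_C_mul] at h1
  exact (IsCoprime.of_mul_left_right h1).of_mul_right_right

/-- **stability under a power implies stability** -/
theorem stable_mod {P : ℚ[X]} (hm : P.Monic) (hs : P.Separable)
    (hd : ∀ (j : ℕ) (x y : AlgebraicClosure ℚ), 0 < j → aeval x P = 0 → aeval y P = 0 →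
      x ^ j = y ^ j → x = y) (k : ℕ) (hk : 0 < k) :
    ∃ b : ℕ, ∀ ℓ : ℕ, b < ℓ → ∀ _ : Fact ℓ.Prime,
    ∀ (N : ℕ) (A : Matrix (Fin N) (Fin N) ℤ_[ℓ]),
      (genM ℓ A).charpoly = P.map (algebraMap ℚ ℚ_[ℓ]) →
      ∀ W : Submodule (ZMod ℓ) (Fin N → ZMod ℓ), (∀ w ∈ W, redM ℓ A ^ k *ᵥ w ∈ W) →
        ∀ w ∈ W, redM ℓ A *ᵥ w ∈ W := by
  obtain ⟨Q, h, hQ⟩ := Pool.Agent.Y614.ZD.exists_poly_sep P hm hs k
    (fun x y hx hy hxy => hd k x y hk hx hy hxy)
  obtain ⟨c, hc, p, hp⟩ := Pool.Agent.Y971.ZI.clear P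
  obtain ⟨e, he, q, hq⟩ := Pool.Agent.Y971.ZI.clear Q
  obtain ⟨f, hf, r, hr⟩ := Pool.Agent.Y971.ZI.clear h
  have hZ : C (c * f) * q.comp (X ^ k) - C (c * f * e) * X = C e * (p * r) := by
    apply Polynomial.map_injective (Int.castRingHom ℚ) Int.cast_injective
    have hC : ∀ z : ℤ, (C z : ℤ[X]).map (Int.castRingHom ℚ) = C (z : ℚ) := fun z => by
      rw [Polynomial.map_C]
      rfl
    simp only [Polynomial.map_sub, Polynomial.map_mul, hp, hr, hC, Polynomial.map_comp, hq,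
      Polynomial.map_pow, Polynomial.map_X, mul_comp, C_comp, Int.cast_mul, C_mul]
    linear_combination (C (c : ℚ) * C (f : ℚ) * C (e : ℚ)) * hQ
  obtain ⟨a, ha⟩ : ∃ a, a = c * f := ⟨_, rfl⟩
  have ha0 : a ≠ 0 := by rw [ha]; exact mul_ne_zero hc hf
  rw [← ha] at hZ
  refine ⟨max a.natAbs e.natAbs, fun ℓ hℓ hℓp N A hA W hW w hw => ?_⟩
  rw [max_lt_iff] at hℓ
  have hcf := cast_ne_zero ha0 hℓ.1
  have he0 := cast_ne_zero he hℓ.2
  have h2 := charpoly_red hp hA
  set g := redM ℓ A with hg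
  have h3 := congrArg (fun F : ℤ[X] => aeval g (F.map (Int.castRingHom (ZMod ℓ)))) hZ
  simp only [Polynomial.map_sub, Polynomial.map_mul, Polynomial.map_comp, Polynomial.map_pow,
    Polynomial.map_X, ← h2, Polynomial.map_C] at h3
  have h0 : aeval g (C ((Int.castRingHom (ZMod ℓ)) e) * (C (c : ZMod ℓ) * g.charpoly *
      r.map (Int.castRingHom (ZMod ℓ)))) = 0 := by
    have h1 : C ((Int.castRingHom (ZMod ℓ)) e) * (C (c : ZMod ℓ) * g.charpoly *
      r.map (Int.castRingHom (ZMod ℓ))) = C ((Int.castRingHom (ZMod ℓ)) e) * (C (c : ZMod ℓ) *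
      r.map (Int.castRingHom (ZMod ℓ))) * g.charpoly := by ring
    rw [h1, map_mul, aeval_self_charpoly, mul_zero]
  rw [h0, map_sub, map_mul, map_mul, aeval_C, aeval_C, aeval_X, Polynomial.aeval_comp, map_pow,
    aeval_X, sub_eq_zero, Algebra.algebraMap_eq_smul_one, Algebra.algebraMap_eq_smul_one,
    smul_mul_assoc, smul_mul_assoc, one_mul, one_mul, eq_intCast, eq_intCast] at h3
  -- `a q(g ^ k) = (a e) g`
  have h4 : ∀ x ∈ W, (aeval (g ^ k) (q.map (Int.castRingHom (ZMod ℓ)))) *ᵥ x ∈ W := by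
    intro x hx
    have h5 := aeval_mem (toLin' (g ^ k)) W (fun w hw => by rw [toLin'_apply]; exact hW w hw)
      (q.map (Int.castRingHom (ZMod ℓ))) x hx
    have h6 : aeval (toLin' (g ^ k)) (q.map (Int.castRingHom (ZMod ℓ))) =
        toLin' (aeval (g ^ k) (q.map (Int.castRingHom (ZMod ℓ)))) :=
      (aeval_algHom_apply (Matrix.toLinAlgEquiv' : Matrix (Fin N) (Fin N) (ZMod ℓ) ≃ₐ[ZMod ℓ] _)
        (g ^ k) (q.map (Int.castRingHom (ZMod ℓ))))
    rwa [h6, toLin'_apply] at h5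
  have h7 : g *ᵥ w = (a : ZMod ℓ)⁻¹ • ((e : ZMod ℓ)⁻¹ • ((a : ZMod ℓ) •
      ((aeval (g ^ k) (q.map (Int.castRingHom (ZMod ℓ)))) *ᵥ w))) := by
    have h8 := congrArg (fun M : Matrix (Fin N) (Fin N) (ZMod ℓ) => M *ᵥ w) h3
    simp only [smul_mulVec] at h8
    rw [h8, Int.cast_mul, mul_smul, smul_comm (e : ZMod ℓ)⁻¹, smul_smul (e : ZMod ℓ)⁻¹,
      inv_mul_cancel₀ he0, one_smul, smul_smul, inv_mul_cancel₀ hcf, one_smul]
  rw [h7]
  exact W.smul_mem _ (W.smul_mem _ (W.smul_mem _ (h4 w hw)))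

end Pool.Agent.R932
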