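import Pool.Agent.R932.IrA

/-! Factors modulo `ℓ` and stable sets of roots (the proof follows `Pool.Agent.Y100.ZD.Sub`). -/

set_option autoImplicit false
set_option linter.unusedSectionVars false
set_option linter.style.haveILetI false

open Polynomial NumberField
open Pool.Agent.Y142.ZO Pool.Agent.Y142.ZI Pool.Agent.Y142.ZD Pool.Agent.Y971.ZI

namespace Pool.Agent.R932

theorem sub_mod (Q : ℚ[X]) (hQm : Q.Monic) (hQs : Q.Separable) : ∃ b : ℕ, ∀ ℓ : ℕ, b < ℓ →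
    ∀ _ : Fact ℓ.Prime, ∀ σ : GK ℚ, FrobAt ℓ σ →
    ∀ q : ℤ_[ℓ][X], q.map (algebraMap ℤ_[ℓ] ℚ_[ℓ]) = Q.map (algebraMap ℚ ℚ_[ℓ]) →
    ∀ R : (ZMod ℓ)[X], R.Monic → R ∣ q.map (PadicInt.toZMod : ℤ_[ℓ] →+* ZMod ℓ) →
      ∃ T : Set QQ, (∀ x ∈ T, aeval x Q = 0) ∧ T.ncard = R.natDegree ∧ ∀ x ∈ T, σ x ∈ T := by
  classical
  obtain ⟨D, hD0, P, hPm, hP⟩ := exists_scale Q hQm
  have hDQ : (D : ℚ) ≠ 0 := by exact_mod_cast hD0.ne'
  have hDQQ : (D : QQ) ≠ 0 := by exact_mod_cast hD0.ne'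
  have hPsep : (P.map (Int.castRingHom ℚ)).Separable := by
    rw [hP, separable_def, derivative_scale Q _]
    exact isCoprime_scaleRoots _ _ _ (isUnit_iff_ne_zero.mpr hDQ) hQs
  obtain ⟨N, hN0, a, b, hab⟩ := sep_bound P hPsep
  refine ⟨N.natAbs, ?_⟩
  intro ℓ hℓ hfact σ hfrob q hq R hR hRq
  have hℓp : ℓ.Prime := hfact.out
  obtain ⟨𝔔, hmax, hmem, hfr⟩ := hfrob
  let _ : Field ((𝓞 QQ) ⧸ 𝔔) := Ideal.Quotient.field 𝔔
  have hchar : CharP ((𝓞 QQ) ⧸ 𝔔) ℓ := by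
    rw [CharP.charP_iff_prime_eq_zero hfact.out]
    have h1 : Ideal.Quotient.mk 𝔔 (ℓ : 𝓞 QQ) = 0 := Ideal.Quotient.eq_zero_iff_mem.mpr hmem
    rwa [map_natCast] at h1
  set mk : 𝓞 QQ →+* (𝓞 QQ) ⧸ 𝔔 := Ideal.Quotient.mk 𝔔 with hmk
  set φ : ZMod ℓ →+* (𝓞 QQ) ⧸ 𝔔 := ZMod.castHom dvd_rfl _ with hφ
  have hfrob : ∀ w : 𝓞 QQ, mk (σ • w) = (mk w) ^ ℓ := by
    intro w
    rw [← map_pow]
    exact Ideal.Quotient.eq.mpr (hfr w)
  have hcoe : ∀ (τ : GK ℚ) (w : 𝓞 QQ), ((τ • w : 𝓞 QQ) : QQ) = τ (w : QQ) := fun τ w => rfl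
  have hPO : (P.map (algebraMap ℤ (𝓞 QQ))).Splits := by
    apply Polynomial.Splits.of_splits_map_of_injective (i := algebraMap (𝓞 QQ) QQ)
      (RingOfIntegers.coe_injective)
    · exact IsAlgClosed.splits _
    · intro x hx
      rw [Polynomial.map_map] at hx
      have hx2 := Polynomial.isRoot_of_mem_roots hx
      have hint : IsIntegral ℤ x := by
        refine ⟨P, hPm, ?_⟩
        have : eval₂ ((algebraMap (𝓞 QQ) QQ).comp (algebraMap ℤ (𝓞 QQ))) x P = 0 := by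
          rw [← eval_map]
          exact hx2
        rwa [← IsScalarTower.algebraMap_eq ℤ (𝓞 QQ) QQ] at this
      exact ⟨⟨x, hint⟩, rfl⟩
  have hPκ : P.map (Int.castRingHom ((𝓞 QQ) ⧸ 𝔔)) = (P.map (algebraMap ℤ (𝓞 QQ))).map mk := by
    rw [Polynomial.map_map]
    congr 1
  have hPκs : (P.map (Int.castRingHom ((𝓞 QQ) ⧸ 𝔔))).Splits := by
    rw [hPκ]
    exact hPO.map mk
  have hPκ0 : P.map (Int.castRingHom ((𝓞 QQ) ⧸ 𝔔)) ≠ 0 := (hPm.map _).ne_zero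
  have hlift : ∀ x : (𝓞 QQ) ⧸ 𝔔, eval x (P.map (Int.castRingHom ((𝓞 QQ) ⧸ 𝔔))) = 0 →
      ∃ w : 𝓞 QQ, mk w = x ∧ aeval (w : QQ) P = 0 := by
    intro x hx
    have h1 : x ∈ (P.map (Int.castRingHom ((𝓞 QQ) ⧸ 𝔔))).roots := by
      rw [Polynomial.mem_roots hPκ0]
      exact hx
    rw [hPκ, hPO.roots_map_of_ne_zero (by rw [← hPκ]; exact hPκ0), Multiset.mem_map] at h1
    obtain ⟨w, hw, hwx⟩ := h1
    refine ⟨w, hwx, ?_⟩
    have h2 := Polynomial.isRoot_of_mem_roots hw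
    rw [Polynomial.IsRoot.def, eval_map] at h2
    have h3 := congrArg (algebraMap (𝓞 QQ) QQ) h2
    rw [hom_eval₂, map_zero, ← IsScalarTower.algebraMap_eq ℤ (𝓞 QQ) QQ] at h3
    exact h3
  -- the roots of `Q` and of `P`
  have key : ∀ w : 𝓞 QQ, aeval (w : QQ) P = 0 → aeval ((w : QQ) / D) Q = 0 := by
    intro w hw
    have h3 := scaleRoots_eval₂_mul (p := Q) (algebraMap ℚ QQ) ((w : QQ) / D) (D : ℚ)
    rw [← hP, map_natCast, mul_div_cancel₀ _ hDQQ, eval₂_map] at h3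
    have h4 : eval₂ ((algebraMap ℚ QQ).comp (Int.castRingHom ℚ)) (w : QQ) P = 0 := by
      rw [RingHom.ext_int ((algebraMap ℚ QQ).comp (Int.castRingHom ℚ)) (algebraMap ℤ QQ)]
      exact hw
    rw [h4] at h3
    rcases mul_eq_zero.mp h3.symm with h5 | h5
    · exact absurd h5 (pow_ne_zero _ hDQQ)
    · exact h5
  have hcomp : φ.comp (Int.castRingHom (ZMod ℓ)) = Int.castRingHom ((𝓞 QQ) ⧸ 𝔔) :=
    RingHom.ext_int _ _
  -- separability modulo `ℓ`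
  have hNℓ : ((N : ℤ) : ZMod ℓ) ≠ 0 := by
    intro h4
    rw [ZMod.intCast_zmod_eq_zero_iff_dvd] at h4
    have h5 := Int.natAbs_dvd_natAbs.mpr h4
    rw [Int.natAbs_natCast] at h5
    have h6 := Nat.le_of_dvd (Int.natAbs_pos.mpr hN0) h5
    omega
  have hsepℓ : (P.map (Int.castRingHom (ZMod ℓ))).Separable := by
    rw [separable_def]
    have h3 : a.map (Int.castRingHom (ZMod ℓ)) * P.map (Int.castRingHom (ZMod ℓ)) +
        b.map (Int.castRingHom (ZMod ℓ)) * (derivative P).map (Int.castRingHom (ZMod ℓ)) =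
        C ((N : ℤ) : ZMod ℓ) := by
      rw [← Polynomial.map_mul, ← Polynomial.map_mul, ← Polynomial.map_add, hab, Polynomial.map_C]
      rfl
    refine ⟨C ((N : ZMod ℓ)⁻¹) * a.map (Int.castRingHom (ZMod ℓ)),
      C ((N : ZMod ℓ)⁻¹) * b.map (Int.castRingHom (ZMod ℓ)), ?_⟩
    rw [mul_assoc, mul_assoc, ← mul_add, derivative_map, h3, ← C_mul, inv_mul_cancel₀ hNℓ, C_1]
  have hsepκ : (P.map (Int.castRingHom ((𝓞 QQ) ⧸ 𝔔))).Separable := by
    have h1 := hsepℓ.map (f := φ)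
    rwa [Polynomial.map_map, hcomp] at h1
  -- the reduction is injective on the roots
  set W : Multiset (𝓞 QQ) := (P.map (algebraMap ℤ (𝓞 QQ))).roots with hW
  have hPO0 : P.map (algebraMap ℤ (𝓞 QQ)) ≠ 0 := (hPm.map _).ne_zero
  have hWm : ∀ w : 𝓞 QQ, w ∈ W ↔ aeval (w : QQ) P = 0 := by
    intro w
    rw [hW, Polynomial.mem_roots hPO0, IsRoot.def, eval_map]
    have e : aeval (w : QQ) P = algebraMap (𝓞 QQ) QQ (eval₂ (algebraMap ℤ (𝓞 QQ)) w P) := by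
      rw [hom_eval₂, ← IsScalarTower.algebraMap_eq ℤ (𝓞 QQ) QQ]
      rfl
    rw [e]
    constructor
    · intro h
      rw [h, map_zero]
    · intro h
      exact RingOfIntegers.coe_injective (h.trans (map_zero _).symm)
  have hWmap : W.map mk = (P.map (Int.castRingHom ((𝓞 QQ) ⧸ 𝔔))).roots := by
    rw [hPκ, hPO.roots_map_of_ne_zero (by rw [← hPκ]; exact hPκ0)]
  have hWinj : ∀ w₁ ∈ W, ∀ w₂ ∈ W, mk w₁ = mk w₂ → w₁ = w₂ := by
    have h1 : (W.map mk).Nodup := by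
      rw [hWmap]
      exact nodup_roots hsepκ
    exact fun w₁ h₁ w₂ h₂ h => Multiset.inj_on_of_nodup_map h1 w₁ h₁ w₂ h₂ h
  -- the polynomial modulo `ℓ`
  have hinj : Function.Injective (algebraMap ℤ_[ℓ] ℚ_[ℓ]) := IsFractionRing.injective _ _
  have hqm : q.Monic := Polynomial.monic_of_injective hinj (by rw [hq]; exact hQm.map _)
  have hqP : q.scaleRoots (D : ℤ_[ℓ]) = P.map (Int.castRingHom ℤ_[ℓ]) := by
    apply Polynomial.map_injective _ hinj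
    have h1 := map_scaleRoots q (D : ℤ_[ℓ]) (algebraMap ℤ_[ℓ] ℚ_[ℓ]) (by
      rw [hqm.leadingCoeff, map_one]; exact one_ne_zero)
    have h2 := map_scaleRoots Q (D : ℚ) (algebraMap ℚ ℚ_[ℓ]) (by
      rw [hQm.leadingCoeff, map_one]; exact one_ne_zero)
    rw [map_natCast] at h1 h2
    rw [h1, hq, ← h2, ← hP, Polynomial.map_map, Polynomial.map_map]
    congr 1
  have hqP' : (q.map (PadicInt.toZMod : ℤ_[ℓ] →+* ZMod ℓ)).scaleRoots (D : ZMod ℓ) =
      P.map (Int.castRingHom (ZMod ℓ)) := by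
    have h1 := map_scaleRoots q (D : ℤ_[ℓ]) (PadicInt.toZMod : ℤ_[ℓ] →+* ZMod ℓ) (by
      rw [hqm.leadingCoeff, map_one]; exact one_ne_zero)
    rw [map_natCast] at h1
    rw [← h1, hqP, Polynomial.map_map]
    congr 1
    exact RingHom.ext_int _ _
  obtain ⟨g, hg⟩ := hRq
  set F : (ZMod ℓ)[X] := R.scaleRoots (D : ZMod ℓ) with hF
  have hFm : F.Monic := (monic_scaleRoots_iff _).mpr hR
  have hFdeg : F.natDegree = R.natDegree := natDegree_scaleRoots _ _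
  have hprod : F * g.scaleRoots (D : ZMod ℓ) = P.map (Int.castRingHom (ZMod ℓ)) := by
    rw [hF, ← mul_scaleRoots_of_noZeroDivisors, ← hg, hqP']
  have hprodκ : F.map φ * (g.scaleRoots (D : ZMod ℓ)).map φ =
      P.map (Int.castRingHom ((𝓞 QQ) ⧸ 𝔔)) := by
    rw [← Polynomial.map_mul, hprod, Polynomial.map_map, hcomp]
  have hpow : ∀ w : 𝓞 QQ, eval (mk w) (F.map φ) = 0 → eval (mk (σ • w)) (F.map φ) = 0 := by
    intro w hw
    rw [hfrob]
    have h1 : eval₂ φ ((mk w) ^ ℓ) F = (eval₂ φ (mk w) F) ^ ℓ := by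
      have h2 := hom_eval₂ F φ (frobenius ((𝓞 QQ) ⧸ 𝔔) ℓ) (mk w)
      rw [frobenius_def, frobenius_def] at h2
      rw [h2]
      congr 1
      exact RingHom.ext_zmod _ _
    rw [eval_map] at hw ⊢
    rw [h1, hw, zero_pow hℓp.ne_zero]
  have hdvdF : F.map φ ∣ P.map (Int.castRingHom ((𝓞 QQ) ⧸ 𝔔)) := Dvd.intro _ hprodκ
  have hFκ0 : F.map φ ≠ 0 := (hFm.map _).ne_zero
  have hFs : (F.map φ).Splits := Splits.of_dvd hPκs hPκ0 hdvdF
  have hFsep : (F.map φ).Separable := hsepκ.of_dvd hdvdF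
  -- the set
  set V : Finset (𝓞 QQ) := W.toFinset.filter fun w => eval (mk w) (F.map φ) = 0 with hV
  have hVm : ∀ w, w ∈ V ↔ aeval (w : QQ) P = 0 ∧ eval (mk w) (F.map φ) = 0 := by
    intro w
    rw [hV, Finset.mem_filter, Multiset.mem_toFinset, hWm]
  have hVcard : V.card = R.natDegree := by
    have h1 : V.image mk = (F.map φ).roots.toFinset := by
      ext y
      rw [Finset.mem_image, Multiset.mem_toFinset, mem_roots hFκ0, IsRoot.def]
      constructor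
      · rintro ⟨w, hw, rfl⟩
        exact ((hVm w).mp hw).2
      · intro hy
        obtain ⟨w, hw, hw2⟩ := hlift y (by rw [← hprodκ, eval_mul, hy, zero_mul])
        refine ⟨w, (hVm w).mpr ⟨hw2, ?_⟩, hw⟩
        rw [hw]
        exact hy
    have h2 : (V.image mk).card = V.card := by
      refine Finset.card_image_of_injOn fun w₁ h₁ w₂ h₂ h => ?_
      exact hWinj w₁ ((hWm _).mpr ((hVm w₁).mp h₁).1) w₂ ((hWm _).mpr ((hVm w₂).mp h₂).1) h
    rw [← h2, h1, Multiset.toFinset_card_of_nodup (nodup_roots hFsep),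
      ← hFs.natDegree_eq_card_roots, hFm.natDegree_map, hFdeg]
  refine ⟨(fun w : 𝓞 QQ => (w : QQ) / D) '' (V : Set (𝓞 QQ)), ?_, ?_, ?_⟩
  · rintro _ ⟨w, hw, rfl⟩
    exact key w ((hVm w).mp hw).1
  · rw [Set.ncard_image_of_injective, Set.ncard_coe_finset, hVcard]
    intro w₁ w₂ h
    exact RingOfIntegers.coe_injective ((div_left_inj' hDQQ).mp h)
  · rintro _ ⟨w, hw, rfl⟩
    obtain ⟨h1, h2⟩ := (hVm w).mp hw
    refine ⟨σ • w, (hVm _).mpr ⟨?_, hpow w h2⟩, ?_⟩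
    · rw [hcoe]
      have h3 : aeval (σ (w : QQ)) P = σ (aeval (w : QQ) P) := by
        rw [aeval_def, aeval_def]
        have h4 := hom_eval₂ P (algebraMap ℤ QQ) (σ : QQ →+* QQ) (w : QQ)
        rw [RingHom.ext_int ((σ : QQ →+* QQ).comp (algebraMap ℤ QQ)) (algebraMap ℤ QQ)] at h4
        exact h4.symm
      rw [h3, h1, map_zero]
    · show ((σ • w : 𝓞 QQ) : QQ) / D = σ ((w : QQ) / D)
      rw [hcoe, map_div₀, map_natCast]

end Pool.Agent.R932
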