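import Pool.Agent.R932.CgA
import Pool.Agent.Helper561.FomJordan

/-!
# Groups of order prime to `ℓ` modulo `ℓ`: lifting to characteristic zero and Jordan's theorem
-/

set_option autoImplicit false
set_option linter.unusedSectionVars false
set_option linter.style.haveILetI false

open Matrix

namespace Pool.Agent.R932

section
variable {ℓ : ℕ} [hℓ : Fact ℓ.Prime] {N : ℕ} {G : Type} [Group G]

/-- the kernel of the reduction modulo `ℓ ^ k` -/
def KK (β : G →* Matrix (Fin N) (Fin N) ℤ_[ℓ]) (k : ℕ) : Subgroup G where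
  carrier := {g | Cg k (β g - 1)}
  one_mem' := by
    show Cg k (β 1 - 1)
    rw [map_one, sub_self]
    exact Cg.zero k
  mul_mem' := by
    intro a b ha hb
    show Cg k (β (a * b) - 1)
    have : β (a * b) - 1 = β a * (β b - 1) + (β a - 1) := by
      rw [map_mul]
      noncomm_ring
    rw [this]
    exact (Cg.mul_left hb _).add ha
  inv_mem' := by
    intro a ha
    show Cg k (β a⁻¹ - 1)
    have : β a⁻¹ - 1 = -(β a⁻¹ * (β a - 1)) := by
      rw [mul_sub, ← map_mul, inv_mul_cancel, map_one]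
      noncomm_ring
    rw [this]
    exact (Cg.mul_left ha _).neg

theorem mem_KK {β : G →* Matrix (Fin N) (Fin N) ℤ_[ℓ]} {k : ℕ} {g : G} :
    g ∈ KK β k ↔ Cg k (β g - 1) := Iff.rfl

instance KK_normal (β : G →* Matrix (Fin N) (Fin N) ℤ_[ℓ]) (k : ℕ) : (KK β k).Normal := by
  constructor
  intro a ha x
  show Cg k (β (x * a * x⁻¹) - 1)
  have : β (x * a * x⁻¹) - 1 = β x * (β a - 1) * β x⁻¹ := by
    have h1 : β x * β x⁻¹ = 1 := by rw [← map_mul, mul_inv_cancel, map_one]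
    rw [map_mul, map_mul, mul_sub, sub_mul, mul_one, h1]
  rw [this]
  exact (Cg.mul_left ha _).mul_right _

theorem KK_inv_mul {β : G →* Matrix (Fin N) (Fin N) ℤ_[ℓ]} {k : ℕ} {g h : G} :
    g⁻¹ * h ∈ KK β k ↔ Cg k (β h - β g) := by
  rw [mem_KK]
  constructor
  · intro h1
    have : β h - β g = β g * (β (g⁻¹ * h) - 1) := by
      rw [mul_sub, ← map_mul, mul_inv_cancel_left, mul_one]
    rw [this]
    exact h1.mul_left _
  · intro h1
    have : β (g⁻¹ * h) - 1 = β g⁻¹ * (β h - β g) := by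
      rw [mul_sub, ← map_mul, ← map_mul, inv_mul_cancel, map_one]
    rw [this]
    exact h1.mul_left _

theorem KK_anti (β : G →* Matrix (Fin N) (Fin N) ℤ_[ℓ]) {j k : ℕ} (h : j ≤ k) :
    KK β k ≤ KK β j := fun _ hg => Cg.mono h hg

instance KK_finite (β : G →* Matrix (Fin N) (Fin N) ℤ_[ℓ]) (k : ℕ) : Finite (G ⧸ KK β k) := by
  haveI : NeZero (ℓ ^ k) := ⟨pow_ne_zero _ hℓ.out.ne_zero⟩
  refine Finite.of_injective
    (fun q : G ⧸ KK β k => (β q.out).map (PadicInt.toZModPow (p := ℓ) k)) ?_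
  intro q q' h
  have h1 : Cg k (β q'.out - β q.out) := by
    have h2 : ∀ i j, ∃ c, (β q'.out - β q.out) i j = (ℓ : ℤ_[ℓ]) ^ k * c := by
      intro i j
      have h3 := congrFun (congrFun h i) j
      simp only [Matrix.map_apply] at h3
      have h4 : (β q'.out - β q.out) i j ∈ RingHom.ker (PadicInt.toZModPow (p := ℓ) k) := by
        rw [RingHom.mem_ker, Matrix.sub_apply, map_sub, h3, sub_self]
      rw [PadicInt.ker_toZModPow, Ideal.mem_span_singleton] at h4
      exact h4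
    choose C hC using h2
    exact ⟨Matrix.of C, by ext i j; rw [hC, Matrix.smul_apply, Matrix.of_apply, smul_eq_mul]⟩
  have h2 : q.out⁻¹ * q'.out ∈ KK β k := KK_inv_mul.2 h1
  rw [← QuotientGroup.out_eq' q, ← QuotientGroup.out_eq' q']
  exact QuotientGroup.eq.2 h2

/-- Schur-Zassenhaus modulo `ℓ ^ k` -/
theorem exists_compl (β : G →* Matrix (Fin N) (Fin N) ℤ_[ℓ])
    (hcop : ¬ ℓ ∣ (KK β 1).index) {k : ℕ} (hk : 1 ≤ k) :
    ∃ S : Subgroup G, (∀ g ∈ S, g ∈ KK β 1 → g ∈ KK β k) ∧ ∀ g, ∃ s ∈ S, s⁻¹ * g ∈ KK β 1 := by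
  set π := QuotientGroup.mk' (KK β k) with hπ
  have hπs : Function.Surjective π := QuotientGroup.mk'_surjective _
  have hker : π.ker = KK β k := QuotientGroup.ker_mk' _
  set Nk : Subgroup (G ⧸ KK β k) := (KK β 1).map π with hNk
  haveI : Nk.Normal := Subgroup.Normal.map inferInstance π hπs
  have hidx : Nk.index = (KK β 1).index := by
    rw [hNk]
    exact Subgroup.index_map_eq _ hπs (by rw [hker]; exact KK_anti β hk)
  have hp : IsPGroup ℓ Nk := by
    rintro ⟨x, g, hg, rfl⟩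
    refine ⟨k, ?_⟩
    apply Subtype.ext
    show (π g) ^ ℓ ^ k = 1
    rw [← map_pow, ← MonoidHom.mem_ker, hker, mem_KK, map_pow]
    exact (Cg.pow_prime_pow hg k).mono (by omega)
  obtain ⟨n, hn⟩ := IsPGroup.iff_card.1 hp
  have hco : Nat.Coprime (Nat.card Nk) Nk.index := by
    rw [hn, hidx]
    exact Nat.Coprime.pow_left _ ((Nat.Prime.coprime_iff_not_dvd hℓ.out).2 hcop)
  obtain ⟨H, hH⟩ := Subgroup.exists_right_complement'_of_coprime hco
  refine ⟨H.comap π, ?_, ?_⟩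
  · intro g hg hg1
    have h1 : π g ∈ Nk ⊓ H := ⟨⟨g, hg1, rfl⟩, hg⟩
    rw [hH.isCompl.inf_eq_bot, Subgroup.mem_bot] at h1
    rw [← hker]
    exact h1
  · intro g
    obtain ⟨⟨⟨_, ⟨x, hx, rfl⟩⟩, ⟨y, hy⟩⟩, hxy, -⟩ := hH.existsUnique (π g)
    obtain ⟨s, rfl⟩ := hπs y
    replace hxy : π x * π s = π g := hxy
    refine ⟨s, hy, ?_⟩
    have h2 : (x * s)⁻¹ * g ∈ KK β k := by
      rw [← hker, MonoidHom.mem_ker, map_mul, map_inv, map_mul, hxy, inv_mul_cancel]
    have h3 : s⁻¹ * g = (s⁻¹ * x * s) * ((x * s)⁻¹ * g) := by group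
    rw [h3]
    refine Subgroup.mul_mem _ ?_ (KK_anti β hk h2)
    have h4 := (KK_normal β 1).conj_mem x hx s⁻¹
    rwa [inv_inv] at h4

/-- lifting to characteristic zero -/
theorem exists_lift (β : G →* Matrix (Fin N) (Fin N) ℤ_[ℓ])
    (hcop : ¬ ℓ ∣ (KK β 1).index) : ∃ F : (G ⧸ KK β 1) →* Matrix (Fin N) (Fin N) ℤ_[ℓ],
      Function.Injective F := by
  classical
  let X := (G ⧸ KK β 1) → Matrix (Fin N) (Fin N) ℤ_[ℓ]
  haveI : CompactSpace (Matrix (Fin N) (Fin N) ℤ_[ℓ]) :=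
    inferInstanceAs (CompactSpace (Fin N → Fin N → ℤ_[ℓ]))
  haveI : T2Space (Matrix (Fin N) (Fin N) ℤ_[ℓ]) :=
    inferInstanceAs (T2Space (Fin N → Fin N → ℤ_[ℓ]))
  have hc0 : ∀ q, Continuous (fun f : (G ⧸ KK β 1) → Matrix (Fin N) (Fin N) ℤ_[ℓ] => f q) :=
    fun q => continuous_apply q
  have hc1 : ∀ q q', Continuous (fun f : (G ⧸ KK β 1) → Matrix (Fin N) (Fin N) ℤ_[ℓ] =>
      f q * f q' - f (q * q')) := fun q q' =>
    (Continuous.matrix_mul (hc0 q) (hc0 q')).sub (hc0 (q * q'))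
  have hc2 : ∀ q, Continuous (fun f : (G ⧸ KK β 1) → Matrix (Fin N) (Fin N) ℤ_[ℓ] =>
      f q - β q.out) := fun q => (hc0 q).sub continuous_const
  let C : ℕ → Set X := fun k => {f | (∀ q q', Cg k (f q * f q' - f (q * q'))) ∧
    ∀ q, Cg 1 (f q - β q.out)}
  have hcl : ∀ k, IsClosed (C k) := by
    intro k
    have h1 : C k = (⋂ q, ⋂ q', {f : X | Cg k (f q * f q' - f (q * q'))}) ∩
        ⋂ q, {f : X | Cg 1 (f q - β q.out)} := by
      ext f
      simp [C]
    rw [h1]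
    refine IsClosed.inter (isClosed_iInter fun q => isClosed_iInter fun q' => ?_)
      (isClosed_iInter fun q => ?_)
    · exact (cg_closed k).preimage (hc1 q q')
    · exact (cg_closed 1).preimage (hc2 q)
  have hne : ∀ k, (C k).Nonempty := by
    intro k
    obtain ⟨S, hS1, hS2⟩ := exists_compl β hcop (k := k + 1) (by omega)
    have hS3 : ∀ q : G ⧸ KK β 1, ∃ s ∈ S, (QuotientGroup.mk s : G ⧸ KK β 1) = q := by
      intro q
      obtain ⟨s, hs, hsq⟩ := hS2 q.out
      refine ⟨s, hs, ?_⟩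
      rw [← QuotientGroup.out_eq' q]
      exact QuotientGroup.eq.2 hsq
    choose s hs hsq using hS3
    refine ⟨fun q => β (s q), ?_, ?_⟩
    · intro q q'
      have h1 : (s (q * q'))⁻¹ * (s q * s q') ∈ KK β (k + 1) := by
        refine hS1 _ (S.mul_mem (S.inv_mem (hs _)) (S.mul_mem (hs _) (hs _))) ?_
        rw [← QuotientGroup.eq, hsq, QuotientGroup.mk_mul, hsq, hsq]
      rw [KK_inv_mul, map_mul] at h1
      exact h1.mono (by omega)
    · intro q
      have h1 : (q.out)⁻¹ * s q ∈ KK β 1 := by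
        rw [← QuotientGroup.eq, hsq]
        exact QuotientGroup.out_eq' q
      exact KK_inv_mul.1 h1
  obtain ⟨f, hf⟩ := IsCompact.nonempty_iInter_of_sequence_nonempty_isCompact_isClosed C
    (fun i f hf => ⟨fun q q' => (hf.1 q q').mono (by omega), hf.2⟩) hne
    ((hcl 0).isCompact) hcl
  rw [Set.mem_iInter] at hf
  have hmul : ∀ q q', f (q * q') = f q * f q' := by
    intro q q'
    have := eq_zero_of_cg fun k => (hf k).1 q q'
    exact (sub_eq_zero.1 this).symm
  have hred : ∀ q, Cg 1 (f q - β q.out) := (hf 0).2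
  have hone : f 1 = 1 := by
    have h1 : f 1 * f 1 = f 1 := by rw [← hmul, one_mul]
    have h2 : Cg 1 (f 1 - 1) := by
      have h3 : ((1 : G ⧸ KK β 1)).out ∈ KK β 1 := by
        rw [← QuotientGroup.eq_one_iff]
        exact QuotientGroup.out_eq' _
      have h4 := (hred 1).add (mem_KK.1 h3)
      rwa [sub_add_sub_cancel] at h4
    have h3 : ∀ k, Cg (k + 1) (f 1 - 1) := by
      intro k
      induction k with
      | zero => exact h2
      | succ k ih =>
        have h4 : f 1 - 1 = -((f 1 - 1) * (f 1 - 1)) := by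
          have : (f 1 - 1) * (f 1 - 1) = f 1 * f 1 - f 1 - f 1 + 1 := by noncomm_ring
          rw [this, h1]
          noncomm_ring
        rw [h4]
        exact (ih.mul h2).neg
    exact sub_eq_zero.1 (eq_zero_of_cg fun k => (h3 k).mono (by omega))
  refine ⟨⟨⟨f, hone⟩, hmul⟩, ?_⟩
  intro q q' h
  have h1 : f q = f q' := h
  have h2 : Cg 1 (β q'.out - β q.out) := by
    have h3 := (hred q).sub (hred q')
    rw [h1] at h3
    have h4 : f q' - β q.out - (f q' - β q'.out) = β q'.out - β q.out := by abel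
    rwa [h4] at h3
  rw [← QuotientGroup.out_eq' q, ← QuotientGroup.out_eq' q']
  exact QuotientGroup.eq.2 (KK_inv_mul.2 h2)

theorem exists_emb : Nonempty (ℤ_[ℓ] →+* ℂ) ∧ ∃ f : ℤ_[ℓ] →+* ℂ, Function.Injective f := by
  have h2 : Cardinal.continuum ≤ Cardinal.mk ℚ_[ℓ] :=
    continuum_le_cardinal_of_nontriviallyNormedField ℚ_[ℓ]
  have h3 : Cardinal.mk ℚ_[ℓ] ≤ Cardinal.continuum := by
    have h4 : Cardinal.mk ℚ_[ℓ] ≤ Cardinal.mk (CauSeq ℚ (padicNorm ℓ)) :=
      Cardinal.mk_le_of_surjective (f := fun x => (Quotient.mk _ x : ℚ_[ℓ])) (by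
        intro y
        exact Quotient.exists_rep y)
    refine h4.trans ?_
    have h5 : Cardinal.mk (CauSeq ℚ (padicNorm ℓ)) ≤ Cardinal.mk (ℕ → ℚ) :=
      Cardinal.mk_le_of_injective (f := fun x => (x : ℕ → ℚ)) (by
        intro x y hxy
        exact Subtype.ext hxy)
    refine h5.trans ?_
    simp
  have h6 : Cardinal.mk ℚ_[ℓ] = Cardinal.continuum := le_antisymm h3 h2
  have h7 : Cardinal.mk (PadicAlgCl ℓ) = Cardinal.continuum := by
    apply le_antisymm
    · have := Algebra.IsAlgebraic.cardinalMk_le_max ℚ_[ℓ] (PadicAlgCl ℓ)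
      rw [h6, max_eq_left Cardinal.aleph0_le_continuum] at this
      exact this
    · rw [← h6]
      exact Cardinal.mk_le_of_injective (algebraMap ℚ_[ℓ] (PadicAlgCl ℓ)).injective
  obtain ⟨e⟩ : Nonempty (PadicAlgCl ℓ ≃+* ℂ) := by
    apply IsAlgClosed.ringEquiv_of_equiv_of_charZero
    · rw [h7]
      exact Cardinal.aleph0_lt_continuum
    · rw [← Cardinal.eq, h7, Cardinal.mk_complex]
  let f : ℤ_[ℓ] →+* ℂ := (e : PadicAlgCl ℓ →+* ℂ).comp
    ((algebraMap ℚ_[ℓ] (PadicAlgCl ℓ)).comp (algebraMap ℤ_[ℓ] ℚ_[ℓ]))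
  refine ⟨⟨f⟩, f, ?_⟩
  exact e.injective.comp ((algebraMap ℚ_[ℓ] (PadicAlgCl ℓ)).injective.comp
    (IsFractionRing.injective ℤ_[ℓ] ℚ_[ℓ]))

/-- Jordan's bound -/
def jbound (N : ℕ) : ℕ := 5 ^ (2 * (N * N))

/-- **Jordan's theorem modulo `ℓ`** -/
theorem jordan_mod (β : G →* Matrix (Fin N) (Fin N) ℤ_[ℓ]) (hcop : ¬ ℓ ∣ (KK β 1).index) :
    ∃ U : Subgroup G, U.index ≠ 0 ∧ U.index ≤ jbound N ∧
      ∀ a ∈ U, ∀ b ∈ U, redM ℓ (β a) * redM ℓ (β b) = redM ℓ (β b) * redM ℓ (β a) := by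
  obtain ⟨F, hF⟩ := exists_lift β hcop
  obtain ⟨-, f, hf⟩ := exists_emb (ℓ := ℓ)
  let ρ : (G ⧸ KK β 1) →* ((Fin N → ℂ) →ₗ[ℂ] (Fin N → ℂ)) :=
    { toFun := fun q => toLin' ((F q).map f)
      map_one' := by
        rw [map_one, Matrix.map_one _ (map_zero _) (map_one _), toLin'_one]
        rfl
      map_mul' := by
        intro q q'
        rw [map_mul, Matrix.map_mul, toLin'_mul]
        rfl }
  have hρ : Function.Injective ρ := by
    intro q q' h
    have h1 : (F q).map f = (F q').map f := toLin'.injective h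
    apply hF
    ext i j
    have h2 := congrFun (congrFun h1 i) j
    simp only [Matrix.map_apply] at h2
    rw [hf h2]
  obtain ⟨A, hA, hAi⟩ := Pool.Agent.Helper561.FOM.jordan_linear ρ hρ
  refine ⟨A.comap (QuotientGroup.mk' (KK β 1)), ?_, ?_, ?_⟩
  · rw [Subgroup.index_comap_of_surjective _ (QuotientGroup.mk'_surjective _)]
    exact Subgroup.index_ne_zero_of_finite
  · rw [Subgroup.index_comap_of_surjective _ (QuotientGroup.mk'_surjective _)]
    refine hAi.trans (le_of_eq ?_)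
    rw [Module.finrank_fin_fun, jbound]
  · intro a ha b hb
    have h1 := hA _ ha _ hb
    have h2 : (QuotientGroup.mk (a * b) : G ⧸ KK β 1) = QuotientGroup.mk (b * a) := by
      rw [QuotientGroup.mk_mul, QuotientGroup.mk_mul]
      exact h1
    rw [QuotientGroup.eq, KK_inv_mul, ← redM_eq_iff, map_mul, map_mul, redM_mul, redM_mul] at h2
    exact h2.symm

end

end Pool.Agent.R932
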