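import Pool.Agent.R932.LogB

/-!
# Lifting to `ℤ_ℓ`: the image contains the kernel of the reduction modulo `ℓ`
-/

set_option autoImplicit false
set_option linter.unusedSectionVars false
set_option linter.style.haveILetI false

open Matrix Polynomial
open Pool.Agent.Y142.ZO Pool.Agent.Y379.ZI

namespace Pool.Agent.R932

section
variable {ℓ : ℕ} [hp : Fact ℓ.Prime] {N : ℕ}

/-- `C(ℓ, j) / ℓ` modulo `ℓ` is the linear coefficient of the binomial polynomial -/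
theorem bp_coeff_one {j a : ℕ} (hj1 : 1 ≤ j) (hj : j < ℓ) (ha : ℓ.choose j = ℓ * a) :
    (bp (ZMod ℓ) j).coeff 1 = (a : ZMod ℓ) := by
  obtain ⟨i, rfl⟩ := Nat.exists_eq_add_of_le' hj1
  have h1 : (i + 1) * a = (ℓ - 1).choose i := by
    have h2 := Nat.add_one_mul_choose_eq (ℓ - 1) i
    rw [Nat.sub_add_cancel hp.out.one_le, ha] at h2
    have h3 : ℓ * ((ℓ - 1).choose i) = ℓ * ((i + 1) * a) := by rw [h2]; ring
    exact (Nat.eq_of_mul_eq_mul_left hp.out.pos h3).symm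
  have hi : ((i + 1 : ℕ) : ZMod ℓ) ≠ 0 := by
    intro h
    rw [ZMod.natCast_eq_zero_iff] at h
    have := Nat.le_of_dvd (by omega) h
    omega
  have h2 : ((i + 1 : ℕ) : ZMod ℓ) * (bp (ZMod ℓ) (i + 1)).coeff 1 = (bp (ZMod ℓ) i).eval (-1) := by
    unfold bp
    rw [descPochhammer_succ_left, ← mul_assoc, mul_comm (C _) X, mul_assoc, coeff_X_mul,
      coeff_zero_eq_eval_zero, eval_mul, eval_mul, eval_C, eval_C, eval_comp, eval_sub, eval_X,
      eval_one, zero_sub, Nat.factorial_succ, Nat.cast_mul, mul_inv, ← mul_assoc, ← mul_assoc,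
      mul_inv_cancel₀ hi, one_mul]
  have h3 : (bp (ZMod ℓ) i).eval (-1) = ((ℓ - 1).choose i : ℕ) := by
    rw [← bp_eval (fact_ne (by omega)), Nat.cast_sub hp.out.one_le, ZMod.natCast_self,
      Nat.cast_one, zero_sub]
  apply mul_left_cancel₀ hi
  rw [h2, h3, ← h1, Nat.cast_mul]

theorem redM_pow' (A : Matrix (Fin N) (Fin N) ℤ_[ℓ]) (n : ℕ) : redM ℓ (A ^ n) = redM ℓ A ^ n :=
  redM_pow ℓ A n

/-- the `ℓ`-th power of a lift of an element of order `ℓ` -/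
theorem pow_lift {h : Matrix (Fin N) (Fin N) ℤ_[ℓ]} (hu : redM ℓ h ^ ℓ = 1) (hN : 2 * N ≤ ℓ) :
    ∃ C, redM ℓ C = logM (redM ℓ h) ∧ Cg 2 (h ^ ℓ - 1 - (ℓ : ℤ_[ℓ]) • C) := by
  have ha : ∀ j, ∃ a : ℕ, 1 ≤ j → j < ℓ → ℓ.choose j = ℓ * a := by
    intro j
    by_cases h : 1 ≤ j ∧ j < ℓ
    · obtain ⟨a, ha⟩ := hp.out.dvd_choose_self (by omega) h.2
      exact ⟨a, fun _ _ => ha⟩
    · exact ⟨0, fun h1 h2 => absurd ⟨h1, h2⟩ h⟩
  choose a ha using ha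
  set x := h - 1 with hx
  have hxr : redM ℓ x = redM ℓ h - 1 := by rw [hx, redM_sub, redM_one]
  have hxN : ∀ j, N ≤ j → Cg 1 (x ^ j) := by
    intro j hj
    rw [← redM_eq_zero, redM_pow, hxr]
    obtain ⟨k, rfl⟩ := Nat.exists_eq_add_of_le hj
    rw [pow_add, unip_pow hu, zero_mul]
  refine ⟨∑ j ∈ Finset.range N, (if j = 0 then 0 else (a j : ℤ_[ℓ])) • x ^ j, ?_, ?_⟩
  · unfold logM redM
    ext p q
    rw [Matrix.map_apply, Matrix.sum_apply, Matrix.sum_apply, map_sum]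
    refine Finset.sum_congr rfl fun j hj => ?_
    rw [Finset.mem_range] at hj
    rw [Matrix.smul_apply, Matrix.smul_apply, smul_eq_mul, smul_eq_mul, map_mul]
    have h1 : (PadicInt.toZMod : ℤ_[ℓ] →+* ZMod ℓ) ((x ^ j) p q) = ((redM ℓ h - 1) ^ j) p q := by
      rw [← hxr, ← redM_pow]
      rfl
    have h2 : (PadicInt.toZMod : ℤ_[ℓ] →+* ZMod ℓ) (if j = 0 then 0 else (a j : ℤ_[ℓ])) =
        (bp (ZMod ℓ) j).coeff 1 := by
      rcases Nat.eq_zero_or_pos j with h0 | h0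
      · subst h0
        rw [if_pos rfl, map_zero, bp_zero, coeff_one, if_neg (by omega)]
      · rw [if_neg (by omega), map_natCast, bp_coeff_one h0 (by omega) (ha j h0 (by omega))]
    rw [h2]
    congr 1
  · rcases Nat.eq_zero_or_pos N with h0 | h0
    · subst h0
      refine ⟨0, ?_⟩
      exact Subsingleton.elim _ _
    have hℓ2 : 2 ≤ ℓ := hp.out.two_le
    have e1 : h ^ ℓ = ∑ j ∈ Finset.range (ℓ + 1), (ℓ.choose j : ℤ_[ℓ]) • x ^ j := by
      conv_lhs => rw [show h = x + 1 by rw [hx]; abel]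
      rw [Commute.add_pow (Commute.one_right x)]
      refine Finset.sum_congr rfl fun j _ => ?_
      rw [one_pow, mul_one, ← Nat.cast_comm, ← nsmul_eq_mul, Nat.cast_smul_eq_nsmul]
    have e2 : h ^ ℓ - 1 - (ℓ : ℤ_[ℓ]) • ∑ j ∈ Finset.range N,
        (if j = 0 then 0 else (a j : ℤ_[ℓ])) • x ^ j =
        ∑ j ∈ Finset.Ico N ℓ, (ℓ.choose j : ℤ_[ℓ]) • x ^ j + x ^ ℓ := by
      rw [e1, Finset.sum_range_succ, Nat.choose_self, Nat.cast_one, one_smul,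
        ← Finset.sum_range_add_sum_Ico _ (show N ≤ ℓ by omega), Finset.smul_sum]
      obtain ⟨M, rfl⟩ := Nat.exists_eq_add_of_le' h0
      rw [Finset.sum_range_succ' _ M, Finset.sum_range_succ' _ M]
      have e3 : ∑ j ∈ Finset.range M, (ℓ : ℤ_[ℓ]) •
          (if j + 1 = 0 then 0 else (a (j + 1) : ℤ_[ℓ])) • x ^ (j + 1) =
          ∑ j ∈ Finset.range M, (ℓ.choose (j + 1) : ℤ_[ℓ]) • x ^ (j + 1) := by
        refine Finset.sum_congr rfl fun j hj => ?_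
        rw [Finset.mem_range] at hj
        rw [if_neg (by omega), ha (j + 1) (by omega) (by omega), Nat.cast_mul, smul_smul]
      rw [e3]
      simp
      abel
    rw [e2]
    refine (Cg.sum _ _ fun j hj => ?_).add ?_
    · rw [Finset.mem_Ico] at hj
      obtain ⟨D, hD⟩ := hxN j hj.1
      refine ⟨(a j : ℤ_[ℓ]) • D, ?_⟩
      rw [hD, ha j (by omega) hj.2, Nat.cast_mul, smul_smul, smul_smul]
      congr 1
      ring
    · have h3 : x ^ ℓ = x ^ N * x ^ (ℓ - N) := by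
        rw [← pow_add]
        congr 1
        omega
      rw [h3]
      exact (hxN N le_rfl).mul (hxN (ℓ - N) (by omega))

variable {G : Type} [Group G]

/-- the graded pieces of the image -/
def GR (β : G →* Matrix (Fin N) (Fin N) ℤ_[ℓ]) (k : ℕ) :
    Set (Matrix (Fin N) (Fin N) (ZMod ℓ)) :=
  {Z | ∃ g : G, ∃ C, redM ℓ C = Z ∧ Cg (k + 1) (β g - 1 - (ℓ : ℤ_[ℓ]) ^ k • C)}

theorem GR_zero (β : G →* Matrix (Fin N) (Fin N) ℤ_[ℓ]) (k : ℕ) : 0 ∈ GR β k := by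
  refine ⟨1, 0, ?_, ?_⟩
  · unfold redM
    ext i j
    simp
  · rw [map_one, sub_self, smul_zero, sub_zero]
    exact Cg.zero _

theorem GR_add {β : G →* Matrix (Fin N) (Fin N) ℤ_[ℓ]} {k : ℕ} (hk : 1 ≤ k)
    {Z Z' : Matrix (Fin N) (Fin N) (ZMod ℓ)} (hZ : Z ∈ GR β k) (hZ' : Z' ∈ GR β k) :
    Z + Z' ∈ GR β k := by
  obtain ⟨g, C, rfl, h⟩ := hZ
  obtain ⟨g', C', rfl, h'⟩ := hZ'
  refine ⟨g * g', C + C', redM_add C C', ?_⟩
  have h1 : Cg k (β g - 1) := by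
    have := (h.mono (show k ≤ k + 1 by omega)).add (⟨C, rfl⟩ : Cg k ((ℓ : ℤ_[ℓ]) ^ k • C))
    rwa [sub_add_cancel] at this
  have h2 : Cg k (β g' - 1) := by
    have := (h'.mono (show k ≤ k + 1 by omega)).add (⟨C', rfl⟩ : Cg k ((ℓ : ℤ_[ℓ]) ^ k • C'))
    rwa [sub_add_cancel] at this
  have h3 : β (g * g') - 1 - (ℓ : ℤ_[ℓ]) ^ k • (C + C') = (β g - 1) * (β g' - 1) +
      (β g - 1 - (ℓ : ℤ_[ℓ]) ^ k • C) + (β g' - 1 - (ℓ : ℤ_[ℓ]) ^ k • C') := by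
    rw [map_mul, smul_add]
    noncomm_ring
  rw [h3]
  exact (((h1.mul h2).mono (by omega)).add h).add h'

theorem GR_smul {β : G →* Matrix (Fin N) (Fin N) ℤ_[ℓ]} {k : ℕ} (hk : 1 ≤ k) (c : ZMod ℓ)
    {Z : Matrix (Fin N) (Fin N) (ZMod ℓ)} (hZ : Z ∈ GR β k) : c • Z ∈ GR β k := by
  have h1 : ∀ n : ℕ, (n : ZMod ℓ) • Z ∈ GR β k := by
    intro n
    induction n with
    | zero => rw [Nat.cast_zero, zero_smul]; exact GR_zero β k
    | succ n ih => rw [Nat.cast_succ, add_smul, one_smul]; exact GR_add hk ih hZ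
  have := h1 c.val
  rwa [ZMod.natCast_zmod_val] at this

theorem GR_succ {β : G →* Matrix (Fin N) (Fin N) ℤ_[ℓ]} {k : ℕ} (hk : 1 ≤ k) (h2 : ℓ ≠ 2)
    {Z : Matrix (Fin N) (Fin N) (ZMod ℓ)} (hZ : Z ∈ GR β k) : Z ∈ GR β (k + 1) := by
  obtain ⟨g, C, rfl, h⟩ := hZ
  refine ⟨g ^ ℓ, C, rfl, ?_⟩
  set y := β g - 1 with hy
  have hyk : Cg k y := by
    have := (h.mono (show k ≤ k + 1 by omega)).add (⟨C, rfl⟩ : Cg k ((ℓ : ℤ_[ℓ]) ^ k • C))
    rwa [sub_add_cancel] at this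
  have h3 : ∀ i : ℕ, Cg 2 (β g ^ i - 1 - (i : ℤ_[ℓ]) • y) := by
    intro i
    induction i with
    | zero => rw [pow_zero, sub_self, Nat.cast_zero, zero_smul, sub_zero]; exact Cg.zero _
    | succ i ih =>
      have h4 : β g ^ (i + 1) - 1 - ((i + 1 : ℕ) : ℤ_[ℓ]) • y =
          β g * (β g ^ i - 1 - (i : ℤ_[ℓ]) • y) + (i : ℤ_[ℓ]) • (y * y) := by
        have h5 : β g = y + 1 := by rw [hy]; abel
        rw [pow_succ', Nat.cast_succ, add_smul, one_smul, mul_sub, mul_sub, mul_smul_comm, mul_one]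
        have h6 : β g * y = y * y + y := by rw [h5]; noncomm_ring
        rw [h6, smul_add]
        rw [hy]
        abel
      rw [h4]
      exact (ih.mul_left _).add (((hyk.mul hyk).mono (by omega)).smul _)
  have h4 : Cg 2 (∑ i ∈ Finset.range ℓ, (β g ^ i - 1)) := by
    have h5 : ∑ i ∈ Finset.range ℓ, (β g ^ i - 1) =
        ∑ i ∈ Finset.range ℓ, (β g ^ i - 1 - (i : ℤ_[ℓ]) • y) +
        ((∑ i ∈ Finset.range ℓ, i : ℕ) : ℤ_[ℓ]) • y := by
      rw [Nat.cast_sum, Finset.sum_smul, ← Finset.sum_add_distrib]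
      exact Finset.sum_congr rfl fun i _ => (sub_add_cancel _ _).symm
    rw [h5]
    refine (Cg.sum _ _ fun i _ => h3 i).add ?_
    have hodd : Odd ℓ := hp.out.odd_of_ne_two h2
    obtain ⟨m, hm⟩ := hodd
    have h6 : (∑ i ∈ Finset.range ℓ, i) = ℓ * m := by
      rw [Finset.sum_range_id, hm]
      rw [show 2 * m + 1 - 1 = 2 * m by omega, show (2 * m + 1) * (2 * m) = (2 * m + 1) * m * 2 by ring,
        Nat.mul_div_cancel _ (by norm_num)]
    rw [h6]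
    obtain ⟨D, hD⟩ := hyk.mono hk
    refine ⟨(m : ℤ_[ℓ]) • D, ?_⟩
    rw [hD, Nat.cast_mul, smul_smul, smul_smul]
    congr 1
    ring
  have h5 : β (g ^ ℓ) - 1 = y * ∑ i ∈ Finset.range ℓ, (β g ^ i - 1) + (ℓ : ℤ_[ℓ]) • y := by
    rw [map_pow, ← mul_geom_sum, Finset.sum_sub_distrib, Finset.sum_const, Finset.card_range,
      mul_sub, nsmul_eq_mul, mul_one, hy, Nat.cast_smul_eq_nsmul, nsmul_eq_mul, ← Nat.cast_comm,
      sub_add_cancel]
  have h6 : β (g ^ ℓ) - 1 - (ℓ : ℤ_[ℓ]) ^ (k + 1) • C = y * ∑ i ∈ Finset.range ℓ, (β g ^ i - 1) +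
      (ℓ : ℤ_[ℓ]) • (y - (ℓ : ℤ_[ℓ]) ^ k • C) := by
    rw [h5]
    clear_value y
    rw [smul_sub, smul_smul, ← pow_succ']
    abel
  rw [h6]
  refine ((hyk.mul h4).mono (by omega)).add ?_
  obtain ⟨D, hD⟩ := h
  refine ⟨D, ?_⟩
  rw [hD, smul_smul, ← pow_succ']

end

end Pool.Agent.R932
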