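import Pool.Agent.R932.LfA

/-!
# The image contains the kernel of the reduction modulo `ℓ` of the orthogonal group
-/

set_option autoImplicit false
set_option linter.unusedSectionVars false
set_option linter.style.haveILetI false

open Matrix Polynomial
open Pool.Agent.Y142.ZO Pool.Agent.Y379.ZI

namespace Pool.Agent.R932

section
variable {ℓ : ℕ} [hp : Fact ℓ.Prime] {N : ℕ} {G : Type} [Group G]

theorem GR_all {β : G →* Matrix (Fin N) (Fin N) ℤ_[ℓ]} (h2 : ℓ ≠ 2)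
    {Z : Matrix (Fin N) (Fin N) (ZMod ℓ)} (hZ : Z ∈ GR β 1) (k : ℕ) : Z ∈ GR β (k + 1) := by
  induction k with
  | zero => exact hZ
  | succ k ih => exact GR_succ (by omega) h2 ih

theorem skew_of_isom {B A C : Matrix (Fin N) (Fin N) ℤ_[ℓ]} (hB : Bᵀ = B) {k : ℕ} (hk : 1 ≤ k)
    (hA : Aᵀ * B * A = B) (hC : A = 1 + (ℓ : ℤ_[ℓ]) ^ k • C) : Skew (redM ℓ B) (redM ℓ C) := by
  have h1 : (ℓ : ℤ_[ℓ]) ^ k • (Cᵀ * B + B * C + (ℓ : ℤ_[ℓ]) ^ k • (Cᵀ * B * C)) = 0 := by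
    have h2 : (1 + (ℓ : ℤ_[ℓ]) ^ k • C)ᵀ * B * (1 + (ℓ : ℤ_[ℓ]) ^ k • C) = B := by rw [← hC, hA]
    rw [transpose_add, transpose_one, transpose_smul, add_mul, mul_add, mul_one, one_mul, add_mul,
      smul_mul_assoc, mul_smul_comm, smul_mul_assoc] at h2
    have h3 : B + (ℓ : ℤ_[ℓ]) ^ k • (Cᵀ * B) + ((ℓ : ℤ_[ℓ]) ^ k • (B * C) +
        (ℓ : ℤ_[ℓ]) ^ k • (Cᵀ * B * (ℓ : ℤ_[ℓ]) ^ k • C)) - B = 0 := by
      rw [sub_eq_zero]
      exact h2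
    rw [← h3, mul_smul_comm, smul_add, smul_add]
    abel
  have hℓ0 : (ℓ : ℤ_[ℓ]) ^ k ≠ 0 := pow_ne_zero _ (by exact_mod_cast hp.out.ne_zero)
  have h2 : Cᵀ * B + B * C + (ℓ : ℤ_[ℓ]) ^ k • (Cᵀ * B * C) = 0 := by
    ext i j
    have h3 := congrFun (congrFun h1 i) j
    rw [Matrix.smul_apply, Matrix.zero_apply, smul_eq_mul] at h3
    exact (mul_eq_zero.1 h3).resolve_left hℓ0
  have h3 := congrArg (redM ℓ) h2
  have h4 : redM ℓ ((ℓ : ℤ_[ℓ]) ^ k • (Cᵀ * B * C)) = 0 := by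
    rw [redM_eq_zero]
    exact Cg.mono hk (⟨_, rfl⟩ : Cg k ((ℓ : ℤ_[ℓ]) ^ k • (Cᵀ * B * C)))
  have h5 : redM ℓ (0 : Matrix (Fin N) (Fin N) ℤ_[ℓ]) = 0 := by
    rw [redM_eq_zero]
    exact Cg.zero 1
  have h6 : redM ℓ Cᵀ = (redM ℓ C)ᵀ := rfl
  have h7 : redM ℓ Bᵀ = (redM ℓ B)ᵀ := rfl
  rw [redM_add, redM_add, h4, add_zero, redM_mul, redM_mul, h5, h6] at h3
  show (redM ℓ B * redM ℓ C)ᵀ = -(redM ℓ B * redM ℓ C)
  rw [transpose_mul, ← h7, hB]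
  exact eq_neg_of_add_eq_zero_left h3

theorem inv_isom {B : Matrix (Fin N) (Fin N) ℤ_[ℓ]} {β : G →* Matrix (Fin N) (Fin N) ℤ_[ℓ]}
    (hiso : ∀ g, (β g)ᵀ * B * β g = B) {A : Matrix (Fin N) (Fin N) ℤ_[ℓ]} (hA : Aᵀ * B * A = B)
    (g : G) : (β g * A)ᵀ * B * (β g * A) = B := by
  rw [transpose_mul]
  calc Aᵀ * (β g)ᵀ * B * (β g * A) = Aᵀ * ((β g)ᵀ * B * β g) * A := by simp only [mul_assoc]
    _ = B := by rw [hiso, hA]

theorem approx {β : G →* Matrix (Fin N) (Fin N) ℤ_[ℓ]} (h2 : ℓ ≠ 2)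
    {B : Matrix (Fin N) (Fin N) ℤ_[ℓ]} (hB : Bᵀ = B) (hiso : ∀ g, (β g)ᵀ * B * β g = B)
    (hskew : ∀ Z, Skew (redM ℓ B) Z → Z ∈ GR β 1)
    {A : Matrix (Fin N) (Fin N) ℤ_[ℓ]} (hA : Aᵀ * B * A = B) (hA1 : Cg 1 (A - 1)) (k : ℕ) :
    ∃ g : G, Cg (k + 1) (A - β g) := by
  induction k with
  | zero => exact ⟨1, by rw [map_one]; exact hA1⟩
  | succ k ih =>
    obtain ⟨g, hg⟩ := ih
    have h3 : Cg (k + 1) (β g⁻¹ * A - 1) := by
      have : β g⁻¹ * A - 1 = β g⁻¹ * (A - β g) := by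
        rw [mul_sub, ← map_mul, inv_mul_cancel, map_one]
      rw [this]
      exact hg.mul_left _
    obtain ⟨C, hC⟩ := h3
    have h4 : Skew (redM ℓ B) (redM ℓ C) :=
      skew_of_isom hB (k := k + 1) (by omega) (inv_isom hiso hA g⁻¹)
        (by rw [← hC, add_sub_cancel])
    obtain ⟨g', C', hC', h5⟩ := GR_all h2 (hskew _ h4) k
    refine ⟨g * g', ?_⟩
    have h6 : Cg (k + 1 + 1) (β g⁻¹ * A - β g') := by
      have h7 : β g⁻¹ * A - β g' = (ℓ : ℤ_[ℓ]) ^ (k + 1) • (C - C') -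
          (β g' - 1 - (ℓ : ℤ_[ℓ]) ^ (k + 1) • C') := by
        rw [smul_sub, ← hC]
        abel
      rw [h7]
      refine Cg.sub ?_ h5
      have h8 : Cg 1 (C - C') := by
        rw [← redM_eq_iff, hC']
      obtain ⟨D, hD⟩ := h8
      exact ⟨D, by rw [hD, smul_smul, ← pow_add]⟩
    have h7 : A - β (g * g') = β g * (β g⁻¹ * A - β g') := by
      rw [mul_sub, ← mul_assoc, ← map_mul, mul_inv_cancel, map_one, one_mul, map_mul]
    rw [h7]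
    exact h6.mul_left _

/-- **the image contains the kernel of the reduction** -/
theorem mem_range_of_cg {β : G →* Matrix (Fin N) (Fin N) ℤ_[ℓ]} (h2 : ℓ ≠ 2)
    {B : Matrix (Fin N) (Fin N) ℤ_[ℓ]} (hB : Bᵀ = B) (hiso : ∀ g, (β g)ᵀ * B * β g = B)
    (hskew : ∀ Z, Skew (redM ℓ B) Z → Z ∈ GR β 1) (hcl : IsClosed (Set.range β))
    {A : Matrix (Fin N) (Fin N) ℤ_[ℓ]} (hA : Aᵀ * B * A = B) (hA1 : Cg 1 (A - 1)) :
    ∃ g, β g = A := by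
  haveI : CompactSpace (Matrix (Fin N) (Fin N) ℤ_[ℓ]) :=
    inferInstanceAs (CompactSpace (Fin N → Fin N → ℤ_[ℓ]))
  let C : ℕ → Set (Matrix (Fin N) (Fin N) ℤ_[ℓ]) := fun k =>
    Set.range β ∩ {h | Cg (k + 1) (A - h)}
  have hC : ∀ k, IsClosed (C k) := fun k =>
    hcl.inter ((cg_closed (k + 1)).preimage (continuous_const.sub continuous_id))
  obtain ⟨f, hf⟩ := IsCompact.nonempty_iInter_of_sequence_nonempty_isCompact_isClosed C
    (fun i f hf => ⟨hf.1, Cg.mono (by omega) hf.2⟩)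
    (fun k => by
      obtain ⟨g, hg⟩ := approx h2 hB hiso hskew hA hA1 k
      exact ⟨β g, ⟨g, rfl⟩, hg⟩)
    ((hC 0).isCompact) hC
  rw [Set.mem_iInter] at hf
  obtain ⟨g, hg⟩ := (hf 0).1
  refine ⟨g, ?_⟩
  rw [hg]
  have h3 : A - f = 0 := eq_zero_of_cg fun k => Cg.mono (by omega) (hf k).2
  exact (sub_eq_zero.1 h3).symm

/-- the reduction of the representation, as a homomorphism -/
noncomputable def redHom (β : G →* Matrix (Fin N) (Fin N) ℤ_[ℓ]) :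
    G →* Matrix (Fin N) (Fin N) (ZMod ℓ) where
  toFun g := redM ℓ (β g)
  map_one' := by rw [map_one, redM_one]
  map_mul' a b := by rw [map_mul, redM_mul]

theorem GR_of_logSpan {β : G →* Matrix (Fin N) (Fin N) ℤ_[ℓ]} (hN : 2 * N ≤ ℓ)
    {Z : Matrix (Fin N) (Fin N) (ZMod ℓ)} (hZ : Z ∈ logSpan (redHom β)) : Z ∈ GR β 1 := by
  unfold logSpan at hZ
  induction hZ using Submodule.span_induction with
  | mem x hx =>
    obtain ⟨g, hg, rfl⟩ := hx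
    obtain ⟨C, hC, h⟩ := pow_lift (h := β g) hg hN
    exact ⟨g ^ ℓ, C, hC, by rw [map_pow, pow_one]; exact h⟩
  | zero => exact GR_zero β 1
  | add x y _ _ hx hy => exact GR_add le_rfl hx hy
  | smul c x _ hx => exact GR_smul le_rfl c hx

end

end Pool.Agent.R932
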