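import Pool.Agent.R932.IrA

/-!
# A normalised Lie algebra of skew maps which contains the components `e ∧ Z e` is everything, if the
group is irreducible under subgroups of index at most `N`
-/

set_option autoImplicit false
set_option linter.unusedSectionVars false
set_option linter.style.haveILetI false

open Matrix
open Pool.Agent.Y142.ZO Pool.Agent.Y379.ZI

namespace Pool.Agent.R932

section
variable {F : Type} [Field F] {N : ℕ}

theorem wedge_mulVec (B : Matrix (Fin N) (Fin N) F) (a b x : Fin N → F) :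
    wedge B a b *ᵥ x = bil B a x • b - bil B b x • a := by
  unfold wedge bil
  rw [sub_mulVec, vecMulVec_mulVec, vecMulVec_mulVec, ← dotProduct_mulVec, ← dotProduct_mulVec]
  ext i
  simp [mul_comm]

theorem wedge_add_right (B : Matrix (Fin N) (Fin N) F) (a b c : Fin N → F) :
    wedge B a (b + c) = wedge B a b + wedge B a c := by
  unfold wedge
  rw [add_vecMulVec, add_vecMul, vecMulVec_add]
  abel

theorem wedge_smul_right (B : Matrix (Fin N) (Fin N) F) (a b : Fin N → F) (c : F) :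
    wedge B a (c • b) = c • wedge B a b := by
  unfold wedge
  rw [smul_vecMulVec, smul_vecMul, vecMulVec_smul, smul_sub]

theorem wedge_swap (B : Matrix (Fin N) (Fin N) F) (a b : Fin N → F) :
    wedge B b a = -wedge B a b := by
  unfold wedge
  abel

theorem wedge_add_left (B : Matrix (Fin N) (Fin N) F) (a b c : Fin N → F) :
    wedge B (a + b) c = wedge B a c + wedge B b c := by
  rw [wedge_swap, wedge_add_right, neg_add, ← wedge_swap, ← wedge_swap]

theorem wedge_smul_left (B : Matrix (Fin N) (Fin N) F) (a b : Fin N → F) (c : F) :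
    wedge B (c • a) b = c • wedge B a b := by
  rw [wedge_swap, wedge_smul_right, ← smul_neg, ← wedge_swap]

theorem wedge_self (B : Matrix (Fin N) (Fin N) F) (a : Fin N → F) : wedge B a a = 0 := by
  unfold wedge
  rw [sub_self]

/-- the bracket of a skew map and a wedge -/
theorem bracket_wedge {B Z : Matrix (Fin N) (Fin N) F} (hB : Bᵀ = B) (hZ : Skew B Z)
    (a b : Fin N → F) :
    Z * wedge B a b - wedge B a b * Z = wedge B (Z *ᵥ a) b + wedge B a (Z *ᵥ b) := by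
  have hBZ : Zᵀ * B = -(B * Z) := by
    have h1 : (B * Z)ᵀ = -(B * Z) := hZ
    rwa [transpose_mul, hB] at h1
  have h : ∀ x : Fin N → F, (x ᵥ* B) ᵥ* Z = -((Z *ᵥ x) ᵥ* B) := by
    intro x
    rw [vecMul_vecMul, ← vecMul_transpose, vecMul_vecMul, hBZ, vecMul_neg, neg_neg]
  unfold wedge
  rw [mul_sub, sub_mul, mul_vecMulVec, mul_vecMulVec, vecMulVec_mul, vecMulVec_mul, h, h,
    vecMulVec_neg, vecMulVec_neg]
  abel

/-- conjugation of a wedge -/
theorem conj_wedge {B g h : Matrix (Fin N) (Fin N) F} (hg : Isom B g) (hgh : g * h = 1)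
    (a b : Fin N → F) : g * wedge B a b * h = wedge B (g *ᵥ a) (g *ᵥ b) := by
  have hBh : B * h = gᵀ * B := by
    have h1 : gᵀ * B * g = B := hg
    calc B * h = gᵀ * B * g * h := by rw [h1]
      _ = gᵀ * B := by rw [mul_assoc, hgh, mul_one]
  have h2 : ∀ x : Fin N → F, (x ᵥ* B) ᵥ* h = (g *ᵥ x) ᵥ* B := by
    intro x
    rw [vecMul_vecMul, hBh, ← vecMul_vecMul, vecMul_transpose]
  unfold wedge
  rw [mul_sub, sub_mul, mul_vecMulVec, mul_vecMulVec, vecMulVec_mul, vecMulVec_mul, h2, h2]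

theorem bil_skew {B Z : Matrix (Fin N) (Fin N) F} (hB : Bᵀ = B) (hZ : Skew B Z)
    (a b : Fin N → F) : bil B (Z *ᵥ a) b = -bil B a (Z *ᵥ b) := by
  have hBZ : Zᵀ * B = -(B * Z) := by
    have h1 : (B * Z)ᵀ = -(B * Z) := hZ
    rwa [transpose_mul, hB] at h1
  unfold bil
  rw [← vecMul_transpose, ← dotProduct_mulVec, mulVec_mulVec, hBZ, neg_mulVec, dotProduct_neg,
    mulVec_mulVec]

theorem bil_add_left' (B : Matrix (Fin N) (Fin N) F) (x y z : Fin N → F) :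
    bil B (x + y) z = bil B x z + bil B y z := by
  unfold bil
  rw [add_dotProduct]

theorem bil_sub_left' (B : Matrix (Fin N) (Fin N) F) (x y z : Fin N → F) :
    bil B (x - y) z = bil B x z - bil B y z := by
  unfold bil
  rw [sub_dotProduct]

/-- all skew maps are sums of wedges -/
theorem skew_mem_of_wedge [NeZero (2 : F)] {B : Matrix (Fin N) (Fin N) F} (hB : Bᵀ = B)
    (hdet : B.det ≠ 0) (𝔫 : Submodule F (Matrix (Fin N) (Fin N) F))
    (h : ∀ a b, wedge B a b ∈ 𝔫) {Z : Matrix (Fin N) (Fin N) F} (hZ : Skew B Z) : Z ∈ 𝔫 := by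
  have hu : IsUnit B.det := isUnit_iff_ne_zero.2 hdet
  set M : Matrix (Fin N) (Fin N) F := Z * B⁻¹ with hM
  have hMt : Mᵀ = -M := by
    have hBZ : Zᵀ * B = -(B * Z) := by
      have h1 : (B * Z)ᵀ = -(B * Z) := hZ
      rwa [transpose_mul, hB] at h1
    have h1 : B⁻¹ᵀ = B⁻¹ := by rw [transpose_nonsing_inv, hB]
    have h2 : Mᵀ * B = -(M * B) := by
      rw [hM, transpose_mul, h1, mul_assoc, hBZ, mul_neg, ← mul_assoc, nonsing_inv_mul _ hu,
        one_mul, mul_assoc, nonsing_inv_mul _ hu, mul_one]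
    have h3 := congrArg (fun A => A * B⁻¹) h2
    simp only [neg_mul, mul_assoc, mul_nonsing_inv _ hu, mul_one] at h3
    exact h3
  have hZM : Z = M * B := by rw [hM, mul_assoc, nonsing_inv_mul _ hu, mul_one]
  have hsum : (2 : F) • Z = ∑ i, ∑ j, M i j • wedge B (Pi.single j 1) (Pi.single i 1) := by
    have h1 : ∀ i j, wedge B (Pi.single j 1) (Pi.single i 1) =
        (vecMulVec (Pi.single i 1) (Pi.single j 1) - vecMulVec (Pi.single j 1) (Pi.single i 1)) *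
          B := by
      intro i j
      unfold wedge
      rw [sub_mul, vecMulVec_mul, vecMulVec_mul]
    have h2 : (2 : F) • M = ∑ i, ∑ j, M i j • (vecMulVec (Pi.single i (1 : F)) (Pi.single j 1) -
        vecMulVec (Pi.single j 1) (Pi.single i 1)) := by
      ext a b
      simp only [Matrix.sum_apply, Matrix.smul_apply, Matrix.sub_apply, vecMulVec_apply,
        smul_eq_mul, Pi.single_apply, mul_sub, Finset.sum_sub_distrib]
      simp only [mul_ite, mul_one, mul_zero, ite_mul, one_mul, zero_mul, Finset.sum_ite_eq,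
        Finset.mem_univ, if_true]
      have h3 := congrFun (congrFun hMt a) b
      rw [transpose_apply, neg_apply] at h3
      simp [h3]
      ring
    rw [hZM, ← smul_mul_assoc, h2, Finset.sum_mul]
    refine Finset.sum_congr rfl fun i _ => ?_
    rw [Finset.sum_mul]
    refine Finset.sum_congr rfl fun j _ => ?_
    rw [h1, smul_mul_assoc]
  have h2 : (2 : F) • Z ∈ 𝔫 := by
    rw [hsum]
    exact Submodule.sum_mem _ fun i _ => Submodule.sum_mem _ fun j _ => 𝔫.smul_mem _ (h _ _)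
  have h3 := 𝔫.smul_mem ((2 : F)⁻¹) h2
  rwa [smul_smul, inv_mul_cancel₀ two_ne_zero, one_smul] at h3

end

section
variable {F : Type} [Field F] [NeZero (2 : F)] {N : ℕ} {B : Matrix (Fin N) (Fin N) F}
  {𝔫 : Submodule F (Matrix (Fin N) (Fin N) F)}

/-- the subspace generated by `x` and `𝔫 x` -/
def WW (𝔫 : Submodule F (Matrix (Fin N) (Fin N) F)) (x : Fin N → F) : Submodule F (Fin N → F) where
  carrier := {y | ∃ (c : F), ∃ Z ∈ 𝔫, y = c • x + Z *ᵥ x}
  add_mem' := by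
    rintro _ _ ⟨c, Z, hZ, rfl⟩ ⟨c', Z', hZ', rfl⟩
    refine ⟨c + c', Z + Z', 𝔫.add_mem hZ hZ', ?_⟩
    rw [add_smul, add_mulVec]
    abel
  zero_mem' := ⟨0, 0, 𝔫.zero_mem, by rw [zero_smul, zero_mulVec, add_zero]⟩
  smul_mem' := by
    rintro a _ ⟨c, Z, hZ, rfl⟩
    exact ⟨a * c, a • Z, 𝔫.smul_mem a hZ, by rw [smul_add, mul_smul, smul_mulVec]⟩

theorem self_mem_WW (x : Fin N → F) : x ∈ WW 𝔫 x :=
  ⟨1, 0, 𝔫.zero_mem, by rw [one_smul, zero_mulVec, add_zero]⟩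

theorem mulVec_mem_WW (x : Fin N → F) {Z : Matrix (Fin N) (Fin N) F} (hZ : Z ∈ 𝔫) :
    Z *ᵥ x ∈ WW 𝔫 x := ⟨0, Z, hZ, by rw [zero_smul, zero_add]⟩

variable (hB : Bᵀ = B) (hsk : ∀ Z ∈ 𝔫, Skew B Z) (hbr : ∀ X ∈ 𝔫, ∀ Y ∈ 𝔫, X * Y - Y * X ∈ 𝔫)
  {x : Fin N → F} (hxx : bil B x x ≠ 0) (hx : ∀ Z ∈ 𝔫, wedge B x (Z *ᵥ x) ∈ 𝔫)

include hB hsk in
theorem perp_self {Z : Matrix (Fin N) (Fin N) F} (hZ : Z ∈ 𝔫) (y : Fin N → F) :
    bil B y (Z *ᵥ y) = 0 := by
  have h1 := bil_skew hB (hsk Z hZ) y y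
  rw [bil_comm hB] at h1
  have h2 : (2 : F) * bil B y (Z *ᵥ y) = 0 := by linear_combination h1
  exact (mul_eq_zero.1 h2).resolve_left two_ne_zero

include hB hsk hbr hxx hx in
theorem wedge_mem1 {Z Z' : Matrix (Fin N) (Fin N) F} (hZ : Z ∈ 𝔫) (hZ' : Z' ∈ 𝔫) :
    wedge B (Z *ᵥ x) (Z' *ᵥ x) ∈ 𝔫 := by
  have h1 := hbr _ (hx Z hZ) _ (hx Z' hZ')
  rw [bracket_wedge hB (hsk _ (hx Z hZ)), wedge_mulVec, wedge_mulVec] at h1
  have e1 : bil B (Z *ᵥ x) x = 0 := by rw [bil_comm hB, perp_self hB hsk hZ]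
  have e2 : bil B x (Z' *ᵥ x) = 0 := perp_self hB hsk hZ' x
  rw [e1, e2, zero_smul, sub_zero, zero_smul, zero_sub, wedge_smul_left, ← neg_smul,
    wedge_smul_right, wedge_self, smul_zero, add_zero] at h1
  have h2 := 𝔫.smul_mem ((bil B x x)⁻¹) h1
  rwa [smul_smul, inv_mul_cancel₀ hxx, one_smul] at h2

include hB hsk hbr hxx hx in
theorem wedge_mem2 {a b : Fin N → F} (ha : a ∈ WW 𝔫 x) (hb : b ∈ WW 𝔫 x) : wedge B a b ∈ 𝔫 := by
  obtain ⟨c, Z, hZ, rfl⟩ := ha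
  obtain ⟨c', Z', hZ', rfl⟩ := hb
  rw [wedge_add_left, wedge_add_right, wedge_add_right, wedge_smul_left, wedge_smul_left,
    wedge_smul_right, wedge_smul_right, wedge_self, smul_zero, smul_zero, zero_add,
    wedge_swap B x (Z *ᵥ x)]
  exact 𝔫.add_mem (𝔫.smul_mem _ (hx Z' hZ')) (𝔫.add_mem (𝔫.smul_mem _ (𝔫.neg_mem (hx Z hZ)))
    (wedge_mem1 hB hsk hbr hxx hx hZ hZ'))

include hB hsk hbr hxx hx in
theorem stable_WW {Z : Matrix (Fin N) (Fin N) F} (hZ : Z ∈ 𝔫) {a : Fin N → F}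
    (ha : a ∈ WW 𝔫 x) : Z *ᵥ a ∈ WW 𝔫 x := by
  obtain ⟨c, Z', hZ', rfl⟩ := ha
  rw [mulVec_add, mulVec_smul]
  refine (WW 𝔫 x).add_mem ((WW 𝔫 x).smul_mem _ (mulVec_mem_WW x hZ)) ?_
  -- `x ∧ Z Z' x ∈ 𝔫`
  have h1 := hbr _ hZ _ (hx Z' hZ')
  rw [bracket_wedge hB (hsk _ hZ)] at h1
  have h2 := wedge_mem1 hB hsk hbr hxx hx hZ hZ'
  have h3 : wedge B x (Z *ᵥ (Z' *ᵥ x)) ∈ 𝔫 := by
    have := 𝔫.sub_mem h1 h2
    rwa [add_sub_cancel_left] at this
  have h4 := mulVec_mem_WW x h3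
  rw [wedge_mulVec] at h4
  have h5 := (WW 𝔫 x).add_mem h4
    ((WW 𝔫 x).smul_mem (bil B (Z *ᵥ (Z' *ᵥ x)) x) (self_mem_WW (𝔫 := 𝔫) x))
  rw [sub_add_cancel] at h5
  have h6 := (WW 𝔫 x).smul_mem ((bil B x x)⁻¹) h5
  rwa [smul_smul, inv_mul_cancel₀ hxx, one_smul] at h6

end

end Pool.Agent.R932
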