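import Pool.Agent.R932.LieC

/-!
# The abstract criterion for `𝔫` to contain all skew maps
-/

set_option autoImplicit false
set_option linter.unusedSectionVars false
set_option linter.style.haveILetI false

open Matrix
open Pool.Agent.Y142.ZO Pool.Agent.Y379.ZI

namespace Pool.Agent.R932

section
variable {F : Type} [Field F] [NeZero (2 : F)] {N : ℕ} {B : Matrix (Fin N) (Fin N) F}
  {𝔫 : Submodule F (Matrix (Fin N) (Fin N) F)} {G : Type} [Group G]
  {r : G →* Matrix (Fin N) (Fin N) F}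

theorem bil_smul_left' (B : Matrix (Fin N) (Fin N) F) (c : F) (x y : Fin N → F) :
    bil B (c • x) y = c * bil B x y := by
  unfold bil
  rw [smul_dotProduct, smul_eq_mul]

theorem bil_isom {g : Matrix (Fin N) (Fin N) F} (hg : Isom B g) (x y : Fin N → F) :
    bil B (g *ᵥ x) (g *ᵥ y) = bil B x y := by
  have h1 : gᵀ * B * g = B := hg
  unfold bil
  rw [← vecMul_transpose, ← dotProduct_mulVec, mulVec_mulVec, mulVec_mulVec, h1]

theorem mem_of_smul_mem {W : Submodule F (Fin N → F)} {c : F} (hc : c ≠ 0) {x : Fin N → F}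
    (h : c • x ∈ W) : x ∈ W := by
  have := W.smul_mem c⁻¹ h
  rwa [smul_smul, inv_mul_cancel₀ hc, one_smul] at this

theorem r_inv_mul (r : G →* Matrix (Fin N) (Fin N) F) (g : G) : r g⁻¹ * r g = 1 := by
  rw [← map_mul, inv_mul_cancel, map_one]

theorem r_mul_inv (r : G →* Matrix (Fin N) (Fin N) F) (g : G) : r g * r g⁻¹ = 1 := by
  rw [← map_mul, mul_inv_cancel, map_one]

variable (hcj : ∀ g, ∀ Z ∈ 𝔫, r g * Z * r g⁻¹ ∈ 𝔫)

include hcj in
theorem hcj' (g : G) {Z : Matrix (Fin N) (Fin N) F} (hZ : Z ∈ 𝔫) : r g⁻¹ * Z * r g ∈ 𝔫 := by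
  have := hcj g⁻¹ Z hZ
  rwa [inv_inv] at this

include hcj in
theorem WW_map (g : G) (e : Fin N → F) :
    WW 𝔫 (r g *ᵥ e) = (WW 𝔫 e).map (r g).mulVecLin := by
  apply le_antisymm
  · rintro _ ⟨c, Z, hZ, rfl⟩
    refine ⟨c • e + (r g⁻¹ * Z * r g) *ᵥ e, ⟨c, _, hcj' hcj g hZ, rfl⟩, ?_⟩
    rw [mulVecLin_apply, mulVec_add, mulVec_smul, mulVec_mulVec, ← mul_assoc, ← mul_assoc,
      r_mul_inv, one_mul, ← mulVec_mulVec]
  · rintro _ ⟨_, ⟨c, Z, hZ, rfl⟩, rfl⟩
    refine ⟨c, r g * Z * r g⁻¹, hcj g Z hZ, ?_⟩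
    rw [mulVecLin_apply, mulVec_add, mulVec_smul, mulVec_mulVec, mulVec_mulVec, mul_assoc (r g * Z),
      r_inv_mul, mul_one]

theorem r_inj (r : G →* Matrix (Fin N) (Fin N) F) (g : G) :
    Function.Injective (r g).mulVecLin := by
  intro x y hxy
  simp only [mulVecLin_apply] at hxy
  have := congrArg (fun v => r g⁻¹ *ᵥ v) hxy
  simpa only [mulVec_mulVec, r_inv_mul, one_mulVec] using this

include hcj in
theorem finrank_WW (g : G) (e : Fin N → F) :
    Module.finrank F (WW 𝔫 (r g *ᵥ e)) = Module.finrank F (WW 𝔫 e) := by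
  rw [WW_map hcj]
  exact (Submodule.equivMapOfInjective (r g).mulVecLin (r_inj r g) (WW 𝔫 e)).finrank_eq.symm

variable (hB : Bᵀ = B) (hdet : B.det ≠ 0) (hr : ∀ g, Isom B (r g))
  (hsk : ∀ Z ∈ 𝔫, Skew B Z) (hbr : ∀ X ∈ 𝔫, ∀ Y ∈ 𝔫, X * Y - Y * X ∈ 𝔫)
  {e : Fin N → F} (hee : bil B e e ≠ 0) (he : ∀ Z ∈ 𝔫, wedge B e (Z *ᵥ e) ∈ 𝔫)
  (hirr : ∀ U : Subgroup G, U.index ≠ 0 → U.index ≤ N → ∀ W : Submodule F (Fin N → F),
    (∀ g ∈ U, ∀ w ∈ W, r g *ᵥ w ∈ W) → W = ⊥ ∨ W = ⊤)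
  (h0 : ∃ Z ∈ 𝔫, Z ≠ 0)

include hr hcj he in
theorem he' (g : G) : ∀ Z ∈ 𝔫, wedge B (r g *ᵥ e) (Z *ᵥ (r g *ᵥ e)) ∈ 𝔫 := by
  intro Z hZ
  have h1 := hcj g _ (he _ (hcj' hcj g hZ))
  rw [conj_wedge (hr g) (r_mul_inv r g), mulVec_mulVec, ← mul_assoc, ← mul_assoc, r_mul_inv,
    one_mul, ← mulVec_mulVec] at h1
  exact h1

include hr hee in
theorem hee' (g : G) : bil B (r g *ᵥ e) (r g *ᵥ e) ≠ 0 := by
  rw [bil_isom (hr g)]
  exact hee

include hirr hee in
theorem span_orbit : Submodule.span F (Set.range fun g => r g *ᵥ e) = ⊤ := by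
  have hN : 1 ≤ N := by
    rcases Nat.eq_zero_or_pos N with h | h
    · subst h
      exact absurd (by unfold bil; simp) hee
    · exact h
  have hstab : ∀ g ∈ (⊤ : Subgroup G), ∀ w ∈ Submodule.span F (Set.range fun g => r g *ᵥ e),
      r g *ᵥ w ∈ Submodule.span F (Set.range fun g => r g *ᵥ e) := by
    intro g _ w hw
    induction hw using Submodule.span_induction with
    | mem x hx =>
      obtain ⟨g', rfl⟩ := hx
      refine Submodule.subset_span ⟨g * g', ?_⟩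
      simp only [map_mul, mulVec_mulVec]
    | zero => rw [mulVec_zero]; exact Submodule.zero_mem _
    | add x y _ _ hx hy => rw [mulVec_add]; exact Submodule.add_mem _ hx hy
    | smul c x _ hx => rw [mulVec_smul]; exact Submodule.smul_mem _ c hx
  rcases hirr ⊤ (by rw [Subgroup.index_top]; exact one_ne_zero) (by rw [Subgroup.index_top]; exact hN)
    (Submodule.span F (Set.range fun g => r g *ᵥ e)) hstab with h | h
  · exfalso
    have h1 : e ∈ Submodule.span F (Set.range fun g => r g *ᵥ e) :=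
      Submodule.subset_span ⟨1, by simp⟩
    rw [h, Submodule.mem_bot] at h1
    apply hee
    rw [h1]
    unfold bil
    simp
  · exact h

include hcj hirr hee h0 in
theorem exists_Ze : ∃ Z ∈ 𝔫, Z *ᵥ e ≠ 0 := by
  by_contra hcon
  push Not at hcon
  obtain ⟨Z, hZ, hZ0⟩ := h0
  apply hZ0
  have h1 : ∀ g, Z *ᵥ (r g *ᵥ e) = 0 := by
    intro g
    have h2 := hcon _ (hcj' hcj g hZ)
    have h3 := congrArg (fun v => r g *ᵥ v) h2
    simpa only [mulVec_mulVec, ← mul_assoc, r_mul_inv, one_mul, mulVec_zero] using h3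
  have h2 : Submodule.span F (Set.range fun g => r g *ᵥ e) ≤ LinearMap.ker Z.mulVecLin := by
    rw [Submodule.span_le]
    rintro _ ⟨g, rfl⟩
    exact h1 g
  rw [span_orbit (r := r) hee hirr] at h2
  have h3 : Z.mulVecLin = 0 := by
    rw [← LinearMap.ker_eq_top]
    exact top_le_iff.1 h2
  have h4 : Matrix.toLin' Z = 0 := h3
  exact (LinearEquiv.map_eq_zero_iff Matrix.toLin').1 h4

include hB hdet in
theorem eq_zero_of_perp {x : Fin N → F} (h : ∀ y, bil B x y = 0) : x = 0 := by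
  have h1 : x ᵥ* B = 0 := by
    ext j
    have := h (Pi.single j 1)
    unfold bil at this
    rw [dotProduct_mulVec, dotProduct_single, mul_one] at this
    exact this
  have h2 := congrArg (fun v => v ᵥ* B⁻¹) h1
  simpa only [vecMul_vecMul, mul_nonsing_inv _ (isUnit_iff_ne_zero.2 hdet), vecMul_one,
    zero_vecMul] using h2

include hB hsk hbr hcj hr hee he in
theorem mem_of_rad {a : Fin N → F} (ha : a ∈ WW 𝔫 e) (hperp : ∀ w ∈ WW 𝔫 e, bil B a w = 0)
    (g : G) : bil B a (r g *ᵥ e) = 0 := by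
  by_contra hne
  set x := r g *ᵥ e with hx
  have hxW : x ∈ WW 𝔫 x := self_mem_WW x
  set e' := e - (bil B e x / bil B a x) • a with he'def
  have he'W : e' ∈ WW 𝔫 e := (WW 𝔫 e).sub_mem (self_mem_WW e) ((WW 𝔫 e).smul_mem _ ha)
  have h1 : bil B e' x = 0 := by
    rw [he'def, bil_sub_left', bil_smul_left', div_mul_cancel₀ _ hne, sub_self]
  have hae : bil B a e = 0 := hperp e (self_mem_WW e)
  have hae' : bil B a e' = 0 := hperp e' he'W
  have h2 : bil B e' e' = bil B e e := by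
    have h3 : bil B e' e = bil B e e := by
      rw [he'def, bil_sub_left', bil_smul_left', hae, mul_zero, sub_zero]
    conv_lhs => rw [he'def, bil_sub_left', bil_smul_left', hae', mul_zero, sub_zero]
    rw [bil_comm hB, h3]
  have hst := fun (Z : Matrix (Fin N) (Fin N) F) (hZ : Z ∈ 𝔫) (v : Fin N → F) (hv : v ∈ WW 𝔫 x) =>
    stable_WW hB hsk hbr (hee' hr hee g) (he' hcj hr he g) hZ hv
  have hw : wedge B a e' ∈ 𝔫 := wedge_mem2 hB hsk hbr hee he ha he'W
  have h3 : e' ∈ WW 𝔫 x := by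
    have h4 := hst _ hw x hxW
    rw [wedge_mulVec, h1, zero_smul, sub_zero] at h4
    exact mem_of_smul_mem hne h4
  have h4 : a ∈ WW 𝔫 x := by
    have h5 := hst _ hw e' h3
    rw [wedge_mulVec, hae', zero_smul, zero_sub, h2, ← neg_smul] at h5
    exact mem_of_smul_mem (neg_ne_zero.2 hee) h5
  have h5 : e ∈ WW 𝔫 x := by
    have : e = e' + (bil B e x / bil B a x) • a := by rw [he'def, sub_add_cancel]
    rw [this]
    exact (WW 𝔫 x).add_mem h3 ((WW 𝔫 x).smul_mem _ h4)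
  have h6 : WW 𝔫 e ≤ WW 𝔫 x := by
    rintro _ ⟨c, Z, hZ, rfl⟩
    exact (WW 𝔫 x).add_mem ((WW 𝔫 x).smul_mem _ h5) (hst Z hZ e h5)
  have h7 : WW 𝔫 e = WW 𝔫 x :=
    Submodule.eq_of_le_of_finrank_eq h6 (finrank_WW hcj g e).symm
  exact hne (hperp x (h7 ▸ hxW))

include hB hdet hsk hbr hcj hr hee he hirr in
theorem rad_zero {a : Fin N → F} (ha : a ∈ WW 𝔫 e) (hperp : ∀ w ∈ WW 𝔫 e, bil B a w = 0) :
    a = 0 := by
  apply eq_zero_of_perp hB hdet
  intro y
  have h1 : y ∈ Submodule.span F (Set.range fun g => r g *ᵥ e) := by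
    rw [span_orbit (r := r) hee hirr]
    trivial
  induction h1 using Submodule.span_induction with
  | mem x hx =>
    obtain ⟨g, rfl⟩ := hx
    exact mem_of_rad hcj hB hr hsk hbr hee he ha hperp g
  | zero => unfold bil; simp
  | add x y _ _ hx hy => unfold bil at *; rw [mulVec_add, dotProduct_add, hx, hy, add_zero]
  | smul c x _ hx => unfold bil at *; rw [mulVec_smul, dotProduct_smul, hx, smul_zero]

include hB hdet hsk hbr hcj hr hee he hirr h0 in
theorem WW_eq_of_not_perp (g : G) {w : Fin N → F} (hw : w ∈ WW 𝔫 e)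
    (hne : bil B w (r g *ᵥ e) ≠ 0) : WW 𝔫 (r g *ᵥ e) = WW 𝔫 e := by
  set x := r g *ᵥ e with hx
  obtain ⟨Z₀, hZ₀, hb₀⟩ := exists_Ze hcj hee hirr h0
  have hperp : bil B e (Z₀ *ᵥ e) = 0 := perp_self hB hsk hZ₀ e
  obtain ⟨b, hbW, hb0, hbx⟩ : ∃ b ∈ WW 𝔫 e, b ≠ 0 ∧ bil B b x = 0 := by
    by_cases h1 : bil B (Z₀ *ᵥ e) x = 0
    · exact ⟨Z₀ *ᵥ e, mulVec_mem_WW e hZ₀, hb₀, h1⟩
    · refine ⟨bil B (Z₀ *ᵥ e) x • e - bil B e x • (Z₀ *ᵥ e), (WW 𝔫 e).sub_mem
        ((WW 𝔫 e).smul_mem _ (self_mem_WW e)) ((WW 𝔫 e).smul_mem _ (mulVec_mem_WW e hZ₀)), ?_, ?_⟩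
      · intro h2
        have h3 : bil B (bil B (Z₀ *ᵥ e) x • e - bil B e x • (Z₀ *ᵥ e)) e = 0 := by
          rw [h2]; unfold bil; simp
        rw [bil_sub_left', bil_smul_left', bil_smul_left', bil_comm hB (Z₀ *ᵥ e) e, hperp, mul_zero,
          sub_zero] at h3
        exact (mul_ne_zero h1 hee) h3
      · rw [bil_sub_left', bil_smul_left', bil_smul_left']
        ring
  have hst := fun (Z : Matrix (Fin N) (Fin N) F) (hZ : Z ∈ 𝔫) (v : Fin N → F) (hv : v ∈ WW 𝔫 x) =>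
    stable_WW hB hsk hbr (hee' hr hee g) (he' hcj hr he g) hZ hv
  have hbx' : b ∈ WW 𝔫 x := by
    have h4 := hst _ (wedge_mem2 hB hsk hbr hee he hbW hw) x (self_mem_WW x)
    rw [wedge_mulVec, hbx, zero_smul, zero_sub, ← neg_smul] at h4
    exact mem_of_smul_mem (neg_ne_zero.2 hne) h4
  obtain ⟨w', hw', hbw⟩ : ∃ w' ∈ WW 𝔫 e, bil B b w' ≠ 0 := by
    by_contra hcon
    push Not at hcon
    exact hb0 (rad_zero hcj hB hdet hr hsk hbr hee he hirr hbW hcon)
  refine Submodule.eq_of_le_of_finrank_eq ?_ (finrank_WW hcj g e)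
  intro c hc
  have h5 := stable_WW hB hsk hbr hee he
    (wedge_mem2 hB hsk hbr (hee' hr hee g) (he' hcj hr he g) hbx' hc) hw'
  rw [wedge_mulVec] at h5
  have h6 := (WW 𝔫 e).add_mem h5 ((WW 𝔫 e).smul_mem (bil B c w') hbW)
  rw [sub_add_cancel] at h6
  exact mem_of_smul_mem hbw h6

/-- the stabiliser of `WW 𝔫 e` -/
def stabW (r : G →* Matrix (Fin N) (Fin N) F) (W : Submodule F (Fin N → F)) : Subgroup G where
  carrier := {g | W.map (r g).mulVecLin = W}
  mul_mem' := by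
    intro g h hg hh
    simp only [Set.mem_ofPred_eq] at *
    rw [map_mul, mulVecLin_mul, Submodule.map_comp, hh, hg]
  one_mem' := by
    simp only [Set.mem_ofPred_eq]
    rw [map_one, mulVecLin_one, Submodule.map_id]
  inv_mem' := by
    intro g hg
    simp only [Set.mem_ofPred_eq] at *
    conv_lhs => rw [← hg]
    rw [← Submodule.map_comp, ← mulVecLin_mul, r_inv_mul, mulVecLin_one, Submodule.map_id]

theorem index_le_of_orth {U : Subgroup G} {x : G ⧸ U → Fin N → F}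
    (h1 : ∀ q, bil B (x q) (x q) ≠ 0) (h2 : ∀ q q', q ≠ q' → bil B (x q) (x q') = 0) :
    U.index ≠ 0 ∧ U.index ≤ N := by
  have hli : LinearIndependent F x := by
    rw [linearIndependent_iff']
    intro s c hc q hq
    have h3 : bil B (∑ i ∈ s, c i • x i) (x q) = 0 := by
      rw [hc]; unfold bil; simp
    have h4 : bil B (∑ i ∈ s, c i • x i) (x q) = ∑ i ∈ s, c i * bil B (x i) (x q) := by
      unfold bil
      rw [sum_dotProduct]
      exact Finset.sum_congr rfl fun i _ => by rw [smul_dotProduct, smul_eq_mul]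
    rw [h4, Finset.sum_eq_single q (fun i _ hi => by rw [h2 i q hi, mul_zero])
      (fun h => absurd hq h)] at h3
    exact (mul_eq_zero.1 h3).resolve_right (h1 q)
  haveI : Finite (G ⧸ U) := hli.finite
  haveI : Fintype (G ⧸ U) := Fintype.ofFinite _
  haveI : U.FiniteIndex := ⟨by
    rw [Subgroup.index, Nat.card_eq_fintype_card]
    exact Fintype.card_ne_zero⟩
  refine ⟨Subgroup.FiniteIndex.index_ne_zero, ?_⟩
  have h5 := hli.fintype_card_le_finrank
  rw [Module.finrank_fin_fun] at h5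
  rw [Subgroup.index, Nat.card_eq_fintype_card]
  exact h5

include hB hdet hsk hbr hcj hr hee he hirr h0 in
theorem full_so {Z : Matrix (Fin N) (Fin N) F} (hZ : Skew B Z) : Z ∈ 𝔫 := by
  set W := WW 𝔫 e with hW
  have hidx : (stabW r W).index ≠ 0 ∧ (stabW r W).index ≤ N := by
    refine index_le_of_orth (B := B) (x := fun q => r q.out *ᵥ e) (fun q => hee' hr hee _) ?_
    intro q q' hqq
    by_contra hne
    apply hqq
    have h1 : bil B e (r (q.out⁻¹ * q'.out) *ᵥ e) ≠ 0 := by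
      rw [map_mul, ← mulVec_mulVec, ← bil_isom (hr q.out), mulVec_mulVec, r_mul_inv, one_mulVec]
      exact hne
    have h2 := WW_eq_of_not_perp hcj hB hdet hr hsk hbr hee he hirr h0 _ (self_mem_WW e) h1
    rw [WW_map hcj] at h2
    have h3 : q.out⁻¹ * q'.out ∈ stabW r W := h2
    have h4 := QuotientGroup.eq.2 h3
    rwa [QuotientGroup.out_eq', QuotientGroup.out_eq'] at h4
  have hst : ∀ g ∈ stabW r W, ∀ w ∈ W, r g *ᵥ w ∈ W := by
    intro g hg w hw
    have h1 : W.map (r g).mulVecLin = W := hg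
    have h2 : r g *ᵥ w ∈ W.map (r g).mulVecLin := ⟨w, hw, rfl⟩
    rwa [h1] at h2
  rcases hirr (stabW r W) hidx.1 hidx.2 W hst with h | h
  · exfalso
    have h1 : e ∈ W := self_mem_WW e
    rw [h, Submodule.mem_bot] at h1
    apply hee
    rw [h1]
    unfold bil
    simp
  · refine skew_mem_of_wedge hB hdet 𝔫 (fun a b => ?_) hZ
    refine wedge_mem2 hB hsk hbr hee he ?_ ?_
    · rw [← hW, h]; trivial
    · rw [← hW, h]; trivial

end

end Pool.Agent.R932
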