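import Pool.Agent.R932.LieD

/-!
# Logarithms of elements of order `ℓ` modulo `ℓ`
-/

set_option autoImplicit false
set_option linter.unusedSectionVars false
set_option linter.style.haveILetI false

open Matrix Polynomial
open Pool.Agent.Y142.ZO Pool.Agent.Y379.ZI

namespace Pool.Agent.R932

/-- the binomial polynomial `X (X-1) ... (X-j+1) / j!` -/
noncomputable def bp (F : Type) [Field F] (j : ℕ) : F[X] :=
  C (((j.factorial : ℕ) : F)⁻¹) * descPochhammer F j

section
variable {F : Type} [Field F]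

theorem bp_eval {j : ℕ} (hj : ((j.factorial : ℕ) : F) ≠ 0) (t : ℕ) :
    (bp F j).eval (t : F) = (t.choose j : F) := by
  unfold bp
  rw [eval_mul, eval_C, descPochhammer_eval_eq_descFactorial, Nat.descFactorial_eq_factorial_mul_choose,
    Nat.cast_mul, ← mul_assoc, inv_mul_cancel₀ hj, one_mul]

theorem bp_natDegree (j : ℕ) : (bp F j).natDegree ≤ j := by
  unfold bp
  refine (natDegree_C_mul_le _ _).trans ?_
  rw [descPochhammer_natDegree]

theorem bp_coeff_zero {j : ℕ} (hj : ((j.factorial : ℕ) : F) ≠ 0) :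
    (bp F j).coeff 0 = if j = 0 then 1 else 0 := by
  rw [coeff_zero_eq_eval_zero]
  have h := bp_eval hj 0
  rw [Nat.cast_zero] at h
  rw [h]
  rcases j with _ | j
  · simp
  · simp

theorem bp_zero : bp F 0 = 1 := by
  unfold bp
  simp

theorem bp_one : bp F 1 = X := by
  unfold bp
  simp

theorem coeff_comp_neg (p : F[X]) (n : ℕ) : (p.comp (-X)).coeff n = (-1) ^ n * p.coeff n := by
  have h1 : (-X : F[X]) = C (-1) * X := by rw [C_neg, C_1, neg_one_mul]
  rw [h1, comp_C_mul_X_coeff, mul_comm]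

end

section
variable {ℓ : ℕ} [hp : Fact ℓ.Prime] {N : ℕ}

theorem fact_ne {j : ℕ} (hj : j < ℓ) : ((j.factorial : ℕ) : ZMod ℓ) ≠ 0 := by
  intro h
  rw [ZMod.natCast_eq_zero_iff, hp.out.dvd_factorial] at h
  omega

theorem poly_zero {P : (ZMod ℓ)[X]} (hdeg : P.natDegree < ℓ) (h : ∀ t : ℕ, P.eval (t : ZMod ℓ) = 0) :
    P = 0 := by
  refine eq_zero_of_natDegree_lt_card_of_eval_eq_zero P (f := (id : ZMod ℓ → ZMod ℓ))
    Function.injective_id (fun i => ?_) (by rwa [ZMod.card])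
  have := h i.val
  rwa [ZMod.natCast_zmod_val] at this

/-- `(1 + X)^t` as a polynomial in `t` -/
theorem pow_binom {X : Matrix (Fin N) (Fin N) (ZMod ℓ)} (hX : X ^ N = 0) (hN : N ≤ ℓ) (t : ℕ) :
    (1 + X) ^ t = ∑ j ∈ Finset.range N, ((bp (ZMod ℓ) j).eval (t : ZMod ℓ)) • X ^ j := by
  have h1 : ∀ j, N ≤ j → X ^ j = 0 := fun j hj => by
    obtain ⟨k, rfl⟩ := Nat.exists_eq_add_of_le hj
    rw [pow_add, hX, zero_mul]
  have h2 : (1 + X) ^ t = ∑ j ∈ Finset.range (t + 1), (t.choose j : ZMod ℓ) • X ^ j := by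
    rw [add_comm, Commute.add_pow (Commute.one_right X)]
    refine Finset.sum_congr rfl fun j _ => ?_
    rw [one_pow, mul_one, ← Nat.cast_comm, ← nsmul_eq_mul, Nat.cast_smul_eq_nsmul]
  have h3 : ∀ n, t + 1 ≤ n → (1 + X) ^ t = ∑ j ∈ Finset.range n, (t.choose j : ZMod ℓ) • X ^ j := by
    intro n hn
    rw [h2]
    refine Finset.sum_subset (Finset.range_mono hn) fun j _ hj => ?_
    rw [Finset.mem_range, not_lt] at hj
    rw [Nat.choose_eq_zero_of_lt (by omega), Nat.cast_zero, zero_smul]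
  rw [h3 (t + 1 + N) (by omega)]
  symm
  have h4 : ∑ j ∈ Finset.range N, ((bp (ZMod ℓ) j).eval (t : ZMod ℓ)) • X ^ j =
      ∑ j ∈ Finset.range N, (t.choose j : ZMod ℓ) • X ^ j := by
    refine Finset.sum_congr rfl fun j hj => ?_
    rw [bp_eval (fact_ne (lt_of_lt_of_le (Finset.mem_range.1 hj) hN))]
  rw [h4]
  refine Finset.sum_subset (Finset.range_mono (by omega)) fun j _ hj => ?_
  rw [Finset.mem_range, not_lt] at hj
  rw [h1 j hj, smul_zero]

/-- the logarithm -/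
noncomputable def logM (u : Matrix (Fin N) (Fin N) (ZMod ℓ)) : Matrix (Fin N) (Fin N) (ZMod ℓ) :=
  ∑ j ∈ Finset.range N, ((bp (ZMod ℓ) j).coeff 1) • (u - 1) ^ j

theorem unip_pow {u : Matrix (Fin N) (Fin N) (ZMod ℓ)} (hu : u ^ ℓ = 1) : (u - 1) ^ N = 0 := by
  rcases Nat.eq_zero_or_pos N with h0 | h0
  · subst h0
    exact Subsingleton.elim _ _
  haveI : Nonempty (Fin N) := ⟨⟨0, h0⟩⟩
  have h1 : (u - 1) ^ ℓ = 0 := by
    rw [sub_pow_char_of_commute ℓ (Commute.one_right u), hu, one_pow, sub_self]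
  have h2 := isNilpotent_charpoly_sub_pow_of_isNilpotent (⟨ℓ, h1⟩ : IsNilpotent (u - 1))
  have h3 := sub_eq_zero.1 h2.eq_zero
  have h4 := aeval_self_charpoly (u - 1)
  rw [h3, Fintype.card_fin, map_pow, aeval_X] at h4
  exact h4

theorem pow_eval {u : Matrix (Fin N) (Fin N) (ZMod ℓ)} (hu : u ^ ℓ = 1) (hN : N ≤ ℓ) (t : ℕ) :
    u ^ t = ∑ j ∈ Finset.range N, ((bp (ZMod ℓ) j).eval (t : ZMod ℓ)) • (u - 1) ^ j := by
  conv_lhs => rw [show u = 1 + (u - 1) by abel]
  exact pow_binom (unip_pow hu) hN t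

theorem inv_eval {u : Matrix (Fin N) (Fin N) (ZMod ℓ)} (hu : u ^ ℓ = 1) (hN : N ≤ ℓ) (t : ℕ) :
    (u ^ (ℓ - 1)) ^ t =
      ∑ j ∈ Finset.range N, (((bp (ZMod ℓ) j).comp (-X)).eval (t : ZMod ℓ)) • (u - 1) ^ j := by
  rw [← pow_mul, pow_eval hu hN]
  refine Finset.sum_congr rfl fun j _ => ?_
  congr 1
  rw [eval_comp, eval_neg, eval_X]
  congr 1
  rw [Nat.cast_mul, Nat.cast_sub hp.out.one_le, ZMod.natCast_self, Nat.cast_one]
  ring

theorem u_inv {u : Matrix (Fin N) (Fin N) (ZMod ℓ)} (hu : u ^ ℓ = 1) : u * u ^ (ℓ - 1) = 1 := by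
  rw [← pow_succ', Nat.sub_add_cancel hp.out.one_le, hu]

theorem inv_u {u : Matrix (Fin N) (Fin N) (ZMod ℓ)} (hu : u ^ ℓ = 1) : u ^ (ℓ - 1) * u = 1 := by
  rw [← pow_succ, Nat.sub_add_cancel hp.out.one_le, hu]

/-- `u^t Z u^{-t}` differentiated at `0` -/
theorem log_bracket {u : Matrix (Fin N) (Fin N) (ZMod ℓ)} (hu : u ^ ℓ = 1) (hN : 2 * N ≤ ℓ)
    (𝔫 : Submodule (ZMod ℓ) (Matrix (Fin N) (Fin N) (ZMod ℓ)))
    (h : ∀ Z ∈ 𝔫, u * Z * u ^ (ℓ - 1) ∈ 𝔫) {Z : Matrix (Fin N) (Fin N) (ZMod ℓ)} (hZ : Z ∈ 𝔫) :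
    logM u * Z - Z * logM u ∈ 𝔫 := by
  by_contra hcon
  obtain ⟨φ, hφ, hker⟩ := Submodule.exists_le_ker_of_notMem hcon
  have h1 : ∀ t : ℕ, u ^ t * Z * (u ^ (ℓ - 1)) ^ t ∈ 𝔫 := by
    intro t
    induction t with
    | zero => simpa using hZ
    | succ t ih =>
      rw [pow_succ' u, pow_succ (u ^ (ℓ - 1))]
      have := h _ ih
      simpa only [mul_assoc] using this
  set P : (ZMod ℓ)[X] := ∑ i ∈ Finset.range N, ∑ j ∈ Finset.range N,
    C (φ ((u - 1) ^ i * Z * (u - 1) ^ j)) * (bp (ZMod ℓ) i * (bp (ZMod ℓ) j).comp (-X)) with hP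
  have h2 : ∀ t : ℕ, P.eval (t : ZMod ℓ) = φ (u ^ t * Z * (u ^ (ℓ - 1)) ^ t) := by
    intro t
    rw [inv_eval hu (by omega), pow_eval hu (by omega), hP, eval_finsetSum, Finset.sum_mul,
      Finset.sum_mul, map_sum]
    refine Finset.sum_congr rfl fun i _ => ?_
    rw [eval_finsetSum, Finset.mul_sum, map_sum]
    refine Finset.sum_congr rfl fun j _ => ?_
    rw [smul_mul_assoc, smul_mul_assoc, mul_smul_comm, map_smul, map_smul, smul_eq_mul, smul_eq_mul,
      eval_mul, eval_C, eval_mul]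
    ring
  have h3 : P = 0 := by
    rcases Nat.eq_zero_or_pos N with h0 | h0
    · subst h0
      simp [hP]
    refine poly_zero ?_ fun t => ?_
    · refine lt_of_le_of_lt (natDegree_sum_le_of_forall_le _ _ (n := 2 * N - 2) fun i hi => ?_)
        (by omega)
      refine natDegree_sum_le_of_forall_le _ _ fun j hj => ?_
      rw [Finset.mem_range] at hi hj
      refine (natDegree_C_mul_le _ _).trans (natDegree_mul_le.trans ?_)
      have e1 := bp_natDegree (F := ZMod ℓ) i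
      have e2 : ((bp (ZMod ℓ) j).comp (-X)).natDegree ≤ j := by
        rw [natDegree_comp, natDegree_neg, natDegree_X, mul_one]
        exact bp_natDegree j
      omega
    · rw [h2]
      exact hker (h1 t)
  have h4 : P.coeff 1 = φ (logM u * Z - Z * logM u) := by
    rw [hP, finsetSum_coeff]
    have e1 : ∀ i ∈ Finset.range N, (∑ j ∈ Finset.range N,
        C (φ ((u - 1) ^ i * Z * (u - 1) ^ j)) * (bp (ZMod ℓ) i * (bp (ZMod ℓ) j).comp (-X))).coeff 1 =
        (bp (ZMod ℓ) i).coeff 1 * φ ((u - 1) ^ i * Z) -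
        (if i = 0 then 1 else 0) *
          ∑ j ∈ Finset.range N, (bp (ZMod ℓ) j).coeff 1 * φ (Z * (u - 1) ^ j) := by
      intro i hi
      rw [Finset.mem_range] at hi
      rw [finsetSum_coeff]
      have e2 : ∀ j ∈ Finset.range N, (C (φ ((u - 1) ^ i * Z * (u - 1) ^ j)) *
          (bp (ZMod ℓ) i * (bp (ZMod ℓ) j).comp (-X))).coeff 1 =
          (if j = 0 then (bp (ZMod ℓ) i).coeff 1 * φ ((u - 1) ^ i * Z) else 0) -
          (if i = 0 then 1 else 0) * ((bp (ZMod ℓ) j).coeff 1 * φ (Z * (u - 1) ^ j)) := by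
        intro j hj
        rw [Finset.mem_range] at hj
        rw [coeff_C_mul, mul_coeff_one, coeff_comp_neg, coeff_comp_neg,
          bp_coeff_zero (fact_ne (by omega)), bp_coeff_zero (fact_ne (by omega))]
        by_cases hi0 : i = 0
        · subst hi0
          by_cases hj0 : j = 0
          · subst hj0
            simp
          · simp [hj0, mul_comm]
        · by_cases hj0 : j = 0
          · subst hj0
            simp [hi0]
            ring
          · simp [hi0, hj0]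
      rw [Finset.sum_congr rfl e2, Finset.sum_sub_distrib, ← Finset.mul_sum, Finset.sum_ite_eq',
        if_pos (Finset.mem_range.2 (by omega))]
    rw [Finset.sum_congr rfl e1, Finset.sum_sub_distrib, map_sub]
    unfold logM
    rw [Finset.sum_mul, Finset.mul_sum, map_sum, map_sum]
    rcases Nat.eq_zero_or_pos N with h0 | h0
    · subst h0
      simp
    congr 1
    · refine Finset.sum_congr rfl fun i _ => ?_
      rw [smul_mul_assoc, map_smul, smul_eq_mul]
    · rw [← Finset.sum_mul, Finset.sum_ite_eq', if_pos (Finset.mem_range.2 h0), one_mul]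
      refine Finset.sum_congr rfl fun i _ => ?_
      rw [mul_smul_comm, map_smul, smul_eq_mul]
  rw [h3, coeff_zero] at h4
  exact hφ h4.symm

end

end Pool.Agent.R932
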