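import Pool.Agent.R932.Even
import Pool.Agent.R932.MtOdd

/-!
# The Mumford-Tate conjecture at a set of primes of density one, even rank
-/

set_option autoImplicit false
set_option linter.style.haveILetI false
set_option linter.unusedSectionVars false

open Matrix Polynomial Filter Topology NumberField IsDedekindDomain
open Pool.Agent.Y142.ZO Pool.Agent.Y142.ZI
open Pool.Agent.Y142.ZS (NiceP GenP Sim)
open Pool.Agent.Y142.SS Pool.Agent.Y142.SI Pool.Agent.Y142.SU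
open Pool.Agent.Y95.MT
open Pool.Agent.W544.PG (HS BD)

namespace Pool.Agent.R932

section

variable {K : Type} [Field K] [NumberField K] {n : ℕ} {S : Set (HeightOneSpectrum (𝓞 K))}
  {P : HeightOneSpectrum (𝓞 K) → ℚ[X]} {Γ : Type} [Group Γ] [TopologicalSpace Γ]
  [IsTopologicalGroup Γ] [CompactSpace Γ] {s : GK K →* Γ} {T : HS n}

theorem RepT.genSys {ℓ : ℕ} [Fact ℓ.Prime] {β : Γ →* Matrix (Fin n) (Fin n) ℤ_[ℓ]}
    (h : RepT s T S P ℓ β) : GenSys K s n ℓ (qrep β) S P :=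
  ⟨continuous_qm.comp h.cont, fun v hv hvℓ σ hσ => h.frob v hv hvℓ σ hσ⟩

theorem RepT.formSys {ℓ : ℕ} [Fact ℓ.Prime] {β : Γ →* Matrix (Fin n) (Fin n) ℤ_[ℓ]}
    (h : RepT s T S P ℓ β) :
    FormSys K s n ℓ (qrep β) (T.Q.map (algebraMap ℚ ℚ_[ℓ])) S (fun _ => 1) := by
  refine ⟨Or.inl (qsymm T), qdet T, fun γ => ⟨1, ?_⟩, fun v _ _ σ _ => ?_⟩
  · have h1 := h.form γ
    show (qm (β γ))ᵀ * _ * qm (β γ) = (1 : ℚ_[ℓ]) • _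
    rw [one_smul]
    exact h1
  · have h1 := h.form (s σ⁻¹)
    show (qm (β (s σ⁻¹)))ᵀ * _ * qm (β (s σ⁻¹)) = ((1 : ℚ) : ℚ_[ℓ]) • _
    rw [Rat.cast_one, one_smul]
    exact h1

theorem mt_even {κ : Type} [Fintype κ] [DecidableEq κ] (hn : 0 < n) {p q : Fin 1 → ℕ}
    (hB : T.Big (one1 n) p q) (hS : S.Finite) (hs : Continuous s)
    (α : ∀ (ℓ : ℕ) [Fact ℓ.Prime], Γ →* Matrix κ κ ℚ_[ℓ])
    (hα : ∀ (ℓ : ℕ) [Fact ℓ.Prime], Continuous (α ℓ) ∧ (Set.range (α ℓ)).Finite)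
    (β : ∀ (ℓ : ℕ) [Fact ℓ.Prime], Γ →* Matrix (Fin n) (Fin n) ℤ_[ℓ])
    (hβ : ∀ (ℓ : ℕ) [Fact ℓ.Prime], RepT s T S P ℓ (β ℓ))
    {w₀ : HeightOneSpectrum (𝓞 K)} (hw₀ : GenP S P (fun _ => 1) w₀)
    {m : ℕ} (u : Fin (m + 1) → HeightOneSpectrum (𝓞 K)) (hu : ∀ i, NiceP S P (u i))
    (hI : ∀ (g : GK ℚ) (d : ℕ), 0 < d → d < n →
      ∃ v, NiceP S P v ∧ ∃ w ∈ NoSet d (P v), w⁻¹ * g ∈ Subgroup.closure (⋃ i, Fix (P (u i))))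
    (hII : ∀ g : GK ℚ, ∃ v, NiceP S P v ∧ ∃ w : GK ℚ, (∃ x : QQ, aeval x (P v) = 0 ∧ w x = x) ∧
      w⁻¹ * g ∈ Subgroup.closure (⋃ i, Fix (P (u i)))) :
    Y142.ZI.DensityZero {ℓ | ∃ _ : Fact ℓ.Prime,
      ¬ MTC (hM (fun _ => (1 : Matrix κ κ ℂ)) T) (tot (α ℓ) (β ℓ))} := by
  refine Y142.ZI.DensityZero.mono (density_even hn hS s hs (fun ℓ _ => qrep (β ℓ))
    (fun ℓ _ => (hβ ℓ).genSys) (fun ℓ _ => T.Q.map (algebraMap ℚ ℚ_[ℓ]))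
    (fun ℓ _ => (hβ ℓ).formSys) hw₀ u hu hI hII) ?_
  rintro ℓ ⟨hp, hno⟩
  refine ⟨hp, fun hfull => hno ?_⟩
  exact mtc_of_full hB (hα ℓ).1 (hα ℓ).2 (hβ ℓ).cont (hβ ℓ).form fun X hX => hfull X hX

end

end Pool.Agent.R932
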