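import Mathlib
import Pool.Agent.Y95.MT.GalSide

/-!
# Change of the index set
-/

set_option autoImplicit false
set_option linter.unusedSectionVars false

namespace Pool.Agent.R932

open MvPolynomial Matrix Pool.Agent.W528.ZC Pool.Agent.Y95.MT

noncomputable section

variable {ι ι' : Type} [Fintype ι] [DecidableEq ι] [Fintype ι'] [DecidableEq ι']

/-- the renamed polynomial -/
def rn {R : Type} [CommSemiring R] (ε : ι ≃ ι') (f : MvPolynomial (ι' × ι') R) :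
    MvPolynomial (ι × ι) R := rename (Prod.map ε.symm ε.symm) f

theorem vQ_rn {R : Type} [CommRing R] [Algebra ℚ R] (ε : ι ≃ ι') (g : Matrix ι ι R)
    (f : MvPolynomial (ι' × ι') ℚ) : vQ g (rn ε f) = vQ (Matrix.reindex ε ε g) f := by
  unfold vQ rn
  rw [aeval_rename]
  rfl

theorem aeval_rn {R : Type} [CommRing R] (ε : ι ≃ ι') (g : Matrix ι ι R)
    (f : MvPolynomial (ι' × ι') R) : aeval (fun q : ι × ι => g q.1 q.2) (rn ε f) =
      aeval (fun q : ι' × ι' => (Matrix.reindex ε ε g) q.1 q.2) f := by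
  unfold rn
  rw [aeval_rename]
  rfl

theorem reindex_symm' {R : Type} (ε : ι ≃ ι') (g : Matrix ι ι R) :
    Matrix.reindex ε.symm ε.symm (Matrix.reindex ε ε g) = g := by
  ext a b
  simp [Matrix.reindex_apply]

theorem reindex_mul' {R : Type} [CommRing R] (ε : ι ≃ ι') (g h : Matrix ι ι R) :
    Matrix.reindex ε ε (g * h) = Matrix.reindex ε ε g * Matrix.reindex ε ε h := by
  rw [Matrix.reindex_apply, Matrix.reindex_apply, Matrix.reindex_apply,
    Matrix.submatrix_mul_equiv]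

theorem MTgroup_reindex (ε : ι ≃ ι') {h : ℂ → Matrix ι ι ℂ} {m : Matrix ι ι ℂ}
    (hm : m ∈ MTgroup h) :
    Matrix.reindex ε ε m ∈ MTgroup fun z => Matrix.reindex ε ε (h z) := by
  intro G hG hz
  obtain ⟨⟨P, hP⟩, h1, h2, h3⟩ := hG
  refine hm {g | Matrix.reindex ε ε g ∈ G} ⟨⟨(rn ε) '' P, fun g => ?_⟩, ?_, ?_, ?_⟩ hz
  · show Matrix.reindex ε ε g ∈ G ↔ _
    rw [hP, Matrix.det_reindex_self]
    refine and_congr_right fun _ => ?_
    constructor
    · rintro h _ ⟨f, hf, rfl⟩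
      rw [vQ_rn]
      exact h f hf
    · intro h f hf
      rw [← vQ_rn]
      exact h _ ⟨f, hf, rfl⟩
  · show Matrix.reindex ε ε 1 ∈ G
    rw [Matrix.reindex_apply, Matrix.submatrix_one_equiv]
    exact h1
  · intro a ha b hb
    show Matrix.reindex ε ε (a * b) ∈ G
    rw [reindex_mul']
    exact h2 _ ha _ hb
  · intro a ha
    show Matrix.reindex ε ε a⁻¹ ∈ G
    rw [Matrix.reindex_apply, ← Matrix.inv_submatrix_equiv]
    exact h3 _ ha

theorem InMT_reindex' (ε : ι ≃ ι') {R : Type} [Field R] [Algebra ℚ R] {h : ℂ → Matrix ι ι ℂ}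
    {g : Matrix ι ι R} (hg : InMT h g) :
    InMT (fun z => Matrix.reindex ε ε (h z)) (Matrix.reindex ε ε g) := by
  intro f hf
  rw [← vQ_rn]
  refine hg _ fun m hm => ?_
  rw [vQ_rn]
  exact hf _ (MTgroup_reindex ε hm)

theorem InMT_reindex (ε : ι ≃ ι') {R : Type} [Field R] [Algebra ℚ R] {h : ℂ → Matrix ι ι ℂ}
    {g : Matrix ι ι R} :
    InMT (fun z => Matrix.reindex ε ε (h z)) (Matrix.reindex ε ε g) ↔ InMT h g := by
  refine ⟨fun hg => ?_, InMT_reindex' ε⟩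
  have h1 := InMT_reindex' ε.symm hg
  simpa only [reindex_symm'] using h1

/-- the reindexed representation -/
def rrep {ℓ : ℕ} [Fact ℓ.Prime] {Γ : Type} [Group Γ] (ε : ι ≃ ι') (ρ : Γ →* Matrix ι ι ℚ_[ℓ]) :
    Γ →* Matrix ι' ι' ℚ_[ℓ] where
  toFun s := Matrix.reindex ε ε (ρ s)
  map_one' := by rw [map_one, Matrix.reindex_apply, Matrix.submatrix_one_equiv]
  map_mul' s t := by rw [map_mul, reindex_mul']

theorem InG0_reindex' {ℓ : ℕ} [Fact ℓ.Prime] {Γ : Type} [Group Γ] (ε : ι ≃ ι')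
    {ρ : Γ →* Matrix ι ι ℚ_[ℓ]} {g : Matrix ι ι (AlgebraicClosure ℚ_[ℓ])} (hg : InG0 ρ g) :
    InG0 (rrep ε ρ) (Matrix.reindex ε ε g) := by
  rintro f ⟨Δ, hΔ, hf⟩
  rw [← aeval_rn]
  refine hg _ ⟨Δ, hΔ, fun s hs => ?_⟩
  have h1 := aeval_rn ε ((ρ s).map (algebraMap ℚ_[ℓ] (AlgebraicClosure ℚ_[ℓ]))) f
  refine Eq.trans h1 ?_
  exact hf s hs

theorem InG0_reindex {ℓ : ℕ} [Fact ℓ.Prime] {Γ : Type} [Group Γ] (ε : ι ≃ ι')
    {ρ : Γ →* Matrix ι ι ℚ_[ℓ]} {g : Matrix ι ι (AlgebraicClosure ℚ_[ℓ])} :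
    InG0 (rrep ε ρ) (Matrix.reindex ε ε g) ↔ InG0 ρ g := by
  refine ⟨fun hg => ?_, InG0_reindex' ε⟩
  have h1 := InG0_reindex' ε.symm hg
  rw [reindex_symm'] at h1
  have h2 : rrep ε.symm (rrep ε ρ) = ρ := by
    ext s : 1
    show Matrix.reindex ε.symm ε.symm (Matrix.reindex ε ε (ρ s)) = ρ s
    rw [reindex_symm']
  rwa [h2] at h1

theorem MTC_reindex {ℓ : ℕ} [Fact ℓ.Prime] {Γ : Type} [Group Γ] (ε : ι ≃ ι')
    {h : ℂ → Matrix ι ι ℂ} {ρ : Γ →* Matrix ι ι ℚ_[ℓ]} :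
    MTC (fun z => Matrix.reindex ε ε (h z)) (rrep ε ρ) ↔ MTC h ρ := by
  constructor
  · intro hm g hg
    have h1 := hm (Matrix.reindex ε ε g) (by rwa [Matrix.det_reindex_self])
    rwa [InG0_reindex, InMT_reindex] at h1
  · intro hm g hg
    obtain ⟨g, rfl⟩ := (Matrix.reindex ε ε).surjective g
    rw [InG0_reindex, InMT_reindex]
    exact hm g (by rwa [Matrix.det_reindex_self] at hg)

end

end Pool.Agent.R932
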