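import Mathlib
import Pool.Agent.R932.MtInd
import Pool.Agent.R932.Reidx

/-!
# The Mumford-Tate conjecture for a direct sum from an independent eigenvalue: conclusion
-/

set_option autoImplicit false
set_option linter.unusedSectionVars false

namespace Pool.Agent.R932

open MvPolynomial Matrix Filter Topology Pool.Agent.W528.ZC Pool.Agent.Y95.MT
open Pool.Agent.W544.PG (HS BD mC det_mC bl bl_T bl_mC bl_det_ne)

noncomputable section

variable {ℓ : ℕ} [Fact ℓ.Prime] {n r : ℕ} {κ : Type} [Fintype κ] [DecidableEq κ] {Γ : Type}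
  [Group Γ] {c : Fin n → Fin r} {T : HS n} {p q : Fin r → ℕ}
  {β : Γ →* Matrix (Fin n) (Fin n) ℤ_[ℓ]} {v : Γ →* Matrix κ κ ℚ_[ℓ]}

theorem InG0_tot_SO (hg : GalT c T.Q β) (hbQ : BD c T.Q)
    {g : Matrix (κ ⊕ Fin n) (κ ⊕ Fin n) (AlgebraicClosure ℚ_[ℓ])} (h : InG0 (tot v β) g) :
    g = fromBlocks g.toBlocks₁₁ 0 0 g.toBlocks₂₂ ∧ InSO c T.Q g.toBlocks₂₂ := by
  obtain ⟨e⟩ := exists_emb ℓ
  obtain ⟨j, hj⟩ : ∃ j, j = algebraMap ℚ_[ℓ] (AlgebraicClosure ℚ_[ℓ]) := ⟨_, rfl⟩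
  obtain ⟨Δ₀, hΔ₀, hdet⟩ := hg.exists_det hbQ (e.comp j)
  rw [InG0_iff, ← hj] at h
  refine (PSO_iff (c := c) (Q := T.Q) g).1 fun f hf => ?_
  rw [← ev_toK]
  refine h _ ⟨Δ₀, hΔ₀, fun s hs => ?_⟩
  rw [ev_toK]
  have htot : (tot v β s).map j = fromBlocks ((v s).map j) 0 0 ((qm (β s)).map j) := fb_map _ _ _
  refine (PSO_iff (c := c) (Q := T.Q) _).2 ⟨?_, ?_⟩ f hf
  · rw [htot, Matrix.toBlocks_fromBlocks₁₁, Matrix.toBlocks_fromBlocks₂₂]
  · rw [htot, Matrix.toBlocks_fromBlocks₂₂]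
    exact hg.SO j (hdet s hs)

/-- the index set with an empty first part -/
abbrev eps (n : ℕ) : Fin 0 ⊕ Fin n ≃ Fin n := Equiv.emptySum (Fin 0) (Fin n)

theorem reindex_fb {R : Type} (a : Matrix (Fin 0) (Fin 0) R) (b : Matrix (Fin 0) (Fin n) R)
    (c' : Matrix (Fin n) (Fin 0) R) (g : Matrix (Fin n) (Fin n) R) :
    Matrix.reindex (eps n) (eps n) (fromBlocks a b c' g) = g := by
  ext x y
  rfl

theorem InG0_T {g : Matrix (Fin n) (Fin n) (AlgebraicClosure ℚ_[ℓ])} :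
    InG0 (qrep β) g ↔
      InG0 (tot (1 : Γ →* Matrix (Fin 0) (Fin 0) ℚ_[ℓ]) β) (fromBlocks 1 0 0 g) := by
  have h1 := InG0_reindex (eps n) (ρ := tot (1 : Γ →* Matrix (Fin 0) (Fin 0) ℚ_[ℓ]) β)
    (g := fromBlocks 1 0 0 g)
  rw [reindex_fb] at h1
  exact h1

theorem InMT_T {R : Type} [Field R] [Algebra ℚ R] {g : Matrix (Fin n) (Fin n) R} :
    InMT (hT T) g ↔
      InMT (hM (fun _ => (1 : Matrix (Fin 0) (Fin 0) ℂ)) T) (fromBlocks 1 0 0 g) := by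
  have h1 := InMT_reindex (eps n) (h := hM (fun _ => (1 : Matrix (Fin 0) (Fin 0) ℂ)) T)
    (g := fromBlocks 1 0 0 g)
  rw [reindex_fb] at h1
  exact h1

theorem InMT_T_iff (hB : T.Big c p q) {g : Matrix (Fin n) (Fin n) (AlgebraicClosure ℚ_[ℓ])}
    (hg : g.det ≠ 0) : InMT (hT T) g ↔ InSO c T.Q g := by
  obtain ⟨e⟩ := exists_emb ℓ
  rw [InMT_T, InMT_iff (c := c) hB (fun _ _ => by rw [Matrix.det_one]; exact one_ne_zero) star_N e
    (by rw [fb_det, Matrix.det_one, one_mul]; exact hg), Matrix.toBlocks_fromBlocks₁₁,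
    Matrix.toBlocks_fromBlocks₂₂]
  exact ⟨fun h => h.2.2, fun h => ⟨rfl, InMT_one e _, h⟩⟩

theorem mtcT_iff (hB : T.Big c p q) (hg : GalT c T.Q β) :
    MTC (hT T) (qrep β) ↔
      ∀ g : Matrix (Fin n) (Fin n) (AlgebraicClosure ℚ_[ℓ]), InSO c T.Q g → InG0 (qrep β) g := by
  constructor
  · intro h g hgs
    have hd := InSO_det (W74.PG.det_ne T) hgs
    exact (h g hd).2 ((InMT_T_iff hB hd).2 hgs)
  · intro h g hd
    rw [InMT_T_iff hB hd]
    refine ⟨fun h1 => ?_, h g⟩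
    have h2 := InG0_tot_SO hg hB.bQ (InG0_T.1 h1)
    rw [Matrix.toBlocks_fromBlocks₂₂] at h2
    exact h2.2

/-- the second block -/
theorem InG0_snd {g : Matrix (Fin n) (Fin n) (AlgebraicClosure ℚ_[ℓ])}
    (h : InG0 (tot v β) (fromBlocks 1 0 0 g)) : InG0 (qrep β) g := by
  rintro f ⟨Δ, hΔ, hf⟩
  have h1 := h (rename (Prod.map Sum.inr Sum.inr) f) ⟨Δ, hΔ, fun s hs => ?_⟩
  · rw [aeval_rename] at h1
    exact h1
  · rw [aeval_rename]
    exact hf s hs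

theorem hx_V (hB : T.Big c p q) (hp2 : ∀ i, 2 ≤ p i) (V : RHS κ)
    (hShim : ∀ y ∈ lieMT V.h,
      V.X * (V.X * (V.X * y - y * V.X) - (V.X * y - y * V.X) * V.X) -
        (V.X * (V.X * y - y * V.X) - (V.X * y - y * V.X) * V.X) * V.X =
        (4 : ℂ) • (V.X * y - y * V.X)) :
    fromBlocks 0 0 0 T.x ∈ LS (SH (hM V.h T)) := by
  refine star_V hB hp2 V.h_det (X_mem V T) fun y Z hy => ?_
  have h1 := hShim y (lie_of_LS V.h_det hB.bQ hB.bx hy)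
  have h2 : ∀ w : Matrix κ κ ℂ, (2 : ℂ)⁻¹ • V.X * w - w * (2 : ℂ)⁻¹ • V.X =
      (2 : ℂ)⁻¹ • (V.X * w - w * V.X) := by
    intro w
    rw [Matrix.smul_mul, Matrix.mul_smul, smul_sub]
  have h3 : ∀ w : Matrix κ κ ℂ, V.X * ((2 : ℂ)⁻¹ • w) - ((2 : ℂ)⁻¹ • w) * V.X =
      (2 : ℂ)⁻¹ • (V.X * w - w * V.X) := by
    intro w
    rw [Matrix.smul_mul, Matrix.mul_smul, smul_sub]
  rw [h2, h2, h3, h2, h3, h3, h1]
  rw [smul_smul, smul_smul, smul_smul]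
  congr 1
  norm_num

theorem Big_rk (hB : T.Big c p q) (hp2 : ∀ i, 2 ≤ p i) (i : Fin r) :
    5 ≤ (Finset.univ.filter fun a => c a = i).card := by
  rw [hB.rk i]
  have h1 := hp2 i
  rcases hB.num i with h2 | h2
  · omega
  · have h3 : 0 < (q i - 2 * p i) * (q i + p i) := lt_of_le_of_lt (Nat.zero_le _) h2.2
    have h4 : 0 < q i - 2 * p i := Nat.pos_of_mul_pos_right h3
    omega

/-- **The Mumford-Tate conjecture for a direct sum from an independent eigenvalue** -/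
theorem main_ind (hB : T.Big c p q) (hp2 : ∀ i, 2 ≤ p i) (V : RHS κ)
    (hShim : ∀ y ∈ lieMT V.h,
      V.X * (V.X * (V.X * y - y * V.X) - (V.X * y - y * V.X) * V.X) -
        (V.X * (V.X * y - y * V.X) - (V.X * y - y * V.X) * V.X) * V.X =
        (4 : ℂ) • (V.X * y - y * V.X))
    (hg : GalT c T.Q β)
    (hI : ∀ i, ∃ γ, Ind ((v γ).map (algebraMap ℚ_[ℓ] (AlgebraicClosure ℚ_[ℓ])))
      ((qm (β γ)).map (algebraMap ℚ_[ℓ] (AlgebraicClosure ℚ_[ℓ])))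
      (col c i : Submodule (AlgebraicClosure ℚ_[ℓ]) (Fin n → AlgebraicClosure ℚ_[ℓ]))) :
    MTC (hM V.h T) (tot v β) ↔ MTC V.h v ∧ MTC (hT T) (qrep β) := by
  have hx := hx_V hB hp2 V hShim
  obtain ⟨e⟩ := exists_emb ℓ
  have hso : MTC (hT T) (qrep β) → SoIn c T v β := fun h =>
    soIn_of_ind hB.bQ (Big_rk hB hp2) hg ((mtcT_iff hB hg).1 h) hI
  constructor
  · intro h
    have h1 : MTC (hT T) (qrep β) := by
      rw [mtcT_iff hB hg]
      intro g hgs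
      have hd := InSO_det (W74.PG.det_ne T) hgs
      refine InG0_snd (v := v) ?_
      refine (h _ (by rw [fb_det, Matrix.det_one, one_mul]; exact hd)).2 ?_
      rw [InMT_iff (c := c) hB V.h_det hx e (by rw [fb_det, Matrix.det_one, one_mul]; exact hd),
        Matrix.toBlocks_fromBlocks₁₁, Matrix.toBlocks_fromBlocks₂₂]
      exact ⟨rfl, InMT_one e _, hgs⟩
    exact ⟨(main' hB V.h_det hx hg (hso h1)).1 h, h1⟩
  · rintro ⟨h1, h2⟩
    exact (main' hB V.h_det hx hg (hso h2)).2 h1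

end

end Pool.Agent.R932
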