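import Pool.Agent.R932.OrB

/-!
# Bounded index in the integral orthogonal group at 100 percent of the primes
-/

set_option autoImplicit false
set_option linter.unusedSectionVars false
set_option linter.style.haveILetI false

open Matrix Polynomial Filter Topology NumberField IsDedekindDomain
open Pool.Agent.Y142.ZO Pool.Agent.Y142.ZI Pool.Agent.Y379.ZI
open Pool.Agent.Y142.ZS (NiceP)
open Pool.Agent.Y142.ZD (DistPow dist_of_nice S_ABS S_BADD S_SUB)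
open Pool.Agent.Y142.SS Pool.Agent.Y142.SI

namespace Pool.Agent.R932

theorem small_density (b : ℕ) : Y142.ZI.DensityZero {ℓ : ℕ | ℓ.Prime ∧ ℓ ≤ b} := by
  have h1 : Tendsto (fun n : ℕ => ((b + 1 : ℕ) : ℝ) / (Nat.primeCounting n : ℝ)) atTop (𝓝 0) :=
    tendsto_const_nhds.div_atTop (tendsto_natCast_atTop_atTop.comp Nat.tendsto_primeCounting)
  refine squeeze_zero (fun n => by positivity) (fun n => ?_) h1
  apply div_le_div_of_nonneg_right _ (Nat.cast_nonneg _)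
  have h2 : Nat.card {ℓ : ℕ // ℓ ≤ n ∧ ℓ ∈ {ℓ : ℕ | ℓ.Prime ∧ ℓ ≤ b}} ≤ Nat.card (Fin (b + 1)) :=
    Nat.card_le_card_of_injective (fun x => ⟨x.1, Nat.lt_succ_of_le x.2.2.2⟩) (fun x y h => by
      apply Subtype.ext
      exact congrArg (fun z : Fin (b + 1) => z.1) h)
  rw [Nat.card_fin] at h2
  exact_mod_cast h2

/-- the image has index at most `cI N` in the orthogonal group of `ℤ_ℓ` -/
def Idx (ℓ : ℕ) [Fact ℓ.Prime] {N : ℕ} {G : Type} [Group G]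
    (β : G →* Matrix (Fin N) (Fin N) ℤ_[ℓ]) (B : Matrix (Fin N) (Fin N) ℤ_[ℓ]) : Prop :=
  ∃ T : Finset (Matrix (Fin N) (Fin N) ℤ_[ℓ]), (∀ x ∈ T, xᵀ * B * x = B) ∧ T.card ≤ cI N ∧
    ∀ A : Matrix (Fin N) (Fin N) ℤ_[ℓ], Aᵀ * B * A = B → ∃ x ∈ T, ∃ g, A = x * β g

section
variable {K : Type} [Field K] [NumberField K] {N : ℕ} {G : Type} [Group G] {s : GK K →* G}
  {S : Set (HeightOneSpectrum (𝓞 K))} {P : HeightOneSpectrum (𝓞 K) → ℚ[X]}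

/-- what an ordinary place says for `ℓ` large -/
theorem idx_of_irr {v : HeightOneSpectrum (𝓞 K)} {Q : ℚ[X]} (hv : GoodPlace S P v Q)
    (h0 : ∀ x y z : ℂ, aeval x Q = 0 → aeval y Q = 0 → aeval z Q = 0 → x * y ≠ z) (hN2 : 2 ≤ N) :
    ∃ b : ℕ, ∀ ℓ : ℕ, b < ℓ → ∀ _ : Fact ℓ.Prime,
    ∀ (β : G →* Matrix (Fin N) (Fin N) ℤ_[ℓ]) (B : Matrix (Fin N) (Fin N) ℤ_[ℓ]),
      IntegralSys K N ℓ s β B S P → IsUnit B.det → IsClosed (Set.range β) →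
      IrrMod ℓ (jbound N) β → Idx ℓ β B := by
  have hQ0 : Q ≠ 0 := by
    rintro rfl
    have h1 := hv.2.2 1 one_pos
    rw [isCoprime_zero_left, pow_one] at h1
    have h2 := Polynomial.natDegree_eq_zero_of_isUnit h1
    rw [← C_1, natDegree_X_sub_C] at h2
    exact one_ne_zero h2
  obtain ⟨c, hc, q, hq⟩ := Pool.Agent.Y971.ZI.clear Q
  have hfac : 0 < (jbound N).factorial := Nat.factorial_pos _
  have hX : (X ^ (jbound N).factorial - 1 : ℤ[X]).map (Int.castRingHom ℚ) =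
      X ^ (jbound N).factorial - 1 := by simp
  obtain ⟨b₁, hb₁⟩ := coprime_mod hc hq hX (hv.2.2 _ hfac)
  obtain ⟨b₂, hb₂⟩ := spec_mod hQ0 h0 hc hq
  refine ⟨max (max b₁ b₂) (max (max c.natAbs (eI N)) (Ideal.absNorm v.asIdeal)),
    fun ℓ hℓ hp β B hsys hun hcl hirr => ?_⟩
  simp only [max_lt_iff] at hℓ
  obtain ⟨τ, hτ⟩ := Pool.Agent.W401.Frob.exists_frob v
  obtain ⟨-, h2, -, h4, h5⟩ := hsys
  have e : (genM ℓ (β (s τ⁻¹))).charpoly = (P v).map (algebraMap ℚ ℚ_[ℓ]) := by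
    rw [genM, ← h5 v hv.1 (not_mem_of_lt v hp.out hℓ.2.2) τ hτ, ← Matrix.charpoly_map]
  have hcℓ : (c : ZMod ℓ) ≠ 0 := cast_ne_zero hc hℓ.2.1.1
  have hQ := charpoly_mod hv.2.1 hq hcℓ e
  have hdet' : (redM ℓ B).det ≠ 0 := by
    rw [redM_det]
    exact (hun.map (PadicInt.toZMod : ℤ_[ℓ] →+* ZMod ℓ)).ne_zero
  have hunit : IsUnit (C ((c : ZMod ℓ)⁻¹)) := isUnit_C.2 (isUnit_iff_ne_zero.2 (inv_ne_zero hcℓ))
  have hcop : IsCoprime (C ((c : ZMod ℓ)⁻¹) * q.map (Int.castRingHom (ZMod ℓ)))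
      (X ^ (jbound N).factorial - 1) := by
    have h6 := hb₁ ℓ hℓ.1.1 hp
    rw [Polynomial.map_sub, Polynomial.map_pow, map_X, Polynomial.map_one] at h6
    exact (isCoprime_mul_unit_left_left hunit _ _).2 h6
  have hroot : ∀ x y z : AlgebraicClosure (ZMod ℓ),
      aeval x (C ((c : ZMod ℓ)⁻¹) * q.map (Int.castRingHom (ZMod ℓ))) = 0 →
      aeval y (C ((c : ZMod ℓ)⁻¹) * q.map (Int.castRingHom (ZMod ℓ))) = 0 →
      aeval z (C ((c : ZMod ℓ)⁻¹) * q.map (Int.castRingHom (ZMod ℓ))) = 0 → x * y ≠ z := by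
    have h7 : ∀ x : AlgebraicClosure (ZMod ℓ),
        aeval x (C ((c : ZMod ℓ)⁻¹) * q.map (Int.castRingHom (ZMod ℓ))) = 0 →
        aeval x (q.map (Int.castRingHom (ZMod ℓ))) = 0 := by
      intro x hx
      rw [map_mul, aeval_C] at hx
      exact (mul_eq_zero.1 hx).resolve_left fun h =>
        inv_ne_zero hcℓ ((map_eq_zero_iff _ (algebraMap (ZMod ℓ)
          (AlgebraicClosure (ZMod ℓ))).injective).1 h)
    intro x y z hx hy hz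
    exact hb₂ ℓ hℓ.1.2 hp x y z (h7 x hx) (h7 y hy) (h7 z hz)
  exact index_bound hN2 hℓ.2.1.2.le h2 hdet' h4 hcl hirr hQ hcop hroot

/-- **bounded index at 100 percent of the primes** -/
theorem index_density (hALG : S_ALG) (hISO : S_ISO) (hLINE : S_LINE) (hTAN : S_TAN) (hLOG : S_LOG)
    (hEXP : S_EXP) (hPOW : S_POW) (hSPEC : S_SPEC) (hAPP : S_APP) (hFROB : S_FROB) (hBAD : S_BAD)
    (hVAL : S_VAL) (hDENS : S_DENS) (hINF : S_INF)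
    (hLOC : S_LOC) (hLOGR : S_LOGR) (hKRS : S_KRS) (hCHARA : S_CHARA)
    (hMULTI : S_MULTI) (hINT : S_INT) (hDENS2 : S_DENS2)
    (hN : Odd N) (hN2 : 2 ≤ N) (hS : S.Finite) {v₀ v₁ : HeightOneSpectrum (𝓞 K)} {Q₀ Q₁ : ℚ[X]}
    (hv₀ : GoodPlace S P v₀ Q₀)
    (h0 : ∀ x y z : ℂ, aeval x Q₀ = 0 → aeval y Q₀ = 0 → aeval z Q₀ = 0 → x * y ≠ z)
    (hv₁ : GoodPlace S P v₁ Q₁)
    (hsq : ¬ IsSquare (Q₀.eval 1 * Q₀.eval (-1) * (Q₁.eval 1 * Q₁.eval (-1))))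
    (β : ∀ (ℓ : ℕ) [Fact ℓ.Prime], G →* Matrix (Fin N) (Fin N) ℤ_[ℓ])
    (B : ∀ (ℓ : ℕ) [Fact ℓ.Prime], Matrix (Fin N) (Fin N) ℤ_[ℓ])
    (hsys : ∀ (ℓ : ℕ) [Fact ℓ.Prime], IntegralSys K N ℓ s (β ℓ) (B ℓ) S P)
    (hcl : ∀ (ℓ : ℕ) [Fact ℓ.Prime], IsClosed (Set.range (β ℓ)))
    (hun : ∃ b : ℕ, ∀ (ℓ : ℕ) [Fact ℓ.Prime], b < ℓ → IsUnit (B ℓ).det)
    {m : ℕ} (u : Fin (m + 1) → HeightOneSpectrum (𝓞 K)) (hu : ∀ i, NiceP S P (u i))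
    (hI : ∀ (g : GK ℚ) (d : ℕ), 2 ≤ d → (d = 2 ∨ d + 2 ≤ N) →
      ∃ v, NiceP S P v ∧ ∃ w ∈ NoSet d (P v), w⁻¹ * g ∈ Subgroup.closure (⋃ i, Fix (P (u i)))) :
    Y142.ZI.DensityZero {ℓ | ∃ _ : Fact ℓ.Prime, ¬ Idx ℓ (β ℓ) (B ℓ)} := by
  have h1 := irr_mod_density hALG hISO hLINE hTAN hLOG hEXP hPOW hSPEC hAPP hFROB hBAD hVAL hDENS
    hINF hLOC hLOGR hKRS hCHARA hMULTI hINT hDENS2 hN hS hv₀ h0 hv₁ hsq β B hsys hun u hu hI
    (jbound N)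
  obtain ⟨b, hb⟩ := idx_of_irr (G := G) (s := s) hv₀ h0 hN2
  obtain ⟨b', hb'⟩ := hun
  refine Y142.ZI.DensityZero.mono ((small_density (max b b')).union h1) ?_
  rintro ℓ ⟨hp, hng⟩
  by_contra hnot
  apply hng
  rw [Set.mem_union, not_or] at hnot
  have hℓ : max b b' < ℓ := by
    by_contra h
    exact hnot.1 ⟨hp.out, by omega⟩
  rw [max_lt_iff] at hℓ
  refine hb ℓ hℓ.1 hp (β ℓ) (B ℓ) (hsys ℓ) (hb' ℓ hℓ.2) (hcl ℓ) ?_
  by_contra h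
  exact hnot.2 ⟨hp, h⟩

end

end Pool.Agent.R932
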