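import Pool.Agent.R932.MtOdd
import Pool.Agent.R932.OrC

/-!
# The integral Mumford-Tate conjecture at a set of primes of density one, odd rank
-/

set_option autoImplicit false
set_option linter.style.haveILetI false
set_option linter.unusedSectionVars false

open Matrix Polynomial Filter Topology NumberField IsDedekindDomain
open Pool.Agent.Y142.ZO Pool.Agent.Y142.ZI
open Pool.Agent.Y142.ZS (NiceP)
open Pool.Agent.Y142.SS Pool.Agent.Y142.SI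
open Pool.Agent.Y95.MT
open Pool.Agent.W544.PG (HS BD bl)

namespace Pool.Agent.R932

section general
variable {ι : Type} [Fintype ι] [DecidableEq ι]

/-- `H` is contained in `G` and `G` is a union of at most `C` left cosets of `H` -/
def IdxLe {R : Type} [CommRing R] (C : ℕ) (H G : Set (Matrix ι ι R)) : Prop :=
  H ⊆ G ∧ ∃ F : Finset (Matrix ι ι R), F.card ≤ C ∧ ∀ g ∈ G, ∃ x ∈ F, ∃ h ∈ H, g = x * h

/-- the points over `ℤ_ℓ` of the Mumford-Tate group -/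
def GZ (ℓ : ℕ) [Fact ℓ.Prime] (h : ℂ → Matrix ι ι ℂ) : Set (Matrix ι ι ℤ_[ℓ]) :=
  {g | IsUnit g.det ∧ InMT h (g.map (algebraMap ℤ_[ℓ] ℚ_[ℓ]))}

/-- the Zariski closure of the image of `Γ'` is connected -/
def ConnM {ℓ : ℕ} [Fact ℓ.Prime] {Γ : Type} [Group Γ] (ρ : Γ →* Matrix ι ι ℤ_[ℓ])
    (Γ' : Subgroup Γ) : Prop :=
  ∀ f : MvPolynomial (ι × ι) ℚ_[ℓ],
    (∃ Δ : Subgroup Γ, Δ.index ≠ 0 ∧ ∀ σ ∈ Γ', σ ∈ Δ →
      MvPolynomial.aeval (fun q : ι × ι => algebraMap ℤ_[ℓ] ℚ_[ℓ] (ρ σ q.1 q.2)) f = 0) →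
    ∀ σ ∈ Γ', MvPolynomial.aeval (fun q : ι × ι => algebraMap ℤ_[ℓ] ℚ_[ℓ] (ρ σ q.1 q.2)) f = 0

theorem fin_idx {Γ M : Type} [Group Γ] [Monoid M] (f : Γ →* M) (hf : (Set.range f).Finite) :
    ∃ Δ : Subgroup Γ, Δ.index ≠ 0 ∧ ∀ σ ∈ Δ, f σ = 1 := by
  refine ⟨f.toHomUnits.ker, ?_, fun σ hσ => ?_⟩
  · have h2 : Finite f.toHomUnits.range := by
      have h3 : Set.MapsTo (fun u : Mˣ => (u : M)) (f.toHomUnits.range : Set Mˣ) (Set.range f) := by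
        rintro _ ⟨s, rfl⟩
        exact ⟨s, (MonoidHom.coe_toHomUnits f s).symm⟩
      exact hf.of_injOn h3 (fun x _ y _ hxy => Units.ext hxy)
    have h4 : f.toHomUnits.ker.FiniteIndex := inferInstance
    exact h4.index_ne_zero
  · rw [MonoidHom.mem_ker, Units.ext_iff, MonoidHom.coe_toHomUnits] at hσ
    exact hσ

end general

section
variable {ℓ : ℕ} [Fact ℓ.Prime] {n : ℕ} {Γ : Type} [Group Γ] {κ : Type} [Fintype κ]
  [DecidableEq κ]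

/-- the integral representation on `N ⊕ T` -/
noncomputable def totI (α : Γ →* Matrix κ κ ℤ_[ℓ]) (β : Γ →* Matrix (Fin n) (Fin n) ℤ_[ℓ]) :
    Γ →* Matrix (κ ⊕ Fin n) (κ ⊕ Fin n) ℤ_[ℓ] where
  toFun σ := fromBlocks (α σ) 0 0 (β σ)
  map_one' := by rw [map_one, map_one, fromBlocks_one]
  map_mul' σ τ := by rw [map_mul, map_mul, fb_mul]

theorem totI_apply (α : Γ →* Matrix κ κ ℤ_[ℓ]) (β : Γ →* Matrix (Fin n) (Fin n) ℤ_[ℓ]) (σ : Γ) :
    totI α β σ = fromBlocks (α σ) 0 0 (β σ) := rfl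

variable {α : Γ →* Matrix κ κ ℤ_[ℓ]} {β : Γ →* Matrix (Fin n) (Fin n) ℤ_[ℓ]} {Γ' : Subgroup Γ}

theorem alpha_one (hα : (Set.range α).Finite) (hc : ConnM (totI α β) Γ') :
    ∀ σ ∈ Γ', α σ = 1 := by
  intro σ hσ
  ext i j
  obtain ⟨Δ, hΔ, h⟩ := fin_idx α hα
  have h1 := hc (MvPolynomial.X (Sum.inl i, Sum.inl j) -
    MvPolynomial.C ((1 : Matrix κ κ ℚ_[ℓ]) i j)) ⟨Δ, hΔ, fun τ _ hτ => by
      rw [map_sub, MvPolynomial.aeval_X, MvPolynomial.aeval_C, totI_apply, fromBlocks_apply₁₁,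
        h τ hτ, Matrix.one_apply, Matrix.one_apply]
      split_ifs <;> simp⟩ σ hσ
  rw [map_sub, MvPolynomial.aeval_X, MvPolynomial.aeval_C, totI_apply, fromBlocks_apply₁₁,
    sub_eq_zero, Algebra.algebraMap_self, RingHom.id_apply] at h1
  apply IsFractionRing.injective ℤ_[ℓ] ℚ_[ℓ]
  rw [h1, Matrix.one_apply, Matrix.one_apply]
  split_ifs <;> simp

theorem det_beta (hdet : ∀ σ, (β σ).det * (β σ).det = 1) (hc : ConnM (totI α β) Γ') :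
    ∀ σ ∈ Γ', (β σ).det = 1 := by
  intro σ hσ
  let δ : Γ →* ℤ_[ℓ] :=
    { toFun := fun σ => (β σ).det
      map_one' := by rw [map_one, det_one]
      map_mul' := fun σ τ => by rw [map_mul, det_mul] }
  have hfin : (Set.range δ).Finite := by
    refine (Set.toFinite ({1, -1} : Set ℤ_[ℓ])).subset ?_
    rintro _ ⟨τ, rfl⟩
    exact mul_self_eq_one_iff.1 (hdet τ)
  obtain ⟨Δ, hΔ, h⟩ := fin_idx δ hfin
  set F : MvPolynomial ((κ ⊕ Fin n) × (κ ⊕ Fin n)) ℚ_[ℓ] :=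
    (Matrix.of fun i j : Fin n => MvPolynomial.X (Sum.inr i, Sum.inr j)).det - 1 with hF
  have hev : ∀ τ, MvPolynomial.aeval (fun q : (κ ⊕ Fin n) × (κ ⊕ Fin n) =>
      algebraMap ℤ_[ℓ] ℚ_[ℓ] (totI α β τ q.1 q.2)) F =
      algebraMap ℤ_[ℓ] ℚ_[ℓ] ((β τ).det) - 1 := by
    intro τ
    rw [hF, map_sub, map_one, AlgHom.map_det, RingHom.map_det]
    congr 2
    ext i j
    rw [AlgHom.mapMatrix_apply, Matrix.map_apply, Matrix.of_apply, MvPolynomial.aeval_X, totI_apply,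
      fromBlocks_apply₂₂]
    rfl
  have h1 := hc F ⟨Δ, hΔ, fun τ _ hτ => by
    have h2 : (β τ).det = 1 := h τ hτ
    rw [hev, h2, map_one, sub_self]⟩ σ hσ
  rw [hev, sub_eq_zero] at h1
  apply IsFractionRing.injective ℤ_[ℓ] ℚ_[ℓ]
  rw [h1, map_one]

theorem bl_one1 {R : Type} [Zero R] [One R] (i : Fin 1) (A : Matrix (Fin n) (Fin n) R) :
    bl (one1 n) i A = A := by
  ext a b
  unfold bl
  rw [Matrix.of_apply, if_pos ⟨Subsingleton.elim _ _, Subsingleton.elim _ _⟩]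

variable {T : HS n}

theorem InMT_N {g : Matrix κ κ ℚ_[ℓ]} : InMT (fun _ => (1 : Matrix κ κ ℂ)) g ↔ g = 1 := by
  have hone : MTgroup (fun _ => (1 : Matrix κ κ ℂ)) ⊆ {1} := by
    intro m hm
    refine hm {1} ⟨⟨{f | ∃ a b, f = MvPolynomial.X (a, b) -
      MvPolynomial.C ((1 : Matrix κ κ ℚ) a b)}, fun g => ?_⟩, rfl, ?_, ?_⟩ fun z _ => rfl
    · constructor
      · rintro rfl
        refine ⟨by simp, ?_⟩
        rintro _ ⟨a, b, rfl⟩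
        unfold vQ
        rw [map_sub, MvPolynomial.aeval_X, MvPolynomial.aeval_C, Matrix.one_apply, Matrix.one_apply]
        split_ifs <;> simp
      · rintro ⟨-, h⟩
        ext a b
        have h2 := h _ ⟨a, b, rfl⟩
        unfold vQ at h2
        rw [map_sub, MvPolynomial.aeval_X, MvPolynomial.aeval_C, sub_eq_zero] at h2
        rw [h2, Matrix.one_apply, Matrix.one_apply]
        split_ifs <;> simp
    · rintro a rfl b rfl
      simp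
    · rintro a rfl
      simp
  constructor
  · intro h
    ext a b
    have h2 := h (MvPolynomial.X (a, b) - MvPolynomial.C ((1 : Matrix κ κ ℚ) a b)) fun m hm => by
      have h3 := hone hm
      rw [Set.mem_singleton_iff] at h3
      rw [h3]
      unfold vQ
      rw [map_sub, MvPolynomial.aeval_X, MvPolynomial.aeval_C, Matrix.one_apply, Matrix.one_apply]
      split_ifs <;> simp
    unfold vQ at h2
    rw [map_sub, MvPolynomial.aeval_X, MvPolynomial.aeval_C, sub_eq_zero] at h2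
    rw [h2, Matrix.one_apply, Matrix.one_apply]
    split_ifs <;> simp
  · rintro rfl
    obtain ⟨e⟩ := Pool.Agent.Y95.MT.exists_emb ℓ
    exact InMT_one (e.comp (algebraMap ℚ_[ℓ] (AlgebraicClosure ℚ_[ℓ]))) _

theorem GZ_iff {p q : Fin 1 → ℕ} (hB : T.Big (one1 n) p q)
    {g : Matrix (κ ⊕ Fin n) (κ ⊕ Fin n) ℤ_[ℓ]} :
    g ∈ GZ ℓ (hM (fun _ => (1 : Matrix κ κ ℂ)) T) ↔ ∃ A : Matrix (Fin n) (Fin n) ℤ_[ℓ],
      g = fromBlocks 1 0 0 A ∧ A.det = 1 ∧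
      (qm A)ᵀ * T.Q.map (algebraMap ℚ ℚ_[ℓ]) * qm A = T.Q.map (algebraMap ℚ ℚ_[ℓ]) := by
  obtain ⟨e⟩ := Pool.Agent.Y95.MT.exists_emb ℓ
  have hinj : Function.Injective (algebraMap ℤ_[ℓ] ℚ_[ℓ]) := IsFractionRing.injective _ _
  have hiff : ∀ {g : Matrix (κ ⊕ Fin n) (κ ⊕ Fin n) ℚ_[ℓ]}, g.det ≠ 0 →
      (InMT (hM (fun _ => (1 : Matrix κ κ ℂ)) T) g ↔ g = fromBlocks g.toBlocks₁₁ 0 0 g.toBlocks₂₂ ∧
        InMT (fun _ => (1 : Matrix κ κ ℂ)) g.toBlocks₁₁ ∧ InSO (one1 n) T.Q g.toBlocks₂₂) :=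
    fun hg => InMT_iff (c := one1 n) hB (fun _ _ => by rw [Matrix.det_one]; exact one_ne_zero)
      star_N (e.comp (algebraMap ℚ_[ℓ] (AlgebraicClosure ℚ_[ℓ]))) hg
  have hdetmap : ∀ {ι : Type} [Fintype ι] [DecidableEq ι] (A : Matrix ι ι ℤ_[ℓ]),
      (A.map (algebraMap ℤ_[ℓ] ℚ_[ℓ])).det = algebraMap ℤ_[ℓ] ℚ_[ℓ] A.det := by
    intro ι _ _ A
    rw [RingHom.map_det]
    rfl
  constructor
  · rintro ⟨hu, hg⟩
    have hd : (g.map (algebraMap ℤ_[ℓ] ℚ_[ℓ])).det ≠ 0 := by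
      rw [hdetmap]
      exact (map_ne_zero_iff _ hinj).2 hu.ne_zero
    rw [hiff hd, InMT_N] at hg
    obtain ⟨h1, h2, h3, -, h4⟩ := hg
    have h5 : g = fromBlocks 1 0 0 g.toBlocks₂₂ := by
      ext a b
      apply hinj
      have h6 := congrFun (congrFun h1 a) b
      rw [Matrix.map_apply] at h6
      rw [h6]
      rcases a with a | a <;> rcases b with b | b
      · rw [fromBlocks_apply₁₁, fromBlocks_apply₁₁, h2, Matrix.one_apply, Matrix.one_apply]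
        split_ifs <;> simp
      · rw [fromBlocks_apply₁₂, fromBlocks_apply₁₂, Matrix.zero_apply, Matrix.zero_apply, map_zero]
      · rw [fromBlocks_apply₂₁, fromBlocks_apply₂₁, Matrix.zero_apply, Matrix.zero_apply, map_zero]
      · rfl
    refine ⟨g.toBlocks₂₂, h5, ?_, h3⟩
    have h6 := h4 0
    rw [bl_one1] at h6
    apply hinj
    rw [← hdetmap, map_one]
    exact h6
  · rintro ⟨A, rfl, hA, hAQ⟩
    have hu : IsUnit (fromBlocks (1 : Matrix κ κ ℤ_[ℓ]) 0 0 A).det := by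
      rw [fb_det, det_one, hA, one_mul]
      exact isUnit_one
    refine ⟨hu, ?_⟩
    have hd : ((fromBlocks (1 : Matrix κ κ ℤ_[ℓ]) 0 0 A).map (algebraMap ℤ_[ℓ] ℚ_[ℓ])).det ≠ 0 := by
      rw [hdetmap]
      exact (map_ne_zero_iff _ hinj).2 hu.ne_zero
    rw [hiff hd, fb_map, toBlocks_fromBlocks₁₁, toBlocks_fromBlocks₂₂, InMT_N]
    refine ⟨rfl, ?_, hAQ, fun a b hab => absurd rfl hab, fun i => ?_⟩
    · exact Matrix.map_one _ (map_zero _) (map_one _)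
    · rw [bl_one1, hdetmap, hA, map_one]

/-- **the integral statement at one prime** -/
theorem idxLe_of_idx {p q : Fin 1 → ℕ} (hB : T.Big (one1 n) p q) (hα : (Set.range α).Finite)
    (hform : ∀ σ, (qm (β σ))ᵀ * T.Q.map (algebraMap ℚ ℚ_[ℓ]) * qm (β σ) =
      T.Q.map (algebraMap ℚ ℚ_[ℓ])) (hΓ' : Γ'.index ≠ 0) (hc : ConnM (totI α β) Γ')
    {B : Matrix (Fin n) (Fin n) ℤ_[ℓ]} {c : ℚ_[ℓ]} (hc0 : c ≠ 0)
    (hBQ : B.map (algebraMap ℤ_[ℓ] ℚ_[ℓ]) = c • T.Q.map (algebraMap ℚ ℚ_[ℓ]))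
    (hidx : Idx ℓ β B) :
    IdxLe (cI n * Γ'.index) (totI α β '' (Γ' : Set Γ)) (GZ ℓ (hM (fun _ => (1 : Matrix κ κ ℂ)) T)) := by
  classical
  have hinj : Function.Injective (algebraMap ℤ_[ℓ] ℚ_[ℓ]) := IsFractionRing.injective _ _
  have hdetmap : ∀ (A : Matrix (Fin n) (Fin n) ℤ_[ℓ]),
      (qm A).det = algebraMap ℤ_[ℓ] ℚ_[ℓ] A.det := by
    intro A
    rw [RingHom.map_det]
    rfl
  have hdet : ∀ σ, (β σ).det * (β σ).det = 1 := by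
    intro σ
    have h1 := congrArg Matrix.det (hform σ)
    rw [det_mul, det_mul, det_transpose, hdetmap] at h1
    apply hinj
    rw [map_mul, map_one]
    apply mul_right_cancel₀ (qdet (ℓ := ℓ) T)
    rw [one_mul]
    linear_combination h1
  have hα1 := alpha_one hα hc
  have hβ1 := det_beta hdet hc
  refine ⟨?_, ?_⟩
  · rintro _ ⟨σ, hσ, rfl⟩
    rw [GZ_iff hB]
    exact ⟨β σ, by rw [totI_apply, hα1 σ hσ], hβ1 σ hσ, hform σ⟩
  · obtain ⟨F, -, hF2, hF3⟩ := hidx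
    haveI : Finite (Γ ⧸ Γ') := Nat.finite_of_card_ne_zero (by
      rw [Subgroup.index] at hΓ'
      exact hΓ')
    haveI : Fintype (Γ ⧸ Γ') := Fintype.ofFinite _
    refine ⟨(F ×ˢ (Finset.univ : Finset (Γ ⧸ Γ'))).image fun x =>
      fromBlocks 1 0 0 (x.1 * β x.2.out), ?_, ?_⟩
    · refine Finset.card_image_le.trans ?_
      rw [Finset.card_product, Finset.card_univ]
      refine Nat.mul_le_mul hF2 ?_
      rw [Subgroup.index, Nat.card_eq_fintype_card]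
    · intro g hg
      rw [GZ_iff hB] at hg
      obtain ⟨A, rfl, hA, hAQ⟩ := hg
      have hAB : Aᵀ * B * A = B := by
        have h1 : (Aᵀ * B * A).map (algebraMap ℤ_[ℓ] ℚ_[ℓ]) = B.map (algebraMap ℤ_[ℓ] ℚ_[ℓ]) := by
          rw [Matrix.map_mul, Matrix.map_mul, hBQ, mul_smul_comm, smul_mul_assoc,
            Matrix.transpose_map]
          congr 1
        exact Matrix.map_injective hinj h1
      obtain ⟨x, hx, g, hg⟩ := hF3 A hAB
      refine ⟨fromBlocks 1 0 0 (x * β (QuotientGroup.mk g : Γ ⧸ Γ').out), ?_,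
        totI α β ((QuotientGroup.mk g : Γ ⧸ Γ').out⁻¹ * g), ⟨_, ?_, rfl⟩, ?_⟩
      · rw [Finset.mem_image]
        exact ⟨(x, QuotientGroup.mk g), Finset.mem_product.2 ⟨hx, Finset.mem_univ _⟩, rfl⟩
      · have h1 : (QuotientGroup.mk ((QuotientGroup.mk g : Γ ⧸ Γ').out) : Γ ⧸ Γ') =
            QuotientGroup.mk g := QuotientGroup.out_eq' _
        exact QuotientGroup.eq.1 h1
      · have h1 : (QuotientGroup.mk g : Γ ⧸ Γ').out⁻¹ * g ∈ Γ' := by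
          have h1 : (QuotientGroup.mk ((QuotientGroup.mk g : Γ ⧸ Γ').out) : Γ ⧸ Γ') =
            QuotientGroup.mk g := QuotientGroup.out_eq' _
          exact QuotientGroup.eq.1 h1
        rw [totI_apply, hα1 _ h1, fb_mul, mul_one, hg, mul_assoc, ← map_mul, mul_inv_cancel_left]

end

/-- an integral multiple of the form -/
theorem clear_form {n : ℕ} (Q : Matrix (Fin n) (Fin n) ℚ) : ∃ (c : ℤ) (Z : Matrix (Fin n) (Fin n) ℤ),
    c ≠ 0 ∧ Z.map (Int.castRingHom ℚ) = (c : ℚ) • Q := by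
  set c : ℤ := ∏ i, ∏ j, ((Q i j).den : ℤ) with hc
  have h1 : ∀ i j, ∃ z : ℤ, (z : ℚ) = (c : ℚ) * Q i j := by
    intro i j
    have h2 : ((Q i j).den : ℤ) ∣ c :=
      (Finset.dvd_prod_of_mem (fun j => ((Q i j).den : ℤ)) (Finset.mem_univ j)).trans
        (Finset.dvd_prod_of_mem (fun i => ∏ j, ((Q i j).den : ℤ)) (Finset.mem_univ i))
    obtain ⟨k, hk⟩ := h2
    refine ⟨k * (Q i j).num, ?_⟩
    rw [hk]
    push_cast
    rw [mul_comm ((Q i j).den : ℚ) k, mul_assoc, Rat.den_mul_eq_num]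
  choose z hz using h1
  refine ⟨c, Matrix.of z, ?_, ?_⟩
  · rw [hc]
    exact Finset.prod_ne_zero_iff.2 fun i _ => Finset.prod_ne_zero_iff.2 fun j _ =>
      by exact_mod_cast (Q i j).den_ne_zero
  · ext i j
    rw [Matrix.map_apply, Matrix.of_apply, Matrix.smul_apply, smul_eq_mul]
    exact hz i j

section
variable {K : Type} [Field K] [NumberField K] {n : ℕ} {S : Set (HeightOneSpectrum (𝓞 K))}
  {P : HeightOneSpectrum (𝓞 K) → ℚ[X]} {Γ : Type} [Group Γ] [TopologicalSpace Γ]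
  [IsTopologicalGroup Γ] [CompactSpace Γ] {s : GK K →* Γ} {T : HS n}

/-- **the integral Mumford-Tate conjecture at 100 percent of the primes, odd rank** -/
theorem mt_int {κ : Type} [Fintype κ] [DecidableEq κ] (hn : Odd n) (hn2 : 2 ≤ n) {p q : Fin 1 → ℕ}
    (hB : T.Big (one1 n) p q) (hS : S.Finite) (hs : Continuous s)
    (α : ∀ (ℓ : ℕ) [Fact ℓ.Prime], Γ →* Matrix κ κ ℤ_[ℓ])
    (hα : ∀ (ℓ : ℕ) [Fact ℓ.Prime], (Set.range (α ℓ)).Finite)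
    (β : ∀ (ℓ : ℕ) [Fact ℓ.Prime], Γ →* Matrix (Fin n) (Fin n) ℤ_[ℓ])
    (hβ : ∀ (ℓ : ℕ) [Fact ℓ.Prime], RepT s T S P ℓ (β ℓ))
    (Γ' : Subgroup Γ) (hΓ' : Γ'.index ≠ 0)
    (hconn : ∀ (ℓ : ℕ) [Fact ℓ.Prime], ConnM (totI (α ℓ) (β ℓ)) Γ')
    {v₀ v₁ : HeightOneSpectrum (𝓞 K)} {Q₀ Q₁ : ℚ[X]}
    (hv₀ : GoodPlace S P v₀ Q₀)
    (h0 : ∀ x y z : ℂ, aeval x Q₀ = 0 → aeval y Q₀ = 0 → aeval z Q₀ = 0 → x * y ≠ z)
    (hv₁ : GoodPlace S P v₁ Q₁)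
    (hsq : ¬ IsSquare (Q₀.eval 1 * Q₀.eval (-1) * (Q₁.eval 1 * Q₁.eval (-1))))
    {m : ℕ} (u : Fin (m + 1) → HeightOneSpectrum (𝓞 K)) (hu : ∀ i, NiceP S P (u i))
    (hI : ∀ (g : GK ℚ) (d : ℕ), 2 ≤ d → (d = 2 ∨ d + 2 ≤ n) →
      ∃ v, NiceP S P v ∧ ∃ w ∈ NoSet d (P v), w⁻¹ * g ∈ Subgroup.closure (⋃ i, Fix (P (u i)))) :
    Y142.ZI.DensityZero {ℓ | ∃ _ : Fact ℓ.Prime, ¬ IdxLe (cI n * Γ'.index)
      (totI (α ℓ) (β ℓ) '' (Γ' : Set Γ)) (GZ ℓ (hM (fun _ => (1 : Matrix κ κ ℂ)) T))} := by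
  have hALG : Y142.ZO.S_ALG := Y142.ZO.alg_main
  have hISO : Y142.ZO.S_ISO := Y337.ZO.iso_t
  have hLINE : Y142.ZO.S_LINE := Y337.ZO.line_t
  have hTAN : Y142.ZO.S_TAN := Y708.ZO.t
  have hLOG : Y142.ZO.S_LOG := Y497.ZO.log
  have hEXP : Y142.ZO.S_EXP := Y497.ZO.exp
  have hPOW : Y142.ZO.S_POW := Y497.ZO.pow
  have hSPEC : Y142.ZO.S_SPEC := Y96.ZO.t
  have hAPP : Y142.ZO.S_APP := Y815.ZO.t Y337.ZO.det_t Y337.ZO.qz_t hLOG
  have hFROB : Y142.ZO.S_FROB := Y405.ZO.t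
  have hBAD : Y142.ZO.S_BAD := Y458.ZO.bad hISO hLINE
  have hVAL : Y142.ZO.S_VAL := Y405.ZO.t1
  have hDENS : Y142.ZO.S_DENS := Y394.ZO.t1
  have hINF : Y142.ZO.S_INF := Y394.ZO.t2
  have hINT : Y142.ZI.S_INT := Y484.ZI.t1
  have hCHEB : Y142.ZI.S_CHEB := Y726.ZI.t1
  have hDENS2 : Y142.ZI.S_DENS2 := Y681.ZI.t hCHEB
  have hMULTI : Y142.ZI.S_MULTI := Y537.ZI.t
  have hLF : Y142.SS.S_LF := Y255.SS.t
  have hCF : Y142.SS.S_CF := Y297.SS.t hLF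
  have hLOC : Y142.SS.S_LOC := Y708.SS.Loc.t hCF
  have hLOGR : Y142.SS.S_LOGR := Y936.SS.t
  have hKRS : Y142.SS.S_KRS := Y518.SS.t
  have hCHARA : Y142.SS.S_CHARA := Y737.SS.Chara.t
  obtain ⟨c, Z, hc0, hZ⟩ := clear_form T.Q
  have hZt : Zᵀ = Z := by
    apply Matrix.map_injective (f := (Int.castRingHom ℚ)) Int.cast_injective
    show Zᵀ.map (Int.castRingHom ℚ) = Z.map (Int.castRingHom ℚ)
    rw [Matrix.transpose_map, hZ, transpose_smul, T.symm]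
  have hZdet : Z.det ≠ 0 := by
    intro h
    have h1 := congrArg Matrix.det hZ
    have h2 : (Z.map (Int.castRingHom ℚ)).det = ((Z.det : ℤ) : ℚ) := by
      rw [← RingHom.mapMatrix_apply, ← RingHom.map_det]
      rfl
    rw [h2, h, det_smul, Int.cast_zero] at h1
    exact mul_ne_zero (pow_ne_zero _ (by exact_mod_cast hc0)) (W74.PG.det_ne T) h1.symm
  set B : ∀ (ℓ : ℕ) [Fact ℓ.Prime], Matrix (Fin n) (Fin n) ℤ_[ℓ] :=
    fun ℓ _ => Z.map (Int.castRingHom ℤ_[ℓ]) with hBdef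
  have hBdet : ∀ (ℓ : ℕ) [Fact ℓ.Prime], (B ℓ).det = ((Z.det : ℤ) : ℤ_[ℓ]) := by
    intro ℓ _
    show (Z.map (Int.castRingHom ℤ_[ℓ])).det = _
    rw [← RingHom.mapMatrix_apply, ← RingHom.map_det]
    rfl
  have hBQ : ∀ (ℓ : ℕ) [Fact ℓ.Prime], (B ℓ).map (algebraMap ℤ_[ℓ] ℚ_[ℓ]) =
      (c : ℚ_[ℓ]) • T.Q.map (algebraMap ℚ ℚ_[ℓ]) := by
    intro ℓ _
    have h1 : (B ℓ).map (algebraMap ℤ_[ℓ] ℚ_[ℓ]) =
        (Z.map (Int.castRingHom ℚ)).map (algebraMap ℚ ℚ_[ℓ]) := by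
      ext i j
      simp [hBdef]
    rw [h1, hZ]
    ext i j
    simp
  have hcℓ : ∀ (ℓ : ℕ) [Fact ℓ.Prime], (c : ℚ_[ℓ]) ≠ 0 := fun ℓ _ => by exact_mod_cast hc0
  have hsys : ∀ (ℓ : ℕ) [Fact ℓ.Prime], IntegralSys K n ℓ s (β ℓ) (B ℓ) S P := by
    intro ℓ _
    have hinj : Function.Injective (algebraMap ℤ_[ℓ] ℚ_[ℓ]) := IsFractionRing.injective _ _
    refine ⟨(hβ ℓ).cont.comp hs, ?_, ?_, fun g => ?_, fun v hv hvℓ σ hσ => ?_⟩
    · show (Z.map (Int.castRingHom ℤ_[ℓ]))ᵀ = _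
      rw [← Matrix.transpose_map, hZt]
    · rw [hBdet]
      exact_mod_cast hZdet
    · have h1 : ((β ℓ g)ᵀ * B ℓ * β ℓ g).map (algebraMap ℤ_[ℓ] ℚ_[ℓ]) =
          (B ℓ).map (algebraMap ℤ_[ℓ] ℚ_[ℓ]) := by
        rw [Matrix.map_mul, Matrix.map_mul, hBQ, mul_smul_comm, smul_mul_assoc,
          Matrix.transpose_map]
        congr 1
        exact (hβ ℓ).form g
      exact Matrix.map_injective hinj h1
    · rw [← (hβ ℓ).frob v hv hvℓ σ hσ]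
      exact (Matrix.charpoly_map _ _).symm
  have hun : ∃ b : ℕ, ∀ (ℓ : ℕ) [Fact ℓ.Prime], b < ℓ → IsUnit (B ℓ).det := by
    refine ⟨Z.det.natAbs, fun ℓ _ hℓ => ?_⟩
    rw [hBdet, PadicInt.isUnit_iff]
    refine le_antisymm (PadicInt.norm_le_one _) (not_lt.1 ?_)
    rw [PadicInt.norm_intCast_lt_one_iff]
    intro hdvd
    have h5 := Int.natAbs_dvd_natAbs.mpr hdvd
    rw [Int.natAbs_natCast] at h5
    have h6 := Nat.le_of_dvd (Int.natAbs_pos.mpr hZdet) h5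
    omega
  have hcl : ∀ (ℓ : ℕ) [Fact ℓ.Prime], IsClosed (Set.range (β ℓ)) := by
    intro ℓ _
    haveI : T2Space (Matrix (Fin n) (Fin n) ℤ_[ℓ]) :=
      inferInstanceAs (T2Space (Fin n → Fin n → ℤ_[ℓ]))
    exact (isCompact_range (hβ ℓ).cont).isClosed
  refine Y142.ZI.DensityZero.mono (index_density hALG hISO hLINE hTAN hLOG hEXP hPOW hSPEC hAPP
    hFROB hBAD hVAL hDENS hINF hLOC hLOGR hKRS hCHARA hMULTI hINT hDENS2 hn hn2 hS hv₀ h0 hv₁ hsq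
    β B hsys hcl hun u hu hI) ?_
  rintro ℓ ⟨hp, hno⟩
  exact ⟨hp, fun hidx => hno (idxLe_of_idx hB (hα ℓ) (hβ ℓ).form hΓ' (hconn ℓ) (hcℓ ℓ) (hBQ ℓ)
    hidx)⟩

end

end Pool.Agent.R932
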