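import Pool.Agent.R932.LieD

/-!
# The number of isometries of a nondegenerate form over a finite field
-/

set_option autoImplicit false
set_option linter.unusedSectionVars false
set_option linter.style.haveILetI false

open Matrix
open Pool.Agent.Y142.ZO Pool.Agent.Y379.ZI

namespace Pool.Agent.R932

section
variable {F : Type} [Field F] {N : ℕ}

/-- the sign -/
def sg (F : Type) [Field F] (b : Bool) : F := if b then 1 else -1

theorem sg_mul (b : Bool) : sg F b * sg F b = 1 := by
  unfold sg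
  cases b <;> simp

/-- some sign matrix makes the determinant nonzero -/
theorem exists_sign (h2 : (2 : F) ≠ 0) : ∀ (N : ℕ) (A : Matrix (Fin N) (Fin N) F),
    ∃ ε : Fin N → Bool, (A + diagonal fun i => sg F (ε i)).det ≠ 0 := by
  intro N
  induction N with
  | zero =>
    intro A
    exact ⟨fun _ => true, by rw [det_fin_zero]; exact one_ne_zero⟩
  | succ N ih =>
    intro A
    obtain ⟨ε, hε⟩ := ih (A.submatrix Fin.succ Fin.succ)
    by_contra hcon
    push Not at hcon
    have h1 := hcon (Fin.cons true ε)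
    have h3 := hcon (Fin.cons false ε)
    rw [det_succ_row_zero] at h1 h3
    have hsub : ∀ (b : Bool) (j : Fin (N + 1)),
        ((A + diagonal fun i => sg F ((Fin.cons b ε : Fin (N + 1) → Bool) i)).submatrix Fin.succ
          j.succAbove) =
        ((A + diagonal fun i => sg F ((Fin.cons true ε : Fin (N + 1) → Bool) i)).submatrix Fin.succ
          j.succAbove) := by
      intro b j
      ext p q
      rw [submatrix_apply, submatrix_apply, Matrix.add_apply, Matrix.add_apply]
      congr 1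
    have h4 : ∑ j : Fin (N + 1), (-1) ^ (j : ℕ) *
        (A + diagonal fun i => sg F ((Fin.cons true ε : Fin (N + 1) → Bool) i)) 0 j *
        ((A + diagonal fun i => sg F ((Fin.cons true ε : Fin (N + 1) → Bool) i)).submatrix Fin.succ
          j.succAbove).det -
      ∑ j : Fin (N + 1), (-1) ^ (j : ℕ) *
        (A + diagonal fun i => sg F ((Fin.cons false ε : Fin (N + 1) → Bool) i)) 0 j *
        ((A + diagonal fun i => sg F ((Fin.cons true ε : Fin (N + 1) → Bool) i)).submatrix Fin.succ
          j.succAbove).det = 2 * ((A.submatrix Fin.succ Fin.succ) +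
            diagonal fun i => sg F (ε i)).det := by
      rw [← Finset.sum_sub_distrib, Finset.sum_eq_single 0]
      · have h5 : ((A + diagonal fun i => sg F ((Fin.cons true ε : Fin (N + 1) → Bool) i)).submatrix
            Fin.succ (Fin.succAbove 0)) = (A.submatrix Fin.succ Fin.succ) +
            diagonal fun i => sg F (ε i) := by
          ext p q
          rw [submatrix_apply, Matrix.add_apply, Matrix.add_apply, submatrix_apply,
            Fin.succAbove_zero]
          congr 1
          by_cases hpq : p = q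
          · subst hpq
            rw [diagonal_apply_eq, diagonal_apply_eq, Fin.cons_succ]
          · rw [diagonal_apply_ne _ hpq, diagonal_apply_ne _ (fun h => hpq (Fin.succ_injective _ h))]
        rw [h5, Matrix.add_apply, Matrix.add_apply, diagonal_apply_eq, diagonal_apply_eq,
          Fin.cons_zero, Fin.cons_zero]
        simp only [sg, Fin.val_zero, pow_zero, one_mul, if_true, Bool.false_eq_true, if_false]
        ring
      · intro j _ hj
        rw [Matrix.add_apply, Matrix.add_apply, diagonal_apply_ne _ (Ne.symm hj),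
          diagonal_apply_ne _ (Ne.symm hj), sub_self]
      · intro h
        exact absurd (Finset.mem_univ _) h
    have h6 : ∑ j : Fin (N + 1), (-1) ^ (j : ℕ) *
        (A + diagonal fun i => sg F ((Fin.cons false ε : Fin (N + 1) → Bool) i)) 0 j *
        ((A + diagonal fun i => sg F ((Fin.cons true ε : Fin (N + 1) → Bool) i)).submatrix Fin.succ
          j.succAbove).det = 0 := by
      rw [← h3]
      exact Finset.sum_congr rfl fun j _ => by rw [hsub false j]
    rw [h1, h6, sub_zero] at h4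
    exact (mul_ne_zero h2 hε) h4.symm

/-- diagonalisation -/
theorem exists_diag (h2 : (2 : F) ≠ 0) {B : Matrix (Fin N) (Fin N) F} (hB : Bᵀ = B)
    (hdet : B.det ≠ 0) : ∃ (P : Matrix (Fin N) (Fin N) F) (D : Fin N → F), P.det ≠ 0 ∧
      Pᵀ * B * P = diagonal D := by
  haveI : Invertible (2 : F) := invertibleOfNonzero h2
  have hs : LinearMap.IsSymm (Matrix.toBilin' B) := ⟨fun u v => by
    rw [RingHom.id_apply, Matrix.toBilin'_apply', Matrix.toBilin'_apply']
    exact bil_comm hB u v⟩
  obtain ⟨q, hq⟩ := LinearMap.BilinForm.exists_orthogonal_basis (B := Matrix.toBilin' B) hs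
  have hnd : (Matrix.toBilin' B).SeparatingLeft :=
    (LinearMap.BilinForm.nondegenerate_toBilin'_of_det_ne_zero' B hdet).1
  have hn := hq.not_isOrtho_basis_self_of_separatingLeft hnd
  have hr : Module.finrank F (Fin N → F) = N := Module.finrank_fin_fun F
  set e := q.reindex (finCongr hr) with he
  have h1 : ∀ i j, i ≠ j → bil B (e i) (e j) = 0 := by
    intro i j hij
    have h3 := LinearMap.isOrthoᵢ_def.mp hq ((finCongr hr).symm i) ((finCongr hr).symm j)
      fun h => hij ((finCongr hr).symm.injective h)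
    rw [Matrix.toBilin'_apply'] at h3
    rw [he, Module.Basis.reindex_apply, Module.Basis.reindex_apply]
    exact h3
  have h3 : ∀ i, bil B (e i) (e i) ≠ 0 := by
    intro i h
    apply hn ((finCongr hr).symm i)
    rw [he, Module.Basis.reindex_apply] at h
    show Matrix.toBilin' B _ _ = 0
    rw [Matrix.toBilin'_apply']
    exact h
  set P : Matrix (Fin N) (Fin N) F := Matrix.of fun a i => e i a with hP
  have hD : Pᵀ * B * P = diagonal fun i => bil B (e i) (e i) := by
    ext i j
    have h4 : (Pᵀ * B * P) i j = bil B (e i) (e j) := by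
      unfold bil
      rw [mul_assoc, Matrix.mul_apply']
      congr 1
    rw [h4]
    by_cases hij : i = j
    · subst hij
      rw [diagonal_apply_eq]
    · rw [diagonal_apply_ne _ hij, h1 i j hij]
  refine ⟨P, _, ?_, hD⟩
  intro hP0
  have h4 := congrArg Matrix.det hD
  rw [det_mul, det_mul, hP0, mul_zero, det_diagonal] at h4
  exact Finset.prod_ne_zero_iff.2 (fun i _ => h3 i) h4.symm

/-- finitely many isometries, one of which moves a given matrix away from `-1` -/
theorem exists_family (h2 : (2 : F) ≠ 0) {B : Matrix (Fin N) (Fin N) F} (hB : Bᵀ = B)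
    (hdet : B.det ≠ 0) : ∃ T : (Fin N → Bool) → Matrix (Fin N) (Fin N) F, (∀ ε, Isom B (T ε)) ∧
      (∀ ε, T ε * T ε = 1) ∧ ∀ A : Matrix (Fin N) (Fin N) F, ∃ ε, (1 + T ε * A).det ≠ 0 := by
  obtain ⟨P, D, hP, hD⟩ := exists_diag h2 hB hdet
  have hu : IsUnit P.det := isUnit_iff_ne_zero.2 hP
  have hut : IsUnit Pᵀ.det := by rw [det_transpose]; exact hu
  have hE : ∀ ε : Fin N → Bool, (diagonal fun i => sg F (ε i)) * (diagonal fun i => sg F (ε i)) =
      (1 : Matrix (Fin N) (Fin N) F) := by
    intro ε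
    rw [diagonal_mul_diagonal]
    simp only [sg_mul]
    exact diagonal_one
  have hBD : B = Pᵀ⁻¹ * diagonal D * P⁻¹ := by
    rw [← hD, mul_assoc, mul_assoc, mul_nonsing_inv _ hu, mul_one, ← mul_assoc,
      nonsing_inv_mul _ hut, one_mul]
  refine ⟨fun ε => P * (diagonal fun i => sg F (ε i)) * P⁻¹, ?_, ?_, ?_⟩
  · intro ε
    set E : Matrix (Fin N) (Fin N) F := diagonal fun i => sg F (ε i) with hEdef
    have hEt : Eᵀ = E := diagonal_transpose _
    have hED : E * diagonal D * E = diagonal D := by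
      rw [hEdef, diagonal_mul_diagonal, diagonal_mul_diagonal]
      congr 1
      funext i
      rw [mul_comm, ← mul_assoc, sg_mul, one_mul]
    show (P * E * P⁻¹)ᵀ * B * (P * E * P⁻¹) = B
    have h3 : P⁻¹ᵀ = Pᵀ⁻¹ := by rw [transpose_nonsing_inv]
    rw [transpose_mul, transpose_mul, hEt, h3]
    calc Pᵀ⁻¹ * (E * Pᵀ) * B * (P * E * P⁻¹) = Pᵀ⁻¹ * (E * (Pᵀ * B * P) * E) * P⁻¹ := by
          simp only [mul_assoc]
      _ = B := by rw [hD, hED, ← hBD]
  · intro ε
    calc P * (diagonal fun i => sg F (ε i)) * P⁻¹ * (P * (diagonal fun i => sg F (ε i)) * P⁻¹)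
        = P * ((diagonal fun i => sg F (ε i)) * (P⁻¹ * P) * (diagonal fun i => sg F (ε i))) *
          P⁻¹ := by simp only [mul_assoc]
      _ = 1 := by rw [nonsing_inv_mul _ hu, mul_one, hE, mul_one, mul_nonsing_inv _ hu]
  · intro A
    obtain ⟨ε, hε⟩ := exists_sign h2 N (P⁻¹ * A * P)
    refine ⟨ε, ?_⟩
    set E : Matrix (Fin N) (Fin N) F := diagonal fun i => sg F (ε i) with hEdef
    have h3 : P⁻¹ * (1 + P * E * P⁻¹ * A) * P = E * (P⁻¹ * A * P + E) := by
      rw [mul_add, add_mul, mul_one, nonsing_inv_mul _ hu, mul_add, hEdef, hE]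
      have : P⁻¹ * (P * E * P⁻¹ * A) * P = (P⁻¹ * P) * E * (P⁻¹ * A * P) := by
        simp only [mul_assoc]
      rw [this, nonsing_inv_mul _ hu, one_mul, add_comm]
    intro h0
    have h4 := congrArg Matrix.det h3
    rw [det_mul, det_mul, h0, mul_zero, zero_mul, det_mul] at h4
    have h5 : E.det ≠ 0 := by
      intro h
      have h6 := congrArg Matrix.det (hE ε)
      rw [det_mul, ← hEdef, h, mul_zero, det_one] at h6
      exact zero_ne_one h6
    exact (mul_ne_zero h5 hε) h4.symm

/-- the Cayley transform -/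
theorem cayley_skew (h2 : (2 : F) ≠ 0) {B h : Matrix (Fin N) (Fin N) F} (hB : Bᵀ = B)
    (hh : Isom B h) (hd : (1 + h).det ≠ 0) :
    Skew B ((1 + h)⁻¹ - (2 : F)⁻¹ • 1) := by
  have hu : IsUnit (1 + h).det := isUnit_iff_ne_zero.2 hd
  set K := (1 + h)⁻¹ - (2 : F)⁻¹ • (1 : Matrix (Fin N) (Fin N) F) with hK
  have hKh : K * (1 + h) = (2 : F)⁻¹ • (1 - h) := by
    rw [hK, sub_mul, nonsing_inv_mul _ hu, smul_mul_assoc, one_mul]
    have : (1 : Matrix (Fin N) (Fin N) F) = (2 : F)⁻¹ • (1 + 1) := by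
      rw [← two_smul F, smul_smul, inv_mul_cancel₀ h2, one_smul]
    calc (1 : Matrix (Fin N) (Fin N) F) - (2 : F)⁻¹ • (1 + h) =
        (2 : F)⁻¹ • (1 + 1) - (2 : F)⁻¹ • (1 + h) := by rw [← this]
      _ = (2 : F)⁻¹ • (1 - h) := by
        rw [← smul_sub]
        congr 1
        abel
  have hhB : hᵀ * B * h = B := hh
  have h3 : (1 + h)ᵀ * (B * K + Kᵀ * B) * (1 + h) = 0 := by
    have e1 : (1 + h)ᵀ * (B * K + Kᵀ * B) * (1 + h) =
        (1 + h)ᵀ * B * (K * (1 + h)) + (K * (1 + h))ᵀ * B * (1 + h) := by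
      rw [transpose_mul K]
      noncomm_ring
    rw [e1, hKh, transpose_smul, transpose_sub, transpose_add, transpose_one, mul_smul_comm,
      smul_mul_assoc, smul_mul_assoc, ← smul_add]
    have e2 : (1 + hᵀ) * B * (1 - h) + (1 - hᵀ) * B * (1 + h) = B + B - (hᵀ * B * h + hᵀ * B * h) := by
      noncomm_ring
    rw [e2, hhB, sub_self, smul_zero]
  have h4 : B * K + Kᵀ * B = 0 := by
    have hut : IsUnit ((1 + h)ᵀ).det := by rw [det_transpose]; exact hu
    have e3 : (1 + h)ᵀ⁻¹ * ((1 + h)ᵀ * (B * K + Kᵀ * B) * (1 + h)) * (1 + h)⁻¹ =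
        B * K + Kᵀ * B := by
      rw [mul_assoc ((1 + h)ᵀ), ← mul_assoc ((1 + h)ᵀ⁻¹), nonsing_inv_mul _ hut, one_mul, mul_assoc,
        mul_nonsing_inv _ hu, mul_one]
    rw [← e3, h3, mul_zero, zero_mul]
  show (B * K)ᵀ = -(B * K)
  rw [transpose_mul, hB]
  exact (eq_neg_of_add_eq_zero_right h4)

/-- the space of skew maps -/
def SkewS (B : Matrix (Fin N) (Fin N) F) : Submodule F (Matrix (Fin N) (Fin N) F) where
  carrier := {Z | Skew B Z}
  add_mem' := by
    intro x y hx hy
    have e1 : (B * x)ᵀ = -(B * x) := hx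
    have e2 : (B * y)ᵀ = -(B * y) := hy
    show (B * (x + y))ᵀ = -(B * (x + y))
    rw [mul_add, transpose_add, e1, e2, neg_add]
  zero_mem' := by
    show (B * 0)ᵀ = -(B * 0)
    rw [mul_zero, transpose_zero, neg_zero]
  smul_mem' := by
    intro c x hx
    have e1 : (B * x)ᵀ = -(B * x) := hx
    show (B * (c • x))ᵀ = -(B * (c • x))
    rw [mul_smul_comm, transpose_smul, e1, smul_neg]

theorem mem_SkewS {B Z : Matrix (Fin N) (Fin N) F} : Z ∈ SkewS B ↔ Skew B Z := Iff.rfl

/-- **the number of isometries** -/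
theorem card_isom_le [Fintype F] (h2 : (2 : F) ≠ 0) {B : Matrix (Fin N) (Fin N) F}
    (hB : Bᵀ = B) (hdet : B.det ≠ 0) :
    Nat.card {h : Matrix (Fin N) (Fin N) F // Isom B h} ≤
      2 ^ N * Fintype.card F ^ Module.finrank F (SkewS B) := by
  classical
  obtain ⟨T, hT, hTT, hfam⟩ := exists_family h2 hB hdet
  choose ε hε using hfam
  have hmul : ∀ h, Isom B h → ∀ δ, Isom B (T δ * h) := by
    intro h hh δ
    have e1 : (T δ)ᵀ * B * T δ = B := hT δ
    have e2 : hᵀ * B * h = B := hh
    show (T δ * h)ᵀ * B * (T δ * h) = B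
    rw [transpose_mul]
    calc hᵀ * (T δ)ᵀ * B * (T δ * h) = hᵀ * ((T δ)ᵀ * B * T δ) * h := by simp only [mul_assoc]
      _ = B := by rw [e1, e2]
  let Φ : {h : Matrix (Fin N) (Fin N) F // Isom B h} → (Fin N → Bool) × SkewS B :=
    fun h => ⟨ε h.1, ⟨(1 + T (ε h.1) * h.1)⁻¹ - (2 : F)⁻¹ • 1,
      cayley_skew h2 hB (hmul h.1 h.2 _) (hε h.1)⟩⟩
  have hΦ : Function.Injective Φ := by
    intro h h' hhh
    have e1 : ε h.1 = ε h'.1 := congrArg Prod.fst hhh
    have e2 : (1 + T (ε h.1) * h.1)⁻¹ - (2 : F)⁻¹ • (1 : Matrix (Fin N) (Fin N) F) =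
        (1 + T (ε h'.1) * h'.1)⁻¹ - (2 : F)⁻¹ • 1 :=
      congrArg (fun x => (x.2 : Matrix (Fin N) (Fin N) F)) hhh
    have e3 : (1 + T (ε h.1) * h.1)⁻¹ = (1 + T (ε h'.1) * h'.1)⁻¹ := sub_left_injective e2
    have e4 : (1 + T (ε h.1) * h.1) = (1 + T (ε h'.1) * h'.1) := by
      rw [← nonsing_inv_nonsing_inv _ (isUnit_iff_ne_zero.2 (hε h.1)), e3,
        nonsing_inv_nonsing_inv _ (isUnit_iff_ne_zero.2 (hε h'.1))]
    have e5 : T (ε h.1) * h.1 = T (ε h.1) * h'.1 := by
      have := add_left_cancel e4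
      rwa [← e1] at this
    apply Subtype.ext
    have e6 := congrArg (fun x => T (ε h.1) * x) e5
    simpa only [← mul_assoc, hTT, one_mul] using e6
  haveI : Fintype (SkewS B) := Fintype.ofFinite _
  have h3 := Nat.card_le_card_of_injective Φ hΦ
  refine h3.trans (le_of_eq ?_)
  rw [Nat.card_prod, Nat.card_eq_fintype_card, Nat.card_eq_fintype_card, Fintype.card_fun,
    Fintype.card_bool, Fintype.card_fin, Module.card_eq_pow_finrank (K := F) (V := SkewS B)]

end

end Pool.Agent.R932
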