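import Pool.Agent.R932.CntC
import Pool.Agent.R932.OrA
import Pool.Agent.R932.LfB

/-!
# The index of the image in the integral orthogonal group
-/

set_option autoImplicit false
set_option linter.unusedSectionVars false
set_option linter.style.haveILetI false

open Matrix
open Pool.Agent.Y142.ZO Pool.Agent.Y379.ZI

namespace Pool.Agent.R932

/-- a maximal family of inequivalent elements -/
theorem cover_of_bound {α : Type} (R : α → α → Prop) (hsymm : ∀ x y, R x y → R y x)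
    (S : Set α) (C : ℕ)
    (h : ∀ T : Finset α, (∀ x ∈ T, x ∈ S) → (∀ x ∈ T, ∀ y ∈ T, x ≠ y → ¬ R x y) → T.card ≤ C)
    (hrefl : ∀ x, R x x) :
    ∃ T : Finset α, (∀ x ∈ T, x ∈ S) ∧ T.card ≤ C ∧ ∀ a ∈ S, ∃ x ∈ T, R x a := by
  classical
  by_contra hcon
  push Not at hcon
  have key : ∀ n : ℕ, n ≤ C + 1 → ∃ T : Finset α, (∀ x ∈ T, x ∈ S) ∧
      (∀ x ∈ T, ∀ y ∈ T, x ≠ y → ¬ R x y) ∧ T.card = n := by
    intro n
    induction n with
    | zero => intro _; exact ⟨∅, by simp, by simp, rfl⟩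
    | succ n ih =>
      intro hn
      obtain ⟨T, hTS, hT, hc⟩ := ih (by omega)
      obtain ⟨a, haS, ha⟩ := hcon T hTS (by omega)
      have haT : a ∉ T := fun h => ha a h (hrefl a)
      refine ⟨insert a T, ?_, ?_, ?_⟩
      · intro x hx
        rcases Finset.mem_insert.1 hx with h | h
        · exact h ▸ haS
        · exact hTS x h
      · intro x hx y hy hxy
        rcases Finset.mem_insert.1 hx with h | h
        · rcases Finset.mem_insert.1 hy with h' | h'
          · exact absurd (h.trans h'.symm) hxy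
          · subst h
            exact fun hR => ha y h' (hsymm _ _ hR)
        · rcases Finset.mem_insert.1 hy with h' | h'
          · subst h'
            exact ha x h
          · exact hT x h y h' hxy
      · rw [Finset.card_insert_of_notMem haT, hc]
  obtain ⟨T, hTS, hT, hc⟩ := key (C + 1) le_rfl
  have := h T hTS hT
  omega

/-- the bound for the index -/
def cI (N : ℕ) : ℕ := 2 ^ N * ∑ d ∈ Finset.range (N * N + 1), cb N d

/-- how large `ℓ` has to be -/
def eI (N : ℕ) : ℕ := 2 * N + ∑ d ∈ Finset.range (N * N + 1), eb N d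

section
variable {ℓ : ℕ} [hp : Fact ℓ.Prime] {N : ℕ} {G : Type} [Group G]

theorem skew_in_logSpan {β : G →* Matrix (Fin N) (Fin N) ℤ_[ℓ]} (hN2 : 2 ≤ N) (hN : 2 * N ≤ ℓ)
    {B : Matrix (Fin N) (Fin N) ℤ_[ℓ]} (hB : Bᵀ = B) (hdet : (redM ℓ B).det ≠ 0)
    (hiso : ∀ g, (β g)ᵀ * B * β g = B) (hirr : IrrMod ℓ (jbound N) β)
    {τ : G} {Q : Polynomial (ZMod ℓ)}
    (hQ : (redM ℓ (β τ)).charpoly = (Polynomial.X - 1) * Q)
    (hcop : IsCoprime Q (Polynomial.X ^ (jbound N).factorial - 1))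
    (hroot : ∀ x y z : AlgebraicClosure (ZMod ℓ), Polynomial.aeval x Q = 0 →
      Polynomial.aeval y Q = 0 → Polynomial.aeval z Q = 0 → x * y ≠ z)
    {Z : Matrix (Fin N) (Fin N) (ZMod ℓ)} (hZ : Skew (redM ℓ B) Z) : Z ∈ logSpan (redHom β) := by
  have h2 : (2 : ZMod ℓ) ≠ 0 := by
    have h3 : ((2 : ℕ) : ZMod ℓ) ≠ 0 := by
      intro h
      rw [ZMod.natCast_eq_zero_iff] at h
      have := Nat.le_of_dvd (by norm_num) h
      omega
    exact_mod_cast h3
  have hQ1 : Q.eval 1 ≠ 0 := by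
    obtain ⟨a, b, hab⟩ := hcop
    have h3 := congrArg (Polynomial.eval 1) hab
    simp only [one_pow, Polynomial.eval_pow, Polynomial.eval_add, Polynomial.eval_mul,
      Polynomial.eval_sub, Polynomial.eval_X, Polynomial.eval_one, sub_self, mul_zero,
      add_zero] at h3
    exact right_ne_zero_of_mul (h3 ▸ one_ne_zero)
  obtain ⟨e, ⟨-, he, -⟩, hee⟩ := line_two (redM ℓ B) (redM ℓ (β τ)) Q hdet
    (redM_isom ℓ (hiso τ)) hQ hQ1
  have hfix : redM ℓ (β τ) *ᵥ e = e := by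
    rw [sub_mulVec, one_mulVec, sub_eq_zero] at he
    exact he
  have hB' : (redM ℓ B)ᵀ = redM ℓ B := by
    have h7 : redM ℓ Bᵀ = (redM ℓ B)ᵀ := rfl
    rw [← h7, hB]
  have hNJ : N ≤ jbound N := by
    unfold jbound
    calc N ≤ 2 * (N * N) := by nlinarith
      _ ≤ 5 ^ (2 * (N * N)) := (Nat.lt_pow_self (by norm_num)).le
  exact so_of_unip (r := redHom β) hB' hdet h2 (fun g => redM_isom ℓ (hiso g)) hN
    (fun U hU0 hUN W hW => hirr U W hU0 (hUN.trans hNJ) hW)
    (exists_unip hN2 β hirr hQ hcop) (τ := τ) hfix hee hQ hroot hZ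

theorem isom_det {B A : Matrix (Fin N) (Fin N) ℤ_[ℓ]} (hdet : B.det ≠ 0)
    (hA : Aᵀ * B * A = B) : IsUnit A.det := by
  have h1 := congrArg Matrix.det hA
  rw [det_mul, det_mul, det_transpose] at h1
  have h2 : A.det * A.det = 1 := by
    apply mul_right_cancel₀ hdet
    rw [one_mul]
    linear_combination h1
  exact IsUnit.of_mul_eq_one _ h2

/-- **the image has bounded index in the integral orthogonal group** -/
theorem index_bound {β : G →* Matrix (Fin N) (Fin N) ℤ_[ℓ]} (hN2 : 2 ≤ N) (hℓ : eI N ≤ ℓ)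
    {B : Matrix (Fin N) (Fin N) ℤ_[ℓ]} (hB : Bᵀ = B) (hdet : (redM ℓ B).det ≠ 0)
    (hiso : ∀ g, (β g)ᵀ * B * β g = B) (hcl : IsClosed (Set.range β))
    (hirr : IrrMod ℓ (jbound N) β) {τ : G} {Q : Polynomial (ZMod ℓ)}
    (hQ : (redM ℓ (β τ)).charpoly = (Polynomial.X - 1) * Q)
    (hcop : IsCoprime Q (Polynomial.X ^ (jbound N).factorial - 1))
    (hroot : ∀ x y z : AlgebraicClosure (ZMod ℓ), Polynomial.aeval x Q = 0 →
      Polynomial.aeval y Q = 0 → Polynomial.aeval z Q = 0 → x * y ≠ z) :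
    ∃ T : Finset (Matrix (Fin N) (Fin N) ℤ_[ℓ]), (∀ x ∈ T, xᵀ * B * x = B) ∧ T.card ≤ cI N ∧
      ∀ A : Matrix (Fin N) (Fin N) ℤ_[ℓ], Aᵀ * B * A = B → ∃ x ∈ T, ∃ g, A = x * β g := by
  classical
  have hN : 2 * N ≤ ℓ := le_trans (by unfold eI; omega) hℓ
  have hℓ2 : ℓ ≠ 2 := by omega
  have h2 : (2 : ZMod ℓ) ≠ 0 := by
    have h3 : ((2 : ℕ) : ZMod ℓ) ≠ 0 := by
      intro h
      rw [ZMod.natCast_eq_zero_iff] at h
      have := Nat.le_of_dvd (by norm_num) h
      omega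
    exact_mod_cast h3
  have hdet0 : B.det ≠ 0 := by
    intro h
    rw [redM_det, h, map_zero] at hdet
    exact hdet rfl
  have hB' : (redM ℓ B)ᵀ = redM ℓ B := by
    have h7 : redM ℓ Bᵀ = (redM ℓ B)ᵀ := rfl
    rw [← h7, hB]
  have hlog : ∀ Z, Skew (redM ℓ B) Z → Z ∈ logSpan (redHom β) := fun Z hZ =>
    skew_in_logSpan hN2 hN hB hdet hiso hirr hQ hcop hroot hZ
  have hker : ∀ A : Matrix (Fin N) (Fin N) ℤ_[ℓ], Aᵀ * B * A = B → Cg 1 (A - 1) → ∃ g, β g = A :=
    fun A hA hA1 => mem_range_of_cg hℓ2 hB hiso (fun Z hZ => GR_of_logSpan hN (hlog Z hZ)) hcl hA hA1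
  -- the number of elements of the image modulo `ℓ`
  set r := redHom β with hr
  have hspan : logSpan r = SkewS (redM ℓ B) := by
    apply le_antisymm
    · unfold logSpan
      rw [Submodule.span_le]
      rintro _ ⟨g, hg, rfl⟩
      exact log_skew hB' (redM_isom ℓ (hiso g)) hg hN
    · exact fun Z hZ => hlog Z hZ
  set d := Module.finrank (ZMod ℓ) (SkewS (redM ℓ B)) with hd
  have hd' : Module.finrank (ZMod ℓ) (Submodule.span (ZMod ℓ)
      {L | ∃ g, (r g) ^ ℓ = 1 ∧ L = logM (r g)}) = d := by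
    rw [hd, ← hspan]
    rfl
  have hfam : ∃ f : Fin d → Matrix (Fin N) (Fin N) (ZMod ℓ),
      (∀ i, f i ∈ {L | ∃ g, (r g) ^ ℓ = 1 ∧ L = logM (r g)}) ∧
      LinearIndependent (ZMod ℓ) f := by
    obtain ⟨f, hf, -, hli⟩ := Submodule.exists_fun_fin_finrank_span_eq (ZMod ℓ)
      {L | ∃ g, (r g) ^ ℓ = 1 ∧ L = logM (r g)}
    exact hd' ▸ ⟨f, hf, hli⟩
  obtain ⟨f, hf, hli⟩ := hfam
  choose g hg hgl using hf
  have hli' : LinearIndependent (ZMod ℓ) fun i => logM (r (g i)) := by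
    have : f = fun i => logM (r (g i)) := funext hgl
    rwa [this] at hli
  have hdN : d ≤ N * N := by
    have := Submodule.finrank_le (SkewS (redM ℓ B))
    rwa [Module.finrank_matrix, Module.finrank_self, mul_one, Fintype.card_fin] at this
  have hed : eb N d ≤ ℓ := by
    have h3 : eb N d ≤ ∑ d ∈ Finset.range (N * N + 1), eb N d :=
      Finset.single_le_sum (f := fun d => eb N d) (fun _ _ => Nat.zero_le _)
        (Finset.mem_range.2 (by omega))
    unfold eI at hℓ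
    omega
  have hcd : 2 ^ N * cb N d ≤ cI N := by
    have h3 : cb N d ≤ ∑ d ∈ Finset.range (N * N + 1), cb N d :=
      Finset.single_le_sum (f := fun d => cb N d) (fun _ _ => Nat.zero_le _)
        (Finset.mem_range.2 (by omega))
    unfold cI
    exact Nat.mul_le_mul_left _ h3
  have hlow := card_range_ge r g hg hli' (by omega) (by omega) hed
  have hup := card_isom_le h2 hB' hdet
  rw [ZMod.card, ← hd] at hup
  haveI : Nonempty (Set.range r) := ⟨⟨r 1, 1, rfl⟩⟩
  have hpos : 0 < Nat.card (Set.range r) := Nat.card_pos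
  obtain ⟨T, hT1, hT2, hT3⟩ := cover_of_bound
    (fun x y : Matrix (Fin N) (Fin N) ℤ_[ℓ] => ∃ g, y = x * β g)
    (by
      rintro x y ⟨g, rfl⟩
      exact ⟨g⁻¹, by rw [mul_assoc, ← map_mul, mul_inv_cancel, map_one, mul_one]⟩)
    {A | Aᵀ * B * A = B} (cI N) (by
      intro T hTS hT
      have hinj : Function.Injective (fun x : T × Set.range r =>
          (⟨redM ℓ x.1.1 * x.2.1, by
            obtain ⟨g, hg⟩ := x.2.2
            have e1 : (redM ℓ x.1.1)ᵀ * redM ℓ B * redM ℓ x.1.1 = redM ℓ B :=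
              redM_isom ℓ (hTS x.1.1 x.1.2)
            have e2 : (redM ℓ (β g))ᵀ * redM ℓ B * redM ℓ (β g) = redM ℓ B := redM_isom ℓ (hiso g)
            have e3 : x.2.1 = redM ℓ (β g) := hg.symm
            show (redM ℓ x.1.1 * x.2.1)ᵀ * redM ℓ B * (redM ℓ x.1.1 * x.2.1) = redM ℓ B
            rw [e3, transpose_mul]
            calc (redM ℓ (β g))ᵀ * (redM ℓ x.1.1)ᵀ * redM ℓ B * (redM ℓ x.1.1 * redM ℓ (β g))
                = (redM ℓ (β g))ᵀ * ((redM ℓ x.1.1)ᵀ * redM ℓ B * redM ℓ x.1.1) *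
                  redM ℓ (β g) := by simp only [mul_assoc]
              _ = redM ℓ B := by rw [e1, e2]⟩ :
            {h : Matrix (Fin N) (Fin N) (ZMod ℓ) // Isom (redM ℓ B) h})) := by
        rintro ⟨⟨A, hA⟩, ⟨_, ⟨g, rfl⟩⟩⟩ ⟨⟨A', hA'⟩, ⟨_, ⟨g', rfl⟩⟩⟩ h
        have h3 : redM ℓ A * redM ℓ (β g) = redM ℓ A' * redM ℓ (β g') := congrArg Subtype.val h
        have hAi : Aᵀ * B * A = B := hTS A hA
        have hA'i : A'ᵀ * B * A' = B := hTS A' hA'
        have hu := isom_det hdet0 hAi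
        have hAA : A⁻¹ * A = 1 := nonsing_inv_mul _ hu
        have hAA' : A * A⁻¹ = 1 := mul_nonsing_inv _ hu
        have hinv : A⁻¹ᵀ * B * A⁻¹ = B := by
          have h4 : A⁻¹ᵀ * Aᵀ = 1 := by rw [← transpose_mul, hAA', transpose_one]
          calc A⁻¹ᵀ * B * A⁻¹ = A⁻¹ᵀ * (Aᵀ * B * A) * A⁻¹ := by rw [hAi]
            _ = (A⁻¹ᵀ * Aᵀ) * B * (A * A⁻¹) := by simp only [mul_assoc]
            _ = B := by rw [h4, hAA', one_mul, mul_one]
        have hM : (A⁻¹ * A' * β (g' * g⁻¹))ᵀ * B * (A⁻¹ * A' * β (g' * g⁻¹)) = B := by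
          rw [transpose_mul, transpose_mul]
          calc (β (g' * g⁻¹))ᵀ * (A'ᵀ * A⁻¹ᵀ) * B * (A⁻¹ * A' * β (g' * g⁻¹))
              = (β (g' * g⁻¹))ᵀ * (A'ᵀ * (A⁻¹ᵀ * B * A⁻¹) * A') * β (g' * g⁻¹) := by
                simp only [mul_assoc]
            _ = B := by rw [hinv, hA'i, hiso]
        have hM1 : Cg 1 (A⁻¹ * A' * β (g' * g⁻¹) - 1) := by
          have e1 : redM ℓ A⁻¹ * redM ℓ A = 1 := by rw [← redM_mul, hAA, redM_one]
          have e2 : redM ℓ (β g) * redM ℓ (β g⁻¹) = 1 := by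
            rw [← redM_mul, ← map_mul, mul_inv_cancel, map_one, redM_one]
          rw [← redM_eq_iff, redM_one, redM_mul, redM_mul, map_mul, redM_mul]
          calc redM ℓ A⁻¹ * redM ℓ A' * (redM ℓ (β g') * redM ℓ (β g⁻¹))
              = redM ℓ A⁻¹ * (redM ℓ A' * redM ℓ (β g')) * redM ℓ (β g⁻¹) := by
                simp only [mul_assoc]
            _ = (redM ℓ A⁻¹ * redM ℓ A) * (redM ℓ (β g) * redM ℓ (β g⁻¹)) := by
                rw [← h3]; simp only [mul_assoc]
            _ = 1 := by rw [e1, e2, one_mul]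
        obtain ⟨k, hk⟩ := hker _ hM hM1
        have hAeq : A = A' := by
          by_contra hne
          apply hT A hA A' hA' hne
          refine ⟨k * (g * g'⁻¹), ?_⟩
          have e3 : β (g' * g⁻¹) * β (g * g'⁻¹) = 1 := by
            rw [← map_mul, show g' * g⁻¹ * (g * g'⁻¹) = 1 by group, map_one]
          calc A' = (A * A⁻¹) * A' * (β (g' * g⁻¹) * β (g * g'⁻¹)) := by
                rw [hAA', e3, one_mul, mul_one]
            _ = A * ((A⁻¹ * A' * β (g' * g⁻¹)) * β (g * g'⁻¹)) := by simp only [mul_assoc]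
            _ = A * β (k * (g * g'⁻¹)) := by rw [← hk, ← map_mul]
        subst hAeq
        have e1 : redM ℓ A⁻¹ * redM ℓ A = 1 := by rw [← redM_mul, hAA, redM_one]
        have e4 : r g = r g' := by
          show redM ℓ (β g) = redM ℓ (β g')
          calc redM ℓ (β g) = redM ℓ A⁻¹ * (redM ℓ A * redM ℓ (β g)) := by
                rw [← mul_assoc, e1, one_mul]
            _ = redM ℓ (β g') := by rw [h3, ← mul_assoc, e1, one_mul]
        apply Prod.ext
        · rfl
        · exact Subtype.ext e4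
      have h3 := Nat.card_le_card_of_injective _ hinj
      rw [Nat.card_prod, Nat.card_eq_fintype_card, Fintype.card_coe] at h3
      have h4 : T.card * Nat.card (Set.range r) ≤ (2 ^ N * cb N d) * Nat.card (Set.range r) := by
        calc T.card * Nat.card (Set.range r) ≤ 2 ^ N * ℓ ^ d := h3.trans hup
          _ ≤ 2 ^ N * (cb N d * Nat.card (Set.range r)) := Nat.mul_le_mul_left _ hlow
          _ = (2 ^ N * cb N d) * Nat.card (Set.range r) := by ring
      exact (Nat.le_of_mul_le_mul_right h4 hpos).trans hcd)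
    (fun x => ⟨1, by rw [map_one, mul_one]⟩)
  exact ⟨T, hT1, hT2, fun A hA => hT3 A hA⟩

end

end Pool.Agent.R932
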