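import Mathlib
import Pool.Agent.R932.MtIndMain
import Pool.Agent.R932.MtEven

/-!
# Sums with motives of abelian type at a set of primes of density one
-/

set_option autoImplicit false
set_option linter.unusedSectionVars false

open Matrix Polynomial Filter Topology NumberField IsDedekindDomain
open Pool.Agent.Y142.ZO Pool.Agent.Y142.ZI
open Pool.Agent.Y142.ZS (NiceP)
open Pool.Agent.Y142.SS Pool.Agent.Y142.SI
open Pool.Agent.Y95.MT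
open Pool.Agent.W544.PG (HS BD)

namespace Pool.Agent.R932

theorem density_bounded {A : Set ℕ} {b : ℕ} (hA : ∀ ℓ ∈ A, ℓ ≤ b) : Y142.ZI.DensityZero A := by
  have h1 : Tendsto (fun n : ℕ => ((b + 1 : ℕ) : ℝ) / (Nat.primeCounting n : ℝ)) atTop (𝓝 0) := by
    refine Tendsto.div_atTop tendsto_const_nhds ?_
    exact tendsto_natCast_atTop_atTop.comp Nat.tendsto_primeCounting
  refine squeeze_zero (fun n => by positivity) (fun n => ?_) h1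
  apply div_le_div_of_nonneg_right _ (Nat.cast_nonneg _)
  have h2 : Nat.card {ℓ : ℕ // ℓ ≤ n ∧ ℓ ∈ A} ≤ Nat.card (Fin (b + 1)) :=
    Nat.card_le_card_of_injective (fun x => (⟨x.1, Nat.lt_succ_of_le (hA _ x.2.2)⟩ : Fin (b + 1)))
      (fun x y h => by
        apply Subtype.ext
        exact congrArg (fun z : Fin (b + 1) => z.1) h)
  rw [Nat.card_fin] at h2
  exact_mod_cast h2

/-- independence of the roots of rational polynomials -/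
theorem ind_of_complex {ℓ : ℕ} [Fact ℓ.Prime] {κ : Type} [Fintype κ] [DecidableEq κ] {n : ℕ}
    {R P : ℚ[X]} {x : ℂˣ} (hx : aeval (x : ℂ) P = 0)
    (hm : ∀ m : ℕ, 0 < m → x ^ m ∉ Subgroup.closure {y : ℂˣ | aeval (y : ℂ) R = 0})
    {A : Matrix κ κ ℚ_[ℓ]} (hA : A.charpoly = R.map (algebraMap ℚ ℚ_[ℓ]))
    {B : Matrix (Fin n) (Fin n) ℚ_[ℓ]} (hB : B.charpoly = P.map (algebraMap ℚ ℚ_[ℓ])) :
    Ind (A.map (algebraMap ℚ_[ℓ] (AlgebraicClosure ℚ_[ℓ])))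
      (B.map (algebraMap ℚ_[ℓ] (AlgebraicClosure ℚ_[ℓ]))) ⊤ := by
  obtain ⟨e⟩ := exists_emb ℓ
  obtain ⟨j, hj⟩ : ∃ j, j = algebraMap ℚ_[ℓ] (AlgebraicClosure ℚ_[ℓ]) := ⟨_, rfl⟩
  rw [← hj]
  have hch : ∀ (ι : Type) [Fintype ι] [DecidableEq ι] (M : Matrix ι ι ℚ_[ℓ]) (F : ℚ[X]),
      M.charpoly = F.map (algebraMap ℚ ℚ_[ℓ]) →
      (M.map j).charpoly = F.map (algebraMap ℚ (AlgebraicClosure ℚ_[ℓ])) := by
    intro ι _ _ M F hM
    rw [Matrix.charpoly_map, hM, Polynomial.map_map]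
    congr 1
    exact Subsingleton.elim _ _
  have hev : ∀ (F : ℚ[X]) (y : AlgebraicClosure ℚ_[ℓ]),
      aeval (e y) F = e (aeval y F) := by
    intro F y
    have h1 : (e.toRatAlgHom) y = e y := rfl
    rw [← h1, Polynomial.aeval_algHom_apply]
    rfl
  -- the root
  have hP0 : P.map (algebraMap ℚ (AlgebraicClosure ℚ_[ℓ])) ≠ 0 := by
    rw [← hch _ B P hB]
    exact (Matrix.charpoly_monic _).ne_zero
  obtain ⟨x', hx'P, hx'⟩ : ∃ x', (P.map (algebraMap ℚ (AlgebraicClosure ℚ_[ℓ]))).IsRoot x' ∧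
      e x' = x := by
    have h1 : (x : ℂ) ∈ ((P.map (algebraMap ℚ (AlgebraicClosure ℚ_[ℓ]))).map e).roots := by
      rw [Polynomial.mem_roots (Polynomial.map_ne_zero hP0), Polynomial.IsRoot.def,
        Polynomial.map_map, Polynomial.eval_map]
      have h2 : e.comp (algebraMap ℚ (AlgebraicClosure ℚ_[ℓ])) = algebraMap ℚ ℂ :=
        Subsingleton.elim _ _
      rw [h2]
      exact hx
    rw [(IsAlgClosed.splits _).roots_map e, Multiset.mem_map] at h1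
    obtain ⟨z, hz, hzx⟩ := h1
    exact ⟨z, (Polynomial.mem_roots hP0).1 hz, hzx⟩
  have hx0 : x' ≠ 0 := by
    rintro rfl
    rw [map_zero] at hx'
    exact x.ne_zero hx'.symm
  obtain ⟨f, hf⟩ : ∃ f : Module.End (AlgebraicClosure ℚ_[ℓ]) (Fin n → AlgebraicClosure ℚ_[ℓ]),
      f = Matrix.toLin' (B.map j) := ⟨_, rfl⟩
  have heig : f.HasEigenvalue x' := by
    rw [Module.End.hasEigenvalue_iff_isRoot_charpoly, hf, Matrix.charpoly_toLin', hch _ B P hB]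
    exact hx'P
  obtain ⟨w, hw⟩ := heig.exists_hasEigenvector
  refine ⟨Units.mk0 x' hx0, ⟨w, Submodule.mem_top, hw.2, ?_⟩, fun m hm' hmem => ?_⟩
  · have h1 := hw.apply_eq_smul
    rw [hf, Matrix.toLin'_apply] at h1
    rw [Units.val_mk0]
    exact h1
  · refine hm m hm' ?_
    have h2 : (Units.map e.toMonoidHom) ((Units.mk0 x' hx0) ^ m) ∈
        Subgroup.map (Units.map e.toMonoidHom)
          (Subgroup.closure {y : (AlgebraicClosure ℚ_[ℓ])ˣ |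
            (A.map j).charpoly.IsRoot (y : AlgebraicClosure ℚ_[ℓ])}) := ⟨_, hmem, rfl⟩
    rw [MonoidHom.map_closure, map_pow] at h2
    have h3 : (Units.map e.toMonoidHom) (Units.mk0 x' hx0) = x := by
      ext
      rw [Units.coe_map, Units.val_mk0]
      exact hx'
    rw [h3] at h2
    refine Subgroup.closure_mono ?_ h2
    rintro _ ⟨y, hy, rfl⟩
    show aeval ((Units.map e.toMonoidHom y : ℂˣ) : ℂ) R = 0
    have h4 : ((Units.map e.toMonoidHom y : ℂˣ) : ℂ) = e y := rfl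
    have hy' : (A.map j).charpoly.IsRoot (y : AlgebraicClosure ℚ_[ℓ]) := hy
    rw [hch _ A R hA, Polynomial.IsRoot.def, Polynomial.eval_map] at hy'
    rw [h4, hev]
    have h5 : aeval (y : AlgebraicClosure ℚ_[ℓ]) R = 0 := hy'
    rw [h5, map_zero]

theorem mtcT_of_tot {ℓ : ℕ} [Fact ℓ.Prime] {n : ℕ} {Γ : Type} [Group Γ] {T : HS n}
    {β : Γ →* Matrix (Fin n) (Fin n) ℤ_[ℓ]}
    (h : MTC (hM (fun _ => (1 : Matrix (Fin 0) (Fin 0) ℂ)) T)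
      (tot (1 : Γ →* Matrix (Fin 0) (Fin 0) ℚ_[ℓ]) β)) : MTC (hT T) (qrep β) := by
  have h1 := (MTC_reindex (eps n)).2 h
  have h2 : rrep (eps n) (tot (1 : Γ →* Matrix (Fin 0) (Fin 0) ℚ_[ℓ]) β) = qrep β := by
    refine MonoidHom.ext fun s => ?_
    show Matrix.reindex (eps n) (eps n) (tot (1 : Γ →* Matrix (Fin 0) (Fin 0) ℚ_[ℓ]) β s) =
      qm (β s)
    rw [tot_apply, reindex_fb]
  have h3 : (fun z => Matrix.reindex (eps n) (eps n)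
      (hM (fun _ => (1 : Matrix (Fin 0) (Fin 0) ℂ)) T z)) = hT T := by
    funext z
    unfold hM
    rw [reindex_fb]
  rwa [h2, h3] at h1

section

variable {K : Type} [Field K] [NumberField K] {n : ℕ} {S : Set (HeightOneSpectrum (𝓞 K))}
  {P : HeightOneSpectrum (𝓞 K) → ℚ[X]} {Γ : Type} [Group Γ] [TopologicalSpace Γ]
  [IsTopologicalGroup Γ] [CompactSpace Γ] {s : GK K →* Γ} {T : HS n}

theorem density_sum {κ : Type} [Fintype κ] [DecidableEq κ] {p q : Fin 1 → ℕ}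
    (hB : T.Big (one1 n) p q) (hp2 : ∀ i, 2 ≤ p i) (V : RHS κ)
    (hShim : ∀ y ∈ lieMT V.h,
      V.X * (V.X * (V.X * y - y * V.X) - (V.X * y - y * V.X) * V.X) -
        (V.X * (V.X * y - y * V.X) - (V.X * y - y * V.X) * V.X) * V.X =
        (4 : ℂ) • (V.X * y - y * V.X))
    (α : ∀ (ℓ : ℕ) [Fact ℓ.Prime], Γ →* Matrix κ κ ℚ_[ℓ])
    (β : ∀ (ℓ : ℕ) [Fact ℓ.Prime], Γ →* Matrix (Fin n) (Fin n) ℤ_[ℓ])
    (hβ : ∀ (ℓ : ℕ) [Fact ℓ.Prime], RepT s T S P ℓ (β ℓ))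
    (hTd : Y142.ZI.DensityZero {ℓ | ∃ _ : Fact ℓ.Prime,
      ¬ MTC (hM (fun _ => (1 : Matrix (Fin 0) (Fin 0) ℂ)) T)
        (tot (1 : Γ →* Matrix (Fin 0) (Fin 0) ℚ_[ℓ]) (β ℓ))})
    {v₂ : HeightOneSpectrum (𝓞 K)} (hv₂ : v₂ ∉ S) {R : ℚ[X]}
    (hα : ∀ (ℓ : ℕ) [Fact ℓ.Prime], (ℓ : 𝓞 K) ∉ v₂.asIdeal → ∀ σ : GK K, IsFrobenius v₂ σ →
      (α ℓ (s σ⁻¹)).charpoly = R.map (algebraMap ℚ ℚ_[ℓ]))
    {x : ℂˣ} (hx : aeval (x : ℂ) (P v₂) = 0)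
    (hm : ∀ m : ℕ, 0 < m → x ^ m ∉ Subgroup.closure {y : ℂˣ | aeval (y : ℂ) R = 0}) :
    Y142.ZI.DensityZero {ℓ | ∃ _ : Fact ℓ.Prime,
      ¬ (MTC (hM V.h T) (tot (α ℓ) (β ℓ)) ↔ MTC V.h (α ℓ))} := by
  refine Y142.ZI.DensityZero.mono (hTd.union (density_bounded
    (A := {ℓ | ℓ ≤ Ideal.absNorm v₂.asIdeal}) fun ℓ h => h)) ?_
  rintro ℓ ⟨hp, hno⟩
  by_contra hcon
  rw [Set.mem_union, not_or] at hcon
  obtain ⟨h1, h2⟩ := hcon
  have hlt : Ideal.absNorm v₂.asIdeal < ℓ := not_le.1 h2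
  have h3 : MTC (hM (fun _ => (1 : Matrix (Fin 0) (Fin 0) ℂ)) T)
      (tot (1 : Γ →* Matrix (Fin 0) (Fin 0) ℚ_[ℓ]) (β ℓ)) := by
    by_contra h4
    exact h1 ⟨hp, h4⟩
  have h4 : MTC (hT T) (qrep (β ℓ)) := mtcT_of_tot h3
  have hvℓ := not_mem_of_lt v₂ hp.out hlt
  obtain ⟨σ, hσ⟩ := Pool.Agent.W401.Frob.exists_frob v₂
  have hbd : ∀ {R : Type} [Zero R] (A : Matrix (Fin n) (Fin n) R), BD (one1 n) A :=
    fun A a b hab => absurd rfl hab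
  apply hno
  rw [main_ind hB hp2 V hShim ⟨(hβ ℓ).form, fun s => hbd _⟩ fun i => ⟨s σ⁻¹, ?_⟩]
  · exact ⟨fun h => h.1, fun h => ⟨h, h4⟩⟩
  · have h5 := ind_of_complex hx hm (hα ℓ hvℓ σ hσ) ((hβ ℓ).frob v₂ hv₂ hvℓ σ hσ)
    obtain ⟨x', ⟨w, -, hw0, hw⟩, hx'⟩ := h5
    exact ⟨x', ⟨w, fun a ha => absurd (Subsingleton.elim _ _) ha, hw0, hw⟩, hx'⟩

end

end Pool.Agent.R932
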