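import Pool.Agent.R932.ProdC
import Pool.Agent.R932.SumDens

/-!
# Products at a set of primes of density one
-/

set_option autoImplicit false
set_option linter.unusedSectionVars false

open Matrix Polynomial Filter Topology NumberField IsDedekindDomain
open Pool.Agent.Y142.ZO Pool.Agent.Y142.ZI
open Pool.Agent.Y142.ZS (NiceP GenP Sim)
open Pool.Agent.Y142.SS Pool.Agent.Y142.SI Pool.Agent.Y142.SU
open Pool.Agent.Y95.MT

namespace Pool.Agent.R932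

theorem ind_prod {ℓ : ℕ} [Fact ℓ.Prime] {L N : ℕ} {R P : ℚ[X]} {q : ℚ} {x : ℂˣ}
    (hx : aeval (x : ℂ) P = 0)
    (hm : ∀ m : ℕ, 0 < m →
      x ^ m ∉ Subgroup.closure {y : ℂˣ | aeval (y : ℂ) R = 0 ∨ (y : ℂ) = (q : ℂ)})
    {A : Matrix (Fin L) (Fin L) ℚ_[ℓ]} (hA : A.charpoly ∣ R.map (algebraMap ℚ ℚ_[ℓ]))
    {B : Matrix (Fin N) (Fin N) ℚ_[ℓ]} (hB : B.charpoly = P.map (algebraMap ℚ ℚ_[ℓ])) :
    ∃ x' : (AlgebraicClosure ℚ_[ℓ])ˣ,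
      ((B.map (algebraMap ℚ_[ℓ] (AlgebraicClosure ℚ_[ℓ]))).charpoly.IsRoot x') ∧
      ∀ m : ℕ, 0 < m → x' ^ m ∉ Subgroup.closure
      ({y : (AlgebraicClosure ℚ_[ℓ])ˣ |
        (A.map (algebraMap ℚ_[ℓ] (AlgebraicClosure ℚ_[ℓ]))).charpoly.IsRoot y} ∪
        {y : (AlgebraicClosure ℚ_[ℓ])ˣ |
          (y : AlgebraicClosure ℚ_[ℓ]) = algebraMap ℚ_[ℓ] _ (q : ℚ_[ℓ])}) := by
  obtain ⟨e⟩ := exists_emb ℓ
  obtain ⟨j, hj⟩ : ∃ j, j = algebraMap ℚ_[ℓ] (AlgebraicClosure ℚ_[ℓ]) := ⟨_, rfl⟩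
  rw [← hj]
  have hch : ∀ (F : ℚ[X]), (F.map (algebraMap ℚ ℚ_[ℓ])).map j =
      F.map (algebraMap ℚ (AlgebraicClosure ℚ_[ℓ])) := by
    intro F
    rw [Polynomial.map_map]
    congr 1
    exact Subsingleton.elim _ _
  have hev : ∀ (F : ℚ[X]) (y : AlgebraicClosure ℚ_[ℓ]),
      aeval (e y) F = e (aeval y F) := by
    intro F y
    have h1 : (e.toRatAlgHom) y = e y := rfl
    rw [← h1, Polynomial.aeval_algHom_apply]
    rfl
  -- the root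
  have hP0 : P.map (algebraMap ℚ (AlgebraicClosure ℚ_[ℓ])) ≠ 0 := by
    rw [← hch, ← hB, ← Matrix.charpoly_map]
    exact (Matrix.charpoly_monic _).ne_zero
  obtain ⟨x', hx'P, hx'⟩ : ∃ x', (P.map (algebraMap ℚ (AlgebraicClosure ℚ_[ℓ]))).IsRoot x' ∧
      e x' = x := by
    have h1 : (x : ℂ) ∈ ((P.map (algebraMap ℚ (AlgebraicClosure ℚ_[ℓ]))).map e).roots := by
      rw [Polynomial.mem_roots (Polynomial.map_ne_zero hP0), Polynomial.IsRoot.def,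
        Polynomial.map_map, Polynomial.eval_map]
      have h2 : e.comp (algebraMap ℚ (AlgebraicClosure ℚ_[ℓ])) = algebraMap ℚ ℂ :=
        Subsingleton.elim _ _
      rw [h2]
      exact hx
    rw [(IsAlgClosed.splits _).roots_map e, Multiset.mem_map] at h1
    obtain ⟨z, hz, hzx⟩ := h1
    exact ⟨z, (Polynomial.mem_roots hP0).1 hz, hzx⟩
  have hx0 : x' ≠ 0 := by
    rintro rfl
    rw [map_zero] at hx'
    exact x.ne_zero hx'.symm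
  refine ⟨Units.mk0 x' hx0, ?_, fun m hm' hmem => ?_⟩
  · rw [Matrix.charpoly_map, hB, hch, Units.val_mk0]
    exact hx'P
  · refine hm m hm' ?_
    have h2 : (Units.map e.toMonoidHom) ((Units.mk0 x' hx0) ^ m) ∈
        Subgroup.map (Units.map e.toMonoidHom)
          (Subgroup.closure ({y : (AlgebraicClosure ℚ_[ℓ])ˣ | (A.map j).charpoly.IsRoot y} ∪
            {y : (AlgebraicClosure ℚ_[ℓ])ˣ |
              (y : AlgebraicClosure ℚ_[ℓ]) = j (q : ℚ_[ℓ])})) := ⟨_, hmem, rfl⟩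
    rw [MonoidHom.map_closure, map_pow] at h2
    have h3 : (Units.map e.toMonoidHom) (Units.mk0 x' hx0) = x := by
      ext
      rw [Units.coe_map, Units.val_mk0]
      exact hx'
    rw [h3] at h2
    refine Subgroup.closure_mono ?_ h2
    rintro _ ⟨y, hy, rfl⟩
    have h4 : ((Units.map e.toMonoidHom y : ℂˣ) : ℂ) = e y := rfl
    rcases hy with hy | hy
    · left
      show aeval ((Units.map e.toMonoidHom y : ℂˣ) : ℂ) R = 0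
      have hy' : (A.map j).charpoly.IsRoot (y : AlgebraicClosure ℚ_[ℓ]) := hy
      rw [Matrix.charpoly_map] at hy'
      have h5 := hy'.dvd (Polynomial.map_dvd j hA)
      rw [hch, Polynomial.IsRoot.def, Polynomial.eval_map] at h5
      rw [h4, hev]
      have h6 : aeval (y : AlgebraicClosure ℚ_[ℓ]) R = 0 := h5
      rw [h6, map_zero]
    · right
      have hy' : (y : AlgebraicClosure ℚ_[ℓ]) = j (q : ℚ_[ℓ]) := hy
      rw [h4, hy']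
      simp

section general

variable {ℓ : ℕ} [Fact ℓ.Prime] {N L k : ℕ} {Γ : Type} [Group Γ]
  [TopologicalSpace Γ] [IsTopologicalGroup Γ] [CompactSpace Γ]

theorem tangent_restrict {ρ : Γ →* Matrix (Fin N) (Fin N) ℚ_[ℓ]} (hρ : Continuous ρ)
    {U : Subgroup Γ} (hU : IsOpen (U : Set Γ)) {X : Matrix (Fin N) (Fin N) ℚ_[ℓ]}
    (hX : IsTangent ℓ ρ X) : IsTangent ℓ (ρ.comp U.subtype) X := by
  classical
  obtain ⟨σ, hσ⟩ := hX
  have h2 := eventually_mem hρ hU (tendsto_one hσ)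
  refine ⟨fun n => if h : ∃ u ∈ U, ρ u = ρ (σ n) then ⟨h.choose, h.choose_spec.1⟩ else 1, ?_⟩
  refine hσ.congr' ?_
  filter_upwards [h2] with n hn
  rw [dif_pos hn]
  show _ = ((ℓ : ℚ_[ℓ]) ^ n)⁻¹ • (ρ hn.choose - 1)
  rw [hn.choose_spec.2]

theorem sim_unique {J g : Matrix (Fin N) (Fin N) ℚ_[ℓ]} (hN : 0 < N) (hdet : J.det ≠ 0)
    {c c' : ℚ_[ℓ]} (h : Sim J g c) (h' : Sim J g c') : c = c' := by
  have h1 : (c - c') • J = 0 := by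
    rw [sub_smul, ← h, ← h', sub_self]
  rcases smul_eq_zero.1 h1 with h2 | h2
  · exact sub_eq_zero.1 h2
  · exfalso
    have : Nonempty (Fin N) := ⟨⟨0, hN⟩⟩
    apply hdet
    rw [h2, Matrix.det_zero]

theorem root_pow {K : Type} [Field K] {n : ℕ} {B : Matrix (Fin n) (Fin n) K} {x : K}
    (hx : B.charpoly.IsRoot x) (f : ℕ) : (B ^ f).charpoly.IsRoot (x ^ f) := by
  obtain ⟨w, hw0, hw⟩ : ∃ w : Fin n → K, w ≠ 0 ∧ B *ᵥ w = x • w := by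
    have h4 : (Matrix.scalar (Fin n) x - B).det = 0 := by
      rw [← Matrix.eval_charpoly]
      exact hx
    obtain ⟨w, hw0, hw⟩ := Matrix.exists_mulVec_eq_zero_iff.2 h4
    refine ⟨w, hw0, ?_⟩
    rw [Matrix.sub_mulVec, sub_eq_zero] at hw
    rw [← hw]
    funext i
    simp [Matrix.scalar_apply, Matrix.mulVec_diagonal]
  have h1 : (B ^ f) *ᵥ w = x ^ f • w := by
    induction f with
    | zero => rw [pow_zero, pow_zero, Matrix.one_mulVec, one_smul]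
    | succ f ih =>
      rw [pow_succ, pow_succ, ← Matrix.mulVec_mulVec, hw, Matrix.mulVec_smul, ih, smul_smul,
        mul_comm]
  rw [Polynomial.IsRoot.def, Matrix.eval_charpoly]
  refine Matrix.exists_mulVec_eq_zero_iff.1 ⟨w, hw0, ?_⟩
  rw [Matrix.sub_mulVec, h1, sub_eq_zero]
  funext i
  simp [Matrix.scalar_apply, Matrix.mulVec_diagonal]

/-- products with an arbitrary representation of an open subgroup, if a first fundamental theorem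
holds -/
theorem prod_general' {ρ : Γ →* Matrix (Fin N) (Fin N) ℚ_[ℓ]} (hρ : Continuous ρ)
    {J : Matrix (Fin N) (Fin N) ℚ_[ℓ]} (hJ : (Jᵀ = J ∧ 5 ≤ N) ∨ Jᵀ = -J) (hdet : J.det ≠ 0)
    (htan : ∀ X, Xᵀ * J + J * X = 0 → IsTangent ℓ ρ X)
    (hc : ∀ σ, ∃ c : ℚ_[ℓ], Sim J (ρ σ) c)
    {U₀ : Subgroup Γ} (hU₀ : IsOpen (U₀ : Set Γ)) {W : U₀ →* Matrix (Fin L) (Fin L) ℚ_[ℓ]}
    {γ : Γ} {f : ℕ} (hf : γ ^ f ∈ U₀) (hf0 : 0 < f) {P R : ℚ[X]} {q : ℚ}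
    (hP : (ρ γ).charpoly = P.map (algebraMap ℚ ℚ_[ℓ])) (hq : Sim J (ρ γ) (q : ℚ_[ℓ]))
    (hR : (W ⟨γ ^ f, hf⟩).charpoly ∣ R.map (algebraMap ℚ ℚ_[ℓ]))
    {x : ℂˣ} (hx : aeval (x : ℂ) P = 0)
    (hm : ∀ m : ℕ, 0 < m →
      x ^ m ∉ Subgroup.closure {y : ℂˣ | aeval (y : ℂ) R = 0 ∨ (y : ℂ) = (q : ℂ)})
    {U : Subgroup U₀} (hU : IsOpen (U : Set U₀))
    (hfft : ∀ φ : MultilinearMap ℚ_[ℓ] (fun _ : Fin k => Fin N → ℚ_[ℓ]) ℚ_[ℓ],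
      (∀ X, Xᵀ * J + J * X = 0 → ∀ v : Fin k → Fin N → ℚ_[ℓ],
        ∑ j, φ (Function.update v j (X *ᵥ v j)) = 0) →
      (fun v => φ v) ∈ Submodule.span ℚ_[ℓ] (prs J k))
    {φ : MultilinearMap ℚ_[ℓ] (fun _ : Fin k => Fin N → ℚ_[ℓ]) (Fin L → ℚ_[ℓ])}
    (hφ : ∀ σ ∈ U, ∀ v, φ (fun j => ρ σ *ᵥ v j) = W σ *ᵥ φ v) :
    (fun v => φ v) ∈ Submodule.span ℚ_[ℓ] {ψ : (Fin k → Fin N → ℚ_[ℓ]) → (Fin L → ℚ_[ℓ]) |
      ∃ (π : Equiv.Perm (Fin k)) (w : Fin L → ℚ_[ℓ]), (∀ j, π (π j) = j) ∧ (∀ j, π j ≠ j) ∧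
        (∀ σ ∈ U, ∀ c : ℚ_[ℓ], Sim J (ρ σ) c → W σ *ᵥ w = c ^ (k / 2) • w) ∧
        ∀ v, ψ v = (∏ j with j < π j, (v j ⬝ᵥ J *ᵥ v (π j))) • w} := by
  obtain ⟨x', hx', hind⟩ := ind_prod hx hm hR hP
  have hN : 0 < N := by
    rcases Nat.eq_zero_or_pos N with h0 | h0
    · exfalso
      subst h0
      rw [Polynomial.IsRoot.def, Matrix.eval_charpoly, Matrix.det_fin_zero] at hx'
      exact one_ne_zero hx'
    · exact h0
  choose c hc using hc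
  have hcomp : CompactSpace U₀ := isCompact_iff_compactSpace.1
    ((U₀.isClosed_of_isOpen hU₀).isCompact)
  have hcq : c (γ ^ f) = (q : ℚ_[ℓ]) ^ f := by
    refine sim_unique hN hdet (hc _) ?_
    rw [map_pow]
    have h1 : ∀ f : ℕ, Sim J ((ρ γ) ^ f) ((q : ℚ_[ℓ]) ^ f) := by
      intro f
      induction f with
      | zero =>
        show ((ρ γ) ^ 0)ᵀ * J * (ρ γ) ^ 0 = (q : ℚ_[ℓ]) ^ 0 • J
        rw [pow_zero, pow_zero, Matrix.transpose_one, one_mul, mul_one, one_smul]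
      | succ m ih =>
        show ((ρ γ) ^ (m + 1))ᵀ * J * (ρ γ) ^ (m + 1) = (q : ℚ_[ℓ]) ^ (m + 1) • J
        have h1 : ((ρ γ) ^ (m + 1))ᵀ * J * (ρ γ) ^ (m + 1) =
            (ρ γ)ᵀ * (((ρ γ) ^ m)ᵀ * J * (ρ γ) ^ m) * ρ γ := by
          rw [pow_succ, Matrix.transpose_mul]
          noncomm_ring
        have h2 : ((ρ γ) ^ m)ᵀ * J * (ρ γ) ^ m = (q : ℚ_[ℓ]) ^ m • J := ih
        have h3 : (ρ γ)ᵀ * J * ρ γ = (q : ℚ_[ℓ]) • J := hq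
        rw [h1, h2, mul_smul_comm, smul_mul_assoc, h3, smul_smul, pow_succ]
    exact h1 f
  have hmain := prod_core' (ρ := ρ.comp U₀.subtype) (W := W) (γ := ⟨γ ^ f, hf⟩)
    (c := fun σ => c σ) (x := x' ^ f) (U := U) (φ := φ) (hρ.comp continuous_subtype_val) hJ hdet
    (fun X hX => tangent_restrict hρ hU₀ (htan X hX)) (fun σ => hc σ) ?_ ?_ hU hfft hφ
  · refine Submodule.span_mono ?_ hmain
    rintro ψ ⟨π, w, h1, h2, h3, h4⟩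
    refine ⟨π, w, h1, h2, fun σ hσ c' hc' => ?_, h4⟩
    rw [sim_unique hN hdet hc' (hc σ)]
    exact h3 σ hσ
  · have h1 := root_pow hx' f
    have h2 : ((ρ γ).map (algebraMap ℚ_[ℓ] (AlgebraicClosure ℚ_[ℓ]))) ^ f =
        (ρ (γ ^ f)).map (algebraMap ℚ_[ℓ] (AlgebraicClosure ℚ_[ℓ])) := by
      rw [map_pow]
      exact ((RingHom.mapMatrix (algebraMap ℚ_[ℓ] (AlgebraicClosure ℚ_[ℓ]))).map_pow (ρ γ) f).symm
    rw [h2] at h1
    rw [Units.val_pow_eq_pow_val]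
    exact h1
  · intro m hm' hmem
    refine hind (f * m) (Nat.mul_pos hf0 hm') ?_
    rw [pow_mul]
    refine (Subgroup.closure_le _).2 ?_ hmem
    rintro y (hy | hy)
    · exact Subgroup.subset_closure (Or.inl hy)
    · have hy' : (y : AlgebraicClosure ℚ_[ℓ]) = algebraMap ℚ_[ℓ] _ (c (γ ^ f)) := hy
      rw [hcq, map_pow] at hy'
      have hq0 : algebraMap ℚ_[ℓ] (AlgebraicClosure ℚ_[ℓ]) (q : ℚ_[ℓ]) ≠ 0 := by
        intro h0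
        rw [h0, zero_pow hf0.ne'] at hy'
        exact y.ne_zero hy'
      have h5 : y = (Units.mk0 _ hq0) ^ f := by
        ext
        rw [hy', Units.val_pow_eq_pow_val, Units.val_mk0]
      rw [h5]
      refine pow_mem (Subgroup.subset_closure ?_) f
      right
      show ((Units.mk0 _ hq0 : (AlgebraicClosure ℚ_[ℓ])ˣ) : AlgebraicClosure ℚ_[ℓ]) = _
      rw [Units.val_mk0]

/-- **Products with an arbitrary representation of an open subgroup.** -/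
theorem prod_general {ρ : Γ →* Matrix (Fin N) (Fin N) ℚ_[ℓ]} (hρ : Continuous ρ)
    {J : Matrix (Fin N) (Fin N) ℚ_[ℓ]} (hJ : (Jᵀ = J ∧ 5 ≤ N) ∨ Jᵀ = -J) (hdet : J.det ≠ 0)
    (htan : ∀ X, Xᵀ * J + J * X = 0 → IsTangent ℓ ρ X)
    (hc : ∀ σ, ∃ c : ℚ_[ℓ], Sim J (ρ σ) c)
    {U₀ : Subgroup Γ} (hU₀ : IsOpen (U₀ : Set Γ)) {W : U₀ →* Matrix (Fin L) (Fin L) ℚ_[ℓ]}
    {γ : Γ} {f : ℕ} (hf : γ ^ f ∈ U₀) (hf0 : 0 < f) {P R : ℚ[X]} {q : ℚ}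
    (hP : (ρ γ).charpoly = P.map (algebraMap ℚ ℚ_[ℓ])) (hq : Sim J (ρ γ) (q : ℚ_[ℓ]))
    (hR : (W ⟨γ ^ f, hf⟩).charpoly ∣ R.map (algebraMap ℚ ℚ_[ℓ]))
    {x : ℂˣ} (hx : aeval (x : ℂ) P = 0)
    (hm : ∀ m : ℕ, 0 < m →
      x ^ m ∉ Subgroup.closure {y : ℂˣ | aeval (y : ℂ) R = 0 ∨ (y : ℂ) = (q : ℂ)})
    {U : Subgroup U₀} (hU : IsOpen (U : Set U₀)) (hk : k < N ∨ Jᵀ = -J)
    {φ : MultilinearMap ℚ_[ℓ] (fun _ : Fin k => Fin N → ℚ_[ℓ]) (Fin L → ℚ_[ℓ])}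
    (hφ : ∀ σ ∈ U, ∀ v, φ (fun j => ρ σ *ᵥ v j) = W σ *ᵥ φ v) :
    (fun v => φ v) ∈ Submodule.span ℚ_[ℓ] {ψ : (Fin k → Fin N → ℚ_[ℓ]) → (Fin L → ℚ_[ℓ]) |
      ∃ (π : Equiv.Perm (Fin k)) (w : Fin L → ℚ_[ℓ]), (∀ j, π (π j) = j) ∧ (∀ j, π j ≠ j) ∧
        (∀ σ ∈ U, ∀ c : ℚ_[ℓ], Sim J (ρ σ) c → W σ *ᵥ w = c ^ (k / 2) • w) ∧
        ∀ v, ψ v = (∏ j with j < π j, (v j ⬝ᵥ J *ᵥ v (π j))) • w} := by
  have hN : 0 < N := by
    obtain ⟨x', hx', -⟩ := ind_prod hx hm hR hP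
    rcases Nat.eq_zero_or_pos N with h0 | h0
    · exfalso
      subst h0
      rw [Polynomial.IsRoot.def, Matrix.eval_charpoly, Matrix.det_fin_zero] at hx'
      exact one_ne_zero hx'
    · exact h0
  exact prod_general' hρ hJ hdet htan hc hU₀ hf hf0 hP hq hR hx hm hU
    (fun φ hφ => fft (hJ.imp (fun h => h.1) id) hdet hN hk φ hφ) hφ

end general

end Pool.Agent.R932
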