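import Pool.Agent.R932.IdlSo
import Pool.Agent.Y142.ZS.Stm

/-!
# The operators which annihilate an equivariant multilinear map
-/

set_option autoImplicit false
set_option linter.unusedSectionVars false

namespace Pool.Agent.R932

open Matrix Filter Topology Pool.Agent.Y177.SU
open Pool.Agent.Y142.ZO (IsTangent)
open Pool.Agent.Y142.ZS (Sim)

noncomputable section

section alg

variable {F : Type} [Field F] {N L k : ℕ}

/-- the operators which annihilate `φ` -/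
def annS (φ : MultilinearMap F (fun _ : Fin k => Fin N → F) (Fin L → F)) :
    Submodule F (Matrix (Fin N) (Fin N) F) where
  carrier := {A | ∀ v, ∑ l, φ (Function.update v l (A *ᵥ v l)) = 0}
  zero_mem' := by
    intro v
    refine Finset.sum_eq_zero fun l _ => φ.map_coord_zero l ?_
    rw [Function.update_self, Matrix.zero_mulVec]
  add_mem' := by
    intro A B hA hB v
    have h1 : ∀ l, φ (Function.update v l ((A + B) *ᵥ v l)) =
        φ (Function.update v l (A *ᵥ v l)) + φ (Function.update v l (B *ᵥ v l)) := by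
      intro l
      rw [Matrix.add_mulVec, φ.map_update_add]
    rw [Finset.sum_congr rfl fun l _ => h1 l, Finset.sum_add_distrib, hA v, hB v, add_zero]
  smul_mem' := by
    intro c A hA v
    have h1 : ∀ l, φ (Function.update v l ((c • A) *ᵥ v l)) =
        c • φ (Function.update v l (A *ᵥ v l)) := by
      intro l
      rw [Matrix.smul_mulVec, φ.map_update_smul]
    rw [Finset.sum_congr rfl fun l _ => h1 l, ← Finset.smul_sum, hA v, smul_zero]

theorem mem_annS {φ : MultilinearMap F (fun _ : Fin k => Fin N → F) (Fin L → F)}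
    {A : Matrix (Fin N) (Fin N) F} :
    A ∈ annS φ ↔ ∀ v, ∑ l, φ (Function.update v l (A *ᵥ v l)) = 0 := Iff.rfl

theorem annS_conj {φ : MultilinearMap F (fun _ : Fin k => Fin N → F) (Fin L → F)}
    {g g' : Matrix (Fin N) (Fin N) F} {h : Matrix (Fin L) (Fin L) F} (hgg : g * g' = 1)
    (hφ : ∀ v, φ (fun j => g *ᵥ v j) = h *ᵥ φ v) {A : Matrix (Fin N) (Fin N) F}
    (hA : A ∈ annS φ) : g * A * g' ∈ annS φ := by
  intro v
  have h1 : ∀ l, φ (Function.update v l ((g * A * g') *ᵥ v l)) =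
      h *ᵥ φ (Function.update (fun j => g' *ᵥ v j) l (A *ᵥ (g' *ᵥ v l))) := by
    intro l
    rw [← hφ]
    congr 1
    funext j
    by_cases hj : j = l
    · subst hj
      rw [Function.update_self, Function.update_self, Matrix.mulVec_mulVec, Matrix.mulVec_mulVec,
        mul_assoc]
    · rw [Function.update_of_ne hj, Function.update_of_ne hj, Matrix.mulVec_mulVec, hgg,
        Matrix.one_mulVec]
  rw [Finset.sum_congr rfl fun l _ => h1 l, ← Matrix.mulVec_sum, hA fun j => g' *ᵥ v j,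
    Matrix.mulVec_zero]

end alg

section top

variable {ℓ : ℕ} [Fact ℓ.Prime] {N L k : ℕ} {Γ : Type} [Group Γ]
  [TopologicalSpace Γ] [IsTopologicalGroup Γ] [CompactSpace Γ]

theorem annS_lie {ρ : Γ →* Matrix (Fin N) (Fin N) ℚ_[ℓ]} (hρ : Continuous ρ)
    {W : Γ →* Matrix (Fin L) (Fin L) ℚ_[ℓ]} {U : Subgroup Γ} (hU : IsOpen (U : Set Γ))
    {φ : MultilinearMap ℚ_[ℓ] (fun _ : Fin k => Fin N → ℚ_[ℓ]) (Fin L → ℚ_[ℓ])}
    (hφ : ∀ σ ∈ U, ∀ v, φ (fun j => ρ σ *ᵥ v j) = W σ *ᵥ φ v)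
    {X : Matrix (Fin N) (Fin N) ℚ_[ℓ]} (hX : IsTangent ℓ ρ X)
    {A : Matrix (Fin N) (Fin N) ℚ_[ℓ]} (hA : A ∈ annS φ) : X * A - A * X ∈ annS φ := by
  obtain ⟨σ, hσ⟩ := hX
  have h1 := tendsto_one hσ
  have h2 := eventually_mem hρ hU h1
  have hclosed : IsClosed ((annS φ : Submodule ℚ_[ℓ] (Matrix (Fin N) (Fin N) ℚ_[ℓ])) :
      Set (Matrix (Fin N) (Fin N) ℚ_[ℓ])) := Submodule.closed_of_finiteDimensional _
  have h3 : Tendsto (fun n : ℕ => (((ℓ : ℚ_[ℓ]) ^ n)⁻¹ • (ρ (σ n) - 1)) * A -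
      A * (((ℓ : ℚ_[ℓ]) ^ n)⁻¹ • (ρ (σ n) - 1))) atTop (𝓝 (X * A - A * X)) :=
    (hσ.mul_const A).sub (hσ.const_mul A)
  have h4 : Tendsto (fun n : ℕ => ρ (σ n)⁻¹) atTop (𝓝 1) := by
    refine (tendsto_inv h1).congr fun n => ?_
    refine Matrix.inv_eq_right_inv ?_
    rw [← map_mul, mul_inv_cancel, map_one]
  have h5 := h3.mul h4
  rw [mul_one] at h5
  refine hclosed.mem_of_tendsto h5 ?_
  filter_upwards [h2] with n hn
  obtain ⟨u, hu, hun⟩ := hn
  have hinv : ρ (σ n)⁻¹ = ρ u⁻¹ := by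
    have e1 : ρ (σ n)⁻¹ * ρ (σ n) = 1 := by rw [← map_mul, inv_mul_cancel, map_one]
    have e2 : ρ u * ρ u⁻¹ = 1 := by rw [← map_mul, mul_inv_cancel, map_one]
    calc ρ (σ n)⁻¹ = ρ (σ n)⁻¹ * (ρ u * ρ u⁻¹) := by rw [e2, mul_one]
      _ = ρ u⁻¹ := by rw [hun, ← mul_assoc, e1, one_mul]
  have hw : ρ u * A * ρ u⁻¹ ∈ annS φ :=
    annS_conj (h := W u) (by rw [← map_mul, mul_inv_cancel, map_one]) (hφ u hu) hA
  have heq : ((((ℓ : ℚ_[ℓ]) ^ n)⁻¹ • (ρ (σ n) - 1)) * A -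
      A * (((ℓ : ℚ_[ℓ]) ^ n)⁻¹ • (ρ (σ n) - 1))) * ρ (σ n)⁻¹ =
      ((ℓ : ℚ_[ℓ]) ^ n)⁻¹ • (ρ u * A * ρ u⁻¹ - A) := by
    rw [hinv, ← hun, smul_mul_assoc, mul_smul_comm, ← smul_sub, smul_mul_assoc]
    congr 1
    have e2 : ρ u * ρ u⁻¹ = 1 := by rw [← map_mul, mul_inv_cancel, map_one]
    have e3 : ((ρ u - 1) * A - A * (ρ u - 1)) * ρ u⁻¹ =
        ρ u * A * ρ u⁻¹ - A * (ρ u * ρ u⁻¹) := by noncomm_ring
    rw [e3, e2, mul_one]
  rw [heq]
  exact Submodule.smul_mem _ _ (Submodule.sub_mem _ hw hA)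

end top

end

end Pool.Agent.R932
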