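import Pool.Agent.R932.ProdA

/-!
# The torus element
-/

set_option autoImplicit false
set_option linter.unusedSectionVars false

namespace Pool.Agent.R932

open Matrix Filter Topology Pool.Agent.Y177.SU
open Pool.Agent.Y142.ZO (IsTangent)
open Pool.Agent.Y142.ZS (Sim)

noncomputable section

section alg

variable {F Ω : Type} [Field F] [CharZero F] [Field Ω] [CharZero Ω] [IsAlgClosed Ω] [Algebra F Ω]
  {N L k : ℕ}

/-- an independent eigenvalue gives a nonzero skew operator which annihilates the multilinear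
maps which are equivariant under a power -/
theorem exists_skew (φ : MultilinearMap F (fun _ : Fin k => Fin N → F) (Fin L → F))
    {g : Matrix (Fin N) (Fin N) F} {h : Matrix (Fin L) (Fin L) F} (hg : g.det ≠ 0) (hh : h.det ≠ 0)
    {J : Matrix (Fin N) (Fin N) F} {c : F} (hc0 : c ≠ 0) (hc : Sim J g c) {m : ℕ} (hm : 0 < m)
    (hφ : ∀ v, φ (fun j => (g ^ m) *ᵥ v j) = (h ^ m) *ᵥ φ v)
    {x : Ωˣ} (hx : (up Ω g).charpoly.IsRoot x)
    (hind : ∀ m : ℕ, 0 < m → x ^ m ∉ Subgroup.closure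
      ({y : Ωˣ | (up Ω h).charpoly.IsRoot y} ∪ {y : Ωˣ | (y : Ω) = algebraMap F Ω c})) :
    ∃ A : Matrix (Fin N) (Fin N) F, A ∈ annS φ ∧ Aᵀ * J + J * A = 0 ∧ A ≠ 0 := by
  classical
  obtain ⟨θ, hθ, hθG, hθx⟩ := exists_k hind
  obtain ⟨P, hP⟩ := exists_crt θ N (up Ω g).charpoly.roots.toFinset
  have hdetup : ∀ {n : ℕ} (M : Matrix (Fin n) (Fin n) F), M.det ≠ 0 → (up Ω M).det ≠ 0 := by
    intro n M hM
    have h1 : (up Ω M).det = algebraMap F Ω M.det := by
      rw [RingHom.map_det]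
      rfl
    rw [h1]
    exact (map_ne_zero _).2 hM
  have hroot0 : ∀ {n : ℕ} (M : Matrix (Fin n) (Fin n) F), M.det ≠ 0 → ∀ z : Ω,
      (up Ω M).charpoly.IsRoot z → z ≠ 0 := by
    intro n M hM z hz h0
    rw [h0] at hz
    apply hdetup M hM
    rw [Matrix.det_eq_sign_charpoly_coeff, Polynomial.coeff_zero_eq_eval_zero]
    rw [Polynomial.IsRoot.def.1 hz, mul_zero]
  set A : Matrix (Fin N) (Fin N) Ω := Polynomial.aeval (up Ω g) P with hAdef
  have hA : ∀ y ∈ (up Ω g).charpoly.roots, ∀ t,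
      ((Matrix.toLin' (up Ω g) - y • 1) ^ N) t = 0 → A *ᵥ t = θ y • t := fun y hy t ht =>
    aeval_gen (hP y (Multiset.mem_toFinset.2 hy)) ht
  have hup : ∀ {n : ℕ} (M : Matrix (Fin n) (Fin n) F) (m : ℕ), up Ω (M ^ m) = (up Ω M) ^ m := by
    intro n M m
    induction m with
    | zero => rw [pow_zero, pow_zero, up_one]
    | succ m ih => rw [pow_succ, pow_succ, up_mul, ih]
  have hc' : Matrix.transpose (up Ω g) * up Ω J * up Ω g = algebraMap F Ω c • up Ω J := by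
    rw [← up_transpose, ← up_mul, ← up_mul, ← up_smul]
    exact congrArg (up Ω) hc
  have hcm : ∀ m : ℕ, Matrix.transpose (up Ω g ^ m) * up Ω J * up Ω g ^ m =
      (algebraMap F Ω c) ^ m • up Ω J := by
    intro m
    induction m with
    | zero => simp
    | succ m ih =>
      have h1 : Matrix.transpose (up Ω g ^ (m + 1)) * up Ω J * up Ω g ^ (m + 1) =
          Matrix.transpose (up Ω g) * (Matrix.transpose (up Ω g ^ m) * up Ω J * up Ω g ^ m) *
            up Ω g := by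
        rw [pow_succ, Matrix.transpose_mul]
        noncomm_ring
      rw [h1, ih, mul_smul_comm, smul_mul_assoc, hc', smul_smul, pow_succ]
  -- it annihilates the multilinear map
  have h1 : A ∈ annS (upw Ω φ) := by
    intro v
    refine ann_of_theta hm (upw Ω φ) (g := up Ω g) (h := up Ω h) ?_ hθ ?_ (hroot0 g hg) hA v
    · intro t
      rw [← hup, ← hup]
      exact upw_equiv hφ t
    · intro z hz
      have hz0 := hroot0 h hh z hz
      have h2 := hθG (Units.mk0 z hz0) (Subgroup.subset_closure (Or.inl hz))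
      rwa [Units.val_mk0] at h2
  -- it is skew
  have h2 : Aᵀ * up Ω J + up Ω J * A = 0 := by
    refine skew_of_jm fun v => ?_
    refine ann_of_theta hm (jm (up Ω J)) (g := up Ω g)
      (h := (algebraMap F Ω c) • (1 : Matrix (Fin 1) (Fin 1) Ω)) ?_ hθ ?_ (hroot0 g hg) hA v
    · intro t
      funext i
      rw [jm_apply, smul_pow, one_pow, Matrix.smul_mulVec, Matrix.one_mulVec, Pi.smul_apply,
        jm_apply, smul_eq_mul]
      have h3 : (up Ω g ^ m *ᵥ t 0) ⬝ᵥ up Ω J *ᵥ (up Ω g ^ m *ᵥ t 1) =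
          t 0 ⬝ᵥ (Matrix.transpose (up Ω g ^ m) * up Ω J * up Ω g ^ m) *ᵥ t 1 := by
        rw [← Matrix.mulVec_mulVec, ← Matrix.mulVec_mulVec, Matrix.dotProduct_mulVec (t 0),
          Matrix.vecMul_transpose]
      rw [h3, hcm, Matrix.smul_mulVec, dotProduct_smul, smul_eq_mul]
    · intro z hz
      have hz1 : z = algebraMap F Ω c := by
        rw [Matrix.charpoly, Matrix.det_fin_one, Matrix.charmatrix_apply_eq,
          Matrix.smul_apply, Matrix.one_apply_eq, smul_eq_mul, mul_one, Polynomial.IsRoot.def,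
          Polynomial.eval_sub, Polynomial.eval_X, Polynomial.eval_C, sub_eq_zero] at hz
        exact hz
      have hz0 : z ≠ 0 := by
        rw [hz1]
        exact (map_ne_zero _).2 hc0
      have h2 := hθG (Units.mk0 z hz0) (Subgroup.subset_closure (Or.inr hz1))
      rwa [Units.val_mk0] at h2
  -- it is not zero
  have h3 : A ≠ 0 := by
    intro hA0
    obtain ⟨w, hw0, hw⟩ : ∃ w : Fin N → Ω, w ≠ 0 ∧ up Ω g *ᵥ w = (x : Ω) • w := by
      have h4 : (Matrix.scalar (Fin N) (x : Ω) - up Ω g).det = 0 := by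
        rw [← Matrix.eval_charpoly]
        exact hx
      obtain ⟨w, hw0, hw⟩ := Matrix.exists_mulVec_eq_zero_iff.2 h4
      refine ⟨w, hw0, ?_⟩
      rw [Matrix.sub_mulVec, sub_eq_zero] at hw
      rw [← hw]
      funext i
      simp [Matrix.scalar_apply, Matrix.mulVec_diagonal]
    have hN : 0 < N := by
      rcases Nat.eq_zero_or_pos N with h0 | h0
      · exfalso
        apply hw0
        subst h0
        exact Subsingleton.elim _ _
      · exact h0
    have h4 : ((Matrix.toLin' (up Ω g) - (x : Ω) • 1) ^ N) w = 0 := by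
      obtain ⟨n, rfl⟩ := Nat.exists_eq_succ_of_ne_zero hN.ne'
      rw [pow_succ, Module.End.mul_apply, LinearMap.sub_apply, Matrix.toLin'_apply, hw,
        LinearMap.smul_apply, Module.End.one_apply, sub_self, map_zero]
    have h5 := hA x ((Polynomial.mem_roots (Matrix.charpoly_monic _).ne_zero).2 hx) w h4
    rw [hA0, Matrix.zero_mulVec, hθx, one_smul] at h5
    exact hw0 h5.symm
  obtain ⟨lm, hlm⟩ := exists_lam (K := F) h3
  exact ⟨A.map lm, fun v => ann_lam h1 lm v, skew_lam h2 lm, hlm⟩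

end alg

section top

variable {ℓ : ℕ} [Fact ℓ.Prime] {N L k : ℕ} {Γ : Type} [Group Γ]
  [TopologicalSpace Γ] [IsTopologicalGroup Γ] [CompactSpace Γ]

/-- **The Lie algebra of the form annihilates the equivariant multilinear maps.** -/
theorem all_skew {ρ : Γ →* Matrix (Fin N) (Fin N) ℚ_[ℓ]} (hρ : Continuous ρ)
    {J : Matrix (Fin N) (Fin N) ℚ_[ℓ]} (hJ : (Jᵀ = J ∧ 5 ≤ N) ∨ Jᵀ = -J) (hdet : J.det ≠ 0)
    (htan : ∀ X, Xᵀ * J + J * X = 0 → IsTangent ℓ ρ X)
    {W : Γ →* Matrix (Fin L) (Fin L) ℚ_[ℓ]} {γ : Γ} {c : ℚ_[ℓ]} (hc : Sim J (ρ γ) c)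
    {x : (AlgebraicClosure ℚ_[ℓ])ˣ} (hx : (up (AlgebraicClosure ℚ_[ℓ]) (ρ γ)).charpoly.IsRoot x)
    (hind : ∀ m : ℕ, 0 < m → x ^ m ∉ Subgroup.closure
      ({y : (AlgebraicClosure ℚ_[ℓ])ˣ | (up (AlgebraicClosure ℚ_[ℓ]) (W γ)).charpoly.IsRoot y} ∪
        {y : (AlgebraicClosure ℚ_[ℓ])ˣ | (y : AlgebraicClosure ℚ_[ℓ]) = algebraMap ℚ_[ℓ] _ c}))
    {U : Subgroup Γ} (hU : IsOpen (U : Set Γ))
    {φ : MultilinearMap ℚ_[ℓ] (fun _ : Fin k => Fin N → ℚ_[ℓ]) (Fin L → ℚ_[ℓ])}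
    (hφ : ∀ σ ∈ U, ∀ v, φ (fun j => ρ σ *ᵥ v j) = W σ *ᵥ φ v)
    {X : Matrix (Fin N) (Fin N) ℚ_[ℓ]} (hX : Xᵀ * J + J * X = 0) : X ∈ annS φ := by
  have hdetρ : ∀ {n : ℕ} (ρ : Γ →* Matrix (Fin n) (Fin n) ℚ_[ℓ]), (ρ γ).det ≠ 0 := by
    intro n ρ h0
    have h1 : ρ γ * ρ γ⁻¹ = 1 := by rw [← map_mul, mul_inv_cancel, map_one]
    have h2 := congrArg Matrix.det h1
    rw [Matrix.det_mul, h0, zero_mul, Matrix.det_one] at h2
    exact zero_ne_one h2
  have hN : 0 < N := by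
    rcases Nat.eq_zero_or_pos N with h0 | h0
    · exfalso
      subst h0
      rw [Polynomial.IsRoot.def, Matrix.eval_charpoly, Matrix.det_fin_zero] at hx
      exact one_ne_zero hx
    · exact h0
  have hc0 : c ≠ 0 := by
    rintro rfl
    have h1 := congrArg Matrix.det hc
    have : Nonempty (Fin N) := ⟨⟨0, hN⟩⟩
    rw [zero_smul, Matrix.det_mul, Matrix.det_mul, Matrix.det_transpose,
      Matrix.det_zero] at h1
    exact (mul_ne_zero (mul_ne_zero (hdetρ ρ) hdet) (hdetρ ρ)) h1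
  have hfq := U.quotient_finite_of_isOpen hU
  have hfin : U.FiniteIndex := U.finiteIndex_of_finite_quotient
  obtain ⟨m, hm, hmU⟩ : ∃ m : ℕ, 0 < m ∧ γ ^ m ∈ U := by
    obtain ⟨m, h1, -, h2⟩ := Subgroup.exists_pow_mem_of_index_ne_zero hfin.index_ne_zero γ
    exact ⟨m, h1, h2⟩
  obtain ⟨A, hA, hAs, hA0⟩ := exists_skew φ (hdetρ ρ) (hdetρ W) hc0 hc hm
    (fun v => by rw [← map_pow, ← map_pow]; exact hφ _ hmU v) hx hind
  rcases hJ with ⟨hJ, h5⟩ | hJ
  · exact so_ideal hJ hdet h5 (annS φ)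
      (fun X hX Z hZ => annS_lie hρ hU hφ (htan X hX) hZ) hA hAs hA0 hX
  · exact sp_ideal hJ hdet (annS φ)
      (fun X hX Z hZ => annS_lie hρ hU hφ (htan X hX) hZ) hA hAs hA0 hX

end top

end

end Pool.Agent.R932
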