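import Pool.Agent.R932.ProdD
import Pool.Agent.R932.FftOdd

/-!
# Products with motives of odd rank at a set of primes of density one
-/

set_option autoImplicit false
set_option linter.style.haveILetI false
set_option linter.unusedSectionVars false

open Matrix Polynomial Filter Topology NumberField IsDedekindDomain
open Pool.Agent.Y142.ZO Pool.Agent.Y142.ZI
open Pool.Agent.Y142.ZS (NiceP Sim)
open Pool.Agent.Y142.SS Pool.Agent.Y142.SI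

namespace Pool.Agent.R932

variable {K : Type} [Field K] [NumberField K] {N : ℕ} {S : Set (HeightOneSpectrum (𝓞 K))}
  {P : HeightOneSpectrum (𝓞 K) → ℚ[X]} {Γ : Type} [Group Γ] [TopologicalSpace Γ]
  [IsTopologicalGroup Γ] [CompactSpace Γ] {s : GK K →* Γ}

/-- tangent vectors at a set of primes of density one, odd rank -/
theorem tangent_odd (hN : Odd N) (hS : S.Finite)
    {v₀ v₁ : HeightOneSpectrum (𝓞 K)} {Q₀ Q₁ : ℚ[X]} (hv₀ : GoodPlace S P v₀ Q₀)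
    (h0 : ∀ x y z : ℂ, aeval x Q₀ = 0 → aeval y Q₀ = 0 → aeval z Q₀ = 0 → x * y ≠ z)
    (hv₁ : GoodPlace S P v₁ Q₁)
    (hsq : ¬ IsSquare (Q₀.eval 1 * Q₀.eval (-1) * (Q₁.eval 1 * Q₁.eval (-1))))
    (ρ : ∀ (ℓ : ℕ) [Fact ℓ.Prime], Γ →* Matrix (Fin N) (Fin N) ℚ_[ℓ])
    (B : ∀ (ℓ : ℕ) [Fact ℓ.Prime], Matrix (Fin N) (Fin N) ℚ_[ℓ])
    (hsys : ∀ (ℓ : ℕ) [Fact ℓ.Prime], Orthogonal K N ℓ ((ρ ℓ).comp s) (B ℓ) S P)
    {m : ℕ} (u : Fin (m + 1) → HeightOneSpectrum (𝓞 K)) (hu : ∀ i, NiceP S P (u i))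
    (hI : ∀ (g : GK ℚ) (d : ℕ), 2 ≤ d → (d = 2 ∨ d + 2 ≤ N) →
      ∃ v, NiceP S P v ∧ ∃ w ∈ NoSet d (P v), w⁻¹ * g ∈ Subgroup.closure (⋃ i, Fix (P (u i)))) :
    Y142.ZI.DensityZero {ℓ | ∃ _ : Fact ℓ.Prime,
      ¬ ∀ X : Matrix (Fin N) (Fin N) ℚ_[ℓ], Xᵀ * B ℓ + B ℓ * X = 0 → IsTangent ℓ (ρ ℓ) X} := by
  have hALG : Y142.ZO.S_ALG := Y142.ZO.alg_main
  have hISO : Y142.ZO.S_ISO := Y337.ZO.iso_t
  have hLINE : Y142.ZO.S_LINE := Y337.ZO.line_t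
  have hTAN : Y142.ZO.S_TAN := Y708.ZO.t
  have hLOG : Y142.ZO.S_LOG := Y497.ZO.log
  have hEXP : Y142.ZO.S_EXP := Y497.ZO.exp
  have hPOW : Y142.ZO.S_POW := Y497.ZO.pow
  have hSPEC : Y142.ZO.S_SPEC := Y96.ZO.t
  have hAPP : Y142.ZO.S_APP := Y815.ZO.t Y337.ZO.det_t Y337.ZO.qz_t hLOG
  have hFROB : Y142.ZO.S_FROB := Y405.ZO.t
  have hBAD : Y142.ZO.S_BAD := Y458.ZO.bad hISO hLINE
  have hVAL : Y142.ZO.S_VAL := Y405.ZO.t1
  have hDENS : Y142.ZO.S_DENS := Y394.ZO.t1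
  have hINF : Y142.ZO.S_INF := Y394.ZO.t2
  have hINT : Y142.ZI.S_INT := Y484.ZI.t1
  have hCHEB : Y142.ZI.S_CHEB := Y726.ZI.t1
  have hDENS2 : Y142.ZI.S_DENS2 := Y681.ZI.t hCHEB
  have hMULTI : Y142.ZI.S_MULTI := Y537.ZI.t
  have hLF : Y142.SS.S_LF := Y255.SS.t
  have hCF : Y142.SS.S_CF := Y297.SS.t hLF
  have hLOC : Y142.SS.S_LOC := Y708.SS.Loc.t hCF
  have hLOGR : Y142.SS.S_LOGR := Y936.SS.t
  have hKRS : Y142.SS.S_KRS := Y518.SS.t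
  have hCHARA : Y142.SS.S_CHARA := Y737.SS.Chara.t
  have hBADD : Y142.ZD.S_BADD := Y614.ZD.t
  have hSUB : Y142.ZD.S_SUB := Y100.ZD.t
  refine Y142.ZI.DensityZero.mono (density_odd hALG hISO hLINE hTAN hLOG hEXP hPOW hSPEC hAPP
    hFROB hBAD hVAL hDENS hINF hLOC hLOGR hKRS hCHARA hMULTI hINT hDENS2 hBADD hSUB hN hS hv₀ h0
    hv₁ hsq (fun ℓ _ => (ρ ℓ).comp s) B hsys u hu hI) ?_
  rintro ℓ ⟨hp, hno⟩
  refine ⟨hp, fun hfull => hno fun X hX => ?_⟩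
  obtain ⟨σ, hσ⟩ := hfull X ((skew_iff (hsys ℓ).2.1).2 hX)
  exact ⟨fun k => s (σ k), hσ⟩

theorem wedge_skew' {F : Type} [Field F] {B : Matrix (Fin N) (Fin N) F} (hB : Bᵀ = B)
    (a b : Fin N → F) : (wedge B a b)ᵀ * B + B * wedge B a b = 0 := by
  unfold wedge
  rw [Matrix.transpose_sub, Matrix.transpose_vecMulVec, Matrix.transpose_vecMulVec, sub_mul,
    mul_sub, Matrix.vecMulVec_mul, Matrix.vecMulVec_mul, Matrix.mul_vecMulVec,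
    Matrix.mul_vecMulVec]
  have h1 : ∀ v : Fin N → F, B *ᵥ v = v ᵥ* B := by
    intro v
    conv_lhs => rw [← hB, Matrix.mulVec_transpose]
  rw [h1, h1]
  abel

/-- the first fundamental theorem for the orthogonal Lie algebra: all even degrees and all degrees less
than `N`, `N` odd -/
theorem fft_so {ℓ : ℕ} [Fact ℓ.Prime] {k : ℕ} {B : Matrix (Fin N) (Fin N) ℚ_[ℓ]} (hN : Odd N)
    (hB : Bᵀ = B) (hdet : B.det ≠ 0) (hk : Even k ∨ k < N)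
    (φ : MultilinearMap ℚ_[ℓ] (fun _ : Fin k => Fin N → ℚ_[ℓ]) ℚ_[ℓ])
    (hφ : ∀ X, Xᵀ * B + B * X = 0 → ∀ v : Fin k → Fin N → ℚ_[ℓ],
      ∑ j, φ (Function.update v j (X *ᵥ v j)) = 0) :
    (fun v => φ v) ∈ Submodule.span ℚ_[ℓ] (prs B k) := by
  rcases hk with hk | hk
  · exact fft_odd hN hk B hB hdet φ fun a b v => hφ _ (wedge_skew' hB a b) v
  · exact fft (Or.inl hB) hdet hN.pos (Or.inl hk) φ hφ

end Pool.Agent.R932
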