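import Pool.Agent.R932.ProdD
import Pool.Agent.R932.ProdOdd
import Pool.Agent.R932.FftAll

/-!
# Equivariant multilinear maps in all degrees
-/

set_option autoImplicit false
set_option linter.unusedSectionVars false

open Matrix Polynomial Filter Topology NumberField IsDedekindDomain
open Pool.Agent.Y142.ZO Pool.Agent.Y142.ZI
open Pool.Agent.Y142.ZS (NiceP GenP Sim)
open Pool.Agent.Y142.SS Pool.Agent.Y142.SI Pool.Agent.Y142.SU

namespace Pool.Agent.R932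

section alg

variable {F : Type} [Field F] {N L k : ℕ}

/-- the coefficients are eigenvectors -/
theorem extract_fam {Γ : Type} {U : Set Γ} {ρ : Γ → Matrix (Fin N) (Fin N) F}
    {W : Γ → Matrix (Fin L) (Fin L) F} {ι : Type} (fam : ι → (Fin k → Fin N → F) → F)
    (χ : ι → Γ → F)
    (hχ : ∀ i, ∀ σ ∈ U, ∀ v, fam i (fun j => ρ σ *ᵥ v j) = χ i σ * fam i v)
    {φ : (Fin k → Fin N → F) → (Fin L → F)}
    (hφ : ∀ σ ∈ U, ∀ v, φ (fun j => ρ σ *ᵥ v j) = W σ *ᵥ φ v)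
    (hspan : ∀ i, (fun v => φ v i) ∈ Submodule.span F (Set.range fam)) :
    φ ∈ Submodule.span F {ψ : (Fin k → Fin N → F) → (Fin L → F) |
      ∃ (i : ι) (w : Fin L → F), (∀ σ ∈ U, W σ *ᵥ w = χ i σ • w) ∧ ∀ v, ψ v = fam i v • w} := by
  classical
  obtain ⟨b, hb, hbs, hli⟩ := exists_linearIndependent F (Set.range fam)
  rw [← hbs] at hspan
  have h1 : ∀ i, ∃ a : b →₀ F, Finsupp.linearCombination F
      (fun x : b => (x : (Fin k → Fin N → F) → F)) a = (fun v => φ v i) := by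
    intro i
    have h2 := hspan i
    rw [← Subtype.range_coe (s := b), Finsupp.mem_span_range_iff_exists_finsupp] at h2
    obtain ⟨a, ha⟩ := h2
    exact ⟨a, ha⟩
  choose a ha using h1
  choose idx hidx using fun x : b => hb x.2
  have hrel : ∀ σ ∈ U, ∀ f : b, W σ *ᵥ (fun i => a i f) = χ (idx f) σ • fun i => a i f := by
    intro σ hσ f
    funext i
    let a' : b →₀ F := Finsupp.onFinset (a i).support (fun x => χ (idx x) σ * a i x) (by
      intro x hx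
      rw [Finsupp.mem_support_iff]
      exact right_ne_zero_of_mul hx)
    have h2 : ∑ j, W σ i j • a j = a' := by
      apply hli
      rw [map_sum]
      have h3 : ∀ j, Finsupp.linearCombination F (fun x : b => (x : (Fin k → Fin N → F) → F))
          (W σ i j • a j) = W σ i j • fun v => φ v j := by
        intro j
        rw [map_smul]
        congr 1
        exact ha j
      rw [Finset.sum_congr rfl fun j _ => h3 j]
      have h4 : Finsupp.linearCombination F (fun x : b => (x : (Fin k → Fin N → F) → F)) a' =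
          fun v : Fin k → Fin N → F => φ (fun j => ρ σ *ᵥ v j) i := by
        have h5 : (fun v : Fin k → Fin N → F => φ (fun j => ρ σ *ᵥ v j) i) =
            fun v : Fin k → Fin N → F => (Finsupp.linearCombination F (fun x : b => (x : (Fin k → Fin N → F) → F))
              (a i)) (fun j => ρ σ *ᵥ v j) := by
          rw [ha i]
        rw [h5]
        funext v
        have h7 : Finsupp.linearCombination F (fun x : b => (x : (Fin k → Fin N → F) → F)) a' =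
            ∑ x ∈ (a i).support, (χ (idx x) σ * a i x) • (x : (Fin k → Fin N → F) → F) := by
          rw [Finsupp.linearCombination_apply]
          exact Finsupp.sum_of_support_subset a' Finsupp.support_onFinset_subset _
            (fun x _ => zero_smul _ _)
        rw [h7, Finsupp.linearCombination_apply, Finsupp.sum, Finset.sum_apply,
          Finset.sum_apply]
        refine Finset.sum_congr rfl fun x _ => ?_
        rw [Pi.smul_apply, Pi.smul_apply, smul_eq_mul, smul_eq_mul]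
        have h6 := hχ (idx x) σ hσ v
        rw [hidx x] at h6
        rw [h6]
        ring
      rw [h4]
      funext v
      rw [Finset.sum_apply]
      rw [hφ σ hσ v]
      rfl
    have h6 := DFunLike.congr_fun h2 f
    rw [Finsupp.finsetSum_apply] at h6
    rw [Pi.smul_apply, smul_eq_mul]
    exact h6
  have hsum : φ = ∑ f ∈ Finset.univ.biUnion fun i => (a i).support,
      fun v => (f : (Fin k → Fin N → F) → F) v • fun i => a i f := by
    funext v i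
    rw [Finset.sum_apply, Finset.sum_apply]
    have h2 := congrFun (ha i) v
    have h3 : Finsupp.linearCombination F (fun x : b => (x : (Fin k → Fin N → F) → F)) (a i) =
        ∑ f ∈ Finset.univ.biUnion fun i => (a i).support, a i f • (f : (Fin k → Fin N → F) → F) := by
      rw [Finsupp.linearCombination_apply]
      exact Finsupp.sum_of_support_subset (a i)
        (Finset.subset_biUnion_of_mem (fun i => (a i).support) (Finset.mem_univ i)) _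
        (fun x _ => zero_smul _ _)
    rw [← h2, h3, Finset.sum_apply]
    refine Finset.sum_congr rfl fun f _ => ?_
    rw [Pi.smul_apply, Pi.smul_apply, smul_eq_mul, smul_eq_mul, mul_comm]
  rw [hsum]
  refine Submodule.sum_mem _ fun f _ => Submodule.subset_span ?_
  exact ⟨idx f, fun i => a i f, fun σ hσ => hrel σ hσ f, fun v => by
    show f.1 v • _ = _
    rw [← hidx f]⟩

theorem dts_sim {B g : Matrix (Fin N) (Fin N) F} {c : F} (hc : Sim B g c) {m : ℕ}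
    (e : (Fin m × Fin 2) ⊕ Fin N ≃ Fin k) (v : Fin k → Fin N → F) :
    (Matrix.of fun i => g *ᵥ v (e (Sum.inr i))).det *
      ∏ l, ((g *ᵥ v (e (Sum.inl (l, 0)))) ⬝ᵥ B *ᵥ (g *ᵥ v (e (Sum.inl (l, 1))))) =
      (g.det * c ^ m) * ((Matrix.of fun i => v (e (Sum.inr i))).det *
        ∏ l, (v (e (Sum.inl (l, 0))) ⬝ᵥ B *ᵥ v (e (Sum.inl (l, 1))))) := by
  have h4 : ∀ a b : Fin N → F, (g *ᵥ a) ⬝ᵥ B *ᵥ (g *ᵥ b) = c * (a ⬝ᵥ B *ᵥ b) := by
    intro a b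
    have h5 : (g *ᵥ a) ⬝ᵥ B *ᵥ (g *ᵥ b) = a ⬝ᵥ (gᵀ * B * g) *ᵥ b := by
      rw [← Matrix.mulVec_mulVec, ← Matrix.mulVec_mulVec, Matrix.dotProduct_mulVec a,
        Matrix.vecMul_transpose]
    rw [h5, hc, Matrix.smul_mulVec, dotProduct_smul, smul_eq_mul]
  have h6 : (Matrix.of fun i => g *ᵥ v (e (Sum.inr i))) =
      (Matrix.of fun i => v (e (Sum.inr i))) * gᵀ := by
    ext a b
    rw [Matrix.of_apply, Matrix.mulVec, Matrix.mul_apply, dotProduct]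
    exact Finset.sum_congr rfl fun j _ => mul_comm _ _
  rw [h6, Matrix.det_mul, Matrix.det_transpose, Finset.prod_congr rfl fun l _ => h4 _ _,
    Finset.prod_mul_distrib, Finset.prod_const, Finset.card_univ, Fintype.card_fin]
  ring

end alg

section general

variable {ℓ : ℕ} [Fact ℓ.Prime] {N L k : ℕ} {Γ : Type} [Group Γ]
  [TopologicalSpace Γ] [IsTopologicalGroup Γ] [CompactSpace Γ]

/-- the Lie algebra annihilates the equivariant multilinear maps -/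
theorem skew_general {ρ : Γ →* Matrix (Fin N) (Fin N) ℚ_[ℓ]} (hρ : Continuous ρ)
    {J : Matrix (Fin N) (Fin N) ℚ_[ℓ]} (hJ : (Jᵀ = J ∧ 5 ≤ N) ∨ Jᵀ = -J) (hdet : J.det ≠ 0)
    (htan : ∀ X, Xᵀ * J + J * X = 0 → IsTangent ℓ ρ X)
    {U₀ : Subgroup Γ} (hU₀ : IsOpen (U₀ : Set Γ)) {W : U₀ →* Matrix (Fin L) (Fin L) ℚ_[ℓ]}
    {γ : Γ} {f : ℕ} (hf : γ ^ f ∈ U₀) (hf0 : 0 < f) {P R : ℚ[X]} {q : ℚ}
    (hP : (ρ γ).charpoly = P.map (algebraMap ℚ ℚ_[ℓ])) (hq : Sim J (ρ γ) (q : ℚ_[ℓ]))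
    (hR : (W ⟨γ ^ f, hf⟩).charpoly ∣ R.map (algebraMap ℚ ℚ_[ℓ]))
    {x : ℂˣ} (hx : aeval (x : ℂ) P = 0)
    (hm : ∀ m : ℕ, 0 < m →
      x ^ m ∉ Subgroup.closure {y : ℂˣ | aeval (y : ℂ) R = 0 ∨ (y : ℂ) = (q : ℂ)})
    {U : Subgroup U₀} (hU : IsOpen (U : Set U₀))
    {φ : MultilinearMap ℚ_[ℓ] (fun _ : Fin k => Fin N → ℚ_[ℓ]) (Fin L → ℚ_[ℓ])}
    (hφ : ∀ σ ∈ U, ∀ v, φ (fun j => ρ σ *ᵥ v j) = W σ *ᵥ φ v)
    {X : Matrix (Fin N) (Fin N) ℚ_[ℓ]} (hX : Xᵀ * J + J * X = 0) (v : Fin k → Fin N → ℚ_[ℓ]) :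
    ∑ j, φ (Function.update v j (X *ᵥ v j)) = 0 := by
  obtain ⟨x', hx', hind⟩ := ind_prod hx hm hR hP
  have hcomp : CompactSpace U₀ := isCompact_iff_compactSpace.1
    ((U₀.isClosed_of_isOpen hU₀).isCompact)
  have hcq : Sim J (ρ (γ ^ f)) ((q : ℚ_[ℓ]) ^ f) := by
    rw [map_pow]
    have h1 : ∀ f : ℕ, Sim J ((ρ γ) ^ f) ((q : ℚ_[ℓ]) ^ f) := by
      intro f
      induction f with
      | zero =>
        show ((ρ γ) ^ 0)ᵀ * J * (ρ γ) ^ 0 = (q : ℚ_[ℓ]) ^ 0 • J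
        rw [pow_zero, pow_zero, Matrix.transpose_one, one_mul, mul_one, one_smul]
      | succ m ih =>
        show ((ρ γ) ^ (m + 1))ᵀ * J * (ρ γ) ^ (m + 1) = (q : ℚ_[ℓ]) ^ (m + 1) • J
        have h1 : ((ρ γ) ^ (m + 1))ᵀ * J * (ρ γ) ^ (m + 1) =
            (ρ γ)ᵀ * (((ρ γ) ^ m)ᵀ * J * (ρ γ) ^ m) * ρ γ := by
          rw [pow_succ, Matrix.transpose_mul]
          noncomm_ring
        have h2 : ((ρ γ) ^ m)ᵀ * J * (ρ γ) ^ m = (q : ℚ_[ℓ]) ^ m • J := ih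
        have h3 : (ρ γ)ᵀ * J * ρ γ = (q : ℚ_[ℓ]) • J := hq
        rw [h1, h2, mul_smul_comm, smul_mul_assoc, h3, smul_smul, pow_succ]
    exact h1 f
  refine all_skew (ρ := ρ.comp U₀.subtype) (W := W) (γ := ⟨γ ^ f, hf⟩) (c := (q : ℚ_[ℓ]) ^ f)
    (x := x' ^ f) (U := U) (hρ.comp continuous_subtype_val) hJ hdet
    (fun X hX => tangent_restrict hρ hU₀ (htan X hX)) hcq ?_ ?_ hU hφ hX v
  · have h1 := root_pow hx' f
    have h2 : ((ρ γ).map (algebraMap ℚ_[ℓ] (AlgebraicClosure ℚ_[ℓ]))) ^ f =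
        (ρ (γ ^ f)).map (algebraMap ℚ_[ℓ] (AlgebraicClosure ℚ_[ℓ])) := by
      rw [map_pow]
      exact ((RingHom.mapMatrix (algebraMap ℚ_[ℓ] (AlgebraicClosure ℚ_[ℓ]))).map_pow (ρ γ) f).symm
    rw [h2] at h1
    rw [Units.val_pow_eq_pow_val]
    exact h1
  · intro m hm' hmem
    refine hind (f * m) (Nat.mul_pos hf0 hm') ?_
    rw [pow_mul]
    refine (Subgroup.closure_le _).2 ?_ hmem
    rintro y (hy | hy)
    · exact Subgroup.subset_closure (Or.inl hy)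
    · have hy' : (y : AlgebraicClosure ℚ_[ℓ]) = algebraMap ℚ_[ℓ] _ ((q : ℚ_[ℓ]) ^ f) := hy
      rw [map_pow] at hy'
      have hq0 : algebraMap ℚ_[ℓ] (AlgebraicClosure ℚ_[ℓ]) (q : ℚ_[ℓ]) ≠ 0 := by
        intro h0
        rw [h0, zero_pow hf0.ne'] at hy'
        exact y.ne_zero hy'
      have h5 : y = (Units.mk0 _ hq0) ^ f := by
        ext
        rw [hy', Units.val_pow_eq_pow_val, Units.val_mk0]
      rw [h5]
      refine pow_mem (Subgroup.subset_closure ?_) f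
      right
      show ((Units.mk0 _ hq0 : (AlgebraicClosure ℚ_[ℓ])ˣ) : AlgebraicClosure ℚ_[ℓ]) = _
      rw [Units.val_mk0]

/-- **Products in all degrees, orthogonal case.** -/
theorem prod_so {ρ : Γ →* Matrix (Fin N) (Fin N) ℚ_[ℓ]} (hρ : Continuous ρ)
    {J : Matrix (Fin N) (Fin N) ℚ_[ℓ]} (hJ : Jᵀ = J) (hN : 5 ≤ N) (hdet : J.det ≠ 0)
    (htan : ∀ X, Xᵀ * J + J * X = 0 → IsTangent ℓ ρ X)
    (hc : ∀ σ, (ρ σ)ᵀ * J * ρ σ = J)
    {U₀ : Subgroup Γ} (hU₀ : IsOpen (U₀ : Set Γ)) {W : U₀ →* Matrix (Fin L) (Fin L) ℚ_[ℓ]}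
    {γ : Γ} {f : ℕ} (hf : γ ^ f ∈ U₀) (hf0 : 0 < f) {P R : ℚ[X]}
    (hP : (ρ γ).charpoly = P.map (algebraMap ℚ ℚ_[ℓ]))
    (hR : (W ⟨γ ^ f, hf⟩).charpoly ∣ R.map (algebraMap ℚ ℚ_[ℓ]))
    {x : ℂˣ} (hx : aeval (x : ℂ) P = 0)
    (hm : ∀ m : ℕ, 0 < m → x ^ m ∉ Subgroup.closure {y : ℂˣ | aeval (y : ℂ) R = 0})
    {U : Subgroup U₀} (hU : IsOpen (U : Set U₀))
    {φ : MultilinearMap ℚ_[ℓ] (fun _ : Fin k => Fin N → ℚ_[ℓ]) (Fin L → ℚ_[ℓ])}
    (hφ : ∀ σ ∈ U, ∀ v, φ (fun j => ρ σ *ᵥ v j) = W σ *ᵥ φ v) :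
    (fun v => φ v) ∈ Submodule.span ℚ_[ℓ] {ψ : (Fin k → Fin N → ℚ_[ℓ]) → (Fin L → ℚ_[ℓ]) |
      (∃ (π : Equiv.Perm (Fin k)) (w : Fin L → ℚ_[ℓ]), (∀ j, π (π j) = j) ∧ (∀ j, π j ≠ j) ∧
        (∀ σ ∈ U, W σ *ᵥ w = w) ∧
        ∀ v, ψ v = (∏ j with j < π j, (v j ⬝ᵥ J *ᵥ v (π j))) • w) ∨
      ∃ (m : ℕ) (e : (Fin m × Fin 2) ⊕ Fin N ≃ Fin k) (w : Fin L → ℚ_[ℓ]),
        (∀ σ ∈ U, W σ *ᵥ w = (ρ σ).det • w) ∧
        ∀ v, ψ v = ((Matrix.of fun i => v (e (Sum.inr i))).det *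
          ∏ l, (v (e (Sum.inl (l, 0))) ⬝ᵥ J *ᵥ v (e (Sum.inl (l, 1))))) • w} := by
  have hsim : ∀ γ, Sim J (ρ γ) (1 : ℚ_[ℓ]) := by
    intro γ
    show (ρ γ)ᵀ * J * ρ γ = (1 : ℚ_[ℓ]) • J
    rw [one_smul]
    exact hc γ
  have hm' : ∀ m : ℕ, 0 < m →
      x ^ m ∉ Subgroup.closure {y : ℂˣ | aeval (y : ℂ) R = 0 ∨ (y : ℂ) = ((1 : ℚ) : ℂ)} := by
    intro m hm0 hmem
    refine hm m hm0 ?_
    refine (Subgroup.closure_le _).2 ?_ hmem
    rintro y (hy | hy)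
    · exact Subgroup.subset_closure hy
    · have h1 : y = 1 := by
        ext
        rw [hy, Rat.cast_one, Units.val_one]
      rw [h1]
      exact Subgroup.one_mem _
  have hskew := fun (X : Matrix (Fin N) (Fin N) ℚ_[ℓ]) hX v => skew_general hρ (Or.inl ⟨hJ, hN⟩)
    hdet htan hU₀ hf hf0 hP (q := 1) (by rw [Rat.cast_one]; exact hsim γ) hR hx hm' hU hφ
    (X := X) hX v
  let ι := {π : Equiv.Perm (Fin k) // (∀ j, π (π j) = j) ∧ ∀ j, π j ≠ j} ⊕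
    (Σ m : ℕ, ((Fin m × Fin 2) ⊕ Fin N ≃ Fin k))
  let fam : ι → (Fin k → Fin N → ℚ_[ℓ]) → ℚ_[ℓ] := Sum.elim
    (fun π v => ∏ j with j < π.1 j, (v j ⬝ᵥ J *ᵥ v (π.1 j)))
    (fun e v => (Matrix.of fun i => v (e.2 (Sum.inr i))).det *
          ∏ l, (v (e.2 (Sum.inl (l, 0))) ⬝ᵥ J *ᵥ v (e.2 (Sum.inl (l, 1)))))
  let χ : ι → U₀ → ℚ_[ℓ] := Sum.elim (fun _ _ => 1) (fun _ σ => (ρ σ).det)
  have hmain := extract_fam (F := ℚ_[ℓ]) (U := (U : Set U₀)) (ρ := fun σ : U₀ => ρ σ)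
    (W := fun σ => W σ) fam χ ?_ (φ := fun v => φ v) hφ ?_
  · refine Submodule.span_mono ?_ hmain
    rintro ψ ⟨i, w, h1, h2⟩
    rcases i with ⟨π, hπ1, hπ2⟩ | ⟨m, e⟩
    · left
      refine ⟨π, w, hπ1, hπ2, fun σ hσ => ?_, h2⟩
      have h3 := h1 σ hσ
      rwa [show χ (Sum.inl ⟨π, hπ1, hπ2⟩) σ = 1 from rfl, one_smul] at h3
    · right
      exact ⟨m, e, w, h1, h2⟩
  · intro i σ _ v
    rcases i with ⟨π, hπ1, hπ2⟩ | ⟨m, e⟩
    · have h3 := prs_sim (hsim σ) (f := fam (Sum.inl ⟨π, hπ1, hπ2⟩))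
        ⟨π, hπ1, hπ2, fun v => rfl⟩ v
      rw [one_pow] at h3
      exact h3
    · have h3 := dts_sim (hsim σ) e v
      rw [one_pow, mul_one] at h3
      exact h3
  · intro i
    have h3 := fft_all J hJ hdet (co φ i) fun a b v => by
      have h4 := congrFun (hskew _ (wedge_skew' hJ a b) v) i
      rw [Finset.sum_apply] at h4
      exact h4
    refine Submodule.span_mono ?_ h3
    rintro f (⟨π, hπ1, hπ2, h4⟩ | ⟨m, e, h4⟩)
    · exact ⟨Sum.inl ⟨π, hπ1, hπ2⟩, (funext h4).symm⟩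
    · exact ⟨Sum.inr ⟨m, e⟩, (funext h4).symm⟩

end general

end Pool.Agent.R932
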